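import Pool.Agent.Singer.Dim

/-!
# Singer: comparison of resolutions

`FS f`: finite support; `Mat T`: equivariant operators with a finitely supported matrix; `Res Γ`: resolutions of the
trivial module `ℂ` by finitely generated projective modules (all functions of finite support), completed to `ℓ²`.
Main result `Res.vanish`: whether all `ℓ²`-cycles in degree `i` are limits of boundaries does not depend on the resolution.
-/

set_option autoImplicit false
set_option linter.unusedSectionVars false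
set_option linter.unusedVariables false

open scoped ComplexConjugate InnerProductSpace
open Filter Topology

namespace Singer

universe u u' v

variable {Γ : Type*} [Group Γ] {ι κ μ : Type*}

/-! ### finite support -/

/-- finite support -/
def FS (f : E Γ ι) : Prop := {x | f x ≠ 0}.Finite

lemma FS.zero : FS (0 : E Γ ι) := by
  have : {x : Γ × ι | (0 : E Γ ι) x ≠ 0} = ∅ := by
    ext x
    simp
  unfold FS
  rw [this]
  exact Set.finite_empty

lemma FS.add {f g : E Γ ι} (hf : FS f) (hg : FS g) : FS (f + g) := by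
  refine (hf.union hg).subset fun x hx => ?_
  by_contra h
  simp only [Set.mem_union, not_or] at h
  apply hx
  rw [lp.coeFn_add, Pi.add_apply, show f x = 0 from not_not.1 h.1, show g x = 0 from not_not.1 h.2, add_zero]

lemma FS.smul {f : E Γ ι} (c : ℂ) (hf : FS f) : FS (c • f) := by
  refine hf.subset fun x hx => ?_
  intro h
  apply hx
  rw [lp.coeFn_smul, Pi.smul_apply, h, smul_zero]

lemma FS.neg {f : E Γ ι} (hf : FS f) : FS (-f) := by
  have := hf.smul (-1)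
  rwa [neg_one_smul] at this

lemma FS.sub {f g : E Γ ι} (hf : FS f) (hg : FS g) : FS (f - g) := by
  rw [sub_eq_add_neg]
  exact hf.add hg.neg

lemma FS.sum {α : Type*} {s : Finset α} {f : α → E Γ ι} (h : ∀ a ∈ s, FS (f a)) : FS (∑ a ∈ s, f a) := by
  classical
  induction s using Finset.induction_on with
  | empty => simpa using FS.zero
  | insert a s ha ih =>
    rw [Finset.sum_insert ha]
    exact (h a (Finset.mem_insert_self _ _)).add (ih fun b hb => h b (Finset.mem_insert_of_mem hb))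

lemma fs_lam {f : E Γ ι} (g : Γ) (hf : FS f) : FS (lam g f) := by
  have h1 : {x : Γ × ι | lam g f x ≠ 0} = (fun x : Γ × ι => (g⁻¹ * x.1, x.2)) ⁻¹' {x | f x ≠ 0} := by
    ext x
    simp
  unfold FS
  rw [h1]
  exact hf.preimage (left_inj g).injOn

lemma del_apply_self (g : Γ) (j : ι) : (del g j : E Γ ι) (g, j) = 1 := by
  classical
  simp [del]

lemma del_apply_ne {g : Γ} {j : ι} {x : Γ × ι} (h : x ≠ (g, j)) : (del g j : E Γ ι) x = 0 := by
  classical
  unfold del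
  rw [lp.single_apply, Pi.single_eq_of_ne h]

lemma fs_del (g : Γ) (j : ι) : FS (del g j : E Γ ι) := by
  refine (Set.finite_singleton (g, j)).subset fun x hx => ?_
  by_contra h
  exact hx (del_apply_ne h)

/-- a finitely supported function is a finite sum of basis vectors -/
lemma FS.eq_sum {f : E Γ ι} (hf : FS f) : f = ∑ x ∈ hf.toFinset, f x • del x.1 x.2 := by
  classical
  ext y
  rw [lp.coeFn_sum, Finset.sum_apply]
  simp only [lp.coeFn_smul, Pi.smul_apply, smul_eq_mul]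
  by_cases hy : f y = 0
  · rw [hy, Finset.sum_eq_zero]
    intro x hx
    have hxy : y ≠ (x.1, x.2) := by
      intro h
      have h1 := hf.mem_toFinset.1 hx
      apply h1
      have h2 : x = y := h.symm
      rw [h2]
      exact hy
    rw [del_apply_ne hxy, mul_zero]
  · rw [Finset.sum_eq_single_of_mem y (hf.mem_toFinset.2 hy)]
    · rw [show (Singer.del y.1 y.2 : E Γ ι) y = 1 from del_apply_self y.1 y.2, mul_one]
    · intro x _ hx
      rw [del_apply_ne (fun h => hx h.symm), mul_zero]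

/-! ### matrices -/

/-- equivariant operators with a finitely supported matrix -/
structure Mat (T : E Γ ι →L[ℂ] E Γ κ) : Prop where
  equi : Equi T
  fin : ∀ j, FS (T (del 1 j))

lemma equi_del {T : E Γ ι →L[ℂ] E Γ κ} (hT : Equi T) (g : Γ) (j : ι) : T (Singer.del g j) = Singer.lam g (T (Singer.del 1 j)) := by
  rw [← hT, lam_del, mul_one]

lemma Mat.fs {T : E Γ ι →L[ℂ] E Γ κ} (hT : Mat T) {f : E Γ ι} (hf : FS f) : FS (T f) := by
  rw [hf.eq_sum, map_sum]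
  refine FS.sum fun x _ => ?_
  rw [map_smul, equi_del hT.equi]
  exact (fs_lam _ (hT.fin x.2)).smul _

lemma equi_ext {S T : E Γ ι →L[ℂ] E Γ κ} (hS : Equi S) (hT : Equi T) (h : ∀ j, S (del 1 j) = T (del 1 j)) : S = T := by
  rw [← sub_eq_zero]
  refine eq_zero_of_del (hS.sub hT) fun j => ?_
  rw [sub_apply, h j, sub_self]

lemma Mat.comp {T : E Γ κ →L[ℂ] E Γ μ} {S : E Γ ι →L[ℂ] E Γ κ} (hT : Mat T) (hS : Mat S) : Mat (T.comp S) :=
  ⟨hT.equi.comp hS.equi, fun j => hT.fs (hS.fin j)⟩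

lemma Mat.add {T S : E Γ ι →L[ℂ] E Γ κ} (hT : Mat T) (hS : Mat S) : Mat (T + S) :=
  ⟨hT.equi.add hS.equi, fun j => (hT.fin j).add (hS.fin j)⟩

lemma Mat.sub {T S : E Γ ι →L[ℂ] E Γ κ} (hT : Mat T) (hS : Mat S) : Mat (T - S) :=
  ⟨hT.equi.sub hS.equi, fun j => (hT.fin j).sub (hS.fin j)⟩

lemma Mat.smul {T : E Γ ι →L[ℂ] E Γ κ} (c : ℂ) (hT : Mat T) : Mat (c • T) :=
  ⟨hT.equi.smul c, fun j => (hT.fin j).smul c⟩

lemma Mat.one : Mat (1 : E Γ ι →L[ℂ] E Γ ι) := ⟨equi_one, fun j => fs_del 1 j⟩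

lemma Mat.zero : Mat (0 : E Γ ι →L[ℂ] E Γ κ) := ⟨equi_zero, fun j => FS.zero⟩

lemma Mat.sum {α : Type*} {s : Finset α} {T : α → E Γ ι →L[ℂ] E Γ κ} (h : ∀ a ∈ s, Mat (T a)) :
    Mat (∑ a ∈ s, T a) := by
  classical
  induction s using Finset.induction_on with
  | empty => simpa using Mat.zero
  | insert a s ha ih =>
    rw [Finset.sum_insert ha]
    exact (h a (Finset.mem_insert_self _ _)).add (ih fun b hb => h b (Finset.mem_insert_of_mem hb))

lemma rt_del (a g : Γ) (j : ι) : rt a (del g j : E Γ ι) = del (g * a⁻¹) j := by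
  ext x
  rw [rt_apply]
  by_cases h : x = (g * a⁻¹, j)
  · subst h
    rw [del_apply_self]
    have : ((g * a⁻¹) * a, j) = (g, j) := by simp
    rw [show ((g * a⁻¹, j) : Γ × ι).1 * a = g by simp]
    exact del_apply_self g j
  · rw [del_apply_ne h, del_apply_ne]
    intro h1
    apply h
    have h2 : x.1 * a = g := congrArg Prod.fst h1
    have h3 : x.2 = j := congrArg Prod.snd h1
    rw [← h2, ← h3]
    simp

lemma mat_rt (a : Γ) : Mat (rt a : E Γ ι →L[ℂ] E Γ ι) := by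
  refine ⟨equi_rt a, fun j => ?_⟩
  rw [rt_del]
  exact fs_del _ j

lemma col_del_self (j : ι) (k : κ) (g : Γ) : col j k (del g j : E Γ ι) = del g k := by
  classical
  ext x
  rw [col_apply]
  by_cases h : x.2 = k
  · rw [if_pos h]
    by_cases h2 : x.1 = g
    · have h3 : x = (g, k) := Prod.ext h2 h
      subst h3
      exact (del_apply_self g j).trans (del_apply_self g k).symm
    · exact (del_apply_ne (x := (x.1, j)) (fun h3 => h2 (congrArg Prod.fst h3))).trans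
        (del_apply_ne (x := x) (fun h3 => h2 (congrArg Prod.fst h3))).symm
  · rw [if_neg h, del_apply_ne (fun h3 => h (congrArg Prod.snd h3))]

lemma col_del_ne {j j' : ι} (h : j' ≠ j) (k : κ) (g : Γ) : col j k (del g j' : E Γ ι) = 0 := by
  classical
  ext x
  rw [col_apply]
  by_cases h1 : x.2 = k
  · rw [if_pos h1, del_apply_ne (fun h3 => h (congrArg Prod.snd h3).symm)]
    rfl
  · rw [if_neg h1]
    rfl

lemma mat_col (j : ι) (k : κ) : Mat (col j k : E Γ ι →L[ℂ] E Γ κ) := by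
  refine ⟨equi_col j k, fun j' => ?_⟩
  by_cases h : j' = j
  · subst h
    rw [col_del_self]
    exact fs_del _ _
  · rw [col_del_ne h]
    exact FS.zero

/-- the operator with prescribed rows -/
lemma exists_mat [Fintype ι] (q : ι → E Γ κ) (hq : ∀ j, FS (q j)) :
    ∃ T : E Γ ι →L[ℂ] E Γ κ, Mat T ∧ ∀ j, T (del 1 j) = q j := by
  classical
  refine ⟨∑ j : ι, ∑ x ∈ (hq j).toFinset, q j x • (rt x.1⁻¹).comp (col j x.2), ?_, ?_⟩
  · exact Mat.sum fun j _ => Mat.sum fun x _ => ((mat_rt _).comp (mat_col _ _)).smul _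
  · intro j
    rw [sum_apply, Finset.sum_eq_single_of_mem j (Finset.mem_univ j)]
    · rw [sum_apply]
      conv_rhs => rw [(hq j).eq_sum]
      refine Finset.sum_congr rfl fun x _ => ?_
      rw [smul_apply, ContinuousLinearMap.comp_apply, col_del_self, rt_del]
      simp
    · intro j' _ hj'
      rw [sum_apply]
      refine Finset.sum_eq_zero fun x _ => ?_
      rw [smul_apply, ContinuousLinearMap.comp_apply, col_del_ne hj'.symm, map_zero, smul_zero]

/-! ### the augmentation -/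

/-- augmentation with weights `w` -/
noncomputable def eps (w : ι → ℂ) (f : E Γ ι) : ℂ := ∑ᶠ x : Γ × ι, w x.2 * f x

lemma eps_supp (w : ι → ℂ) {f : E Γ ι} (hf : FS f) : (Function.support fun x : Γ × ι => w x.2 * f x).Finite := by
  refine hf.subset fun x hx h => hx ?_
  show w x.2 * f x = 0
  rw [h, mul_zero]

lemma eps_add (w : ι → ℂ) {f g : E Γ ι} (hf : FS f) (hg : FS g) : eps w (f + g) = eps w f + eps w g := by
  unfold eps
  rw [← finsum_add_distrib (eps_supp w hf) (eps_supp w hg)]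
  congr 1
  funext x
  rw [lp.coeFn_add, Pi.add_apply, mul_add]

lemma eps_smul (w : ι → ℂ) (c : ℂ) {f : E Γ ι} (hf : FS f) : eps w (c • f) = c * eps w f := by
  unfold eps
  have h1 : c * ∑ᶠ x : Γ × ι, w x.2 * f x = ∑ᶠ x : Γ × ι, c * (w x.2 * f x) := mul_finsum _ _
  rw [h1]
  congr 1
  funext x
  rw [lp.coeFn_smul, Pi.smul_apply, smul_eq_mul]
  ring

lemma eps_zero (w : ι → ℂ) : eps w (0 : E Γ ι) = 0 := by
  have := eps_smul w 0 (FS.zero : FS (0 : E Γ ι))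
  simpa using this

lemma eps_sub (w : ι → ℂ) {f g : E Γ ι} (hf : FS f) (hg : FS g) : eps w (f - g) = eps w f - eps w g := by
  have h1 : f - g = f + (-1 : ℂ) • g := by
    rw [neg_one_smul, sub_eq_add_neg]
  rw [h1, eps_add w hf (hg.smul _), eps_smul w _ hg]
  ring

lemma eps_sum (w : ι → ℂ) {α : Type*} {s : Finset α} {f : α → E Γ ι} (h : ∀ a ∈ s, FS (f a)) :
    eps w (∑ a ∈ s, f a) = ∑ a ∈ s, eps w (f a) := by
  classical
  induction s using Finset.induction_on with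
  | empty => simpa using eps_zero w
  | insert a s ha ih =>
    rw [Finset.sum_insert ha, Finset.sum_insert ha, eps_add w (h a (Finset.mem_insert_self _ _))
      (FS.sum fun b hb => h b (Finset.mem_insert_of_mem hb)), ih fun b hb => h b (Finset.mem_insert_of_mem hb)]

lemma eps_lam (w : ι → ℂ) (g : Γ) (f : E Γ ι) : eps w (lam g f) = eps w f := by
  unfold eps
  rw [← finsum_comp_equiv ((Equiv.mulLeft g).prodCongr (Equiv.refl ι) : Γ × ι ≃ Γ × ι)]
  congr 1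
  funext x
  simp

lemma eps_mat {T : E Γ ι →L[ℂ] E Γ κ} (hT : Mat T) {w : ι → ℂ} {w' : κ → ℂ} {e : E Γ ι →L[ℂ] E Γ ι} (he : Mat e)
    (h : ∀ j, eps w' (T (del 1 j)) = eps w (e (del 1 j))) {f : E Γ ι} (hf : FS f) : eps w' (T f) = eps w (e f) := by
  rw [hf.eq_sum, map_sum, map_sum, eps_sum w' fun x _ => hT.fs ((fs_del _ _).smul _),
    eps_sum w fun x _ => he.fs ((fs_del _ _).smul _)]
  refine Finset.sum_congr rfl fun x _ => ?_
  rw [map_smul, map_smul, eps_smul w' _ (hT.fs (fs_del _ _)), eps_smul w _ (he.fs (fs_del _ _)), equi_del hT.equi,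
    equi_del he.equi, eps_lam, eps_lam, h]

/-! ### resolutions -/

lemma exists_seq {X : ℕ → Type*} (good : ∀ i, X i → Prop) (rel : ∀ i, X i → X (i + 1) → Prop)
    (h0 : ∃ x, good 0 x) (hs : ∀ i x, good i x → ∃ y, good (i + 1) y ∧ rel i x y) :
    ∃ x : ∀ i, X i, (∀ i, good i (x i)) ∧ ∀ i, rel i (x i) (x (i + 1)) := by
  classical
  let F : ∀ i, {x : X i // good i x} := fun i => Nat.rec ⟨h0.choose, h0.choose_spec⟩
    (fun i x => ⟨(hs i x.1 x.2).choose, (hs i x.1 x.2).choose_spec.1⟩) i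
  exact ⟨fun i => (F i).1, fun i => (F i).2, fun i => (hs i (F i).1 (F i).2).choose_spec.2⟩

/-- an augmented complex of finitely generated projective modules over `ℂ[Γ]`, realised in `ℓ²`:
`P i` is the range of the idempotent matrix `e i` -/
structure PreRes (Γ : Type v) [Group Γ] where
  ι : ℕ → Type u
  ft : ∀ i, Fintype (ι i)
  P : ∀ i, Submodule ℂ (E Γ (ι i))
  e : ∀ i, E Γ (ι i) →L[ℂ] E Γ (ι i)
  d : ∀ i, E Γ (ι (i + 1)) →L[ℂ] E Γ (ι i)
  w : ι 0 → ℂ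
  mat_e : ∀ i, Mat (e i)
  mat_d : ∀ i, Mat (d i)
  e_mem : ∀ i f, e i f ∈ P i
  e_eq : ∀ i, ∀ f ∈ P i, e i f = f
  d_mem : ∀ i, ∀ f ∈ P (i + 1), d i f ∈ P i
  d_d : ∀ i, ∀ f ∈ P (i + 2), d i (d (i + 1) f) = 0
  eps_d : ∀ f ∈ P 1, FS f → eps w (d 0 f) = 0

/-- a resolution of the trivial module by finitely generated projective modules over `ℂ[Γ]`, realised in `ℓ²`:
exactness is required for the finitely supported elements -/
structure Res (Γ : Type v) [Group Γ] extends PreRes.{u} Γ where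
  surj : ∃ f ∈ P 0, FS f ∧ eps w f = 1
  ex_zero : ∀ f ∈ P 0, FS f → eps w f = 0 → ∃ g ∈ P 1, FS g ∧ d 0 g = f
  ex_succ : ∀ i, ∀ f ∈ P (i + 1), FS f → d i f = 0 → ∃ g ∈ P (i + 2), FS g ∧ d (i + 1) g = f

attribute [instance] PreRes.ft

namespace PreRes

variable {Γ : Type v} [Group Γ]

/-- cycles -/
noncomputable def Z (R : PreRes.{u} Γ) : ∀ i, Submodule ℂ (E Γ (R.ι i))
  | 0 => R.P 0
  | i + 1 => R.P (i + 1) ⊓ LinearMap.ker (R.d i : E Γ (R.ι (i + 1)) →ₗ[ℂ] E Γ (R.ι i))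

/-- closure of the boundaries -/
noncomputable def B (R : PreRes.{u} Γ) (i : ℕ) : Submodule ℂ (E Γ (R.ι i)) :=
  ((R.P (i + 1)).map (R.d i : E Γ (R.ι (i + 1)) →ₗ[ℂ] E Γ (R.ι i))).topologicalClosure

/-- finitely supported cycles -/
def Zf (R : PreRes.{u} Γ) : ∀ i, E Γ (R.ι i) → Prop
  | 0, f => eps R.w f = 0
  | i + 1, f => R.d i f = 0

lemma zf_d (R : PreRes.{u} Γ) (i : ℕ) {f : E Γ (R.ι (i + 1))} (hf : f ∈ R.P (i + 1)) (h1 : FS f) :
    R.Zf i (R.d i f) := by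
  cases i with
  | zero => exact R.eps_d f hf h1
  | succ i => exact R.d_d i f hf

/-- an operator which maps the basis vectors into `P` maps everything into `P` -/
lemma mem_of_del (R : PreRes.{u} Γ) (i : ℕ) {κ : Type*} {T : E Γ κ →L[ℂ] E Γ (R.ι i)} (hT : Mat T)
    (h : ∀ j, T (del 1 j) ∈ R.P i) (f : E Γ κ) : T f ∈ R.P i := by
  have h1 : (R.e i).comp T = T := equi_ext ((R.mat_e i).equi.comp hT.equi) hT.equi fun j => R.e_eq i _ (h j)
  rw [← h1]
  exact R.e_mem i _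

lemma inv_P (R : PreRes.{u} Γ) (i : ℕ) : Inv (R.P i) := by
  intro g f hf
  rw [← R.e_eq i f hf, ← (R.mat_e i).equi]
  exact R.e_mem i _

lemma isClosed_P (R : PreRes.{u} Γ) (i : ℕ) : IsClosed (R.P i : Set (E Γ (R.ι i))) := by
  have h : (R.P i : Set (E Γ (R.ι i))) = {f | R.e i f = f} := by
    ext f
    constructor
    · exact fun hf => R.e_eq i f hf
    · intro hf
      have hf' : R.e i f = f := hf
      rw [← hf']
      exact R.e_mem i f
  rw [h]
  exact isClosed_eq (R.e i).continuous continuous_id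

end PreRes

namespace Res

variable {Γ : Type v} [Group Γ]

lemma ex (R : Res.{u} Γ) (i : ℕ) {f : E Γ (R.ι i)} (hf : f ∈ R.P i) (h1 : FS f) (h2 : R.Zf i f) :
    ∃ g ∈ R.P (i + 1), FS g ∧ R.d i g = f := by
  cases i with
  | zero => exact R.ex_zero f hf h1 h2
  | succ i => exact R.ex_succ i f hf h1 h2

/-- the lifting lemma -/
lemma lift (R : Res.{u} Γ) (i : ℕ) {κ : Type*} [Fintype κ] {T : E Γ κ →L[ℂ] E Γ (R.ι i)} (hT : Mat T)
    (hP : ∀ j, T (del 1 j) ∈ R.P i) (hZ : ∀ j, R.Zf i (T (del 1 j))) :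
    ∃ S : E Γ κ →L[ℂ] E Γ (R.ι (i + 1)), Mat S ∧ (∀ f, S f ∈ R.P (i + 1)) ∧ ∀ f, R.d i (S f) = T f := by
  have h1 : ∀ j, ∃ g, g ∈ R.P (i + 1) ∧ FS g ∧ R.d i g = T (del 1 j) := fun j => by
    obtain ⟨g, hg⟩ := R.ex i (hP j) (hT.fin j) (hZ j)
    exact ⟨g, hg⟩
  choose q hq1 hq2 hq3 using h1
  obtain ⟨S, hS, hSq⟩ := exists_mat q hq2
  refine ⟨S, hS, R.mem_of_del (i + 1) hS fun j => by rw [hSq]; exact hq1 j, fun f => ?_⟩
  have h2 : (R.d i).comp S = T := equi_ext ((R.mat_d i).equi.comp hS.equi) hT.equi fun j => by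
    rw [ContinuousLinearMap.comp_apply, hSq, hq3]
  rw [← h2]
  rfl

/-- existence of chain maps -/
theorem exists_chain (R : PreRes.{u} Γ) (R' : Res.{u'} Γ) : ∃ φ : ∀ i, E Γ (R.ι i) →L[ℂ] E Γ (R'.ι i), (∀ i, Mat (φ i)) ∧
    (∀ i f, φ i f ∈ R'.P i) ∧ (∀ i, ∀ f ∈ R.P (i + 1), R'.d i (φ (i + 1) f) = φ i (R.d i f)) ∧
    ∀ f ∈ R.P 0, FS f → eps R'.w (φ 0 f) = eps R.w f := by
  suffices H : ∃ φ : ∀ i, E Γ (R.ι i) →L[ℂ] E Γ (R'.ι i), (∀ i, Mat (φ i) ∧ (∀ f, φ i f ∈ R'.P i) ∧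
      (∀ f ∈ R.P i, FS f → R.Zf i f → R'.Zf i (φ i f)) ∧
      (∀ h : i = 0, ∀ f ∈ R.P i, FS f → eps R'.w (h ▸ φ i f) = eps R.w (h ▸ f))) ∧
      ∀ i, ∀ f ∈ R.P (i + 1), R'.d i (φ (i + 1) f) = φ i (R.d i f) by
    obtain ⟨φ, h1, h2⟩ := H
    exact ⟨φ, fun i => (h1 i).1, fun i => (h1 i).2.1, h2, (h1 0).2.2.2 rfl⟩
  refine exists_seq (X := fun i => E Γ (R.ι i) →L[ℂ] E Γ (R'.ι i))
    (fun i φ => Mat φ ∧ (∀ f, φ f ∈ R'.P i) ∧ (∀ f ∈ R.P i, FS f → R.Zf i f → R'.Zf i (φ f)) ∧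
      (∀ h : i = 0, ∀ f ∈ R.P i, FS f → eps R'.w (h ▸ φ f) = eps R.w (h ▸ f)))
    (fun i φ φ' => ∀ f ∈ R.P (i + 1), R'.d i (φ' f) = φ (R.d i f)) ?_ ?_
  · obtain ⟨v, hv1, hv2, hv3⟩ := R'.surj
    obtain ⟨T, hT, hTq⟩ := exists_mat (fun j => eps R.w (R.e 0 (del 1 j)) • v) fun j => hv2.smul _
    have h0 : ∀ f ∈ R.P 0, FS f → eps R'.w (T f) = eps R.w f := by
      intro f hf hfs
      rw [eps_mat (w := R.w) hT (R.mat_e 0) (fun j => ?_) hfs, R.e_eq 0 f hf]
      rw [hTq, eps_smul _ _ hv2, hv3, mul_one]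
    refine ⟨T, hT, R'.mem_of_del 0 hT fun j => ?_, ?_, ?_⟩
    · rw [hTq]
      exact Submodule.smul_mem _ _ hv1
    · intro f hf hfs hz
      show eps R'.w (T f) = 0
      rw [h0 f hf hfs]
      exact hz
    · intro h f hf hfs
      exact h0 f hf hfs
  · rintro i φ ⟨hM, hP, hZ, -⟩
    obtain ⟨S, hS, hSP, hSd⟩ := R'.lift i (T := (φ.comp (R.d i)).comp (R.e (i + 1)))
      ((hM.comp (R.mat_d i)).comp (R.mat_e (i + 1))) (fun j => hP _) (fun j =>
        hZ _ (R.d_mem i _ (R.e_mem (i + 1) _)) ((R.mat_d i).fs ((R.mat_e (i + 1)).fin j))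
          (R.zf_d i (R.e_mem (i + 1) _) ((R.mat_e (i + 1)).fin j)))
    have hrel : ∀ f ∈ R.P (i + 1), R'.d i (S f) = φ (R.d i f) := by
      intro f hf
      rw [hSd]
      show φ (R.d i (R.e (i + 1) f)) = _
      rw [R.e_eq (i + 1) f hf]
    refine ⟨S, ⟨hS, hSP, ?_, fun h => absurd h (Nat.succ_ne_zero i)⟩, hrel⟩
    intro f hf hfs hz
    show R'.d i (S f) = 0
    have hz' : R.d i f = 0 := hz
    rw [hrel f hf, hz', map_zero]

/-- null homotopies -/
theorem exists_homotopy (R : PreRes.{u} Γ) (R' : Res.{u'} Γ) (θ : ∀ i, E Γ (R.ι i) →L[ℂ] E Γ (R'.ι i)) (hM : ∀ i, Mat (θ i))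
    (hP : ∀ i, ∀ f ∈ R.P i, θ i f ∈ R'.P i) (hd : ∀ i, ∀ f ∈ R.P (i + 1), R'.d i (θ (i + 1) f) = θ i (R.d i f))
    (hε : ∀ f ∈ R.P 0, FS f → eps R'.w (θ 0 f) = 0) :
    ∃ h : ∀ i, E Γ (R.ι i) →L[ℂ] E Γ (R'.ι (i + 1)), (∀ i f, h i f ∈ R'.P (i + 1)) ∧
      (∀ f ∈ R.P 0, θ 0 f = R'.d 0 (h 0 f)) ∧
      ∀ i, ∀ f ∈ R.P (i + 1), θ (i + 1) f = R'.d (i + 1) (h (i + 1) f) + h i (R.d i f) := by
  suffices H : ∃ h : ∀ i, E Γ (R.ι i) →L[ℂ] E Γ (R'.ι (i + 1)), (∀ i, Mat (h i) ∧ (∀ f, h i f ∈ R'.P (i + 1)) ∧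
      (∀ f ∈ R.P (i + 1), R'.d i (h i (R.d i f)) = θ i (R.d i f)) ∧ (i = 0 → ∀ f ∈ R.P i, θ i f = R'.d i (h i f))) ∧
      ∀ i, ∀ f ∈ R.P (i + 1), θ (i + 1) f = R'.d (i + 1) (h (i + 1) f) + h i (R.d i f) by
    obtain ⟨h, h1, h2⟩ := H
    exact ⟨h, fun i => (h1 i).2.1, (h1 0).2.2.2 rfl, h2⟩
  refine exists_seq (X := fun i => E Γ (R.ι i) →L[ℂ] E Γ (R'.ι (i + 1)))
    (fun i h => Mat h ∧ (∀ f, h f ∈ R'.P (i + 1)) ∧ (∀ f ∈ R.P (i + 1), R'.d i (h (R.d i f)) = θ i (R.d i f)) ∧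
      (i = 0 → ∀ f ∈ R.P i, θ i f = R'.d i (h f)))
    (fun i h h' => ∀ f ∈ R.P (i + 1), θ (i + 1) f = R'.d (i + 1) (h' f) + h (R.d i f)) ?_ ?_
  · obtain ⟨S, hS, hSP, hSd⟩ := R'.lift 0 (T := (θ 0).comp (R.e 0)) ((hM 0).comp (R.mat_e 0))
      (fun j => hP 0 _ (R.e_mem 0 _)) (fun j => hε _ (R.e_mem 0 _) ((R.mat_e 0).fin j))
    have h0 : ∀ f ∈ R.P 0, θ 0 f = R'.d 0 (S f) := by
      intro f hf
      rw [hSd]
      show _ = θ 0 (R.e 0 f)
      rw [R.e_eq 0 f hf]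
    exact ⟨S, hS, hSP, fun f hf => (h0 _ (R.d_mem 0 f hf)).symm, fun _ => h0⟩
  · rintro i h ⟨hMh, hPh, hrel, -⟩
    obtain ⟨S, hS, hSP, hSd⟩ := R'.lift (i + 1)
      (T := (θ (i + 1)).comp (R.e (i + 1)) - (h.comp (R.d i)).comp (R.e (i + 1)))
      (((hM (i + 1)).comp (R.mat_e (i + 1))).sub ((hMh.comp (R.mat_d i)).comp (R.mat_e (i + 1))))
      (fun j => Submodule.sub_mem _ (hP (i + 1) _ (R.e_mem (i + 1) _)) (hPh _)) (fun j => by
        show R'.d i (θ (i + 1) (R.e (i + 1) (del 1 j)) - h (R.d i (R.e (i + 1) (del 1 j)))) = 0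
        rw [map_sub, hd i _ (R.e_mem (i + 1) _), hrel _ (R.e_mem (i + 1) _), sub_self])
    have h3 : ∀ f ∈ R.P (i + 1), θ (i + 1) f = R'.d (i + 1) (S f) + h (R.d i f) := by
      intro f hf
      rw [hSd]
      show _ = θ (i + 1) (R.e (i + 1) f) - h (R.d i (R.e (i + 1) f)) + _
      rw [R.e_eq (i + 1) f hf, sub_add_cancel]
    refine ⟨S, ⟨hS, hSP, fun f hf => ?_, fun h => absurd h (Nat.succ_ne_zero i)⟩, h3⟩
    have h4 := h3 _ (R.d_mem (i + 1) f hf)
    rw [R.d_d i f hf, map_zero, add_zero] at h4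
    exact h4.symm

/-- vanishing of the reduced `ℓ²`-homology in degree `i` does not depend on the resolution -/
theorem vanish (R : Res.{u} Γ) (R' : Res.{u'} Γ) (i : ℕ) (h : R.Z i ≤ R.B i) : R'.Z i ≤ R'.B i := by
  obtain ⟨φ, hφM, hφP, hφd, hφε⟩ := exists_chain R'.toPreRes R
  obtain ⟨ψ, hψM, hψP, hψd, hψε⟩ := exists_chain R.toPreRes R'
  obtain ⟨k, hkP, hk0, hks⟩ := exists_homotopy R'.toPreRes R' (fun i => (ψ i).comp (φ i) - 1)
    (fun i => ((hψM i).comp (hφM i)).sub Mat.one) (fun i f hf => Submodule.sub_mem _ (hψP i _) hf)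
    (fun i f hf => by
      show R'.d i (ψ (i + 1) (φ (i + 1) f) - f) = ψ i (φ i (R'.d i f)) - R'.d i f
      rw [map_sub, hψd i _ (hφP (i + 1) f), hφd i f hf])
    (fun f hf hfs => by
      show eps R'.w (ψ 0 (φ 0 f) - f) = 0
      rw [eps_sub _ ((hψM 0).fs ((hφM 0).fs hfs)) hfs, hψε _ (hφP 0 f) ((hφM 0).fs hfs), hφε f hf hfs, sub_self])
  intro z hz
  have hzP : z ∈ R'.P i := by
    cases i with
    | zero => exact hz
    | succ i => exact hz.1
  -- the image of `z` is a cycle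
  have h1 : φ i z ∈ R.Z i := by
    cases i with
    | zero => exact hφP 0 z
    | succ i =>
      refine ⟨hφP (i + 1) z, ?_⟩
      show R.d i (φ (i + 1) z) = 0
      rw [hφd i z hz.1, show R'.d i z = 0 from hz.2, map_zero]
  have h2 : ψ i (φ i z) ∈ R'.B i := by
    have h3 : ψ i (φ i z) ∈ _root_.closure ((ψ i : E Γ (R.ι i) → E Γ (R'.ι i)) ''
        ((R.P (i + 1)).map (R.d i : E Γ (R.ι (i + 1)) →ₗ[ℂ] E Γ (R.ι i)) : Set (E Γ (R.ι i)))) :=
      image_closure_subset_closure_image (ψ i).continuous ⟨φ i z, h h1, rfl⟩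
    refine closure_mono ?_ h3
    rintro _ ⟨_, ⟨g, hg, rfl⟩, rfl⟩
    exact ⟨ψ (i + 1) g, hψP (i + 1) g, hψd i g hg⟩
  have h4 : ψ i (φ i z) - z ∈ R'.B i := by
    apply Submodule.le_topologicalClosure
    cases i with
    | zero => exact ⟨k 0 z, hkP 0 z, (hk0 z hz).symm⟩
    | succ i =>
      refine ⟨k (i + 1) z, hkP (i + 1) z, ?_⟩
      have h5 := hks i z hz.1
      rw [show R'.d i z = 0 from hz.2, map_zero, add_zero] at h5
      exact h5.symm
  have h6 : z = ψ i (φ i z) - (ψ i (φ i z) - z) := by abel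
  rw [h6]
  exact Submodule.sub_mem _ h2 h4

end Res

end Singer
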