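import Pool.Agent.Singer.FinStmt

/-!
# `ℓ²`-Betti numbers of a resolution, in elementary terms

`sqDist S j`: the infimum of the squares of the `ℓ²`-distances between the basis vector in position `j` (value `1` at the
group element `1`) and the square-summable rows with the property `S`.  `FinRes.betti R i`: the `ℓ²`-Betti number in degree
`i` of a resolution `R`; this is the von Neumann dimension of the cycles minus that of the closure of the boundaries, as
the von Neumann dimension of a closed invariant subspace `V` is the sum over `j` of `‖p (e j)‖ ^ 2 = 1 - sqDist V j`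
(`p` the orthogonal projection on `V`).
-/

set_option autoImplicit false

namespace Singer

open Classical in
/-- the basis vector in position `j`: the value is `1` in position `j` at the group element `1`, and `0` elsewhere -/
noncomputable def unitRow {Γ ι : Type*} [Group Γ] (j : ι) : ι → Γ → ℂ := fun k g => if k = j ∧ g = 1 then 1 else 0

/-- the square of the `ℓ²`-distance from the basis vector in position `j` to the square-summable rows `x` with the
property `S` -/
noncomputable def sqDist {Γ ι : Type*} [Group Γ] [Fintype ι] (S : (ι → Γ → ℂ) → Prop) (j : ι) : ℝ :=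
  sInf {r : ℝ | ∃ x : ι → Γ → ℂ, SqS x ∧ S x ∧ r = ∑' g, ∑ k, ‖unitRow j k g - x k g‖ ^ 2}

namespace FinRes
variable {Γ : Type*} [Group Γ]

/-- boundaries of square-summable chains -/
def Bdy (R : FinRes Γ) (i : ℕ) (x : R.ι i → Γ → ℂ) : Prop :=
  ∃ y : R.ι (i + 1) → Γ → ℂ, SqS y ∧ ∀ l g, x l g = rmul y (R.d i) l g

/-- the `ℓ²`-Betti number of `Γ` in degree `i`, computed with the resolution `R` -/
noncomputable def betti (R : FinRes Γ) (i : ℕ) : ℝ :=
  ∑ j : R.ι i, (sqDist (R.Bdy i) j - sqDist (R.Cyc i) j)

end FinRes

end Singer
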