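import Pool.Agent.Singer.Loc

/-!
# Singer: induction along an injective homomorphism

`j : H →* Γ` injective.  `icj j` = extension by zero `E H ι → E Γ ι`, `rsj j` = restriction.
`ind j V` = the submodule of `E Γ ι` induced from the submodule `V` of `E H ι`.
Closed invariant submodules of `E H ι` correspond to closed invariant `H`-local submodules of `E Γ ι`; the
correspondence preserves dimension, intersections, closed sums, orthogonal complements, kernels, preimages and closures
of images.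
-/

set_option autoImplicit false
set_option linter.unusedSectionVars false
set_option linter.unusedVariables false

open scoped ComplexConjugate InnerProductSpace
open Filter Topology

namespace Singer

variable {H Γ : Type*} [Group H] [Group Γ] {ι κ μ : Type*}

section ind
variable (j : H →* Γ) (hj : Function.Injective j)

include hj in
lemma ij_inj : Function.Injective fun x : H × ι => (j x.1, x.2) := by
  rintro ⟨a, i⟩ ⟨b, k⟩ h
  simp only [Prod.mk.injEq] at h ⊢
  exact ⟨hj h.1, h.2⟩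

/-- extension by zero -/
noncomputable def icj : E H ι →L[ℂ] E Γ ι := push _ (ij_inj j hj)

/-- restriction -/
noncomputable def rsj : E Γ ι →L[ℂ] E H ι := pull _ (ij_inj j hj)

@[simp] lemma rsj_apply (f : E Γ ι) (x : H × ι) : rsj j hj f x = f (j x.1, x.2) := rfl

@[simp] lemma icj_apply (u : E H ι) (h : H) (i : ι) : icj j hj u (j h, i) = u (h, i) :=
  push_apply _ (ij_inj j hj) u (h, i)

lemma icj_apply_notMem (u : E H ι) {g : Γ} (hg : g ∉ j.range) (i : ι) : icj j hj u (g, i) = 0 := by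
  apply push_apply_of_notMem
  rintro ⟨x, hx⟩
  exact hg ⟨x.1, congrArg Prod.fst hx⟩

@[simp] lemma rsj_icj (u : E H ι) : rsj j hj (icj j hj u) = u := pull_push _ _ _

lemma norm_icj (u : E H ι) : ‖icj j hj u‖ = ‖u‖ := norm_push _ _ _

lemma icj_injective : Function.Injective (icj j hj : E H ι →L[ℂ] E Γ ι) := fun u v h => by
  rw [← rsj_icj j hj u, h, rsj_icj]

lemma icj_rsj (f : E Γ ι) : icj j hj (rsj j hj f) = cut (j.range : Set Γ) f := by
  ext x
  obtain ⟨g, i⟩ := x
  by_cases hg : g ∈ j.range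
  · rw [cut_apply_mem (by exact hg)]
    obtain ⟨h, rfl⟩ := hg
    rw [icj_apply, rsj_apply]
  · rw [cut_apply_notMem (by exact hg), icj_apply_notMem j hj _ hg]

lemma rsj_cut_range (f : E Γ ι) : rsj j hj (cut (j.range : Set Γ) f) = rsj j hj f := by
  rw [← icj_rsj j hj, rsj_icj]

lemma rsj_cut (S : Set Γ) (f : E Γ ι) : rsj j hj (cut S f) = cut (j ⁻¹' S) (rsj j hj f) := by
  classical
  ext x
  rw [rsj_apply, cut_apply, cut_apply]
  rfl

lemma cut_icj (S : Set Γ) (u : E H ι) : cut S (icj j hj u) = icj j hj (cut (j ⁻¹' S) u) := by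
  classical
  ext x
  obtain ⟨g, i⟩ := x
  by_cases hg : g ∈ j.range
  · obtain ⟨h, rfl⟩ := hg
    rw [icj_apply, cut_apply, cut_apply, icj_apply]
    rfl
  · rw [icj_apply_notMem j hj _ hg, cut_apply, icj_apply_notMem j hj _ hg]
    simp

lemma lam_icj (h : H) (u : E H ι) : lam (j h) (icj j hj u) = icj j hj (lam h u) := by
  ext x
  obtain ⟨g, i⟩ := x
  rw [lam_apply]
  by_cases hg : g ∈ j.range
  · obtain ⟨k, rfl⟩ := hg
    have e : ((j h)⁻¹ * (j k, i).1, (j k, i).2) = (j (h⁻¹ * k), i) := by simp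
    rw [e, icj_apply, icj_apply, lam_apply]
  · rw [icj_apply_notMem j hj _ hg, icj_apply_notMem j hj]
    rintro ⟨k, hk⟩
    refine hg ⟨h * k, ?_⟩
    rw [map_mul, hk, mul_inv_cancel_left]

lemma rsj_lam (h : H) (f : E Γ ι) : rsj j hj (lam (j h) f) = lam h (rsj j hj f) := by
  ext x
  simp

lemma rsj_lam_icj_of_notMem {g : Γ} (hg : g ∉ j.range) (u : E H ι) : rsj j hj (lam g (icj j hj u)) = 0 := by
  ext x
  rw [rsj_apply, lam_apply]
  show icj j hj u (g⁻¹ * j x.1, x.2) = 0
  apply icj_apply_notMem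
  rintro ⟨k, hk⟩
  apply hg
  refine ⟨x.1 * k⁻¹, ?_⟩
  rw [map_mul, map_inv, hk]
  group

lemma rt_icj (h : H) (u : E H ι) : rt (j h) (icj j hj u) = icj j hj (rt h u) := by
  ext x
  obtain ⟨g, i⟩ := x
  rw [rt_apply]
  by_cases hg : g ∈ j.range
  · obtain ⟨k, rfl⟩ := hg
    have e : ((j k, i).1 * (j h), (j k, i).2) = (j (k * h), i) := by simp
    rw [e, icj_apply, icj_apply, rt_apply]
  · rw [icj_apply_notMem j hj _ hg, icj_apply_notMem j hj]
    rintro ⟨k, hk⟩
    refine hg ⟨k * h⁻¹, ?_⟩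
    rw [map_mul, hk, map_inv, mul_inv_cancel_right]

lemma rsj_rt (h : H) (f : E Γ ι) : rsj j hj (rt (j h) f) = rt h (rsj j hj f) := by
  ext x
  simp

lemma inner_icj_left (u : E H ι) (f : E Γ ι) : ⟪icj j hj u, f⟫_ℂ = ⟪u, rsj j hj f⟫_ℂ := by
  rw [inner_eq, inner_eq]
  symm
  have hsupp : Function.support (fun y : Γ × ι => conj (icj j hj u y) * f y) ⊆
      Set.range fun x : H × ι => (j x.1, x.2) := by
    rintro ⟨g, i⟩ hy
    by_contra hc
    apply hy
    have : icj j hj u (g, i) = 0 := by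
      apply icj_apply_notMem
      rintro ⟨h, rfl⟩
      exact hc ⟨(h, i), rfl⟩
    show conj (icj j hj u (g, i)) * f (g, i) = 0
    rw [this]; simp
  rw [← (ij_inj j hj).tsum_eq hsupp]
  congr 1
  funext x
  obtain ⟨h, i⟩ := x
  simp

lemma inner_icj_right (u : E H ι) (f : E Γ ι) : ⟪f, icj j hj u⟫_ℂ = ⟪rsj j hj f, u⟫_ℂ := by
  rw [← inner_conj_symm, inner_icj_left, inner_conj_symm]

lemma del_eq_icj (h : H) (i : ι) : del (j h) i = icj j hj (del h i) := by
  refine ext_inner_right ℂ fun f => ?_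
  rw [inner_icj_left, inner_del_left, inner_del_left, rsj_apply]

/-- the induced module -/
noncomputable def ind (V : Submodule ℂ (E H ι)) : Submodule ℂ (E Γ ι) :=
  ⨅ g : Γ, V.comap (((rsj j hj).comp (lam g) : E Γ ι →L[ℂ] E H ι) : E Γ ι →ₗ[ℂ] E H ι)

variable {j hj}

lemma mem_ind {V : Submodule ℂ (E H ι)} {f : E Γ ι} : f ∈ ind j hj V ↔ ∀ g, rsj j hj (lam g f) ∈ V := by
  unfold ind
  rw [Submodule.mem_iInf]
  rfl

lemma inv_ind (V : Submodule ℂ (E H ι)) : Inv (ind j hj V) := by
  intro g f hf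
  rw [mem_ind] at hf ⊢
  intro g'
  rw [lam_lam]
  exact hf _

lemma isClosed_ind {V : Submodule ℂ (E H ι)} (hV : IsClosed (V : Set (E H ι))) :
    IsClosed (ind j hj V : Set (E Γ ι)) := by
  have : (ind j hj V : Set (E Γ ι)) = ⋂ g : Γ, ((rsj j hj).comp (lam g)) ⁻¹' (V : Set (E H ι)) := by
    ext f
    simp only [SetLike.mem_coe, mem_ind, Set.mem_iInter, Set.mem_preimage]
    rfl
  rw [this]
  exact isClosed_iInter fun g => hV.preimage (ContinuousLinearMap.continuous _)

lemma ind_mono {V W : Submodule ℂ (E H ι)} (h : V ≤ W) : ind j hj V ≤ ind j hj W := by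
  intro f hf
  rw [mem_ind] at hf ⊢
  exact fun g => h (hf g)

lemma icj_mem_ind {V : Submodule ℂ (E H ι)} (hV : Inv V) {u : E H ι} : icj j hj u ∈ ind j hj V ↔ u ∈ V := by
  rw [mem_ind]
  constructor
  · intro h
    have := h 1
    rwa [lam_one, rsj_icj] at this
  · intro h g
    by_cases hg : g ∈ j.range
    · obtain ⟨k, rfl⟩ := hg
      rw [lam_icj, rsj_icj]
      exact hV k u h
    · rw [rsj_lam_icj_of_notMem j hj hg]
      exact V.zero_mem

lemma ind_le_ind {V W : Submodule ℂ (E H ι)} (hV : Inv V) (hW : Inv W) : ind j hj V ≤ ind j hj W ↔ V ≤ W :=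
  ⟨fun h u hu => (icj_mem_ind hW).1 (h ((icj_mem_ind hV).2 hu)), ind_mono⟩

lemma ind_inj {V W : Submodule ℂ (E H ι)} (hV : Inv V) (hW : Inv W) (h : ind j hj V = ind j hj W) : V = W :=
  le_antisymm ((ind_le_ind hV hW).1 h.le) ((ind_le_ind hW hV).1 h.ge)

lemma ind_inf (V W : Submodule ℂ (E H ι)) : ind j hj (V ⊓ W) = ind j hj V ⊓ ind j hj W := by
  ext f
  rw [Submodule.mem_inf, mem_ind, mem_ind, mem_ind]
  exact forall_and

lemma ind_top : ind j hj (⊤ : Submodule ℂ (E H ι)) = ⊤ := by
  rw [eq_top_iff]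
  intro f _
  rw [mem_ind]
  exact fun _ => trivial

lemma eq_zero_of_rsj {f : E Γ ι} (h : ∀ g, rsj j hj (lam g f) = 0) : f = 0 := by
  ext x
  obtain ⟨g, i⟩ := x
  have h1 := congrArg (fun u : E H ι => u (1, i)) (h g⁻¹)
  simpa using h1

lemma ind_bot : ind j hj (⊥ : Submodule ℂ (E H ι)) = ⊥ := by
  rw [eq_bot_iff]
  intro f hf
  rw [mem_ind] at hf
  rw [Submodule.mem_bot]
  exact eq_zero_of_rsj fun g => by simpa using hf g

lemma rsj_lam_cut_range (g : Γ) (f : E Γ ι) :
    rsj j hj (lam g (cut (j.range : Set Γ) f)) = rsj j hj (lam g f) ∨ rsj j hj (lam g (cut (j.range : Set Γ) f)) = 0 := by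
  by_cases hg : g ∈ j.range
  · left
    obtain ⟨k, rfl⟩ := hg
    rw [rsj_lam, rsj_lam, rsj_cut_range]
  · right
    rw [← icj_rsj j hj, rsj_lam_icj_of_notMem j hj hg]

/-- induced modules are local -/
lemma loc_ind (V : Submodule ℂ (E H ι)) : Loc j.range (ind j hj V) := by
  intro f hf
  rw [mem_ind] at hf ⊢
  intro g
  rcases rsj_lam_cut_range (j := j) (hj := hj) g f with h | h
  · rw [h]; exact hf g
  · rw [h]; exact V.zero_mem

/-- restriction of a module -/
noncomputable def coi (j : H →* Γ) (hj : Function.Injective j) (W : Submodule ℂ (E Γ ι)) : Submodule ℂ (E H ι) :=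
  W.comap ((icj j hj : E H ι →L[ℂ] E Γ ι) : E H ι →ₗ[ℂ] E Γ ι)

lemma mem_coi {W : Submodule ℂ (E Γ ι)} {u : E H ι} : u ∈ coi j hj W ↔ icj j hj u ∈ W := Iff.rfl

lemma inv_coi {W : Submodule ℂ (E Γ ι)} (hW : Inv W) : Inv (coi j hj W) := by
  intro h u hu
  rw [mem_coi] at hu ⊢
  rw [← lam_icj]
  exact hW _ _ hu

lemma isClosed_coi {W : Submodule ℂ (E Γ ι)} (hW : IsClosed (W : Set (E Γ ι))) :
    IsClosed (coi j hj W : Set (E H ι)) := hW.preimage (icj j hj).continuous

lemma coi_mono {V W : Submodule ℂ (E Γ ι)} (h : V ≤ W) : coi j hj V ≤ coi j hj W := fun _ hu => h hu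

lemma coi_inf (V W : Submodule ℂ (E Γ ι)) : coi j hj (V ⊓ W) = coi j hj V ⊓ coi j hj W := rfl

@[simp] lemma coi_ind {V : Submodule ℂ (E H ι)} (hV : Inv V) : coi j hj (ind j hj V) = V := by
  ext u
  rw [mem_coi, icj_mem_ind hV]

/-- a closed invariant local module contains the functions all of whose pieces it contains -/
lemma mem_of_pieces {W : Submodule ℂ (E Γ ι)} (hI : Inv W) (hc : IsClosed (W : Set (E Γ ι)))
    (hL : Loc j.range W) {f : E Γ ι} (hf : ∀ g, cut (j.range : Set Γ) (lam g f) ∈ W) : f ∈ W := by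
  have hP : prj W f ∈ W := by
    have := prj_mem W f
    rwa [IsClosed.submodule_topologicalClosure_eq hc] at this
  have hw : f - prj W f ∈ Wᗮ := sub_prj_mem W f
  have key : ∀ g, cut (j.range : Set Γ) (lam g (f - prj W f)) = 0 := by
    intro g
    have h1 : cut (j.range : Set Γ) (lam g (f - prj W f)) ∈ W := by
      rw [map_sub, map_sub]
      exact W.sub_mem (hf g) (hL _ (hI g _ hP))
    have h2 : cut (j.range : Set Γ) (lam g (f - prj W f)) ∈ Wᗮ := hL.orthogonal _ (hI.orthogonal g _ hw)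
    exact inner_self_eq_zero (𝕜 := ℂ).1 ((Submodule.mem_orthogonal _ _).1 h2 _ h1)
  have h0 : f - prj W f = 0 := by
    ext x
    obtain ⟨g, i⟩ := x
    have h1 := congrArg (fun u : E Γ ι => u (1, i)) (key g⁻¹)
    have h2 : (1 : Γ) ∈ (j.range : Set Γ) := ⟨1, map_one j⟩
    simp only [cut_apply_mem (x := ((1 : Γ), i)) h2] at h1
    simpa using h1
  rw [sub_eq_zero] at h0
  rw [h0]
  exact hP

/-- closed invariant local modules are induced -/
theorem ind_coi {W : Submodule ℂ (E Γ ι)} (hI : Inv W) (hc : IsClosed (W : Set (E Γ ι)))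
    (hL : Loc j.range W) : ind j hj (coi j hj W) = W := by
  ext f
  rw [mem_ind]
  constructor
  · intro h
    refine mem_of_pieces hI hc hL fun g => ?_
    rw [← icj_rsj j hj]
    exact h g
  · intro h g
    rw [mem_coi, icj_rsj]
    exact hL _ (hI g f h)

/-- orthogonal complements -/
theorem ind_orthogonal {V : Submodule ℂ (E H ι)} (hV : Inv V) (hc : IsClosed (V : Set (E H ι))) :
    ind j hj Vᗮ = (ind j hj V)ᗮ := by
  have h1 : coi j hj (ind j hj V)ᗮ = Vᗮ := by
    ext u
    rw [mem_coi, Submodule.mem_orthogonal, Submodule.mem_orthogonal]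
    constructor
    · intro h v hv
      have := h (icj j hj v) ((icj_mem_ind hV).2 hv)
      rwa [inner_icj_left, rsj_icj] at this
    · intro h f hf
      rw [inner_icj_right]
      refine h _ ?_
      have := (mem_ind.1 hf) 1
      rwa [lam_one] at this
  rw [← h1]
  exact ind_coi (inv_ind V).orthogonal (Submodule.isClosed_orthogonal _) (loc_ind V).orthogonal

lemma prj_ind {V : Submodule ℂ (E H ι)} (hV : Inv V) (hc : IsClosed (V : Set (E H ι))) (u : E H ι) :
    prj (ind j hj V) (icj j hj u) = icj j hj (prj V u) := by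
  refine prj_unique ?_ ?_
  · apply Submodule.le_topologicalClosure
    rw [icj_mem_ind hV]
    have := prj_mem V u
    rwa [IsClosed.submodule_topologicalClosure_eq hc] at this
  · rw [← map_sub, ← ind_orthogonal hV hc, icj_mem_ind hV.orthogonal]
    exact sub_prj_mem V u

/-- induction preserves the dimension -/
theorem vdim_ind [Fintype ι] {V : Submodule ℂ (E H ι)} (hV : Inv V) (hc : IsClosed (V : Set (E H ι))) :
    vdim (ind j hj V) = vdim V := by
  unfold vdim
  refine Finset.sum_congr rfl fun i _ => ?_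
  have : del (1 : Γ) i = icj j hj (del (1 : H) i) := by
    have := del_eq_icj j hj (1 : H) i
    rwa [map_one] at this
  rw [this, prj_ind hV hc, norm_icj]

/-- restriction preserves the dimension of local modules -/
theorem vdim_coi [Fintype ι] {W : Submodule ℂ (E Γ ι)} (hI : Inv W) (hc : IsClosed (W : Set (E Γ ι)))
    (hL : Loc j.range W) : vdim (coi j hj W) = vdim W := by
  rw [← vdim_ind (j := j) (hj := hj) (inv_coi hI) (isClosed_coi hc), ind_coi hI hc hL]

/-- closed sums -/
theorem ind_sup {V W : Submodule ℂ (E H ι)} (hV : Inv V) (hW : Inv W) :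
    ind j hj (V ⊔ W).topologicalClosure = (ind j hj V ⊔ ind j hj W).topologicalClosure := by
  apply le_antisymm
  · have hI : Inv (ind j hj V ⊔ ind j hj W).topologicalClosure := ((inv_ind V).sup (inv_ind W)).closure
    have hc := Submodule.isClosed_topologicalClosure (ind j hj V ⊔ ind j hj W)
    rw [← ind_coi (j := j) (hj := hj) hI hc ((loc_ind V).sup (loc_ind W)).closure]
    apply ind_mono
    refine Submodule.topologicalClosure_minimal _ (sup_le ?_ ?_) (isClosed_coi hc)
    · intro u hu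
      exact Submodule.le_topologicalClosure _ (Submodule.mem_sup_left ((icj_mem_ind hV).2 hu))
    · intro u hu
      exact Submodule.le_topologicalClosure _ (Submodule.mem_sup_right ((icj_mem_ind hW).2 hu))
  · refine Submodule.topologicalClosure_minimal _ (sup_le ?_ ?_)
      (isClosed_ind (Submodule.isClosed_topologicalClosure _))
    · exact ind_mono (le_sup_left.trans (Submodule.le_topologicalClosure _))
    · exact ind_mono (le_sup_right.trans (Submodule.le_topologicalClosure _))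

variable (j hj) in
/-- `T'` is induced from `T` -/
structure IndRel (T : E H ι →L[ℂ] E H κ) (T' : E Γ ι →L[ℂ] E Γ κ) : Prop where
  equi : Equi T
  equi' : Equi T'
  icj : ∀ u, T' (icj j hj u) = icj j hj (T u)
  rsj : ∀ f, rsj j hj (T' f) = T (rsj j hj f)

namespace IndRel

lemma comp {S : E H κ →L[ℂ] E H μ} {S' : E Γ κ →L[ℂ] E Γ μ} {T : E H ι →L[ℂ] E H κ} {T' : E Γ ι →L[ℂ] E Γ κ}
    (hS : IndRel j hj S S') (hT : IndRel j hj T T') : IndRel j hj (S.comp T) (S'.comp T') where
  equi := hS.equi.comp hT.equi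
  equi' := hS.equi'.comp hT.equi'
  icj u := by simp [hT.icj, hS.icj]
  rsj f := by simp [hT.rsj, hS.rsj]

lemma add {S T : E H ι →L[ℂ] E H κ} {S' T' : E Γ ι →L[ℂ] E Γ κ}
    (hS : IndRel j hj S S') (hT : IndRel j hj T T') : IndRel j hj (S + T) (S' + T') where
  equi := hS.equi.add hT.equi
  equi' := hS.equi'.add hT.equi'
  icj u := by simp [hT.icj, hS.icj]
  rsj f := by simp [hT.rsj, hS.rsj]

lemma sub {S T : E H ι →L[ℂ] E H κ} {S' T' : E Γ ι →L[ℂ] E Γ κ}
    (hS : IndRel j hj S S') (hT : IndRel j hj T T') : IndRel j hj (S - T) (S' - T') where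
  equi := hS.equi.sub hT.equi
  equi' := hS.equi'.sub hT.equi'
  icj u := by simp [hT.icj, hS.icj]
  rsj f := by simp [hT.rsj, hS.rsj]

lemma smul (c : ℂ) {T : E H ι →L[ℂ] E H κ} {T' : E Γ ι →L[ℂ] E Γ κ}
    (hT : IndRel j hj T T') : IndRel j hj (c • T) (c • T') where
  equi := hT.equi.smul c
  equi' := hT.equi'.smul c
  icj u := by simp [hT.icj]
  rsj f := by simp [hT.rsj]

lemma zero : IndRel j hj (0 : E H ι →L[ℂ] E H κ) 0 where
  equi := equi_zero
  equi' := equi_zero
  icj u := by simp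
  rsj f := by simp

lemma one : IndRel j hj (1 : E H ι →L[ℂ] E H ι) 1 where
  equi := equi_one
  equi' := equi_one
  icj u := rfl
  rsj f := rfl

lemma sum {α : Type*} {s : Finset α} {T : α → E H ι →L[ℂ] E H κ} {T' : α → E Γ ι →L[ℂ] E Γ κ}
    (h : ∀ a ∈ s, IndRel j hj (T a) (T' a)) : IndRel j hj (∑ a ∈ s, T a) (∑ a ∈ s, T' a) := by
  classical
  induction s using Finset.induction_on with
  | empty => simpa using zero
  | insert a s ha ih =>
    rw [Finset.sum_insert ha, Finset.sum_insert ha]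
    exact (h a (Finset.mem_insert_self _ _)).add (ih fun b hb => h b (Finset.mem_insert_of_mem hb))

lemma rt (h : H) : IndRel j hj (rt h : E H ι →L[ℂ] E H ι) (Singer.rt (j h)) where
  equi := equi_rt h
  equi' := equi_rt (j h)
  icj u := rt_icj j hj h u
  rsj f := rsj_rt j hj h f

lemma col (i : ι) (k : κ) : IndRel j hj (col i k : E H ι →L[ℂ] E H κ) (Singer.col i k) where
  equi := equi_col i k
  equi' := equi_col i k
  icj u := by
    classical
    ext x
    obtain ⟨g, m⟩ := x
    rw [col_apply]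
    by_cases hg : g ∈ j.range
    · obtain ⟨h, rfl⟩ := hg
      rw [icj_apply, icj_apply, col_apply]
    · rw [icj_apply_notMem j hj _ hg, icj_apply_notMem j hj _ hg]
      simp
  rsj f := by
    classical
    ext x
    rw [rsj_apply, col_apply, col_apply, rsj_apply]

variable {T : E H ι →L[ℂ] E H κ} {T' : E Γ ι →L[ℂ] E Γ κ}

lemma rsj_lam (h : IndRel j hj T T') (g : Γ) (f : E Γ ι) :
    Singer.rsj j hj (lam g (T' f)) = T (Singer.rsj j hj (lam g f)) := by
  rw [← h.equi', h.rsj]

/-- preimages -/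
theorem comap (h : IndRel j hj T T') (V : Submodule ℂ (E H κ)) :
    ind j hj (V.comap (T : E H ι →ₗ[ℂ] E H κ)) = (ind j hj V).comap (T' : E Γ ι →ₗ[ℂ] E Γ κ) := by
  ext f
  rw [mem_ind, Submodule.mem_comap, mem_ind]
  refine forall_congr' fun g => ?_
  show T (Singer.rsj j hj (lam g f)) ∈ V ↔ Singer.rsj j hj (lam g (T' f)) ∈ V
  rw [h.rsj_lam]

/-- kernels -/
theorem ker (h : IndRel j hj T T') :
    ind j hj (LinearMap.ker (T : E H ι →ₗ[ℂ] E H κ)) = LinearMap.ker (T' : E Γ ι →ₗ[ℂ] E Γ κ) := by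
  have h1 := h.comap ⊥
  rwa [ind_bot] at h1

/-- closures of images -/
theorem map (h : IndRel j hj T T') {V : Submodule ℂ (E H ι)} (hV : Inv V) :
    ind j hj (V.map (T : E H ι →ₗ[ℂ] E H κ)).topologicalClosure =
      ((ind j hj V).map (T' : E Γ ι →ₗ[ℂ] E Γ κ)).topologicalClosure := by
  apply le_antisymm
  · have hI : Inv ((ind j hj V).map (T' : E Γ ι →ₗ[ℂ] E Γ κ)).topologicalClosure :=
      ((inv_ind V).map h.equi').closure
    have hc := Submodule.isClosed_topologicalClosure ((ind j hj V).map (T' : E Γ ι →ₗ[ℂ] E Γ κ))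
    have hL : Loc j.range ((ind j hj V).map (T' : E Γ ι →ₗ[ℂ] E Γ κ)).topologicalClosure := by
      apply Loc.closure
      rintro _ ⟨f, hf, rfl⟩
      refine ⟨cut (j.range : Set Γ) f, loc_ind V f hf, ?_⟩
      show T' (cut (j.range : Set Γ) f) = cut (j.range : Set Γ) (T' f)
      rw [← icj_rsj j hj, ← icj_rsj j hj, h.icj, h.rsj]
    rw [← ind_coi (j := j) (hj := hj) hI hc hL]
    apply ind_mono
    refine Submodule.topologicalClosure_minimal _ ?_ (isClosed_coi hc)
    rintro _ ⟨u, hu, rfl⟩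
    rw [mem_coi]
    apply Submodule.le_topologicalClosure
    refine ⟨Singer.icj j hj u, (icj_mem_ind hV).2 hu, ?_⟩
    exact h.icj u
  · refine Submodule.topologicalClosure_minimal _ ?_ (isClosed_ind (Submodule.isClosed_topologicalClosure _))
    rintro _ ⟨f, hf, rfl⟩
    rw [mem_ind]
    intro g
    apply Submodule.le_topologicalClosure
    exact ⟨Singer.rsj j hj (lam g f), mem_ind.1 hf g, (h.rsj_lam g f).symm⟩

end IndRel

/-- locality with respect to a smaller subgroup -/
lemma loc_ind_iff {V : Submodule ℂ (E H ι)} (hV : Inv V) (S : Subgroup H) :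
    Loc (S.map j) (ind j hj V) ↔ Loc S V := by
  have hpre : j ⁻¹' ((S.map j : Subgroup Γ) : Set Γ) = (S : Set H) := by
    rw [Subgroup.coe_map]
    exact Set.preimage_image_eq _ hj
  constructor
  · intro h u hu
    have h1 := h _ ((icj_mem_ind (j := j) (hj := hj) hV).2 hu)
    rw [cut_icj, hpre, icj_mem_ind hV] at h1
    exact h1
  · intro h f hf
    rw [mem_ind]
    intro g
    by_cases hg : g ∈ j.range
    · obtain ⟨k, rfl⟩ := hg
      rw [rsj_lam, rsj_cut, hpre]
      have h1 := (mem_ind.1 hf) 1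
      rw [lam_one] at h1
      exact hV k _ (h _ h1)
    · have h1 : cut ((S.map j : Subgroup Γ) : Set Γ) f =
          cut (j.range : Set Γ) (cut ((S.map j : Subgroup Γ) : Set Γ) f) := by
        rw [cut_cut]
        congr 1
        rw [Set.inter_eq_right.2]
        rw [Subgroup.coe_map]
        exact Set.image_subset_range _ _
      rw [h1, ← icj_rsj j hj, rsj_lam_icj_of_notMem j hj hg]
      exact V.zero_mem

lemma loc_coi {W : Submodule ℂ (E Γ ι)} {S : Subgroup H} (hL : Loc (S.map j) W) : Loc S (coi j hj W) := by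
  intro u hu
  rw [mem_coi] at hu ⊢
  have h := hL _ hu
  have hpre : j ⁻¹' ((S.map j : Subgroup Γ) : Set Γ) = (S : Set H) := by
    rw [Subgroup.coe_map]
    exact Set.preimage_image_eq _ hj
  rwa [cut_icj, hpre] at h

end ind

end Singer
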