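import Pool.Agent.Singer.FinElem
import Pool.Agent.Singer.Gen.Pre
import Pool.Agent.Singer.Gen.Cone
import Pool.Agent.Singer.BettiStmt

/-!
# Singer: the `ℓ²`-Betti numbers of a resolution

* `Res.h_eq`: the Betti numbers do not depend on the resolution;
* `FinRes.betti_eq`: the elementary Betti numbers are those of the Hilbert complex of the resolution;
* `FinRes.betti_congr`, `FinRes.betti_nonneg`, `FinRes.betti_eq_zero_iff`.
-/

set_option autoImplicit false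
set_option linter.unusedSectionVars false
set_option linter.unusedVariables false

open scoped ComplexConjugate InnerProductSpace Matrix
open Filter Topology

namespace Singer

namespace Res
variable {Γ : Type*} [Group Γ]

theorem h_le (R R' : Res.{0} Γ) (i : ℕ) : R'.toPreRes.toHC.h i ≤ R.toPreRes.toHC.h i := by
  obtain ⟨φ, hφM, hφP, hφd, hφε⟩ := exists_chain R'.toPreRes R
  obtain ⟨ψ, hψM, hψP, hψd, hψε⟩ := exists_chain R.toPreRes R'
  obtain ⟨k, hkP, hk0, hks⟩ := exists_homotopy R'.toPreRes R' (fun i => (ψ i).comp (φ i) - 1)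
    (fun i => ((hψM i).comp (hφM i)).sub Mat.one) (fun i f hf => Submodule.sub_mem _ (hψP i _) hf)
    (fun i f hf => by
      show R'.d i (ψ (i + 1) (φ (i + 1) f) - f) = ψ i (φ i (R'.d i f)) - R'.d i f
      rw [map_sub, hψd i _ (hφP (i + 1) f), hφd i f hf])
    (fun f hf hfs => by
      show eps R'.w (ψ 0 (φ 0 f) - f) = 0
      rw [eps_sub _ ((hψM 0).fs ((hφM 0).fs hfs)) hfs, hψε _ (hφP 0 f) ((hφM 0).fs hfs), hφε f hf hfs, sub_self])
  let F : HMap R'.toPreRes.toHC R.toPreRes.toHC :=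
    { f := φ, equi := fun i => (hφM i).equi, maps := fun i x _ => hφP i x, comm := fun i x hx => (hφd i x hx).symm }
  have hK' : ∀ z ∈ R'.Z i, φ i z ∈ R.B i → z ∈ R'.B i := by
    intro z hz h1
    have h2 : ψ i (φ i z) ∈ R'.B i := by
      refine map_closure_le ?_ h1
      rintro _ ⟨g, hg, rfl⟩
      exact ⟨ψ (i + 1) g, hψP (i + 1) g, hψd i g hg⟩
    have h4 : ψ i (φ i z) - z ∈ R'.B i := by
      apply Submodule.le_topologicalClosure
      cases i with
      | zero => exact ⟨k 0 z, hkP 0 z, (hk0 z hz).symm⟩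
      | succ i =>
        refine ⟨k (i + 1) z, hkP (i + 1) z, ?_⟩
        have h5 := hks i z hz.1
        rw [show R'.d i z = 0 from hz.2, map_zero, add_zero] at h5
        exact h5.symm
    have h6 : z = ψ i (φ i z) - (ψ i (φ i z) - z) := by abel
    rw [h6]
    exact Submodule.sub_mem _ h2 h4
  have hK : F.K i ≤ R'.toPreRes.toHC.B i := by
    intro z hz
    have h := hz.1
    rw [PreRes.toHC_Z] at h
    exact hK' z h hz.2
  have h0 := (F.kap_eq_zero_iff i).2 hK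
  have h1 := F.coker_nonneg i
  linarith

/-- the Betti numbers do not depend on the resolution -/
theorem h_eq (R R' : Res.{0} Γ) (i : ℕ) : R.toPreRes.toHC.h i = R'.toPreRes.toHC.h i :=
  le_antisymm (h_le R' R i) (h_le R R' i)

end Res

section dist
variable {Γ : Type*} [Group Γ] {ι : Type*} [Fintype ι]

lemma norm_sq_row (f : E Γ ι) : ‖f‖ ^ 2 = ∑' g, ∑ k, ‖f (g, k)‖ ^ 2 := by
  rw [norm_sq_eq, (summable_sq f).tsum_prod]
  simp_rw [tsum_fintype]

lemma unitRow_eq (j : ι) (k : ι) (g : Γ) : unitRow j k g = (del 1 j : E Γ ι) (g, k) := by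
  classical
  unfold unitRow
  by_cases h : k = j ∧ g = 1
  · obtain ⟨rfl, rfl⟩ := h
    rw [del_apply_self]
    simp
  · rw [del_apply_ne (fun h' => h ⟨(congrArg Prod.snd h'), (congrArg Prod.fst h')⟩), if_neg h]

lemma sq_row (j : ι) (f : E Γ ι) :
    ∑' g, ∑ k, ‖unitRow j k g - f (g, k)‖ ^ 2 = ‖(del 1 j : E Γ ι) - f‖ ^ 2 := by
  rw [norm_sq_row]
  simp_rw [unitRow_eq, lp.coeFn_sub, Pi.sub_apply]

/-- Pythagoras -/
lemma norm_sq_sub (W : Submodule ℂ (E Γ ι)) (f : E Γ ι) {w : E Γ ι} (hw : w ∈ W) :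
    ‖f - w‖ ^ 2 = ‖f‖ ^ 2 - ‖prj W f‖ ^ 2 + ‖prj W f - w‖ ^ 2 := by
  have h1 : f - prj W f ∈ Wᗮ := sub_prj_mem W f
  have h1' : f - prj W f ∈ W.topologicalClosureᗮ := by rwa [Submodule.orthogonal_closure]
  have h2 : ‖(prj W f - w) + (f - prj W f)‖ ^ 2 = ‖prj W f - w‖ ^ 2 + ‖f - prj W f‖ ^ 2 := by
    have h := norm_add_sq_eq_norm_sq_add_norm_sq_of_inner_eq_zero (𝕜 := ℂ) (prj W f - w) (f - prj W f)
      ((Submodule.mem_orthogonal _ _).1 h1' _ (Submodule.sub_mem _ (prj_mem W f) (W.le_topologicalClosure hw)))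
    simpa [sq] using h
  have h3 : ‖prj W f + (f - prj W f)‖ ^ 2 = ‖prj W f‖ ^ 2 + ‖f - prj W f‖ ^ 2 := by
    have h := norm_add_sq_eq_norm_sq_add_norm_sq_of_inner_eq_zero (𝕜 := ℂ) (prj W f) (f - prj W f)
      ((Submodule.mem_orthogonal _ _).1 h1' _ (prj_mem W f))
    simpa [sq] using h
  rw [add_sub_cancel] at h3
  rw [sub_add_sub_cancel'] at h2
  rw [h2]
  linarith

/-- the square of the distance to a submodule, from the projection -/
lemma sqDist_eq (W : Submodule ℂ (E Γ ι)) (S : (ι → Γ → ℂ) → Prop)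
    (h : ∀ f : E Γ ι, f ∈ W ↔ S fun k g => f (g, k)) (j : ι) :
    sqDist S j = 1 - ‖prj W (del 1 j)‖ ^ 2 := by
  have hset : {r : ℝ | ∃ x : ι → Γ → ℂ, SqS x ∧ S x ∧ r = ∑' g, ∑ k, ‖unitRow j k g - x k g‖ ^ 2} =
      (fun w : E Γ ι => ‖(del 1 j : E Γ ι) - w‖ ^ 2) '' (W : Set (E Γ ι)) := by
    ext r
    constructor
    · rintro ⟨x, hx, hS, rfl⟩
      refine ⟨rowE x hx, (h _).2 hS, ?_⟩
      show ‖(del 1 j : E Γ ι) - rowE x hx‖ ^ 2 = _
      rw [← sq_row]
      rfl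
    · rintro ⟨w, hw, rfl⟩
      exact ⟨fun k g => w (g, k), sqS_of w, (h w).1 hw, (sq_row j w).symm⟩
  have hn : ‖(del 1 j : E Γ ι)‖ ^ 2 = 1 := by
    have h1 := inner_self_eq_norm_sq_to_K (𝕜 := ℂ) (del 1 j : E Γ ι)
    rw [inner_del_left, del_apply_self] at h1
    have h2 : ((‖(del 1 j : E Γ ι)‖ ^ 2 : ℝ) : ℂ) = 1 := by
      rw [h1]
      simp
    exact_mod_cast h2
  unfold sqDist
  rw [hset]
  refine IsGLB.csInf_eq ?_ ⟨_, 0, W.zero_mem, rfl⟩
  constructor
  · rintro _ ⟨w, hw, rfl⟩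
    have h1 := norm_sq_sub W (del 1 j) hw
    show 1 - ‖prj W (del 1 j)‖ ^ 2 ≤ ‖(del 1 j : E Γ ι) - w‖ ^ 2
    have h2 : 0 ≤ ‖prj W (del 1 j) - w‖ ^ 2 := by positivity
    linarith
  · intro b hb
    refine le_of_forall_pos_le_add fun ε hε => ?_
    have h3 : prj W (del 1 j) ∈ closure (W : Set (E Γ ι)) := prj_mem W _
    obtain ⟨w, hw, hd⟩ := Metric.mem_closure_iff.1 h3 (Real.sqrt ε) (Real.sqrt_pos.2 hε)
    have h4 : b ≤ ‖(del 1 j : E Γ ι) - w‖ ^ 2 := hb ⟨w, hw, rfl⟩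
    have h5 := norm_sq_sub W (del 1 j) hw
    have h6 : ‖prj W (del 1 j) - w‖ ^ 2 < ε := by
      rw [dist_eq_norm] at hd
      calc ‖prj W (del 1 j) - w‖ ^ 2 < Real.sqrt ε ^ 2 := pow_lt_pow_left₀ hd (norm_nonneg _) two_ne_zero
        _ = ε := Real.sq_sqrt hε.le
    linarith

end dist

namespace FinRes
variable {Γ : Type*} [Group Γ]

lemma mem_Z_iff (R : FinRes Γ) (i : ℕ) (f : E Γ (R.ι i)) : f ∈ R.toRes.Z i ↔ R.Cyc i fun k g => f (g, k) := by
  cases i with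
  | zero => exact ⟨fun _ => trivial, fun _ => trivial⟩
  | succ i =>
    constructor
    · intro hf l g
      have h := hf.2
      have h' : hat (R.d i) f = 0 := h
      rw [← hat_row, h']
      rfl
    · intro hf
      refine ⟨trivial, ?_⟩
      show hat (R.d i) f = 0
      ext p
      obtain ⟨g, l⟩ := p
      rw [hat_row]
      exact hf l g

lemma mem_im_iff (R : FinRes Γ) (i : ℕ) (f : E Γ (R.ι i)) :
    f ∈ ((⊤ : Submodule ℂ (E Γ (R.ι (i + 1)))).map
      (hat (R.d i) : E Γ (R.ι (i + 1)) →ₗ[ℂ] E Γ (R.ι i)) : Submodule ℂ (E Γ (R.ι i))) ↔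
      R.Bdy i fun k g => f (g, k) := by
  constructor
  · rintro ⟨y, -, rfl⟩
    exact ⟨_, sqS_of y, fun l g => hat_row _ y g l⟩
  · rintro ⟨y, hy, h⟩
    refine ⟨rowE y hy, trivial, ?_⟩
    ext p
    obtain ⟨g, l⟩ := p
    show hat (R.d i) (rowE y hy) (g, l) = f (g, l)
    rw [hat_rowE]
    exact (h l g).symm

/-- the elementary Betti numbers are the Betti numbers of the Hilbert complex -/
theorem betti_eq (R : FinRes Γ) (i : ℕ) : R.betti i = R.toRes.toPreRes.toHC.h i := by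
  unfold betti HC.h
  rw [PreRes.toHC_Z, PreRes.toHC_B]
  show _ = vdim (R.toRes.Z i) - vdim (((⊤ : Submodule ℂ (E Γ (R.ι (i + 1)))).map
      (hat (R.d i) : E Γ (R.ι (i + 1)) →ₗ[ℂ] E Γ (R.ι i)) : Submodule ℂ (E Γ (R.ι i))).topologicalClosure)
  rw [vdim_closure]
  unfold vdim
  refine Eq.trans (Finset.sum_congr rfl fun j _ => ?_) (Finset.sum_sub_distrib _ _)
  rw [sqDist_eq _ _ (R.mem_im_iff i) j, sqDist_eq _ _ (R.mem_Z_iff i) j]
  exact sub_sub_sub_cancel_left _ _ _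

/-- the Betti numbers do not depend on the resolution -/
theorem betti_congr (R R' : FinRes Γ) (i : ℕ) : R.betti i = R'.betti i := by
  rw [betti_eq, betti_eq]
  exact Res.h_eq _ _ i

theorem betti_nonneg (R : FinRes Γ) (i : ℕ) : 0 ≤ R.betti i := by
  rw [betti_eq]
  exact HC.h_nonneg _ i

theorem betti_eq_zero_iff (R : FinRes Γ) (i : ℕ) : R.betti i = 0 ↔ R.VanE i := by
  rw [betti_eq, HC.h_eq_zero_iff, ← van_iff_vanE, van_iff_le, PreRes.toHC_Z]
  rfl

end FinRes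

end Singer
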