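import Pool.Agent.Singer.FinRes

/-!
# Singer: subgroups of finite index

For an injective homomorphism `j : H →* Γ` with image of finite index, `E Γ ι` is `E H (Fin n × ι)` (`Trv.tr`, an
isometry which is equivariant for `H`), a resolution for `Γ` restricts to a resolution for `H` (`Trv.res`), and the
vanishing of the reduced `ℓ²`-homology in degree `i` is the same for `Γ` and for `H` (`Trv.vanish_iff`, `Res.van_of_index`,
`FinRes.van_index`).
-/

set_option autoImplicit false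
set_option linter.unusedSectionVars false
set_option linter.unusedVariables false

open scoped ComplexConjugate InnerProductSpace
open Filter Topology

namespace Singer

universe u v

/-- coordinates `Γ = H × Fin n` for a subgroup of finite index (a transversal for the right cosets `H g`) -/
structure Trv {H Γ : Type*} [Group H] [Group Γ] (j : H →* Γ) where
  n : ℕ
  e : Γ ≃ H × Fin n
  e_mul : ∀ h g, e (j h * g) = (h * (e g).1, (e g).2)

/-- a transversal for a subgroup of finite index -/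
theorem exists_trv {Γ : Type*} [Group Γ] (H : Subgroup Γ) [H.FiniteIndex] : Nonempty (Trv H.subtype) := by
  classical
  obtain ⟨T, hT, -⟩ := H.exists_isComplement_right 1
  have hfin : Finite T := by
    have h1 : Nat.card T = H.index := hT.card_right
    have h2 : H.index ≠ 0 := Subgroup.FiniteIndex.index_ne_zero
    exact Nat.finite_of_card_ne_zero (by rw [h1]; exact h2)
  have e' : T ≃ Fin (Nat.card T) := Finite.equivFin T
  refine ⟨⟨Nat.card T, hT.equiv.trans ((Equiv.refl H).prodCongr e'), fun h g => ?_⟩⟩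
  have h1 := hT.equiv_mul_left h g
  show ((Equiv.refl H).prodCongr e') (hT.equiv (H.subtype h * g)) = _
  rw [show H.subtype h * g = (h : Γ) * g from rfl, h1]
  rfl

/-- a transversal for an injective homomorphism with image of finite index -/
theorem exists_trv_hom {H Γ : Type*} [Group H] [Group Γ] (j : H →* Γ) (hj : Function.Injective j)
    (hf : j.range.FiniteIndex) : Nonempty (Trv j) := by
  obtain ⟨T⟩ := exists_trv j.range
  let k : H ≃* j.range := MonoidHom.ofInjective hj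
  refine ⟨⟨T.n, T.e.trans (k.symm.toEquiv.prodCongr (Equiv.refl _)), fun h g => ?_⟩⟩
  have h1 := T.e_mul (k h) g
  have h2 : j.range.subtype (k h) = j h := rfl
  rw [h2] at h1
  show (k.symm.toEquiv.prodCongr (Equiv.refl _)) (T.e (j h * g)) = _
  rw [h1]
  show (k.symm (k h * (T.e g).1), (T.e g).2) = (h * k.symm (T.e g).1, (T.e g).2)
  rw [map_mul, MulEquiv.symm_apply_apply]

namespace Trv

variable {H Γ : Type*} [Group H] [Group Γ] {j : H →* Γ} (T : Trv j) {ι κ μ : Type*}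

lemma symm_mul (h k : H) (q : Fin T.n) : T.e.symm (h * k, q) = j h * T.e.symm (k, q) := by
  rw [Equiv.symm_apply_eq, T.e_mul, Equiv.apply_symm_apply]

/-- the bijection on the basis -/
def p (ι : Type*) : H × (Fin T.n × ι) ≃ Γ × ι :=
  (Equiv.prodAssoc H (Fin T.n) ι).symm.trans (T.e.symm.prodCongr (Equiv.refl ι))

@[simp] lemma p_apply (x : H × (Fin T.n × ι)) : T.p ι x = (T.e.symm (x.1, x.2.1), x.2.2) := rfl

lemma p_symm_apply (x : Γ × ι) : (T.p ι).symm x = ((T.e x.1).1, ((T.e x.1).2, x.2)) := rfl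

/-- `ℓ²(Γ × ι) → ℓ²(H × (Fin n × ι))` -/
noncomputable def tr : E Γ ι →L[ℂ] E H (Fin T.n × ι) := pull (T.p ι) (T.p ι).injective

/-- the inverse -/
noncomputable def ti : E H (Fin T.n × ι) →L[ℂ] E Γ ι := pull (T.p ι).symm (T.p ι).symm.injective

@[simp] lemma tr_apply (f : E Γ ι) (x : H × (Fin T.n × ι)) : T.tr f x = f (T.p ι x) := rfl

@[simp] lemma ti_apply (f : E H (Fin T.n × ι)) (x : Γ × ι) : T.ti f x = f ((T.p ι).symm x) := rfl

@[simp] lemma tr_ti (f : E H (Fin T.n × ι)) : T.tr (T.ti f) = f := by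
  ext x
  rw [tr_apply, ti_apply, Equiv.symm_apply_apply]

@[simp] lemma ti_tr (f : E Γ ι) : T.ti (T.tr f) = f := by
  ext x
  rw [ti_apply, tr_apply, Equiv.apply_symm_apply]

lemma norm_tr (f : E Γ ι) : ‖T.tr f‖ = ‖f‖ := norm_pull_equiv (T.p ι) f

lemma norm_ti (f : E H (Fin T.n × ι)) : ‖T.ti f‖ = ‖f‖ := norm_pull_equiv (T.p ι).symm f

lemma tr_lam (h : H) (f : E Γ ι) : T.tr (lam (j h) f) = lam h (T.tr f) := by
  ext x
  rw [tr_apply, lam_apply, lam_apply, tr_apply, p_apply, p_apply]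
  show f ((j h)⁻¹ * T.e.symm (x.1, x.2.1), x.2.2) = f (T.e.symm (h⁻¹ * x.1, x.2.1), x.2.2)
  rw [T.symm_mul, map_inv]

lemma ti_lam (h : H) (f : E H (Fin T.n × ι)) : T.ti (lam h f) = lam (j h) (T.ti f) := by
  rw [← T.tr_ti f, ← T.tr_lam, T.ti_tr, T.ti_tr]

lemma fs_tr {f : E Γ ι} (hf : FS f) : FS (T.tr f) := by
  have h1 : {x | T.tr f x ≠ 0} = T.p ι ⁻¹' {x | f x ≠ 0} := rfl
  unfold FS
  rw [h1]
  exact hf.preimage (T.p ι).injective.injOn

lemma fs_ti {f : E H (Fin T.n × ι)} (hf : FS f) : FS (T.ti f) := by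
  have h1 : {x | T.ti f x ≠ 0} = (T.p ι).symm ⁻¹' {x | f x ≠ 0} := rfl
  unfold FS
  rw [h1]
  exact hf.preimage (T.p ι).symm.injective.injOn

/-- conjugation -/
noncomputable def cj (S : E Γ ι →L[ℂ] E Γ κ) : E H (Fin T.n × ι) →L[ℂ] E H (Fin T.n × κ) := (T.tr.comp S).comp T.ti

@[simp] lemma cj_apply (S : E Γ ι →L[ℂ] E Γ κ) (f : E H (Fin T.n × ι)) : T.cj S f = T.tr (S (T.ti f)) := rfl

lemma mat_cj {S : E Γ ι →L[ℂ] E Γ κ} (hS : Mat S) : Mat (T.cj S) := by
  refine ⟨fun h f => ?_, fun x => ?_⟩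
  · rw [cj_apply, cj_apply, ti_lam, hS.equi, tr_lam]
  · rw [cj_apply]
    exact T.fs_tr (hS.fs (T.fs_ti (fs_del _ _)))

lemma eps_tr (w : ι → ℂ) (f : E Γ ι) : eps (fun x : Fin T.n × ι => w x.2) (T.tr f) = eps w f := by
  unfold eps
  rw [← finsum_comp_equiv (T.p ι)]
  rfl

lemma eps_ti (w : ι → ℂ) (f : E H (Fin T.n × ι)) : eps w (T.ti f) = eps (fun x : Fin T.n × ι => w x.2) f := by
  rw [← T.eps_tr, tr_ti]

end Trv

namespace Trv

variable {H : Type*} {Γ : Type v} [Group H] [Group Γ] {j : H →* Γ} (T : Trv j)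

/-- the restriction of a resolution to a subgroup of finite index -/
noncomputable def res (R : Res.{u} Γ) : Res.{u} H where
  ι i := Fin T.n × R.ι i
  ft i := inferInstance
  P i := (R.P i).comap (T.ti (ι := R.ι i)).toLinearMap
  e i := T.cj (R.e i)
  d i := T.cj (R.d i)
  w x := R.w x.2
  mat_e i := T.mat_cj (R.mat_e i)
  mat_d i := T.mat_cj (R.mat_d i)
  e_mem i f := by
    show T.ti (T.tr (R.e i (T.ti f))) ∈ R.P i
    rw [ti_tr]
    exact R.e_mem i _
  e_eq i f hf := by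
    have hf' : T.ti f ∈ R.P i := hf
    show T.tr (R.e i (T.ti f)) = f
    rw [R.e_eq i _ hf', tr_ti]
  d_mem i f hf := by
    show T.ti (T.tr (R.d i (T.ti f))) ∈ R.P i
    rw [ti_tr]
    exact R.d_mem i _ hf
  d_d i f hf := by
    have hf' : T.ti f ∈ R.P (i + 2) := hf
    show T.tr (R.d i (T.ti (T.tr (R.d (i + 1) (T.ti f))))) = 0
    rw [ti_tr, R.d_d i _ hf', map_zero]
  eps_d f hf hfs := by
    show eps (fun x : Fin T.n × R.ι 0 => R.w x.2) (T.tr (R.d 0 (T.ti f))) = 0
    rw [eps_tr]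
    exact R.eps_d _ hf (T.fs_ti hfs)
  surj := by
    obtain ⟨f, h1, h2, h3⟩ := R.surj
    refine ⟨T.tr f, ?_, T.fs_tr h2, ?_⟩
    · show T.ti (T.tr f) ∈ R.P 0
      rw [ti_tr]
      exact h1
    · show eps (fun x : Fin T.n × R.ι 0 => R.w x.2) (T.tr f) = 1
      rw [eps_tr]
      exact h3
  ex_zero f hf hfs h0 := by
    have h0' : eps R.w (T.ti f) = 0 := by
      rw [eps_ti]
      exact h0
    have hf' : T.ti f ∈ R.P 0 := hf
    obtain ⟨g, h1, h2, h3⟩ := R.ex_zero _ hf' (T.fs_ti hfs) h0'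
    refine ⟨T.tr g, ?_, T.fs_tr h2, ?_⟩
    · show T.ti (T.tr g) ∈ R.P 1
      rw [ti_tr]
      exact h1
    · show T.tr (R.d 0 (T.ti (T.tr g))) = f
      rw [ti_tr, h3, tr_ti]
  ex_succ i f hf hfs h0 := by
    have h0' : R.d i (T.ti f) = 0 := by
      have h4 : T.tr (R.d i (T.ti f)) = 0 := h0
      rw [← T.ti_tr (R.d i (T.ti f)), h4, map_zero]
    have hf' : T.ti f ∈ R.P (i + 1) := hf
    obtain ⟨g, h1, h2, h3⟩ := R.ex_succ i _ hf' (T.fs_ti hfs) h0'
    refine ⟨T.tr g, ?_, T.fs_tr h2, ?_⟩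
    · show T.ti (T.tr g) ∈ R.P (i + 2)
      rw [ti_tr]
      exact h1
    · show T.tr (R.d (i + 1) (T.ti (T.tr g))) = f
      rw [ti_tr, h3, tr_ti]

lemma mem_Z (R : Res.{u} Γ) (i : ℕ) (f : E H (Fin T.n × R.ι i)) : f ∈ (T.res R).Z i ↔ T.ti f ∈ R.Z i := by
  cases i with
  | zero => exact Iff.rfl
  | succ i =>
    have h : T.tr (R.d i (T.ti f)) = 0 ↔ R.d i (T.ti f) = 0 := by
      constructor
      · intro h4
        rw [← T.ti_tr (R.d i (T.ti f)), h4, map_zero]
      · intro h4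
        rw [h4, map_zero]
    constructor
    · rintro ⟨h1, h2⟩
      exact ⟨h1, h.1 h2⟩
    · rintro ⟨h1, h2⟩
      exact ⟨h1, h.2 h2⟩

lemma mem_B (R : Res.{u} Γ) (i : ℕ) (f : E H (Fin T.n × R.ι i)) : f ∈ (T.res R).B i ↔ T.ti f ∈ R.B i := by
  constructor
  · intro hf
    have h1 : T.ti f ∈ _root_.closure ((T.ti : E H (Fin T.n × R.ι i) → E Γ (R.ι i)) ''
        (((T.res R).P (i + 1)).map ((T.res R).d i).toLinearMap : Set (E H ((T.res R).ι i)))) :=
      image_closure_subset_closure_image T.ti.continuous ⟨f, hf, rfl⟩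
    refine closure_mono ?_ h1
    rintro _ ⟨_, ⟨g, hg, rfl⟩, rfl⟩
    refine ⟨T.ti g, hg, ?_⟩
    show R.d i (T.ti g) = T.ti (T.tr (R.d i (T.ti g)))
    rw [ti_tr]
  · intro hf
    have h1 : T.tr (T.ti f) ∈ _root_.closure ((T.tr : E Γ (R.ι i) → E H (Fin T.n × R.ι i)) ''
        ((R.P (i + 1)).map (R.d i : E Γ (R.ι (i + 1)) →ₗ[ℂ] E Γ (R.ι i)) : Set (E Γ (R.ι i)))) :=
      image_closure_subset_closure_image T.tr.continuous ⟨T.ti f, hf, rfl⟩
    rw [tr_ti] at h1
    refine closure_mono ?_ h1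
    rintro _ ⟨_, ⟨g, hg, rfl⟩, rfl⟩
    refine ⟨T.tr g, ?_, ?_⟩
    · show T.ti (T.tr g) ∈ R.P (i + 1)
      rw [ti_tr]
      exact hg
    · show T.tr (R.d i (T.ti (T.tr g))) = T.tr (R.d i g)
      rw [ti_tr]

/-- the vanishing of the reduced `ℓ²`-homology in degree `i` is the same for the restriction -/
theorem vanish_iff (R : Res.{u} Γ) (i : ℕ) : (T.res R).Z i ≤ (T.res R).B i ↔ R.Z i ≤ R.B i := by
  constructor
  · intro h f hf
    have h1 : T.tr f ∈ (T.res R).Z i := by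
      refine (T.mem_Z R i (T.tr f)).2 ?_
      rw [ti_tr]
      exact hf
    have h2 := h h1
    have h3 := (T.mem_B R i (T.tr f)).1 h2
    rw [ti_tr] at h3
    exact h3
  · intro h f hf
    exact (T.mem_B R i f).2 (h ((T.mem_Z R i f).1 hf))

end Trv

/-- the reduced `ℓ²`-homology of a subgroup of finite index (computed with any resolution by finitely generated free modules
over `ℤ[H]`) vanishes in degree `i` if and only if the one of `Γ` (computed with any resolution) vanishes in degree `i` -/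
theorem Res.van_iff_index {Γ : Type v} [Group Γ] (R : Res.{u} Γ) {H : Type*} [Group H] (j : H →* Γ)
    (hj : Function.Injective j) (hf : j.range.FiniteIndex) (F : FinRes H) (i : ℕ) : F.Van i ↔ R.Z i ≤ R.B i := by
  obtain ⟨T⟩ := exists_trv_hom j hj hf
  rw [F.van_iff_le, ← T.vanish_iff R]
  exact ⟨Res.vanish _ _ i, Res.vanish _ _ i⟩

/-- the same for a subgroup -/
theorem Res.van_of_index {Γ : Type v} [Group Γ] (R : Res.{u} Γ) (H : Subgroup Γ) (hH : H.FiniteIndex)
    (F : FinRes H) (i : ℕ) (h : R.Z i ≤ R.B i) : F.Van i := by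
  obtain ⟨T⟩ := exists_trv H
  rw [F.van_iff_le]
  exact Res.vanish (T.res R) F.toRes i ((T.vanish_iff R i).2 h)

/-- invariance for resolutions by finitely generated free modules -/
theorem FinRes.van_index {Γ H : Type*} [Group Γ] [Group H] (F : FinRes Γ) (j : H →* Γ) (hj : Function.Injective j)
    (hf : j.range.FiniteIndex) (F' : FinRes H) (i : ℕ) : F'.Van i ↔ F.Van i := by
  rw [F.toRes.van_iff_index j hj hf F' i, F.van_iff_le]

end Singer
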