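import Pool.Agent.Singer.Racg

/-!
# The `ℓ²`-chain complex of the Davis complex in elementary terms

`Chain G i f`: `f w T` is a function of an element `w` of `RACG G` and a finite set `T` of vertices, square-summable in
`w`; it vanishes unless `T` is a clique with `i` elements, and `f (w * gen v) T = -f w T` for `v ∈ T`.  These are the
square-summable cellular chains of degree `i` of the Davis complex: `w` and `T` stand for the cell (cube) `w W_T`, and
the sign says that `gen v` reflects this cube and so changes its orientation.
`bdry r f` is the boundary; `r` is an enumeration of the vertices, it only fixes the signs.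
-/

set_option autoImplicit false

namespace Singer

variable {V : Type*} [Fintype V] [DecidableEq V]

/-- square-summable chains of degree `i` -/
structure Chain (G : SimpleGraph V) (i : ℕ) (f : RACG G → Finset V → ℂ) : Prop where
  supp : ∀ w T, f w T ≠ 0 → G.IsClique T ∧ T.card = i
  anti : ∀ w T, ∀ v ∈ T, f (w * Racg.gen G v) T = -f w T
  sq : ∀ T, Summable fun w => ‖f w T‖ ^ 2

/-- the boundary -/
noncomputable def bdry {G : SimpleGraph V} (r : V → ℕ) (f : RACG G → Finset V → ℂ) (w : RACG G) (T : Finset V) : ℂ :=
  ∑ v ∈ Tᶜ, (-1) ^ (T.filter fun t => r t < r v).card * f w (insert v T)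

end Singer
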