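import Pool.Agent.Singer.Basic
import Pool.Agent.Singer.Stmt

/-!
# Singer: from the Hilbert space statement to the elementary statement
-/

set_option autoImplicit false
set_option linter.unusedSectionVars false
set_option linter.unusedVariables false

namespace Singer

variable {V : Type*} [Fintype V] [DecidableEq V]

variable {G : SimpleGraph V}

/-- a function with finitely many square-summable columns, as an element of `E` -/
noncomputable def toE {Γ ι : Type*} [Fintype ι] (f : Γ → ι → ℂ) (h : ∀ j, Summable fun g => ‖f g j‖ ^ 2) : E Γ ι :=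
  ⟨fun x => f x.1 x.2, memL2 (by
    have h1 : Summable fun y : ι × Γ => ‖f y.2 y.1‖ ^ 2 := by
      rw [summable_prod_of_nonneg fun _ => by positivity]
      exact ⟨h, (hasSum_fintype _).summable⟩
    exact (Equiv.prodComm Γ ι).summable_iff.2 h1)⟩

lemma toE_apply {Γ ι : Type*} [Fintype ι] (f : Γ → ι → ℂ) (h : ∀ j, Summable fun g => ‖f g j‖ ^ 2) (g : Γ) (j : ι) :
    toE f h (g, j) = f g j := rfl

lemma summable_col {Γ ι : Type*} (f : E Γ ι) (j : ι) : Summable fun g => ‖f (g, j)‖ ^ 2 :=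
  (summable_sq f).comp_injective fun a b h => congrArg Prod.fst h

lemma chain_of_mem {i : ℕ} {f : E (RACG G) (Finset V)} (hf : f ∈ Ch G (Racg.gen G) Finset.univ i) :
    Chain G i fun w T => f (w, T) where
  supp := fun w T h => ⟨(hf.1 (w, T) h).2.2, (hf.1 (w, T) h).2.1⟩
  anti := fun w T v hv => hf.2 w T v hv
  sq := fun T => summable_col f T

lemma Chain.mem {i : ℕ} {f : RACG G → Finset V → ℂ} (hf : Chain G i f) :
    toE f hf.sq ∈ Ch G (Racg.gen G) Finset.univ i :=
  ⟨fun x hx => ⟨Finset.subset_univ _, (hf.supp x.1 x.2 hx).2, (hf.supp x.1 x.2 hx).1⟩, fun w T v hv => hf.anti w T v hv⟩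

lemma D_toE (r : V → ℕ) {f : RACG G → Finset V → ℂ} (h : ∀ T, Summable fun w => ‖f w T‖ ^ 2) (w : RACG G)
    (T : Finset V) : D r (toE f h) (w, T) = bdry r f w T := by
  rw [D_apply]
  rfl

/-- partial sums are bounded by the norm -/
lemma sum_le_norm_sq {Γ ι : Type*} [Fintype ι] (f : E Γ ι) (S : Finset Γ) :
    ∑ g ∈ S, ∑ j, ‖f (g, j)‖ ^ 2 ≤ ‖f‖ ^ 2 := by
  classical
  rw [norm_sq_eq, ← Finset.sum_product' S Finset.univ fun g j => ‖f (g, j)‖ ^ 2]
  exact (summable_sq f).sum_le_tsum _ fun _ _ => by positivity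

/-- **from the Hilbert space statement to the elementary one** -/
theorem elem_of_le {r : V → ℕ} {i : ℕ} (h : Cy r G (Racg.gen G) Finset.univ i ≤ Bd r G (Racg.gen G) Finset.univ i)
    {f : RACG G → Finset V → ℂ} (hf : Chain G i f) (h0 : ∀ w T, bdry r f w T = 0) {ε : ℝ} (hε : 0 < ε) :
    ∃ c : RACG G → Finset V → ℂ, Chain G (i + 1) c ∧
      ∀ S : Finset (RACG G), ∑ w ∈ S, ∑ T : Finset V, ‖f w T - bdry r c w T‖ ^ 2 < ε := by
  have h1 : toE f hf.sq ∈ Cy r G (Racg.gen G) Finset.univ i := by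
    refine ⟨hf.mem, ?_⟩
    show D r (toE f hf.sq) = 0
    ext ⟨w, T⟩
    rw [D_toE, h0]
    rfl
  have h2 := h h1
  have h3 : toE f hf.sq ∈ closure (((Ch G (Racg.gen G) Finset.univ (i + 1)).map
      ((D r : E (RACG G) (Finset V) →L[ℂ] E (RACG G) (Finset V)) :
        E (RACG G) (Finset V) →ₗ[ℂ] E (RACG G) (Finset V)) : Submodule ℂ (E (RACG G) (Finset V))) :
          Set (E (RACG G) (Finset V))) := h2
  obtain ⟨b, hb, hd⟩ := Metric.mem_closure_iff.1 h3 (Real.sqrt ε) (Real.sqrt_pos.2 hε)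
  obtain ⟨c, hc, rfl⟩ := hb
  refine ⟨fun w T => c (w, T), chain_of_mem hc, fun S => ?_⟩
  have h4 : ∀ w T, f w T - bdry r (fun w T => c (w, T)) w T = (toE f hf.sq - D r c : E (RACG G) (Finset V)) (w, T) := by
    intro w T
    rw [lp.coeFn_sub, Pi.sub_apply, toE_apply, D_apply]
    rfl
  simp_rw [h4]
  refine (sum_le_norm_sq _ S).trans_lt ?_
  have h5 : ‖toE f hf.sq - D r c‖ < Real.sqrt ε := by
    rw [← dist_eq_norm]
    exact hd
  calc ‖toE f hf.sq - D r c‖ ^ 2 < Real.sqrt ε ^ 2 := by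
        exact pow_lt_pow_left₀ h5 (norm_nonneg _) two_ne_zero
    _ = ε := Real.sq_sqrt hε.le

end Singer
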