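import Pool.Agent.Singer.FinRes
import Pool.Agent.Singer.Elem

/-!
# Singer: the elementary form of the vanishing of `ℓ²`-homology
-/

set_option autoImplicit false
set_option linter.unusedSectionVars false
set_option linter.unusedVariables false

open scoped Matrix

namespace Singer

variable {Γ : Type*} [Group Γ] {ι κ : Type*} [Fintype ι] [Fintype κ]

/-- a row of square-summable functions, as an element of `E` -/
noncomputable def rowE (x : ι → Γ → ℂ) (h : SqS x) : E Γ ι := toE (fun g j => x j g) h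

lemma rowE_apply (x : ι → Γ → ℂ) (h : SqS x) (g : Γ) (j : ι) : rowE x h (g, j) = x j g := rfl

lemma sqS_of (f : E Γ ι) : SqS fun j g => f (g, j) := fun j => summable_col f j

lemma hat_row (M : Matrix ι κ (MonoidAlgebra ℤ Γ)) (f : E Γ ι) (g : Γ) (l : κ) :
    hat M f (g, l) = rmul (fun j g => f (g, j)) M l g := hat_apply M f g l

lemma hat_rowE (M : Matrix ι κ (MonoidAlgebra ℤ Γ)) (x : ι → Γ → ℂ) (h : SqS x) (g : Γ) (l : κ) :
    hat M (rowE x h) (g, l) = rmul x M l g := hat_apply M _ g l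

/-- the norm from the partial sums -/
lemma norm_sq_le_of_sum (f : E Γ ι) {c : ℝ} (h : ∀ S : Finset Γ, ∑ g ∈ S, ∑ j, ‖f (g, j)‖ ^ 2 ≤ c) : ‖f‖ ^ 2 ≤ c := by
  classical
  rw [norm_sq_eq]
  refine (summable_sq f).tsum_le_of_sum_le fun s => ?_
  calc ∑ x ∈ s, ‖f x‖ ^ 2 ≤ ∑ x ∈ (s.image Prod.fst) ×ˢ (Finset.univ : Finset ι), ‖f x‖ ^ 2 := by
        refine Finset.sum_le_sum_of_subset_of_nonneg (fun x hx => ?_) fun _ _ _ => by positivity
        exact Finset.mem_product.2 ⟨Finset.mem_image_of_mem _ hx, Finset.mem_univ _⟩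
    _ = ∑ g ∈ s.image Prod.fst, ∑ j, ‖f (g, j)‖ ^ 2 := Finset.sum_product' _ _ fun g j => ‖f (g, j)‖ ^ 2
    _ ≤ c := h _

lemma mem_closure_hat (M : Matrix ι κ (MonoidAlgebra ℤ Γ)) (f : E Γ κ) :
    f ∈ closure (Set.range (hat M)) ↔ ∀ ε : ℝ, 0 < ε → ∃ y : ι → Γ → ℂ, SqS y ∧
      ∀ S : Finset Γ, ∑ g ∈ S, ∑ j, ‖f (g, j) - rmul y M j g‖ ^ 2 < ε := by
  rw [Metric.mem_closure_iff]
  constructor
  · intro h ε hε
    obtain ⟨b, ⟨c, rfl⟩, hd⟩ := h (Real.sqrt ε) (Real.sqrt_pos.2 hε)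
    refine ⟨_, sqS_of c, fun S => ?_⟩
    have h4 : ∀ g j, f (g, j) - rmul (fun j g => c (g, j)) M j g = (f - hat M c : E Γ κ) (g, j) := by
      intro g j
      rw [lp.coeFn_sub, Pi.sub_apply, hat_row]
    simp_rw [h4]
    refine (sum_le_norm_sq _ S).trans_lt ?_
    have h5 : ‖f - hat M c‖ < Real.sqrt ε := by
      rw [← dist_eq_norm]
      exact hd
    calc ‖f - hat M c‖ ^ 2 < Real.sqrt ε ^ 2 := pow_lt_pow_left₀ h5 (norm_nonneg _) two_ne_zero
      _ = ε := Real.sq_sqrt hε.le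
  · intro h ε hε
    obtain ⟨y, hy, hS⟩ := h ((ε / 2) ^ 2) (by positivity)
    refine ⟨_, ⟨rowE y hy, rfl⟩, ?_⟩
    have h1 : ‖f - hat M (rowE y hy)‖ ^ 2 ≤ (ε / 2) ^ 2 := by
      refine norm_sq_le_of_sum _ fun S => ?_
      have h4 : ∀ g j, (f - hat M (rowE y hy) : E Γ κ) (g, j) = f (g, j) - rmul y M j g := by
        intro g j
        rw [lp.coeFn_sub, Pi.sub_apply, hat_rowE]
      simp_rw [h4]
      exact (hS S).le
    have h2 : ‖f - hat M (rowE y hy)‖ ≤ ε / 2 := le_of_sq_le_sq h1 (by positivity)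
    rw [dist_eq_norm]
    linarith

namespace FinRes

/-- the elementary form -/
theorem van_iff_vanE (R : FinRes Γ) (i : ℕ) : R.Van i ↔ R.VanE i := by
  cases i with
  | zero =>
    constructor
    · intro h x hx _
      exact (mem_closure_hat (R.d 0) (rowE x hx)).1 (h _)
    · intro h f
      exact (mem_closure_hat (R.d 0) f).2 (h _ (sqS_of f) trivial)
  | succ i =>
    constructor
    · intro h x hx h0
      refine (mem_closure_hat (R.d (i + 1)) (rowE x hx)).1 (h _ ?_)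
      ext p
      obtain ⟨g, l⟩ := p
      rw [hat_rowE]
      exact h0 l g
    · intro h f hf
      refine (mem_closure_hat (R.d (i + 1)) f).2 (h _ (sqS_of f) fun l g => ?_)
      rw [← hat_row, hf]
      rfl

/-- the vanishing of the reduced `ℓ²`-homology in degree `i` does not depend on the resolution -/
theorem vanE_iff (R R' : FinRes Γ) (i : ℕ) : R.VanE i ↔ R'.VanE i := by
  rw [← van_iff_vanE, ← van_iff_vanE, van_iff]

end FinRes

end Singer
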