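import Pool.Agent.Singer.Defs

/-!
# Singer: basic properties of `D`, `Ch`, `Cy`, `Bd`
-/

set_option autoImplicit false
set_option linter.unusedSectionVars false
set_option linter.unusedVariables false

open scoped ComplexConjugate InnerProductSpace
open Filter Topology

namespace Singer

section basic
variable {Γ : Type*} [Group Γ] {V : Type*} [Fintype V] [DecidableEq V]
  (r : V → ℕ) (G : SimpleGraph V) (s : V → Γ)

theorem D_apply (f : E Γ (Finset V)) (g : Γ) (T : Finset V) :
    D r f (g, T) = ∑ v ∈ Tᶜ, sg r v T * f (g, insert v T) := by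
  classical
  unfold D
  rw [sum_apply, lp.coeFn_sum, Finset.sum_apply, Finset.sum_eq_single T]
  · rw [sum_apply, lp.coeFn_sum, Finset.sum_apply]
    refine Finset.sum_congr rfl fun v _ => ?_
    simp [col_apply]
  · intro S _ hS
    rw [sum_apply, lp.coeFn_sum, Finset.sum_apply]
    refine Finset.sum_eq_zero fun v _ => ?_
    simp [col_apply, Ne.symm hS]
  · intro h
    exact absurd (Finset.mem_univ T) h

lemma sg_insert_of_lt {v w : V} {T : Finset V} (hw : w ∉ T) (h : r w < r v) : sg r v (insert w T) = - sg r v T := by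
  unfold sg
  rw [Finset.filter_insert, if_pos h, Finset.card_insert_of_notMem (by simp [hw]), pow_succ]
  ring

lemma sg_insert_of_not_lt {v w : V} {T : Finset V} (h : ¬ r w < r v) : sg r v (insert w T) = sg r v T := by
  unfold sg
  rw [Finset.filter_insert, if_neg h]

/-- antisymmetry of the signs: this gives `D² = 0` -/
theorem sg_anti (hr : Function.Injective r) {u v : V} {T : Finset V} (hu : u ∉ T) (hv : v ∉ T) (huv : u ≠ v) :
    sg r u T * sg r v (insert u T) = -(sg r v T * sg r u (insert v T)) := by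
  rcases lt_or_gt_of_ne (fun h => huv (hr h)) with h | h
  · rw [sg_insert_of_lt r hu h, sg_insert_of_not_lt r (not_lt.2 h.le)]
    ring
  · rw [sg_insert_of_lt r hv h, sg_insert_of_not_lt r (not_lt.2 h.le)]
    ring

theorem sg_sq (v : V) (T : Finset V) : sg r v T * sg r v T = 1 := by
  unfold sg
  rw [← mul_pow]
  norm_num

theorem D_D (hr : Function.Injective r) (f : E Γ (Finset V)) : D r (D r f) = 0 := by
  ext x
  obtain ⟨g, T⟩ := x
  rw [D_apply]
  have h1 : ∀ v ∈ Tᶜ, sg r v T * (D r f) (g, insert v T) =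
      ∑ w ∈ Tᶜ, if w = v then 0 else sg r v T * sg r w (insert v T) * f (g, insert w (insert v T)) := by
    intro v hv
    rw [D_apply, Finset.mul_sum, Finset.compl_insert, ← Finset.sum_erase (s := Tᶜ) (a := v) (by simp)]
    refine Finset.sum_congr rfl fun w hw => ?_
    rw [if_neg (Finset.ne_of_mem_erase hw)]
    ring
  rw [Finset.sum_congr rfl h1]
  set F : V → V → ℂ := fun v w =>
    if w = v then 0 else sg r v T * sg r w (insert v T) * f (g, insert w (insert v T)) with hF
  have h2 : ∑ v ∈ Tᶜ, ∑ w ∈ Tᶜ, F v w = - ∑ v ∈ Tᶜ, ∑ w ∈ Tᶜ, F v w := by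
    conv_lhs => rw [Finset.sum_comm]
    rw [← Finset.sum_neg_distrib]
    refine Finset.sum_congr rfl fun v hv => ?_
    rw [← Finset.sum_neg_distrib]
    refine Finset.sum_congr rfl fun w hw => ?_
    by_cases hvw : w = v
    · simp [hF, hvw]
    · simp only [hF, if_neg hvw, if_neg (Ne.symm hvw)]
      rw [Finset.insert_comm v w, sg_anti r hr (by simpa using hw) (by simpa using hv) hvw]
      ring
  have h3 : (2 : ℂ) * ∑ v ∈ Tᶜ, ∑ w ∈ Tᶜ, F v w = 0 := by linear_combination h2
  simpa using h3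

theorem equi_D : Equi (D r : E Γ (Finset V) →L[ℂ] E Γ (Finset V)) :=
  Equi.sum fun T _ => Equi.sum fun v _ => (equi_col _ _).smul _

theorem hor_D : Hor (D r : E Γ (Finset V) →L[ℂ] E Γ (Finset V)) := by
  intro S f
  ext x
  obtain ⟨g, T⟩ := x
  by_cases hg : g ∈ S
  · rw [cut_apply_mem (x := (g, T)) hg, D_apply, D_apply]
    refine Finset.sum_congr rfl fun v _ => ?_
    rw [cut_apply_mem (x := (g, insert v T)) hg]
  · rw [cut_apply_notMem (x := (g, T)) hg, D_apply]
    refine Finset.sum_eq_zero fun v _ => ?_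
    rw [cut_apply_notMem (x := (g, insert v T)) hg, mul_zero]

/-- `D` commutes with right translations -/
theorem rt_D (a : Γ) (f : E Γ (Finset V)) : rt a (D r f) = D r (rt a f) := by
  ext x
  obtain ⟨g, T⟩ := x
  rw [rt_apply, D_apply]
  simp only
  rw [D_apply]
  rfl

lemma continuous_eval' {ι : Type*} (x : Γ × ι) : Continuous fun f : E Γ ι => f x := by
  have := (lp.uniformContinuous_coe (E := fun _ : Γ × ι => ℂ) (p := 2)).continuous
  exact (continuous_apply x).comp this

theorem mdl_Ch (A : Finset V) (i : ℕ) : Mdl (Ch G s A i) := by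
  constructor
  · rintro h f ⟨h1, h2⟩
    constructor
    · rintro ⟨g, S⟩ hx
      exact h1 (h⁻¹ * g, S) hx
    · intro g S v hv
      simp only [lam_apply]
      rw [← mul_assoc, h2 _ S v hv]
  · have h : (Ch G s A i : Set (E Γ (Finset V))) =
        (⋂ x : Γ × Finset V, ⋂ (_ : ¬ (x.2 ⊆ A ∧ x.2.card = i ∧ G.IsClique x.2)), {f | f x = 0}) ∩
        ⋂ g, ⋂ S, ⋂ v ∈ S, {f | f (g * s v, S) = - f (g, S)} := by
      ext f
      simp only [Set.mem_inter_iff, Set.mem_iInter, Set.mem_ofPred_eq]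
      constructor
      · rintro ⟨h1, h2⟩
        exact ⟨fun x hx => by_contra fun h => hx (h1 x h), h2⟩
      · rintro ⟨h1, h2⟩
        exact ⟨fun x hx => by_contra fun h => hx (h1 x h), h2⟩
    rw [h]
    refine IsClosed.inter ?_ ?_
    · exact isClosed_iInter fun x => isClosed_iInter fun _ =>
        isClosed_eq (continuous_eval' _) continuous_const
    · exact isClosed_iInter fun g => isClosed_iInter fun S => isClosed_iInter fun v => isClosed_iInter fun _ =>
        isClosed_eq (continuous_eval' _) (continuous_eval' _).neg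

theorem mdl_Cy (A : Finset V) (i : ℕ) : Mdl (Cy r G s A i) := (mdl_Ch G s A i).inf (mdl_ker (equi_D r))

theorem mdl_Bd (A : Finset V) (i : ℕ) : Mdl (Bd r G s A i) := Mdl.closure ((mdl_Ch G s A (i + 1)).inv.map (equi_D r))

theorem D_mem_Ch {A : Finset V} {i : ℕ} {f : E Γ (Finset V)} (hf : f ∈ Ch G s A (i + 1)) : D r f ∈ Ch G s A i := by
  obtain ⟨h1, h2⟩ := hf
  constructor
  · rintro ⟨g, T⟩ hx
    rw [D_apply] at hx
    obtain ⟨v, hv, hne⟩ := Finset.exists_ne_zero_of_sum_ne_zero hx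
    have hv' : v ∉ T := by simpa using hv
    obtain ⟨c1, c2, c3⟩ := h1 (g, insert v T) (right_ne_zero_of_mul hne)
    have c2' : (insert v T).card = i + 1 := c2
    rw [Finset.card_insert_of_notMem hv'] at c2'
    refine ⟨(Finset.subset_insert v T).trans c1, by simpa using c2', c3.subset ?_⟩
    simp
  · intro g T w hw
    rw [D_apply, D_apply, ← Finset.sum_neg_distrib]
    refine Finset.sum_congr rfl fun v _ => ?_
    rw [h2 g _ w (Finset.mem_insert_of_mem hw)]
    ring

lemma D_mem_Bd {A : Finset V} {i : ℕ} {f : E Γ (Finset V)} (hf : f ∈ Ch G s A (i + 1)) : D r f ∈ Bd r G s A i :=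
  Submodule.le_topologicalClosure _ ⟨f, hf, rfl⟩

lemma Bd_le_of {A : Finset V} {i : ℕ} {W : Submodule ℂ (E Γ (Finset V))} (hW : IsClosed (W : Set (E Γ (Finset V))))
    (h : ∀ f ∈ Ch G s A (i + 1), D r f ∈ W) : Bd r G s A i ≤ W := by
  refine Submodule.topologicalClosure_minimal _ ?_ hW
  rintro _ ⟨f, hf, rfl⟩
  exact h f hf

theorem Bd_le_Cy (hr : Function.Injective r) (A : Finset V) (i : ℕ) : Bd r G s A i ≤ Cy r G s A i := by
  refine Submodule.topologicalClosure_minimal _ ?_ (mdl_Cy r G s A i).cl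
  rintro _ ⟨f, hf, rfl⟩
  exact ⟨D_mem_Ch r G s hf, D_D r hr f⟩

theorem Ch_mono {A B : Finset V} (h : A ⊆ B) (i : ℕ) : Ch G s A i ≤ Ch G s B i := by
  rintro f ⟨h1, h2⟩
  exact ⟨fun x hx => ⟨(h1 x hx).1.trans h, (h1 x hx).2⟩, h2⟩

theorem Cy_mono {A B : Finset V} (h : A ⊆ B) (i : ℕ) : Cy r G s A i ≤ Cy r G s B i :=
  inf_le_inf_right _ (Ch_mono G s h i)

theorem Bd_mono {A B : Finset V} (h : A ⊆ B) (i : ℕ) : Bd r G s A i ≤ Bd r G s B i :=
  Submodule.topologicalClosure_mono (Submodule.map_mono (Ch_mono G s h _))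

theorem loc_Ch (A : Finset V) (i : ℕ) : Loc (sub s A) (Ch G s A i) := by
  rintro f ⟨h1, h2⟩
  constructor
  · rintro x hx
    apply h1
    intro h0
    apply hx
    rw [cut_apply, h0]
    simp
  · intro g S v hv
    by_cases h0 : f (g, S) = 0
    · have h0' : f (g * s v, S) = 0 := by rw [h2 g S v hv, h0, neg_zero]
      rw [cut_apply, cut_apply, h0, h0']
      simp
    · have hc := (h1 (g, S) h0).1
      have hv' : s v ∈ sub s A := Subgroup.subset_closure ⟨v, hc hv, rfl⟩
      by_cases hg : g ∈ sub s A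
      · rw [cut_apply_mem (x := (g, S)) (S := (sub s A : Set Γ)) hg,
          cut_apply_mem (x := (g * s v, S)) (S := (sub s A : Set Γ)) ((sub s A).mul_mem hg hv'), h2 g S v hv]
      · rw [cut_apply_notMem (x := (g, S)) (S := (sub s A : Set Γ)) hg,
          cut_apply_notMem (x := (g * s v, S)) (S := (sub s A : Set Γ))
            (fun h => hg (((sub s A).mul_mem_cancel_right hv').1 h)), neg_zero]

theorem loc_Cy (A : Finset V) (i : ℕ) : Loc (sub s A) (Cy r G s A i) := by
  rintro f ⟨h1, h2⟩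
  refine ⟨loc_Ch G s A i f h1, ?_⟩
  show D r _ = 0
  rw [hor_D, show D r f = 0 from h2, map_zero]

theorem loc_Bd (A : Finset V) (i : ℕ) : Loc (sub s A) (Bd r G s A i) :=
  ((loc_Ch G s A (i + 1)).map fun f => hor_D r _ f).closure

/-- rank-nullity for the boundary operator -/
theorem vdim_Bd (A : Finset V) (i : ℕ) : vdim (Bd r G s A i) = vdim (Ch G s A (i + 1)) - vdim (Cy r G s A (i + 1)) := by
  have := vdim_map_add (equi_D r) (mdl_Ch G s A (i + 1)).inv (mdl_Ch G s A (i + 1)).cl
  unfold Bd Cy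
  rw [vdim_closure]
  linarith

/-- a closed submodule of the closure of the boundaries is the closure of its boundaries -/
theorem closure_inf_map_D {W : Submodule ℂ (E Γ (Finset V))} (hW : Mdl W) (A : Finset V) (i : ℕ) :
    (W ⊓ (Ch G s A (i + 1)).map
      ((D r : E Γ (Finset V) →L[ℂ] E Γ (Finset V)) : E Γ (Finset V) →ₗ[ℂ] E Γ (Finset V))).topologicalClosure =
      W ⊓ Bd r G s A i := by
  have h := dense_image (equi_D r) (mdl_Ch G s A (i + 1)).inv (mdl_Ch G s A (i + 1)).cl
    (hW.inv.inf (mdl_Bd r G s A i).inv) (hW.cl.inter (mdl_Bd r G s A i).cl) inf_le_right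
  rw [← h]
  congr 1
  ext y
  constructor
  · rintro ⟨h1, x, hx, rfl⟩
    exact ⟨x, ⟨hx, h1, D_mem_Bd r G s hx⟩, rfl⟩
  · rintro ⟨x, ⟨hx, h1, _⟩, rfl⟩
    exact ⟨h1, x, hx, rfl⟩

theorem bn_nonneg (hr : Function.Injective r) (A : Finset V) (i : ℕ) : 0 ≤ bn r G s A i :=
  sub_nonneg.2 (vdim_mono (Bd_le_Cy r G s hr A i))

theorem Cy_le_Bd_of_bn (hr : Function.Injective r) {A : Finset V} {i : ℕ} (h : bn r G s A i = 0) :
    Cy r G s A i ≤ Bd r G s A i :=
  (eq_of_vdim_le (mdl_Bd r G s A i).inv (mdl_Cy r G s A i).inv (mdl_Bd r G s A i).cl (Bd_le_Cy r G s hr A i)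
    (by unfold bn at h; linarith)).ge

/-- `Z = B ⊕ (Z ∩ B^⊥)` -/
theorem Cy_eq_sup (hr : Function.Injective r) (A : Finset V) (i : ℕ) :
    Cy r G s A i = Bd r G s A i ⊔ (Cy r G s A i ⊓ (Bd r G s A i)ᗮ) := by
  refine le_antisymm (fun w hw => ?_) (sup_le (Bd_le_Cy r G s hr A i) inf_le_left)
  have h3 : prj (Bd r G s A i) w ∈ Bd r G s A i := by
    have := prj_mem (Bd r G s A i) w
    rwa [IsClosed.submodule_topologicalClosure_eq (mdl_Bd r G s A i).cl] at this
  have h4 : w = prj (Bd r G s A i) w + (w - prj (Bd r G s A i) w) := by abel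
  rw [h4]
  exact Submodule.add_mem_sup h3 ⟨Submodule.sub_mem _ hw (Bd_le_Cy r G s hr A i h3), sub_prj_mem _ w⟩

theorem Cy_zero (A : Finset V) : Cy r G s A 0 = Ch G s A 0 := by
  refine le_antisymm inf_le_left fun f hf => ⟨hf, ?_⟩
  show D r f = 0
  ext x
  obtain ⟨g, T⟩ := x
  rw [D_apply]
  refine Finset.sum_eq_zero fun v _ => ?_
  by_contra hne
  have h := (hf.1 (g, insert v T) (right_ne_zero_of_mul hne)).2.1
  exact absurd (Finset.card_eq_zero.1 h) (Finset.insert_ne_empty _ _)

theorem Ch_zero (A A' : Finset V) : Ch G s A 0 = Ch G s A' 0 := by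
  have key : ∀ {B B' : Finset V}, Ch G s B 0 ≤ Ch G s B' 0 := by
    rintro B B' f ⟨h1, h2⟩
    refine ⟨fun x hx => ?_, h2⟩
    obtain ⟨c1, c2, c3⟩ := h1 x hx
    refine ⟨?_, c2, c3⟩
    rw [Finset.card_eq_zero.1 c2]
    exact Finset.empty_subset _
  exact le_antisymm key key

end basic

end Singer
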