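import Pool.Agent.Singer.Compare
import Pool.Agent.Singer.Basic

/-!
# Singer: the coboundary operator, idempotents for the chains, the sign twist

For a system of involutions `s` of a group `Γ`: `exists_prj` (an idempotent matrix with range `Ch G s univ i`),
`cobd r G s` (the coboundary operator, `inner_cobd : ⟪cobd f, h⟫ = 2 ⟪f, D h⟫` on chains), `tw χ` (twist with a sign character).
-/

set_option autoImplicit false
set_option linter.unusedSectionVars false
set_option linter.unusedVariables false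

open scoped ComplexConjugate InnerProductSpace
open Filter Topology

namespace Singer

section ops
variable {Γ : Type*} [Group Γ] {ι κ : Type*}

lemma inner_col_left (j : ι) (k : κ) (f : E Γ ι) (h : E Γ κ) : ⟪col j k f, h⟫_ℂ = ⟪f, col k j h⟫_ℂ := by
  classical
  rw [inner_eq, inner_eq]
  have h1 : ∑' x : Γ × κ, conj (col j k f x) * h x = ∑' g : Γ, conj (f (g, j)) * h (g, k) := by
    have h2 : ∀ x : Γ × κ, x ∉ Set.range (fun g : Γ => (g, k)) → conj (col j k f x) * h x = 0 := by
      rintro ⟨g, k'⟩ hx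
      have hk : k' ≠ k := fun h0 => hx ⟨g, by rw [h0]⟩
      rw [col_apply_ne j hk, map_zero, zero_mul]
    rw [← (col_inj (Γ := Γ) k).tsum_eq (f := fun x : Γ × κ => conj (col j k f x) * h x)
      (fun x hx => by_contra fun h0 => hx (h2 x h0))]
    refine tsum_congr fun g => ?_
    rw [col_apply_self]
  have h3 : ∑' x : Γ × ι, conj (f x) * col k j h x = ∑' g : Γ, conj (f (g, j)) * h (g, k) := by
    have h2 : ∀ x : Γ × ι, x ∉ Set.range (fun g : Γ => (g, j)) → conj (f x) * col k j h x = 0 := by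
      rintro ⟨g, k'⟩ hx
      have hk : k' ≠ j := fun h0 => hx ⟨g, by rw [h0]⟩
      rw [col_apply_ne k hk, mul_zero]
    rw [← (col_inj (Γ := Γ) j).tsum_eq (f := fun x : Γ × ι => conj (f x) * col k j h x)
      (fun x hx => by_contra fun h0 => hx (h2 x h0))]
    refine tsum_congr fun g => ?_
    rw [col_apply_self]
  rw [h1, h3]

end ops

section sys
variable {Γ : Type*} [Group Γ] {V : Type*} [Fintype V] [DecidableEq V] {ι : Type*}
  {r : V → ℕ} {G : SimpleGraph V} {s : V → Γ}

lemma comm_of_clique (hs : IsSys G s) {T : Finset V} (hT : G.IsClique (T : Set V)) {u v : V} (hu : u ∈ T)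
    (hv : v ∈ T) : s u * s v = s v * s u := by
  by_cases h : u = v
  · rw [h]
  · exact hs.comm u v (hT hu hv h)

/-- antisymmetrisation -/
lemma exists_antisym (hs : IsSys G s) (T : Finset V) (hT : G.IsClique (T : Set V)) :
    ∃ A : E Γ ι →L[ℂ] E Γ ι, Mat A ∧ (∀ f, ∀ v ∈ T, rt (s v) (A f) = -A f) ∧
      ∀ f, (∀ v ∈ T, rt (s v) f = -f) → A f = f := by
  induction T using Finset.induction_on with
  | empty => exact ⟨1, Mat.one, by simp, fun f _ => rfl⟩
  | insert v T hv ih =>
    obtain ⟨A, hA, h1, h2⟩ := ih (hT.subset (by simp))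
    refine ⟨(1 / 2 : ℂ) • (A - (rt (s v)).comp A), (hA.sub ((mat_rt _).comp hA)).smul _, fun f w hw => ?_,
      fun f hf => ?_⟩
    · rw [smul_apply, sub_apply, ContinuousLinearMap.comp_apply, map_smul, map_sub]
      rcases Finset.mem_insert.1 hw with rfl | hw'
      · rw [rt_invol (hs.sq w), ← smul_neg, neg_sub]
      · rw [h1 f w hw', rt_rt, comm_of_clique hs hT hw (Finset.mem_insert_self v T), ← rt_rt, h1 f w hw', map_neg,
          ← smul_neg]
        congr 1
        abel
    · rw [smul_apply, sub_apply, ContinuousLinearMap.comp_apply, h2 f fun w hw => hf w (Finset.mem_insert_of_mem hw),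
        hf v (Finset.mem_insert_self v T), sub_neg_eq_add, ← two_smul ℂ f, smul_smul]
      norm_num

/-- an idempotent matrix whose range is the space of chains -/
lemma exists_prj (hs : IsSys G s) (i : ℕ) : ∃ e : E Γ (Finset V) →L[ℂ] E Γ (Finset V), Mat e ∧
    (∀ f, e f ∈ Ch G s Finset.univ i) ∧ ∀ f ∈ Ch G s Finset.univ i, e f = f := by
  classical
  have h0 : ∀ T : Finset V, ∃ A : E Γ (Finset V) →L[ℂ] E Γ (Finset V), Mat A ∧
      (G.IsClique (T : Set V) → (∀ f, ∀ v ∈ T, rt (s v) (A f) = -A f) ∧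
      ∀ f, (∀ v ∈ T, rt (s v) f = -f) → A f = f) := fun T => by
    by_cases hT : G.IsClique (T : Set V)
    · obtain ⟨A, hA, h⟩ := exists_antisym (ι := Finset V) hs T hT
      exact ⟨A, hA, fun _ => h⟩
    · exact ⟨1, Mat.one, fun h => absurd h hT⟩
  choose A hA hT using h0
  have key : ∀ (f : E Γ (Finset V)) (g : Γ) (S : Finset V),
      (∑ T ∈ Finset.univ.filter (fun T : Finset V => G.IsClique (T : Set V) ∧ T.card = i),
        (col T T).comp ((A T).comp (col T T)) : E Γ (Finset V) →L[ℂ] E Γ (Finset V)) f (g, S) =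
      if G.IsClique (S : Set V) ∧ S.card = i then A S (col S S f) (g, S) else 0 := by
    intro f g S
    rw [sum_apply, lp.coeFn_sum, Finset.sum_apply]
    by_cases hS : G.IsClique (S : Set V) ∧ S.card = i
    · rw [if_pos hS, Finset.sum_eq_single_of_mem S (by simpa using hS)]
      · rw [ContinuousLinearMap.comp_apply, ContinuousLinearMap.comp_apply, col_apply_self]
      · intro T _ hTS
        rw [ContinuousLinearMap.comp_apply, col_apply_ne T (Ne.symm hTS)]
    · rw [if_neg hS]
      refine Finset.sum_eq_zero fun T hT' => ?_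
      have hTS : S ≠ T := by
        rintro rfl
        exact hS (by simpa using hT')
      rw [ContinuousLinearMap.comp_apply, col_apply_ne T hTS]
  refine ⟨∑ T ∈ Finset.univ.filter (fun T : Finset V => G.IsClique (T : Set V) ∧ T.card = i),
    (col T T).comp ((A T).comp (col T T)), Mat.sum fun T _ => (mat_col T T).comp ((hA T).comp (mat_col T T)),
    fun f => ⟨?_, ?_⟩, fun f hf => ?_⟩
  · rintro ⟨g, S⟩ hx
    rw [key] at hx
    by_cases hS : G.IsClique (S : Set V) ∧ S.card = i
    · exact ⟨Finset.subset_univ _, hS.2, hS.1⟩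
    · exact absurd (if_neg hS) hx
  · intro g S v hv
    rw [key, key]
    by_cases hS : G.IsClique (S : Set V) ∧ S.card = i
    · rw [if_pos hS, if_pos hS]
      have h1 := (hT S hS.1).1 (col S S f) v hv
      have h2 : rt (s v) (A S (col S S f)) (g, S) = (-(A S (col S S f))) (g, S) := by rw [h1]
      rw [rt_apply, lp.coeFn_neg, Pi.neg_apply] at h2
      exact h2
    · rw [if_neg hS, if_neg hS, neg_zero]
  · ext x
    obtain ⟨g, S⟩ := x
    rw [key]
    by_cases hS : G.IsClique (S : Set V) ∧ S.card = i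
    · rw [if_pos hS, (hT S hS.1).2 (col S S f) ?_, col_apply_self]
      intro v hv
      ext x
      rw [rt_apply, lp.coeFn_neg, Pi.neg_apply, col_apply, col_apply]
      by_cases hx : x.2 = S
      · rw [if_pos hx, if_pos hx]
        exact hf.2 x.1 S v hv
      · rw [if_neg hx, if_neg hx, neg_zero]
    · rw [if_neg hS]
      by_contra h
      have h3 := hf.1 (g, S) (Ne.symm h)
      exact hS ⟨h3.2.2, h3.2.1⟩

variable (r G s) in
/-- the coboundary operator -/
noncomputable def cobd : E Γ (Finset V) →L[ℂ] E Γ (Finset V) := by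
  classical
  exact ∑ T ∈ Finset.univ.filter (fun T : Finset V => G.IsClique (T : Set V)), ∑ v ∈ T,
    sg r v (T.erase v) • (col (T.erase v) T).comp (1 - rt (s v))

open Classical in
lemma cobd_apply (f : E Γ (Finset V)) (g : Γ) (T : Finset V) :
    cobd r G s f (g, T) = if G.IsClique (T : Set V) then ∑ v ∈ T, sg r v (T.erase v) *
      (f (g, T.erase v) - f (g * s v, T.erase v)) else 0 := by
  classical
  unfold cobd
  rw [sum_apply, lp.coeFn_sum, Finset.sum_apply]
  have h0 : ∀ S : Finset V, (∑ v ∈ S, sg r v (S.erase v) • (col (S.erase v) S).comp (1 - rt (s v)) :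
      E Γ (Finset V) →L[ℂ] E Γ (Finset V)) f (g, T) = if T = S then ∑ v ∈ T, sg r v (T.erase v) *
      (f (g, T.erase v) - f (g * s v, T.erase v)) else 0 := by
    intro S
    rw [sum_apply, lp.coeFn_sum, Finset.sum_apply]
    by_cases h : T = S
    · subst h
      rw [if_pos rfl]
      refine Finset.sum_congr rfl fun v _ => ?_
      rw [smul_apply, lp.coeFn_smul, Pi.smul_apply, smul_eq_mul, ContinuousLinearMap.comp_apply, col_apply_self,
        sub_apply, lp.coeFn_sub, Pi.sub_apply, rt_apply]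
      rfl
    · rw [if_neg h]
      refine Finset.sum_eq_zero fun v _ => ?_
      rw [smul_apply, lp.coeFn_smul, Pi.smul_apply, smul_eq_mul, ContinuousLinearMap.comp_apply, col_apply_ne _ h,
        mul_zero]
  rw [Finset.sum_congr rfl fun S _ => h0 S, Finset.sum_ite_eq]
  simp

lemma mat_cobd : Mat (cobd r G s : E Γ (Finset V) →L[ℂ] E Γ (Finset V)) := by
  classical
  exact Mat.sum fun T _ => Mat.sum fun v _ => ((mat_col _ _).comp (Mat.one.sub (mat_rt _))).smul _

lemma mat_D : Mat (D r : E Γ (Finset V) →L[ℂ] E Γ (Finset V)) :=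
  Mat.sum fun T _ => Mat.sum fun v _ => (mat_col _ _).smul _

lemma cobd_mem (hs : IsSys G s) {i : ℕ} {f : E Γ (Finset V)} (hf : f ∈ Ch G s Finset.univ i) :
    cobd r G s f ∈ Ch G s Finset.univ (i + 1) := by
  classical
  obtain ⟨h1, h2⟩ := hf
  constructor
  · rintro ⟨g, T⟩ hx
    rw [cobd_apply] at hx
    by_cases hT : G.IsClique (T : Set V)
    · rw [if_pos hT] at hx
      obtain ⟨v, hv, hne⟩ := Finset.exists_ne_zero_of_sum_ne_zero hx
      have hc : (T.erase v).card = i := by
        by_contra hc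
        apply hne
        have h3 : ∀ g', f (g', T.erase v) = 0 := fun g' => by
          by_contra h4
          exact hc (h1 (g', T.erase v) h4).2.1
        rw [h3, h3, sub_zero, mul_zero]
      refine ⟨Finset.subset_univ _, ?_, hT⟩
      rw [← Finset.card_erase_add_one hv, hc]
    · rw [if_neg hT] at hx
      exact absurd rfl hx
  · intro g T w hw
    rw [cobd_apply, cobd_apply]
    by_cases hT : G.IsClique (T : Set V)
    · rw [if_pos hT, if_pos hT, ← Finset.sum_neg_distrib]
      refine Finset.sum_congr rfl fun v hv => ?_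
      by_cases hvw : v = w
      · subst hvw
        rw [mul_assoc, hs.sq, mul_one]
        ring
      · have hw' : w ∈ T.erase v := Finset.mem_erase.2 ⟨Ne.symm hvw, hw⟩
        rw [mul_assoc, comm_of_clique hs hT hw hv, ← mul_assoc, h2 g _ w hw', h2 (g * s v) _ w hw']
        ring
    · rw [if_neg hT, if_neg hT, neg_zero]

lemma sum_erase_insert {M : Type*} [AddCommMonoid M] (F : Finset V → V → Finset V → M) :
    ∑ T : Finset V, ∑ v ∈ T, F T v (T.erase v) = ∑ S : Finset V, ∑ v ∈ Sᶜ, F (insert v S) v S := by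
  classical
  rw [Finset.sum_sigma', Finset.sum_sigma']
  refine Finset.sum_bij' (fun x _ => (⟨x.1.erase x.2, x.2⟩ : (_ : Finset V) × V))
    (fun x _ => (⟨insert x.2 x.1, x.2⟩ : (_ : Finset V) × V)) ?_ ?_ ?_ ?_ ?_
  · rintro ⟨T, v⟩ h
    simp
  · rintro ⟨S, v⟩ h
    simp
  · rintro ⟨T, v⟩ h
    have hv : v ∈ T := by simpa using h
    simp only
    rw [Finset.insert_erase hv]
  · rintro ⟨S, v⟩ h
    have hv : v ∉ S := by simpa using h
    simp only
    rw [Finset.erase_insert hv]
  · rintro ⟨T, v⟩ h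
    have hv : v ∈ T := by simpa using h
    simp only
    rw [Finset.insert_erase hv]

/-- on chains the coboundary is twice the adjoint of the boundary -/
theorem inner_cobd (hs : IsSys G s) {i j : ℕ} {f h : E Γ (Finset V)} (hf : f ∈ Ch G s Finset.univ i)
    (hh : h ∈ Ch G s Finset.univ j) : ⟪cobd r G s f, h⟫_ℂ = 2 * ⟪f, D r h⟫_ℂ := by
  classical
  have h1 : ∀ T : Finset V, ∀ v ∈ T, ⟪(sg r v (T.erase v) • (col (T.erase v) T).comp (1 - rt (s v)) :
      E Γ (Finset V) →L[ℂ] E Γ (Finset V)) f, h⟫_ℂ = 2 * ⟪f, sg r v (T.erase v) • col T (T.erase v) h⟫_ℂ := by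
    intro T v hv
    have h2 : rt (s v) (col T (T.erase v) h) = -(col T (T.erase v) h) := by
      ext x
      rw [rt_apply, lp.coeFn_neg, Pi.neg_apply, col_apply, col_apply]
      by_cases hx : x.2 = T.erase v
      · rw [if_pos hx, if_pos hx]
        exact hh.2 x.1 T v hv
      · rw [if_neg hx, if_neg hx, neg_zero]
    have h3 : conj (sg r v (T.erase v)) = sg r v (T.erase v) := by
      unfold sg
      rw [map_pow, map_neg, map_one]
    have h4 : (s v)⁻¹ = s v := inv_eq_of_mul_eq_one_left (hs.sq v)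
    rw [smul_apply, inner_smul_left, inner_smul_right, h3, ContinuousLinearMap.comp_apply, inner_col_left, sub_apply,
      inner_sub_left, inner_rt_left, h4, h2, inner_neg_right]
    have h5 : ⟪(1 : E Γ (Finset V) →L[ℂ] E Γ (Finset V)) f, col T (T.erase v) h⟫_ℂ = ⟪f, col T (T.erase v) h⟫_ℂ := rfl
    rw [h5]
    ring
  have h6 : D r h = ∑ T : Finset V, ∑ v ∈ T, sg r v (T.erase v) • col T (T.erase v) h := by
    rw [sum_erase_insert fun T v S => sg r v S • col T S h]
    unfold D
    rw [sum_apply]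
    refine Finset.sum_congr rfl fun T _ => ?_
    rw [sum_apply]
    rfl
  have h7 : cobd r G s f = ∑ T ∈ Finset.univ.filter (fun T : Finset V => G.IsClique (T : Set V)), ∑ v ∈ T,
      (sg r v (T.erase v) • (col (T.erase v) T).comp (1 - rt (s v)) :
      E Γ (Finset V) →L[ℂ] E Γ (Finset V)) f := by
    unfold cobd
    rw [sum_apply]
    refine Finset.sum_congr rfl fun T _ => ?_
    rw [sum_apply]
  rw [h6, h7, sum_inner, inner_sum, Finset.mul_sum, Finset.sum_filter]
  refine Finset.sum_congr rfl fun T _ => ?_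
  by_cases hT : G.IsClique (T : Set V)
  · rw [if_pos hT, sum_inner, inner_sum, Finset.mul_sum]
    exact Finset.sum_congr rfl fun v hv => h1 T v hv
  · rw [if_neg hT, inner_sum, Finset.sum_eq_zero, mul_zero]
    intro v hv
    have h8 : col T (T.erase v) h = 0 := by
      ext x
      rw [col_apply]
      have h9 : h (x.1, T) = 0 := by
        by_contra h9
        exact hT (hh.1 (x.1, T) h9).2.2
      rw [h9]
      simp
    rw [h8, smul_zero, inner_zero_right]

theorem cobd_cobd (hr : Function.Injective r) (hs : IsSys G s) {i : ℕ} {f : E Γ (Finset V)}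
    (hf : f ∈ Ch G s Finset.univ i) : cobd r G s (cobd r G s f) = 0 := by
  have h1 := cobd_mem (r := r) hs hf
  have h2 := cobd_mem (r := r) hs h1
  have h3 : ⟪cobd r G s (cobd r G s f), cobd r G s (cobd r G s f)⟫_ℂ = 0 := by
    rw [inner_cobd hs h1 h2, inner_cobd hs hf (D_mem_Ch r G s h2), D_D r hr, inner_zero_right, mul_zero, mul_zero]
  exact inner_self_eq_zero.1 h3

end sys

/-! ### the twist -/

section twist
variable {Γ : Type*} [Group Γ] {ι κ : Type*} (χ : Γ →* ℤˣ)

lemma norm_sgn (u : ℤˣ) : ‖((u : ℤ) : ℂ)‖ ≤ 1 := by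
  rcases Int.units_eq_one_or u with h | h <;> simp [h]

/-- twist with a sign character -/
noncomputable def tw : E Γ ι →L[ℂ] E Γ ι := mul (fun x => ((χ x.1 : ℤ) : ℂ)) fun x => norm_sgn _

@[simp] lemma tw_apply (f : E Γ ι) (x : Γ × ι) : tw χ f x = ((χ x.1 : ℤ) : ℂ) * f x := rfl

lemma sgn_sq (u : ℤˣ) : ((u : ℤ) : ℂ) * ((u : ℤ) : ℂ) = 1 := by
  rcases Int.units_eq_one_or u with h | h <;> simp [h]

lemma tw_tw (f : E Γ ι) : tw χ (tw χ f) = f := by
  ext x
  rw [tw_apply, tw_apply, ← mul_assoc, sgn_sq, one_mul]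

lemma tw_lam (g : Γ) (f : E Γ ι) : tw χ (lam g f) = ((χ g : ℤ) : ℂ) • lam g (tw χ f) := by
  ext x
  rw [tw_apply, lp.coeFn_smul, Pi.smul_apply, smul_eq_mul, lam_apply, lam_apply, tw_apply]
  simp only [map_mul, map_inv, Units.val_mul, Int.cast_mul]
  have h1 : (((χ g)⁻¹ : ℤˣ) : ℤ) = (χ g : ℤ) := by
    rcases Int.units_eq_one_or (χ g) with h | h <;> simp [h]
  rw [h1, mul_assoc, ← mul_assoc, sgn_sq, one_mul]

lemma tw_rt (a : Γ) (f : E Γ ι) : tw χ (rt a f) = ((χ a : ℤ) : ℂ) • rt a (tw χ f) := by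
  ext x
  rw [tw_apply, lp.coeFn_smul, Pi.smul_apply, smul_eq_mul, rt_apply, rt_apply, tw_apply]
  simp only [map_mul, Units.val_mul, Int.cast_mul]
  have h2 := sgn_sq (χ a)
  linear_combination (-((χ x.1 : ℤ) : ℂ) * f (x.1 * a, x.2)) * h2

lemma inner_tw_left (f h : E Γ ι) : ⟪tw χ f, h⟫_ℂ = ⟪f, tw χ h⟫_ℂ := by
  rw [inner_eq, inner_eq]
  refine tsum_congr fun x => ?_
  rw [tw_apply, tw_apply, map_mul]
  have h1 : (starRingEnd ℂ) ((χ x.1 : ℤ) : ℂ) = ((χ x.1 : ℤ) : ℂ) := map_intCast _ _
  rw [h1]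
  ring

lemma inner_tw_tw (f h : E Γ ι) : ⟪tw χ f, tw χ h⟫_ℂ = ⟪f, h⟫_ℂ := by
  rw [inner_tw_left, tw_tw]

lemma fs_tw {f : E Γ ι} (hf : FS f) : FS (tw χ f) := by
  refine hf.subset fun x hx h => hx ?_
  rw [tw_apply, h, mul_zero]

lemma tw_del (j : ι) : tw χ (del 1 j : E Γ ι) = del 1 j := by
  ext x
  rw [tw_apply]
  by_cases h : x = (1, j)
  · subst h
    rw [del_apply_self, map_one]
    simp
  · rw [del_apply_ne h, mul_zero]

lemma Mat.tw {T : E Γ ι →L[ℂ] E Γ κ} (hT : Mat T) : Mat ((tw χ).comp (T.comp (tw χ))) := by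
  constructor
  · intro g f
    rw [ContinuousLinearMap.comp_apply, ContinuousLinearMap.comp_apply, ContinuousLinearMap.comp_apply,
      ContinuousLinearMap.comp_apply, tw_lam, map_smul, map_smul, hT.equi, tw_lam, smul_smul, sgn_sq, one_smul]
  · intro j
    rw [ContinuousLinearMap.comp_apply, ContinuousLinearMap.comp_apply, tw_del]
    exact fs_tw χ (hT.fin j)

end twist

end Singer
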