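import Pool.Agent.Singer.Stmt2

/-!
# Convex subcomplexes of the Davis complex of a right-angled Coxeter group, and the class of their links

* `HSphere n G` : the clique complex of `G` is a flag homology sphere of dimension `n - 1`;
* `Cls n G` : the class of graphs; it contains all flag homology spheres of dimension at most three;
* `Convex Ω` : the set `Ω` of vertices of the Davis complex spans a convex subcomplex;
* `star Ω w` : the link of the vertex `w` in this subcomplex.
-/

set_option autoImplicit false

namespace SingerCube

open SingerPD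

/-- the clique complex of `G` is a flag homology sphere of dimension `n - 1`: for `n = 0` the graph is empty; for larger
`n` it is finite, satisfies the sphere condition, and all links of vertices are flag homology spheres of dimension
`n - 2` -/
def HSphere : ℕ → ∀ {V : Type}, SimpleGraph V → Prop
  | 0, V, _ => IsEmpty V
  | n + 1, V, G => Finite V ∧ SphereCond G ∧ ∀ v : V, HSphere n (link G v)

/-- the class of graphs: it contains all flag homology spheres of dimension at most three (`low`), it is closed under
suspension, edge subdivision, glueing along full subgraphs of codimension one (`glue`), splitting of vertices (`split`: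
`conef G K B` is `G` with the edge `p q` contracted), isomorphism; for odd `n` a finite graph with the sphere condition
with links in `Cls n` is in `Cls (n + 1)` (`even`) -/
inductive Cls : ∀ (_ : ℕ) {V : Type}, SimpleGraph V → Prop
  | low {n : ℕ} {V : Type} {G : SimpleGraph V} : n ≤ 4 → HSphere n G → Cls n G
  | susp {n : ℕ} {V : Type} {G : SimpleGraph V} : Cls n G → Cls (n + 1) (SingerPD.susp G)
  | subd {n : ℕ} {V : Type} {G : SimpleGraph V} {a b : V} : Cls n G → G.Adj a b → Cls n (SingerPD.subd G a b)
  | glue {n : ℕ} {V : Type} {G : SimpleGraph V} {K K' B : Finset V} : (∀ v, v ∈ K ∨ v ∈ K') →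
      (∀ v, v ∈ B ↔ v ∈ K ∧ v ∈ K') → (∀ u v, u ∉ K' → v ∉ K → ¬ G.Adj u v) →
      Cls n (conef G K B) → Cls n (conef G K' B) → Cls n G
  | split {n : ℕ} {V : Type} {G : SimpleGraph V} {p q : V} {K B : Finset V} : G.Adj p q →
      (∀ v, v ∈ K ↔ v ≠ p ∧ v ≠ q) → (∀ v, v ∈ B ↔ v ∈ K ∧ (G.Adj p v ∨ G.Adj q v)) →
      (∀ x y, G.Adj p x → G.Adj x y → G.Adj y q → x = q ∨ y = p ∨ G.Adj q x ∨ G.Adj p y) →
      Cls (n + 1) (conef G K B) → Cls n (link G p) → Cls n (link G q) → Cls (n + 1) G
  | even {n : ℕ} {V : Type} {G : SimpleGraph V} : Odd n → Finite V → SphereCond G →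
      (∀ v : V, Cls n (link G v)) → Cls (n + 1) G
  | iso {n : ℕ} {V W : Type} {G : SimpleGraph V} {H : SimpleGraph W} : Cls n G → (G ≃g H) → Cls n H

/-- the generator of the right-angled Coxeter group given by the vertex `v` -/
def gen {V : Type} {G : SimpleGraph V} (v : V) : Cox G := PresentedGroup.of v

/-- the set `Ω` of vertices of the Davis complex contains `1`, every element of `Ω` is the end of a path in `Ω` which
starts at `1`, and the fourth vertex of a square is in `Ω` if the three others are: `Ω` is the set of vertices of a convex
subcomplex -/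
structure Convex {V : Type} {G : SimpleGraph V} (Ω : Set (Cox G)) : Prop where
  one : (1 : Cox G) ∈ Ω
  conn : ∀ w ∈ Ω, ∃ l : List V, (l.map gen).prod = w ∧ ∀ m : List V, m <+: l → (m.map gen).prod ∈ Ω
  sq : ∀ w ∈ Ω, ∀ u v, G.Adj u v → w * gen u ∈ Ω → w * gen v ∈ Ω → w * gen u * gen v ∈ Ω

/-- the link of the vertex `w`: the vertices are the directions of the edges of the subcomplex at `w`, and two of them are
adjacent if they are adjacent in `G` -/
def star {V : Type} {G : SimpleGraph V} (Ω : Set (Cox G)) (w : Cox G) : SimpleGraph {v : V // w * gen v ∈ Ω} :=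
  G.comap Subtype.val

end SingerCube
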