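import Mathlib

/-!
# Poincare duality groups

* `ZG Γ` : the integral group ring;
* `ProjRes Γ` : resolutions of `ℤ` by finitely generated projective modules; `ProjRes.Hn` : `H^i(Γ; ℤΓ)`;
* `IsPD n Γ` : `Γ` is an `n`-dimensional Poincare duality group;
* `NoInv H` : the subgroup `H` has no elements of order two.
-/

set_option autoImplicit false
set_option linter.unusedSectionVars false
set_option linter.unusedVariables false

namespace Singer

universe u

/-- the integral group ring -/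
abbrev ZG (Γ : Type u) [Group Γ] : Type u := MonoidAlgebra ℤ Γ

/-- a resolution `… → P 1 → P 0 → ℤ → 0` of the trivial module `ℤ` by finitely generated projective left modules over the
integral group ring -/
structure ProjRes (Γ : Type u) [Group Γ] where
  /-- the modules -/
  P : ℕ → Type u
  [acg : ∀ i, AddCommGroup (P i)]
  [mod : ∀ i, Module (ZG Γ) (P i)]
  proj : ∀ i, Module.Projective (ZG Γ) (P i)
  fin : ∀ i, Module.Finite (ZG Γ) (P i)
  /-- the differentials -/
  d : ∀ i, P (i + 1) →ₗ[ZG Γ] P i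
  /-- the augmentation -/
  aug : P 0 →+ ℤ
  aug_smul : ∀ (g : Γ) (x : P 0), aug (MonoidAlgebra.single g (1 : ℤ) • x) = aug x
  aug_surj : Function.Surjective aug
  exact_zero : ∀ x, aug x = 0 ↔ ∃ y, d 0 y = x
  exact_succ : ∀ i x, d i x = 0 ↔ ∃ y, d (i + 1) y = x

attribute [instance] ProjRes.acg ProjRes.mod

namespace ProjRes
variable {Γ : Type u} [Group Γ] (R : ProjRes Γ)

/-- the coboundary of the complex `Hom(P i, ℤΓ)` -/
noncomputable def cod (i : ℕ) : (R.P i →ₗ[ZG Γ] ZG Γ) →+ (R.P (i + 1) →ₗ[ZG Γ] ZG Γ) where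
  toFun φ := φ.comp (R.d i)
  map_zero' := LinearMap.zero_comp _
  map_add' _ _ := LinearMap.add_comp _ _ _

/-- cocycles -/
noncomputable def Zn (i : ℕ) : AddSubgroup (R.P i →ₗ[ZG Γ] ZG Γ) := (R.cod i).ker

/-- coboundaries -/
noncomputable def Bn : ∀ i : ℕ, AddSubgroup (R.P i →ₗ[ZG Γ] ZG Γ)
  | 0 => ⊥
  | i + 1 => (R.cod i).range

/-- the cohomology group `H^i(Γ; ℤΓ)` -/
abbrev Hn (i : ℕ) : Type u := R.Zn i ⧸ (R.Bn i).addSubgroupOf (R.Zn i)

end ProjRes

/-- `Γ` is an `n`-dimensional Poincare duality group: it is of type FP (there is a resolution of finite length of `ℤ` by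
finitely generated projective modules), `H^i(Γ; ℤΓ) = 0` for `i ≠ n`, and `H^n(Γ; ℤΓ)` is infinite cyclic -/
def IsPD (n : ℕ) (Γ : Type u) [Group Γ] : Prop :=
  ∃ R : ProjRes Γ, (∃ N, ∀ i, N < i → Subsingleton (R.P i)) ∧ (∀ i, i ≠ n → Subsingleton (R.Hn i)) ∧
    Nonempty (R.Hn n ≃+ ℤ)

/-- `H` has no elements of order two -/
def NoInv {Γ : Type*} [Group Γ] (H : Subgroup Γ) : Prop := ∀ h ∈ H, h * h = 1 → h = 1

end Singer
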