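import Mathlib

/-!
# Right-angled Coxeter groups

`RACG G` is the right-angled Coxeter group of the graph `G`: generators `gen v` of order two, the
generators of adjacent vertices commute.

* `Racg.map_injective` : an induced subgraph gives a subgroup
* `Racg.gen_notMem` : `gen a` is not in the subgroup generated by the other generators
* `Racg.orderOf_mul` : the product of two nonadjacent generators has infinite order
* `Racg.exists_half` : the half-space of the wall of `a`
-/

set_option autoImplicit false

namespace Singer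

variable {V : Type*}

/-- the relations of the right-angled Coxeter group of a graph -/
def racgRels (G : SimpleGraph V) : Set (FreeGroup V) :=
  {w | (∃ v, w = FreeGroup.of v * FreeGroup.of v) ∨
    ∃ u v, G.Adj u v ∧ w = FreeGroup.of u * FreeGroup.of v * (FreeGroup.of u)⁻¹ * (FreeGroup.of v)⁻¹}

/-- the right-angled Coxeter group of a graph -/
abbrev RACG (G : SimpleGraph V) : Type _ := PresentedGroup (racgRels G)

namespace Racg

variable (G : SimpleGraph V)

/-- the generator of a vertex -/
def gen (v : V) : RACG G := PresentedGroup.of v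

@[simp] lemma gen_mul_gen (v : V) : gen G v * gen G v = 1 := by
  have h : FreeGroup.of v * FreeGroup.of v ∈ racgRels G := Or.inl ⟨v, rfl⟩
  have h1 := PresentedGroup.mk_eq_one_iff.2 (Subgroup.subset_normalClosure h)
  rw [map_mul] at h1
  exact h1

lemma gen_inv (v : V) : (gen G v)⁻¹ = gen G v := inv_eq_of_mul_eq_one_left (gen_mul_gen G v)

variable {G}

lemma gen_comm {u v : V} (h : G.Adj u v) : gen G u * gen G v = gen G v * gen G u := by
  have h0 : FreeGroup.of u * FreeGroup.of v * (FreeGroup.of u)⁻¹ * (FreeGroup.of v)⁻¹ ∈ racgRels G :=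
    Or.inr ⟨u, v, h, rfl⟩
  have h1 := PresentedGroup.mk_eq_one_iff.2 (Subgroup.subset_normalClosure h0)
  rw [map_mul, map_mul, map_mul, map_inv, map_inv] at h1
  have h2 : gen G u * gen G v * (gen G u)⁻¹ * (gen G v)⁻¹ = 1 := h1
  rw [mul_inv_eq_one, mul_inv_eq_iff_eq_mul] at h2
  exact h2

/-- the universal property -/
def lift {H : Type*} [Group H] (f : V → H) (h1 : ∀ v, f v * f v = 1)
    (h2 : ∀ u v, G.Adj u v → f u * f v = f v * f u) : RACG G →* H :=
  PresentedGroup.toGroup (f := f) (rels := racgRels G) (by
    rintro w (⟨v, rfl⟩ | ⟨u, v, h, rfl⟩)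
    · rw [map_mul, FreeGroup.lift_apply_of]
      exact h1 v
    · rw [map_mul, map_mul, map_mul, map_inv, map_inv, FreeGroup.lift_apply_of, FreeGroup.lift_apply_of,
        mul_inv_eq_one, mul_inv_eq_iff_eq_mul]
      exact h2 u v h)

section
variable {H : Type*} [Group H] {f : V → H} {h1 : ∀ v, f v * f v = 1}
  {h2 : ∀ u v, G.Adj u v → f u * f v = f v * f u}

@[simp] lemma lift_gen (v : V) : lift f h1 h2 (gen G v) = f v := PresentedGroup.toGroup.of _

lemma hom_ext {g g' : RACG G →* H} (h : ∀ v, g (gen G v) = g' (gen G v)) : g = g' :=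
  PresentedGroup.ext h

end

lemma closure_gen : Subgroup.closure (Set.range (gen G)) = ⊤ := PresentedGroup.closure_range_of _

/-- induction: every element is a product of generators -/
lemma induction {p : RACG G → Prop} (h1 : p 1) (hm : ∀ v w, p w → p (gen G v * w)) (w : RACG G) : p w := by
  have h : w ∈ Subgroup.closure (Set.range (gen G)) := by rw [closure_gen]; trivial
  induction h using Subgroup.closure_induction_left with
  | one => exact h1
  | mul_left x hx y _ ih =>
    obtain ⟨v, rfl⟩ := hx
    exact hm v y ih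
  | inv_mul_cancel x hx y _ ih =>
    obtain ⟨v, rfl⟩ := hx
    rw [gen_inv]
    exact hm v y ih

/-! ### special subgroups -/

/-- the special subgroup of a set of vertices -/
def sub (A : Set V) : Subgroup (RACG G) := Subgroup.closure (gen G '' A)

lemma gen_mem_sub {A : Set V} {v : V} (h : v ∈ A) : gen G v ∈ sub (G := G) A :=
  Subgroup.subset_closure ⟨v, h, rfl⟩

lemma sub_mono {A B : Set V} (h : A ⊆ B) : sub (G := G) A ≤ sub B :=
  Subgroup.closure_mono (Set.image_mono h)

variable {V' : Type*}

/-- the map of right-angled Coxeter groups of a map of graphs -/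
def map {G' : SimpleGraph V'} (j : V' → V) (hj : ∀ u v, G'.Adj u v → G.Adj (j u) (j v)) : RACG G' →* RACG G :=
  lift (fun v => gen G (j v)) (fun _ => gen_mul_gen G _) fun u v h => gen_comm (hj u v h)

@[simp] lemma map_gen {G' : SimpleGraph V'} (j : V' → V) (hj : ∀ u v, G'.Adj u v → G.Adj (j u) (j v)) (v : V') :
    map j hj (gen G' v) = gen G (j v) := lift_gen v

open Classical in
/-- the retraction to the group of an induced subgraph -/
noncomputable def ret {G' : SimpleGraph V'} (j : V' → V)
    (hj : ∀ u v, G.Adj (j u) (j v) → G'.Adj u v) : RACG G →* RACG G' :=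
  lift (fun v => if h : ∃ v', j v' = v then gen G' h.choose else 1)
    (fun v => by split_ifs <;> simp)
    fun u v h => by
      split_ifs with h1 h2
      · refine gen_comm (hj _ _ ?_)
        rw [h1.choose_spec, h2.choose_spec]
        exact h
      all_goals simp

lemma ret_gen {G' : SimpleGraph V'} (j : V' → V) (hi : Function.Injective j)
    (hj : ∀ u v, G.Adj (j u) (j v) → G'.Adj u v) (v : V') : ret j hj (gen G (j v)) = gen G' v := by
  classical
  have h : ∃ v', j v' = j v := ⟨v, rfl⟩
  rw [ret, lift_gen, dif_pos h, hi h.choose_spec]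

/-- **(W1)** an induced subgraph gives a subgroup -/
theorem map_injective {G' : SimpleGraph V'} (j : V' → V) (hi : Function.Injective j)
    (hj : ∀ u v, G'.Adj u v ↔ G.Adj (j u) (j v)) :
    Function.Injective (map (G := G) (G' := G') j fun u v => (hj u v).1) := by
  have h : (ret j fun u v => (hj u v).2).comp (map (G := G) (G' := G') j fun u v => (hj u v).1) =
      MonoidHom.id _ := hom_ext fun v => by
    rw [MonoidHom.comp_apply, map_gen, ret_gen j hi, MonoidHom.id_apply]
  intro x y hxy
  have h1 := DFunLike.congr_fun h x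
  have h2 := DFunLike.congr_fun h y
  rw [MonoidHom.comp_apply, MonoidHom.id_apply] at h1 h2
  rw [← h1, ← h2, hxy]

/-- the image of the group of an induced subgraph is the special subgroup -/
theorem range_map {G' : SimpleGraph V'} (j : V' → V) (hj : ∀ u v, G'.Adj u v → G.Adj (j u) (j v)) :
    (map (G := G) (G' := G') j hj).range = sub (Set.range j) := by
  rw [MonoidHom.range_eq_map, ← closure_gen, MonoidHom.map_closure]
  unfold sub
  congr 1
  ext w
  simp

/-- the map of groups sends special subgroups to special subgroups -/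
theorem map_sub {G' : SimpleGraph V'} (j : V' → V) (hj : ∀ u v, G'.Adj u v → G.Adj (j u) (j v)) (A : Set V') :
    (sub (G := G') A).map (map (G := G) (G' := G') j hj) = sub (j '' A) := by
  unfold sub
  rw [MonoidHom.map_closure]
  congr 1
  ext w
  simp

open Classical in
/-- **(W2)** a generator is not in the subgroup generated by other generators -/
theorem gen_notMem {a : V} {A : Set V} (ha : a ∉ A) : gen G a ∉ sub (G := G) A := by
  intro h
  let φ : RACG G →* Multiplicative (ZMod 2) :=
    lift (fun v => if v = a then Multiplicative.ofAdd 1 else 1)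
      (fun v => by split_ifs <;> decide)
      fun u v _ => mul_comm _ _
  have h1 : sub (G := G) A ≤ φ.ker := by
    refine (Subgroup.closure_le _).2 ?_
    rintro _ ⟨v, hv, rfl⟩
    have hva : v ≠ a := fun h => ha (h ▸ hv)
    show φ (gen G v) = 1
    rw [lift_gen, if_neg hva]
  have h2 : φ (gen G a) = 1 := h1 h
  rw [lift_gen, if_pos rfl] at h2
  exact absurd h2 (by decide)

lemma gen_ne_one (a : V) : gen G a ≠ 1 := fun h =>
  gen_notMem (G := G) (Set.notMem_empty a) (h ▸ Subgroup.one_mem _)

open Classical in
/-- **(W4)** the product of two nonadjacent generators has infinite order -/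
theorem pow_ne_one {p q : V} (hpq : p ≠ q) (h : ¬ G.Adj p q) {n : ℕ} (hn : n ≠ 0) :
    (gen G p * gen G q) ^ n ≠ 1 := by
  intro h0
  let φ : RACG G →* DihedralGroup 0 :=
    lift (fun v => if v = p then DihedralGroup.sr 0 else if v = q then DihedralGroup.sr 1 else 1)
      (fun v => by split_ifs <;> simp)
      fun u v huv => by
        by_cases hu : u = p
        · by_cases hv : v = p
          · subst hu hv; exact absurd huv (G.loopless.irrefl _)
          by_cases hv' : v = q
          · subst hu hv'; exact absurd huv h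
          simp [hv, hv']
        by_cases hu' : u = q
        · by_cases hv : v = p
          · subst hu' hv; exact absurd huv.symm h
          by_cases hv' : v = q
          · subst hu' hv'; rfl
          simp [hv, hv']
        simp [hu, hu']
  have h1 : φ (gen G p * gen G q) = DihedralGroup.r 1 := by
    rw [map_mul, lift_gen, lift_gen, if_pos rfl, if_neg (Ne.symm hpq), if_pos rfl, DihedralGroup.sr_mul_sr]
    simp
  have h2 := congrArg φ h0
  rw [map_pow, h1, map_one, DihedralGroup.r_one_pow] at h2
  rw [DihedralGroup.one_def] at h2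
  have h3 : ((n : ℕ) : ZMod 0) = 0 := by injection h2
  have h4 : ((n : ℕ) : ℤ) = 0 := h3
  exact hn (by exact_mod_cast h4)

theorem orderOf_mul {p q : V} (hpq : p ≠ q) (h : ¬ G.Adj p q) : orderOf (gen G p * gen G q) = 0 := by
  rw [orderOf_eq_zero_iff']
  intro n hn
  exact pow_ne_one hpq h hn.ne'

/-! ### the half-space of a wall -/

/-- toggle the first letter of a word -/
def tog {α : Type*} [DecidableEq α] (x : α) : List α → List α
  | [] => [x]
  | y :: l => if y = x then l else x :: y :: l

/-- words without two equal neighbouring letters -/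
def Red {α : Type*} (l : List α) : Prop := l.IsChain (· ≠ ·)

section tog
variable {α : Type*} [DecidableEq α]

lemma red_tog (x : α) {l : List α} (h : Red l) : Red (tog x l) := by
  cases l with
  | nil => simp [tog, Red]
  | cons y l =>
    by_cases h1 : y = x
    · have h2 : tog x (y :: l) = l := if_pos h1
      rw [h2]
      exact List.IsChain.tail h
    · have h2 : tog x (y :: l) = x :: y :: l := if_neg h1
      rw [h2]
      exact List.IsChain.cons_cons (Ne.symm h1) h

lemma tog_tog (x : α) {l : List α} (h : Red l) : tog x (tog x l) = l := by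
  cases l with
  | nil => simp [tog]
  | cons y l =>
    by_cases h1 : y = x
    · subst h1
      have h2 : tog y (y :: l) = l := by simp [tog]
      rw [h2]
      cases l with
      | nil => simp [tog]
      | cons z l =>
        have h3 : y ≠ z := by
          have := h
          unfold Red at this
          rw [List.isChain_cons_cons] at this
          exact this.1
        simp [tog, Ne.symm h3]
    · simp [tog, h1]

end tog

section half
open scoped Classical
variable (G : SimpleGraph V) (a : V)

/-- the subgroup generated by the other generators -/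
abbrev KK : Subgroup (RACG G) := sub {v | v ≠ a}

/-- the subgroup generated by the neighbours, in `KK` -/
abbrev UU : Subgroup (KK G a) := (sub {v | G.Adj a v}).subgroupOf (KK G a)

/-- elements of the group written as `k` times a reduced word of conjugates of `gen a` -/
abbrev St : Type _ := KK G a × {l : List (KK G a ⧸ UU G a) // Red l}

variable {G a}

/-- multiplication by `gen a` -/
noncomputable def actA (x : St G a) : St G a := (x.1, ⟨tog ((x.1⁻¹ : KK G a) : KK G a ⧸ UU G a) x.2.1, red_tog _ x.2.2⟩)

lemma actA_actA (x : St G a) : actA (actA x) = x := by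
  obtain ⟨k, l, hl⟩ := x
  refine Prod.ext rfl (Subtype.ext ?_)
  exact tog_tog _ hl

/-- multiplication by an element of `KK` -/
def actK (k : KK G a) (x : St G a) : St G a := (k * x.1, x.2)

/-- `gen v` as an element of `KK` -/
def genK {v : V} (h : v ≠ a) : KK G a := ⟨gen G v, gen_mem_sub h⟩

lemma actA_actK {k : KK G a} (hk : k ∈ UU G a) (x : St G a) : actA (actK k x) = actK k (actA x) := by
  obtain ⟨k', l, hl⟩ := x
  refine Prod.ext rfl (Subtype.ext ?_)
  show tog (((k * k')⁻¹ : KK G a) : KK G a ⧸ UU G a) l = tog ((k'⁻¹ : KK G a) : KK G a ⧸ UU G a) l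
  congr 1
  rw [mul_inv_rev, QuotientGroup.eq]
  simpa using hk

/-- the generators act on the words -/
noncomputable def actF (v : V) : Equiv.Perm (St G a) :=
  if h : v = a then ⟨actA, actA, actA_actA, actA_actA⟩
  else ⟨actK (genK h), actK (genK h)⁻¹, fun x => by simp [actK], fun x => by simp [actK]⟩

lemma actF_self : (actF a : Equiv.Perm (St G a)) = ⟨actA, actA, actA_actA, actA_actA⟩ := dif_pos rfl

lemma actF_ne {v : V} (h : v ≠ a) (x : St G a) : actF v x = actK (genK h) x := by
  unfold actF
  rw [dif_neg h]
  rfl

lemma actF_a (x : St G a) : actF a x = actA x := by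
  rw [actF_self]
  rfl

/-- the group acts on the words -/
noncomputable def act : RACG G →* Equiv.Perm (St G a) :=
  lift actF (fun v => by
      ext1 x
      rw [Equiv.Perm.mul_apply]
      by_cases h : v = a
      · subst h
        rw [actF_a, actF_a, actA_actA]
        rfl
      · rw [actF_ne h, actF_ne h]
        show ((genK h * (genK h * x.1) : KK G a), x.2) = x
        rw [← mul_assoc, show genK (G := G) h * genK h = 1 from Subtype.ext (gen_mul_gen G v), one_mul])
    fun u v h => by
      ext1 x
      rw [Equiv.Perm.mul_apply, Equiv.Perm.mul_apply]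
      by_cases hu : u = a
      · subst hu
        have hv : v ≠ u := h.ne'
        rw [actF_ne hv, actF_ne hv, actF_a, actF_a]
        exact actA_actK (Subgroup.mem_subgroupOf.2 (gen_mem_sub (A := {v | G.Adj u v}) h)) x
      by_cases hv : v = a
      · subst hv
        rw [actF_ne hu, actF_ne hu, actF_a, actF_a]
        exact (actA_actK (Subgroup.mem_subgroupOf.2 (gen_mem_sub (A := {w | G.Adj v w}) h.symm)) x).symm
      · rw [actF_ne hu, actF_ne hu, actF_ne hv, actF_ne hv]
        show ((genK hu * (genK hv * x.1) : KK G a), x.2) = (genK hv * (genK hu * x.1), x.2)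
        rw [← mul_assoc, ← mul_assoc, show genK (G := G) hu * genK hv = genK hv * genK hu from
          Subtype.ext (gen_comm h)]

/-- the empty word -/
def x0 : St G a := (1, ⟨[], List.IsChain.nil⟩)

lemma act_K (k : KK G a) (x : St G a) : act (k : RACG G) x = actK k x := by
  obtain ⟨k, hk⟩ := k
  have key : ∀ y ∈ KK G a, ∀ (h : y ∈ KK G a) (x : St G a), act y x = actK ⟨y, h⟩ x := by
    intro y hy
    induction hy using Subgroup.closure_induction with
    | mem y hy =>
      intro h x
      obtain ⟨v, hv, rfl⟩ := hy
      rw [act, lift_gen, actF_ne hv]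
      rfl
    | one =>
      intro h x
      rw [map_one]
      show x = ((⟨1, h⟩ : KK G a) * x.1, x.2)
      rw [show (⟨1, h⟩ : KK G a) = 1 from rfl, one_mul]
    | mul y z hy hz ihy ihz =>
      intro h x
      rw [map_mul, Equiv.Perm.mul_apply, ihz hz, ihy hy]
      show ((⟨y, hy⟩ * (⟨z, hz⟩ * x.1) : KK G a), x.2) = _
      rw [← mul_assoc]
      rfl
    | inv y hy ih =>
      intro h x
      rw [map_inv, Equiv.Perm.inv_eq_iff_eq, ih hy]
      show x = ((⟨y, hy⟩ * (⟨y⁻¹, h⟩ * x.1) : KK G a), x.2)
      rw [← mul_assoc, show (⟨y, hy⟩ * ⟨y⁻¹, h⟩ : KK G a) = 1 from Subtype.ext (mul_inv_cancel y), one_mul]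
  exact key k hk hk x

/-- the conjugate of `gen a` of a letter -/
def let' : KK G a ⧸ UU G a → RACG G :=
  Quotient.lift (fun k : KK G a => (k : RACG G) * gen G a * (k : RACG G)⁻¹) (by
    intro k k' h
    have h1 : k⁻¹ * k' ∈ UU G a := QuotientGroup.leftRel_apply.1 h
    have h2 : ((k⁻¹ * k' : KK G a) : RACG G) ∈ sub {v | G.Adj a v} := Subgroup.mem_subgroupOf.1 h1
    have h3 : ∀ u ∈ sub (G := G) {v | G.Adj a v}, gen G a * u = u * gen G a := by
      intro u hu
      have h4 : sub (G := G) {v | G.Adj a v} ≤ Subgroup.centralizer {gen G a} := by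
        refine (Subgroup.closure_le _).2 ?_
        rintro _ ⟨v, hv, rfl⟩
        refine Subgroup.mem_centralizer_iff.2 fun y hy => ?_
        rw [Set.mem_singleton_iff.1 hy]
        exact gen_comm hv
      exact Subgroup.mem_centralizer_iff.1 (h4 hu) _ rfl
    have h4 := h3 _ h2
    rw [Subgroup.coe_mul, Subgroup.coe_inv] at h4
    show (k : RACG G) * gen G a * (k : RACG G)⁻¹ = (k' : RACG G) * gen G a * (k' : RACG G)⁻¹
    have h5 : (k : RACG G) * (gen G a * ((k : RACG G)⁻¹ * k')) * (k' : RACG G)⁻¹ =
        (k : RACG G) * ((k : RACG G)⁻¹ * k' * gen G a) * (k' : RACG G)⁻¹ := by rw [h4]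
    simpa only [mul_assoc, mul_inv_cancel, mul_one, mul_inv_cancel_left] using h5)

lemma let_mk (k : KK G a) : let' ((k : KK G a) : KK G a ⧸ UU G a) = (k : RACG G) * gen G a * (k : RACG G)⁻¹ := rfl

/-- the element of a word -/
def ev (x : St G a) : RACG G := x.1 * (x.2.1.map let').prod

lemma let_mul_let (q : KK G a ⧸ UU G a) : let' q * let' q = 1 := by
  induction q using QuotientGroup.induction_on with
  | H k =>
    rw [let_mk]
    calc (k : RACG G) * gen G a * (k : RACG G)⁻¹ * (k * gen G a * (k : RACG G)⁻¹) =
        k * (gen G a * gen G a) * (k : RACG G)⁻¹ := by group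
      _ = 1 := by rw [gen_mul_gen]; group

lemma prod_tog (q : KK G a ⧸ UU G a) (l : List (KK G a ⧸ UU G a)) :
    ((tog q l).map let').prod = let' q * (l.map let').prod := by
  cases l with
  | nil => simp [tog]
  | cons y l =>
    by_cases h : y = q
    · subst h
      have h1 : tog y (y :: l) = l := if_pos rfl
      rw [h1, List.map_cons, List.prod_cons, ← mul_assoc, let_mul_let, one_mul]
    · have h1 : tog q (y :: l) = q :: y :: l := if_neg h
      rw [h1, List.map_cons, List.prod_cons]

lemma ev_act (w : RACG G) (x : St G a) : ev (act w x) = w * ev x := by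
  induction w using induction generalizing x with
  | h1 => rw [map_one, one_mul]; rfl
  | hm v w ih =>
    rw [map_mul, Equiv.Perm.mul_apply, mul_assoc, ← ih]
    generalize act w x = y
    by_cases h : v = a
    · subst h
      rw [act, lift_gen, actF_a]
      unfold ev actA
      dsimp only
      rw [prod_tog, let_mk, Subgroup.coe_inv, inv_inv]
      group
    · rw [act, lift_gen, actF_ne h]
      show ((genK h * y.1 : KK G a) : RACG G) * _ = gen G v * (y.1 * _)
      rw [Subgroup.coe_mul, mul_assoc]
      rfl

lemma ev_x0 : ev (x0 : St G a) = 1 := by simp [ev, x0]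

/-- the last letter is not the coset `UU` -/
def Lst (l : List (KK G a ⧸ UU G a)) : Prop := ∀ q, l.getLast? = some q → q ≠ ((1 : KK G a) : KK G a ⧸ UU G a)

/-- the elements on the positive side of the wall of `a`, inverted -/
def half' (G : SimpleGraph V) (a : V) : Set (RACG G) := {w | Lst (act w (x0 : St G a)).2.1}

lemma half'_K {w k : RACG G} (hw : w ∈ half' G a) (hk : k ∈ KK G a) : k * w ∈ half' G a := by
  show Lst (act (k * w) (x0 : St G a)).2.1
  rw [map_mul, Equiv.Perm.mul_apply, act_K ⟨k, hk⟩]
  exact hw

lemma one_half' : (1 : RACG G) ∈ half' G a := by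
  show Lst (act 1 (x0 : St G a)).2.1
  rw [map_one]
  intro q hq
  exact absurd hq (by simp [x0])

/-- an element with the state `(k, [])` is `k` -/
lemma eq_of_act {w : RACG G} (h : (act w (x0 : St G a)).2.1 = []) : w = ((act w (x0 : St G a)).1 : RACG G) := by
  have h1 := ev_act w (x0 : St G a)
  rw [ev_x0, mul_one] at h1
  have h2 : ev (act w (x0 : St G a)) = ((act w (x0 : St G a)).1 : RACG G) := by
    unfold ev
    rw [h, List.map_nil, List.prod_nil, mul_one]
  exact h1.symm.trans h2

lemma half'_a {w : RACG G} (hw : w ∈ half' G a) (hu : w ∉ sub (G := G) {v | G.Adj a v}) :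
    gen G a * w ∈ half' G a ∧ gen G a * w ∉ sub (G := G) {v | G.Adj a v} := by
  have hact : act (gen G a * w) (x0 : St G a) = actA (act w x0) := by
    rw [map_mul, Equiv.Perm.mul_apply]
    generalize act w x0 = y
    rw [act, lift_gen, actF_a]
  have hsub : ∀ {y : RACG G}, y ∈ sub (G := G) {v | G.Adj a v} → y ∈ KK G a := fun hy =>
    sub_mono (fun v (hv : G.Adj a v) => hv.ne') hy
  have hU : ∀ {y : RACG G}, y ∈ KK G a → (act y (x0 : St G a)).2.1 = [] := fun {y} hy => by
    rw [act_K ⟨y, hy⟩]; rfl
  have hnil : (act w (x0 : St G a)).2.1 = [] →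
      (((act w (x0 : St G a)).1⁻¹ : KK G a) : KK G a ⧸ UU G a) ≠ ((1 : KK G a) : KK G a ⧸ UU G a) := by
    intro h h1
    rw [QuotientGroup.eq, inv_inv, mul_one, Subgroup.mem_subgroupOf, ← eq_of_act h] at h1
    exact hu h1
  have h1 : Lst (act (gen G a * w) (x0 : St G a)).2.1 := by
    rw [hact]
    unfold actA
    dsimp only
    have hw' : Lst (act w (x0 : St G a)).2.1 := hw
    revert hw' hnil
    generalize (act w (x0 : St G a)).1 = k
    generalize (act w (x0 : St G a)).2.1 = l
    intro hnil hw'
    cases l with
    | nil =>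
      intro q hq
      have hq' : ((k⁻¹ : KK G a) : KK G a ⧸ UU G a) = q := by simpa [tog] using hq
      rw [← hq']
      exact hnil rfl
    | cons y l =>
      by_cases h : y = ((k⁻¹ : KK G a) : KK G a ⧸ UU G a)
      · have h1 : tog ((k⁻¹ : KK G a) : KK G a ⧸ UU G a) (y :: l) = l := if_pos h
        rw [h1]
        intro q hq
        cases l with
        | nil => exact absurd hq (by simp)
        | cons z l => exact hw' q (by rw [List.getLast?_cons_cons]; exact hq)
      · have h1 : tog ((k⁻¹ : KK G a) : KK G a ⧸ UU G a) (y :: l) = _ :: y :: l := if_neg h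
        rw [h1]
        intro q hq
        rw [List.getLast?_cons_cons] at hq
        exact hw' q hq
  refine ⟨h1, fun h2 => ?_⟩
  -- the element would be in `KK`, with the empty word
  have h3 := hU (hsub h2)
  rw [hact] at h3
  have hw' : Lst (act w (x0 : St G a)).2.1 := hw
  unfold actA at h3
  dsimp only at h3
  have h5 : act (gen G a * w) (x0 : St G a) = ((act w (x0 : St G a)).1, ⟨[], List.IsChain.nil⟩) := by
    rw [hact]
    exact Prod.ext rfl (Subtype.ext h3)
  have h6 : gen G a * w = ((act w (x0 : St G a)).1 : RACG G) := by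
    have := eq_of_act (w := gen G a * w) (by rw [h5])
    rw [h5] at this
    exact this
  have h7 : (act w (x0 : St G a)).1 ∈ UU G a := Subgroup.mem_subgroupOf.2 (h6 ▸ h2)
  have h8 : (((act w (x0 : St G a)).1⁻¹ : KK G a) : KK G a ⧸ UU G a) = ((1 : KK G a) : KK G a ⧸ UU G a) := by
    rw [QuotientGroup.eq, inv_inv, mul_one]
    exact h7
  rw [h8] at h3
  revert h3 hw'
  generalize (act w (x0 : St G a)).2.1 = l
  intro h3 hw'
  cases l with
  | nil => simp [tog] at h3
  | cons y l =>
    by_cases h : y = ((1 : KK G a) : KK G a ⧸ UU G a)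
    · have h9 : tog ((1 : KK G a) : KK G a ⧸ UU G a) (y :: l) = l := if_pos h
      rw [h9] at h3
      subst h3
      exact hw' y (by simp) h
    · have h9 : tog ((1 : KK G a) : KK G a ⧸ UU G a) (y :: l) = _ :: y :: l := if_neg h
      rw [h9] at h3
      exact absurd h3 (by simp)

end half

/-- **(W3)** the half-space of the wall of `a`: a set which is a union of left cosets of the group of the other
vertices, contains the group of the neighbours of `a`, and outside of this group is invariant under right
multiplication by `gen a` -/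
theorem exists_half (G : SimpleGraph V) (a : V) : ∃ S : Set (RACG G),
    (∀ w ∈ S, ∀ k ∈ sub (G := G) {v | v ≠ a}, w * k ∈ S) ∧
    (∀ u ∈ sub (G := G) {v | G.Adj a v}, u ∈ S) ∧
    ∀ w ∈ S, w ∉ sub (G := G) {v | G.Adj a v} → w * gen G a ∈ S ∧ w * gen G a ∉ sub (G := G) {v | G.Adj a v} := by
  refine ⟨{w | w⁻¹ ∈ half' G a}, fun w hw k hk => ?_, fun u hu => ?_, fun w hw hu => ?_⟩
  · show (w * k)⁻¹ ∈ half' G a
    rw [mul_inv_rev]
    exact half'_K hw (Subgroup.inv_mem _ hk)
  · show u⁻¹ ∈ half' G a
    rw [← mul_one u⁻¹]
    exact half'_K one_half' (Subgroup.inv_mem _ (sub_mono (fun v (hv : G.Adj a v) => hv.ne') hu))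
  · have h1 := half'_a (w := w⁻¹) hw fun h => hu (by simpa using Subgroup.inv_mem _ h)
    have h2 : (w * gen G a)⁻¹ = gen G a * w⁻¹ := by rw [mul_inv_rev, gen_inv]
    refine ⟨show (w * gen G a)⁻¹ ∈ half' G a by rw [h2]; exact h1.1, fun h => h1.2 ?_⟩
    rw [← h2]
    exact Subgroup.inv_mem _ h

end Racg

end Singer
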