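import Pool.Agent.Singer.Defs

/-!
# Singer: the two-sided half-space lemma
-/

set_option autoImplicit false
set_option linter.unusedSectionVars false
set_option linter.unusedVariables false

open scoped ComplexConjugate InnerProductSpace
open Filter Topology

namespace Singer

section twosided
variable {Γ : Type*} [Group Γ] {ι : Type*}

/-- summation over cosets -/
lemma ts_inner_zero {H : Subgroup Γ} {S : Set Γ} (hS : ∀ g ∈ S, ∀ k ∈ H, g * k ∈ S) {f h : E Γ ι}
    (hz : ∀ g, ⟪cut {x | g⁻¹ * x ∈ H} f, h⟫_ℂ = 0) : ⟪cut S f, h⟫_ℂ = 0 := by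
  classical
  rw [inner_eq]
  have hsum := (summable_inner' (cut S f) h).hasSum
  have h1 := hsum.tsum_fiberwise (fun x : Γ × ι => (QuotientGroup.mk x.1 : Γ ⧸ H))
  have h2 : ∀ c : Γ ⧸ H, (∑' b : (fun x : Γ × ι => (QuotientGroup.mk x.1 : Γ ⧸ H)) ⁻¹' {c},
      conj ((cut S f : E Γ ι) b) * h b) = 0 := by
    intro c
    obtain ⟨g, rfl⟩ := QuotientGroup.mk_surjective c
    by_cases hg : g ∈ S
    · have h3 := hz g
      rw [inner_eq] at h3
      rw [← h3, tsum_subtype ((fun x : Γ × ι => (QuotientGroup.mk x.1 : Γ ⧸ H)) ⁻¹' {(QuotientGroup.mk g : Γ ⧸ H)})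
        (fun b => conj ((cut S f : E Γ ι) b) * h b)]
      congr 1
      funext x
      by_cases hx : g⁻¹ * x.1 ∈ H
      · have hxS : x.1 ∈ S := by
          have := hS g hg _ hx
          rwa [mul_inv_cancel_left] at this
        rw [Set.indicator_of_mem, cut_apply_mem hxS, cut_apply_mem (by exact hx)]
        show (QuotientGroup.mk x.1 : Γ ⧸ H) = QuotientGroup.mk g
        exact (QuotientGroup.eq.2 hx).symm
      · rw [Set.indicator_of_notMem, cut_apply_notMem (by exact hx)]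
        · simp
        · intro h4
          exact hx (QuotientGroup.eq.1 (show (QuotientGroup.mk x.1 : Γ ⧸ H) = QuotientGroup.mk g from h4).symm)
    · have h3 : ∀ b : (fun x : Γ × ι => (QuotientGroup.mk x.1 : Γ ⧸ H)) ⁻¹' {(QuotientGroup.mk g : Γ ⧸ H)},
          conj ((cut S f : E Γ ι) b) * h b = 0 := by
        rintro ⟨x, hx⟩
        have hx' : (QuotientGroup.mk x.1 : Γ ⧸ H) = QuotientGroup.mk g := hx
        have hxS : x.1 ∉ S := by
          intro hxS
          apply hg
          have := hS _ hxS _ (QuotientGroup.eq.1 hx')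
          rwa [mul_inv_cancel_left] at this
        rw [cut_apply_notMem hxS]
        simp
      rw [tsum_congr h3, tsum_zero]
  rw [funext h2] at h1
  exact h1.unique hasSum_zero

lemma ts_coset (H : Subgroup Γ) (g : Γ) (f : E Γ ι) :
    lam g (cut (H : Set Γ) (lam g⁻¹ f)) = cut {x | g⁻¹ * x ∈ H} f := by
  rw [lam_cut, lam_lam_inv]
  rfl

/-- cutting a local module by a union of cosets -/
lemma ts_cut_mem {H : Subgroup Γ} {W : Submodule ℂ (E Γ ι)} (hW : Mdl W) (hl : Loc H W) {S : Set Γ}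
    (hS : ∀ g ∈ S, ∀ k ∈ H, g * k ∈ S) {f : E Γ ι} (hf : f ∈ W) : cut S f ∈ W := by
  have h1 : W = Wᗮᗮ := by
    rw [Submodule.orthogonal_orthogonal_eq_closure, hW.cl.submodule_topologicalClosure_eq]
  rw [h1, Submodule.mem_orthogonal']
  intro h hh
  refine ts_inner_zero hS fun g => ?_
  rw [← ts_coset]
  exact (Submodule.mem_orthogonal _ _).1 hh _ (hW.inv g _ (hl _ (hW.inv g⁻¹ f hf)))

/-- the `C`-local hull of `N` -/
noncomputable def tsHull (C : Subgroup Γ) (N : Submodule ℂ (E Γ ι)) : Submodule ℂ (E Γ ι) :=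
  Submodule.span ℂ {f | ∃ g, ∃ n ∈ N, f = lam g (cut (C : Set Γ) n)}

lemma tsHull_inv (C : Subgroup Γ) (N : Submodule ℂ (E Γ ι)) : Inv (tsHull C N) := by
  intro g f hf
  induction hf using Submodule.span_induction with
  | mem x hx =>
    obtain ⟨g', n, hn, rfl⟩ := hx
    rw [lam_lam]
    exact Submodule.subset_span ⟨_, n, hn, rfl⟩
  | zero => rw [map_zero]; exact Submodule.zero_mem _
  | add x y _ _ hx hy => rw [map_add]; exact Submodule.add_mem _ hx hy
  | smul c x _ hx => rw [map_smul]; exact Submodule.smul_mem _ _ hx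

lemma tsHull_cut (C : Subgroup Γ) (N : Submodule ℂ (E Γ ι)) : Loc C (tsHull C N) := by
  intro f hf
  induction hf using Submodule.span_induction with
  | mem x hx =>
    obtain ⟨g, n, hn, rfl⟩ := hx
    by_cases hg : g ∈ C
    · have : cut (C : Set Γ) (lam g (cut (C : Set Γ) n)) = lam g (cut (C : Set Γ) n) := by
        ext y
        by_cases hy : y.1 ∈ C
        · rw [cut_apply_mem (by exact hy)]
        · rw [cut_apply_notMem (by exact hy), lam_apply, cut_apply_notMem]
          intro h1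
          apply hy
          have := C.mul_mem hg h1
          rwa [mul_inv_cancel_left] at this
      rw [this]
      exact Submodule.subset_span ⟨g, n, hn, rfl⟩
    · have : cut (C : Set Γ) (lam g (cut (C : Set Γ) n)) = 0 := by
        ext y
        by_cases hy : y.1 ∈ C
        · rw [cut_apply_mem (by exact hy), lam_apply, cut_apply_notMem]
          · rfl
          · intro h1
            apply hg
            have := C.mul_mem hy (C.inv_mem h1)
            simpa using this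
        · rw [cut_apply_notMem (by exact hy)]
          rfl
      rw [this]
      exact Submodule.zero_mem _
  | zero => rw [map_zero]; exact Submodule.zero_mem _
  | add x y _ _ hx hy => rw [map_add]; exact Submodule.add_mem _ hx hy
  | smul c x _ hx => rw [map_smul]; exact Submodule.smul_mem _ _ hx

lemma ts_loc_closure {H : Subgroup Γ} {W : Submodule ℂ (E Γ ι)} (h : Loc H W) : Loc H W.topologicalClosure := by
  intro f hf
  have h1 : cut (H : Set Γ) f ∈ _root_.closure ((cut (H : Set Γ) : E Γ ι →L[ℂ] E Γ ι) '' (W : Set (E Γ ι))) :=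
    image_closure_subset_closure_image (cut (H : Set Γ)).continuous ⟨f, hf, rfl⟩
  refine closure_mono ?_ h1
  rintro _ ⟨x, hx, rfl⟩
  exact h x hx

lemma le_tsHull {C : Subgroup Γ} {N : Submodule ℂ (E Γ ι)} (hN : Inv N) : N ≤ (tsHull C N).topologicalClosure := by
  intro f hf
  rw [← Submodule.orthogonal_orthogonal_eq_closure, Submodule.mem_orthogonal']
  intro h hh
  have h1 : ⟪cut (Set.univ : Set Γ) f, h⟫_ℂ = 0 := by
    refine ts_inner_zero (H := C) (S := Set.univ) (fun _ _ _ _ => Set.mem_univ _) fun g => ?_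
    rw [← ts_coset]
    exact (Submodule.mem_orthogonal _ _).1 hh _ (Submodule.subset_span ⟨g, _, hN g⁻¹ f hf, rfl⟩)
  have h2 : cut (Set.univ : Set Γ) f = f := by
    ext y
    rw [cut_apply_mem (by trivial)]
  rwa [h2] at h1

/-- the two-sided half-space lemma: `Side A B C` gives a set `S` with `S A = S`, `C ⊆ S`, `(S \ C) B = S \ C` -/
theorem two_sided [Fintype ι] {A B C : Subgroup Γ} (hCA : C ≤ A) (hCB : C ≤ B) (hS : Side A B C)
    {X N₁ N₂ : Submodule ℂ (E Γ ι)} (hX : Mdl X) (hlX : Loc C X) (h₁ : Mdl N₁) (hl₁ : Loc A N₁) (hX₁ : N₁ ≤ X)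
    (h₂ : Mdl N₂) (hl₂ : Loc B N₂) (hX₂ : N₂ ≤ X)
    (hs₁ : ∀ W : Submodule ℂ (E Γ ι), Mdl W → Loc C W → W ≤ X → 2 * vdim (W ⊓ N₁) ≤ vdim W)
    (hs₂ : ∀ W : Submodule ℂ (E Γ ι), Mdl W → Loc C W → W ≤ X → 2 * vdim (W ⊓ N₂) ≤ vdim W) :
    N₁ ⊓ N₂ = ⊥ := by
  obtain ⟨S, hSA, hCS, hSB⟩ := hS
  have hN : Mdl (N₁ ⊓ N₂) := h₁.inf h₂
  set W : Submodule ℂ (E Γ ι) := (tsHull C (N₁ ⊓ N₂)).topologicalClosure with hWdef
  have hW : Mdl W := Mdl.closure (tsHull_inv C _)
  have hlW : Loc C W := ts_loc_closure (tsHull_cut C _)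
  have hNW : N₁ ⊓ N₂ ≤ W := le_tsHull hN.inv
  have hWX : W ≤ X := by
    refine Submodule.topologicalClosure_minimal _ (Submodule.span_le.2 ?_) hX.cl
    rintro _ ⟨g, n, hn, rfl⟩
    exact hX.inv g _ (hlX n (hX₁ hn.1))
  have hSB' : ∀ g ∈ S \ (C : Set Γ), ∀ b ∈ B, g * b ∈ S \ (C : Set Γ) := fun g hg b hb => hSB g hg.1 hg.2 b hb
  have hY : tsHull C (N₁ ⊓ N₂) ≤ (W ⊓ N₁) ⊔ (W ⊓ N₂) := by
    refine Submodule.span_le.2 ?_
    rintro _ ⟨g, n, hn, rfl⟩
    refine (hW.inv.inf h₁.inv).sup (hW.inv.inf h₂.inv) g _ ?_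
    have h3 : cut (C : Set Γ) n = cut S n - cut (S \ (C : Set Γ)) n := by
      ext y
      rw [lp.coeFn_sub, Pi.sub_apply]
      by_cases hy : y.1 ∈ C
      · rw [cut_apply_mem (by exact hy), cut_apply_mem (hCS _ hy), cut_apply_notMem (by exact fun h => h.2 hy), sub_zero]
      · rw [cut_apply_notMem (by exact hy)]
        by_cases hyS : y.1 ∈ S
        · rw [cut_apply_mem hyS, cut_apply_mem (by exact ⟨hyS, hy⟩), sub_self]
        · rw [cut_apply_notMem hyS, cut_apply_notMem (by exact fun h => hyS h.1), sub_self]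
    rw [h3]
    refine Submodule.sub_mem _ (Submodule.mem_sup_left ⟨?_, ?_⟩) (Submodule.mem_sup_right ⟨?_, ?_⟩)
    · exact ts_cut_mem hW hlW (fun g hg k hk => hSA g hg k (hCA hk)) (hNW hn)
    · exact ts_cut_mem h₁ hl₁ hSA hn.1
    · exact ts_cut_mem hW hlW (fun g hg k hk => hSB' g hg k (hCB hk)) (hNW hn)
    · exact ts_cut_mem h₂ hl₂ hSB' hn.2
  have h4 := vdim_sup_add_inf (hW.inv.inf h₁.inv) (hW.inv.inf h₂.inv) (hW.inf h₁).cl (hW.inf h₂).cl
  have h5 : vdim (N₁ ⊓ N₂) ≤ vdim ((W ⊓ N₁) ⊓ (W ⊓ N₂)) :=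
    vdim_mono (le_inf (le_inf hNW inf_le_left) (le_inf hNW inf_le_right))
  have h6 : vdim W ≤ vdim ((W ⊓ N₁) ⊔ (W ⊓ N₂)) := by
    rw [hWdef, vdim_closure]
    exact vdim_mono hY
  have h7 := hs₁ W hW hlW hWX
  have h8 := hs₂ W hW hlW hWX
  exact eq_bot_of_vdim hN.inv (by linarith)

end twosided

end Singer
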