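import Mathlib.Analysis.Matrix.Order
import Mathlib.Combinatorics.SimpleGraph.Basic

/-!
# Simplicial arrangements fold

The rays of a simplicial arrangement of hyperplanes in `ℝ^n` with the inner product `∑ l_H(u) l_H(v)`, and the vectors of
the absolute values `|l_H(v)|`, are a positive configuration.
-/

set_option autoImplicit false

namespace SingerFold

open Matrix

/-- if the vertices of `G` are vectors of `ℝ^n` and two of them are adjacent if and only if no hyperplane of a finite
family separates them strictly, then `G` has a positive configuration -/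
theorem fold_of_arr {n m : ℕ} {V : Type} {G : SimpleGraph V} (c : V → Fin n → ℝ) (H : Fin m → Fin n → ℝ)
    (h : ∀ u v, u ≠ v → (G.Adj u v ↔ ∀ j, 0 ≤ (∑ k, H j k * c u k) * ∑ k, H j k * c v k)) :
    ∃ (c' : V → Fin n → ℝ) (f : V → Fin m → ℝ), (∀ u v, u = v ∨ G.Adj u v → ∑ j, f u j * f v j = ∑ j, c' u j * c' v j) ∧
      ∀ u v, u ≠ v → ¬ G.Adj u v → ∑ j, c' u j * c' v j < ∑ j, f u j * f v j := by
  classical
  have hp : ((Matrix.of H)ᵀ * Matrix.of H).PosSemidef := by
    have := Matrix.posSemidef_conjTranspose_mul_self (Matrix.of H)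
    rwa [Matrix.conjTranspose_eq_transpose_of_trivial] at this
  obtain ⟨B, hB⟩ : ∃ B : Matrix (Fin n) (Fin n) ℝ, (Matrix.of H)ᵀ * Matrix.of H = Bᵀ * B := by
    open scoped MatrixOrder in
    obtain ⟨B, hB⟩ := CStarAlgebra.nonneg_iff_eq_star_mul_self.mp hp.nonneg
    refine ⟨B, ?_⟩
    rw [hB, Matrix.star_eq_conjTranspose, Matrix.conjTranspose_eq_transpose_of_trivial]
  have key : ∀ u v, ∑ j, (B *ᵥ c u) j * (B *ᵥ c v) j = ∑ j, (∑ k, H j k * c u k) * ∑ k, H j k * c v k := by
    intro u v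
    have h1 : (B *ᵥ c u) ⬝ᵥ (B *ᵥ c v) = (Matrix.of H *ᵥ c u) ⬝ᵥ (Matrix.of H *ᵥ c v) := by
      rw [Matrix.dotProduct_mulVec, Matrix.dotProduct_mulVec, Matrix.vecMul_mulVec, Matrix.vecMul_mulVec, hB]
    exact h1
  refine ⟨fun v => B *ᵥ c v, fun v j => |∑ k, H j k * c v k|, fun u v huv => ?_, fun u v huv hG => ?_⟩
  · rw [key]
    refine Finset.sum_congr rfl fun j _ => ?_
    rw [← abs_mul, abs_of_nonneg]
    rcases eq_or_ne u v with rfl | hne
    · exact mul_self_nonneg _
    · exact (h u v hne).1 (huv.resolve_left hne) j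
  · rw [key]
    rw [h u v huv] at hG
    push Not at hG
    obtain ⟨j, hj⟩ := hG
    refine Finset.sum_lt_sum (fun i _ => ?_) ⟨j, Finset.mem_univ _, ?_⟩
    · rw [← abs_mul]
      exact le_abs_self _
    · rw [← abs_mul]
      exact hj.trans_le (abs_nonneg _)

end SingerFold
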