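import Pool.Agent.Singer.Defs

/-!
# Singer: hereditary properties of graphs, links, and the class `Cls`

`GoodQ Q n G`: `G` and all its iterated links have the property `Q`; `Closed Q`: the closure properties of `Q` which
give `GoodQ Q n G` for all graphs of `Cls n`.
-/

set_option autoImplicit false
set_option linter.unusedSectionVars false
set_option linter.unusedVariables false

namespace Singer

universe u

section iso
variable {V W : Type*}

/-- a bijection which preserves and reflects adjacency -/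
noncomputable def isoOfBij {G : SimpleGraph V} {H : SimpleGraph W} (f : V → W) (hf : Function.Bijective f)
    (h : ∀ a b, H.Adj (f a) (f b) ↔ G.Adj a b) : G ≃g H where
  toEquiv := Equiv.ofBijective f hf
  map_rel_iff' := by
    intro a b
    exact h a b

/-- an isomorphism induces isomorphisms of the links -/
noncomputable def lkIso {G : SimpleGraph V} {H : SimpleGraph W} (e : G ≃g H) (v : V) : lk G v ≃g lk H (e v) :=
  isoOfBij (fun w => ⟨e w.1, e.map_adj_iff.2 w.2⟩)
    ⟨fun a b h => Subtype.ext (e.injective (Subtype.mk.inj h)), fun w => by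
      refine ⟨⟨e.symm w.1, ?_⟩, Subtype.ext (e.apply_symm_apply w.1)⟩
      have h := w.2
      rw [← e.map_adj_iff, e.apply_symm_apply]
      exact h⟩
    (fun a b => e.map_adj_iff)

/-- the link of the cone point -/
noncomputable def lkCapNone (G : SimpleGraph V) {K B : Finset V} (hBK : ∀ v ∈ B, v ∈ K) :
    res G B ≃g lk (cap G K B) none :=
  isoOfBij (fun v => ⟨some ⟨v.1, hBK _ v.2⟩, v.2⟩)
    ⟨fun a b h => by
      have h1 := Subtype.mk.inj h
      have h2 := Option.some.inj h1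
      exact Subtype.ext (Subtype.mk.inj h2), by
      rintro ⟨_ | u, h⟩
      · exact h.elim
      · exact ⟨⟨u.1, h⟩, rfl⟩⟩
    (fun a b => Iff.rfl)

/-- the link of a vertex outside `B` -/
noncomputable def lkCapOut (G : SimpleGraph V) {K B : Finset V} {v : V} (hv : v ∈ K) (hvB : v ∉ B)
    (hN : ∀ w, G.Adj v w → w ∈ K) : lk (cap G K B) (some ⟨v, hv⟩) ≃g lk G v :=
  RelIso.symm <| isoOfBij (fun w => ⟨some ⟨w.1, hN _ w.2⟩, w.2⟩)
    ⟨fun a b h => by
      have h1 := Subtype.mk.inj h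
      have h2 := Option.some.inj h1
      exact Subtype.ext (Subtype.mk.inj h2), by
      rintro ⟨_ | u, h⟩
      · exact (hvB h).elim
      · exact ⟨⟨u.1, h⟩, rfl⟩⟩
    (fun a b => Iff.rfl)

/-- the link of a vertex of `B` -/
noncomputable def lkCapIn (G : SimpleGraph V) {K B : Finset V} {v : V} (hv : v ∈ K) (hvB : v ∈ B)
    {K' B' : Finset {w // G.Adj v w}} (hK : ∀ w, w ∈ K' ↔ w.1 ∈ K) (hB : ∀ w, w ∈ K' → (w ∈ B' ↔ w.1 ∈ B)) :
    cap (lk G v) K' B' ≃g lk (cap G K B) (some ⟨v, hv⟩) :=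
  isoOfBij (fun x => match x with
      | none => ⟨none, hvB⟩
      | some w => ⟨some ⟨w.1.1, (hK _).1 w.2⟩, w.1.2⟩)
    ⟨by
      rintro (_ | a) (_ | b) h
      · rfl
      · cases Subtype.mk.inj h
      · cases Subtype.mk.inj h
      · have h1 := Subtype.mk.inj h
        have h2 := Option.some.inj h1
        have h3 := Subtype.mk.inj h2
        exact congrArg some (Subtype.ext (Subtype.ext h3)), by
      rintro ⟨_ | u, h⟩
      · exact ⟨none, rfl⟩
      · exact ⟨some ⟨⟨u.1, h⟩, (hK _).2 u.2⟩, rfl⟩⟩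
    (by
      rintro (_ | a) (_ | b)
      · exact Iff.rfl
      · exact (hB _ b.2).symm
      · exact (hB _ a.2).symm
      · exact Iff.rfl)

/-- the link of a neighbour of only one end `p` of a contracted edge -/
noncomputable def lkCapOne (G : SimpleGraph V) {K B : Finset V} {v p : V} (hv : v ∈ K) (hvB : v ∈ B)
    (hp : G.Adj v p) (hpK : p ∉ K) (hN : ∀ w, G.Adj v w → w = p ∨ w ∈ K)
    (hB : ∀ w, w ∈ K → G.Adj v w → (w ∈ B ↔ G.Adj p w)) :
    lk (cap G K B) (some ⟨v, hv⟩) ≃g lk G v :=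
  isoOfBij (fun x => match x with
      | ⟨none, _⟩ => ⟨p, hp⟩
      | ⟨some w, h⟩ => ⟨w.1, h⟩)
    ⟨by
      rintro ⟨_ | a, ha⟩ ⟨_ | b, hb⟩ h
      · rfl
      · exact (hpK ((Subtype.mk.inj h).symm ▸ b.2)).elim
      · exact (hpK ((Subtype.mk.inj h) ▸ a.2)).elim
      · have h1 := Subtype.mk.inj h
        exact Subtype.ext (congrArg some (Subtype.ext h1)), by
      rintro ⟨w, hw⟩
      rcases hN w hw with h | h
      · exact ⟨⟨none, hvB⟩, Subtype.ext h.symm⟩
      · exact ⟨⟨some ⟨w, h⟩, hw⟩, rfl⟩⟩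
    (by
      rintro ⟨_ | a, ha⟩ ⟨_ | b, hb⟩
      · exact ⟨fun h => (G.loopless.1 _ h).elim, fun h => (h : False).elim⟩
      · exact (hB _ b.2 hb).symm
      · exact ⟨fun h => (hB _ a.2 ha).2 (SimpleGraph.Adj.symm h), fun h => SimpleGraph.Adj.symm ((hB _ a.2 ha).1 h)⟩
      · exact Iff.rfl)

/-- links of links commute -/
noncomputable def lkLk (G : SimpleGraph V) {p v : V} (h : G.Adj p v) (h' : G.Adj v p) :
    lk (lk G p) ⟨v, h⟩ ≃g lk (lk G v) ⟨p, h'⟩ :=
  isoOfBij (fun x => ⟨⟨x.1.1, x.2⟩, x.1.2⟩)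
    ⟨fun a b h => by
      have h1 := Subtype.mk.inj h
      have h2 := Subtype.mk.inj h1
      exact Subtype.ext (Subtype.ext h2), by
      rintro ⟨⟨w, hw⟩, hw'⟩
      exact ⟨⟨⟨w, hw'⟩, hw⟩, rfl⟩⟩
    (fun a b => Iff.rfl)

/-- the link of an edge -/
noncomputable def lkEdge (G : SimpleGraph V) {p q : V} (h : G.Adj p q) :
    lk (lk G p) ⟨q, h⟩ ≃g G.comap (Subtype.val : {v // G.Adj p v ∧ G.Adj q v} → V) :=
  isoOfBij (fun x => ⟨x.1.1, x.1.2, x.2⟩)
    ⟨fun a b h => by
      have h1 := Subtype.mk.inj h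
      exact Subtype.ext (Subtype.ext h1), by
      rintro ⟨w, hw, hw'⟩
      exact ⟨⟨⟨w, hw⟩, hw'⟩, rfl⟩⟩
    (fun a b => Iff.rfl)

/-- the link of a vertex of a suspension -/
noncomputable def lkSuspInl (G : SimpleGraph V) (v : V) : susp (lk G v) ≃g lk (susp G) (.inl v) :=
  isoOfBij (fun x => match x with
      | .inl w => ⟨.inl w.1, w.2⟩
      | .inr b => ⟨.inr b, trivial⟩)
    ⟨by
      rintro (a | a) (b | b) h
      · have h1 := Sum.inl.inj (Subtype.mk.inj h)
        exact congrArg Sum.inl (Subtype.ext h1)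
      · cases Subtype.mk.inj h
      · cases Subtype.mk.inj h
      · have h1 := Sum.inr.inj (Subtype.mk.inj h)
        exact congrArg Sum.inr h1, by
      rintro ⟨u | b, h⟩
      · exact ⟨.inl ⟨u, h⟩, rfl⟩
      · exact ⟨.inr b, rfl⟩⟩
    (by
      rintro (a | a) (b | b) <;> exact Iff.rfl)

/-- the link of a suspension point -/
noncomputable def lkSuspInr (G : SimpleGraph V) (b : Bool) : G ≃g lk (susp G) (.inr b) :=
  isoOfBij (fun x => ⟨.inl x, trivial⟩)
    ⟨fun a b h => Sum.inl.inj (Subtype.mk.inj h), by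
      rintro ⟨u | b, h⟩
      · exact ⟨u, rfl⟩
      · exact h.elim⟩
    (fun a b => Iff.rfl)

/-- the contraction of the edge from `none` to `some b` of a subdivision is the original graph -/
noncomputable def capSubd (G : SimpleGraph V) {a b : V} (hab : G.Adj a b) {K B : Finset (Option V)}
    (hK : ∀ x, x ∈ K ↔ x ≠ none ∧ x ≠ some b)
    (hB : ∀ x, x ∈ B ↔ x ∈ K ∧ ((subd G a b).Adj none x ∨ (subd G a b).Adj (some b) x)) :
    cap (subd G a b) K B ≃g G := by
  have key : ∀ v, some v ∈ K → (some v ∈ B ↔ G.Adj b v) := by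
    intro v hv
    have hvb : v ≠ b := fun h => ((hK _).1 hv).2 (congrArg some h)
    constructor
    · intro h
      rcases ((hB _).1 h).2 with h | h
      · rcases (h : v = a ∨ v = b ∨ (G.Adj a v ∧ G.Adj b v)) with h | h | h
        · rw [h]; exact hab.symm
        · exact absurd h hvb
        · exact h.2
      · exact (h : G.Adj b v ∧ _).1
    · intro h
      refine (hB _).2 ⟨hv, ?_⟩
      by_cases hva : v = a
      · exact Or.inl (Or.inl hva)
      · exact Or.inr ⟨h, fun h' => hab.ne h'.1.symm, fun h' => hva h'.2⟩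
  refine isoOfBij (fun x => match x with
      | none => b
      | some ⟨some v, _⟩ => v
      | some ⟨none, h⟩ => absurd rfl ((hK _).1 h).1) ⟨?_, ?_⟩ ?_
  · rintro (_ | ⟨_ | u, hu⟩) (_ | ⟨_ | v, hv⟩) h
    · rfl
    · exact absurd rfl ((hK _).1 hv).1
    · exact absurd (congrArg some (show v = b from h.symm)) ((hK _).1 hv).2
    · exact absurd rfl ((hK _).1 hu).1
    · exact absurd rfl ((hK _).1 hu).1
    · exact absurd rfl ((hK _).1 hu).1
    · exact absurd (congrArg some (show u = b from h)) ((hK _).1 hu).2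
    · exact absurd rfl ((hK _).1 hv).1
    · have h' : u = v := h
      subst h'
      rfl
  · intro v
    by_cases h : v = b
    · exact ⟨none, h.symm⟩
    · exact ⟨some ⟨some v, (hK _).2 ⟨by simp, fun h' => h (Option.some.inj h')⟩⟩, rfl⟩
  · rintro (_ | ⟨_ | u, hu⟩) (_ | ⟨_ | v, hv⟩)
    · exact ⟨fun h => (G.loopless.1 _ h).elim, fun h => (h : False).elim⟩
    · exact absurd rfl ((hK _).1 hv).1
    · exact (key v hv).symm
    · exact absurd rfl ((hK _).1 hu).1
    · exact absurd rfl ((hK _).1 hu).1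
    · exact absurd rfl ((hK _).1 hu).1
    · exact ⟨fun h => (key u hu).2 (SimpleGraph.Adj.symm h), fun h => SimpleGraph.Adj.symm ((key u hu).1 h)⟩
    · exact absurd rfl ((hK _).1 hv).1
    · refine ⟨fun h => ⟨h, fun h' => ((hK _).1 hv).2 (congrArg some h'.2),
        fun h' => ((hK _).1 hu).2 (congrArg some h'.1)⟩, fun h => ?_⟩
      exact (h : G.Adj u v ∧ _).1

/-- the link of an end of a subdivided edge -/
noncomputable def lkSubdSome (G : SimpleGraph V) {a b : V} (hab : G.Adj a b) :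
    lk (subd G a b) (some b) ≃g lk G b := by
  refine isoOfBij (fun x => match x with
      | ⟨none, _⟩ => ⟨a, hab.symm⟩
      | ⟨some v, h⟩ => ⟨v, h.1⟩) ⟨?_, ?_⟩ ?_
  · rintro ⟨_ | u, hu⟩ ⟨_ | v, hv⟩ h
    · rfl
    · have h' : a = v := Subtype.mk.inj h
      exact absurd ⟨rfl, h'.symm⟩ hv.2.2
    · have h' : u = a := Subtype.mk.inj h
      exact absurd ⟨rfl, h'⟩ hu.2.2
    · have h' : u = v := Subtype.mk.inj h
      subst h'
      rfl
  · rintro ⟨w, hw⟩
    by_cases h : w = a
    · exact ⟨⟨none, Or.inr (Or.inl rfl)⟩, Subtype.ext h.symm⟩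
    · exact ⟨⟨some w, hw, fun h' => hab.ne h'.1.symm, fun h' => h h'.2⟩, rfl⟩
  · rintro ⟨_ | u, hu⟩ ⟨_ | v, hv⟩
    · exact ⟨fun h => (G.loopless.1 _ h).elim, fun h => (h : False).elim⟩
    · refine ⟨fun h => Or.inr (Or.inr ⟨h, hv.1⟩), fun h => ?_⟩
      rcases (h : v = a ∨ v = b ∨ (G.Adj a v ∧ G.Adj b v)) with h | h | h
      · exact absurd ⟨rfl, h⟩ hv.2.2
      · exact absurd h.symm hv.1.ne
      · exact h.1
    · refine ⟨fun h => Or.inr (Or.inr ⟨SimpleGraph.Adj.symm h, hu.1⟩), fun h => ?_⟩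
      rcases (h : u = a ∨ u = b ∨ (G.Adj a u ∧ G.Adj b u)) with h | h | h
      · exact absurd ⟨rfl, h⟩ hu.2.2
      · exact absurd h.symm hu.1.ne
      · exact SimpleGraph.Adj.symm h.1
    · refine ⟨fun h => ⟨h, fun h' => hu.2.2 ⟨rfl, h'.1⟩, fun h' => hu.1.ne h'.1.symm⟩, fun h => ?_⟩
      exact (h : G.Adj u v ∧ _).1

/-- the link of the new vertex of a subdivision is a suspension -/
noncomputable def lkSubdNone (G : SimpleGraph V) {a b : V} (hab : G.Adj a b) :
    susp (G.comap (Subtype.val : {v // G.Adj a v ∧ G.Adj b v} → V)) ≃g lk (subd G a b) none := by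
  refine isoOfBij (fun x => match x with
      | .inl c => ⟨some c.1, Or.inr (Or.inr c.2)⟩
      | .inr true => ⟨some a, Or.inl rfl⟩
      | .inr false => ⟨some b, Or.inr (Or.inl rfl)⟩) ⟨?_, ?_⟩ ?_
  · rintro (u | _ | _) (v | _ | _) h
    · exact congrArg Sum.inl (Subtype.ext (Option.some.inj (Subtype.mk.inj h)))
    · exact absurd (Option.some.inj (Subtype.mk.inj h)) u.2.2.ne'
    · exact absurd (Option.some.inj (Subtype.mk.inj h)) u.2.1.ne'
    · exact absurd (Option.some.inj (Subtype.mk.inj h)) v.2.2.ne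
    · rfl
    · exact absurd (Option.some.inj (Subtype.mk.inj h)) hab.ne'
    · exact absurd (Option.some.inj (Subtype.mk.inj h)) v.2.1.ne
    · exact absurd (Option.some.inj (Subtype.mk.inj h)) hab.ne
    · rfl
  · rintro ⟨_ | w, hw⟩
    · exact (hw : False).elim
    · rcases (hw : w = a ∨ w = b ∨ (G.Adj a w ∧ G.Adj b w)) with h | h | h
      · subst h; exact ⟨.inr true, rfl⟩
      · subst h; exact ⟨.inr false, rfl⟩
      · exact ⟨.inl ⟨w, h⟩, rfl⟩
  · rintro (u | _ | _) (v | _ | _)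
    · refine ⟨fun h => (h : G.Adj u.1 v.1 ∧ _).1, fun h => ⟨h, fun h' => u.2.1.ne' h'.1, fun h' => u.2.2.ne' h'.1⟩⟩
    · exact ⟨fun _ => trivial, fun _ => ⟨u.2.2.symm, fun h' => u.2.1.ne' h'.1, fun h' => hab.ne' h'.2⟩⟩
    · exact ⟨fun _ => trivial, fun _ => ⟨u.2.1.symm, fun h' => hab.ne h'.2, fun h' => u.2.2.ne' h'.1⟩⟩
    · exact ⟨fun _ => trivial, fun _ => ⟨v.2.2, fun h' => hab.ne' h'.1, fun h' => v.2.1.ne' h'.2⟩⟩
    · exact ⟨fun h => (G.loopless.1 _ (h : G.Adj b b ∧ _).1).elim, fun h => (h : False).elim⟩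
    · exact ⟨fun h => ((h : _ ∧ _ ∧ ¬ (b = b ∧ a = a)).2.2 ⟨rfl, rfl⟩).elim, fun h => (h : False).elim⟩
    · exact ⟨fun _ => trivial, fun _ => ⟨v.2.1, fun h' => v.2.2.ne' h'.2, fun h' => hab.ne h'.1⟩⟩
    · exact ⟨fun h => ((h : _ ∧ ¬ (a = a ∧ b = b) ∧ _).2.1 ⟨rfl, rfl⟩).elim, fun h => (h : False).elim⟩
    · exact ⟨fun h => (G.loopless.1 _ (h : G.Adj a a ∧ _).1).elim, fun h => (h : False).elim⟩

end iso


section defs

/-- hereditary version of a property of graphs: `G` and all its iterated links have the property -/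
def GoodQ (Q : ℕ → ∀ {V : Type u} [Fintype V], SimpleGraph V → Prop) :
    ℕ → ∀ {V : Type u} [Fintype V], SimpleGraph V → Prop
  | 0, V, _, _ => IsEmpty V
  | n + 1, V, _, G => by
    classical
    exact Q (n + 1) G ∧ ∀ v : V, GoodQ Q n (V := {w // G.Adj v w}) (lk G v)

/-- the closure properties which are needed for the class `Cls` -/
structure Closed (Q : ℕ → ∀ {V : Type u} [Fintype V], SimpleGraph V → Prop) : Prop where
  iso : ∀ {n : ℕ} {V W : Type u} [Fintype V] [Fintype W] {G : SimpleGraph V} {H : SimpleGraph W},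
    Q (n + 1) G → (G ≃g H) → Q (n + 1) H
  susp : ∀ {n : ℕ} {V : Type u} [Fintype V] {G : SimpleGraph V}, GoodQ Q n G → Q (n + 1) (susp G)
  glue : ∀ {n : ℕ} {V : Type u} [Fintype V] {G : SimpleGraph V} {K K' B : Finset V}, (∀ v, v ∈ K ∨ v ∈ K') →
    (∀ v, v ∈ B ↔ v ∈ K ∧ v ∈ K') → (∀ u v, u ∉ K' → v ∉ K → ¬ G.Adj u v) →
    GoodQ Q (n + 1) (cap G K B) → GoodQ Q (n + 1) (cap G K' B) → Q (n + 1) G
  split : ∀ {n : ℕ} {V : Type u} [Fintype V] {G : SimpleGraph V} [DecidableRel G.Adj] {p q : V} {K B : Finset V},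
    G.Adj p q → (∀ v, v ∈ K ↔ v ≠ p ∧ v ≠ q) → (∀ v, v ∈ B ↔ v ∈ K ∧ (G.Adj p v ∨ G.Adj q v)) →
    (∀ x y, G.Adj p x → G.Adj x y → G.Adj y q → x = q ∨ y = p ∨ G.Adj q x ∨ G.Adj p y) →
    GoodQ Q (n + 2) (cap G K B) → GoodQ Q (n + 1) (lk G p) → GoodQ Q (n + 1) (lk G q) → Q (n + 2) G

end defs

section links
variable {Q : ℕ → ∀ {V : Type u} [Fintype V], SimpleGraph V → Prop}

theorem goodQ_inst {n : ℕ} {V : Type u} {I J : Fintype V} {G : SimpleGraph V} (h : @GoodQ Q n V I G) :
    @GoodQ Q n V J G := by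
  rwa [Subsingleton.elim J I]

theorem goodQ_zero_iff {V : Type u} [Fintype V] {G : SimpleGraph V} : GoodQ Q 0 G ↔ IsEmpty V := Iff.rfl

theorem goodQ_succ_iff {n : ℕ} {V : Type u} [Fintype V] {G : SimpleGraph V} [DecidableRel G.Adj] :
    GoodQ Q (n + 1) G ↔ Q (n + 1) G ∧ ∀ v : V, GoodQ Q n (lk G v) :=
  ⟨fun h => ⟨h.1, fun v => goodQ_inst (h.2 v)⟩, fun h => ⟨h.1, fun v => goodQ_inst (h.2 v)⟩⟩

theorem goodQ_iso (hQ : Closed Q) {n : ℕ} {V W : Type u} [Fintype V] [Fintype W] {G : SimpleGraph V}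
    {H : SimpleGraph W} (e : G ≃g H) (h : GoodQ Q n G) : GoodQ Q n H := by
  classical
  induction n generalizing V W with
  | zero =>
    have h' : IsEmpty V := h
    exact (e.symm.toEquiv.isEmpty : IsEmpty W)
  | succ n ih =>
    rw [goodQ_succ_iff] at h ⊢
    refine ⟨hQ.iso h.1 e, fun v => ?_⟩
    exact ih (lkIso e.symm v).symm (h.2 (e.symm v))

theorem goodQ_susp (hQ : Closed Q) {n : ℕ} {V : Type u} [Fintype V] {G : SimpleGraph V} (h : GoodQ Q n G) :
    GoodQ Q (n + 1) (susp G) := by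
  classical
  induction n generalizing V with
  | zero =>
    rw [goodQ_succ_iff]
    refine ⟨hQ.susp h, ?_⟩
    rintro (v | b)
    · have h' : IsEmpty V := h
      exact (h'.false v).elim
    · exact goodQ_iso hQ (lkSuspInr G b) h
  | succ n ih =>
    rw [goodQ_succ_iff]
    refine ⟨hQ.susp h, ?_⟩
    rintro (v | b)
    · exact goodQ_iso hQ (lkSuspInl G v) (ih ((goodQ_succ_iff.1 h).2 v))
    · exact goodQ_iso hQ (lkSuspInr G b) h

/-- the links at a vertex outside `B` -/
theorem goodQ_link_out (hQ : Closed Q) {n : ℕ} {V : Type u} [Fintype V] {G : SimpleGraph V} {K B : Finset V}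
    (h : GoodQ Q (n + 1) (cap G K B)) {v : V} (hv : v ∈ K) (hvB : v ∉ B) (hN : ∀ w, G.Adj v w → w ∈ K)
    [Fintype {w // G.Adj v w}] : GoodQ Q n (lk G v) := by
  classical
  exact goodQ_iso hQ (lkCapOut G hv hvB hN) ((goodQ_succ_iff.1 h).2 (some ⟨v, hv⟩))

/-- the cone base -/
theorem goodQ_res (hQ : Closed Q) {n : ℕ} {V : Type u} [Fintype V] {G : SimpleGraph V} {K B : Finset V}
    (hBK : ∀ v ∈ B, v ∈ K) (h : GoodQ Q (n + 1) (cap G K B)) : GoodQ Q n (res G B) := by
  classical
  exact goodQ_iso hQ (lkCapNone G (K := K) (B := B) hBK).symm ((goodQ_succ_iff.1 h).2 none)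

/-- the link of an edge -/
theorem goodQ_edge (hQ : Closed Q) {n : ℕ} {V : Type u} [Fintype V] {G : SimpleGraph V} {p q : V} (hpq : G.Adj p q)
    [Fintype {w // G.Adj p w}] [Fintype {v // G.Adj p v ∧ G.Adj q v}] (h : GoodQ Q (n + 1) (lk G p)) :
    GoodQ Q n (G.comap (Subtype.val : {v // G.Adj p v ∧ G.Adj q v} → V)) := by
  classical
  exact goodQ_iso hQ (lkEdge G hpq) ((goodQ_succ_iff.1 h).2 ⟨q, hpq⟩)

theorem goodQ_glue (hQ : Closed Q) {n : ℕ} {V : Type u} [Fintype V] {G : SimpleGraph V} {K K' B : Finset V}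
    (hcov : ∀ v, v ∈ K ∨ v ∈ K') (hB : ∀ v, v ∈ B ↔ v ∈ K ∧ v ∈ K') (hno : ∀ u v, u ∉ K' → v ∉ K → ¬ G.Adj u v)
    (h1 : GoodQ Q n (cap G K B)) (h2 : GoodQ Q n (cap G K' B)) : GoodQ Q n G := by
  classical
  induction n generalizing V with
  | zero =>
    have h' : IsEmpty (Option {v // v ∈ K}) := h1
    exact (h'.false none).elim
  | succ m ih =>
    have h1' := goodQ_succ_iff.1 h1
    have h2' := goodQ_succ_iff.1 h2
    rw [goodQ_succ_iff]
    refine ⟨hQ.glue hcov hB hno h1 h2, fun v => ?_⟩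
    by_cases hvK' : v ∈ K'
    · by_cases hvK : v ∈ K
      · have hvB : v ∈ B := (hB v).2 ⟨hvK, hvK'⟩
        refine ih (G := lk G v) (K := Finset.univ.filter fun w => w.1 ∈ K) (K' := Finset.univ.filter fun w => w.1 ∈ K')
          (B := Finset.univ.filter fun w => w.1 ∈ B) ?_ ?_ ?_ ?_ ?_
        · intro w
          simp only [Finset.mem_filter, Finset.mem_univ, true_and]
          exact hcov w.1
        · intro w
          simp only [Finset.mem_filter, Finset.mem_univ, true_and]
          exact hB w.1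
        · intro a b ha hb
          simp only [Finset.mem_filter, Finset.mem_univ, true_and] at ha hb
          exact hno a.1 b.1 ha hb
        · exact goodQ_iso hQ (lkCapIn G hvK hvB (by simp) (by simp)).symm (h1'.2 (some ⟨v, hvK⟩))
        · exact goodQ_iso hQ (lkCapIn G hvK' hvB (by simp) (by simp)).symm (h2'.2 (some ⟨v, hvK'⟩))
      · refine goodQ_link_out hQ h2 hvK' (fun h => hvK ((hB v).1 h).1) fun w hw => ?_
        by_contra hwK'
        exact hno w v hwK' hvK hw.symm
    · have hvK : v ∈ K := (hcov v).resolve_right hvK'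
      refine goodQ_link_out hQ h1 hvK (fun h => hvK' ((hB v).1 h).2) fun w hw => ?_
      by_contra hwK
      exact hno v w hvK' hwK hw

theorem goodQ_split (hQ : Closed Q) {n : ℕ} {V : Type u} [Fintype V] {G : SimpleGraph V} [DecidableRel G.Adj]
    {p q : V} {K B : Finset V} (hpq : G.Adj p q)
    (hK : ∀ v, v ∈ K ↔ v ≠ p ∧ v ≠ q) (hB : ∀ v, v ∈ B ↔ v ∈ K ∧ (G.Adj p v ∨ G.Adj q v))
    (hsq : ∀ x y, G.Adj p x → G.Adj x y → G.Adj y q → x = q ∨ y = p ∨ G.Adj q x ∨ G.Adj p y)
    (hL : GoodQ Q (n + 1) (cap G K B)) (hp : GoodQ Q n (lk G p)) (hq : GoodQ Q n (lk G q)) : GoodQ Q (n + 1) G := by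
  classical
  induction n generalizing V with
  | zero =>
    have h' : IsEmpty {w // G.Adj p w} := hp
    exact (h'.false ⟨q, hpq⟩).elim
  | succ m ih =>
    have hL' := goodQ_succ_iff.1 hL
    rw [goodQ_succ_iff]
    refine ⟨hQ.split hpq hK hB hsq hL hp hq, fun v => ?_⟩
    by_cases hvp : v = p
    · subst hvp; exact hp
    by_cases hvq : v = q
    · subst hvq; exact hq
    have hvK : v ∈ K := (hK v).2 ⟨hvp, hvq⟩
    by_cases h1 : G.Adj p v
    · have hvB : v ∈ B := (hB v).2 ⟨hvK, Or.inl h1⟩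
      by_cases h2 : G.Adj q v
      · refine ih (G := lk G v) (p := ⟨p, h1.symm⟩) (q := ⟨q, h2.symm⟩)
          (K := Finset.univ.filter fun w => w.1 ∈ K) (B := Finset.univ.filter fun w => w.1 ∈ B) hpq ?_ ?_ ?_ ?_ ?_ ?_
        · intro w
          simp only [Finset.mem_filter, Finset.mem_univ, true_and]
          rw [hK w.1]
          simp only [ne_eq, Subtype.ext_iff]
        · intro w
          simp only [Finset.mem_filter, Finset.mem_univ, true_and]
          exact hB w.1
        · intro x y hx hxy hy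
          rcases hsq x.1 y.1 hx hxy hy with h | h | h | h
          · exact Or.inl (Subtype.ext h)
          · exact Or.inr (Or.inl (Subtype.ext h))
          · exact Or.inr (Or.inr (Or.inl h))
          · exact Or.inr (Or.inr (Or.inr h))
        · exact goodQ_iso hQ (lkCapIn G hvK hvB (by simp) (by simp)).symm (hL'.2 (some ⟨v, hvK⟩))
        · exact goodQ_iso hQ (lkLk G h1 h1.symm) ((goodQ_succ_iff.1 hp).2 ⟨v, h1⟩)
        · exact goodQ_iso hQ (lkLk G h2 h2.symm) ((goodQ_succ_iff.1 hq).2 ⟨v, h2⟩)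
      · refine goodQ_iso hQ (lkCapOne G hvK hvB h1.symm (fun h => ((hK p).1 h).1 rfl) ?_ ?_) (hL'.2 (some ⟨v, hvK⟩))
        · intro w hw
          by_cases hwp : w = p
          · exact Or.inl hwp
          · exact Or.inr ((hK w).2 ⟨hwp, fun h => h2 (h ▸ hw.symm)⟩)
        · intro w hwK hw
          constructor
          · intro hwB
            rcases ((hB w).1 hwB).2 with h | h
            · exact h
            · rcases hsq v w h1 hw h.symm with h' | h' | h' | h'
              · exact absurd h' hvq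
              · exact absurd h' ((hK w).1 hwK).1
              · exact absurd h' h2
              · exact h'
          · intro h
            exact (hB w).2 ⟨hwK, Or.inl h⟩
    · by_cases h2 : G.Adj q v
      · have hvB : v ∈ B := (hB v).2 ⟨hvK, Or.inr h2⟩
        refine goodQ_iso hQ (lkCapOne G hvK hvB h2.symm (fun h => ((hK q).1 h).2 rfl) ?_ ?_) (hL'.2 (some ⟨v, hvK⟩))
        · intro w hw
          by_cases hwq : w = q
          · exact Or.inl hwq
          · exact Or.inr ((hK w).2 ⟨fun h => h1 (h ▸ hw.symm), hwq⟩)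
        · intro w hwK hw
          constructor
          · intro hwB
            rcases ((hB w).1 hwB).2 with h | h
            · rcases hsq w v h hw.symm h2.symm with h' | h' | h' | h'
              · exact absurd h' ((hK w).1 hwK).2
              · exact absurd h' hvp
              · exact h'
              · exact absurd h' h1
            · exact h
          · intro h
            exact (hB w).2 ⟨hwK, Or.inr h⟩
      · refine goodQ_link_out hQ hL hvK (fun h => ?_) fun w hw => ?_
        · rcases ((hB v).1 h).2 with h | h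
          · exact h1 h
          · exact h2 h
        · exact (hK w).2 ⟨fun h => h1 (h ▸ hw.symm), fun h => h2 (h ▸ hw.symm)⟩

/-- an edge subdivision is a vertex split -/
theorem goodQ_subd (hQ : Closed Q) {n : ℕ} {V : Type u} [Fintype V] {G : SimpleGraph V} {a b : V}
    (hab : G.Adj a b) (h : GoodQ Q n G) : GoodQ Q n (subd G a b) := by
  classical
  match n, h with
  | 0, h =>
    have h' : IsEmpty V := h
    exact (h'.false a).elim
  | 1, h =>
    have h' : IsEmpty {w // G.Adj a w} := (goodQ_succ_iff.1 h).2 a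
    exact (h'.false ⟨b, hab⟩).elim
  | m + 2, h =>
    have h1 := goodQ_succ_iff.1 h
    have hK : ∀ x, x ∈ (Finset.univ.filter fun x : Option V => x ≠ none ∧ x ≠ some b) ↔ x ≠ none ∧ x ≠ some b := by
      simp
    have hB : ∀ x, x ∈ (Finset.univ.filter fun x : Option V => (x ≠ none ∧ x ≠ some b) ∧
        ((subd G a b).Adj none x ∨ (subd G a b).Adj (some b) x)) ↔
        x ∈ (Finset.univ.filter fun x : Option V => x ≠ none ∧ x ≠ some b) ∧
        ((subd G a b).Adj none x ∨ (subd G a b).Adj (some b) x) := by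
      simp
    refine goodQ_split hQ (p := none) (q := some b) (Or.inr (Or.inl rfl)) hK hB ?_ ?_ ?_ ?_
    · rintro (_ | x) (_ | y) hx hxy hy
      · exact Or.inr (Or.inl rfl)
      · exact (hx : False).elim
      · exact Or.inr (Or.inl rfl)
      · have hy' : G.Adj y b ∧ ¬ (y = a ∧ b = b) ∧ _ := hy
        have hxy' : G.Adj x y ∧ ¬ (x = a ∧ y = b) ∧ _ := hxy
        rcases (hx : x = a ∨ x = b ∨ (G.Adj a x ∧ G.Adj b x)) with h | h | h
        · subst h
          exact Or.inr (Or.inr (Or.inr (Or.inr (Or.inr ⟨hxy'.1, hy'.1.symm⟩))))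
        · exact Or.inl (congrArg some h)
        · exact Or.inr (Or.inr (Or.inl ⟨h.2, fun h' => hab.ne h'.1.symm, fun h' => h.1.ne' h'.2⟩))
    · exact goodQ_iso hQ (capSubd G hab hK hB).symm h
    · refine goodQ_iso hQ (lkSubdNone G hab) (goodQ_susp hQ ?_)
      exact goodQ_edge hQ hab (h1.2 a)
    · exact goodQ_iso hQ (lkSubdSome G hab).symm (h1.2 b)

/-- **all graphs of the class `Cls` have the hereditary property** -/
theorem goodQ_of_cls (hQ : Closed Q) {n : ℕ} {V : Type u} {G : SimpleGraph V} (h : Cls n G) :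
    ∀ [Fintype V], GoodQ Q n G := by
  classical
  induction h with
  | empty h G =>
    intro I
    exact h
  | @susp n V G h ih =>
    intro I
    have : Finite V := Finite.of_injective (Sum.inl : V → V ⊕ Bool) Sum.inl_injective
    have J : Fintype V := Fintype.ofFinite V
    exact goodQ_inst (goodQ_susp hQ ih)
  | @subd n V G a b h hab ih =>
    intro I
    have : Finite V := Finite.of_injective (some : V → Option V) (Option.some_injective _)
    have J : Fintype V := Fintype.ofFinite V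
    exact goodQ_inst (goodQ_subd hQ hab ih)
  | glue hcov hB hno h1 h2 ih1 ih2 =>
    intro I
    exact goodQ_glue hQ hcov hB hno ih1 ih2
  | split hpq hK hB hsq h1 h2 h3 ih1 ih2 ih3 =>
    intro I
    exact goodQ_split hQ hpq hK hB hsq ih1 ih2 ih3
  | @iso n V W G H h e ih =>
    intro I
    have : Finite V := Finite.of_equiv W e.symm.toEquiv
    have J : Fintype V := Fintype.ofFinite V
    exact goodQ_iso hQ e ih

end links

end Singer
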