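import Pool.Agent.Singer.Split
import Pool.Agent.Singer.LinksQ

/-!
# Singer: the hereditary vanishing condition `Good` and the class `Cls`
-/

set_option autoImplicit false
set_option linter.unusedSectionVars false
set_option linter.unusedVariables false

namespace Singer

universe u

/-- the vanishing of the `ℓ²`-Betti numbers outside the middle dimension -/
def VanQ (n : ℕ) {V : Type u} [Fintype V] (G : SimpleGraph V) : Prop := by
  classical
  exact ∀ i, 2 * i ≠ n → bet G i = 0

section links
variable {V : Type u} [Fintype V]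

theorem vanQ_iff [DecidableEq V] {n : ℕ} {G : SimpleGraph V} : VanQ n G ↔ ∀ i, 2 * i ≠ n → bet G i = 0 := by
  have key : ∀ i, @bet V _ (fun a b => Classical.propDecidable _) G i = bet G i := fun i => by
    congr 1
  constructor
  · intro h i hi
    exact (key i).symm.trans (h i hi)
  · intro h i hi
    exact (key i).trans (h i hi)

theorem good_iff_goodQ {n : ℕ} {G : SimpleGraph V} : Good n G ↔ GoodQ VanQ n G := by
  classical
  induction n generalizing V with
  | zero => exact Iff.rfl
  | succ n ih =>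
    constructor
    · intro h
      exact ⟨h.1, fun v => (ih (V := {w // G.Adj v w})).1 (h.2 v)⟩
    · intro h
      exact ⟨h.1, fun v => (ih (V := {w // G.Adj v w})).2 (h.2 v)⟩

/-- the first part of a hereditary property -/
theorem goodQ_vanQ {n : ℕ} {G : SimpleGraph V} (h : GoodQ VanQ (n + 1) G) : VanQ (n + 1) G := h.1

end links

/-- **the vanishing property has all closure properties of the class `Cls`** -/
theorem closed_vanQ : Closed.{u} VanQ where
  iso := by
    classical
    intro n V W _ _ G H h e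
    rw [vanQ_iff] at h ⊢
    exact fun i hi => (bet_iso e i).symm.trans (h i hi)
  susp := by
    classical
    intro n V _ G _
    rw [vanQ_iff]
    exact fun i _ => bet_susp G i
  glue := by
    classical
    intro n V _ G K K' B hcov hB hno h1 h2
    have hiso : ∀ {n : ℕ} {V W : Type u} [Fintype V] [Fintype W] {G : SimpleGraph V} {H : SimpleGraph W}
        (e : G ≃g H) (h : GoodQ VanQ n G), GoodQ VanQ n H := by
      intro n
      induction n with
      | zero =>
        intro V W _ _ G H e h
        have h' : IsEmpty V := h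
        exact (e.symm.toEquiv.isEmpty : IsEmpty W)
      | succ n ih =>
        intro V W _ _ G H e h
        rw [goodQ_succ_iff] at h ⊢
        refine ⟨?_, fun v => ih (lkIso e.symm v).symm (h.2 (e.symm v))⟩
        have h1 := h.1
        rw [vanQ_iff] at h1 ⊢
        exact fun i hi => (bet_iso e i).symm.trans (h1 i hi)
    have hB' : GoodQ VanQ n (res G B) :=
      hiso (lkCapNone G (K := K) (B := B) fun v hv => ((hB v).1 hv).1).symm ((goodQ_succ_iff.1 h1).2 none)
    have h1' := vanQ_iff.1 h1.1
    have h2' := vanQ_iff.1 h2.1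
    rw [vanQ_iff]
    refine fun i hi => bet_glue hcov hB hno (m := n) ?_ h1' h2' i hi
    intro j hj
    cases n with
    | zero =>
      have : IsEmpty {v // v ∈ B} := hB'
      exact bet_empty _ (by omega)
    | succ n => exact vanQ_iff.1 hB'.1 j hj
  split := by
    classical
    intro n V _ G _ p q K B hpq hK hB hsq h1 h2 h3
    have hiso : ∀ {n : ℕ} {V W : Type u} [Fintype V] [Fintype W] {G : SimpleGraph V} {H : SimpleGraph W}
        (e : G ≃g H) (h : GoodQ VanQ n G), GoodQ VanQ n H := by
      intro n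
      induction n with
      | zero =>
        intro V W _ _ G H e h
        have h' : IsEmpty V := h
        exact (e.symm.toEquiv.isEmpty : IsEmpty W)
      | succ n ih =>
        intro V W _ _ G H e h
        rw [goodQ_succ_iff] at h ⊢
        refine ⟨?_, fun v => ih (lkIso e.symm v).symm (h.2 (e.symm v))⟩
        have h1 := h.1
        rw [vanQ_iff] at h1 ⊢
        exact fun i hi => (bet_iso e i).symm.trans (h1 i hi)
    have hB' : GoodQ VanQ (n + 1) (res G B) :=
      hiso (lkCapNone G (K := K) (B := B) fun v hv => ((hB v).1 hv).1).symm ((goodQ_succ_iff.1 h1).2 none)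
    have hS : GoodQ VanQ n (G.comap (Subtype.val : {v // G.Adj p v ∧ G.Adj q v} → V)) :=
      hiso (lkEdge G hpq) ((goodQ_succ_iff.1 h2).2 ⟨q, hpq⟩)
    rw [vanQ_iff]
    refine fun i hi => bet_split hpq hK hB hsq (m := n) (vanQ_iff.1 h1.1) (vanQ_iff.1 hB'.1) (vanQ_iff.1 h2.1)
      (vanQ_iff.1 h3.1) ?_ i hi
    intro j hj
    cases n with
    | zero =>
      have : IsEmpty {v // G.Adj p v ∧ G.Adj q v} := hS
      exact bet_empty _ (by omega)
    | succ n => exact vanQ_iff.1 hS.1 j hj

theorem good_iso {n : ℕ} {V W : Type u} [Fintype V] [Fintype W] {G : SimpleGraph V} {H : SimpleGraph W} (e : G ≃g H)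
    (h : Good n G) : Good n H :=
  good_iff_goodQ.2 (goodQ_iso closed_vanQ e (good_iff_goodQ.1 h))

section links
variable {V : Type u} [Fintype V] [DecidableEq V]

theorem good_inst {n : ℕ} {V : Type u} {I J : Fintype V} {G : SimpleGraph V} (h : @Good n V I G) : @Good n V J G := by
  rwa [Subsingleton.elim J I]

theorem good_succ_iff {n : ℕ} {G : SimpleGraph V} [DecidableRel G.Adj] :
    Good (n + 1) G ↔ (∀ i, 2 * i ≠ n + 1 → bet G i = 0) ∧ ∀ v : V, Good n (lk G v) := by
  rw [good_iff_goodQ, goodQ_succ_iff, vanQ_iff]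
  exact and_congr_right fun _ => forall_congr' fun v => good_iff_goodQ.symm

theorem good_bet {n : ℕ} {G : SimpleGraph V} (h : Good n G) (i : ℕ) (hi : 2 * i ≠ n) : bet G i = 0 := by
  classical
  cases n with
  | zero =>
    have h' : IsEmpty V := h
    exact bet_empty G (by omega)
  | succ n => exact (good_succ_iff.1 h).1 i hi

theorem good_susp {n : ℕ} {G : SimpleGraph V} (h : Good n G) : Good (n + 1) (susp G) :=
  good_iff_goodQ.2 (goodQ_susp closed_vanQ (good_iff_goodQ.1 h))

theorem good_glue {n : ℕ} {G : SimpleGraph V} {K K' B : Finset V} (hcov : ∀ v, v ∈ K ∨ v ∈ K')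
    (hB : ∀ v, v ∈ B ↔ v ∈ K ∧ v ∈ K') (hno : ∀ u v, u ∉ K' → v ∉ K → ¬ G.Adj u v) (h1 : Good n (cap G K B))
    (h2 : Good n (cap G K' B)) : Good n G :=
  good_iff_goodQ.2 (goodQ_glue closed_vanQ hcov hB hno (good_iff_goodQ.1 h1) (good_iff_goodQ.1 h2))

theorem good_split {n : ℕ} {G : SimpleGraph V} [DecidableRel G.Adj] {p q : V} {K B : Finset V} (hpq : G.Adj p q)
    (hK : ∀ v, v ∈ K ↔ v ≠ p ∧ v ≠ q) (hB : ∀ v, v ∈ B ↔ v ∈ K ∧ (G.Adj p v ∨ G.Adj q v))
    (hsq : ∀ x y, G.Adj p x → G.Adj x y → G.Adj y q → x = q ∨ y = p ∨ G.Adj q x ∨ G.Adj p y)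
    (hL : Good (n + 1) (cap G K B)) (hp : Good n (lk G p)) (hq : Good n (lk G q)) : Good (n + 1) G :=
  good_iff_goodQ.2 (goodQ_split closed_vanQ hpq hK hB hsq (good_iff_goodQ.1 hL) (good_iff_goodQ.1 hp)
    (good_iff_goodQ.1 hq))

theorem good_subd {n : ℕ} {G : SimpleGraph V} (hG : Good n G) {a b : V} (h : G.Adj a b) : Good n (subd G a b) :=
  good_iff_goodQ.2 (goodQ_subd closed_vanQ h (good_iff_goodQ.1 hG))

end links

theorem good_of_cls {n : ℕ} {V : Type u} [Fintype V] {G : SimpleGraph V} (h : Cls n G) : Good n G :=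
  good_iff_goodQ.2 (goodQ_of_cls closed_vanQ h)

end Singer
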