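import Pool.Agent.Singer.Racg

/-!
# Descents in right-angled Coxeter groups

`Dsc s w` : the wall of `s` separates `1` and `w` (`s` is a left descent of `w`)

* `dsc_self` : `s * w` has the descent `s` iff `w` has not
* `dsc_adj` : for adjacent `s, t`: `t * w` has the descent `s` iff `w` has
* `dsc_cross` : if `w` and `w * r` are on different sides of the wall of `s` then `w * r = s * w`
* `dsc_clique` : two descents of `w` are adjacent
* `exists_dsc` : an element different from one has a descent
* `len` : the length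
-/

set_option autoImplicit false

namespace Singer.Racg

open scoped Classical
variable {V : Type*} {G : SimpleGraph V}

section state
variable {a : V}

/-- the first letter of the word is the coset of the inverse of the first component -/
def Hd (x : St G a) : Prop := x.2.1.head? = some ((x.1⁻¹ : KK G a) : KK G a ⧸ UU G a)

lemma not_hd_x0 : ¬ Hd (x0 : St G a) := by
  unfold Hd x0
  simp

lemma hd_actA (x : St G a) : Hd (actA x) ↔ ¬ Hd x := by
  obtain ⟨k, l, hl⟩ := x
  unfold Hd actA
  dsimp only
  cases l with
  | nil => simp [tog]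
  | cons y l =>
    by_cases h : y = ((k⁻¹ : KK G a) : KK G a ⧸ UU G a)
    · have h1 : tog ((k⁻¹ : KK G a) : KK G a ⧸ UU G a) (y :: l) = l := if_pos h
      rw [h1, List.head?_cons, h]
      cases l with
      | nil => simp
      | cons z l =>
        have h3 : y ≠ z := by
          have := hl
          unfold Red at this
          rw [List.isChain_cons_cons] at this
          exact this.1
        rw [h] at h3
        simp only [List.head?_cons, Option.some.injEq, not_true_eq_false, iff_false]
        exact fun h4 => h3 h4.symm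
    · have h1 : tog ((k⁻¹ : KK G a) : KK G a ⧸ UU G a) (y :: l) = _ :: y :: l := if_neg h
      rw [h1, List.head?_cons, List.head?_cons]
      simp only [Option.some.injEq, true_iff]
      exact h

lemma hd_actK {u : KK G a} (hu : u ∈ UU G a) (x : St G a) : Hd (actK u x) ↔ Hd x := by
  obtain ⟨k, l, hl⟩ := x
  unfold Hd actK
  dsimp only
  have h : (((u * k)⁻¹ : KK G a) : KK G a ⧸ UU G a) = ((k⁻¹ : KK G a) : KK G a ⧸ UU G a) := by
    rw [QuotientGroup.eq]
    simpa using hu
  rw [h]

lemma not_hd_actK {u : KK G a} (hu : u ∉ UU G a) {x : St G a} (hx : Hd x) : ¬ Hd (actK u x) := by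
  obtain ⟨k, l, hl⟩ := x
  unfold Hd actK at *
  dsimp only at *
  intro h
  rw [h] at hx
  have h2 : (((u * k)⁻¹ : KK G a) : KK G a ⧸ UU G a) = ((k⁻¹ : KK G a) : KK G a ⧸ UU G a) :=
    Option.some.inj hx
  rw [QuotientGroup.eq] at h2
  apply hu
  simpa using h2

lemma length_actA (x : St G a) : (actA x).2.1.length + (if Hd x then 1 else 0) =
    x.2.1.length + (if Hd x then 0 else 1) := by
  obtain ⟨k, l, hl⟩ := x
  have key : ∀ l : List (KK G a ⧸ UU G a), (tog ((k⁻¹ : KK G a) : KK G a ⧸ UU G a) l).length +
      (if l.head? = some ((k⁻¹ : KK G a) : KK G a ⧸ UU G a) then 1 else 0) =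
      l.length + (if l.head? = some ((k⁻¹ : KK G a) : KK G a ⧸ UU G a) then 0 else 1) := by
    intro l
    cases l with
    | nil => simp [tog]
    | cons y l =>
      by_cases h : y = ((k⁻¹ : KK G a) : KK G a ⧸ UU G a)
      · have h1 : tog ((k⁻¹ : KK G a) : KK G a ⧸ UU G a) (y :: l) = l := if_pos h
        rw [h1, List.head?_cons, h]
        simp
      · have h1 : tog ((k⁻¹ : KK G a) : KK G a ⧸ UU G a) (y :: l) = _ :: y :: l := if_neg h
        rw [h1, List.head?_cons]
        simp [h]
  have h := key l
  unfold Hd actA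
  dsimp only
  convert h

end state

lemma act_mul_self (s : V) (w : RACG G) : act (gen G s * w) (x0 : St G s) = actA (act w x0) := by
  rw [map_mul, Equiv.Perm.mul_apply]
  generalize act w x0 = y
  rw [act, lift_gen, actF_a]

lemma act_mul_ne {s t : V} (h : t ≠ s) (w : RACG G) :
    act (gen G t * w) (x0 : St G s) = actK (genK h) (act w x0) := by
  rw [map_mul, Equiv.Perm.mul_apply]
  generalize act w x0 = y
  rw [act, lift_gen, actF_ne h]

/-- `s` is a left descent of `w` -/
def Dsc (s : V) (w : RACG G) : Prop := Hd (act w (x0 : St G s))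

lemma not_dsc_one (s : V) : ¬ Dsc s (1 : RACG G) := by
  unfold Dsc
  rw [map_one]
  exact not_hd_x0

lemma dsc_self (s : V) (w : RACG G) : Dsc s (gen G s * w) ↔ ¬ Dsc s w := by
  unfold Dsc
  rw [act_mul_self, hd_actA]

lemma dsc_gen (s : V) : Dsc s (gen G s) := by
  have h := (dsc_self s (1 : RACG G)).2 (not_dsc_one s)
  rwa [mul_one] at h

lemma dsc_adj {s t : V} (h : G.Adj s t) (w : RACG G) : Dsc s (gen G t * w) ↔ Dsc s w := by
  unfold Dsc
  rw [act_mul_ne h.ne', hd_actK]
  exact Subgroup.mem_subgroupOf.2 (gen_mem_sub (A := {v | G.Adj s v}) h)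

lemma not_dsc {s t : V} (hst : t ≠ s) (h : ¬ G.Adj s t) {w : RACG G} (hw : Dsc s w) : ¬ Dsc s (gen G t * w) := by
  unfold Dsc at *
  rw [act_mul_ne hst]
  refine not_hd_actK (fun h1 => ?_) hw
  exact gen_notMem (G := G) (a := t) (A := {v | G.Adj s v}) h (Subgroup.mem_subgroupOf.1 h1)

/-! ### right multiplication -/

section right
variable {α β : Type*}

lemma tog_map [DecidableEq α] [DecidableEq β] {f : α → β} (hf : Function.Injective f) (x : α) (l : List α) :
    tog (f x) (l.map f) = (tog x l).map f := by
  cases l with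
  | nil => simp [tog]
  | cons y l =>
    by_cases h : y = x
    · subst h; simp [tog]
    · simp [tog, h, hf.eq_iff]

/-- toggle the last letter of a word -/
def togL [DecidableEq α] (x : α) : List α → List α
  | [] => [x]
  | [y] => if y = x then [] else [y, x]
  | y :: z :: l => y :: togL x (z :: l)

lemma tog_togL [DecidableEq α] (x y : α) (l : List α) : tog x (togL y l) = togL y (tog x l) := by
  match l with
  | [] =>
    by_cases h : y = x
    · subst h; simp [tog, togL]
    · simp [tog, togL, h, Ne.symm h]
  | [z] =>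
    by_cases h : z = x
    · subst h
      by_cases h2 : z = y
      · subst h2; simp [tog, togL]
      · simp [tog, togL, h2]
    · by_cases h2 : z = y
      · subst h2; simp [tog, togL, h]
      · simp [tog, togL, h, h2]
  | z :: z' :: l =>
    by_cases h : z = x
    · subst h; simp [tog, togL]
    · simp [tog, togL, h]

end right

lemma act_mul_right_self (s : V) (w : RACG G) :
    (act (w * gen G s) (x0 : St G s)).1 = (act w (x0 : St G s)).1 ∧
    (act (w * gen G s) (x0 : St G s)).2.1 =
      togL ((1 : KK G s) : KK G s ⧸ UU G s) (act w (x0 : St G s)).2.1 := by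
  induction w using induction with
  | h1 =>
    have h : act (1 * gen G s) (x0 : St G s) = actA x0 := by
      have h0 := act_mul_self s (1 : RACG G)
      rw [mul_one] at h0
      rw [one_mul, h0, map_one]
      rfl
    rw [h, map_one]
    refine ⟨rfl, ?_⟩
    show tog (((1 : KK G s)⁻¹ : KK G s) : KK G s ⧸ UU G s) [] = _
    rw [inv_one]
    rfl
  | hm v w ih =>
    rw [mul_assoc]
    by_cases h : v = s
    · subst h
      rw [act_mul_self, act_mul_self]
      refine ⟨ih.1, ?_⟩
      show tog (((act (w * gen G v) (x0 : St G v)).1⁻¹ : KK G v) : KK G v ⧸ UU G v)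
        (act (w * gen G v) (x0 : St G v)).2.1 = togL _ (tog _ _)
      rw [ih.1, ih.2, tog_togL]
    · rw [act_mul_ne h, act_mul_ne h]
      refine ⟨?_, ih.2⟩
      show genK h * (act (w * gen G s) (x0 : St G s)).1 = genK h * _
      rw [ih.1]

lemma act_mul_right_ne {s t : V} (h : t ≠ s) (w : RACG G) :
    (act (w * gen G t) (x0 : St G s)).1 = (act w (x0 : St G s)).1 * genK h ∧
    (act (w * gen G t) (x0 : St G s)).2.1 =
      (act w (x0 : St G s)).2.1.map fun q : KK G s ⧸ UU G s => (genK (G := G) h)⁻¹ • q := by
  induction w using induction with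
  | h1 =>
    have h1 : act (1 * gen G t) (x0 : St G s) = actK (genK h) x0 := by
      have h0 := act_mul_ne h (1 : RACG G)
      rw [mul_one] at h0
      rw [one_mul, h0, map_one]
      rfl
    rw [h1, map_one]
    refine ⟨?_, rfl⟩
    show genK h * 1 = 1 * genK h
    rw [mul_one, one_mul]
  | hm v w ih =>
    rw [mul_assoc]
    by_cases hv : v = s
    · subst hv
      rw [act_mul_self, act_mul_self]
      refine ⟨ih.1, ?_⟩
      show tog (((act (w * gen G t) (x0 : St G v)).1⁻¹ : KK G v) : KK G v ⧸ UU G v)
        (act (w * gen G t) (x0 : St G v)).2.1 = List.map _ (tog _ _)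
      rw [ih.1, ih.2, ← tog_map (MulAction.injective _), mul_inv_rev]
      rfl
    · rw [act_mul_ne hv, act_mul_ne hv]
      refine ⟨?_, ih.2⟩
      show genK hv * (act (w * gen G t) (x0 : St G s)).1 = genK hv * (act w (x0 : St G s)).1 * genK h
      rw [ih.1, mul_assoc]

lemma gen_comm_of_mem {s : V} {u : RACG G} (hu : u ∈ sub (G := G) {v | G.Adj s v}) : u * gen G s = gen G s * u := by
  have h4 : sub (G := G) {v | G.Adj s v} ≤ Subgroup.centralizer {gen G s} := by
    refine (Subgroup.closure_le _).2 ?_
    rintro _ ⟨v, hv, rfl⟩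
    refine Subgroup.mem_centralizer_iff.2 fun y hy => ?_
    rw [Set.mem_singleton_iff.1 hy]
    exact gen_comm hv
  exact (Subgroup.mem_centralizer_iff.1 (h4 hu) _ rfl).symm

/-- an edge crosses the wall of `s` only if it is the edge of the reflection `s` -/
theorem dsc_cross {s r : V} {w : RACG G} (h : ¬ (Dsc s (w * gen G r) ↔ Dsc s w)) : w * gen G r = gen G s * w := by
  by_cases hr : r = s
  · subst hr
    unfold Dsc Hd at h
    rw [(act_mul_right_self r w).1, (act_mul_right_self r w).2] at h
    have hev := ev_act w (x0 : St G r)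
    rw [ev_x0, mul_one] at hev
    unfold ev at hev
    revert h hev
    generalize (act w (x0 : St G r)).1 = k
    generalize (act w (x0 : St G r)).2.1 = l
    intro h hev
    have key : (k : RACG G) ∈ sub (G := G) {v | G.Adj r v} → (k : RACG G) * gen G r = gen G r * k :=
      gen_comm_of_mem
    have hq : ((1 : KK G r) : KK G r ⧸ UU G r) = ((k⁻¹ : KK G r) : KK G r ⧸ UU G r) →
        (k : RACG G) ∈ sub (G := G) {v | G.Adj r v} := by
      intro h1
      rw [QuotientGroup.eq, inv_one, one_mul] at h1
      exact Subgroup.mem_subgroupOf.1 ((UU G r).inv_mem_iff.1 h1)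
    match l with
    | [] =>
      have h1 : w = k := by simpa using hev.symm
      have h2 : ((1 : KK G r) : KK G r ⧸ UU G r) = ((k⁻¹ : KK G r) : KK G r ⧸ UU G r) := by
        by_contra h2
        apply h
        simp [togL, h2]
      rw [h1]
      exact key (hq h2)
    | [y] =>
      by_cases hy : y = ((1 : KK G r) : KK G r ⧸ UU G r)
      · subst hy
        have h2 : ((1 : KK G r) : KK G r ⧸ UU G r) = ((k⁻¹ : KK G r) : KK G r ⧸ UU G r) := by
          by_contra h2
          apply h
          simp [togL, h2]
        have h1 : w = k * gen G r := by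
          rw [← hev]
          simp [let_mk]
        rw [h1, key (hq h2), mul_assoc, key (hq h2)]
      · exact absurd (by simp [togL, hy]) h
    | y :: z :: l => exact absurd (by simp [togL]) h
  · refine absurd ?_ h
    unfold Dsc Hd
    rw [(act_mul_right_ne hr w).1, (act_mul_right_ne hr w).2]
    have h2 : ∀ b c : KK G s, ((b * c : KK G s) : KK G s ⧸ UU G s) = b • (c : KK G s ⧸ UU G s) := fun _ _ => rfl
    rw [mul_inv_rev, h2, List.head?_map]
    constructor
    · intro h3
      rw [Option.map_eq_some_iff] at h3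
      obtain ⟨q, hq, hq'⟩ := h3
      rw [hq, MulAction.injective _ hq']
    · intro h3
      rw [h3, Option.map_some]

lemma gen_inj {s t : V} (h : gen G s = gen G t) : s = t := by
  by_contra hne
  refine gen_notMem (G := G) (a := s) (A := {t}) (by simpa using hne) ?_
  rw [h]
  exact gen_mem_sub rfl

lemma induction_right {p : RACG G → Prop} (h1 : p 1) (hm : ∀ v w, p w → p (w * gen G v)) (w : RACG G) : p w := by
  have h : p (w⁻¹)⁻¹ := by
    generalize w⁻¹ = w'
    induction w' using induction with
    | h1 => rwa [inv_one]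
    | hm v w ih =>
      rw [mul_inv_rev, gen_inv]
      exact hm v _ ih
  rwa [inv_inv] at h

/-- two descents are adjacent -/
theorem dsc_clique {s t : V} (hst : s ≠ t) {w : RACG G} (hs : Dsc s w) (ht : Dsc t w) : G.Adj s t := by
  by_contra h
  revert hs ht
  induction w using induction_right with
  | h1 => exact fun hs => absurd hs (not_dsc_one s)
  | hm r w ih =>
    intro hs ht
    by_cases h1 : Dsc s w
    · by_cases h2 : Dsc t w
      · exact ih h1 h2
      · have h3 := dsc_cross (s := t) (r := r) (w := w) (fun h4 => h2 (h4.1 ht))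
        rw [h3] at hs
        exact not_dsc (Ne.symm hst) h h1 hs
    · have h3 := dsc_cross (s := s) (r := r) (w := w) (fun h4 => h1 (h4.1 hs))
      by_cases h2 : Dsc t w
      · rw [h3] at ht
        exact not_dsc hst (fun h5 => h h5.symm) h2 ht
      · have h4 := dsc_cross (s := t) (r := r) (w := w) (fun h4 => h2 (h4.1 ht))
        rw [h3] at h4
        exact hst (gen_inj (mul_right_cancel h4))

/-! ### the exchange property -/

/-- the element of a word -/
def wd (l : List V) : RACG G := (l.map (gen G)).prod

@[simp] lemma wd_nil : wd (G := G) [] = 1 := rfl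

@[simp] lemma wd_cons (v : V) (l : List V) : wd (G := G) (v :: l) = gen G v * wd l := by simp [wd]

@[simp] lemma wd_append (l l' : List V) : wd (G := G) (l ++ l') = wd l * wd l' := by simp [wd]

lemma exists_wd (w : RACG G) : ∃ l, wd l = w := by
  induction w using induction with
  | h1 => exact ⟨[], rfl⟩
  | hm v w ih =>
    obtain ⟨l, rfl⟩ := ih
    exact ⟨v :: l, wd_cons v l⟩

lemma exists_cross {s : V} (l : List V) {w : RACG G} (h1 : Dsc s w) (h2 : ¬ Dsc s (w * wd l)) :
    ∃ l1 r l2, l = l1 ++ r :: l2 ∧ Dsc s (w * wd l1) ∧ ¬ Dsc s (w * wd l1 * gen G r) := by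
  induction l generalizing w with
  | nil => exact absurd h1 (by simpa using h2)
  | cons v l ih =>
    by_cases h3 : Dsc s (w * gen G v)
    · obtain ⟨l1, r, l2, h4, h5, h6⟩ := ih h3 (by rwa [wd_cons, ← mul_assoc] at h2)
      refine ⟨v :: l1, r, l2, by rw [h4]; rfl, ?_, ?_⟩
      · rwa [wd_cons, ← mul_assoc]
      · rwa [wd_cons, ← mul_assoc]
    · exact ⟨[], v, l, rfl, by simpa using h1, by simpa using h3⟩

/-- an element different from one has a descent -/
theorem exists_dsc {w : RACG G} (hw : w ≠ 1) : ∃ s, Dsc s w := by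
  obtain ⟨l, rfl⟩ := exists_wd w
  obtain ⟨n, hn⟩ : ∃ n, l.length = n := ⟨_, rfl⟩
  induction n using Nat.strong_induction_on generalizing l with
  | _ n ih =>
    cases l with
    | nil => exact absurd rfl hw
    | cons s l =>
      by_cases h : Dsc s (wd (G := G) (s :: l))
      · exact ⟨s, h⟩
      · rw [wd_cons] at h
        obtain ⟨l1, r, l2, h4, h5, h6⟩ := exists_cross l (dsc_gen s) h
        have h7 := dsc_cross (s := s) (r := r) (w := gen G s * wd l1) (fun h8 => h6 (h8.2 h5))
        rw [← mul_assoc (gen G s) (gen G s), gen_mul_gen, one_mul] at h7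
        have h8 : wd (G := G) (s :: l) = wd (l1 ++ l2) := by
          rw [h4, wd_cons, wd_append, wd_append, wd_cons]
          conv_rhs => rw [← h7]
          simp only [mul_assoc]
        rw [h8] at hw ⊢
        refine ih (l1 ++ l2).length ?_ _ hw rfl
        rw [← hn, h4]
        simp only [List.length_append, List.length_cons]
        omega

/-! ### right descents and the length -/

/-- `s` is a right descent of `w` -/
def Rd (s : V) (w : RACG G) : Prop := Dsc s w⁻¹

lemma not_rd_one (s : V) : ¬ Rd s (1 : RACG G) := by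
  unfold Rd
  rw [inv_one]
  exact not_dsc_one s

lemma rd_self (s : V) (w : RACG G) : Rd s (w * gen G s) ↔ ¬ Rd s w := by
  unfold Rd
  rw [mul_inv_rev, gen_inv, dsc_self]

lemma rd_adj {s t : V} (h : G.Adj s t) (w : RACG G) : Rd s (w * gen G t) ↔ Rd s w := by
  unfold Rd
  rw [mul_inv_rev, gen_inv, dsc_adj h]

lemma rd_clique {s t : V} (hst : s ≠ t) {w : RACG G} (hs : Rd s w) (ht : Rd t w) : G.Adj s t :=
  dsc_clique hst hs ht

lemma exists_rd {w : RACG G} (hw : w ≠ 1) : ∃ s, Rd s w := exists_dsc (inv_ne_one.2 hw)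

/-- the length -/
noncomputable def ln [Fintype V] (w : RACG G) : ℕ := ∑ s, (act w⁻¹ (x0 : St G s)).2.1.length

lemma ln_mul [Fintype V] {s : V} {w : RACG G} (h : ¬ Rd s w) : ln (w * gen G s) = ln w + 1 := by
  unfold ln
  rw [mul_inv_rev, gen_inv, ← Finset.add_sum_erase _ _ (Finset.mem_univ s),
    ← Finset.add_sum_erase _ (fun s => (act w⁻¹ (x0 : St G s)).2.1.length) (Finset.mem_univ s)]
  have h1 : (act (gen G s * w⁻¹) (x0 : St G s)).2.1.length = (act w⁻¹ (x0 : St G s)).2.1.length + 1 := by
    have h2 := length_actA (act w⁻¹ (x0 : St G s))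
    rw [act_mul_self]
    have h3 : ¬ Hd (act w⁻¹ (x0 : St G s)) := h
    rw [if_neg h3, if_neg h3] at h2
    exact h2
  have h2 : ∑ t ∈ Finset.univ.erase s, (act (gen G s * w⁻¹) (x0 : St G t)).2.1.length =
      ∑ t ∈ Finset.univ.erase s, (act w⁻¹ (x0 : St G t)).2.1.length := by
    refine Finset.sum_congr rfl fun t ht => ?_
    rw [act_mul_ne (Ne.symm (Finset.ne_of_mem_erase ht))]
    rfl
  rw [h1, h2]
  omega

lemma ln_mul' [Fintype V] {s : V} {w : RACG G} (h : Rd s w) : ln (w * gen G s) + 1 = ln w := by
  have h1 := ln_mul (w := w * gen G s) (s := s) (by rw [rd_self]; exact fun h2 => h2 h)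
  rw [mul_assoc, gen_mul_gen, mul_one] at h1
  exact h1.symm

end Singer.Racg
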