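import Pool.Agent.Singer.TDefs
import Pool.Agent.Singer.Desc

/-!
# Singer: subgroups of right-angled Coxeter groups

* `finiteIndex_ker2` : the kernel of the homomorphism to `(ℤ/2)^V` has finite index
* `eq_one_of_ab2` : the homomorphism is injective on the group of a clique
* `invol` : an involution is conjugate to an element of the group of a clique
* `fr_ker2`, `NoInv.fr`, `noInv_ker2` : subgroups which act freely on the cells
* `exists_frame` : coordinates for such a subgroup
-/

set_option autoImplicit false
set_option linter.unusedSectionVars false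
set_option linter.unusedVariables false

namespace Singer

universe u

namespace Racg

section length
variable {V : Type*} {G : SimpleGraph V}

/-- the mirror image of `dsc_cross` -/
lemma rd_cross {s r : V} {w : RACG G} (h : ¬ (Rd s (gen G r * w) ↔ Rd s w)) : gen G r * w = w * gen G s := by
  have h1 : w⁻¹ * gen G r = gen G s * w⁻¹ := by
    refine dsc_cross fun h2 => h ?_
    unfold Rd
    rw [mul_inv_rev, gen_inv]
    exact h2
  have h3 := congrArg (fun x => x⁻¹) h1
  simpa only [mul_inv_rev, gen_inv, inv_inv] using h3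

lemma ln_one [Fintype V] : ln (1 : RACG G) = 0 := by
  unfold ln
  refine Finset.sum_eq_zero fun s _ => ?_
  rw [inv_one, map_one]
  rfl

lemma ln_mul_le [Fintype V] (s : V) (w : RACG G) : ln (w * gen G s) ≤ ln w + 1 := by
  by_cases h : Rd s w
  · have := ln_mul' h
    omega
  · exact (ln_mul h).le

lemma ln_wd_le [Fintype V] (l : List V) : ln (wd (G := G) l) ≤ l.length := by
  induction l using List.reverseRecOn with
  | nil => rw [wd_nil, ln_one]; exact Nat.zero_le _
  | append_singleton l v ih =>
    rw [wd_append, wd_cons, wd_nil, mul_one]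
    have := ln_mul_le v (wd (G := G) l)
    simp only [List.length_append, List.length_cons, List.length_nil]
    omega

lemma exists_wd_ln [Fintype V] (w : RACG G) : ∃ l, wd l = w ∧ l.length = ln w := by
  obtain ⟨n, hn⟩ : ∃ n, ln w = n := ⟨_, rfl⟩
  induction n generalizing w with
  | zero =>
    by_cases hw : w = 1
    · exact ⟨[], by rw [wd_nil, hw], by rw [hn]; rfl⟩
    · obtain ⟨s, hs⟩ := exists_rd hw
      have := ln_mul' hs
      omega
  | succ n ih =>
    by_cases hw : w = 1
    · subst hw
      rw [ln_one] at hn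
      omega
    · obtain ⟨s, hs⟩ := exists_rd hw
      have h1 := ln_mul' hs
      obtain ⟨l, h2, h3⟩ := ih (w * gen G s) (by omega)
      refine ⟨l ++ [s], ?_, ?_⟩
      · rw [wd_append, wd_cons, wd_nil, mul_one, h2, mul_assoc, gen_mul_gen, mul_one]
      · rw [List.length_append, h3]
        simp only [List.length_cons, List.length_nil]
        omega

lemma wd_reverse (l : List V) : wd (G := G) l.reverse = (wd l)⁻¹ := by
  induction l with
  | nil => simp
  | cons v l ih => rw [List.reverse_cons, wd_append, wd_cons, wd_nil, mul_one, wd_cons, mul_inv_rev, gen_inv, ih]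

lemma ln_inv_le [Fintype V] (w : RACG G) : ln w⁻¹ ≤ ln w := by
  obtain ⟨l, h1, h2⟩ := exists_wd_ln w
  rw [← h1, ← wd_reverse, h1, ← h2]
  exact (ln_wd_le _).trans (by rw [List.length_reverse])

lemma ln_inv [Fintype V] (w : RACG G) : ln w⁻¹ = ln w :=
  le_antisymm (ln_inv_le w) (by simpa using ln_inv_le w⁻¹)

end length

end Racg

section subgr
variable {V : Type u} {G : SimpleGraph V}

theorem finiteIndex_ker2 [Finite V] (G : SimpleGraph V) : (ker2 G).FiniteIndex := by
  have : Finite (V → Multiplicative (ZMod 2)) := by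
    have : Finite (Multiplicative (ZMod 2)) := inferInstanceAs (Finite (ZMod 2))
    infer_instance
  unfold ker2
  infer_instance

lemma ab2_gen_self (v : V) : ab2 G (Racg.gen G v) v = Multiplicative.ofAdd 1 := by
  unfold ab2
  rw [Racg.lift_gen, if_pos rfl]

lemma ab2_gen_ne {v w : V} (h : w ≠ v) : ab2 G (Racg.gen G v) w = 1 := by
  unfold ab2
  rw [Racg.lift_gen, if_neg h]

lemma ab2_sub {A : Set V} {a : V} (ha : a ∉ A) {u : RACG G} (hu : u ∈ Racg.sub (G := G) A) : ab2 G u a = 1 := by
  have h : Racg.sub (G := G) A ≤ ((Pi.evalMonoidHom (fun _ : V => Multiplicative (ZMod 2)) a).comp (ab2 G)).ker := by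
    refine (Subgroup.closure_le _).2 ?_
    rintro _ ⟨v, hv, rfl⟩
    show ab2 G (Racg.gen G v) a = 1
    exact ab2_gen_ne fun h => ha (h ▸ hv)
  exact h hu

/-- the group of a cone -/
lemma mem_sub_insert {S : Set V} {a : V} (hS : ∀ v ∈ S, G.Adj a v) {u : RACG G}
    (hu : u ∈ Racg.sub (G := G) (insert a S)) :
    u ∈ Racg.sub (G := G) S ∨ Racg.gen G a * u ∈ Racg.sub (G := G) S := by
  have hc : ∀ y ∈ Racg.sub (G := G) S, y * Racg.gen G a = Racg.gen G a * y := fun y hy =>
    Racg.gen_comm_of_mem (Racg.sub_mono (fun v hv => hS v hv) hy)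
  have hinv : ∀ y, Racg.gen G a * (Racg.gen G a * y) = y := fun y => by
    rw [← mul_assoc, Racg.gen_mul_gen, one_mul]
  induction hu using Subgroup.closure_induction with
  | mem y hy =>
    obtain ⟨v, hv, rfl⟩ := hy
    rcases hv with rfl | hv
    · right
      rw [Racg.gen_mul_gen]
      exact Subgroup.one_mem _
    · exact Or.inl (Racg.gen_mem_sub hv)
  | one => exact Or.inl (Subgroup.one_mem _)
  | mul y z _ _ ihy ihz =>
    rcases ihy with hy | hy <;> rcases ihz with hz | hz
    · exact Or.inl (Subgroup.mul_mem _ hy hz)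
    · right
      rw [← mul_assoc, ← hc y hy, mul_assoc]
      exact Subgroup.mul_mem _ hy hz
    · right
      rw [← mul_assoc]
      exact Subgroup.mul_mem _ hy hz
    · left
      have h1 : y * z = (Racg.gen G a * y) * (Racg.gen G a * z) := by
        rw [← mul_assoc (Racg.gen G a * y), hc _ hy, hinv]
      rw [h1]
      exact Subgroup.mul_mem _ hy hz
  | inv y _ ih =>
    rcases ih with hy | hy
    · exact Or.inl (Subgroup.inv_mem _ hy)
    · right
      have h1 : Racg.gen G a * y⁻¹ = (Racg.gen G a * y)⁻¹ := by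
        have h2 := hc _ hy
        rw [hinv] at h2
        rw [mul_inv_rev, Racg.gen_inv]
        have h3 := congrArg (fun x => x⁻¹) h2
        simp only [mul_inv_rev, Racg.gen_inv] at h3
        have h4 : Racg.gen G a * (y⁻¹ * Racg.gen G a) = y⁻¹ := h3
        calc Racg.gen G a * y⁻¹ = Racg.gen G a * (Racg.gen G a * (y⁻¹ * Racg.gen G a)) := by rw [h4]
          _ = y⁻¹ * Racg.gen G a := hinv _
      rw [h1]
      exact Subgroup.inv_mem _ hy

/-- for a clique `S` an element of `W_S` is determined by its image in `(ℤ/2)^V` -/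
theorem eq_one_of_ab2 {S : Finset V} (hS : G.IsClique S) {u : RACG G} (hu : u ∈ Racg.sub (G := G) (S : Set V))
    (h : ab2 G u = 1) : u = 1 := by
  classical
  induction S using Finset.induction_on generalizing u with
  | empty =>
    rw [Finset.coe_empty] at hu
    unfold Racg.sub at hu
    rw [Set.image_empty, Subgroup.closure_empty] at hu
    exact Subgroup.mem_bot.1 hu
  | insert a S ha ih =>
    have hS' : G.IsClique (S : Set V) := hS.subset (by simp)
    have hadj : ∀ v ∈ (S : Set V), G.Adj a v := fun v hv =>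
      hS (by simp) (by simp [Finset.mem_coe.1 hv]) fun h => ha (h ▸ Finset.mem_coe.1 hv)
    rw [Finset.coe_insert] at hu
    rcases mem_sub_insert hadj hu with h1 | h1
    · exact ih hS' h1 h
    · exfalso
      have h2 := ab2_sub (G := G) (a := a) (A := (S : Set V)) (by simpa using ha) h1
      rw [map_mul, h, mul_one, ab2_gen_self] at h2
      exact absurd h2 (by decide)

theorem finite_sub {S : Finset V} (hS : G.IsClique S) : Finite (Racg.sub (G := G) (S : Set V)) := by
  classical
  have : Finite (Multiplicative (ZMod 2)) := inferInstanceAs (Finite (ZMod 2))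
  refine Finite.of_injective (fun (u : Racg.sub (G := G) (S : Set V)) (v : S) => ab2 G u v) ?_
  intro u u' h
  have h1 : (u : RACG G)⁻¹ * u' = 1 := by
    refine eq_one_of_ab2 hS (Subgroup.mul_mem _ (Subgroup.inv_mem _ u.2) u'.2) ?_
    funext v
    rw [map_mul, map_inv, Pi.mul_apply, Pi.inv_apply, Pi.one_apply]
    by_cases hv : v ∈ S
    · have h2 := congrFun h ⟨v, hv⟩
      dsimp only at h2
      rw [h2, inv_mul_cancel]
    · rw [ab2_sub (A := (S : Set V)) (by simpa using hv) u.2, ab2_sub (A := (S : Set V)) (by simpa using hv) u'.2]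
      simp
  exact Subtype.ext (inv_mul_eq_one.1 h1)

theorem fr_ker2 (G : SimpleGraph V) : Fr (ker2 G) := by
  intro S hS w h hh hw
  have h1 : ab2 G (w⁻¹ * h * w) = 1 := by
    rw [map_mul, map_mul, map_inv, (MonoidHom.mem_ker).1 hh, mul_one, inv_mul_cancel]
  have h2 := eq_one_of_ab2 hS hw h1
  have h3 : h = w * (w⁻¹ * h * w) * w⁻¹ := by group
  rw [h3, h2]
  group

lemma sq_eq_one {S : Finset V} (hS : G.IsClique S) {u : RACG G} (hu : u ∈ Racg.sub (G := G) (S : Set V)) :
    u * u = 1 := by
  refine eq_one_of_ab2 hS (Subgroup.mul_mem _ hu hu) ?_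
  funext v
  rw [map_mul, Pi.mul_apply, Pi.one_apply]
  generalize ab2 G u v = x
  revert x
  decide

theorem NoInv.fr {H : Subgroup (RACG G)} (h : NoInv H) : Fr H := by
  intro S hS w k hk hw
  refine h k hk ?_
  have h1 := sq_eq_one hS hw
  have h2 : k * k = w * ((w⁻¹ * k * w) * (w⁻¹ * k * w)) * w⁻¹ := by group
  rw [h2, h1]
  group

open Racg in
/-- an involution which commutes with its right descents is a product of its right descents -/
lemma mem_sub_rd [Fintype V] {w : RACG G} (h : w * w = 1) (hc : ∀ s, Rd s w → gen G s * w = w * gen G s) :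
    w ∈ Racg.sub (G := G) {s | Rd s w} := by
  obtain ⟨n, hn⟩ : ∃ n, ln w = n := ⟨_, rfl⟩
  induction n generalizing w with
  | zero =>
    by_cases hw : w = 1
    · rw [hw]; exact Subgroup.one_mem _
    · obtain ⟨s, hs⟩ := exists_rd hw
      have := ln_mul' hs
      omega
  | succ n ih =>
    have hw : w ≠ 1 := fun hw => by
      subst hw
      rw [ln_one] at hn
      omega
    obtain ⟨s, hs⟩ := exists_rd hw
    have hln := ln_mul' hs
    have hcs := hc s hs
    have hinv : w⁻¹ = w := inv_eq_of_mul_eq_one_left h
    -- the shorter involution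
    have h1 : (w * gen G s) * (w * gen G s) = 1 := by
      calc w * gen G s * (w * gen G s) = w * (gen G s * w) * gen G s := by simp only [mul_assoc]
        _ = w * w * (gen G s * gen G s) := by rw [hcs]; simp only [mul_assoc]
        _ = 1 := by rw [h, gen_mul_gen, one_mul]
    have hsub : ∀ t, Rd t (w * gen G s) → Rd t w := by
      intro t ht
      by_contra hnt
      have h2 : gen G s * (w * gen G s) = w := by
        rw [← mul_assoc, hcs, mul_assoc, gen_mul_gen, mul_one]
      have h3 := rd_cross (s := t) (r := s) (w := w * gen G s) (by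
        rw [h2]
        exact fun h4 => hnt (h4.2 ht))
      rw [h2] at h3
      have h4 := ln_mul' ht
      rw [← h3] at h4
      omega
    have hadj : ∀ t, Rd t (w * gen G s) → G.Adj s t := by
      intro t ht
      have hts : s ≠ t := by
        rintro rfl
        exact (rd_self s w).1 ht hs
      exact rd_clique hts hs (hsub t ht)
    have h2 : w * gen G s ∈ Racg.sub (G := G) {t | Rd t (w * gen G s)} := by
      refine ih h1 (fun t ht => ?_) (by omega)
      rw [← mul_assoc, hc t (hsub t ht), mul_assoc, ← gen_comm (hadj t ht), mul_assoc]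
    have h3 : w = w * gen G s * gen G s := by rw [mul_assoc, gen_mul_gen, mul_one]
    rw [h3]
    refine Subgroup.mul_mem _ (Racg.sub_mono (fun t ht => ?_) h2) (Racg.gen_mem_sub ?_)
    · show Rd t (w * gen G s * gen G s)
      rw [← h3]
      exact hsub t ht
    · show Rd s (w * gen G s * gen G s)
      rw [← h3]
      exact hs

open Racg in
/-- an involution of the right-angled Coxeter group is conjugate to an element of `W_S` for a clique `S` -/
theorem invol [Finite V] {w : RACG G} (h : w * w = 1) :
    ∃ (S : Finset V) (g : RACG G), G.IsClique S ∧ g⁻¹ * w * g ∈ Racg.sub (G := G) (S : Set V) := by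
  classical
  have := Fintype.ofFinite V
  obtain ⟨n, hn⟩ : ∃ n, ln w = n := ⟨_, rfl⟩
  induction n using Nat.strong_induction_on generalizing w with
  | _ n ih =>
    by_cases hc : ∀ s, Rd s w → gen G s * w = w * gen G s
    · refine ⟨Finset.univ.filter fun s => Rd s w, 1, ?_, ?_⟩
      · intro s hs t ht hst
        exact rd_clique hst (Finset.mem_filter.1 (Finset.mem_coe.1 hs)).2 (Finset.mem_filter.1 (Finset.mem_coe.1 ht)).2
      · rw [inv_one, one_mul, mul_one]
        have h1 : ((Finset.univ.filter fun s => Rd s w : Finset V) : Set V) = {s | Rd s w} := by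
          ext s
          simp
        rw [h1]
        exact mem_sub_rd h hc
    · push Not at hc
      obtain ⟨s, hs, hne⟩ := hc
      have hinv : w⁻¹ = w := inv_eq_of_mul_eq_one_left h
      have h1 : ln (w * gen G s) + 1 = ln w := ln_mul' hs
      -- `s` is a right descent of `s * w`
      have h2 : Rd s (gen G s * w) := by
        by_contra h3
        exact hne (rd_cross (s := s) (r := s) fun h4 => h3 (h4.2 hs))
      have h3 := ln_mul' h2
      have h4 : ln (gen G s * w) = ln (w * gen G s) := by
        rw [← ln_inv (w * gen G s), mul_inv_rev, gen_inv, hinv]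
      have h5 : (gen G s * w * gen G s) * (gen G s * w * gen G s) = 1 := by
        have : (gen G s * w * gen G s) * (gen G s * w * gen G s) =
            gen G s * w * (gen G s * gen G s) * w * gen G s := by group
        rw [this, gen_mul_gen, mul_one, mul_assoc (gen G s), h, mul_one, gen_mul_gen]
      obtain ⟨S, g, hS, hg⟩ := ih (ln (gen G s * w * gen G s)) (by omega) h5 rfl
      refine ⟨S, gen G s * g, hS, ?_⟩
      have h6 : (gen G s * g)⁻¹ * w * (gen G s * g) = g⁻¹ * (gen G s * w * gen G s) * g := by
        rw [mul_inv_rev, gen_inv]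
        group
      rw [h6]
      exact hg

theorem noInv_ker2 [Finite V] (G : SimpleGraph V) : NoInv (ker2 G) := by
  intro h hh h2
  obtain ⟨S, g, hS, hg⟩ := invol h2
  exact fr_ker2 G S hS g h hh hg

/-- the double cosets of a subgroup and a special subgroup -/
def dcSetoid (H : Subgroup (RACG G)) (S : Finset V) : Setoid (RACG G) where
  r x y := ∃ h ∈ H, ∃ u ∈ Racg.sub (G := G) (S : Set V), y = h * x * u
  iseqv := by
    refine ⟨fun x => ⟨1, H.one_mem, 1, Subgroup.one_mem _, by simp⟩, ?_, ?_⟩
    · rintro x y ⟨h, hh, u, hu, rfl⟩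
      exact ⟨h⁻¹, H.inv_mem hh, u⁻¹, Subgroup.inv_mem _ hu, by group⟩
    · rintro x y z ⟨h, hh, u, hu, rfl⟩ ⟨h', hh', u', hu', rfl⟩
      exact ⟨h' * h, H.mul_mem hh' hh, u * u', Subgroup.mul_mem _ hu hu', by group⟩

lemma finite_dc (H : Subgroup (RACG G)) [H.FiniteIndex] (S : Finset V) : Finite (Quotient (dcSetoid H S)) := by
  have : Finite (RACG G ⧸ H) := inferInstance
  refine Finite.of_surjective (α := RACG G ⧸ H)
    (Quotient.lift (fun g : RACG G => (Quotient.mk (dcSetoid H S) g⁻¹)) ?_) ?_
  · intro a b hab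
    have h1 : a⁻¹ * b ∈ H := QuotientGroup.leftRel_apply.1 hab
    refine Quotient.sound ⟨b⁻¹ * a, ?_, 1, Subgroup.one_mem _, by group⟩
    have h2 : b⁻¹ * a = (a⁻¹ * b)⁻¹ := by group
    rw [h2]
    exact H.inv_mem h1
  · intro q
    induction q using Quotient.inductionOn with
    | h g => exact ⟨((g⁻¹ : RACG G) : RACG G ⧸ H), by
        show Quotient.mk (dcSetoid H S) (g⁻¹)⁻¹ = _
        rw [inv_inv]⟩

theorem exists_frame [Finite V] {H : Subgroup (RACG G)} [H.FiniteIndex] (h : Fr H) : Nonempty (Frame H) := by
  classical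
  have hfin : ∀ S : Finset V, Finite (Quotient (dcSetoid H S)) := finite_dc H
  have hbij : ∀ S : Finset V, G.IsClique S → Function.Bijective
      (fun x : H × Quotient (dcSetoid H S) × Racg.sub (G := G) (S : Set V) =>
        (x.1 : RACG G) * x.2.1.out * (x.2.2 : RACG G)) := by
    intro S hS
    constructor
    · rintro ⟨k, o, x⟩ ⟨k', o', x'⟩ he
      dsimp only at he
      have ho : o = o' := by
        rw [← Quotient.out_eq o, ← Quotient.out_eq o']
        refine Quotient.sound ⟨(k' : RACG G)⁻¹ * k, H.mul_mem (H.inv_mem k'.2) k.2, (x : RACG G) * (x' : RACG G)⁻¹,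
          Subgroup.mul_mem _ x.2 (Subgroup.inv_mem _ x'.2), ?_⟩
        have h1 : (k' : RACG G)⁻¹ * k * o.out * ((x : RACG G) * (x' : RACG G)⁻¹) =
            (k' : RACG G)⁻¹ * (k * o.out * x) * (x' : RACG G)⁻¹ := by group
        rw [h1, he]
        group
      subst ho
      have hk : (k' : RACG G)⁻¹ * k = 1 := by
        refine h S hS o.out _ (H.mul_mem (H.inv_mem k'.2) k.2) ?_
        have h1 : o.out⁻¹ * ((k' : RACG G)⁻¹ * k) * o.out = (x' : RACG G) * (x : RACG G)⁻¹ := by
          have h2 : (k : RACG G) * o.out = k' * o.out * x' * (x : RACG G)⁻¹ := by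
            rw [← he]
            group
          have h3 : o.out⁻¹ * ((k' : RACG G)⁻¹ * k) * o.out = o.out⁻¹ * (k' : RACG G)⁻¹ * (k * o.out) := by group
          rw [h3, h2]
          group
        rw [h1]
        exact Subgroup.mul_mem _ x'.2 (Subgroup.inv_mem _ x.2)
      have hk' : k' = k := Subtype.ext (inv_mul_eq_one.1 hk)
      subst hk'
      have hx : x = x' := Subtype.ext (mul_left_cancel he)
      rw [hx]
    · intro g
      obtain ⟨a, ha, b, hb, hab⟩ := Quotient.exact (Quotient.out_eq (Quotient.mk (dcSetoid H S) g))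
      exact ⟨(⟨a, ha⟩, Quotient.mk _ g, ⟨b, hb⟩), hab.symm⟩
  exact ⟨{
    O := fun S => Quotient (dcSetoid H S)
    fin := fun S => by
      have := hfin S
      exact Fintype.ofFinite _
    t := fun S o => o.out
    e := fun S hS => Equiv.ofBijective _ (hbij S hS)
    e_apply := fun S hS k o u => rfl }⟩

end subgr

end Singer
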