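import Pool.Agent.Singer.FinRes
import Pool.Agent.Singer.PD

/-!
# Singer: the Davis complex gives a finite free resolution

`exists_finRes` : a subgroup with a `Frame` has a resolution of finite length by finitely generated free modules.
-/

set_option autoImplicit false
set_option linter.unusedSectionVars false
set_option linter.unusedVariables false

open scoped Matrix

namespace Singer

universe u

section lin
variable {Γ : Type u} [Group Γ]

/-- a linear map of free left modules is given by a matrix which acts on rows -/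
lemma lin_eq_vecMul {ι κ : Type*} [Fintype ι] [DecidableEq ι] [Fintype κ]
    (φ : (ι → ZG Γ) →ₗ[ZG Γ] (κ → ZG Γ)) (x : ι → ZG Γ) :
    x ᵥ* (Matrix.of fun i j => φ (Pi.single i 1) j) = φ x := by
  conv_rhs => rw [pi_eq_sum_univ' x]
  rw [map_sum]
  funext j
  rw [Finset.sum_apply]
  show ∑ i, x i * _ = _
  refine Finset.sum_congr rfl fun i _ => ?_
  rw [map_smul, Pi.smul_apply, smul_eq_mul, Matrix.of_apply]

/-- an invariant additive map is an augmentation -/
lemma aug_eq_augw {ι : Type*} [Fintype ι] [DecidableEq ι] (a : (ι → ZG Γ) →+ ℤ)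
    (ha : ∀ (g : Γ) (x : ι → ZG Γ), a (MonoidAlgebra.single g (1 : ℤ) • x) = a x) (x : ι → ZG Γ) :
    augw (fun i => a (Pi.single i 1)) x = a x := by
  have key : ∀ (i : ι) (b : ZG Γ), a (b • Pi.single i 1) = a (Pi.single i 1) * ∑ g ∈ b.coeff.support, b.coeff g := by
    intro i b
    have hb : b = ∑ g ∈ b.coeff.support, b.coeff g • MonoidAlgebra.single g (1 : ℤ) := by
      apply MonoidAlgebra.coeff_injective
      rw [MonoidAlgebra.coeff_sum]
      conv_lhs => rw [← Finsupp.sum_single b.coeff]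
      unfold Finsupp.sum
      refine Finset.sum_congr rfl fun g _ => ?_
      rw [MonoidAlgebra.smul_single, smul_eq_mul, mul_one]
      rfl
    conv_lhs => rw [hb]
    rw [Finset.sum_smul, map_sum, Finset.mul_sum]
    refine Finset.sum_congr rfl fun g _ => ?_
    rw [smul_assoc, map_zsmul, ha, smul_eq_mul, mul_comm]
  conv_rhs => rw [pi_eq_sum_univ' x]
  rw [map_sum]
  unfold augw
  refine Finset.sum_congr rfl fun i _ => ?_
  rw [key]

end lin

/-- from linear maps between based free modules to matrices -/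
theorem finRes_of_lin {Γ : Type u} [Group Γ] (κ : ℕ → Type u) [∀ i, Fintype (κ i)]
    (d : ∀ i, (κ (i + 1) → ZG Γ) →ₗ[ZG Γ] (κ i → ZG Γ)) (a : (κ 0 → ZG Γ) →+ ℤ)
    (ha : ∀ (g : Γ) (x : κ 0 → ZG Γ), a (MonoidAlgebra.single g (1 : ℤ) • x) = a x) (hs : Function.Surjective a)
    (h0 : ∀ x, a x = 0 ↔ ∃ y, d 0 y = x) (h1 : ∀ i x, d i x = 0 ↔ ∃ y, d (i + 1) y = x) :
    ∃ R : FinRes Γ, ∀ i, IsEmpty (κ i) → IsEmpty (R.ι i) := by
  classical
  let e : ∀ i, κ i ≃ Fin (Fintype.card (κ i)) := fun i => Fintype.equivFin (κ i)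
  -- reindexing
  let E : ∀ i, (Fin (Fintype.card (κ i)) → ZG Γ) ≃ₗ[ZG Γ] (κ i → ZG Γ) := fun i =>
    LinearEquiv.funCongrLeft (ZG Γ) (ZG Γ) (e i)
  let d' : ∀ i, (Fin (Fintype.card (κ (i + 1))) → ZG Γ) →ₗ[ZG Γ] (Fin (Fintype.card (κ i)) → ZG Γ) := fun i =>
    ((E i).symm.toLinearMap.comp (d i)).comp (E (i + 1)).toLinearMap
  have hd' : ∀ i x, E i (d' i x) = d i (E (i + 1) x) := fun i x => (E i).apply_symm_apply _
  let a' : (Fin (Fintype.card (κ 0)) → ZG Γ) →+ ℤ := a.comp (E 0).toLinearMap.toAddMonoidHom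
  have ha' : ∀ x, a' x = a (E 0 x) := fun x => rfl
  have ha1 : ∀ (g : Γ) (x), a' (MonoidAlgebra.single g (1 : ℤ) • x) = a' x := fun g x => by
    rw [ha', ha', map_smul, ha]
  have ex0 : ∀ x, a' x = 0 ↔ ∃ y, d' 0 y = x := by
    intro x
    rw [ha', h0]
    constructor
    · rintro ⟨y, hy⟩
      refine ⟨(E 1).symm y, (E 0).injective ?_⟩
      rw [hd' 0, ← hy]
      exact congrArg (d 0) ((E 1).apply_symm_apply y)
    · rintro ⟨y, rfl⟩
      exact ⟨E 1 y, (hd' 0 y).symm⟩
  have ex1 : ∀ i x, d' i x = 0 ↔ ∃ y, d' (i + 1) y = x := by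
    intro i x
    have h2 : d' i x = 0 ↔ d i (E (i + 1) x) = 0 := by
      rw [← hd']
      exact ((E i).map_eq_zero_iff).symm
    rw [h2, h1]
    constructor
    · rintro ⟨y, hy⟩
      refine ⟨(E (i + 2)).symm y, (E (i + 1)).injective ?_⟩
      rw [hd' (i + 1), ← hy]
      exact congrArg (d (i + 1)) ((E (i + 2)).apply_symm_apply y)
    · rintro ⟨y, rfl⟩
      exact ⟨E (i + 2) y, (hd' (i + 1) y).symm⟩
  refine ⟨{ ι := fun i => Fin (Fintype.card (κ i))
            ft := fun i => inferInstance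
            d := fun i => Matrix.of fun k l => d' i (Pi.single k 1) l
            w := fun k => a' (Pi.single k 1)
            surj := ?_
            exact_zero := ?_
            exact_succ := ?_ }, ?_⟩
  · obtain ⟨x, hx⟩ := hs 1
    refine ⟨(E 0).symm x, ?_⟩
    rw [aug_eq_augw a' ha1, ha', LinearEquiv.apply_symm_apply, hx]
  · intro x
    rw [aug_eq_augw a' ha1, ex0]
    constructor
    · rintro ⟨y, hy⟩
      exact ⟨y, by rw [← hy]; exact lin_eq_vecMul (d' 0) y⟩
    · rintro ⟨y, hy⟩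
      exact ⟨y, by rw [← hy]; exact (lin_eq_vecMul (d' 0) y).symm⟩
  · intro i x
    rw [lin_eq_vecMul (d' i) x, ex1]
    constructor
    · rintro ⟨y, hy⟩
      exact ⟨y, by rw [← hy]; exact lin_eq_vecMul (d' (i + 1)) y⟩
    · rintro ⟨y, hy⟩
      exact ⟨y, by rw [← hy]; exact (lin_eq_vecMul (d' (i + 1)) y).symm⟩
  · intro i hi
    show IsEmpty (Fin (Fintype.card (κ i)))
    rw [Fintype.card_eq_zero_iff.2 hi]
    infer_instance

theorem exists_finRes {V : Type u} [Fintype V] [DecidableEq V] {G : SimpleGraph V} {H : Subgroup (RACG G)} (F : Frame H)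
    {r : V → ℕ} (hr : Function.Injective r) : ∃ R : FinRes H, ∀ i, Fintype.card V < i → IsEmpty (R.ι i) := by
  classical
  obtain ⟨R, hR⟩ := finRes_of_lin (Γ := H) (fun i => F.J i) (fun i => F.dd r i) F.ag (pdRes F hr).aug_smul
    (pdRes F hr).aug_surj (pdRes F hr).exact_zero (pdRes F hr).exact_succ
  refine ⟨R, fun i hi => hR i ⟨fun j => ?_⟩⟩
  have h1 := j.1.2.2
  have h2 := Finset.card_le_univ j.1.1
  omega

end Singer
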