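import Pool.Agent.Singer.Fam
import Pool.Agent.Singer.LinksQ

/-!
# Singer: the sphere condition is closed under the moves; facets
-/

set_option autoImplicit false
set_option linter.unusedSectionVars false
set_option linter.unusedVariables false

namespace Singer

universe u

/-! ### Families on `V` and on `Option V` -/

section fams
variable {V V' : Type*} [DecidableEq V] [DecidableEq V'] {M : Type*} [AddCommGroup M] {r : V → ℕ}

/-- transport along an embedding -/
theorem acy_pull (j : V' ↪ V) {D : Set (Finset V)} {D' : Set (Finset V')} (h1 : ∀ S, S ∈ D' ↔ S.map j ∈ D)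
    (h2 : ∀ S ∈ D, ∀ x ∈ S, ∃ y, j y = x) : Acy M (fun v => r (j v)) D' ↔ Acy M r D := by
  rw [acy_map]
  have h3 : ((fun S => S.map j) '' D') = D := by
    ext S
    constructor
    · rintro ⟨S', hS', rfl⟩
      exact (h1 S').1 hS'
    · intro hS
      have h4 : (S.preimage j j.injective.injOn).map j = S := by
        ext x
        rw [Finset.mem_map]
        constructor
        · rintro ⟨y, hy, rfl⟩
          exact Finset.mem_preimage.1 hy
        · intro hx
          obtain ⟨y, rfl⟩ := h2 S hS x hx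
          exact ⟨y, Finset.mem_preimage.2 hx, rfl⟩
      exact ⟨S.preimage j j.injective.injOn, (h1 _).2 (h4.symm ▸ hS), h4⟩
  rw [h3]

/-- lower sets of finite sets are convex -/
theorem cvx_of_lower {D : Set (Finset V)} (h : ∀ S ∈ D, ∀ T ⊆ S, T ∈ D) : Cvx D :=
  fun S _ T hT R _ hRT => h T hT R hRT

/-- families on `Option V`: `P` for the sets without `none`, `Q` for the sets with `none` -/
def opt (P Q : Set (Finset V)) : Set (Finset (Option V)) :=
  {S | (none ∉ S → Finset.eraseNone S ∈ P) ∧ (none ∈ S → Finset.eraseNone S ∈ Q)}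

theorem eraseNone_map_some (S : Finset V) : Finset.eraseNone (S.map Function.Embedding.some) = S := by
  ext x
  simp

theorem map_some_eraseNone {S : Finset (Option V)} (h : none ∉ S) :
    (Finset.eraseNone S).map Function.Embedding.some = S := by
  ext x
  cases x with
  | none => simp [h]
  | some x => simp

theorem opt_low {P : Set (Finset V)} {r : Option V → ℕ} :
    Acy M r {S | none ∉ S ∧ Finset.eraseNone S ∈ P} ↔ Acy M (fun v => r (some v)) P := by
  refine (acy_pull (r := r) Function.Embedding.some ?_ ?_).symm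
  · intro S
    change _ ↔ none ∉ S.map Function.Embedding.some ∧ Finset.eraseNone (S.map Function.Embedding.some) ∈ P
    rw [eraseNone_map_some]
    simp
  · rintro S ⟨hS, _⟩ x hx
    cases x with
    | none => exact absurd hx hS
    | some x => exact ⟨x, rfl⟩

theorem opt_high {Q : Set (Finset V)} {r : Option V → ℕ} (hr : Function.Injective r)
    (h : Acy M (fun v => r (some v)) Q) : Acy M r {S | none ∈ S ∧ Finset.eraseNone S ∈ Q} := by
  have h1 := acy_shift hr (v := none) (D := {S | none ∉ S ∧ Finset.eraseNone S ∈ Q}) (fun S hS => hS.1)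
    (opt_low.2 h)
  have h2 : ((fun S => insert none S) '' {S | none ∉ S ∧ Finset.eraseNone S ∈ Q}) =
      {S | none ∈ S ∧ Finset.eraseNone S ∈ Q} := by
    ext S
    constructor
    · rintro ⟨T, ⟨hT, hTQ⟩, rfl⟩
      refine ⟨Finset.mem_insert_self _ _, ?_⟩
      have : Finset.eraseNone (insert none T) = Finset.eraseNone T := by
        ext x
        simp
      rwa [this]
    · rintro ⟨hS, hSQ⟩
      refine ⟨S.erase none, ⟨Finset.notMem_erase _ _, ?_⟩, Finset.insert_erase hS⟩
      have : Finset.eraseNone (S.erase none) = Finset.eraseNone S := by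
        ext x
        simp
      rwa [this]
  rwa [h2] at h1

/-- an extension of the rank to `Option V` -/
theorem exists_rank [Fintype V] (hr : Function.Injective r) :
    ∃ r' : Option V → ℕ, Function.Injective r' ∧ (fun v => r' (some v)) = r := by
  refine ⟨fun o => o.elim (Finset.univ.sup r + 1) r, ?_, rfl⟩
  have h1 : ∀ v, r v < Finset.univ.sup r + 1 := fun v => Nat.lt_succ_of_le (Finset.le_sup (Finset.mem_univ v))
  rintro (_ | x) (_ | y) h
  · rfl
  · exact absurd h (ne_of_gt (h1 y))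
  · exact absurd h (ne_of_lt (h1 x))
  · exact congrArg some (hr h)

/-- **the exchange lemma**: if `Q` is acyclic and the inclusion `Q' ⊆ P'` induces an isomorphism (the family `opt P' Q'`
is acyclic), and `P - P' = Q - Q'`, then `P` is acyclic -/
theorem acy_exchange [Fintype V] (hr : Function.Injective r) {P Q P' Q' : Set (Finset V)}
    (hP : ∀ S ∈ P, ∀ T ⊆ S, T ∈ P) (hQ : ∀ S ∈ Q, ∀ T ⊆ S, T ∈ Q) (hP' : ∀ S ∈ P', ∀ T ⊆ S, T ∈ P')
    (hQ' : ∀ S ∈ Q', ∀ T ⊆ S, T ∈ Q') (hQP : Q ⊆ P) (hQP' : Q' ⊆ P') (h1 : P' ⊆ P) (h2 : Q' ⊆ Q)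
    (h3 : ∀ S, S ∈ P → S ∉ P' → S ∈ Q) (h4 : ∀ S ∈ Q, S ∉ Q' → S ∉ P') (hAQ : Acy M r Q)
    (hA : ∀ r' : Option V → ℕ, Function.Injective r' → Acy M r' (opt P' Q')) : Acy M r P := by
  obtain ⟨r', hr', hrr⟩ := exists_rank hr
  rw [← hrr] at hAQ ⊢
  rw [← opt_low (r := r')]
  have hsub : ∀ {S T : Finset (Option V)}, S ⊆ T → Finset.eraseNone S ⊆ Finset.eraseNone T := by
    intro S T h x hx
    rw [Finset.mem_eraseNone] at hx ⊢
    exact h hx
  have hcvx : Cvx (opt P Q) := by
    refine cvx_of_lower ?_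
    rintro S ⟨hS1, hS2⟩ T hT
    refine ⟨fun h => ?_, fun h => hQ _ (hS2 (hT h)) _ (hsub hT)⟩
    by_cases h5 : none ∈ S
    · exact hP _ (hQP (hS2 h5)) _ (hsub hT)
    · exact hP _ (hS1 h5) _ (hsub hT)
  -- the big family is acyclic
  have hX : Acy M r' (opt P Q) := by
    refine acy_add hr' (D₁ := opt P' Q') (D₂ := opt P Q \ opt P' Q') ⟨hcvx, ?_, ?_⟩ (hA r' hr') ?_
    · intro S
      constructor
      · intro hS
        by_cases h5 : S ∈ opt P' Q'
        · exact Or.inl h5
        · exact Or.inr ⟨hS, h5⟩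
      · rintro (hS | hS)
        · exact ⟨fun h => h1 (hS.1 h), fun h => h2 (hS.2 h)⟩
        · exact hS.1
    · rintro S ⟨hS1, hS2⟩ T hT hTS
      refine hT.2 ⟨fun h => ?_, fun h => hQ' _ (hS2 (hTS h)) _ (hsub hTS)⟩
      by_cases h5 : none ∈ S
      · exact hP' _ (hQP' (hS2 h5)) _ (hsub hTS)
      · exact hP' _ (hS1 h5) _ (hsub hTS)
    · refine acy_cone hr' none fun S hS => ?_
      have h5 : Finset.eraseNone (insert none S) = Finset.eraseNone S := by
        ext x
        simp
      have h6 : none ∈ insert (none : Option V) S := Finset.mem_insert_self _ _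
      constructor
      · rintro ⟨⟨hS1, _⟩, hS2⟩
        have h7 : Finset.eraseNone S ∉ P' := fun h => hS2 ⟨fun _ => h, fun h' => absurd h' hS⟩
        have h8 := h3 _ (hS1 hS) h7
        refine ⟨⟨fun h => absurd h6 h, fun _ => h5.symm ▸ h8⟩, fun h => h7 ?_⟩
        have h9 := h.2 h6
        rw [h5] at h9
        exact hQP' h9
      · rintro ⟨⟨_, hS1⟩, hS2⟩
        have h7 := hS1 h6
        rw [h5] at h7
        have h8 : Finset.eraseNone S ∉ Q' := fun h => hS2 ⟨fun h' => absurd h6 h', fun _ => h5.symm ▸ h⟩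
        exact ⟨⟨fun _ => hQP h7, fun h => absurd h hS⟩, fun h => h4 _ h7 h8 (h.1 hS)⟩
  refine acy_low hr' (D := opt P Q) (D₂ := {S | none ∈ S ∧ Finset.eraseNone S ∈ Q}) ⟨hcvx, ?_, ?_⟩ hX
    (opt_high hr' hAQ)
  · intro S
    constructor
    · rintro ⟨hS1, hS2⟩
      by_cases h5 : none ∈ S
      · exact Or.inr ⟨h5, hS2 h5⟩
      · exact Or.inl ⟨h5, hS1 h5⟩
    · rintro (⟨hS1, hS2⟩ | ⟨hS1, hS2⟩)
      · exact ⟨fun _ => hS2, fun h => absurd h hS1⟩
      · exact ⟨fun h => absurd hS1 h, fun _ => hS2⟩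
  · rintro S ⟨hS1, _⟩ T ⟨hT1, _⟩ hTS
    exact hS1 (hTS hT1)

end fams

/-! ### The cap -/

section caps
variable {V : Type*} [Fintype V] [DecidableEq V] {r : V → ℕ}

/-- the embedding of the vertices of the cap -/
def jK (K : Finset V) : Option {v // v ∈ K} ↪ Option V := (Function.Embedding.subtype _).optionMap

theorem mem_part {K : Finset V} {S : Finset (Option {v // v ∈ K})} {x : V} :
    x ∈ Finset.eraseNone (S.map (jK K)) ↔ ∃ h : x ∈ K, some ⟨x, h⟩ ∈ S := by
  rw [Finset.mem_eraseNone, Finset.mem_map]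
  constructor
  · rintro ⟨_ | y, hy, h⟩
    · exact absurd h (by simp [jK])
    · have h1 : (y : V) = x := Option.some.inj h
      subst h1
      exact ⟨y.2, hy⟩
  · rintro ⟨h, h1⟩
    exact ⟨some ⟨x, h⟩, h1, rfl⟩

theorem none_mem_map {K : Finset V} {S : Finset (Option {v // v ∈ K})} : none ∈ S.map (jK K) ↔ none ∈ S := by
  rw [Finset.mem_map]
  constructor
  · rintro ⟨_ | y, hy, h⟩
    · exact hy
    · exact absurd h (by simp [jK])
  · intro h
    exact ⟨none, h, rfl⟩

theorem cap_isClique_iff {G : SimpleGraph V} {K B : Finset V} {S : Finset (Option {v // v ∈ K})} :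
    (cap G K B).IsClique (S : Set (Option {v // v ∈ K})) ↔
      G.IsClique (Finset.eraseNone (S.map (jK K)) : Set V) ∧
        (none ∈ S → ∀ x ∈ Finset.eraseNone (S.map (jK K)), x ∈ B) := by
  constructor
  · intro h
    constructor
    · intro x hx y hy hxy
      obtain ⟨hxK, hx⟩ := mem_part.1 (Finset.mem_coe.1 hx)
      obtain ⟨hyK, hy⟩ := mem_part.1 (Finset.mem_coe.1 hy)
      exact h (Finset.mem_coe.2 hx) (Finset.mem_coe.2 hy) fun h1 => hxy (Subtype.mk.inj (Option.some.inj h1))
    · intro h0 x hx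
      obtain ⟨hxK, hx⟩ := mem_part.1 hx
      exact h (Finset.mem_coe.2 h0) (Finset.mem_coe.2 hx) (by simp)
  · rintro ⟨h1, h2⟩ (_ | x) hx (_ | y) hy hxy
    · exact absurd rfl hxy
    · exact h2 (Finset.mem_coe.1 hx) _ (mem_part.2 ⟨y.2, Finset.mem_coe.1 hy⟩)
    · exact h2 (Finset.mem_coe.1 hy) _ (mem_part.2 ⟨x.2, Finset.mem_coe.1 hx⟩)
    · exact h1 (Finset.mem_coe.2 (mem_part.2 ⟨x.2, Finset.mem_coe.1 hx⟩))
        (Finset.mem_coe.2 (mem_part.2 ⟨y.2, Finset.mem_coe.1 hy⟩)) fun h => hxy (congrArg some (Subtype.ext h))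

/-- the cliques in `K` which do not meet `σ` -/
def CK (G : SimpleGraph V) (K σ : Finset V) : Set (Finset V) := {S | G.IsClique S ∧ S ⊆ K ∧ Disjoint S σ}

theorem lower_CK {G : SimpleGraph V} {K σ : Finset V} : ∀ S ∈ CK G K σ, ∀ T ⊆ S, T ∈ CK G K σ :=
  fun S hS T hT => ⟨hS.1.subset (Finset.coe_subset.2 hT), hT.trans hS.2.1, hS.2.2.mono_left hT⟩

/-- the complement of a clique of `K` in the cap -/
theorem acy_cap {G : SimpleGraph V} {K B : Finset V} (hBK : B ⊆ K)
    (h : ∀ σ : Finset (Option {v // v ∈ K}), σ.Nonempty → (cap G K B).IsClique σ →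
      ∀ r : Option {v // v ∈ K} → ℕ, Function.Injective r → Acy ℤ r (Clq (cap G K B) σ))
    {σ : Finset V} (hσ : σ.Nonempty) (hσK : σ ⊆ K) (hc : G.IsClique σ) {r' : Option V → ℕ}
    (hr : Function.Injective r') : Acy ℤ r' (opt (CK G K σ) (CK G B σ)) := by
  have h0 : ∀ x : Option {v // v ∈ K}, x ∈ (σ.subtype (fun v => v ∈ K)).map Function.Embedding.some ↔
      ∃ h : {v // v ∈ K}, x = some h ∧ (h : V) ∈ σ := by
    intro x
    rw [Finset.mem_map]
    constructor
    · rintro ⟨y, hy, rfl⟩
      exact ⟨y, rfl, Finset.mem_subtype.1 hy⟩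
    · rintro ⟨y, rfl, hy⟩
      exact ⟨y, Finset.mem_subtype.2 hy, rfl⟩
  have h1 := h ((σ.subtype (fun v => v ∈ K)).map Function.Embedding.some) ?_ ?_ (fun v => r' (jK K v))
    (hr.comp (jK K).injective)
  · refine (acy_pull (r := r') (jK K) ?_ ?_).1 h1
    · intro S
      have h2 : Disjoint S ((σ.subtype (fun v => v ∈ K)).map Function.Embedding.some) ↔
          Disjoint (Finset.eraseNone (S.map (jK K))) σ := by
        rw [Finset.disjoint_left, Finset.disjoint_left]
        constructor
        · intro h3 x hx hxσ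
          obtain ⟨hxK, hx⟩ := mem_part.1 hx
          exact h3 hx ((h0 _).2 ⟨⟨x, hxK⟩, rfl, hxσ⟩)
        · intro h3 x hx hxσ
          obtain ⟨y, rfl, hy⟩ := (h0 _).1 hxσ
          exact h3 (mem_part.2 ⟨y.2, hx⟩) hy
      have h4 : Finset.eraseNone (S.map (jK K)) ⊆ K := fun x hx => (mem_part.1 hx).1
      constructor
      · rintro ⟨h3, h5⟩
        rw [cap_isClique_iff] at h3
        exact ⟨fun _ => ⟨h3.1, h4, h2.1 h5⟩, fun h6 => ⟨h3.1, h3.2 (none_mem_map.1 h6), h2.1 h5⟩⟩
      · rintro ⟨h3, h5⟩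
        by_cases h6 : none ∈ S
        · obtain ⟨h7, h8, h9⟩ := h5 (none_mem_map.2 h6)
          exact ⟨cap_isClique_iff.2 ⟨h7, fun _ => h8⟩, h2.2 h9⟩
        · obtain ⟨h7, h8, h9⟩ := h3 (fun h => h6 (none_mem_map.1 h))
          exact ⟨cap_isClique_iff.2 ⟨h7, fun h => absurd h h6⟩, h2.2 h9⟩
    · rintro S ⟨h3, h5⟩ (_ | x) hx
      · exact ⟨none, rfl⟩
      · have h6 : x ∈ K := by
          by_cases h7 : none ∈ S
          · exact hBK ((h5 h7).2.1 (Finset.mem_eraseNone.2 hx))
          · exact (h3 h7).2.1 (Finset.mem_eraseNone.2 hx)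
        exact ⟨some ⟨x, h6⟩, rfl⟩
  · obtain ⟨x, hx⟩ := hσ
    exact ⟨some ⟨x, hσK hx⟩, (h0 _).2 ⟨⟨x, hσK hx⟩, rfl, hx⟩⟩
  · intro x hx y hy hxy
    obtain ⟨x, rfl, hx'⟩ := (h0 _).1 (Finset.mem_coe.1 hx)
    obtain ⟨y, rfl, hy'⟩ := (h0 _).1 (Finset.mem_coe.1 hy)
    exact hc (Finset.mem_coe.2 hx') (Finset.mem_coe.2 hy') fun h => hxy (congrArg some (Subtype.ext h))

/-- the complement of a clique with the cone point in the cap -/
theorem acy_cap_none {G : SimpleGraph V} {K B : Finset V}
    (h : ∀ σ : Finset (Option {v // v ∈ K}), σ.Nonempty → (cap G K B).IsClique σ →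
      ∀ r : Option {v // v ∈ K} → ℕ, Function.Injective r → Acy ℤ r (Clq (cap G K B) σ))
    {σ : Finset V} (hσK : σ ⊆ K) (hσB : σ ⊆ B) (hc : G.IsClique σ) (hr : Function.Injective r) :
    Acy ℤ r (CK G K σ) := by
  obtain ⟨r', hr', hrr⟩ := exists_rank (r := fun v : {v // v ∈ K} => r v) (hr.comp Subtype.val_injective)
  have h0 : ∀ x : {v // v ∈ K}, some x ∈ insert none ((σ.subtype (fun v => v ∈ K)).map Function.Embedding.some) ↔
      (x : V) ∈ σ := by
    intro x
    simp
  have h1 := h (insert none ((σ.subtype (fun v => v ∈ K)).map Function.Embedding.some)) ⟨none, by simp⟩ ?_ r' hr'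
  · have h2 := (acy_pull (r := r') (M := ℤ) (Function.Embedding.some : {v // v ∈ K} ↪ Option {v // v ∈ K})
      (D := Clq (cap G K B) (insert none ((σ.subtype (fun v => v ∈ K)).map Function.Embedding.some)))
      (D' := {S | S.map (Function.Embedding.subtype _) ∈ CK G K σ}) ?_ ?_).2 h1
    · have h3 : (fun v => r' (Function.Embedding.some v)) = fun v : {v // v ∈ K} => r v := hrr
      rw [h3] at h2
      refine (acy_pull (r := r) (M := ℤ) (Function.Embedding.subtype _) (D := CK G K σ) (fun S => Iff.rfl) ?_).1 h2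
      rintro S ⟨_, hS, _⟩ x hx
      exact ⟨⟨x, hS hx⟩, rfl⟩
    · intro S
      constructor
      · rintro ⟨h3, h4, h5⟩
        constructor
        · intro x hx y hy hxy
          obtain ⟨x, hx', rfl⟩ := Finset.mem_map.1 (Finset.mem_coe.1 hx)
          obtain ⟨y, hy', rfl⟩ := Finset.mem_map.1 (Finset.mem_coe.1 hy)
          exact h3 (Finset.mem_coe.2 (Finset.mem_map.2 ⟨x, hx', rfl⟩))
            (Finset.mem_coe.2 (Finset.mem_map.2 ⟨y, hy', rfl⟩)) fun h => hxy (congrArg some (Subtype.ext h))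
        · rw [Finset.disjoint_left] at h5 ⊢
          intro x hx hxσ
          obtain ⟨x, hx', rfl⟩ := Finset.mem_map.1 hx
          exact h5 (Finset.mem_map.2 ⟨x, hx', rfl⟩) ((h0 x).1 hxσ)
      · rintro ⟨h3, h5⟩
        refine ⟨?_, ?_, ?_⟩
        · intro x hx y hy hxy
          obtain ⟨x, hx', rfl⟩ := Finset.mem_map.1 (Finset.mem_coe.1 hx)
          obtain ⟨y, hy', rfl⟩ := Finset.mem_map.1 (Finset.mem_coe.1 hy)
          exact h3 (Finset.mem_coe.2 (Finset.mem_map.2 ⟨x, hx', rfl⟩))
            (Finset.mem_coe.2 (Finset.mem_map.2 ⟨y, hy', rfl⟩))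
            fun h => hxy (congrArg Subtype.val (Option.some.inj h))
        · intro x hx
          obtain ⟨x, hx', rfl⟩ := Finset.mem_map.1 hx
          exact x.2
        · rw [Finset.disjoint_left] at h5 ⊢
          intro x hx hxσ
          obtain ⟨x, hx', rfl⟩ := Finset.mem_map.1 hx
          exact h5 (Finset.mem_map.2 ⟨x, hx', rfl⟩) ((h0 x).2 hxσ)
    · rintro S ⟨_, hS⟩ (_ | x) hx
      · exact absurd (Finset.mem_insert_self _ _) (Finset.disjoint_left.1 hS hx)
      · exact ⟨x, rfl⟩
  · rintro (_ | x) hx (_ | y) hy hxy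
    · exact absurd rfl hxy
    · exact hσB ((h0 y).1 (Finset.mem_coe.1 hy))
    · exact hσB ((h0 x).1 (Finset.mem_coe.1 hx))
    · exact hc (Finset.mem_coe.2 ((h0 x).1 (Finset.mem_coe.1 hx))) (Finset.mem_coe.2 ((h0 y).1 (Finset.mem_coe.1 hy)))
        fun h => hxy (congrArg some (Subtype.ext h))

end caps

/-! ### The sphere condition -/

section qs
variable {V : Type u} [Fintype V]

theorem qs_iff [DecidableEq V] {n : ℕ} {G : SimpleGraph V} : QS n G ↔ Nonempty V ∧
    ∀ σ : Finset V, σ.Nonempty → G.IsClique σ → ∀ r : V → ℕ, Function.Injective r → Acy ℤ r (Clq G σ) := by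
  have h : ∀ (I J : DecidableEq V) (σ : Finset V) (r : V → ℕ),
      @Acy V I ℤ _ r (Clq G σ) → @Acy V J ℤ _ r (Clq G σ) := by
    intro I J σ r
    rw [Subsingleton.elim I J]
    exact id
  constructor
  · rintro ⟨h1, h2⟩
    exact ⟨h1, fun σ hσ hc r hr => h _ _ σ r (h2 σ hσ hc r hr)⟩
  · rintro ⟨h1, h2⟩
    exact ⟨h1, fun σ hσ hc r hr => h _ _ σ r (h2 σ hσ hc r hr)⟩

/-- the family of the empty set is not acyclic -/
theorem not_acy_empty [DecidableEq V] {r : V → ℕ} : ¬ Acy ℤ r {(∅ : Finset V)} := by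
  intro h
  obtain ⟨e, he, h1⟩ := h (fun S => if S = ∅ then 1 else 0) (fun S hS => if_neg hS) (fun T hT => by
    have : T = ∅ := hT
    subst this
    simp [dl])
  have h2 := h1 ∅ rfl
  simp [dl] at h2

theorem lower_Clq [DecidableEq V] {G : SimpleGraph V} {σ : Finset V} : ∀ S ∈ Clq G σ, ∀ T ⊆ S, T ∈ Clq G σ :=
  fun S hS T hT => ⟨hS.1.subset (Finset.coe_subset.2 hT), hS.2.mono_left hT⟩

theorem isClique_insert [DecidableEq V] {G : SimpleGraph V} {v : V} {S : Finset V} (hS : G.IsClique S)
    (h : ∀ x ∈ S, x ≠ v → G.Adj v x) : G.IsClique (insert v S : Finset V) := by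
  rw [Finset.coe_insert, SimpleGraph.isClique_insert]
  exact ⟨hS, fun x hx hvx => h x (Finset.mem_coe.1 hx) hvx.symm⟩

end qs

theorem qs_iso {n m : ℕ} {V W : Type u} [Fintype V] [Fintype W] {G : SimpleGraph V} {H : SimpleGraph W} (h : QS n G)
    (e : G ≃g H) : QS m H := by
  classical
  rw [qs_iff] at h ⊢
  refine ⟨h.1.map e, fun σ hσ hc r hr => ?_⟩
  have hmem : ∀ x, x ∈ σ.map e.symm.toEquiv.toEmbedding ↔ e x ∈ σ := by
    intro x
    rw [Finset.mem_map]
    constructor
    · rintro ⟨y, hy, rfl⟩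
      have : e (e.symm y) = y := e.apply_symm_apply y
      exact this.symm ▸ hy
    · intro hx
      exact ⟨e x, hx, e.symm_apply_apply x⟩
  have h1 := h.2 (σ.map e.symm.toEquiv.toEmbedding) (by simpa using hσ) ?_ (fun v => r (e v)) (hr.comp e.injective)
  · refine (acy_pull (r := r) (M := ℤ) e.toEquiv.toEmbedding ?_ ?_).1 h1
    · intro S
      constructor
      · rintro ⟨h2, h3⟩
        constructor
        · intro x hx y hy hxy
          obtain ⟨x, hx', rfl⟩ := Finset.mem_map.1 (Finset.mem_coe.1 hx)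
          obtain ⟨y, hy', rfl⟩ := Finset.mem_map.1 (Finset.mem_coe.1 hy)
          exact e.map_adj_iff.2 (h2 (Finset.mem_coe.2 hx') (Finset.mem_coe.2 hy') fun h => hxy (congrArg _ h))
        · rw [Finset.disjoint_left] at h3 ⊢
          intro x hx hxσ
          obtain ⟨x, hx', rfl⟩ := Finset.mem_map.1 hx
          exact h3 hx' ((hmem x).2 hxσ)
      · rintro ⟨h2, h3⟩
        constructor
        · intro x hx y hy hxy
          exact e.map_adj_iff.1 (h2 (Finset.mem_coe.2 (Finset.mem_map.2 ⟨x, hx, rfl⟩))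
            (Finset.mem_coe.2 (Finset.mem_map.2 ⟨y, hy, rfl⟩)) fun h => hxy (e.injective h))
        · rw [Finset.disjoint_left] at h3 ⊢
          intro x hx hxσ
          exact h3 (Finset.mem_map.2 ⟨x, hx, rfl⟩) ((hmem x).1 hxσ)
    · intro S _ x _
      exact ⟨e.symm x, e.apply_symm_apply x⟩
  · intro x hx y hy hxy
    exact e.map_adj_iff.1 (hc (Finset.mem_coe.2 ((hmem x).1 hx)) (Finset.mem_coe.2 ((hmem y).1 hy))
      fun h => hxy (e.injective h))

theorem qs_susp {n : ℕ} {V : Type u} [Fintype V] {G : SimpleGraph V} (h : Nonempty V → QS n G) : QS (n + 1) (susp G) := by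
  classical
  rw [qs_iff]
  refine ⟨⟨Sum.inr true⟩, fun σ hσ hc r hr => ?_⟩
  by_cases hp : ∃ b : Bool, Sum.inr b ∈ σ
  · -- a pole is in `σ`: a cone over the other pole
    obtain ⟨b, hb⟩ := hp
    have hb' : Sum.inr (!b) ∉ σ := fun h1 =>
      (hc (Finset.mem_coe.2 hb) (Finset.mem_coe.2 h1) (by simp) : False).elim
    refine acy_cone hr (Sum.inr (!b)) fun S hS => ?_
    constructor
    · rintro ⟨h1, h2⟩
      refine ⟨isClique_insert h1 ?_, ?_⟩
      · rintro (x | c) hx hxv
        · exact trivial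
        · rcases Bool.eq_or_eq_not c b with rfl | rfl
          · exact absurd hb (Finset.disjoint_left.1 h2 hx)
          · exact absurd rfl hxv
      · rw [Finset.disjoint_insert_left]
        exact ⟨hb', h2⟩
    · exact fun h1 => lower_Clq _ h1 _ (Finset.subset_insert _ _)
  · replace hp : ∀ b : Bool, Sum.inr b ∉ σ := fun b hb => hp ⟨b, hb⟩
    -- `σ` is a clique of `G`
    obtain ⟨x, hx⟩ := hσ
    have hV : Nonempty V := by
      rcases x with x | b
      · exact ⟨x⟩
      · exact absurd hx (hp b)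
    have hG := qs_iff.1 (h hV)
    have hmem : ∀ y : V, y ∈ σ.preimage Sum.inl Sum.inl_injective.injOn ↔ Sum.inl y ∈ σ := fun y =>
      Finset.mem_preimage
    have h1 := hG.2 (σ.preimage Sum.inl Sum.inl_injective.injOn) ?_ ?_ (fun v => r (Sum.inl v))
      (hr.comp Sum.inl_injective)
    · have h2 : Acy ℤ r {S | (Sum.inr true ∉ S ∧ Sum.inr false ∉ S) ∧ S ∈ Clq (susp G) σ} := by
        refine (acy_pull (r := r) (M := ℤ) (Function.Embedding.inl : V ↪ V ⊕ Bool) ?_ ?_).1 h1
        · intro S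
          constructor
          · rintro ⟨h3, h4⟩
            refine ⟨by simp, ?_, ?_⟩
            · intro x hx y hy hxy
              obtain ⟨x, hx', rfl⟩ := Finset.mem_map.1 (Finset.mem_coe.1 hx)
              obtain ⟨y, hy', rfl⟩ := Finset.mem_map.1 (Finset.mem_coe.1 hy)
              exact h3 (Finset.mem_coe.2 hx') (Finset.mem_coe.2 hy') fun h => hxy (congrArg _ h)
            · rw [Finset.disjoint_left] at h4 ⊢
              intro x hx hxσ
              obtain ⟨x, hx', rfl⟩ := Finset.mem_map.1 hx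
              exact h4 hx' ((hmem x).2 hxσ)
          · rintro ⟨_, h3, h4⟩
            constructor
            · intro x hx y hy hxy
              exact h3 (Finset.mem_coe.2 (Finset.mem_map.2 ⟨x, hx, rfl⟩))
                (Finset.mem_coe.2 (Finset.mem_map.2 ⟨y, hy, rfl⟩)) fun h => hxy (Sum.inl_injective h)
            · rw [Finset.disjoint_left] at h4 ⊢
              intro x hx hxσ
              exact h4 (Finset.mem_map.2 ⟨x, hx, rfl⟩) ((hmem x).1 hxσ)
        · rintro S ⟨⟨h3, h4⟩, _⟩ (x | b) hx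
          · exact ⟨x, rfl⟩
          · cases b
            · exact absurd hx h4
            · exact absurd hx h3
      have h3 := acy_shift hr (v := Sum.inr true) (fun S hS => hS.1.1) h2
      refine acy_add hr (D₁ := {S | Sum.inr true ∉ S ∧ S ∈ Clq (susp G) σ})
        (D₂ := (fun S => insert (Sum.inr true) S) '' {S | (Sum.inr true ∉ S ∧ Sum.inr false ∉ S) ∧ S ∈ Clq (susp G) σ})
        ⟨cvx_of_lower lower_Clq, ?_, ?_⟩ ?_ h3
      · intro S
        constructor
        · intro hS
          by_cases h4 : Sum.inr true ∈ S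
          · right
            have h5 : Sum.inr false ∉ S := fun h6 =>
              (hS.1 (Finset.mem_coe.2 h4) (Finset.mem_coe.2 h6) (by simp) : False).elim
            exact ⟨S.erase (Sum.inr true), ⟨⟨by simp, fun h6 => h5 (Finset.mem_of_mem_erase h6)⟩,
              lower_Clq _ hS _ (Finset.erase_subset _ _)⟩, Finset.insert_erase h4⟩
          · exact Or.inl ⟨h4, hS⟩
        · rintro (hS | ⟨T, ⟨⟨h4, h5⟩, h6⟩, rfl⟩)
          · exact hS.2
          · refine ⟨isClique_insert h6.1 ?_, ?_⟩
            · rintro (x | b) hx hxv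
              · exact trivial
              · cases b
                · exact absurd hx h5
                · exact absurd hx h4
            · rw [Finset.disjoint_insert_left]
              exact ⟨hp true, h6.2⟩
      · rintro S hS _ ⟨T, hT, rfl⟩ h4
        exact hS.1 (h4 (Finset.mem_insert_self _ _))
      · refine acy_cone hr (Sum.inr false) fun S hS => ?_
        constructor
        · rintro ⟨h4, h5⟩
          refine ⟨by simpa using h4, isClique_insert h5.1 ?_, ?_⟩
          · rintro (x | b) hx hxv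
            · exact trivial
            · cases b
              · exact absurd hx hS
              · exact absurd hx h4
          · rw [Finset.disjoint_insert_left]
            exact ⟨hp false, h5.2⟩
        · rintro ⟨h4, h5⟩
          exact ⟨fun h6 => h4 (Finset.mem_insert_of_mem h6), lower_Clq _ h5 _ (Finset.subset_insert _ _)⟩
    · rcases x with x | b
      · exact ⟨x, (hmem x).2 hx⟩
      · exact absurd hx (hp b)
    · intro x hx y hy hxy
      exact hc (Finset.mem_coe.2 ((hmem x).1 hx)) (Finset.mem_coe.2 ((hmem y).1 hy))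
        fun h => hxy (Sum.inl_injective h)

theorem qs_glue {n m l : ℕ} {V : Type u} [Fintype V] {G : SimpleGraph V} {K K' B : Finset V} (hcov : ∀ v, v ∈ K ∨ v ∈ K')
    (hB : ∀ v, v ∈ B ↔ v ∈ K ∧ v ∈ K') (hno : ∀ u v, u ∉ K' → v ∉ K → ¬ G.Adj u v) (h1 : QS n (cap G K B))
    (h2 : QS m (cap G K' B)) : QS l G := by
  classical
  rw [qs_iff] at h1 h2 ⊢
  have hBK : B ⊆ K := fun v hv => ((hB v).1 hv).1
  have hBK' : B ⊆ K' := fun v hv => ((hB v).1 hv).2
  -- a clique is contained in `K` or in `K'`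
  have hcl : ∀ {S : Finset V}, G.IsClique S → S ⊆ K ∨ S ⊆ K' := by
    intro S hS
    by_contra h
    rw [not_or, Finset.not_subset, Finset.not_subset] at h
    obtain ⟨⟨v, hvS, hv⟩, ⟨u, huS, hu⟩⟩ := h
    have huv : u ≠ v := by
      rintro rfl
      exact (hcov u).elim hv hu
    exact hno u v hu hv (hS (Finset.mem_coe.2 huS) (Finset.mem_coe.2 hvS) huv)
  refine ⟨?_, fun σ hσ hc r hr => ?_⟩
  · by_contra hV
    have hV' : ∀ x : V, False := fun x => hV ⟨x⟩
    have h3 := acy_cap_none h1.2 (σ := ∅) (Finset.empty_subset _) (Finset.empty_subset _) (by simp)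
      (r := fun _ => 0) (fun x => (hV' x).elim)
    have h4 : CK G K ∅ = {(∅ : Finset V)} := by
      ext S
      have : S = ∅ := Finset.eq_empty_of_forall_notMem fun x => (hV' x).elim
      subst this
      simp [CK]
    rw [h4] at h3
    exact not_acy_empty h3
  · -- symmetric
    have key : ∀ {K K' : Finset V}, (∀ {S : Finset V}, G.IsClique S → S ⊆ K ∨ S ⊆ K') →
        (∀ v, v ∈ B ↔ v ∈ K ∧ v ∈ K') →
        (∀ σ : Finset (Option {v // v ∈ K}), σ.Nonempty → (cap G K B).IsClique σ →
          ∀ r : Option {v // v ∈ K} → ℕ, Function.Injective r → Acy ℤ r (Clq (cap G K B) σ)) →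
        (∀ σ : Finset (Option {v // v ∈ K'}), σ.Nonempty → (cap G K' B).IsClique σ →
          ∀ r : Option {v // v ∈ K'} → ℕ, Function.Injective r → Acy ℤ r (Clq (cap G K' B) σ)) →
        σ ⊆ K → Acy ℤ r (Clq G σ) := by
      intro K K' hcl hB h1 h2 hσK
      have hBK : B ⊆ K := fun v hv => ((hB v).1 hv).1
      have hBK' : B ⊆ K' := fun v hv => ((hB v).1 hv).2
      have h3 : Acy ℤ r (CK G K' (σ ∩ K')) :=
        acy_cap_none h2 Finset.inter_subset_right
          (fun v hv => (hB v).2 ⟨hσK (Finset.mem_inter.1 hv).1, (Finset.mem_inter.1 hv).2⟩)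
          (hc.subset (Finset.coe_subset.2 Finset.inter_subset_left)) hr
      have h4 : CK G K' (σ ∩ K') = CK G K' σ := by
        ext S
        constructor
        · rintro ⟨h5, h6, h7⟩
          refine ⟨h5, h6, ?_⟩
          rw [Finset.disjoint_left] at h7 ⊢
          exact fun x hx hxσ => h7 hx (Finset.mem_inter.2 ⟨hxσ, h6 hx⟩)
        · rintro ⟨h5, h6, h7⟩
          exact ⟨h5, h6, h7.mono_right Finset.inter_subset_left⟩
      rw [h4] at h3
      refine acy_exchange hr (Q := CK G K' σ) (P' := CK G K σ) (Q' := CK G B σ) lower_Clq lower_CK lower_CK lower_CK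
        (fun S hS => ⟨hS.1, hS.2.2⟩) (fun S hS => ⟨hS.1, hS.2.1.trans hBK, hS.2.2⟩) (fun S hS => ⟨hS.1, hS.2.2⟩)
        (fun S hS => ⟨hS.1, hS.2.1.trans hBK', hS.2.2⟩) ?_ ?_ h3 (fun r' hr' => acy_cap hBK h1 hσ hσK hc hr')
      · intro S hS hS'
        refine ⟨hS.1, (hcl hS.1).resolve_left fun h => hS' ⟨hS.1, h, hS.2⟩, hS.2⟩
      · intro S hS hS' hS''
        exact hS' ⟨hS.1, fun v hv => (hB v).2 ⟨hS''.2.1 hv, hS.2.1 hv⟩, hS.2.2⟩
    rcases hcl hc with h | h
    · exact key hcl hB h1.2 h2.2 h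
    · exact key (fun hS => (hcl hS).symm) (fun v => (hB v).trans and_comm) h2.2 h1.2 h

theorem qs_split {n m l k : ℕ} {V : Type u} [Fintype V] {G : SimpleGraph V} [DecidableRel G.Adj] {p q : V}
    {K B : Finset V} (hpq : G.Adj p q) (hK : ∀ v, v ∈ K ↔ v ≠ p ∧ v ≠ q)
    (hB : ∀ v, v ∈ B ↔ v ∈ K ∧ (G.Adj p v ∨ G.Adj q v))
    (hsq : ∀ x y, G.Adj p x → G.Adj x y → G.Adj y q → x = q ∨ y = p ∨ G.Adj q x ∨ G.Adj p y)
    (h1 : QS n (cap G K B)) (h2 : QS m (lk G p)) (h3 : QS l (lk G q)) : QS k G := by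
  classical
  rw [qs_iff] at h1 h2 h3 ⊢
  have hBK : B ⊆ K := fun v hv => ((hB v).1 hv).1
  refine ⟨⟨p⟩, fun σ hσ hc r hr => ?_⟩
  -- the case of one end
  have one : ∀ {p q : V}, G.Adj p q → (∀ v, v ∈ K ↔ v ≠ p ∧ v ≠ q) → (∀ v, v ∈ B ↔ v ∈ K ∧ (G.Adj p v ∨ G.Adj q v)) →
      (∀ σ : Finset {w // G.Adj q w}, σ.Nonempty → (lk G q).IsClique σ → ∀ r : {w // G.Adj q w} → ℕ,
        Function.Injective r → Acy ℤ r (Clq (lk G q) σ)) → p ∈ σ → q ∉ σ → Acy ℤ r (Clq G σ) := by
    intro p q hpq hK hB h3 hp hq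
    have hσB : σ.erase p ⊆ B := fun v hv => by
      have h4 := Finset.mem_erase.1 hv
      refine (hB v).2 ⟨(hK v).2 ⟨h4.1, fun h => hq (h ▸ h4.2)⟩, Or.inl ?_⟩
      exact hc (Finset.mem_coe.2 hp) (Finset.mem_coe.2 h4.2) h4.1.symm
    have h4 : Acy ℤ r (CK G K (σ.erase p)) := acy_cap_none h1.2 (hσB.trans hBK) hσB
      (hc.subset (Finset.coe_subset.2 (Finset.erase_subset _ _))) hr
    have hmem : ∀ x : {w // G.Adj q w}, x ∈ σ.subtype (fun w => G.Adj q w) ↔ (x : V) ∈ σ := fun x =>
      Finset.mem_subtype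
    have h5 := h3 (σ.subtype (fun w => G.Adj q w)) ⟨⟨p, hpq.symm⟩, (hmem _).2 hp⟩
      (fun x hx y hy hxy => hc (Finset.mem_coe.2 ((hmem x).1 hx)) (Finset.mem_coe.2 ((hmem y).1 hy))
        fun h => hxy (Subtype.ext h)) (fun v => r v) (hr.comp Subtype.val_injective)
    have h6 : Acy ℤ r {S | G.IsClique S ∧ Disjoint S σ ∧ ∀ x ∈ S, G.Adj q x} := by
      refine (acy_pull (r := r) (M := ℤ) (Function.Embedding.subtype _ : {w // G.Adj q w} ↪ V) ?_ ?_).1 h5
      · intro S
        constructor
        · rintro ⟨h3, h4⟩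
          refine ⟨?_, ?_, ?_⟩
          · intro x hx y hy hxy
            obtain ⟨x, hx', rfl⟩ := Finset.mem_map.1 (Finset.mem_coe.1 hx)
            obtain ⟨y, hy', rfl⟩ := Finset.mem_map.1 (Finset.mem_coe.1 hy)
            exact h3 (Finset.mem_coe.2 hx') (Finset.mem_coe.2 hy') fun h => hxy (congrArg _ h)
          · rw [Finset.disjoint_left] at h4 ⊢
            intro x hx hxσ
            obtain ⟨x, hx', rfl⟩ := Finset.mem_map.1 hx
            exact h4 hx' ((hmem x).2 hxσ)
          · intro x hx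
            obtain ⟨x, hx', rfl⟩ := Finset.mem_map.1 hx
            exact x.2
        · rintro ⟨h3, h4, _⟩
          constructor
          · intro x hx y hy hxy
            exact h3 (Finset.mem_coe.2 (Finset.mem_map.2 ⟨x, hx, rfl⟩))
              (Finset.mem_coe.2 (Finset.mem_map.2 ⟨y, hy, rfl⟩)) fun h => hxy (Subtype.ext h)
          · rw [Finset.disjoint_left] at h4 ⊢
            intro x hx hxσ
            exact h4 (Finset.mem_map.2 ⟨x, hx, rfl⟩) ((hmem x).1 hxσ)
      · rintro S ⟨_, _, h7⟩ x hx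
        exact ⟨⟨x, h7 x hx⟩, rfl⟩
    have h7 := acy_shift hr (v := q) (fun S hS hq' => G.loopless.1 _ (hS.2.2 q hq')) h6
    refine acy_add hr (D₁ := CK G K (σ.erase p))
      (D₂ := (fun S => insert q S) '' {S | G.IsClique S ∧ Disjoint S σ ∧ ∀ x ∈ S, G.Adj q x})
      ⟨cvx_of_lower lower_Clq, ?_, ?_⟩ h4 h7
    · intro S
      constructor
      · rintro ⟨h8, h9⟩
        by_cases h10 : q ∈ S
        · right
          refine ⟨S.erase q, ⟨h8.subset (Finset.coe_subset.2 (Finset.erase_subset _ _)),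
            h9.mono_left (Finset.erase_subset _ _), fun x hx => ?_⟩, Finset.insert_erase h10⟩
          have h11 := Finset.mem_erase.1 hx
          exact h8 (Finset.mem_coe.2 h10) (Finset.mem_coe.2 h11.2) h11.1.symm
        · left
          refine ⟨h8, fun x hx => (hK x).2 ⟨?_, ?_⟩, h9.mono_right (Finset.erase_subset _ _)⟩
          · rintro rfl
            exact Finset.disjoint_left.1 h9 hx hp
          · rintro rfl
            exact h10 hx
      · rintro (⟨h8, h9, h10⟩ | ⟨T, ⟨h8, h9, h10⟩, rfl⟩)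
        · refine ⟨h8, ?_⟩
          rw [Finset.disjoint_left] at h10 ⊢
          intro x hx hxσ
          exact h10 hx (Finset.mem_erase.2 ⟨((hK x).1 (h9 hx)).1, hxσ⟩)
        · refine ⟨isClique_insert h8 fun x hx _ => h10 x hx, ?_⟩
          rw [Finset.disjoint_insert_left]
          exact ⟨hq, h9⟩
    · rintro S hS _ ⟨T, hT, rfl⟩ h8
      exact ((hK q).1 (hS.2.1 (h8 (Finset.mem_insert_self _ _)))).2 rfl
  by_cases hp : p ∈ σ
  · by_cases hq : q ∈ σ
    · -- both ends
      have hσB : (σ.erase p).erase q ⊆ B := fun v hv => by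
        have h4 := Finset.mem_erase.1 hv
        have h5 := Finset.mem_erase.1 h4.2
        refine (hB v).2 ⟨(hK v).2 ⟨h5.1, h4.1⟩, Or.inl ?_⟩
        exact hc (Finset.mem_coe.2 hp) (Finset.mem_coe.2 h5.2) h5.1.symm
      have h4 : Acy ℤ r (CK G K ((σ.erase p).erase q)) := acy_cap_none h1.2 (hσB.trans hBK) hσB
        (hc.subset (Finset.coe_subset.2 ((Finset.erase_subset _ _).trans (Finset.erase_subset _ _)))) hr
      have h5 : CK G K ((σ.erase p).erase q) = Clq G σ := by
        ext S
        constructor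
        · rintro ⟨h6, h7, h8⟩
          refine ⟨h6, ?_⟩
          rw [Finset.disjoint_left] at h8 ⊢
          intro x hx hxσ
          have h9 := (hK x).1 (h7 hx)
          exact h8 hx (Finset.mem_erase.2 ⟨h9.2, Finset.mem_erase.2 ⟨h9.1, hxσ⟩⟩)
        · rintro ⟨h6, h7⟩
          refine ⟨h6, fun x hx => (hK x).2 ⟨?_, ?_⟩,
            h7.mono_right ((Finset.erase_subset _ _).trans (Finset.erase_subset _ _))⟩
          · rintro rfl
            exact Finset.disjoint_left.1 h7 hx hp
          · rintro rfl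
            exact Finset.disjoint_left.1 h7 hx hq
      rwa [h5] at h4
    · exact one hpq hK hB h3.2 hp hq
  · by_cases hq : q ∈ σ
    · exact one hpq.symm (fun v => (hK v).trans and_comm)
        (fun v => (hB v).trans (and_congr_right fun _ => or_comm)) h2.2 hq hp
    · -- no end
      have hσK : σ ⊆ K := fun v hv => (hK v).2 ⟨fun h => hp (h ▸ hv), fun h => hq (h ▸ hv)⟩
      have hW : Acy ℤ r {S | S ∈ Clq G σ ∧ (G.IsClique (insert p S : Finset V) ∨ G.IsClique (insert q S : Finset V))} := by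
        have hlow : ∀ S ∈ {S | S ∈ Clq G σ ∧ (G.IsClique (insert p S : Finset V) ∨ G.IsClique (insert q S : Finset V))},
            ∀ T ⊆ S, T ∈ {S | S ∈ Clq G σ ∧
              (G.IsClique (insert p S : Finset V) ∨ G.IsClique (insert q S : Finset V))} := by
          rintro S ⟨h4, h5⟩ T hT
          refine ⟨lower_Clq _ h4 _ hT, h5.imp (fun h => ?_) fun h => ?_⟩
          · exact h.subset (Finset.coe_subset.2 (Finset.insert_subset_insert _ hT))
          · exact h.subset (Finset.coe_subset.2 (Finset.insert_subset_insert _ hT))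
        refine acy_add hr (D₁ := {S | S ∈ Clq G σ ∧ G.IsClique (insert p S : Finset V)})
          (D₂ := {S | S ∈ Clq G σ ∧ G.IsClique (insert q S : Finset V) ∧ ¬ G.IsClique (insert p S : Finset V)})
          ⟨cvx_of_lower hlow, ?_, ?_⟩ ?_ ?_
        · intro S
          constructor
          · rintro ⟨h4, h5⟩
            by_cases h6 : G.IsClique (insert p S : Finset V)
            · exact Or.inl ⟨h4, h6⟩
            · exact Or.inr ⟨h4, h5.resolve_left h6, h6⟩
          · rintro (⟨h4, h5⟩ | ⟨h4, h5, h6⟩)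
            · exact ⟨h4, Or.inl h5⟩
            · exact ⟨h4, Or.inr h5⟩
        · rintro S ⟨_, hS⟩ T ⟨_, _, hT⟩ hTS
          exact hT (hS.subset (Finset.coe_subset.2 (Finset.insert_subset_insert _ hTS)))
        · refine acy_cone hr p fun S hS => ?_
          constructor
          · rintro ⟨h4, h5⟩
            refine ⟨⟨h5, ?_⟩, by simpa using h5⟩
            rw [Finset.disjoint_insert_left]
            exact ⟨hp, h4.2⟩
          · rintro ⟨h4, h5⟩
            exact ⟨lower_Clq _ h4 _ (Finset.subset_insert _ _), h4.1⟩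
        · refine acy_cone hr q fun S hS => ?_
          constructor
          · rintro ⟨h4, h5, h6⟩
            refine ⟨⟨h5, ?_⟩, by simpa using h5, fun h7 => h6 ?_⟩
            · rw [Finset.disjoint_insert_left]
              exact ⟨hq, h4.2⟩
            · exact h7.subset (Finset.coe_subset.2 (Finset.insert_subset_insert _ (Finset.subset_insert _ _)))
          · rintro ⟨h4, h5, h6⟩
            refine ⟨lower_Clq _ h4 _ (Finset.subset_insert _ _), h4.1, fun h7 => h6 (isClique_insert h4.1 ?_)⟩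
            intro x hx hxp
            rcases Finset.mem_insert.1 hx with rfl | hx
            · exact hpq
            · exact h7 (Finset.mem_coe.2 (Finset.mem_insert_self _ _))
                (Finset.mem_coe.2 (Finset.mem_insert_of_mem hx)) hxp.symm
      refine acy_exchange hr
        (Q := {S | S ∈ Clq G σ ∧ (G.IsClique (insert p S : Finset V) ∨ G.IsClique (insert q S : Finset V))})
        (P' := CK G K σ) (Q' := CK G B σ) lower_Clq ?_ lower_CK lower_CK
        (fun S hS => hS.1) (fun S hS => ⟨hS.1, hS.2.1.trans hBK, hS.2.2⟩) (fun S hS => ⟨hS.1, hS.2.2⟩)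
        ?_ ?_ ?_ hW (fun r' hr' => acy_cap hBK h1.2 hσ hσK hc hr')
      · rintro S ⟨h4, h5⟩ T hT
        refine ⟨lower_Clq _ h4 _ hT, h5.imp (fun h => ?_) fun h => ?_⟩
        · exact h.subset (Finset.coe_subset.2 (Finset.insert_subset_insert _ hT))
        · exact h.subset (Finset.coe_subset.2 (Finset.insert_subset_insert _ hT))
      · -- a clique of `B` is in the star of `p` or in the star of `q`
        rintro S ⟨h4, h5, h6⟩
        refine ⟨⟨h4, h6⟩, ?_⟩
        by_contra h7
        rw [not_or] at h7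
        have h8 : ∃ x ∈ S, ¬ G.Adj q x := by
          by_contra h9
          push Not at h9
          exact h7.2 (isClique_insert h4 fun x hx _ => h9 x hx)
        have h9 : ∃ y ∈ S, ¬ G.Adj p y := by
          by_contra h10
          push Not at h10
          exact h7.1 (isClique_insert h4 fun x hx _ => h10 x hx)
        obtain ⟨x, hx, hqx⟩ := h8
        obtain ⟨y, hy, hpy⟩ := h9
        have hpx : G.Adj p x := (((hB x).1 (h5 hx)).2).resolve_right hqx
        have hqy : G.Adj q y := (((hB y).1 (h5 hy)).2).resolve_left hpy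
        have hxy : x ≠ y := fun h => hqx (h ▸ hqy)
        rcases hsq x y hpx (h4 (Finset.mem_coe.2 hx) (Finset.mem_coe.2 hy) hxy) hqy.symm with h | h | h | h
        · exact ((hK x).1 (hBK (h5 hx))).2 h
        · exact ((hK y).1 (hBK (h5 hy))).1 h
        · exact hqx h
        · exact hpy h
      · intro S hS hS'
        refine ⟨hS, ?_⟩
        have h4 : ¬ S ⊆ K := fun h => hS' ⟨hS.1, h, hS.2⟩
        obtain ⟨x, hx, hxK⟩ := Finset.not_subset.1 h4
        have h5 : x = p ∨ x = q := by
          by_contra h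
          rw [not_or] at h
          exact hxK ((hK x).2 h)
        rcases h5 with rfl | rfl
        · left
          rw [Finset.insert_eq_of_mem hx]
          exact hS.1
        · right
          rw [Finset.insert_eq_of_mem hx]
          exact hS.1
      · rintro S ⟨h4, h5⟩ h6 h7
        refine h6 ⟨h4.1, fun x hx => (hB x).2 ⟨h7.2.1 hx, ?_⟩, h4.2⟩
        have h8 := (hK x).1 (h7.2.1 hx)
        refine h5.imp (fun h => ?_) fun h => ?_
        · exact h (Finset.mem_coe.2 (Finset.mem_insert_self _ _)) (Finset.mem_coe.2 (Finset.mem_insert_of_mem hx))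
            (Ne.symm h8.1)
        · exact h (Finset.mem_coe.2 (Finset.mem_insert_self _ _)) (Finset.mem_coe.2 (Finset.mem_insert_of_mem hx))
            (Ne.symm h8.2)

/-- **the sphere condition is closed under the moves** -/
theorem closed_QS : Closed (fun n {V} [Fintype V] (G : SimpleGraph V) => QS.{u} n G) where
  iso h e := qs_iso h e
  susp := by
    intro n V _ G h
    cases n with
    | zero =>
      have h' : IsEmpty V := h
      exact qs_susp fun h1 => h1.elim h'.elim
    | succ n => exact qs_susp fun _ => h.1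
  glue hcov hB hno h1 h2 := qs_glue hcov hB hno h1.1 h2.1
  split hpq hK hB hsq h1 h2 h3 := qs_split hpq hK hB hsq h1.1 h2.1 h3.1

/-! ### Facets -/

theorem dim_of_goodQ {n : ℕ} {V : Type u} [Fintype V] {G : SimpleGraph V}
    (h : GoodQ (fun n {V} [Fintype V] (G : SimpleGraph V) => QS.{u} n G) n G) {S : Finset V} (hS : G.IsClique S) :
    S.card ≤ n := by
  classical
  induction n generalizing V with
  | zero =>
    have h' : IsEmpty V := h
    rw [Finset.eq_empty_of_forall_notMem fun x (_ : x ∈ S) => h'.elim x]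
    exact le_rfl
  | succ n ih =>
    rw [goodQ_succ_iff] at h
    rcases S.eq_empty_or_nonempty with rfl | ⟨v, hv⟩
    · exact Nat.zero_le _
    · have h1 := ih (h.2 v) (S := S.subtype (fun w => G.Adj v w)) (fun x hx y hy hxy =>
        hS (Finset.mem_coe.2 (Finset.mem_subtype.1 (Finset.mem_coe.1 hx)))
          (Finset.mem_coe.2 (Finset.mem_subtype.1 (Finset.mem_coe.1 hy))) fun h => hxy (Subtype.ext h))
      have h2 : (S.subtype (fun w => G.Adj v w)).card = (S.erase v).card := by
        rw [← Finset.card_map (Function.Embedding.subtype _), Finset.subtype_map]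
        congr 1
        ext x
        rw [Finset.mem_filter, Finset.mem_erase]
        constructor
        · rintro ⟨h3, h4⟩
          exact ⟨h4.ne', h3⟩
        · rintro ⟨h3, h4⟩
          exact ⟨h4, hS (Finset.mem_coe.2 hv) (Finset.mem_coe.2 h4) h3.symm⟩
      rw [h2, Finset.card_erase_of_mem hv] at h1
      omega

theorem exists_facet {n : ℕ} {V : Type u} [Fintype V] [DecidableEq V] {G : SimpleGraph V}
    (h : GoodQ (fun n {V} [Fintype V] (G : SimpleGraph V) => QS.{u} n G) n G) :
    ∃ τ : Finset V, ∀ r : V → ℕ, Function.Injective r → Sph ℤ r G n τ := by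
  induction n generalizing V with
  | zero =>
    have h' : IsEmpty V := h
    have h0 : ∀ S : Finset V, S = ∅ := fun S => Finset.eq_empty_of_forall_notMem fun x _ => h'.elim x
    refine ⟨∅, fun r hr => ⟨?_, by simp, rfl, ?_, fun S _ => by rw [h0 S]; exact le_rfl⟩⟩
    · intro σ hσ _
      obtain ⟨x, _⟩ := hσ
      exact h'.elim x
    · have h1 : Clq G ∅ \ {(∅ : Finset V)} = ∅ := by
        ext S
        rw [h0 S]
        simp
      rw [h1]
      exact acy_empty
  | succ n ih =>
    classical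
    have hd := fun (S : Finset V) (hS : G.IsClique S) => dim_of_goodQ h hS
    rw [goodQ_succ_iff] at h
    have hQ := qs_iff.1 h.1
    obtain ⟨v⟩ := hQ.1
    obtain ⟨τ, hτ⟩ := ih (h.2 v)
    have hv : v ∉ τ.map (Function.Embedding.subtype _) := fun h1 => by
      obtain ⟨x, _, hx⟩ := Finset.mem_map.1 h1
      exact x.2.ne hx.symm
    have hcard : (insert v (τ.map (Function.Embedding.subtype _)) : Finset V).card = n + 1 := by
      rw [Finset.card_insert_of_notMem hv, Finset.card_map]
      have := (hτ (fun x => (Fintype.equivFin _ x : ℕ))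
        (fun a b h => (Fintype.equivFin _).injective (Fin.ext h))).card
      rw [this]
    have hτc : (lk G v).IsClique τ := (hτ (fun x => (Fintype.equivFin _ x : ℕ))
        (fun a b h => (Fintype.equivFin _).injective (Fin.ext h))).clq
    have hclq : G.IsClique (insert v (τ.map (Function.Embedding.subtype _)) : Finset V) := by
      refine isClique_insert ?_ ?_
      · intro x hx y hy hxy
        obtain ⟨x, hx', rfl⟩ := Finset.mem_map.1 (Finset.mem_coe.1 hx)
        obtain ⟨y, hy', rfl⟩ := Finset.mem_map.1 (Finset.mem_coe.1 hy)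
        exact hτc (Finset.mem_coe.2 hx') (Finset.mem_coe.2 hy') fun h => hxy (congrArg _ h)
      · intro x hx _
        obtain ⟨x, hx', rfl⟩ := Finset.mem_map.1 hx
        exact x.2
    refine ⟨insert v (τ.map (Function.Embedding.subtype _)), fun r hr => ⟨fun σ hσ hc => hQ.2 σ hσ hc r hr, hclq,
      hcard, ?_, hd⟩⟩
    have h1 : Acy ℤ r (Clq G {v}) := hQ.2 {v} (Finset.singleton_nonempty v) (by simp) r hr
    have h2 : Acy ℤ r {S | (G.IsClique S ∧ ∀ x ∈ S, G.Adj v x) ∧ S ≠ τ.map (Function.Embedding.subtype _)} := by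
      refine (acy_pull (r := r) (M := ℤ) (Function.Embedding.subtype _ : {w // G.Adj v w} ↪ V) ?_ ?_).1
        (hτ (fun x => r x) (hr.comp Subtype.val_injective)).fac
      · intro S
        constructor
        · rintro ⟨⟨h3, _⟩, h4⟩
          refine ⟨⟨?_, ?_⟩, fun h5 => h4 ?_⟩
          · intro x hx y hy hxy
            obtain ⟨x, hx', rfl⟩ := Finset.mem_map.1 (Finset.mem_coe.1 hx)
            obtain ⟨y, hy', rfl⟩ := Finset.mem_map.1 (Finset.mem_coe.1 hy)
            exact h3 (Finset.mem_coe.2 hx') (Finset.mem_coe.2 hy') fun h => hxy (congrArg _ h)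
          · intro x hx
            obtain ⟨x, hx', rfl⟩ := Finset.mem_map.1 hx
            exact x.2
          · exact Finset.map_injective _ h5
        · rintro ⟨⟨h3, _⟩, h4⟩
          refine ⟨⟨?_, Finset.disjoint_empty_right _⟩, ?_⟩
          · intro x hx y hy hxy
            exact h3 (Finset.mem_coe.2 (Finset.mem_map.2 ⟨x, hx, rfl⟩))
              (Finset.mem_coe.2 (Finset.mem_map.2 ⟨y, hy, rfl⟩)) fun h => hxy (Subtype.ext h)
          · rintro rfl
            exact h4 rfl
      · rintro S ⟨⟨_, h3⟩, _⟩ x hx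
        exact ⟨⟨x, h3 x hx⟩, rfl⟩
    have h3 := acy_shift hr (v := v) (fun S hS hv' => G.loopless.1 _ (hS.1.2 v hv')) h2
    refine acy_add hr (D₁ := Clq G {v}) (D₂ := (fun S => insert v S) ''
      {S | (G.IsClique S ∧ ∀ x ∈ S, G.Adj v x) ∧ S ≠ τ.map (Function.Embedding.subtype _)}) ⟨?_, ?_, ?_⟩ h1 h3
    · rintro S ⟨hS, hSτ⟩ T ⟨hT, hTτ⟩ R hSR hRT
      refine ⟨lower_Clq _ hT _ hRT, fun h4 => ?_⟩
      have h5 : R = insert v (τ.map (Function.Embedding.subtype _)) := h4
      have h6 : R = T := Finset.eq_of_subset_of_card_le hRT (by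
        rw [h5, hcard]
        exact hd T hT.1)
      exact hTτ (h6 ▸ h4)
    · intro S
      constructor
      · rintro ⟨h4, h5⟩
        by_cases h6 : v ∈ S
        · right
          refine ⟨S.erase v, ⟨⟨h4.1.subset (Finset.coe_subset.2 (Finset.erase_subset _ _)), fun x hx => ?_⟩,
            fun h7 => h5 ?_⟩, Finset.insert_erase h6⟩
          · have h11 := Finset.mem_erase.1 hx
            exact h4.1 (Finset.mem_coe.2 h6) (Finset.mem_coe.2 h11.2) h11.1.symm
          · rw [← Finset.insert_erase h6, h7]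
            rfl
        · left
          exact ⟨h4.1, Finset.disjoint_singleton_right.2 h6⟩
      · rintro (⟨h4, h5⟩ | ⟨T, ⟨⟨h4, h5⟩, h6⟩, rfl⟩)
        · refine ⟨⟨h4, Finset.disjoint_empty_right _⟩, fun h6 => ?_⟩
          have h7 : S = insert v (τ.map (Function.Embedding.subtype _)) := h6
          rw [h7] at h5
          exact Finset.disjoint_singleton_right.1 h5 (Finset.mem_insert_self _ _)
        · refine ⟨⟨isClique_insert h4 fun x hx _ => h5 x hx, Finset.disjoint_empty_right _⟩, fun h7 => h6 ?_⟩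
          have h8 : insert v T = insert v (τ.map (Function.Embedding.subtype _)) := h7
          have hvT : v ∉ T := fun h => G.loopless.1 _ (h5 v h)
          rw [← Finset.erase_insert hvT, h8, Finset.erase_insert hv]
    · rintro S ⟨_, hS⟩ _ ⟨T, hT, rfl⟩ h4
      exact Finset.disjoint_singleton_right.1 hS (h4 (Finset.mem_insert_self _ _))

theorem Sph.of_int {V : Type u} [Fintype V] [DecidableEq V] {M : Type*} [AddCommGroup M] [IsAddTorsionFree M]
    {r : V → ℕ} {G : SimpleGraph V} {n : ℕ} {τ : Finset V} (h : Sph ℤ r G n τ) : Sph M r G n τ where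
  acy σ hσ hc := acy_of_int (h.acy σ hσ hc)
  clq := h.clq
  card := h.card
  fac := acy_of_int h.fac
  dim := h.dim

end Singer
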