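import Pool.Agent.Singer.DavisOps

/-!
# Singer: harmonic chains

The reduced `ℓ²`-homology and the reduced `ℓ²`-cohomology in one degree vanish simultaneously: both are the space of the
harmonic chains.
-/

set_option autoImplicit false
set_option linter.unusedSectionVars false
set_option linter.unusedVariables false

open scoped ComplexConjugate InnerProductSpace
open Filter Topology

namespace Singer

section hodge
variable {Γ : Type*} [Group Γ] {V : Type*} [Fintype V] [DecidableEq V] {r : V → ℕ} {G : SimpleGraph V} {s : V → Γ}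

variable (r G s) in
/-- closure of the coboundaries -/
noncomputable def cBd : ℕ → Submodule ℂ (E Γ (Finset V))
  | 0 => ⊥
  | k + 1 => ((Ch G s Finset.univ k).map
      ((cobd r G s : E Γ (Finset V) →L[ℂ] E Γ (Finset V)) : E Γ (Finset V) →ₗ[ℂ] E Γ (Finset V))).topologicalClosure

/-- on chains the coboundary is twice the adjoint of the boundary -/
theorem inner_cobd_right (hs : IsSys G s) {i j : ℕ} {f h : E Γ (Finset V)} (hf : f ∈ Ch G s Finset.univ i)
    (hh : h ∈ Ch G s Finset.univ j) : ⟪h, cobd r G s f⟫_ℂ = 2 * ⟪D r h, f⟫_ℂ := by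
  have h2 : (starRingEnd ℂ) (2 : ℂ) = 2 := Complex.conj_ofNat 2
  rw [← inner_conj_symm, inner_cobd hs hf hh, map_mul, inner_conj_symm, h2]

/-- a chain which is orthogonal to the closure of the boundaries is a cocycle -/
theorem cobd_eq_zero (hs : IsSys G s) {j : ℕ} {z : E Γ (Finset V)} (hz : z ∈ Ch G s Finset.univ j)
    (hb : z ∈ (Bd r G s Finset.univ j)ᗮ) : cobd r G s z = 0 := by
  have h1 : cobd r G s z ∈ Ch G s Finset.univ (j + 1) := cobd_mem hs hz
  have h2 : ⟪cobd r G s z, cobd r G s z⟫_ℂ = 0 := by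
    rw [inner_cobd hs hz h1, Submodule.inner_left_of_mem_orthogonal (D_mem_Bd r G s h1) hb, mul_zero]
  exact inner_self_eq_zero.1 h2

/-- a cycle is orthogonal to the closure of the coboundaries -/
theorem mem_orthogonal_cBd (hs : IsSys G s) {j : ℕ} {z : E Γ (Finset V)} (hz : z ∈ Cy r G s Finset.univ j) :
    z ∈ (cBd r G s j)ᗮ := by
  cases j with
  | zero =>
    show z ∈ (⊥ : Submodule ℂ (E Γ (Finset V)))ᗮ
    rw [Submodule.bot_orthogonal_eq_top]
    trivial
  | succ k =>
    show z ∈ (Submodule.topologicalClosure _)ᗮ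
    rw [Submodule.orthogonal_closure, Submodule.mem_orthogonal]
    rintro _ ⟨f, hf, rfl⟩
    show ⟪cobd r G s f, z⟫_ℂ = 0
    rw [inner_cobd hs hf hz.1, show D r z = 0 from hz.2, inner_zero_right, mul_zero]

/-- if all cocycles are limits of coboundaries, then all cycles are limits of boundaries -/
theorem cy_le_bd_of_cBd (hr : Function.Injective r) (hs : IsSys G s) {j : ℕ}
    (h : ∀ z ∈ Ch G s Finset.univ j, cobd r G s z = 0 → z ∈ cBd r G s j) :
    Cy r G s Finset.univ j ≤ Bd r G s Finset.univ j := by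
  intro z hz
  rw [Cy_eq_sup r G s hr] at hz
  have hle : Cy r G s Finset.univ j ⊓ (Bd r G s Finset.univ j)ᗮ ≤ Bd r G s Finset.univ j := by
    rintro w ⟨hw1, hw2⟩
    have h1 : w ∈ cBd r G s j := h w hw1.1 (cobd_eq_zero hs hw1.1 hw2)
    have h2 : w ∈ (cBd r G s j)ᗮ := mem_orthogonal_cBd hs hw1
    have h3 : ⟪w, w⟫_ℂ = 0 := Submodule.inner_left_of_mem_orthogonal h1 h2
    rw [inner_self_eq_zero.1 h3]
    exact Submodule.zero_mem _
  exact (sup_le le_rfl hle) hz

theorem bn_eq_zero_of_le (hr : Function.Injective r) {A : Finset V} {i : ℕ} (h : Cy r G s A i ≤ Bd r G s A i) :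
    bn r G s A i = 0 := by
  unfold bn
  rw [le_antisymm h (Bd_le_Cy r G s hr A i), sub_self]

end hodge

end Singer
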