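import Pool.Agent.Singer.LinksQ

/-!
# Singer: the class with the even constructor

`ClsE S n G`: the smallest class of graphs with the closure properties of `Cls`, and which contains all graphs of even
index `n + 1` with the property `S` all of whose links are in the class.
-/

set_option autoImplicit false
set_option linter.unusedSectionVars false
set_option linter.unusedVariables false

namespace Singer

universe u

/-- the class of graphs (of flag spheres): it contains the empty graph, it is closed under suspension, edge subdivision,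
glueing along full subgraphs of codimension one and splitting of vertices, and it contains every finite graph of even
index `n + 1` with the property `S` (a sphere condition) such that all links of vertices are in the class -/
inductive ClsE (S : ∀ (_ : ℕ) {V : Type u}, SimpleGraph V → Prop) : ∀ (_ : ℕ) {V : Type u}, SimpleGraph V → Prop
  | empty {V : Type u} (h : IsEmpty V) (G : SimpleGraph V) : ClsE S 0 G
  | susp {n : ℕ} {V : Type u} {G : SimpleGraph V} : ClsE S n G → ClsE S (n + 1) (susp G)
  | subd {n : ℕ} {V : Type u} {G : SimpleGraph V} {a b : V} : ClsE S n G → G.Adj a b → ClsE S n (subd G a b)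
  | glue {n : ℕ} {V : Type u} {G : SimpleGraph V} {K K' B : Finset V} : (∀ v, v ∈ K ∨ v ∈ K') →
      (∀ v, v ∈ B ↔ v ∈ K ∧ v ∈ K') → (∀ u v, u ∉ K' → v ∉ K → ¬ G.Adj u v) →
      ClsE S n (cap G K B) → ClsE S n (cap G K' B) → ClsE S n G
  | split {n : ℕ} {V : Type u} {G : SimpleGraph V} {p q : V} {K B : Finset V} : G.Adj p q →
      (∀ v, v ∈ K ↔ v ≠ p ∧ v ≠ q) → (∀ v, v ∈ B ↔ v ∈ K ∧ (G.Adj p v ∨ G.Adj q v)) →
      (∀ x y, G.Adj p x → G.Adj x y → G.Adj y q → x = q ∨ y = p ∨ G.Adj q x ∨ G.Adj p y) →
      ClsE S (n + 1) (cap G K B) → ClsE S n (lk G p) → ClsE S n (lk G q) → ClsE S (n + 1) G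
  | even {n : ℕ} {V : Type u} {G : SimpleGraph V} : Odd n → Finite V → S (n + 1) G →
      (∀ v : V, ClsE S n (lk G v)) → ClsE S (n + 1) G
  | iso {n : ℕ} {V W : Type u} {G : SimpleGraph V} {H : SimpleGraph W} : ClsE S n G → (G ≃g H) → ClsE S n H

section clsE
variable {S : ∀ (_ : ℕ) {V : Type u}, SimpleGraph V → Prop}

/-- the class `Cls` is contained in the class with the even constructor -/
theorem Cls.toE {n : ℕ} {V : Type u} {G : SimpleGraph V} (h : Cls n G) : ClsE S n G := by
  induction h with
  | empty h G => exact .empty h G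
  | susp h ih => exact .susp ih
  | subd h hab ih => exact .subd ih hab
  | glue hcov hB hno h1 h2 ih1 ih2 => exact .glue hcov hB hno ih1 ih2
  | split hpq hK hB hsq h1 h2 h3 ih1 ih2 ih3 => exact .split hpq hK hB hsq ih1 ih2 ih3
  | iso h e ih => exact .iso ih e

theorem ClsE.mono {S' : ∀ (_ : ℕ) {V : Type u}, SimpleGraph V → Prop}
    (hS : ∀ (n : ℕ) {V : Type u} (G : SimpleGraph V), S n G → S' n G) {n : ℕ} {V : Type u} {G : SimpleGraph V}
    (h : ClsE S n G) : ClsE S' n G := by
  induction h with
  | empty h G => exact .empty h G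
  | susp h ih => exact .susp ih
  | subd h hab ih => exact .subd ih hab
  | glue hcov hB hno h1 h2 ih1 ih2 => exact .glue hcov hB hno ih1 ih2
  | split hpq hK hB hsq h1 h2 h3 ih1 ih2 ih3 => exact .split hpq hK hB hsq ih1 ih2 ih3
  | even hn hV hG h ih => exact .even hn hV (hS _ _ hG) ih
  | iso h e ih => exact .iso ih e

theorem ClsE.finite {n : ℕ} {V : Type u} {G : SimpleGraph V} (h : ClsE S n G) : Finite V := by
  induction h with
  | empty h G => exact inferInstance
  | susp h ih => exact inferInstance
  | subd h hab ih => exact inferInstance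
  | @glue n V G K K' B hcov hB hno h1 h2 ih1 ih2 =>
    have h3 : (Set.univ : Set V) ⊆ (K : Set V) ∪ (K' : Set V) := fun v _ => by simpa using hcov v
    exact Set.finite_univ_iff.1 ((K.finite_toSet.union K'.finite_toSet).subset h3)
  | @split n V G p q K B hpq hK hB hsq h1 h2 h3 ih1 ih2 ih3 =>
    classical
    have h3 : (Set.univ : Set V) ⊆ (insert p (insert q K) : Finset V) := fun v _ => by
      by_cases h1 : v = p
      · simp [h1]
      · by_cases h2 : v = q
        · simp [h2]
        · have := (hK v).2 ⟨h1, h2⟩
          simp [this]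
    exact Set.finite_univ_iff.1 ((Finset.finite_toSet _).subset h3)
  | even hn hV hG h ih => exact hV
  | iso h e ih => exact Finite.of_equiv _ e.toEquiv

/-- **hereditary properties of the class with the even constructor** -/
theorem goodQ_of_clsE {Q : ℕ → ∀ {V : Type u} [Fintype V], SimpleGraph V → Prop} (hQ : Closed Q)
    (hE : ∀ {n : ℕ} {V : Type u} [Fintype V] {G : SimpleGraph V} [DecidableRel G.Adj], Odd n → S (n + 1) G →
      (∀ v : V, GoodQ Q n (lk G v)) → Q (n + 1) G)
    {n : ℕ} {V : Type u} {G : SimpleGraph V} (h : ClsE S n G) : ∀ [Fintype V], GoodQ Q n G := by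
  classical
  induction h with
  | empty h G =>
    intro I
    exact h
  | @susp n V G h ih =>
    intro I
    have : Finite V := Finite.of_injective (Sum.inl : V → V ⊕ Bool) Sum.inl_injective
    have J : Fintype V := Fintype.ofFinite V
    exact goodQ_inst (goodQ_susp hQ ih)
  | @subd n V G a b h hab ih =>
    intro I
    have : Finite V := Finite.of_injective (some : V → Option V) (Option.some_injective _)
    have J : Fintype V := Fintype.ofFinite V
    exact goodQ_inst (goodQ_subd hQ hab ih)
  | glue hcov hB hno h1 h2 ih1 ih2 =>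
    intro I
    exact goodQ_glue hQ hcov hB hno ih1 ih2
  | split hpq hK hB hsq h1 h2 h3 ih1 ih2 ih3 =>
    intro I
    exact goodQ_split hQ hpq hK hB hsq ih1 ih2 ih3
  | @even n V G hn hV hG h ih =>
    intro I
    rw [goodQ_succ_iff]
    exact ⟨hE hn hG fun v => ih v, fun v => ih v⟩
  | @iso n V W G H h e ih =>
    intro I
    have : Finite V := Finite.of_equiv W e.symm.toEquiv
    have J : Fintype V := Fintype.ofFinite V
    exact goodQ_iso hQ e ih

/-- all iterated links of a graph of the class are in the class -/
theorem ClsE.goodQ_self {n : ℕ} {V : Type u} [Fintype V] {G : SimpleGraph V} (h : ClsE S n G) :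
    GoodQ (fun n {V} [Fintype V] (G : SimpleGraph V) => ClsE S n G) n G := by
  have key : ∀ {n : ℕ} {V : Type u} [Fintype V] {G : SimpleGraph V},
      GoodQ (fun n {V} [Fintype V] (G : SimpleGraph V) => ClsE S n G) n G → ClsE S n G := by
    intro n V _ G h
    cases n with
    | zero => exact .empty h G
    | succ n => exact h.1
  refine goodQ_of_clsE ⟨?_, ?_, ?_, ?_⟩ ?_ h
  · intro n V W _ _ G H h e
    exact .iso h e
  · intro n V _ G h
    exact .susp (key h)
  · intro n V _ G K K' B hcov hB hno h1 h2
    exact .glue hcov hB hno (key h1) (key h2)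
  · intro n V _ G _ p q K B hpq hK hB hsq h1 h2 h3
    exact .split hpq hK hB hsq (key h1) (key h2) (key h3)
  · intro n V _ G _ hn hG h
    exact .even hn inferInstance hG fun v => key (h v)

/-- a graph of index `0` of the class is empty -/
theorem ClsE.isEmpty {V : Type u} {G : SimpleGraph V} (h : ClsE S 0 G) : IsEmpty V := by
  have := h.finite
  have := Fintype.ofFinite V
  exact h.goodQ_self

/-- **the class is closed under links** -/
theorem ClsE.lk {n : ℕ} {V : Type u} {G : SimpleGraph V} (h : ClsE S (n + 1) G) (v : V) : ClsE S n (lk G v) := by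
  classical
  have := h.finite
  have := Fintype.ofFinite V
  have h1 := (goodQ_succ_iff.1 h.goodQ_self).2 v
  cases n with
  | zero => exact .empty h1 _
  | succ n => exact h1.1

end clsE

end Singer
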