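import Pool.Agent.Singer.Upper
import Pool.Agent.Singer.Cls2

/-!
# Singer: hereditary vanishing for the class with the even constructor, given duality
-/

set_option autoImplicit false
set_option linter.unusedSectionVars false
set_option linter.unusedVariables false

namespace Singer

universe u

/-- the even step: vanishing above the middle dimension and duality -/
theorem vanQ_even {n : ℕ} (hn : Odd n) {V : Type u} [Fintype V] {G : SimpleGraph V} [DecidableRel G.Adj]
    (hdual : ∀ [DecidableEq V], ∀ i, i ≤ n + 1 → bet G (n + 1 - i) = 0 → bet G i = 0)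
    (h : ∀ v : V, GoodQ VanQ n (lk G v)) : VanQ (n + 1) G := by
  classical
  rw [vanQ_iff]
  have h1 : ∀ v : V, Good n (lk G v) := fun v => good_iff_goodQ.2 (h v)
  intro i hi
  obtain ⟨k, rfl⟩ := hn
  rcases lt_or_gt_of_ne hi with h2 | h2
  · exact hdual i (by omega) (bet_upper_univ h1 _ (by omega))
  · exact bet_upper_univ h1 i (by omega)

/-- **hereditary vanishing for the class with the even constructor** -/
theorem good_of_clsE {S : ∀ (_ : ℕ) {V : Type u}, SimpleGraph V → Prop}
    (hdual : ∀ (n : ℕ) {V : Type u} [Fintype V] [DecidableEq V] (G : SimpleGraph V), S n G →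
      ∀ i, i ≤ n → bet G (n - i) = 0 → bet G i = 0)
    {n : ℕ} {V : Type u} [Fintype V] {G : SimpleGraph V} (h : ClsE S n G) : Good n G := by
  refine good_iff_goodQ.2 (goodQ_of_clsE closed_vanQ ?_ h)
  intro n V _ G _ hn hG h
  exact vanQ_even hn (fun i hi => hdual (n + 1) G hG i hi) h

end Singer
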