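import Pool.Agent.Singer.DavisRes
import Pool.Agent.Singer.Hodge
import Pool.Agent.Singer.Sphere
import Pool.Agent.Singer.LinksE

/-!
# Singer: Poincare duality for the vanishing of the reduced `ℓ²`-homology

For a homology sphere of dimension `n - 1` the reduced `ℓ²`-homology of the right-angled Coxeter group vanishes in degree
`n - i` when it vanishes in degree `i`.
-/

set_option autoImplicit false
set_option linter.unusedSectionVars false
set_option linter.unusedVariables false

open scoped ComplexConjugate InnerProductSpace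
open Filter Topology

namespace Singer

universe u

section dual
variable {V : Type u} [Fintype V] [DecidableEq V] {r : V → ℕ} {G : SimpleGraph V}

lemma davisResC_le_iff (hr : Function.Injective r) (i : ℕ) :
    (davisResC G hr).Z i ≤ (davisResC G hr).B i ↔
      Cy r G (Racg.gen G) Finset.univ i ≤ Bd r G (Racg.gen G) Finset.univ i := by
  have h : (davisResC G hr).Z i = Cy r G (Racg.gen G) Finset.univ i := by
    cases i with
    | zero => exact (Cy_zero r G (Racg.gen G) Finset.univ).symm
    | succ i => rfl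
  rw [h]
  rfl

/-- cocycles are limits of coboundaries if the dual complex has no homology -/
lemma mem_cBd_of_dualRes (hr : Function.Injective r) {n : ℕ} {τ : Finset V} (h : Sph ℂ r G n τ) {i : ℕ} (hi : i ≤ n)
    (h0 : (dualRes hr h).Z i ≤ (dualRes hr h).B i) {z : E (RACG G) (Finset V)}
    (hz : z ∈ Ch G (Racg.gen G) Finset.univ (n - i)) (hz0 : cobd r G (Racg.gen G) z = 0) :
    z ∈ cBd r G (Racg.gen G) (n - i) := by
  have h1 : tw (sgW G) z ∈ DCh G n i := by
    rw [mem_DCh hi, tw_tw]
    exact hz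
  have h2 : dcob r G (tw (sgW G) z) = 0 := by
    rw [dcob_eq, tw_tw, hz0, map_zero]
  have h3 : tw (sgW G) z ∈ (dualRes hr h).Z i := by
    cases i with
    | zero => exact h1
    | succ i => exact ⟨h1, h2⟩
  have h4 : tw (sgW G) z ∈ _root_.closure (((DCh G n (i + 1)).map
      ((dcob r G : E (RACG G) (Finset V) →L[ℂ] E (RACG G) (Finset V)) :
        E (RACG G) (Finset V) →ₗ[ℂ] E (RACG G) (Finset V)) : Set (E (RACG G) (Finset V)))) := h0 h3
  have h5 : z ∈ _root_.closure ((tw (sgW G) : E (RACG G) (Finset V) → E (RACG G) (Finset V)) ''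
      ((DCh G n (i + 1)).map ((dcob r G : E (RACG G) (Finset V) →L[ℂ] E (RACG G) (Finset V)) :
        E (RACG G) (Finset V) →ₗ[ℂ] E (RACG G) (Finset V)) : Set (E (RACG G) (Finset V)))) := by
    have h6 := image_closure_subset_closure_image (tw (sgW G) : E (RACG G) (Finset V) →L[ℂ] _).continuous
      ⟨tw (sgW G) z, h4, rfl⟩
    rwa [tw_tw] at h6
  rcases Nat.lt_or_ge i n with hin | hin
  · obtain ⟨k, hk⟩ : ∃ k, n - i = k + 1 := ⟨n - i - 1, by omega⟩
    rw [hk]
    refine closure_mono ?_ h5
    rintro _ ⟨_, ⟨g, hg, rfl⟩, rfl⟩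
    have hg' : g ∈ DCh G n (i + 1) := hg
    rw [mem_DCh (by omega), show n - (i + 1) = k by omega] at hg'
    exact ⟨tw (sgW G) g, hg', (tw_dcob g).symm⟩
  · have hin' : i = n := le_antisymm hi hin
    subst hin'
    have h7 : ((tw (sgW G) : E (RACG G) (Finset V) → E (RACG G) (Finset V)) ''
        ((DCh G i (i + 1)).map ((dcob r G : E (RACG G) (Finset V) →L[ℂ] E (RACG G) (Finset V)) :
          E (RACG G) (Finset V) →ₗ[ℂ] E (RACG G) (Finset V)) : Set (E (RACG G) (Finset V)))) ⊆ {0} := by
      rintro _ ⟨_, ⟨g, hg, rfl⟩, rfl⟩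
      have hg' : g ∈ DCh G i (i + 1) := hg
      rw [mem_DCh_of_lt (Nat.lt_succ_self i)] at hg'
      show tw (sgW G) (dcob r G g) = 0
      rw [hg', map_zero, map_zero]
    have h8 : z ∈ ({0} : Set (E (RACG G) (Finset V))) := closure_minimal h7 isClosed_singleton h5
    rw [show z = 0 from h8]
    exact Submodule.zero_mem _

/-- **duality** for cycles and boundaries -/
theorem cy_le_bd_dual (hr : Function.Injective r) {n : ℕ} {τ : Finset V} (h : Sph ℂ r G n τ) {i : ℕ} (hi : i ≤ n)
    (h0 : Cy r G (Racg.gen G) Finset.univ i ≤ Bd r G (Racg.gen G) Finset.univ i) :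
    Cy r G (Racg.gen G) Finset.univ (n - i) ≤ Bd r G (Racg.gen G) Finset.univ (n - i) :=
  cy_le_bd_of_cBd hr (isSys_gen G) fun z hz hz0 => mem_cBd_of_dualRes hr h hi
    (Res.vanish (davisResC G hr) (dualRes hr h) i ((davisResC_le_iff hr i).2 h0)) hz hz0

end dual

/-- **Poincare duality for the vanishing of the `ℓ²`-Betti numbers of the right-angled Coxeter group of a homology
sphere** -/
theorem bet_dual {V : Type u} [Fintype V] [DecidableEq V] {G : SimpleGraph V} {n : ℕ} {τ : Finset V}
    (h : Sph ℂ rk G n τ) {i : ℕ} (hi : i ≤ n) (h0 : bet G i = 0) : bet G (n - i) = 0 :=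
  bn_eq_zero_of_le rk_inj (cy_le_bd_dual rk_inj h hi (Cy_le_Bd_of_bn rk G (Racg.gen G) rk_inj h0))

/-- the form used in `good_of_clsE` -/
theorem bet_dual' {V : Type u} [Fintype V] [DecidableEq V] {G : SimpleGraph V} {n : ℕ} {τ : Finset V}
    (h : Sph ℂ rk G n τ) {i : ℕ} (hi : i ≤ n) (h0 : bet G (n - i) = 0) : bet G i = 0 := by
  have h1 := bet_dual h (Nat.sub_le n i) h0
  rwa [Nat.sub_sub_self hi] at h1

/-! ### the class with the even constructor -/

/-- the sphere condition: the complement of every nonempty clique is acyclic -/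
def SphQ (n : ℕ) {V : Type u} (G : SimpleGraph V) : Prop := ∀ [Fintype V], QS n G

/-- the data of a homology sphere -/
def SphC (n : ℕ) {V : Type u} (G : SimpleGraph V) : Prop :=
  ∀ [Fintype V] [DecidableEq V], ∃ τ : Finset V, Sph ℂ rk G n τ

theorem ClsE.goodQ_QS {n : ℕ} {V : Type u} [Fintype V] {G : SimpleGraph V} (h : ClsE SphQ.{u} n G) :
    GoodQ (fun n {V} [Fintype V] (G : SimpleGraph V) => QS.{u} n G) n G :=
  goodQ_of_clsE closed_QS (fun _ hS _ => @hS _) h

theorem ClsE.toSphC {n : ℕ} {V : Type u} {G : SimpleGraph V} (h : ClsE SphQ.{u} n G) : ClsE SphC.{u} n G := by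
  induction h with
  | empty h G => exact .empty h G
  | susp h ih => exact .susp ih
  | subd h hab ih => exact .subd ih hab
  | glue hcov hB hno h1 h2 ih1 ih2 => exact .glue hcov hB hno ih1 ih2
  | split hpq hK hB hsq h1 h2 h3 ih1 ih2 ih3 => exact .split hpq hK hB hsq ih1 ih2 ih3
  | @even n V G hn hV hG h ih =>
    refine .even hn hV ?_ ih
    intro I J
    obtain ⟨τ, hτ⟩ := exists_facet (ClsE.goodQ_QS (ClsE.even hn hV hG h))
    exact ⟨τ, (hτ rk rk_inj).of_int⟩
  | iso h e ih => exact .iso ih e

/-- **hereditary vanishing for the class with the even constructor** (spheres of even dimension all of whose links are in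
the class) -/
theorem good_of_clsE_sph {n : ℕ} {V : Type u} [Fintype V] {G : SimpleGraph V} (h : ClsE SphQ.{u} n G) : Good n G :=
  good_of_clsE (fun n {V} _ _ G hG i hi h0 => by
    obtain ⟨τ, hτ⟩ := @hG _ _
    exact bet_dual' hτ hi h0) h.toSphC

end Singer
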