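import Pool.Agent.Singer.Sphere

/-!
# Singer: Euler characteristic of flag homology spheres

* `acy_euler`: the alternating number of the members of an acyclic convex family is zero;
* `euler_goodQ`: the Euler characteristic of a flag homology sphere;
* `goodQ_one_pair`, `goodQ_two_nbr`, `goodQ_three_edge`: the 0-dimensional links;
* `exists_deg_le_five`: a flag homology 2-sphere has a vertex of degree at most five.
-/

set_option autoImplicit false
set_option linter.unusedSectionVars false
set_option linter.unusedVariables false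

namespace Singer

universe u

open Classical

/-! ### acyclic families -/

section acy
variable {V : Type*} [DecidableEq V]

/-- functions on the members of `D` with the property `P` -/
abbrev FD (D : Set (Finset V)) (P : Finset V → Prop) : Type _ := {S : Finset V // S ∈ D ∧ P S} → ℚ

/-- extension by zero -/
noncomputable def ext0 (D : Set (Finset V)) (P : Finset V → Prop) (c : FD D P) (S : Finset V) : ℚ :=
  if h : S ∈ D ∧ P S then c ⟨S, h⟩ else 0

lemma ext0_mem {D : Set (Finset V)} {P : Finset V → Prop} (c : FD D P) {S : Finset V} (h : S ∈ D ∧ P S) :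
    ext0 D P c S = c ⟨S, h⟩ := dif_pos h

lemma ext0_not {D : Set (Finset V)} {P : Finset V → Prop} (c : FD D P) {S : Finset V} (h : ¬ (S ∈ D ∧ P S)) :
    ext0 D P c S = 0 := dif_neg h

lemma ext0_add {D : Set (Finset V)} {P : Finset V → Prop} (c c' : FD D P) (S : Finset V) :
    ext0 D P (c + c') S = ext0 D P c S + ext0 D P c' S := by
  by_cases h : S ∈ D ∧ P S
  · rw [ext0_mem _ h, ext0_mem _ h, ext0_mem _ h, Pi.add_apply]
  · rw [ext0_not _ h, ext0_not _ h, ext0_not _ h, add_zero]

lemma ext0_smul {D : Set (Finset V)} {P : Finset V → Prop} (a : ℚ) (c : FD D P) (S : Finset V) :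
    ext0 D P (a • c) S = a * ext0 D P c S := by
  by_cases h : S ∈ D ∧ P S
  · rw [ext0_mem _ h, ext0_mem _ h, Pi.smul_apply, smul_eq_mul]
  · rw [ext0_not _ h, ext0_not _ h, mul_zero]

/-- the coboundary from the `P`-part to the `Q`-part -/
noncomputable def dPQ (r : V → ℕ) (D : Set (Finset V)) (P Q : Finset V → Prop) : FD D P →ₗ[ℚ] FD D Q where
  toFun c := fun T => dl r (ext0 D P c) T.1
  map_add' c c' := by
    funext T
    have h : ext0 D P (c + c') = fun S => ext0 D P c S + ext0 D P c' S := funext fun S => ext0_add c c' S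
    rw [h, dl_add]
    rfl
  map_smul' a c := by
    funext T
    have h : ext0 D P (a • c) = fun S => a * ext0 D P c S := funext fun S => ext0_smul a c S
    rw [h]
    simp only [dl, RingHom.id_apply, Pi.smul_apply, smul_eq_mul, Finset.mul_sum]
    refine Finset.sum_congr rfl fun v _ => ?_
    rw [mul_smul_comm]

lemma ker_dPQ {r : V → ℕ} (hr : Function.Injective r) {D : Set (Finset V)} (hD : Cvx D) (h : Acy ℚ r D)
    {P Q : Finset V → Prop} (hPQ : ∀ S, P S ↔ ¬ Q S) (hP : ∀ T : Finset V, ∀ v ∈ T, P T ↔ Q (T.erase v)) :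
    LinearMap.ker (dPQ r D P Q) = LinearMap.range (dPQ r D Q P) := by
  have hQ : ∀ T : Finset V, ∀ v ∈ T, Q T ↔ P (T.erase v) := fun T v hv => by
    have h1 := hP T v hv
    have h2 := hPQ T
    have h3 := hPQ (T.erase v)
    tauto
  ext c
  rw [LinearMap.mem_ker, LinearMap.mem_range]
  constructor
  · intro hc
    have hc0 : ∀ S, S ∉ D → ext0 D P c S = 0 := fun S hS => ext0_not c fun h1 => hS h1.1
    obtain ⟨e, he, hde⟩ := h (ext0 D P c) hc0 fun T hT => by
      by_cases hQT : Q T
      · exact congrFun hc ⟨T, hT, hQT⟩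
      · unfold dl
        refine Finset.sum_eq_zero fun v hv => ?_
        rw [ext0_not, smul_zero]
        rintro ⟨_, h1⟩
        exact hQT ((hQ T v hv).2 h1)
    refine ⟨fun S => e S.1, funext fun T => ?_⟩
    have h1 : dl r (ext0 D Q fun S => e S.1) T.1 = dl r e T.1 := by
      unfold dl
      refine Finset.sum_congr rfl fun v hv => ?_
      congr 1
      have h2 : Q (T.1.erase v) := (hP T.1 v hv).1 T.2.2
      by_cases h3 : T.1.erase v ∈ D
      · exact ext0_mem _ ⟨h3, h2⟩
      · rw [ext0_not _ fun h4 => h3 h4.1, he _ h3]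
    have h2 : dPQ r D Q P (fun S => e S.1) T = dl r (ext0 D Q fun S => e S.1) T.1 := rfl
    rw [h2, h1, hde T.1 T.2.1, ext0_mem c T.2]
  · rintro ⟨e, rfl⟩
    funext T
    have h2 : dPQ r D P Q (dPQ r D Q P e) T = dl r (ext0 D P (dPQ r D Q P e)) T.1 := rfl
    rw [h2]
    have he0 : ∀ S, S ∉ D → ext0 D Q e S = 0 := fun S hS => ext0_not e fun h1 => hS h1.1
    have h3 := dl_rst_dl hr hD he0 T.2.1
    have h4 : dl r (ext0 D P (dPQ r D Q P e)) T.1 = dl r (rst D (dl r (ext0 D Q e))) T.1 := by
      unfold dl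
      refine Finset.sum_congr rfl fun v hv => ?_
      congr 1
      have h5 : P (T.1.erase v) := (hQ T.1 v hv).1 T.2.2
      by_cases h6 : T.1.erase v ∈ D
      · rw [rst_mem h6, ext0_mem _ ⟨h6, h5⟩]
        rfl
      · rw [rst_not h6, ext0_not _ fun h7 => h6 h7.1]
    rw [h4, h3]
    rfl

/-- **in an acyclic convex family there are as many even sets as odd sets** -/
theorem acy_card [Fintype V] {r : V → ℕ} (hr : Function.Injective r) {D : Set (Finset V)} (hD : Cvx D)
    (h : Acy ℚ r D) : Fintype.card {S : Finset V // S ∈ D ∧ Even S.card} =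
      Fintype.card {S : Finset V // S ∈ D ∧ Odd S.card} := by
  have e1 : ∀ T : Finset V, ∀ v ∈ T, (Even T.card ↔ Odd (T.erase v).card) := by
    intro T v hv
    rw [Finset.card_erase_of_mem hv]
    have h1 : 0 < T.card := Finset.card_pos.2 ⟨v, hv⟩
    rw [← Nat.not_even_iff_odd]
    obtain ⟨m, hm⟩ : ∃ m, T.card = m + 1 := ⟨T.card - 1, by omega⟩
    rw [hm, Nat.add_sub_cancel, Nat.even_add_one]
  have e2 : ∀ T : Finset V, ∀ v ∈ T, (Odd T.card ↔ Even (T.erase v).card) := by
    intro T v hv
    have h1 := e1 T v hv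
    rw [← Nat.not_even_iff_odd, h1, Nat.not_odd_iff_even]
  have k1 := ker_dPQ hr hD h (P := fun S => Even S.card) (Q := fun S => Odd S.card)
    (fun S => Nat.not_odd_iff_even.symm) e1
  have k2 := ker_dPQ hr hD h (P := fun S => Odd S.card) (Q := fun S => Even S.card)
    (fun S => Nat.not_even_iff_odd.symm) e2
  have f1 := LinearMap.finrank_range_add_finrank_ker (dPQ r D (fun S => Even S.card) (fun S => Odd S.card))
  have f2 := LinearMap.finrank_range_add_finrank_ker (dPQ r D (fun S => Odd S.card) (fun S => Even S.card))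
  rw [k1] at f1
  rw [k2] at f2
  have g1 : Module.finrank ℚ (FD D fun S => Even S.card) = Fintype.card {S : Finset V // S ∈ D ∧ Even S.card} :=
    Module.finrank_fintype_fun_eq_card ℚ
  have g2 : Module.finrank ℚ (FD D fun S => Odd S.card) = Fintype.card {S : Finset V // S ∈ D ∧ Odd S.card} :=
    Module.finrank_fintype_fun_eq_card ℚ
  rw [← g1, ← g2, ← f1, ← f2, add_comm]

theorem acy_euler [Fintype V] {r : V → ℕ} (hr : Function.Injective r) {D : Set (Finset V)} (hD : Cvx D)
    (h : Acy ℚ r D) : ∑ S ∈ Finset.univ.filter (fun S : Finset V => S ∈ D), (-1 : ℤ) ^ S.card = 0 := by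
  have h1 := acy_card hr hD h
  rw [Fintype.card_subtype, Fintype.card_subtype] at h1
  have h2 : ∑ S ∈ Finset.univ.filter (fun S : Finset V => S ∈ D), (-1 : ℤ) ^ S.card =
      ((Finset.univ.filter fun S : Finset V => S ∈ D ∧ Even S.card).card : ℤ) -
      ((Finset.univ.filter fun S : Finset V => S ∈ D ∧ Odd S.card).card : ℤ) := by
    rw [Finset.card_filter, Finset.card_filter, Finset.sum_filter]
    push_cast
    rw [← Finset.sum_sub_distrib]
    refine Finset.sum_congr rfl fun S _ => ?_
    by_cases hS : S ∈ D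
    · rcases Nat.even_or_odd S.card with h3 | h3
      · have h4 : ¬ Odd S.card := Nat.not_odd_iff_even.2 h3
        simp [hS, h3, h4]
      · have h4 : ¬ Even S.card := Nat.not_even_iff_odd.2 h3
        simp [hS, h3, h4]
    · simp [hS]
  rw [h2, h1, sub_self]

theorem acy_euler_int [Fintype V] {r : V → ℕ} (hr : Function.Injective r) {D : Set (Finset V)} (hD : Cvx D)
    (h : Acy ℤ r D) : ∑ S ∈ Finset.univ.filter (fun S : Finset V => S ∈ D), (-1 : ℤ) ^ S.card = 0 :=
  acy_euler hr hD (acy_of_int h)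

end acy

/-! ### counting cliques -/

section count
variable {V : Type*} [Fintype V]

/-- the cliques -/
noncomputable def cqs (G : SimpleGraph V) : Finset (Finset V) := Finset.univ.filter fun S => G.IsClique S

lemma mem_cqs {G : SimpleGraph V} {S : Finset V} : S ∈ cqs G ↔ G.IsClique S := by
  rw [cqs, Finset.mem_filter]
  exact ⟨fun h => h.2, fun h => ⟨Finset.mem_univ _, h⟩⟩

/-- the number of cliques of size `i` -/
noncomputable def fq (G : SimpleGraph V) (i : ℕ) : ℤ := ∑ S ∈ cqs G, if S.card = i then 1 else 0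

theorem sum_link (G : SimpleGraph V) (v : V) (φ : ℕ → ℤ) :
    ∑ S ∈ (cqs G).filter (fun S => v ∈ S), φ S.card = ∑ T ∈ cqs (lk G v), φ (T.card + 1) := by
  have hv : ∀ T : Finset {w // G.Adj v w}, v ∉ T.map (Function.Embedding.subtype _) := fun T h => by
    obtain ⟨x, _, hx⟩ := Finset.mem_map.1 h
    have h1 := x.2
    rw [show (x : V) = v from hx] at h1
    exact G.loopless.1 _ h1
  refine Finset.sum_bij' (fun S _ => S.subtype (fun w => G.Adj v w))
    (fun T _ => insert v (T.map (Function.Embedding.subtype _))) ?_ ?_ ?_ ?_ ?_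
  · intro S hS
    have h1 := mem_cqs.1 (Finset.mem_filter.1 hS).1
    rw [mem_cqs]
    intro x hx y hy hxy
    exact h1 (Finset.mem_coe.2 (Finset.mem_subtype.1 (Finset.mem_coe.1 hx)))
      (Finset.mem_coe.2 (Finset.mem_subtype.1 (Finset.mem_coe.1 hy))) fun h => hxy (Subtype.ext h)
  · intro T hT
    have h1 := mem_cqs.1 hT
    rw [Finset.mem_filter, mem_cqs]
    refine ⟨isClique_insert ?_ ?_, Finset.mem_insert_self _ _⟩
    · intro x hx y hy hxy
      obtain ⟨x, hx', rfl⟩ := Finset.mem_map.1 (Finset.mem_coe.1 hx)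
      obtain ⟨y, hy', rfl⟩ := Finset.mem_map.1 (Finset.mem_coe.1 hy)
      exact h1 (Finset.mem_coe.2 hx') (Finset.mem_coe.2 hy') fun h => hxy (congrArg _ h)
    · intro x hx _
      obtain ⟨x, hx', rfl⟩ := Finset.mem_map.1 hx
      exact x.2
  · intro S hS
    have h1 := mem_cqs.1 (Finset.mem_filter.1 hS).1
    have h2 := (Finset.mem_filter.1 hS).2
    ext x
    rw [Finset.mem_insert, Finset.subtype_map, Finset.mem_filter]
    constructor
    · rintro (rfl | h)
      · exact h2
      · exact h.1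
    · intro hx
      by_cases hxv : x = v
      · exact Or.inl hxv
      · exact Or.inr ⟨hx, h1 (Finset.mem_coe.2 h2) (Finset.mem_coe.2 hx) (Ne.symm hxv)⟩
  · intro T hT
    ext x
    rw [Finset.mem_subtype, Finset.mem_insert]
    constructor
    · rintro (h | h)
      · have h1 := x.2
        rw [h] at h1
        exact absurd h1 (G.loopless.1 _)
      · obtain ⟨y, hy, hyx⟩ := Finset.mem_map.1 h
        have h3 : y = x := Subtype.ext hyx
        exact h3 ▸ hy
    · intro h
      exact Or.inr (Finset.mem_map.2 ⟨x, h, rfl⟩)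
  · intro S hS
    have h1 := mem_cqs.1 (Finset.mem_filter.1 hS).1
    have h2 := (Finset.mem_filter.1 hS).2
    congr 1
    have h3 : (S.subtype (fun w => G.Adj v w)).card = (S.erase v).card := by
      rw [← Finset.card_map (Function.Embedding.subtype _), Finset.subtype_map]
      congr 1
      ext x
      rw [Finset.mem_filter, Finset.mem_erase]
      constructor
      · rintro ⟨h3, h4⟩
        exact ⟨h4.ne', h3⟩
      · rintro ⟨h3, h4⟩
        exact ⟨h4, h1 (Finset.mem_coe.2 h2) (Finset.mem_coe.2 h4) h3.symm⟩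
    rw [h3, Finset.card_erase_add_one h2]

/-- double counting -/
theorem sum_links (G : SimpleGraph V) (φ : ℕ → ℤ) :
    ∑ v : V, ∑ T ∈ cqs (lk G v), φ (T.card + 1) = ∑ S ∈ cqs G, (S.card : ℤ) * φ S.card := by
  have h1 : ∀ v : V, ∑ T ∈ cqs (lk G v), φ (T.card + 1) = ∑ S ∈ cqs G, if v ∈ S then φ S.card else 0 := by
    intro v
    rw [← sum_link, Finset.sum_filter]
  rw [Finset.sum_congr rfl fun v _ => h1 v, Finset.sum_comm]
  refine Finset.sum_congr rfl fun S _ => ?_
  rw [← Finset.sum_filter, Finset.sum_const, nsmul_eq_mul]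
  congr 2
  congr 1
  ext x
  rw [Finset.mem_filter]
  exact ⟨fun h => h.2, fun h => ⟨Finset.mem_univ _, h⟩⟩

theorem sum_fq_links (G : SimpleGraph V) (i : ℕ) : ∑ v : V, fq (lk G v) i = (i + 1 : ℤ) * fq G (i + 1) := by
  have h1 := sum_links G fun k => if k = i + 1 then 1 else 0
  have h2 : ∀ v : V, fq (lk G v) i = ∑ T ∈ cqs (lk G v), if T.card + 1 = i + 1 then (1 : ℤ) else 0 := by
    intro v
    unfold fq
    refine Finset.sum_congr rfl fun T _ => ?_
    by_cases h : T.card = i
    · rw [if_pos h, if_pos (by omega)]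
    · rw [if_neg h, if_neg (by omega)]
  rw [Finset.sum_congr rfl fun v _ => h2 v, h1]
  unfold fq
  rw [Finset.mul_sum]
  refine Finset.sum_congr rfl fun S _ => ?_
  by_cases h : S.card = i + 1
  · rw [if_pos h, h]
    push_cast
    ring
  · rw [if_neg h, mul_zero, mul_zero]

theorem fq_zero (G : SimpleGraph V) : fq G 0 = 1 := by
  unfold fq
  rw [Finset.sum_eq_single_of_mem (∅ : Finset V) (mem_cqs.2 (by simp))]
  · rw [if_pos Finset.card_empty]
  · intro S _ hS
    rw [if_neg fun h => hS (Finset.card_eq_zero.1 h)]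

theorem fq_one (G : SimpleGraph V) : fq G 1 = Fintype.card V := by
  have h := sum_fq_links G 0
  rw [Finset.sum_congr rfl fun v _ => fq_zero (lk G v), Finset.sum_const, Finset.card_univ, nsmul_eq_mul, mul_one]
    at h
  rw [h]
  push_cast
  ring

/-- if all cliques have at most `n` elements -/
theorem sum_cqs {G : SimpleGraph V} {n : ℕ} (hd : ∀ S : Finset V, G.IsClique S → S.card ≤ n) (φ : ℕ → ℤ) :
    ∑ S ∈ cqs G, φ S.card = ∑ i ∈ Finset.range (n + 1), φ i * fq G i := by
  have h1 : ∀ S ∈ cqs G, φ S.card = ∑ i ∈ Finset.range (n + 1), φ i * if S.card = i then 1 else 0 := by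
    intro S hS
    have h2 := hd S (mem_cqs.1 hS)
    rw [Finset.sum_eq_single_of_mem S.card (Finset.mem_range.2 (by omega)), if_pos rfl, mul_one]
    intro i _ hi
    rw [if_neg (Ne.symm hi), mul_zero]
  rw [Finset.sum_congr rfl h1, Finset.sum_comm]
  refine Finset.sum_congr rfl fun i _ => ?_
  unfold fq
  rw [Finset.mul_sum]

end count

/-! ### flag homology spheres -/

section sphere
variable {V : Type u} [Fintype V] {G : SimpleGraph V}

theorem euler_goodQ {n : ℕ} (h : GoodQ (fun n {V} [Fintype V] (G : SimpleGraph V) => QS.{u} n G) n G) :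
    ∑ S ∈ cqs G, (-1 : ℤ) ^ S.card = (-1) ^ n := by
  induction n generalizing V with
  | zero =>
    have h' : IsEmpty V := h
    have h0 : cqs G = {∅} := by
      ext S
      rw [mem_cqs, Finset.mem_singleton]
      constructor
      · intro _
        exact Finset.eq_empty_of_forall_notMem fun x _ => h'.elim x
      · rintro rfl
        simp
    rw [h0, Finset.sum_singleton, Finset.card_empty]
  | succ n ih =>
    rw [goodQ_succ_iff] at h
    have hQ := qs_iff.1 h.1
    obtain ⟨v⟩ := hQ.1
    have h1 := hQ.2 {v} (Finset.singleton_nonempty v) (by simp) (fun x => (Fintype.equivFin V x : ℕ))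
      (fun a b h => (Fintype.equivFin _).injective (Fin.ext h))
    have h2 := acy_euler_int (fun a b h => (Fintype.equivFin V).injective (Fin.ext h))
      (cvx_of_lower lower_Clq) h1
    rw [← Finset.sum_filter_add_sum_filter_not (cqs G) (fun S => v ∈ S), sum_link G v fun k => (-1) ^ k]
    have h3 : ∑ S ∈ (cqs G).filter (fun S => ¬ v ∈ S), (-1 : ℤ) ^ S.card = 0 := by
      rw [← h2]
      refine Finset.sum_congr ?_ fun _ _ => rfl
      ext S
      rw [Finset.mem_filter, mem_cqs, Finset.mem_filter]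
      constructor
      · rintro ⟨h4, h5⟩
        exact ⟨Finset.mem_univ _, h4, Finset.disjoint_singleton_right.2 h5⟩
      · rintro ⟨_, h4, h5⟩
        exact ⟨h4, Finset.disjoint_singleton_right.1 h5⟩
    rw [h3, add_zero]
    have h4 := ih (h.2 v)
    simp only [pow_succ, mul_neg, mul_one, Finset.sum_neg_distrib]
    rw [h4]

theorem goodQ_one_card (h : GoodQ (fun n {V} [Fintype V] (G : SimpleGraph V) => QS.{u} n G) 1 G) :
    Fintype.card V = 2 := by
  have h1 := euler_goodQ h
  rw [sum_cqs (n := 1) (fun S hS => dim_of_goodQ h hS) fun k => (-1) ^ k] at h1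
  simp only [Finset.sum_range_succ, Finset.sum_range_zero, fq_zero, fq_one] at h1
  have h2 : (Fintype.card V : ℤ) = 2 := by
    linarith
  exact_mod_cast h2

theorem goodQ_one_pair (h : GoodQ (fun n {V} [Fintype V] (G : SimpleGraph V) => QS.{u} n G) 1 G) :
    ∃ a b : V, a ≠ b ∧ (∀ v, v = a ∨ v = b) ∧ ∀ u v, ¬ G.Adj u v := by
  have h1 := goodQ_one_card h
  rw [← Finset.card_univ, Finset.card_eq_two] at h1
  obtain ⟨a, b, hab, h2⟩ := h1
  refine ⟨a, b, hab, fun v => ?_, fun u v huv => ?_⟩
  · have h3 : v ∈ (Finset.univ : Finset V) := Finset.mem_univ v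
    rw [h2, Finset.mem_insert, Finset.mem_singleton] at h3
    exact h3
  · have h3 := dim_of_goodQ h (S := {u, v}) (by
      rw [Finset.coe_insert, Finset.coe_singleton, SimpleGraph.isClique_insert]
      exact ⟨by simp, fun x hx _ => by
        rw [Set.mem_singleton_iff.1 hx]
        exact huv⟩)
    rw [Finset.card_pair huv.ne] at h3
    omega

theorem goodQ_two_nbr (h : GoodQ (fun n {V} [Fintype V] (G : SimpleGraph V) => QS.{u} n G) 2 G) (v : V) :
    ∃ a b : V, a ≠ b ∧ ¬ G.Adj a b ∧ ∀ w, G.Adj v w ↔ w = a ∨ w = b := by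
  obtain ⟨a, b, hab, h1, h2⟩ := goodQ_one_pair ((goodQ_succ_iff.1 h).2 v)
  refine ⟨a.1, b.1, fun h3 => hab (Subtype.ext h3), h2 a b, fun w => ⟨fun hw => ?_, ?_⟩⟩
  · rcases h1 ⟨w, hw⟩ with h3 | h3
    · exact Or.inl (congrArg Subtype.val h3)
    · exact Or.inr (congrArg Subtype.val h3)
  · rintro (rfl | rfl)
    · exact a.2
    · exact b.2

theorem goodQ_three_edge (h : GoodQ (fun n {V} [Fintype V] (G : SimpleGraph V) => QS.{u} n G) 3 G) {u v : V}
    (huv : G.Adj u v) : ∃ a b : V, a ≠ b ∧ ¬ G.Adj a b ∧ ∀ w, (G.Adj u w ∧ G.Adj v w) ↔ w = a ∨ w = b := by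
  obtain ⟨a, b, hab, h1, h2⟩ := goodQ_two_nbr ((goodQ_succ_iff.1 h).2 u) ⟨v, huv⟩
  refine ⟨a.1, b.1, fun h3 => hab (Subtype.ext h3), h1, fun w => ⟨fun hw => ?_, ?_⟩⟩
  · rcases (h2 ⟨w, hw.1⟩).1 hw.2 with h3 | h3
    · exact Or.inl (congrArg Subtype.val h3)
    · exact Or.inr (congrArg Subtype.val h3)
  · rintro (h3 | h3)
    · rw [h3]
      exact ⟨a.2, (h2 a).2 (Or.inl rfl)⟩
    · rw [h3]
      exact ⟨b.2, (h2 b).2 (Or.inr rfl)⟩

/-- a flag homology circle has as many edges as vertices -/
theorem goodQ_two_fq (h : GoodQ (fun n {V} [Fintype V] (G : SimpleGraph V) => QS.{u} n G) 2 G) :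
    fq G 2 = fq G 1 := by
  have h1 := euler_goodQ h
  rw [sum_cqs (n := 2) (fun S hS => dim_of_goodQ h hS) fun k => (-1) ^ k] at h1
  simp only [Finset.sum_range_succ, Finset.sum_range_zero, fq_zero] at h1
  linarith

/-- the sum of the degrees -/
theorem goodQ_three_sum (h : GoodQ (fun n {V} [Fintype V] (G : SimpleGraph V) => QS.{u} n G) 3 G) :
    ∑ v : V, (Nat.card {w // G.Adj v w} : ℤ) = 6 * Fintype.card V - 12 := by
  have h1 := euler_goodQ h
  rw [sum_cqs (n := 3) (fun S hS => dim_of_goodQ h hS) fun k => (-1) ^ k] at h1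
  simp only [Finset.sum_range_succ, Finset.sum_range_zero, fq_zero, fq_one] at h1
  have h2 := sum_fq_links G 1
  have h3 := sum_fq_links G 2
  have h4 : ∀ v : V, fq (lk G v) 2 = fq (lk G v) 1 := fun v => goodQ_two_fq ((goodQ_succ_iff.1 h).2 v)
  rw [Finset.sum_congr rfl fun v _ => h4 v, h2] at h3
  have h5 : ∀ v : V, fq (lk G v) 1 = Nat.card {w // G.Adj v w} := fun v => by
    rw [fq_one, Nat.card_eq_fintype_card]
  rw [Finset.sum_congr rfl fun v _ => h5 v] at h2
  rw [h2]
  push_cast at h3 ⊢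
  linarith

/-- **a flag homology 2-sphere has a vertex of degree at most five** -/
theorem exists_deg_le_five (h : GoodQ (fun n {V} [Fintype V] (G : SimpleGraph V) => QS.{u} n G) 3 G) :
    ∃ v : V, Nat.card {w // G.Adj v w} ≤ 5 := by
  by_contra hc
  push Not at hc
  have h1 := goodQ_three_sum h
  have h2 : ∑ v : V, (6 : ℤ) ≤ ∑ v : V, (Nat.card {w // G.Adj v w} : ℤ) :=
    Finset.sum_le_sum fun v _ => by exact_mod_cast hc v
  rw [h1, Finset.sum_const, Finset.card_univ, nsmul_eq_mul] at h2
  linarith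

theorem exists_nbrs_le_five (h : GoodQ (fun n {V} [Fintype V] (G : SimpleGraph V) => QS.{u} n G) 3 G) :
    ∃ v : V, ∃ N : Finset V, (∀ w, w ∈ N ↔ G.Adj v w) ∧ N.card ≤ 5 := by
  obtain ⟨v, hv⟩ := exists_deg_le_five h
  refine ⟨v, Finset.univ.filter fun w => G.Adj v w, fun w => by simp, ?_⟩
  rwa [← Fintype.card_subtype, ← Nat.card_eq_fintype_card]

end sphere

end Singer
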