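import Pool.Agent.Singer.Basic

/-!
# Singer: the cone formula

`dn r a` = link operator, `up r a` = cone operator; `Nbr G a A U`: `U` is the link of `a ∉ A` in `A`.
The formula `(F)` for the Betti numbers of `insert a A` is `cone_succ`, `cone_zero`.
-/

set_option autoImplicit false
set_option linter.unusedSectionVars false
set_option linter.unusedVariables false

open scoped ComplexConjugate InnerProductSpace
open Filter Topology

namespace Singer

/-! ### link and cone operators -/

section dnup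
variable {Γ : Type*} [Group Γ] {V : Type*} [Fintype V] [DecidableEq V]

/-- `(dn r a f)(g,T) = sg r a T f(g, T + a)` for `a ∉ T` -/
noncomputable def dn (r : V → ℕ) (a : V) : E Γ (Finset V) →L[ℂ] E Γ (Finset V) :=
  ∑ T : Finset V, if a ∈ T then 0 else sg r a T • col (insert a T) T

/-- `(up r a y)(g, T + a) = sg r a T y(g, T)` for `a ∉ T` -/
noncomputable def up (r : V → ℕ) (a : V) : E Γ (Finset V) →L[ℂ] E Γ (Finset V) :=
  ∑ T : Finset V, if a ∈ T then 0 else sg r a T • col T (insert a T)

variable {r : V → ℕ} {a : V}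

lemma dn_apply_mem {T : Finset V} (h : a ∈ T) (f : E Γ (Finset V)) (g : Γ) : dn r a f (g, T) = 0 := by
  classical
  unfold dn
  rw [sum_apply, lp.coeFn_sum, Finset.sum_apply]
  refine Finset.sum_eq_zero fun S _ => ?_
  by_cases hS : a ∈ S
  · rw [if_pos hS]; rfl
  · rw [if_neg hS]
    have : T ≠ S := fun e => hS (e ▸ h)
    simp [col_apply, this]

lemma dn_apply {T : Finset V} (h : a ∉ T) (f : E Γ (Finset V)) (g : Γ) :
    dn r a f (g, T) = sg r a T * f (g, insert a T) := by
  classical
  unfold dn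
  rw [sum_apply, lp.coeFn_sum, Finset.sum_apply, Finset.sum_eq_single T]
  · rw [if_neg h]
    simp [col_apply]
  · intro S _ hS
    by_cases hS' : a ∈ S
    · rw [if_pos hS']; rfl
    · rw [if_neg hS']
      simp [col_apply, Ne.symm hS]
  · intro h'
    exact absurd (Finset.mem_univ T) h'

lemma up_apply_notMem {T : Finset V} (h : a ∉ T) (f : E Γ (Finset V)) (g : Γ) : up r a f (g, T) = 0 := by
  classical
  unfold up
  rw [sum_apply, lp.coeFn_sum, Finset.sum_apply]
  refine Finset.sum_eq_zero fun S _ => ?_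
  by_cases hS : a ∈ S
  · rw [if_pos hS]; rfl
  · rw [if_neg hS]
    have : T ≠ insert a S := fun e => h (e ▸ Finset.mem_insert_self _ _)
    simp [col_apply, this]

lemma up_apply {T : Finset V} (h : a ∉ T) (f : E Γ (Finset V)) (g : Γ) :
    up r a f (g, insert a T) = sg r a T * f (g, T) := by
  classical
  unfold up
  rw [sum_apply, lp.coeFn_sum, Finset.sum_apply, Finset.sum_eq_single T]
  · rw [if_neg h]
    simp [col_apply]
  · intro S _ hS
    by_cases hS' : a ∈ S
    · rw [if_pos hS']; rfl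
    · rw [if_neg hS']
      have : insert a T ≠ insert a S := by
        intro e
        apply hS
        rw [← Finset.erase_insert h, e, Finset.erase_insert hS']
      simp [col_apply, this]
  · intro h'
    exact absurd (Finset.mem_univ T) h'

lemma equi_dn (r : V → ℕ) (a : V) : Equi (dn r a : E Γ (Finset V) →L[ℂ] E Γ (Finset V)) := by
  refine Equi.sum fun T _ => ?_
  split_ifs
  · exact equi_zero
  · exact (equi_col _ _).smul _

lemma equi_up (r : V → ℕ) (a : V) : Equi (up r a : E Γ (Finset V) →L[ℂ] E Γ (Finset V)) := by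
  refine Equi.sum fun T _ => ?_
  split_ifs
  · exact equi_zero
  · exact (equi_col _ _).smul _

/-- the link operator anticommutes with the boundary -/
lemma dn_D (hr : Function.Injective r) (f : E Γ (Finset V)) : dn r a (D r f) = - D r (dn r a f) := by
  ext x
  obtain ⟨g, T⟩ := x
  rw [lp.coeFn_neg, Pi.neg_apply, D_apply]
  by_cases h : a ∈ T
  · rw [dn_apply_mem h, Finset.sum_eq_zero, neg_zero]
    intro v _
    rw [dn_apply_mem (Finset.mem_insert_of_mem h), mul_zero]
  · rw [dn_apply h, D_apply, Finset.mul_sum, ← Finset.sum_neg_distrib, Finset.compl_insert,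
      ← Finset.sum_erase (s := Tᶜ) (a := a)
        (f := fun v => -(sg r v T * (dn r a f) (g, insert v T)))
        (by rw [dn_apply_mem (Finset.mem_insert_self _ _)]; simp)]
    refine Finset.sum_congr rfl fun v hv => ?_
    have hva : v ≠ a := Finset.ne_of_mem_erase hv
    have hvT : v ∉ T := by simpa using Finset.mem_of_mem_erase hv
    rw [dn_apply (by simp [Ne.symm hva, h]), Finset.insert_comm v a]
    have := sg_anti r hr h hvT (Ne.symm hva)
    linear_combination f (g, insert a (insert v T)) * this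

/-- functions living on sets not containing `a` -/
def Off (a : V) (f : E Γ (Finset V)) : Prop := ∀ g T, a ∈ T → f (g, T) = 0

lemma off_dn (f : E Γ (Finset V)) : Off a (dn r a f) := fun g T h => dn_apply_mem h f g

lemma dn_eq_zero {f : E Γ (Finset V)} (h : Off a f) : dn r a f = 0 := by
  ext x
  obtain ⟨g, T⟩ := x
  by_cases hT : a ∈ T
  · rw [dn_apply_mem hT]; rfl
  · rw [dn_apply hT, h g _ (Finset.mem_insert_self _ _), mul_zero]; rfl

lemma sg_ne_zero (v : V) (T : Finset V) : sg r v T ≠ 0 := by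
  intro e
  have := sg_sq r v T
  rw [e] at this
  simp at this

lemma off_of_dn {f : E Γ (Finset V)} (h : dn r a f = 0) : Off a f := by
  intro g T hT
  have h1 := dn_apply (r := r) (Finset.notMem_erase a T) f g
  rw [h, Finset.insert_erase hT] at h1
  have h3 : sg r a (T.erase a) * f (g, T) = 0 := by rw [← h1]; rfl
  exact (mul_eq_zero.1 h3).resolve_left (sg_ne_zero _ _)

lemma dn_up {y : E Γ (Finset V)} (h : Off a y) : dn r a (up r a y) = y := by
  ext x
  obtain ⟨g, T⟩ := x
  by_cases hT : a ∈ T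
  · rw [dn_apply_mem hT, h g T hT]
  · rw [dn_apply hT, up_apply hT, ← mul_assoc, sg_sq, one_mul]

lemma off_sub_up_dn (f : E Γ (Finset V)) : Off a (f - up r a (dn r a f)) := by
  apply off_of_dn (r := r)
  rw [map_sub, dn_up (off_dn f), sub_self]

/-- boundary of a cone -/
lemma D_up (hr : Function.Injective r) {y : E Γ (Finset V)} (h : Off a y) : D r (up r a y) = y - up r a (D r y) := by
  ext x
  obtain ⟨g, T⟩ := x
  rw [lp.coeFn_sub, Pi.sub_apply, D_apply]
  by_cases hT : a ∈ T
  · rw [h g T hT, zero_sub]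
    have e1 := up_apply (r := r) (Finset.notMem_erase a T) (D r y) g
    rw [Finset.insert_erase hT] at e1
    rw [e1, D_apply, Finset.mul_sum, Finset.compl_erase,
      Finset.sum_insert (by simpa using hT), Finset.insert_erase hT, h g T hT, mul_zero, mul_zero, zero_add,
      ← Finset.sum_neg_distrib]
    refine Finset.sum_congr rfl fun v hv => ?_
    have hvT : v ∉ T := by simpa using hv
    have hva : a ≠ v := fun e => hvT (e ▸ hT)
    have e2 : insert v T = insert a (insert v (T.erase a)) := by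
      rw [Finset.insert_comm, Finset.insert_erase hT]
    have e3 := up_apply (r := r) (a := a) (T := insert v (T.erase a)) (by simp [hva]) y g
    rw [← e2] at e3
    rw [e3]
    have e4 := sg_anti r hr (u := a) (v := v) (T := T.erase a) (by simp) (by simp [hvT]) hva
    rw [Finset.insert_erase hT] at e4
    have e5 := sg_sq r a (T.erase a)
    have e6 := sg_sq r a (insert v (T.erase a))
    linear_combination (sg r a (T.erase a) * sg r a (insert v (T.erase a)) * y (g, insert v (T.erase a))) * e4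
      - (sg r a (insert v (T.erase a)) * sg r v T * y (g, insert v (T.erase a))) * e5
      - (sg r a (T.erase a) * sg r v (T.erase a) * y (g, insert v (T.erase a))) * e6
  · rw [up_apply_notMem hT, sub_zero, Finset.sum_eq_single a]
    · rw [up_apply hT, ← mul_assoc, sg_sq, one_mul]
    · intro v hv hva
      have : a ∉ insert v T := by simp [Ne.symm hva, hT]
      rw [up_apply_notMem this, mul_zero]
    · intro h'
      exact absurd (by simpa using hT) h'

end dnup

section cone
variable {Γ : Type*} [Group Γ] {V : Type*} [Fintype V] [DecidableEq V]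

/-- `U` = the neighbours of `a` in `A` -/
structure Nbr (G : SimpleGraph V) (a : V) (A U : Finset V) : Prop where
  notMem : a ∉ A
  mem : ∀ v, v ∈ U ↔ v ∈ A ∧ G.Adj a v

variable {r : V → ℕ} {G : SimpleGraph V} {s : V → Γ} {a : V} {A U : Finset V} {i : ℕ}

lemma Nbr.subset (h : Nbr G a A U) : U ⊆ A := fun v hv => ((h.mem v).1 hv).1

lemma Nbr.notMem' (h : Nbr G a A U) : a ∉ U := fun ha => h.notMem (h.subset ha)

lemma off_Ch (ha : a ∉ A) {f : E Γ (Finset V)} (hf : f ∈ Ch G s A i) : Off a f := by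
  intro g T hT
  by_contra hne
  exact ha ((hf.1 (g, T) hne).1 hT)

lemma dn_mem_Ch (h : Nbr G a A U) {f : E Γ (Finset V)} (hf : f ∈ Ch G s (insert a A) (i + 1)) :
    dn r a f ∈ Ch G s U i := by
  obtain ⟨h1, h2⟩ := hf
  constructor
  · rintro ⟨g, T⟩ hx
    by_cases haT : a ∈ T
    · exact absurd (dn_apply_mem haT f g) hx
    · rw [dn_apply haT] at hx
      obtain ⟨c1, c2, c3⟩ := h1 (g, insert a T) (right_ne_zero_of_mul hx)
      have c2' : (insert a T).card = i + 1 := c2
      rw [Finset.card_insert_of_notMem haT] at c2'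
      refine ⟨fun x hx' => ?_, by simpa using c2', c3.subset (by simp)⟩
      have hx'' : x ∈ T := hx'
      have hxa : x ≠ a := fun e => haT (e ▸ hx'')
      rw [h.mem]
      refine ⟨(Finset.mem_insert.1 (c1 (Finset.mem_insert_of_mem hx''))).resolve_left hxa, ?_⟩
      exact c3 (by simp) (by simp [hx'']) (Ne.symm hxa)
  · intro g T v hv
    by_cases haT : a ∈ T
    · rw [dn_apply_mem haT, dn_apply_mem haT, neg_zero]
    · rw [dn_apply haT, dn_apply haT, h2 g _ v (Finset.mem_insert_of_mem hv)]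
      ring

lemma dn_mem_asym {B : Finset V} {f : E Γ (Finset V)} (hf : f ∈ Ch G s B i) :
    dn r a f ∈ (asym (s a) : Submodule ℂ (E Γ (Finset V))) := by
  rw [mem_asym]
  ext x
  obtain ⟨g, T⟩ := x
  rw [rt_apply, lp.coeFn_neg, Pi.neg_apply]
  show (dn r a f) (g * s a, T) = _
  by_cases haT : a ∈ T
  · rw [dn_apply_mem haT, dn_apply_mem haT, neg_zero]
  · rw [dn_apply haT, dn_apply haT, hf.2 g _ a (Finset.mem_insert_self _ _)]
    ring

lemma up_mem_Ch (h : Nbr G a A U) {y : E Γ (Finset V)} (hy : y ∈ Ch G s U i)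
    (hn : y ∈ (asym (s a) : Submodule ℂ (E Γ (Finset V)))) : up r a y ∈ Ch G s (insert a A) (i + 1) := by
  obtain ⟨h1, h2⟩ := hy
  rw [mem_asym] at hn
  constructor
  · rintro ⟨g, S⟩ hx
    by_cases haS : a ∈ S
    · have e := up_apply (r := r) (Finset.notMem_erase a S) y g
      rw [Finset.insert_erase haS] at e
      rw [e] at hx
      obtain ⟨c1, c2, c3⟩ := h1 (g, S.erase a) (right_ne_zero_of_mul hx)
      refine ⟨?_, ?_, ?_⟩
      · intro x hx'
        by_cases hxa : x = a
        · rw [hxa]; exact Finset.mem_insert_self _ _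
        · exact Finset.mem_insert_of_mem (h.subset (c1 (Finset.mem_erase.2 ⟨hxa, hx'⟩)))
      · have c2' : (S.erase a).card = i := c2
        rw [Finset.card_erase_of_mem haS] at c2'
        have : 0 < S.card := Finset.card_pos.2 ⟨a, haS⟩
        show S.card = i + 1
        omega
      · intro x hx' z hz hxz
        have hx'' : x ∈ S := hx'
        have hz' : z ∈ S := hz
        by_cases hxa : x = a
        · subst hxa
          exact ((h.mem z).1 (c1 (Finset.mem_erase.2 ⟨Ne.symm hxz, hz'⟩))).2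
        · by_cases hza : z = a
          · subst hza
            exact ((h.mem x).1 (c1 (Finset.mem_erase.2 ⟨hxz, hx''⟩))).2.symm
          · exact c3 (by simp [hxa, hx'']) (by simp [hza, hz']) hxz
    · exact absurd (up_apply_notMem haS y g) hx
  · intro g S v hv
    by_cases haS : a ∈ S
    · have e := up_apply (r := r) (Finset.notMem_erase a S) y
      rw [Finset.insert_erase haS] at e
      rw [e, e]
      by_cases hva : v = a
      · subst hva
        have := congrArg (fun f : E Γ (Finset V) => f (g, S.erase v)) hn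
        simp only [rt_apply, lp.coeFn_neg, Pi.neg_apply] at this
        rw [this]
        ring
      · rw [h2 g _ v (by simp [hva, hv])]
        ring
    · rw [up_apply_notMem haS, up_apply_notMem haS, neg_zero]

lemma sub_mem_Ch (ha : a ∉ A) {f : E Γ (Finset V)} (hf : f ∈ Ch G s (insert a A) i) :
    f - up r a (dn r a f) ∈ Ch G s A i := by
  obtain ⟨h1, h2⟩ := hf
  have hoff := off_sub_up_dn (r := r) (a := a) f
  have e : ∀ g T, a ∉ T → (f - up r a (dn r a f) : E Γ (Finset V)) (g, T) = f (g, T) := by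
    intro g T hT
    rw [lp.coeFn_sub, Pi.sub_apply, up_apply_notMem hT, sub_zero]
  constructor
  · rintro ⟨g, S⟩ hx
    by_cases haS : a ∈ S
    · exact absurd (hoff g S haS) hx
    · rw [e g S haS] at hx
      obtain ⟨c1, c2, c3⟩ := h1 (g, S) hx
      refine ⟨fun x hx' => (Finset.mem_insert.1 (c1 hx')).resolve_left ?_, c2, c3⟩
      rintro rfl
      exact haS hx'
  · intro g S v hv
    by_cases haS : a ∈ S
    · rw [hoff _ S haS, hoff _ S haS, neg_zero]
    · rw [e _ S haS, e _ S haS, h2 g S v hv]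

lemma Ch_inf_ker (ha : a ∉ A) :
    Ch G s (insert a A) i ⊓
      LinearMap.ker ((dn r a : E Γ (Finset V) →L[ℂ] E Γ (Finset V)) : E Γ (Finset V) →ₗ[ℂ] E Γ (Finset V)) =
      Ch G s A i := by
  ext f
  constructor
  · rintro ⟨h1, h2⟩
    have h3 := sub_mem_Ch (r := r) ha h1
    rwa [show dn r a f = 0 from h2, map_zero, sub_zero] at h3
  · intro h
    exact ⟨Ch_mono G s (Finset.subset_insert _ _) i h, dn_eq_zero (off_Ch ha h)⟩

lemma map_dn_Ch (h : Nbr G a A U) :
    (Ch G s (insert a A) (i + 1)).map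
      ((dn r a : E Γ (Finset V) →L[ℂ] E Γ (Finset V)) : E Γ (Finset V) →ₗ[ℂ] E Γ (Finset V)) =
      Ch G s U i ⊓ asym (s a) := by
  ext y
  constructor
  · rintro ⟨f, hf, rfl⟩
    exact ⟨dn_mem_Ch h hf, dn_mem_asym hf⟩
  · rintro ⟨h1, h2⟩
    exact ⟨up r a y, up_mem_Ch h h1 h2, dn_up (off_Ch h.notMem' h1)⟩

lemma comm_sub (hs : IsSys G s) (h : Nbr G a A U) : ∀ g ∈ sub s U, s a * g = g * s a := by
  intro g hg
  induction hg using Subgroup.closure_induction with
  | mem x hx =>
    obtain ⟨v, hv, rfl⟩ := hx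
    exact hs.comm a v ((h.mem v).1 hv).2
  | one => simp
  | mul x y _ _ hx hy => rw [← mul_assoc, hx, mul_assoc, hy, mul_assoc]
  | inv x _ hx =>
    have : Commute (s a) x := hx
    exact this.inv_right

lemma half_sub (hs : IsSys G s) (h : Nbr G a A U) (hf : s a ∉ sub s U) {W : Submodule ℂ (E Γ (Finset V))}
    (hW : Mdl W) (hL : Loc (sub s U) W) : 2 * vdim (W ⊓ asym (s a)) = vdim W :=
  vdim_asym hW.inv hW.cl hL (hs.sq a) (comm_sub hs h) hf

lemma vdim_Ch_cone (h : Nbr G a A U) : vdim (Ch G s (insert a A) (i + 1)) =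
    vdim (Ch G s A (i + 1)) + vdim (Ch G s U i ⊓ asym (s a)) := by
  have := vdim_map_add (equi_dn (fun _ => 0) a) (mdl_Ch G s (insert a A) (i + 1)).inv (mdl_Ch G s (insert a A) (i + 1)).cl
  rw [map_dn_Ch h, Ch_inf_ker h.notMem] at this
  linarith

lemma Cy_inf_ker (ha : a ∉ A) : Cy r G s (insert a A) i ⊓
      LinearMap.ker ((dn r a : E Γ (Finset V) →L[ℂ] E Γ (Finset V)) : E Γ (Finset V) →ₗ[ℂ] E Γ (Finset V)) =
    Cy r G s A i := by
  unfold Cy
  rw [inf_right_comm, Ch_inf_ker ha]

lemma map_dn_Cy (hr : Function.Injective r) (h : Nbr G a A U) :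
    (Cy r G s (insert a A) (i + 1)).map
      ((dn r a : E Γ (Finset V) →L[ℂ] E Γ (Finset V)) : E Γ (Finset V) →ₗ[ℂ] E Γ (Finset V)) =
    Cy r G s U i ⊓ asym (s a) ⊓ (Ch G s A (i + 1)).map
      ((D r : E Γ (Finset V) →L[ℂ] E Γ (Finset V)) : E Γ (Finset V) →ₗ[ℂ] E Γ (Finset V)) := by
  ext y
  constructor
  · rintro ⟨f, ⟨hf, hb⟩, rfl⟩
    have hb' : D r f = 0 := hb
    have h1 : D r (dn r a f) = 0 := by
      have := dn_D (a := a) hr f
      rw [hb', map_zero] at this
      exact neg_eq_zero.1 this.symm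
    have h3 : D r (f - up r a (dn r a f)) = - dn r a f := by
      rw [map_sub, hb', D_up hr (off_dn f), h1, map_zero, sub_zero, zero_sub]
    refine ⟨⟨⟨dn_mem_Ch h hf, h1⟩, dn_mem_asym hf⟩, - (f - up r a (dn r a f)),
      Submodule.neg_mem _ (sub_mem_Ch h.notMem hf), ?_⟩
    show D r (-(f - up r a (dn r a f))) = dn r a f
    rw [map_neg, h3, neg_neg]
  · rintro ⟨⟨⟨h1, h2⟩, h3⟩, x, hx, hxy⟩
    have h2' : D r y = 0 := h2
    have hxy' : D r x = y := hxy
    have hoff : Off a y := off_Ch h.notMem' h1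
    refine ⟨- x + up r a y, ⟨Submodule.add_mem _ (Submodule.neg_mem _ (Ch_mono G s (Finset.subset_insert _ _) _ hx))
      (up_mem_Ch h h1 h3), ?_⟩, ?_⟩
    · show D r (- x + up r a y) = 0
      rw [map_add, map_neg, hxy', D_up hr hoff, h2', map_zero, sub_zero, neg_add_cancel]
    · show dn r a (- x + up r a y) = y
      rw [map_add, map_neg, dn_eq_zero (off_Ch h.notMem hx), dn_up hoff, neg_zero, zero_add]

lemma vdim_Cy_cone (hr : Function.Injective r) (h : Nbr G a A U) : vdim (Cy r G s (insert a A) (i + 1)) =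
    vdim (Cy r G s A (i + 1)) + vdim (Cy r G s U i ⊓ asym (s a) ⊓ Bd r G s A i) := by
  have := vdim_map_add (equi_dn r a) (mdl_Cy r G s (insert a A) (i + 1)).inv (mdl_Cy r G s (insert a A) (i + 1)).cl
  rw [map_dn_Cy hr h, Cy_inf_ker h.notMem, ← vdim_closure,
    closure_inf_map_D r G s ((mdl_Cy r G s U i).inf (mdl_asym _)) A i] at this
  linarith

/-- the cone formula -/
theorem cone_succ (hr : Function.Injective r) (hs : IsSys G s) (h : Nbr G a A U) (hf : s a ∉ sub s U) (i : ℕ) :
    bn r G s (insert a A) (i + 1) =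
      kap r G s a U A i + bn r G s A (i + 1) - bn r G s U (i + 1) / 2 + kap r G s a U A (i + 1) := by
  have e1 := vdim_Cy_cone (s := s) (i := i) hr h
  have e2 := vdim_Cy_cone (s := s) (i := i + 1) hr h
  have e3 := vdim_Ch_cone (s := s) (i := i + 1) h
  have e4 := vdim_Bd r G s (insert a A) (i + 1)
  have e5 := vdim_Bd r G s A (i + 1)
  have e6 := vdim_Bd r G s U i
  have e7 := half_sub hs h hf (mdl_Ch G s U (i + 1)) (loc_Ch G s U (i + 1))
  have e8 := half_sub hs h hf (mdl_Bd r G s U i) (loc_Bd r G s U i)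
  have e9 := half_sub hs h hf (mdl_Bd r G s U (i + 1)) (loc_Bd r G s U (i + 1))
  unfold bn kap
  linarith

theorem cone_zero (hr : Function.Injective r) (hs : IsSys G s) (h : Nbr G a A U) (hf : s a ∉ sub s U) :
    bn r G s (insert a A) 0 = bn r G s A 0 - bn r G s U 0 / 2 + kap r G s a U A 0 := by
  have e1 := vdim_Cy_cone (s := s) (i := 0) hr h
  have e3 := vdim_Ch_cone (s := s) (i := 0) h
  have e4 := vdim_Bd r G s (insert a A) 0
  have e5 := vdim_Bd r G s A 0
  have e7 := half_sub hs h hf (mdl_Ch G s U 0) (loc_Ch G s U 0)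
  have e8 := half_sub hs h hf (mdl_Bd r G s U 0) (loc_Bd r G s U 0)
  have c1 : vdim (Cy r G s (insert a A) 0) = vdim (Ch G s A 0) := by
    rw [Cy_zero, Ch_zero G s (insert a A) A]
  have c2 : vdim (Cy r G s U 0) = vdim (Ch G s U 0) := by rw [Cy_zero]
  have c3 : vdim (Cy r G s A 0) = vdim (Ch G s A 0) := by rw [Cy_zero]
  unfold bn kap
  linarith

theorem kap_nonneg (hr : Function.Injective r) (h : Nbr G a A U) (i : ℕ) : 0 ≤ kap r G s a U A i := by
  refine sub_nonneg.2 (vdim_mono (le_inf (inf_le_inf_right _ (Bd_le_Cy r G s hr U i)) ?_))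
  exact inf_le_left.trans (Bd_mono r G s h.subset i)

theorem kap_le (hr : Function.Injective r) (hs : IsSys G s) (h : Nbr G a A U) (hf : s a ∉ sub s U) (i : ℕ) :
    kap r G s a U A i ≤ bn r G s U i / 2 := by
  have h1 : vdim (Cy r G s U i ⊓ asym (s a) ⊓ Bd r G s A i) ≤ vdim (Cy r G s U i ⊓ asym (s a)) :=
    vdim_mono inf_le_left
  have h2 := half_sub hs h hf (mdl_Cy r G s U i) (loc_Cy r G s U i)
  have h3 := half_sub hs h hf (mdl_Bd r G s U i) (loc_Bd r G s U i)
  unfold kap bn
  linarith

theorem kap_ge (hr : Function.Injective r) (hs : IsSys G s) (h : Nbr G a A U) (hf : s a ∉ sub s U) (i : ℕ) :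
    0 ≤ bn r G s A i - bn r G s U i / 2 + kap r G s a U A i := by
  have hM := (mdl_Cy r G s U i).inf (mdl_asym (s a))
  have h1 := vdim_sup_add_inf hM.inv (mdl_Bd r G s A i).inv hM.cl (mdl_Bd r G s A i).cl
  have h2 : vdim (Cy r G s U i ⊓ asym (s a) ⊔ Bd r G s A i) ≤ vdim (Cy r G s A i) :=
    vdim_mono (sup_le (inf_le_left.trans (Cy_mono r G s h.subset i)) (Bd_le_Cy r G s hr A i))
  have h3 := half_sub hs h hf (mdl_Cy r G s U i) (loc_Cy r G s U i)
  have h4 := half_sub hs h hf (mdl_Bd r G s U i) (loc_Bd r G s U i)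
  unfold kap bn
  linarith

/-- (1) -/
theorem bn_insert_succ_le (hr : Function.Injective r) (hs : IsSys G s) (h : Nbr G a A U) (hf : s a ∉ sub s U) (i : ℕ) :
    bn r G s (insert a A) (i + 1) ≤ bn r G s A (i + 1) + bn r G s U i / 2 := by
  have h1 := cone_succ hr hs h hf i
  have h2 := kap_le hr hs h hf i
  have h3 := kap_le hr hs h hf (i + 1)
  linarith

theorem bn_insert_zero_le (hr : Function.Injective r) (hs : IsSys G s) (h : Nbr G a A U) (hf : s a ∉ sub s U) :
    bn r G s (insert a A) 0 ≤ bn r G s A 0 := by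
  have h1 := cone_zero hr hs h hf
  have h2 := kap_le hr hs h hf 0
  linarith

/-- (2) -/
theorem bn_le_insert (hr : Function.Injective r) (hs : IsSys G s) (h : Nbr G a A U) (hf : s a ∉ sub s U) (i : ℕ) :
    bn r G s A i ≤ bn r G s (insert a A) i + bn r G s U i / 2 := by
  cases i with
  | zero =>
    have h1 := cone_zero hr hs h hf
    have h2 := kap_nonneg (s := s) hr h 0
    linarith
  | succ i =>
    have h1 := cone_succ hr hs h hf i
    have h2 := kap_nonneg (s := s) hr h i
    have h3 := kap_nonneg (s := s) hr h (i + 1)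
    linarith

theorem bn_insert_eq (hr : Function.Injective r) (hs : IsSys G s) (h : Nbr G a A U) (hf : s a ∉ sub s U)
    (h0 : ∀ i, bn r G s U i = 0) (i : ℕ) : bn r G s (insert a A) i = bn r G s A i := by
  have hk : ∀ j, kap r G s a U A j = 0 := fun j => by
    have h1 := kap_nonneg (s := s) hr h j
    have h2 := kap_le hr hs h hf j
    rw [h0] at h2
    linarith
  cases i with
  | zero => rw [cone_zero hr hs h hf, hk, h0]; ring
  | succ i => rw [cone_succ hr hs h hf i, hk, hk, h0]; ring

theorem kap_eq_zero_of_bn (hr : Function.Injective r) (hs : IsSys G s) (h : Nbr G a A U) (hf : s a ∉ sub s U) {i : ℕ}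
    (h0 : bn r G s (insert a A) (i + 1) = 0) : kap r G s a U A i = 0 := by
  have h1 := cone_succ hr hs h hf i
  have h2 := kap_nonneg (s := s) hr h i
  have h3 := kap_ge hr hs h hf (i + 1)
  linarith

/-- (3) -/
theorem inj_of_bn_insert (hr : Function.Injective r) (hs : IsSys G s) (h : Nbr G a A U) (hf : s a ∉ sub s U) {i : ℕ}
    (h0 : bn r G s (insert a A) (i + 1) = 0) : Cy r G s U i ⊓ asym (s a) ⊓ Bd r G s A i ≤ Bd r G s U i := by
  have hk := kap_eq_zero_of_bn hr hs h hf h0
  have hM := (mdl_Bd r G s U i).inf (mdl_asym (s a))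
  have hN := ((mdl_Cy r G s U i).inf (mdl_asym (s a))).inf (mdl_Bd r G s A i)
  have := eq_of_vdim_le hM.inv hN.inv hM.cl (le_inf (inf_le_inf_right _ (Bd_le_Cy r G s hr U i))
    (inf_le_left.trans (Bd_mono r G s h.subset i))) (by unfold kap at hk; linarith)
  rw [← this]
  exact inf_le_left

/-- converse of (3) -/
theorem kap_eq_zero (hr : Function.Injective r) (h : Nbr G a A U) {i : ℕ}
    (h0 : Cy r G s U i ⊓ asym (s a) ⊓ Bd r G s A i ≤ Bd r G s U i) : kap r G s a U A i = 0 := by
  refine le_antisymm ?_ (kap_nonneg hr h i)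
  refine sub_nonpos.2 (vdim_mono (le_inf h0 (inf_le_left.trans inf_le_right)))

/-- (5) -/
theorem inj_of_bn_link (hr : Function.Injective r) (hs : IsSys G s) (h : Nbr G a A U) {i : ℕ}
    (h0 : bn r G s U i = 0) : Cy r G s A i ⊓ Bd r G s (insert a A) i ≤ Bd r G s A i := by
  rw [← closure_inf_map_D r G s (mdl_Cy r G s A i) (insert a A) i]
  refine Submodule.topologicalClosure_minimal _ ?_ (mdl_Bd r G s A i).cl
  rintro _ ⟨⟨hb, _⟩, f, hf, rfl⟩
  have hoff : Off a (D r f) := off_Ch h.notMem hb
  have h1 : D r (dn r a f) = 0 := by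
    have := dn_D (a := a) hr f
    rw [dn_eq_zero hoff] at this
    exact neg_eq_zero.1 this.symm
  have h2 : dn r a f ∈ Cy r G s U i := ⟨dn_mem_Ch h hf, h1⟩
  have h2' := Bd_mono r G s h.subset i (Cy_le_Bd_of_bn r G s hr h0 h2)
  have h3 : D r f = D r (f - up r a (dn r a f)) + dn r a f := by
    rw [map_sub, D_up hr (off_dn f), h1, map_zero, sub_zero, sub_add_cancel]
  show D r f ∈ _
  rw [h3]
  exact Submodule.add_mem _ (D_mem_Bd r G s (sub_mem_Ch h.notMem hf)) h2'

/-- the general form behind (5) -/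
theorem Cy_inf_Bd_insert_le (hr : Function.Injective r) (h : Nbr G a A U) (i : ℕ) :
    Cy r G s A i ⊓ Bd r G s (insert a A) i ≤
      (Bd r G s A i ⊔ (Cy r G s U i ⊓ asym (s a))).topologicalClosure := by
  rw [← closure_inf_map_D r G s (mdl_Cy r G s A i) (insert a A) i]
  refine Submodule.topologicalClosure_mono ?_
  rintro _ ⟨⟨hb, _⟩, f, hf, rfl⟩
  have hoff : Off a (D r f) := off_Ch h.notMem hb
  have h1 : D r (dn r a f) = 0 := by
    have := dn_D (a := a) hr f
    rw [dn_eq_zero hoff] at this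
    exact neg_eq_zero.1 this.symm
  have h3 : D r f = D r (f - up r a (dn r a f)) + dn r a f := by
    rw [map_sub, D_up hr (off_dn f), h1, map_zero, sub_zero, sub_add_cancel]
  show D r f ∈ _
  rw [h3]
  exact Submodule.add_mem_sup (D_mem_Bd r G s (sub_mem_Ch h.notMem hf)) ⟨⟨dn_mem_Ch h hf, h1⟩, dn_mem_asym hf⟩

end cone

end Singer
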