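import Pool.Agent.Singer.IndG
import Pool.Agent.Singer.Basic

/-!
# Singer: transfer of the Betti numbers and of semistability along injective homomorphisms

`bn_transfer`, `SS_transfer`: the Betti numbers and the semistability of a subset of the vertices depend only on the
subgroup generated by it; `bn_rank`: the Betti numbers do not depend on the enumeration of the vertices.
-/

set_option autoImplicit false
set_option linter.unusedSectionVars false
set_option linter.unusedVariables false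

open scoped ComplexConjugate InnerProductSpace
open Filter Topology

namespace Singer

/-! ### change of the index set -/

section index
variable {Γ : Type*} [Group Γ] {ι κ μ : Type*}

lemma idx_inj {p : ι → κ} (hp : Function.Injective p) : Function.Injective fun x : Γ × ι => (x.1, p x.2) := by
  rintro ⟨a, i⟩ ⟨b, k⟩ h
  simp only [Prod.mk.injEq] at h ⊢
  exact ⟨h.1, hp h.2⟩

/-- extension by zero to a larger index set -/
noncomputable def pux (p : ι → κ) (hp : Function.Injective p) : E Γ ι →L[ℂ] E Γ κ := push _ (idx_inj hp)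

/-- restriction to a smaller index set -/
noncomputable def plx (p : ι → κ) (hp : Function.Injective p) : E Γ κ →L[ℂ] E Γ ι := pull _ (idx_inj hp)

variable {p : ι → κ} (hp : Function.Injective p)

lemma plx_apply (f : E Γ κ) (x : Γ × ι) : plx p hp f x = f (x.1, p x.2) := rfl

lemma pux_apply (u : E Γ ι) (g : Γ) (i : ι) : pux p hp u (g, p i) = u (g, i) :=
  push_apply _ (idx_inj hp) u (g, i)

lemma pux_apply_notMem (u : E Γ ι) (g : Γ) {k : κ} (hk : k ∉ Set.range p) : pux p hp u (g, k) = 0 := by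
  apply push_apply_of_notMem
  rintro ⟨x, hx⟩
  exact hk ⟨x.2, congrArg Prod.snd hx⟩

lemma plx_pux (u : E Γ ι) : plx p hp (pux p hp u) = u := pull_push _ _ _

lemma pux_injective : Function.Injective (pux p hp : E Γ ι →L[ℂ] E Γ κ) := fun u v h => by
  rw [← plx_pux hp u, h, plx_pux]

lemma norm_pux (u : E Γ ι) : ‖pux p hp u‖ = ‖u‖ := norm_push _ _ _

lemma pux_plx {f : E Γ κ} (hf : ∀ g k, k ∉ Set.range p → f (g, k) = 0) : pux p hp (plx p hp f) = f := by
  ext x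
  obtain ⟨g, k⟩ := x
  by_cases hk : k ∈ Set.range p
  · obtain ⟨i, rfl⟩ := hk
    rw [pux_apply, plx_apply]
  · rw [pux_apply_notMem hp _ _ hk, hf g k hk]

lemma equi_pux : Equi (pux p hp : E Γ ι →L[ℂ] E Γ κ) := by
  intro g f
  ext x
  obtain ⟨h, k⟩ := x
  rw [lam_apply]
  by_cases hk : k ∈ Set.range p
  · obtain ⟨i, rfl⟩ := hk
    rw [pux_apply, pux_apply, lam_apply]
  · rw [pux_apply_notMem hp _ _ hk, pux_apply_notMem hp _ _ hk]

lemma hor_pux : Hor (pux p hp : E Γ ι →L[ℂ] E Γ κ) := by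
  classical
  intro S f
  ext x
  obtain ⟨h, k⟩ := x
  by_cases hk : k ∈ Set.range p
  · obtain ⟨i, rfl⟩ := hk
    rw [pux_apply, cut_apply, cut_apply, pux_apply]
  · rw [pux_apply_notMem hp _ _ hk, cut_apply, pux_apply_notMem hp _ _ hk]
    simp

lemma pux_rt (a : Γ) (f : E Γ ι) : pux p hp (rt a f) = rt a (pux p hp f) := by
  ext x
  obtain ⟨h, k⟩ := x
  rw [rt_apply]
  by_cases hk : k ∈ Set.range p
  · obtain ⟨i, rfl⟩ := hk
    rw [pux_apply, pux_apply, rt_apply]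
  · rw [pux_apply_notMem hp _ _ hk, pux_apply_notMem hp _ _ hk]

lemma inner_pux (u v : E Γ ι) : ⟪pux p hp u, pux p hp v⟫_ℂ = ⟪u, v⟫_ℂ := by
  have h : ∀ w : E Γ ι, ‖(pux p hp : E Γ ι →L[ℂ] E Γ κ).toLinearMap w‖ = ‖w‖ := norm_pux hp
  exact (LinearMap.norm_map_iff_inner_map_map
    ((pux p hp : E Γ ι →L[ℂ] E Γ κ).toLinearMap)).1 h u v

/-- the image of a subspace -/
noncomputable def mpx (p : ι → κ) (hp : Function.Injective p) (W : Submodule ℂ (E Γ ι)) : Submodule ℂ (E Γ κ) :=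
  W.map ((pux p hp : E Γ ι →L[ℂ] E Γ κ) : E Γ ι →ₗ[ℂ] E Γ κ)

/-- the preimage of a subspace -/
noncomputable def cmx (p : ι → κ) (hp : Function.Injective p) (W : Submodule ℂ (E Γ κ)) : Submodule ℂ (E Γ ι) :=
  W.comap ((pux p hp : E Γ ι →L[ℂ] E Γ κ) : E Γ ι →ₗ[ℂ] E Γ κ)

lemma pux_mem_mpx {W : Submodule ℂ (E Γ ι)} {u : E Γ ι} : pux p hp u ∈ mpx p hp W ↔ u ∈ W := by
  constructor
  · rintro ⟨v, hv, h⟩
    have := pux_injective hp h
    rwa [← this]
  · intro h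
    exact ⟨u, h, rfl⟩

lemma isClosedEmbedding_pux : IsClosedEmbedding (pux p hp : E Γ ι → E Γ κ) := by
  have : Isometry (pux p hp : E Γ ι → E Γ κ) :=
    AddMonoidHomClass.isometry_of_norm _ (norm_pux hp)
  exact this.isClosedEmbedding

lemma mpx_closure (W : Submodule ℂ (E Γ ι)) : mpx p hp W.topologicalClosure = (mpx p hp W).topologicalClosure := by
  apply SetLike.coe_injective
  rw [Submodule.topologicalClosure_coe]
  show (pux p hp : E Γ ι → E Γ κ) '' (W.topologicalClosure : Set (E Γ ι)) =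
    closure ((pux p hp : E Γ ι → E Γ κ) '' (W : Set (E Γ ι)))
  rw [Submodule.topologicalClosure_coe]
  exact ((isClosedEmbedding_pux hp).closure_image_eq _).symm

lemma mdl_mpx {W : Submodule ℂ (E Γ ι)} (hW : Mdl W) : Mdl (mpx p hp W) := by
  refine ⟨hW.inv.map (equi_pux hp), ?_⟩
  show IsClosed ((pux p hp : E Γ ι → E Γ κ) '' (W : Set (E Γ ι)))
  exact (isClosedEmbedding_pux hp).isClosedMap _ hW.cl

lemma mdl_cmx {W : Submodule ℂ (E Γ κ)} (hW : Mdl W) : Mdl (cmx p hp W) :=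
  ⟨hW.inv.comap (equi_pux hp), hW.cl.preimage (pux p hp).continuous⟩

lemma mpx_mono {W W' : Submodule ℂ (E Γ ι)} : mpx p hp W ≤ mpx p hp W' ↔ W ≤ W' := by
  constructor
  · intro h u hu
    exact (pux_mem_mpx hp).1 (h ((pux_mem_mpx hp).2 hu))
  · exact fun h => Submodule.map_mono h

lemma mpx_inf (W W' : Submodule ℂ (E Γ ι)) : mpx p hp (W ⊓ W') = mpx p hp W ⊓ mpx p hp W' := by
  apply le_antisymm
  · exact le_inf ((mpx_mono hp).2 inf_le_left) ((mpx_mono hp).2 inf_le_right)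
  · rintro _ ⟨⟨u, hu, rfl⟩, h⟩
    exact ⟨u, ⟨hu, (pux_mem_mpx hp).1 h⟩, rfl⟩

lemma mpx_cmx {W : Submodule ℂ (E Γ κ)} (hW : ∀ f ∈ W, ∀ g k, k ∉ Set.range p → f (g, k) = 0) :
    mpx p hp (cmx p hp W) = W := by
  apply le_antisymm
  · rintro _ ⟨u, hu, rfl⟩
    exact hu
  · intro f hf
    have h := pux_plx hp (hW f hf)
    refine ⟨plx p hp f, ?_, h⟩
    show pux p hp (plx p hp f) ∈ W
    rwa [h]

lemma loc_mpx {H : Subgroup Γ} {W : Submodule ℂ (E Γ ι)} (hW : Loc H W) : Loc H (mpx p hp W) :=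
  hW.map fun f => hor_pux hp _ f

lemma loc_cmx {H : Subgroup Γ} {W : Submodule ℂ (E Γ κ)} (hW : Loc H W) : Loc H (cmx p hp W) :=
  hW.comap fun f => hor_pux hp _ f

lemma mpx_le_orthogonal {W W' : Submodule ℂ (E Γ ι)} : mpx p hp W ≤ (mpx p hp W')ᗮ ↔ W ≤ W'ᗮ := by
  constructor
  · intro h u hu
    rw [Submodule.mem_orthogonal]
    intro v hv
    have h1 := (Submodule.mem_orthogonal _ _).1 (h ((pux_mem_mpx hp).2 hu)) _ ((pux_mem_mpx hp).2 hv)
    rwa [inner_pux] at h1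
  · intro h
    rintro _ ⟨u, hu, rfl⟩
    rw [Submodule.mem_orthogonal]
    rintro _ ⟨v, hv, rfl⟩
    show ⟪pux p hp v, pux p hp u⟫_ℂ = 0
    rw [inner_pux]
    exact (Submodule.mem_orthogonal _ _).1 (h hu) v hv

/-- an injective equivariant map preserves dimensions -/
lemma vdim_map_of_injective [Fintype ι] [Fintype κ] {T : E Γ ι →L[ℂ] E Γ κ} (hT : Equi T)
    (hi : Function.Injective T) {W : Submodule ℂ (E Γ ι)} (hW : Mdl W) :
    vdim (W.map (T : E Γ ι →ₗ[ℂ] E Γ κ)) = vdim W := by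
  have h1 := vdim_map_add hT hW.inv hW.cl
  have h2 : W ⊓ LinearMap.ker (T : E Γ ι →ₗ[ℂ] E Γ κ) = ⊥ := by
    rw [eq_bot_iff]
    rintro f ⟨_, hf⟩
    rw [Submodule.mem_bot]
    refine hi ?_
    rw [map_zero]
    exact hf
  rw [h2, vdim_bot] at h1
  linarith

lemma vdim_mpx [Fintype ι] [Fintype κ] {W : Submodule ℂ (E Γ ι)} (hW : Mdl W) : vdim (mpx p hp W) = vdim W :=
  vdim_map_of_injective (equi_pux hp) (pux_injective hp) hW

end index

/-! ### the complex: change of the vertex set -/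

section vertex
variable {Γ : Type*} [Group Γ] {V' V : Type*} [Fintype V'] [DecidableEq V'] [Fintype V] [DecidableEq V]
  (j : V' ↪ V)

lemma fm_inj : Function.Injective (Finset.map j : Finset V' → Finset V) := Finset.map_injective j

lemma mem_range_fm {T : Finset V} : T ∈ Set.range (Finset.map j : Finset V' → Finset V) ↔
    ∀ v ∈ T, v ∈ Set.range j := by
  constructor
  · rintro ⟨S, rfl⟩ v hv
    obtain ⟨w, -, rfl⟩ := Finset.mem_map.1 hv
    exact ⟨w, rfl⟩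
  · intro h
    refine ⟨Finset.univ.filter fun w => j w ∈ T, ?_⟩
    ext v
    simp only [Finset.mem_map, Finset.mem_filter, Finset.mem_univ, true_and]
    constructor
    · rintro ⟨w, hw, rfl⟩
      exact hw
    · intro hv
      obtain ⟨w, rfl⟩ := h v hv
      exact ⟨w, hv, rfl⟩

lemma sg_map (r : V → ℕ) (v : V') (T : Finset V') : sg r (j v) (T.map j) = sg (fun w => r (j w)) v T := by
  unfold sg
  congr 1
  rw [Finset.filter_map, Finset.card_map]
  rfl

lemma D_pux (r : V → ℕ) (u : E Γ (Finset V')) :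
    D r (pux (Finset.map j) (fm_inj j) u) = pux (Finset.map j) (fm_inj j) (D (fun v => r (j v)) u) := by
  ext x
  obtain ⟨g, T⟩ := x
  rw [D_apply]
  by_cases hT : T ∈ Set.range (Finset.map j : Finset V' → Finset V)
  · obtain ⟨S, rfl⟩ := hT
    rw [pux_apply, D_apply]
    have h1 : (Sᶜ).map j ⊆ (S.map j)ᶜ := by
      intro v hv
      obtain ⟨w, hw, rfl⟩ := Finset.mem_map.1 hv
      rw [Finset.mem_compl] at hw ⊢
      intro h
      exact hw ((Finset.mem_map' j).1 h)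
    rw [← Finset.sum_subset h1, Finset.sum_map]
    · refine Finset.sum_congr rfl fun v hv => ?_
      rw [sg_map, ← Finset.map_insert, pux_apply]
    · intro v hv hv'
      rw [pux_apply_notMem, mul_zero]
      intro h
      obtain ⟨w, rfl⟩ := (mem_range_fm j).1 h v (Finset.mem_insert_self _ _)
      apply hv'
      rw [Finset.mem_map' j, Finset.mem_compl]
      intro hw
      rw [Finset.mem_compl] at hv
      exact hv ((Finset.mem_map' j).2 hw)
  · rw [pux_apply_notMem _ _ _ hT]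
    refine Finset.sum_eq_zero fun v _ => ?_
    rw [pux_apply_notMem, mul_zero]
    intro h
    apply hT
    rw [mem_range_fm] at h ⊢
    exact fun w hw => h w (Finset.mem_insert_of_mem hw)

variable (G : SimpleGraph V) (s : V → Γ)

lemma isClique_map (T : Finset V') : G.IsClique (T.map j : Finset V) ↔ (G.comap j).IsClique T := by
  constructor
  · intro h x hx y hy hxy
    have := h (show j x ∈ ((T.map j : Finset V) : Set V) by simpa using hx)
      (show j y ∈ ((T.map j : Finset V) : Set V) by simpa using hy) (fun e => hxy (j.injective e))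
    exact this
  · intro h x hx y hy hxy
    rw [Finset.mem_coe, Finset.mem_map] at hx hy
    obtain ⟨x', hx', rfl⟩ := hx
    obtain ⟨y', hy', rfl⟩ := hy
    exact h hx' hy' fun e => hxy (by rw [e])

lemma Ch_map (A : Finset V') (i : ℕ) : Ch G s (A.map j) i =
    mpx (Finset.map j) (fm_inj j) (Ch (G.comap j) (fun v => s (j v)) A i) := by
  apply le_antisymm
  · intro f hf
    obtain ⟨h1, h2⟩ := hf
    have h0 : ∀ g k, k ∉ Set.range (Finset.map j : Finset V' → Finset V) → f (g, k) = 0 := by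
      intro g k hk
      by_contra hne
      apply hk
      rw [mem_range_fm]
      intro v hv
      obtain ⟨w, -, rfl⟩ := Finset.mem_map.1 ((h1 (g, k) hne).1 hv)
      exact ⟨w, rfl⟩
    have h3 := pux_plx (fm_inj j) h0
    rw [← h3, pux_mem_mpx]
    refine ⟨fun x hx => ?_, fun g T v hv => ?_⟩
    · rw [plx_apply] at hx
      obtain ⟨a1, a2, a3⟩ := h1 _ hx
      exact ⟨Finset.map_subset_map.1 a1, by rwa [Finset.card_map] at a2, (isClique_map j G _).1 a3⟩
    · rw [plx_apply, plx_apply]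
      exact h2 g (T.map j) (j v) ((Finset.mem_map' j).2 hv)
  · rintro _ ⟨u, ⟨h1, h2⟩, rfl⟩
    refine ⟨fun x hx => ?_, fun g T v hv => ?_⟩
    · obtain ⟨g, T⟩ := x
      change pux (Finset.map j) (fm_inj j) u (g, T) ≠ 0 at hx
      by_cases hT : T ∈ Set.range (Finset.map j : Finset V' → Finset V)
      · obtain ⟨S, rfl⟩ := hT
        rw [pux_apply] at hx
        obtain ⟨a1, a2, a3⟩ := h1 _ hx
        exact ⟨Finset.map_subset_map.2 a1, by rwa [Finset.card_map], (isClique_map j G _).2 a3⟩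
      · rw [pux_apply_notMem _ _ _ hT] at hx
        exact absurd rfl hx
    · show pux (Finset.map j) (fm_inj j) u (g * s v, T) = -pux (Finset.map j) (fm_inj j) u (g, T)
      by_cases hT : T ∈ Set.range (Finset.map j : Finset V' → Finset V)
      · obtain ⟨S, rfl⟩ := hT
        obtain ⟨w, hw, rfl⟩ := Finset.mem_map.1 hv
        rw [pux_apply, pux_apply]
        exact h2 g S w hw
      · rw [pux_apply_notMem _ _ _ hT, pux_apply_notMem _ _ _ hT, neg_zero]

lemma Cy_map (r : V → ℕ) (A : Finset V') (i : ℕ) : Cy r G s (A.map j) i =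
    mpx (Finset.map j) (fm_inj j) (Cy (fun v => r (j v)) (G.comap j) (fun v => s (j v)) A i) := by
  unfold Cy
  rw [Ch_map]
  apply le_antisymm
  · rintro _ ⟨⟨u, hu, rfl⟩, hk⟩
    refine ⟨u, ⟨hu, ?_⟩, rfl⟩
    have h1 : D r (pux (Finset.map j) (fm_inj j) u) = 0 := hk
    rw [D_pux] at h1
    show D (fun v => r (j v)) u = 0
    refine pux_injective (fm_inj j) ?_
    rw [h1, map_zero]
  · rintro _ ⟨u, ⟨hu, hk⟩, rfl⟩
    refine ⟨⟨u, hu, rfl⟩, ?_⟩
    show D r (pux (Finset.map j) (fm_inj j) u) = 0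
    rw [D_pux, show D (fun v => r (j v)) u = 0 from hk, map_zero]

lemma Bd_map (r : V → ℕ) (A : Finset V') (i : ℕ) : Bd r G s (A.map j) i =
    mpx (Finset.map j) (fm_inj j) (Bd (fun v => r (j v)) (G.comap j) (fun v => s (j v)) A i) := by
  unfold Bd
  rw [Ch_map, mpx_closure]
  congr 1
  apply le_antisymm
  · rintro _ ⟨_, ⟨u, hu, rfl⟩, rfl⟩
    exact ⟨D (fun v => r (j v)) u, ⟨u, hu, rfl⟩, (D_pux j r u).symm⟩
  · rintro _ ⟨_, ⟨u, hu, rfl⟩, rfl⟩
    exact ⟨pux (Finset.map j) (fm_inj j) u, ⟨u, hu, rfl⟩, D_pux j r u⟩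

end vertex

/-! ### the complex: change of the group -/

section group
variable {Γ' Γ : Type*} [Group Γ'] [Group Γ] {V : Type*} [Fintype V] [DecidableEq V]
  (φ : Γ' →* Γ) (hφ : Function.Injective φ)

lemma indRel_D (r : V → ℕ) : IndRel φ hφ (D r : E Γ' (Finset V) →L[ℂ] E Γ' (Finset V)) (D r) :=
  IndRel.sum fun T _ => IndRel.sum fun v _ => (IndRel.col _ _).smul _

variable {φ} {hφ} (G : SimpleGraph V) {s' : V → Γ'} {s : V → Γ}

lemma Ch_ind (hs : ∀ v, φ (s' v) = s v) (A : Finset V) (i : ℕ) : Ch G s A i = ind φ hφ (Ch G s' A i) := by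
  ext f
  rw [mem_ind]
  constructor
  · rintro ⟨h1, h2⟩ g
    refine ⟨fun x hx => ?_, fun h T v hv => ?_⟩
    · rw [rsj_apply, lam_apply] at hx
      exact h1 _ hx
    · rw [rsj_apply, rsj_apply, lam_apply, lam_apply]
      show f (g⁻¹ * φ (h * s' v), T) = -f (g⁻¹ * φ h, T)
      rw [map_mul, hs, ← mul_assoc]
      exact h2 _ T v hv
  · intro hf
    refine ⟨fun x hx => ?_, fun g T v hv => ?_⟩
    · obtain ⟨g, T⟩ := x
      refine (hf g⁻¹).1 (1, T) ?_
      rw [rsj_apply, lam_apply]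
      simpa using hx
    · have h1 := (hf g⁻¹).2 1 T v hv
      rw [rsj_apply, rsj_apply, lam_apply, lam_apply] at h1
      simpa [hs] using h1

lemma Cy_ind (hs : ∀ v, φ (s' v) = s v) (r : V → ℕ) (A : Finset V) (i : ℕ) :
    Cy r G s A i = ind φ hφ (Cy r G s' A i) := by
  unfold Cy
  rw [Ch_ind G hs, ind_inf, (indRel_D φ hφ r).ker]

lemma Bd_ind (hs : ∀ v, φ (s' v) = s v) (r : V → ℕ) (A : Finset V) (i : ℕ) :
    Bd r G s A i = ind φ hφ (Bd r G s' A i) := by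
  unfold Bd
  rw [Ch_ind (hφ := hφ) G hs, (indRel_D φ hφ r).map (mdl_Ch G s' A (i + 1)).inv]

end group

/-! ### transfer -/

section ind
variable {Γ' Γ : Type*} [Group Γ'] [Group Γ] {V' V : Type*} [Fintype V'] [DecidableEq V'] [Fintype V] [DecidableEq V]

/-- induction for the group and the index set -/
noncomputable def tra (φ : Γ' →* Γ) (hφ : Function.Injective φ) (j : V' ↪ V) (W : Submodule ℂ (E Γ' (Finset V'))) :
    Submodule ℂ (E Γ (Finset V)) := mpx (Finset.map j) (fm_inj j) (ind φ hφ W)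

section
variable {φ : Γ' →* Γ} {hφ : Function.Injective φ} {j : V' ↪ V}

lemma mdl_ind {ι : Type*} {W : Submodule ℂ (E Γ' ι)} (hW : Mdl W) : Mdl (ind φ hφ W) :=
  ⟨inv_ind W, isClosed_ind hW.cl⟩

lemma mdl_tra {W : Submodule ℂ (E Γ' (Finset V'))} (hW : Mdl W) : Mdl (tra φ hφ j W) :=
  mdl_mpx _ (mdl_ind hW)

lemma vdim_tra {W : Submodule ℂ (E Γ' (Finset V'))} (hW : Mdl W) : vdim (tra φ hφ j W) = vdim W := by
  unfold tra
  rw [vdim_mpx _ (mdl_ind hW), vdim_ind hW.inv hW.cl]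

lemma tra_le_iff {W W' : Submodule ℂ (E Γ' (Finset V'))} (hW : Mdl W) (hW' : Mdl W') :
    tra φ hφ j W ≤ tra φ hφ j W' ↔ W ≤ W' := by
  unfold tra
  rw [mpx_mono, ind_le_ind hW.inv hW'.inv]

lemma tra_inf (W W' : Submodule ℂ (E Γ' (Finset V'))) : tra φ hφ j (W ⊓ W') = tra φ hφ j W ⊓ tra φ hφ j W' := by
  unfold tra
  rw [ind_inf, mpx_inf]

lemma tra_le_orthogonal {W W' : Submodule ℂ (E Γ' (Finset V'))} (hW : Mdl W) (hW' : Mdl W') :
    tra φ hφ j W ≤ (tra φ hφ j W')ᗮ ↔ W ≤ W'ᗮ := by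
  unfold tra
  rw [mpx_le_orthogonal, ← ind_orthogonal hW'.inv hW'.cl, ind_le_ind hW.inv hW'.inv.orthogonal]

lemma Cy_tra {G : SimpleGraph V} {s' : V' → Γ'} {s : V → Γ} (hs : ∀ v, φ (s' v) = s (j v)) (r : V → ℕ)
    (A : Finset V') (i : ℕ) :
    Cy r G s (A.map j) i = tra φ hφ j (Cy (fun v => r (j v)) (G.comap j) s' A i) := by
  unfold tra
  rw [Cy_map, Cy_ind (hφ := hφ) (G.comap j) hs]

lemma Bd_tra {G : SimpleGraph V} {s' : V' → Γ'} {s : V → Γ} (hs : ∀ v, φ (s' v) = s (j v)) (r : V → ℕ)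
    (A : Finset V') (i : ℕ) :
    Bd r G s (A.map j) i = tra φ hφ j (Bd (fun v => r (j v)) (G.comap j) s' A i) := by
  unfold tra
  rw [Bd_map, Bd_ind (hφ := hφ) (G.comap j) hs]

lemma sub_map {s' : V' → Γ'} {s : V → Γ} (hs : ∀ v, φ (s' v) = s (j v)) (A : Finset V') :
    sub s ((A.map j : Finset V) : Set V) = (sub s' (A : Set V')).map φ := by
  unfold sub
  rw [MonoidHom.map_closure]
  congr 1
  ext g
  simp only [Set.mem_image, Finset.mem_coe, Finset.mem_map]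
  constructor
  · rintro ⟨_, ⟨v, hv, rfl⟩, rfl⟩
    exact ⟨s' v, ⟨v, hv, rfl⟩, hs v⟩
  · rintro ⟨_, ⟨v, hv, rfl⟩, rfl⟩
    exact ⟨j v, ⟨v, hv, rfl⟩, (hs v).symm⟩

lemma loc_tra {H : Subgroup Γ'} {W : Submodule ℂ (E Γ' (Finset V'))} (hW : Mdl W) (hL : Loc H W) :
    Loc (H.map φ) (tra φ hφ j W) :=
  loc_mpx _ ((loc_ind_iff hW.inv H).2 hL)

/-- the modules supported on the image of the index set and local for a subgroup of the image are transferred -/
lemma exists_tra {H : Subgroup Γ'} {W : Submodule ℂ (E Γ (Finset V))} (hW : Mdl W) (hL : Loc (H.map φ) W)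
    (h0 : ∀ f ∈ W, ∀ g k, k ∉ Set.range (Finset.map j : Finset V' → Finset V) → f (g, k) = 0) :
    ∃ W' : Submodule ℂ (E Γ' (Finset V')), Mdl W' ∧ Loc H W' ∧ tra φ hφ j W' = W := by
  have h1 : Mdl (cmx (Finset.map j) (fm_inj j) W) := mdl_cmx _ hW
  have h2 : Loc (H.map φ) (cmx (Finset.map j) (fm_inj j) W) := loc_cmx _ hL
  have h3 : Loc φ.range (cmx (Finset.map j) (fm_inj j) W) :=
    h2.mono h1.inv h1.cl (Subgroup.map_le_range φ H)
  refine ⟨coi φ hφ (cmx (Finset.map j) (fm_inj j) W), ⟨inv_coi h1.inv, isClosed_coi h1.cl⟩, loc_coi h2, ?_⟩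
  unfold tra
  rw [ind_coi h1.inv h1.cl h3, mpx_cmx _ h0]

end

theorem bn_transfer (φ : Γ' →* Γ) (hφ : Function.Injective φ) (j : V' ↪ V) {G : SimpleGraph V} {s' : V' → Γ'}
    {s : V → Γ} (hs : ∀ v, φ (s' v) = s (j v)) (r : V → ℕ) (A : Finset V') (i : ℕ) :
    bn r G s (A.map j) i = bn (fun v => r (j v)) (G.comap j) s' A i := by
  unfold bn
  rw [Cy_tra (hφ := hφ) hs, Bd_tra (hφ := hφ) hs, vdim_tra (mdl_Cy _ _ _ _ _), vdim_tra (mdl_Bd _ _ _ _ _)]

theorem SS_transfer (φ : Γ' →* Γ) (hφ : Function.Injective φ) (j : V' ↪ V) {G : SimpleGraph V} {s' : V' → Γ'}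
    {s : V → Γ} (hs : ∀ v, φ (s' v) = s (j v)) (r : V → ℕ) (K U : Finset V') (hUK : U ⊆ K) (k : ℕ) :
    SS r G s (K.map j) (U.map j) k ↔ SS (fun v => r (j v)) (G.comap j) s' K U k := by
  unfold SS
  rw [Cy_tra (hφ := hφ) hs, Bd_tra (hφ := hφ) hs, Bd_tra (hφ := hφ) hs, sub_map hs]
  have mC := mdl_Cy (fun v => r (j v)) (G.comap j) s' U k
  have mB := mdl_Bd (fun v => r (j v)) (G.comap j) s' U k
  have mK := mdl_Bd (fun v => r (j v)) (G.comap j) s' K k
  constructor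
  · intro h W hW hL h1 h2
    have h3 := h (tra φ hφ j W) (mdl_tra hW) (loc_tra hW hL) ((tra_le_iff hW mC).2 h1)
      ((tra_le_orthogonal hW mB).2 h2)
    rwa [← tra_inf, vdim_tra (hW.inf mK), vdim_tra hW] at h3
  · intro h W hW hL h1 h2
    obtain ⟨W', hW', hL', rfl⟩ := exists_tra (φ := φ) (hφ := hφ) (j := j) hW hL (by
      intro f hf g k hk
      obtain ⟨u, -, rfl⟩ := h1 hf
      exact pux_apply_notMem _ u g hk)
    have h3 := h W' hW' hL' ((tra_le_iff hW' mC).1 h1) ((tra_le_orthogonal hW' mB).1 h2)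
    rwa [← tra_inf, vdim_tra (hW'.inf mK), vdim_tra hW']

end ind

/-! ### independence of the enumeration -/

section rank
variable {Γ : Type*} [Group Γ] {V : Type*} [Fintype V] [DecidableEq V]

/-- the inversions in `T` -/
def ivs (r₁ r₂ : V → ℕ) (T : Finset V) : Finset (V × V) :=
  (T ×ˢ T).filter fun x => r₁ x.1 < r₁ x.2 ∧ r₂ x.2 < r₂ x.1

/-- the sign of the permutation which compares the two enumerations of `T` -/
noncomputable def tht (r₁ r₂ : V → ℕ) (T : Finset V) : ℂ := (-1) ^ (ivs r₁ r₂ T).card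

lemma tht_sq (r₁ r₂ : V → ℕ) (T : Finset V) : tht r₁ r₂ T * tht r₁ r₂ T = 1 := by
  unfold tht
  rw [← mul_pow]
  norm_num

lemma norm_tht (r₁ r₂ : V → ℕ) (T : Finset V) : ‖tht r₁ r₂ T‖ = 1 := by
  unfold tht
  rw [norm_pow, norm_neg, norm_one, one_pow]

lemma card_ivs_insert {r₁ r₂ : V → ℕ} {v : V} {T : Finset V} (hv : v ∉ T) :
    (ivs r₁ r₂ (insert v T)).card = (ivs r₁ r₂ T).card +
      ((T.filter fun t => r₁ t < r₁ v ∧ r₂ v < r₂ t).card + (T.filter fun t => r₁ v < r₁ t ∧ r₂ t < r₂ v).card) := by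
  have h1 : ivs r₁ r₂ (insert v T) = ivs r₁ r₂ T ∪
      (((T.filter fun t => r₁ t < r₁ v ∧ r₂ v < r₂ t).image fun t => (t, v)) ∪
        ((T.filter fun t => r₁ v < r₁ t ∧ r₂ t < r₂ v).image fun t => (v, t))) := by
    ext ⟨x, y⟩
    simp only [ivs, Finset.mem_filter, Finset.mem_product, Finset.mem_insert, Finset.mem_union, Finset.mem_image,
      Prod.mk.injEq]
    constructor
    · rintro ⟨⟨rfl | hx, rfl | hy⟩, h1, h2⟩
      · omega
      · exact Or.inr (Or.inr ⟨y, ⟨hy, h1, h2⟩, rfl, rfl⟩)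
      · exact Or.inr (Or.inl ⟨x, ⟨hx, h1, h2⟩, rfl, rfl⟩)
      · exact Or.inl ⟨⟨hx, hy⟩, h1, h2⟩
    · rintro (⟨⟨hx, hy⟩, h1, h2⟩ | ⟨t, ⟨ht, h1, h2⟩, rfl, rfl⟩ | ⟨t, ⟨ht, h1, h2⟩, rfl, rfl⟩)
      · exact ⟨⟨Or.inr hx, Or.inr hy⟩, h1, h2⟩
      · exact ⟨⟨Or.inr ht, Or.inl rfl⟩, h1, h2⟩
      · exact ⟨⟨Or.inl rfl, Or.inr ht⟩, h1, h2⟩
  rw [h1, Finset.card_union_of_disjoint, Finset.card_union_of_disjoint, Finset.card_image_of_injective,
    Finset.card_image_of_injective]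
  · intro a b h
    exact (Prod.mk.inj h).2
  · intro a b h
    exact (Prod.mk.inj h).1
  · rw [Finset.disjoint_left]
    rintro ⟨x, y⟩ hx hy
    simp only [Finset.mem_image, Finset.mem_filter, Prod.mk.injEq] at hx hy
    obtain ⟨t, ⟨ht, -⟩, rfl, rfl⟩ := hx
    obtain ⟨t', ⟨ht', -⟩, h3, h4⟩ := hy
    exact hv (h3 ▸ ht)
  · rw [Finset.disjoint_left]
    rintro ⟨x, y⟩ hx hy
    simp only [ivs, Finset.mem_image, Finset.mem_filter, Prod.mk.injEq, Finset.mem_union, Finset.mem_product] at hx hy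
    rcases hy with ⟨t, ⟨ht, -⟩, rfl, rfl⟩ | ⟨t, ⟨ht, -⟩, rfl, rfl⟩
    · exact hv hx.1.2
    · exact hv hx.1.1

lemma neg_one_pow_eq_of_even {a b : ℕ} (h : Even (a + b)) : (-1 : ℂ) ^ a = (-1) ^ b := by
  have h1 : (-1 : ℂ) ^ a * (-1) ^ b = 1 := by
    rw [← pow_add]
    exact h.neg_one_pow
  have h2 : (-1 : ℂ) ^ b * (-1) ^ b = 1 := by
    rw [← mul_pow]; norm_num
  calc (-1 : ℂ) ^ a = (-1) ^ a * ((-1) ^ b * (-1) ^ b) := by rw [h2, mul_one]
    _ = (-1) ^ b := by rw [← mul_assoc, h1, one_mul]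

/-- the signs of the two boundary operators -/
lemma tht_insert {r₁ r₂ : V → ℕ} (h₁ : Function.Injective r₁) (h₂ : Function.Injective r₂) {v : V} {T : Finset V}
    (hv : v ∉ T) : sg r₂ v T * tht r₁ r₂ (insert v T) = tht r₁ r₂ T * sg r₁ v T := by
  unfold sg tht
  rw [card_ivs_insert hv, ← pow_add, ← pow_add]
  apply neg_one_pow_eq_of_even
  have e1 : (T.filter fun t => r₁ t < r₁ v).card =
      (T.filter fun t => r₁ t < r₁ v ∧ r₂ v < r₂ t).card + (T.filter fun t => r₁ t < r₁ v ∧ r₂ t < r₂ v).card := by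
    rw [← Finset.card_union_of_disjoint]
    · congr 1
      ext t
      simp only [Finset.mem_filter, Finset.mem_union]
      constructor
      · rintro ⟨ht, h⟩
        rcases lt_trichotomy (r₂ t) (r₂ v) with h' | h' | h'
        · exact Or.inr ⟨ht, h, h'⟩
        · exact absurd (h₂ h' ▸ ht) hv
        · exact Or.inl ⟨ht, h, h'⟩
      · rintro (⟨ht, h, -⟩ | ⟨ht, h, -⟩) <;> exact ⟨ht, h⟩
    · rw [Finset.disjoint_left]
      intro t h h'
      simp only [Finset.mem_filter] at h h'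
      omega
  have e2 : (T.filter fun t => r₂ t < r₂ v).card =
      (T.filter fun t => r₁ v < r₁ t ∧ r₂ t < r₂ v).card + (T.filter fun t => r₁ t < r₁ v ∧ r₂ t < r₂ v).card := by
    rw [← Finset.card_union_of_disjoint]
    · congr 1
      ext t
      simp only [Finset.mem_filter, Finset.mem_union]
      constructor
      · rintro ⟨ht, h⟩
        rcases lt_trichotomy (r₁ t) (r₁ v) with h' | h' | h'
        · exact Or.inr ⟨ht, h', h⟩
        · exact absurd (h₁ h' ▸ ht) hv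
        · exact Or.inl ⟨ht, h', h⟩
      · rintro (⟨ht, -, h⟩ | ⟨ht, -, h⟩) <;> exact ⟨ht, h⟩
    · rw [Finset.disjoint_left]
      intro t h h'
      simp only [Finset.mem_filter] at h h'
      omega
  rw [e1, e2]
  generalize (T.filter fun t => r₁ t < r₁ v ∧ r₂ v < r₂ t).card = x
  generalize (T.filter fun t => r₁ v < r₁ t ∧ r₂ t < r₂ v).card = y
  generalize (T.filter fun t => r₁ t < r₁ v ∧ r₂ t < r₂ v).card = z
  generalize (ivs r₁ r₂ T).card = w
  exact ⟨y + z + w + x, by ring⟩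

/-- multiplication by the signs -/
noncomputable def Tht (r₁ r₂ : V → ℕ) : E Γ (Finset V) →L[ℂ] E Γ (Finset V) :=
  mul (fun x => tht r₁ r₂ x.2) fun x => (norm_tht r₁ r₂ x.2).le

lemma Tht_apply (r₁ r₂ : V → ℕ) (f : E Γ (Finset V)) (g : Γ) (T : Finset V) :
    Tht r₁ r₂ f (g, T) = tht r₁ r₂ T * f (g, T) := rfl

lemma Tht_Tht (r₁ r₂ : V → ℕ) (f : E Γ (Finset V)) : Tht r₁ r₂ (Tht r₁ r₂ f) = f := by
  ext x
  obtain ⟨g, T⟩ := x
  rw [Tht_apply, Tht_apply, ← mul_assoc, tht_sq, one_mul]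

lemma Tht_injective (r₁ r₂ : V → ℕ) : Function.Injective (Tht r₁ r₂ : E Γ (Finset V) →L[ℂ] E Γ (Finset V)) :=
  fun f h hfh => by rw [← Tht_Tht r₁ r₂ f, hfh, Tht_Tht]

lemma equi_Tht (r₁ r₂ : V → ℕ) : Equi (Tht r₁ r₂ : E Γ (Finset V) →L[ℂ] E Γ (Finset V)) := by
  intro g f
  ext x
  rfl

lemma D_Tht {r₁ r₂ : V → ℕ} (h₁ : Function.Injective r₁) (h₂ : Function.Injective r₂) (f : E Γ (Finset V)) :
    D r₂ (Tht r₁ r₂ f) = Tht r₁ r₂ (D r₁ f) := by
  ext x
  obtain ⟨g, T⟩ := x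
  rw [D_apply, Tht_apply, D_apply, Finset.mul_sum]
  refine Finset.sum_congr rfl fun v hv => ?_
  rw [Tht_apply, ← mul_assoc, tht_insert h₁ h₂ (by simpa using hv), mul_assoc]

lemma Tht_mem_Ch {r₁ r₂ : V → ℕ} {G : SimpleGraph V} {s : V → Γ} {A : Finset V} {i : ℕ} {f : E Γ (Finset V)}
    (hf : f ∈ Ch G s A i) : Tht r₁ r₂ f ∈ Ch G s A i := by
  obtain ⟨h1, h2⟩ := hf
  refine ⟨fun x hx => h1 x fun h0 => hx ?_, fun g T v hv => ?_⟩
  · obtain ⟨g, T⟩ := x
    rw [Tht_apply, h0, mul_zero]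
  · rw [Tht_apply, Tht_apply, h2 g T v hv]
    ring

lemma map_Tht_eq {r₁ r₂ : V → ℕ} {W W' : Submodule ℂ (E Γ (Finset V))}
    (h : ∀ f ∈ W, Tht r₁ r₂ f ∈ W') (h' : ∀ f ∈ W', Tht r₁ r₂ f ∈ W) :
    W.map ((Tht r₁ r₂ : E Γ (Finset V) →L[ℂ] E Γ (Finset V)) : E Γ (Finset V) →ₗ[ℂ] E Γ (Finset V)) = W' := by
  apply le_antisymm
  · rintro _ ⟨f, hf, rfl⟩
    exact h f hf
  · intro f hf
    exact ⟨Tht r₁ r₂ f, h' f hf, Tht_Tht r₁ r₂ f⟩

lemma D_Tht' {r₁ r₂ : V → ℕ} (h₁ : Function.Injective r₁) (h₂ : Function.Injective r₂) (f : E Γ (Finset V)) :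
    D r₁ (Tht r₁ r₂ f) = Tht r₁ r₂ (D r₂ f) := by
  have h := D_Tht h₁ h₂ (Tht r₁ r₂ f)
  rw [Tht_Tht] at h
  rw [h, Tht_Tht]

lemma Tht_mem_closure {r₁ r₂ : V → ℕ} {W W' : Submodule ℂ (E Γ (Finset V))}
    (h : ∀ f ∈ W, Tht r₁ r₂ f ∈ W') {f : E Γ (Finset V)} (hf : f ∈ W.topologicalClosure) :
    Tht r₁ r₂ f ∈ W'.topologicalClosure := by
  have h1 : Tht r₁ r₂ f ∈ _root_.closure ((Tht r₁ r₂ : E Γ (Finset V) →L[ℂ] E Γ (Finset V)) ''
      (W : Set (E Γ (Finset V)))) :=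
    image_closure_subset_closure_image (Tht r₁ r₂).continuous ⟨f, hf, rfl⟩
  refine closure_mono ?_ h1
  rintro _ ⟨x, hx, rfl⟩
  exact h x hx

theorem bn_rank (r₁ r₂ : V → ℕ) (h₁ : Function.Injective r₁) (h₂ : Function.Injective r₂) (G : SimpleGraph V)
    (s : V → Γ) (A : Finset V) (i : ℕ) : bn r₁ G s A i = bn r₂ G s A i := by
  have hC : (Cy r₁ G s A i).map
      ((Tht r₁ r₂ : E Γ (Finset V) →L[ℂ] E Γ (Finset V)) : E Γ (Finset V) →ₗ[ℂ] E Γ (Finset V)) = Cy r₂ G s A i := by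
    apply map_Tht_eq
    · rintro f ⟨h1, h2⟩
      refine ⟨Tht_mem_Ch h1, ?_⟩
      show D r₂ (Tht r₁ r₂ f) = 0
      rw [D_Tht h₁ h₂, show D r₁ f = 0 from h2, map_zero]
    · rintro f ⟨h1, h2⟩
      refine ⟨Tht_mem_Ch h1, ?_⟩
      show D r₁ (Tht r₁ r₂ f) = 0
      rw [D_Tht' h₁ h₂, show D r₂ f = 0 from h2, map_zero]
  have hB : (Bd r₁ G s A i).map
      ((Tht r₁ r₂ : E Γ (Finset V) →L[ℂ] E Γ (Finset V)) : E Γ (Finset V) →ₗ[ℂ] E Γ (Finset V)) = Bd r₂ G s A i := by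
    apply map_Tht_eq
    · intro f hf
      refine Tht_mem_closure ?_ hf
      rintro _ ⟨u, hu, rfl⟩
      exact ⟨Tht r₁ r₂ u, Tht_mem_Ch hu, D_Tht h₁ h₂ u⟩
    · intro f hf
      refine Tht_mem_closure ?_ hf
      rintro _ ⟨u, hu, rfl⟩
      exact ⟨Tht r₁ r₂ u, Tht_mem_Ch hu, D_Tht' h₁ h₂ u⟩
  unfold bn
  rw [← hC, ← hB, vdim_map_of_injective (equi_Tht r₁ r₂) (Tht_injective r₁ r₂) (mdl_Cy r₁ G s A i),
    vdim_map_of_injective (equi_Tht r₁ r₂) (Tht_injective r₁ r₂) (mdl_Bd r₁ G s A i)]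

end rank

end Singer
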