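import Pool.Agent.Singer.Cone
import Pool.Agent.Singer.TwoSided

/-!
# Singer: semistability
-/

set_option autoImplicit false
set_option linter.unusedSectionVars false
set_option linter.unusedVariables false

open scoped ComplexConjugate InnerProductSpace
open Filter Topology

namespace Singer

variable {Γ : Type*} [Group Γ] {V : Type*} [Fintype V] [DecidableEq V]
variable {r : V → ℕ} {G : SimpleGraph V} {s : V → Γ}

lemma comm_sub_link (hs : IsSys G s) {a : V} {K B : Finset V} (h : Nbr G a K B) :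
    ∀ u ∈ sub s (B : Set V), s a * u = u * s a := by
  intro u hu
  have h4 : sub s (B : Set V) ≤ Subgroup.centralizer {s a} := by
    refine (Subgroup.closure_le _).2 ?_
    rintro _ ⟨v, hv, rfl⟩
    refine Subgroup.mem_centralizer_iff.2 fun y hy => ?_
    rw [Set.mem_singleton_iff.1 hy]
    exact hs.comm _ _ ((h.mem v).1 (Finset.mem_coe.1 hv)).2
  exact Subgroup.mem_centralizer_iff.1 (h4 hu) _ rfl

/-- acyclicity of `K ∪ a` in degree `k + 1` gives semistability of the link `B` of `a` -/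
theorem ss_of_acyclic (hr : Function.Injective r) (hs : IsSys G s) {a : V} {K B : Finset V} (h : Nbr G a K B)
    (hfa : s a ∉ sub s B) {k : ℕ} (h0 : bn r G s (insert a K) (k + 1) = 0) : SS r G s K B k := by
  intro W hW hl hc ho
  have h1 := inj_of_bn_insert hr hs h hfa h0
  have h2 := vdim_asym hW.inv hW.cl hl (hs.sq a) (comm_sub_link hs h) hfa
  have mA : Mdl (W ⊓ asym (s a)) := hW.inf (mdl_asym _)
  have mB : Mdl (W ⊓ Bd r G s K k) := hW.inf (mdl_Bd _ _ _ _ _)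
  have h3 := vdim_sup_add_inf mA.inv mB.inv mA.cl mB.cl
  have h4 : (W ⊓ asym (s a)) ⊓ (W ⊓ Bd r G s K k) = ⊥ := by
    rw [eq_bot_iff]
    rintro f ⟨⟨f1, f2⟩, ⟨f3, f4⟩⟩
    have h5 : f ∈ Bd r G s B k := h1 ⟨⟨hc f1, f2⟩, f4⟩
    have h6 : f ∈ (Bd r G s B k)ᗮ := ho f1
    exact inner_self_eq_zero.1 ((Submodule.mem_orthogonal _ _).1 h6 f h5)
  have h5 : vdim ((W ⊓ asym (s a)) ⊔ (W ⊓ Bd r G s K k)) ≤ vdim W := vdim_mono (sup_le inf_le_left inf_le_left)
  rw [h4, vdim_bot] at h3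
  linarith

/-- the two-sided half-space lemma for the complex -/
theorem mk_eq_zero (hr : Function.Injective r) {K K' : Finset V}
    (hS : Side (sub s (K : Set V)) (sub s (K' : Set V)) (sub s ((K ∩ K' : Finset V) : Set V))) {k : ℕ}
    (h1 : SS r G s K (K ∩ K') k) (h2 : SS r G s K' (K ∩ K') k) : mk r G s K K' k = 0 := by
  set B : Finset V := K ∩ K' with hB
  have hBK : B ⊆ K := Finset.inter_subset_left
  have hBK' : B ⊆ K' := Finset.inter_subset_right
  have hsub : ∀ {A A' : Finset V}, A ⊆ A' → sub s (A : Set V) ≤ sub s (A' : Set V) := fun h =>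
    Subgroup.closure_mono (Set.image_mono (Finset.coe_subset.2 h))
  set X : Submodule ℂ (E Γ (Finset V)) := Cy r G s B k ⊓ (Bd r G s B k)ᗮ with hX
  have mX : Mdl X := (mdl_Cy _ _ _ _ _).inf (Mdl.orthogonal (mdl_Bd _ _ _ _ _).inv)
  have lX : Loc (sub s (B : Set V)) X := (loc_Cy _ _ _ _ _).inf (loc_Bd _ _ _ _ _).orthogonal
  have key : (X ⊓ Bd r G s K k) ⊓ (X ⊓ Bd r G s K' k) = ⊥ := by
    refine two_sided (hsub hBK) (hsub hBK') hS mX lX (mX.inf (mdl_Bd _ _ _ _ _)) ?_ inf_le_left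
      (mX.inf (mdl_Bd _ _ _ _ _)) ?_ inf_le_left ?_ ?_
    · exact (lX.mono mX.inv mX.cl (hsub hBK)).inf (loc_Bd _ _ _ _ _)
    · exact (lX.mono mX.inv mX.cl (hsub hBK')).inf (loc_Bd _ _ _ _ _)
    · intro W hW hl hWX
      have h3 := h1 W hW hl (hWX.trans inf_le_left) (hWX.trans inf_le_right)
      have h4 : W ⊓ (X ⊓ Bd r G s K k) = W ⊓ Bd r G s K k := by
        rw [← inf_assoc, inf_eq_left.2 hWX]
      rw [h4]
      exact h3
    · intro W hW hl hWX
      have h3 := h2 W hW hl (hWX.trans inf_le_left) (hWX.trans inf_le_right)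
      have h4 : W ⊓ (X ⊓ Bd r G s K' k) = W ⊓ Bd r G s K' k := by
        rw [← inf_assoc, inf_eq_left.2 hWX]
      rw [h4]
      exact h3
  have hCh : Ch G s K k ⊓ Ch G s K' k ≤ Ch G s B k := by
    rintro f ⟨f1, f2⟩
    exact ⟨fun x hx => ⟨Finset.subset_inter (f1.1 x hx).1 (f2.1 x hx).1, (f1.1 x hx).2⟩, f1.2⟩
  have hBB : Bd r G s K k ⊓ Bd r G s K' k = Bd r G s B k := by
    refine le_antisymm ?_ (le_inf (Bd_mono _ _ _ hBK _) (Bd_mono _ _ _ hBK' _))
    rintro f ⟨f1, f2⟩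
    have c1 := Bd_le_Cy _ _ _ hr _ _ f1
    have c2 := Bd_le_Cy _ _ _ hr _ _ f2
    have hf : f ∈ Cy r G s B k := ⟨hCh ⟨c1.1, c2.1⟩, c1.2⟩
    rw [Cy_eq_sup _ _ _ hr] at hf
    obtain ⟨b, hb, h, hh, rfl⟩ := Submodule.mem_sup.1 hf
    have hhK : h ∈ Bd r G s K k := by
      have := Submodule.sub_mem _ f1 (Bd_mono _ _ _ hBK _ hb)
      simpa using this
    have hhK' : h ∈ Bd r G s K' k := by
      have := Submodule.sub_mem _ f2 (Bd_mono _ _ _ hBK' _ hb)
      simpa using this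
    have : h ∈ (⊥ : Submodule ℂ (E Γ (Finset V))) := by
      rw [← key]
      exact ⟨⟨hh, hhK⟩, ⟨hh, hhK'⟩⟩
    rw [Submodule.mem_bot] at this
    rw [this, add_zero]
    exact hb
  unfold mk
  rw [hBB, sub_self]

end Singer
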