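import Pool.Agent.Singer.Cone

/-!
# Singer: suspensions are acyclic (Lemma S)

`bn_suspension`: if `p`, `q` are not adjacent and both are adjacent to all vertices of `R`, and `s p * s q` has
infinite order, then all Betti numbers of `R ∪ {p, q}` vanish.
-/

set_option autoImplicit false
set_option linter.unusedSectionVars false
set_option linter.unusedVariables false

open scoped ComplexConjugate InnerProductSpace
open Filter Topology

namespace Singer

section inf
variable {Γ : Type*} [Group Γ] {ι : Type*}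

/-- a square summable function which is invariant under the right translation by an element of infinite order is zero -/
theorem eq_zero_of_rt {c : Γ} (hc : ∀ n : ℕ, 0 < n → c ^ n ≠ 1) {f : E Γ ι} (hf : rt c f = f) : f = 0 := by
  ext ⟨g, j⟩
  have h1 : ∀ n : ℕ, f (g * c ^ n, j) = f (g, j) := by
    intro n
    induction n with
    | zero => rw [pow_zero, mul_one]
    | succ n ih =>
      rw [pow_succ, ← mul_assoc, ← ih]
      exact congrArg (fun k : E Γ ι => k (g * c ^ n, j)) hf
  have hinj : Function.Injective fun n : ℕ => (g * c ^ n, j) := by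
    intro m n hmn
    have h2 : c ^ m = c ^ n := by
      have := congrArg Prod.fst hmn
      exact mul_left_cancel this
    rcases lt_trichotomy m n with h | h | h
    · exfalso
      refine hc (n - m) (by omega) ?_
      have h3 : c ^ m * c ^ (n - m) = c ^ m := by rw [← pow_add, Nat.add_sub_cancel' h.le, h2]
      exact mul_eq_left.1 h3
    · exact h
    · exfalso
      refine hc (m - n) (by omega) ?_
      have h3 : c ^ n * c ^ (m - n) = c ^ n := by rw [← pow_add, Nat.add_sub_cancel' h.le, h2]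
      exact mul_eq_left.1 h3
  have h4 : Summable fun n : ℕ => ‖f (g, j)‖ ^ 2 := by
    refine ((summable_sq f).comp_injective hinj).congr fun n => ?_
    show ‖f (g * c ^ n, j)‖ ^ 2 = _
    rw [h1]
  have h5 : ‖f (g, j)‖ ^ 2 = 0 := (summable_const_iff _).1 h4
  have h6 : ‖f (g, j)‖ = 0 := by
    rwa [sq_eq_zero_iff] at h5
  exact norm_eq_zero.1 h6

/-- the projection onto a module which is invariant under `rt a` commutes with `rt a` -/
theorem prj_rt {a : Γ} (ha : a * a = 1) {W : Submodule ℂ (E Γ ι)} (hW : Mdl W) (h : ∀ f ∈ W, rt a f ∈ W) (f : E Γ ι) :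
    prj W (rt a f) = rt a (prj W f) := by
  have hmem : prj W f ∈ W := by
    have := prj_mem W f
    rwa [IsClosed.submodule_topologicalClosure_eq hW.cl] at this
  refine prj_unique (W.le_topologicalClosure (h _ hmem)) ?_
  rw [Submodule.mem_orthogonal]
  intro w hw
  rw [← map_sub, ← inner_rt_invol ha]
  exact (Submodule.mem_orthogonal _ _).1 (sub_prj_mem W f) _ (h w hw)

end inf

section susp
variable {Γ : Type*} [Group Γ] {V : Type*} [Fintype V] [DecidableEq V]
variable {r : V → ℕ} {G : SimpleGraph V} {s : V → Γ}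

/-- a generator which is adjacent to all vertices of `R` commutes with the subgroup of `R` -/
theorem comm_sub_adj (hs : IsSys G s) {p : V} {R : Set V} (hpR : ∀ v ∈ R, G.Adj p v) :
    ∀ h ∈ sub s R, s p * h = h * s p := by
  intro h hh
  induction hh using Subgroup.closure_induction with
  | mem x hx =>
    obtain ⟨v, hv, rfl⟩ := hx
    exact hs.comm p v (hpR v hv)
  | one => rw [mul_one, one_mul]
  | mul x y _ _ hx hy => rw [← mul_assoc, hx, mul_assoc, hy, mul_assoc]
  | inv x _ hx =>
    have h1 : x⁻¹ * (s p * x) * x⁻¹ = x⁻¹ * (x * s p) * x⁻¹ := by rw [hx]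
    rw [mul_assoc, mul_assoc, mul_inv_cancel, mul_one, ← mul_assoc x⁻¹ x, inv_mul_cancel, one_mul] at h1
    exact h1.symm

/-- the harmonic part of an antisymmetric cycle is antisymmetric -/
theorem sub_prj_asym {p : V} (hp2 : s p * s p = 1) {R : Finset V}
    (hcom : ∀ h ∈ sub s (R : Set V), s p * h = h * s p) (i : ℕ) {f : E Γ (Finset V)} (hf : f ∈ asym (s p)) :
    f - prj (Bd r G s R i) f ∈ asym (s p) := by
  have hm := mdl_Bd r G s R i
  have hinv : ∀ f ∈ Bd r G s R i, rt (s p) f ∈ Bd r G s R i := fun f hf =>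
    (loc_Bd r G s R i).rt_mem hm.inv hm.cl hp2 hcom hf
  rw [mem_asym, map_sub, ← prj_rt hp2 hm hinv, mem_asym.1 hf, map_neg]
  abel

/-- no nonzero class of `R` which is antisymmetric in two directions -/
theorem Cy_le_Bd_of_two (hs : IsSys G s) {p q : V} {R : Finset V} (hpR : ∀ v ∈ R, G.Adj p v)
    (hqR : ∀ v ∈ R, G.Adj q v) (hinf : ∀ n : ℕ, 0 < n → (s p * s q) ^ n ≠ 1) (i : ℕ) {f : E Γ (Finset V)}
    (hp : f ∈ asym (s p)) (hq : f - prj (Bd r G s R i) f ∈ asym (s q)) : f ∈ Bd r G s R i := by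
  have h1 : f - prj (Bd r G s R i) f ∈ asym (s p) :=
    sub_prj_asym (hs.sq p) (comm_sub_adj hs (R := (R : Set V)) hpR) i hp
  have h2 : rt (s p * s q) (f - prj (Bd r G s R i) f) = f - prj (Bd r G s R i) f := by
    rw [← rt_rt, mem_asym.1 hq, map_neg, mem_asym.1 h1, neg_neg]
  have h3 := eq_zero_of_rt hinf h2
  rw [sub_eq_zero] at h3
  rw [h3]
  have := prj_mem (Bd r G s R i) f
  rwa [IsClosed.submodule_topologicalClosure_eq (mdl_Bd r G s R i).cl] at this

/-- Lemma S -/
theorem bn_suspension (hr : Function.Injective r) (hs : IsSys G s) {p q : V} {R : Finset V} (hp : p ∉ R) (hq : q ∉ R)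
    (hpq : p ≠ q) (hadj : ¬ G.Adj p q) (hpR : ∀ v ∈ R, G.Adj p v) (hqR : ∀ v ∈ R, G.Adj q v)
    (hinf : ∀ n : ℕ, 0 < n → (s p * s q) ^ n ≠ 1) (hfp : s p ∉ sub s R) (hfq : s q ∉ sub s R) (i : ℕ) :
    bn r G s (insert p (insert q R)) i = 0 := by
  have hN1 : Nbr G q R R := ⟨hq, fun v => ⟨fun hv => ⟨hv, hqR v hv⟩, fun hv => hv.1⟩⟩
  have hN2 : Nbr G p (insert q R) R := by
    refine ⟨?_, fun v => ⟨fun hv => ⟨Finset.mem_insert_of_mem hv, hpR v hv⟩, fun hv => ?_⟩⟩
    · rw [Finset.mem_insert]
      rintro (h | h)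
      · exact hpq h
      · exact hp h
    · rcases Finset.mem_insert.1 hv.1 with h | h
      · rw [h] at hv
        exact absurd hv.2 hadj
      · exact h
  have k1 : ∀ i, kap r G s q R R i = 0 := fun i => kap_eq_zero hr hN1 (inf_le_right)
  have k2 : ∀ i, kap r G s p R (insert q R) i = 0 := by
    intro i
    refine kap_eq_zero hr hN2 ?_
    rintro z ⟨⟨hz1, hz2⟩, hz3⟩
    -- the harmonic part of `z` is antisymmetric for `q`
    have h1 : z ∈ (Bd r G s R i ⊔ (Cy r G s R i ⊓ asym (s q))).topologicalClosure :=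
      Cy_inf_Bd_insert_le hr hN1 i ⟨hz1, hz3⟩
    have h2 : (Bd r G s R i ⊔ (Cy r G s R i ⊓ asym (s q))) ≤
        (asym (s q)).comap ((1 - prj (Bd r G s R i) : E Γ (Finset V) →L[ℂ] E Γ (Finset V)) :
          E Γ (Finset V) →ₗ[ℂ] E Γ (Finset V)) := by
      refine sup_le (fun f hf => ?_) fun f hf => ?_
      · show f - prj (Bd r G s R i) f ∈ asym (s q)
        rw [prj_eq_of_mem (Submodule.le_topologicalClosure _ hf), sub_self]
        exact Submodule.zero_mem _
      · show f - prj (Bd r G s R i) f ∈ asym (s q)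
        exact sub_prj_asym (hs.sq q) (comm_sub_adj hs (R := (R : Set V)) hqR) i hf.2
    have hcl : IsClosed (((asym (s q)).comap ((1 - prj (Bd r G s R i) : E Γ (Finset V) →L[ℂ] E Γ (Finset V)) :
          E Γ (Finset V) →ₗ[ℂ] E Γ (Finset V)) : Submodule ℂ (E Γ (Finset V))) : Set (E Γ (Finset V))) :=
      (isClosed_asym (s q)).preimage (1 - prj (Bd r G s R i) : E Γ (Finset V) →L[ℂ] E Γ (Finset V)).continuous
    exact Cy_le_Bd_of_two hs hpR hqR hinf i hz2 (Submodule.topologicalClosure_minimal _ h2 hcl h1)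
  rcases i with _ | i
  · rw [cone_zero hr hs hN2 hfp, cone_zero hr hs hN1 hfq, k1, k2]
    ring
  · rw [cone_succ hr hs hN2 hfp, cone_succ hr hs hN1 hfq, k1, k1, k2, k2]
    ring

end susp

end Singer
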