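import Pool.Agent.Singer.RacgSys
import Pool.Agent.Singer.Ind
import Pool.Agent.Singer.Cone
import Pool.Agent.Singer.Susp
import Pool.Agent.Singer.Step

/-!
# Singer: consequences for `bet` and `cap`
-/

set_option autoImplicit false
set_option linter.unusedSectionVars false
set_option linter.unusedVariables false

namespace Singer

section bet
variable {V W : Type*} [Fintype V] [DecidableEq V] [Fintype W] [DecidableEq W]

omit [DecidableEq V] in
lemma rk_inj : Function.Injective (rk : V → ℕ) := by
  intro u v h
  exact (Fintype.equivFin V).injective (Fin.ext h)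

/-- `bet` does not depend on the instances -/
theorem bet_inst (G : SimpleGraph V) (i : ℕ) (I : Fintype V) (J : DecidableEq V) : @bet V I J G i = bet G i := by
  have h1 : I = ‹Fintype V› := Subsingleton.elim _ _
  have h2 : J = ‹DecidableEq V› := Subsingleton.elim _ _
  rw [h1, h2]

theorem bet_eq_bn (G : SimpleGraph V) {r : V → ℕ} (hr : Function.Injective r) (i : ℕ) :
    bet G i = bn r G (Racg.gen G) Finset.univ i := bn_rank rk r rk_inj hr G _ _ i

theorem bet_iso {G : SimpleGraph V} {H : SimpleGraph W} (e : G ≃g H) (i : ℕ) : bet G i = bet H i := by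
  obtain ⟨φ, hφ, hg⟩ := exists_incl H e.toEquiv.toEmbedding
  have h := bn_transfer φ hφ e.toEquiv.toEmbedding (G := H) (s' := Racg.gen _) (s := Racg.gen H) hg rk Finset.univ i
  have h1 : (Finset.univ : Finset V).map e.toEquiv.toEmbedding = Finset.univ := by
    ext w
    simp only [Finset.mem_map, Finset.mem_univ, true_and, iff_true]
    exact ⟨e.symm w, e.apply_symm_apply w⟩
  have h2 : H.comap e.toEquiv.toEmbedding = G := by
    ext u v
    exact e.map_adj_iff
  have h3 : Function.Injective fun v : V => rk (e.toEquiv.toEmbedding v) := fun u v huv =>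
    e.injective (rk_inj huv)
  rw [h1, h2] at h
  rw [bet_eq_bn G h3]
  exact h.symm

theorem bn_eq_bet (G : SimpleGraph V) {r : V → ℕ} (hr : Function.Injective r) (A : Finset V) (i : ℕ) :
    bn r G (Racg.gen G) A i = bet (res G A) i := by
  obtain ⟨φ, hφ, hg⟩ := exists_incl G (Function.Embedding.subtype (· ∈ A))
  have h := bn_transfer φ hφ (Function.Embedding.subtype (· ∈ A)) (G := G) (s' := Racg.gen _) (s := Racg.gen G) hg r
    Finset.univ i
  have e : Finset.univ.map (Function.Embedding.subtype (· ∈ A)) = A := by ext; simp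
  rw [e] at h
  rw [h]
  refine (bet_eq_bn (res G A) (r := fun v => r v) (fun u v huv => Subtype.ext (hr huv)) i).symm

/-- a rank on `Option K` extending `r` -/
noncomputable def capR (r : V → ℕ) (K : Finset V) : Option {v // v ∈ K} → ℕ
  | some v => r v
  | none => (Finset.univ.sup r) + 1

lemma capR_inj {r : V → ℕ} (hr : Function.Injective r) (K : Finset V) : Function.Injective (capR r K) := by
  have h : ∀ v : V, r v < Finset.univ.sup r + 1 := fun v => Nat.lt_succ_of_le (Finset.le_sup (Finset.mem_univ v))
  rintro (_ | u) (_ | v) huv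
  · rfl
  · exact absurd huv (h v).ne'
  · exact absurd huv (h u).ne
  · exact congrArg some (Subtype.ext (hr huv))

lemma cap_comap (G : SimpleGraph V) (K B : Finset V) :
    (cap G K B).comap (Function.Embedding.some : {v // v ∈ K} ↪ Option {v // v ∈ K}) = res G K := by
  ext u v
  rfl

/-- the vertices of `K` in `Option K` -/
def capK (K : Finset V) : Finset (Option {v // v ∈ K}) := Finset.univ.map Function.Embedding.some

/-- the vertices of `B` in `Option K` -/
def capB (K B : Finset V) : Finset (Option {v // v ∈ K}) :=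
  (Finset.univ.filter fun v : {v // v ∈ K} => (v : V) ∈ B).map Function.Embedding.some

omit [Fintype V] in
lemma insert_capK (K : Finset V) : insert none (capK K) = Finset.univ := by
  ext (_ | v)
  · simp
  · simp [capK]

lemma nbr_cap (G : SimpleGraph V) (K B : Finset V) : Nbr (cap G K B) none (capK K) (capB K B) where
  notMem := by simp [capK]
  mem := by
    rintro (_ | v)
    · simp [capK, capB]
    · simp only [capB, capK, Finset.mem_map, Finset.mem_filter, Finset.mem_univ, true_and,
        Function.Embedding.some_apply, Option.some.injEq, exists_eq_right, exists_eq, true_and]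
      rfl

lemma cap_free (G : SimpleGraph V) (K B : Finset V) :
    Racg.gen (cap G K B) none ∉ sub (Racg.gen (cap G K B)) (capB K B : Finset (Option {v // v ∈ K})) :=
  gen_notMem _ _ (by simp [capB])

/-- the Betti numbers of a subset of `K` in `cap G K B` and in `G` -/
lemma bn_cap_map (G : SimpleGraph V) (K B : Finset V) (r : V → ℕ) (A : Finset {v // v ∈ K}) (i : ℕ) :
    bn (capR r K) (cap G K B) (Racg.gen (cap G K B)) (A.map Function.Embedding.some) i =
      bn r G (Racg.gen G) (A.map (Function.Embedding.subtype (· ∈ K))) i := by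
  obtain ⟨φ, hφ, hg⟩ := exists_incl G (Function.Embedding.subtype (· ∈ K))
  have h := bn_transfer φ hφ (Function.Embedding.subtype (· ∈ K)) (G := G) (s' := Racg.gen _) (s := Racg.gen G) hg r A i
  obtain ⟨ψ, hψ, hf⟩ := exists_incl (cap G K B) (Function.Embedding.some : {v // v ∈ K} ↪ Option {v // v ∈ K})
  have h' := bn_transfer ψ hψ (Function.Embedding.some : {v // v ∈ K} ↪ Option {v // v ∈ K}) (G := cap G K B)
    (s' := Racg.gen _)
    (s := Racg.gen (cap G K B)) hf (capR r K) A i
  rw [h, h']
  rfl

omit [Fintype V] in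
lemma map_univ_val (K : Finset V) :
    (Finset.univ : Finset {v // v ∈ K}).map (Function.Embedding.subtype (· ∈ K)) = K := by
  ext; simp

omit [Fintype V] in
lemma map_filter_val {K B : Finset V} (hBK : B ⊆ K) :
    (Finset.univ.filter fun v : {v // v ∈ K} => (v : V) ∈ B).map (Function.Embedding.subtype (· ∈ K)) = B := by
  ext v
  simp only [Finset.mem_map, Finset.mem_filter, Finset.mem_univ, true_and, Function.Embedding.subtype_apply,
    Subtype.exists, exists_and_left, exists_prop, exists_eq_right_right]
  exact ⟨fun h => h.1, fun h => ⟨h, hBK h⟩⟩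

lemma bn_capK (G : SimpleGraph V) (K B : Finset V) (r : V → ℕ) (i : ℕ) :
    bn (capR r K) (cap G K B) (Racg.gen (cap G K B)) (capK K) i = bn r G (Racg.gen G) K i := by
  have h := bn_cap_map G K B r Finset.univ i
  rwa [map_univ_val] at h

lemma bn_capB (G : SimpleGraph V) {K B : Finset V} (hBK : B ⊆ K) (r : V → ℕ) (i : ℕ) :
    bn (capR r K) (cap G K B) (Racg.gen (cap G K B)) (capB K B) i = bn r G (Racg.gen G) B i := by
  have h := bn_cap_map G K B r (Finset.univ.filter fun v : {v // v ∈ K} => (v : V) ∈ B) i
  rwa [map_filter_val hBK] at h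

lemma bet_cap (G : SimpleGraph V) (K B : Finset V) {r : V → ℕ} (hr : Function.Injective r) (i : ℕ) :
    bet (cap G K B) i = bn (capR r K) (cap G K B) (Racg.gen (cap G K B)) (insert none (capK K)) i := by
  rw [bet_eq_bn _ (capR_inj hr K), insert_capK]

/-- semistability from the acyclicity of the cap -/
theorem cap_SS (G : SimpleGraph V) {K B : Finset V} (hBK : B ⊆ K) {r : V → ℕ} (hr : Function.Injective r) {k : ℕ}
    (h : bet (cap G K B) (k + 1) = 0) : SS r G (Racg.gen G) K B k := by
  rw [bet_cap G K B hr] at h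
  have h1 := ss_of_acyclic (capR_inj hr K) (isSys_gen (cap G K B)) (nbr_cap G K B) (cap_free G K B) h
  obtain ⟨φ, hφ, hg⟩ := exists_incl G (Function.Embedding.subtype (· ∈ K))
  obtain ⟨ψ, hψ, hf⟩ := exists_incl (cap G K B) (Function.Embedding.some : {v // v ∈ K} ↪ Option {v // v ∈ K})
  have h2 := (SS_transfer ψ hψ (Function.Embedding.some : {v // v ∈ K} ↪ Option {v // v ∈ K}) (G := cap G K B)
    (s' := Racg.gen _)
    (s := Racg.gen (cap G K B)) hf (capR r K) Finset.univ
    (Finset.univ.filter fun v : {v // v ∈ K} => (v : V) ∈ B) (Finset.subset_univ _) k).1 h1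
  have h3 := (SS_transfer φ hφ (Function.Embedding.subtype (· ∈ K)) (G := G) (s' := Racg.gen _) (s := Racg.gen G) hg r
    Finset.univ (Finset.univ.filter fun v : {v // v ∈ K} => (v : V) ∈ B) (Finset.subset_univ _) k).2 h2
  rwa [map_univ_val, map_filter_val hBK] at h3

theorem cap_half (G : SimpleGraph V) {K B : Finset V} (hBK : B ⊆ K) {r : V → ℕ} (hr : Function.Injective r)
    (h : ∀ i, bet (cap G K B) i = 0) (i : ℕ) : bn r G (Racg.gen G) K i = bn r G (Racg.gen G) B i / 2 := by
  have h0 : ∀ i, bn (capR r K) (cap G K B) (Racg.gen (cap G K B)) (insert none (capK K)) i = 0 := fun i => by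
    rw [← bet_cap G K B hr, h]
  have h1 := bn_le_insert (capR_inj hr K) (isSys_gen (cap G K B)) (nbr_cap G K B) (cap_free G K B) i
  have h2 := kap_eq_zero (capR_inj hr K) (nbr_cap G K B) (i := i)
    (inj_of_bn_insert (capR_inj hr K) (isSys_gen (cap G K B)) (nbr_cap G K B) (cap_free G K B) (h0 (i + 1)))
  have h3 := kap_ge (capR_inj hr K) (isSys_gen (cap G K B)) (nbr_cap G K B) (cap_free G K B) i
  rw [h2, bn_capK, bn_capB G hBK] at h3
  rw [h0, bn_capK, bn_capB G hBK] at h1
  linarith

theorem cap_eq (G : SimpleGraph V) {K B : Finset V} (hBK : B ⊆ K) {r : V → ℕ} (hr : Function.Injective r)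
    (h : ∀ i, bn r G (Racg.gen G) B i = 0) (i : ℕ) : bet (cap G K B) i = bn r G (Racg.gen G) K i := by
  rw [bet_cap G K B hr, bn_insert_eq (capR_inj hr K) (isSys_gen (cap G K B)) (nbr_cap G K B) (cap_free G K B)
    (fun i => by rw [bn_capB G hBK, h]), bn_capK]

theorem bet_susp (G : SimpleGraph V) (i : ℕ) : bet (susp G) i = 0 := by
  have e : (Finset.univ : Finset (V ⊕ Bool)) =
      insert (Sum.inr false) (insert (Sum.inr true) (Finset.univ.map Function.Embedding.inl)) := by
    ext (v | (_ | _)) <;> simp
  have hf : ∀ b : Bool, Racg.gen (susp G) (Sum.inr b) ∉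
      sub (Racg.gen (susp G)) ((Finset.univ.map (Function.Embedding.inl : V ↪ V ⊕ Bool) : Finset (V ⊕ Bool))) :=
    fun b => gen_notMem _ _ (by simp)
  rw [bet_eq_bn _ rk_inj, e]
  refine bn_suspension rk_inj (isSys_gen _) (by simp) (by simp) (by simp) (fun h => h) ?_ ?_
    (gen_mul_gen_pow _ (by simp) fun h => h) (hf _) (hf _) i
  · intro v hv
    obtain ⟨u, -, rfl⟩ := Finset.mem_map.1 hv
    trivial
  · intro v hv
    obtain ⟨u, -, rfl⟩ := Finset.mem_map.1 hv
    trivial

theorem bet_empty [IsEmpty V] (G : SimpleGraph V) {i : ℕ} (hi : i ≠ 0) : bet G i = 0 := by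
  have key : ∀ j, j ≠ 0 → Ch G (Racg.gen G) (Finset.univ : Finset V) j = ⊥ := by
    intro j hj
    rw [eq_bot_iff]
    intro f hf
    rw [Submodule.mem_bot]
    ext x
    by_contra hx
    have h1 := (hf.1 x hx).2.1
    rw [Finset.eq_empty_of_isEmpty x.2, Finset.card_empty] at h1
    exact hj h1.symm
  unfold bet bn Cy Bd
  rw [key i hi, key (i + 1) (Nat.succ_ne_zero i), bot_inf_eq, Submodule.map_bot, vdim_closure, sub_self]

end bet

end Singer
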