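import Pool.Agent.Singer.Racg

/-!
# The half-space of an amalgamated product of right-angled Coxeter groups

The graph is the union of the full subgraphs `V₁`, `V₂`, without edges between `V₁ \ V₂` and `V₂ \ V₁`:
the group is the amalgamated product of the special subgroups of `V₁` and `V₂` over the special subgroup
of `V₁ ∩ V₂`.  There is a set `S` (one side of an edge of the Bass-Serre tree) which is invariant under
right multiplication by the group of `V₂`, disjoint from the group of `V₁ ∩ V₂`, and whose union with this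
group is invariant under right multiplication by the group of `V₁`.
-/

set_option autoImplicit false

namespace Singer
namespace Racg

section amalg
open scoped Classical
variable {V : Type*} (G : SimpleGraph V) (V₁ V₂ : Set V)

/-- swap the two copies of the special subgroup of `V₁ ∩ V₂` -/
noncomputable def swp : Equiv.Perm (RACG G × Bool) where
  toFun x := (x.1, if x.1 ∈ sub (G := G) (V₁ ∩ V₂) then !x.2 else x.2)
  invFun x := (x.1, if x.1 ∈ sub (G := G) (V₁ ∩ V₂) then !x.2 else x.2)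
  left_inv x := by
    refine Prod.ext rfl ?_
    dsimp only
    split_ifs <;> simp
  right_inv x := by
    refine Prod.ext rfl ?_
    dsimp only
    split_ifs <;> simp

lemma swp_swp : swp G V₁ V₂ * swp G V₁ V₂ = 1 := by
  ext1 x
  exact (swp G V₁ V₂).left_inv x

/-- left multiplication on the first factor -/
def lft : RACG G →* Equiv.Perm (RACG G × Bool) where
  toFun w := ⟨fun x => (w * x.1, x.2), fun x => (w⁻¹ * x.1, x.2), fun x => by simp, fun x => by simp⟩
  map_one' := by ext1 x; show ((1 : RACG G) * x.1, x.2) = x; rw [one_mul]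
  map_mul' a b := by ext1 x; show (a * b * x.1, x.2) = (a * (b * x.1), x.2); rw [mul_assoc]

lemma lft_apply (w : RACG G) (x : RACG G × Bool) : lft G w x = (w * x.1, x.2) := rfl

lemma swp_lft {c : RACG G} (hc : c ∈ sub (G := G) (V₁ ∩ V₂)) : swp G V₁ V₂ * lft G c = lft G c * swp G V₁ V₂ := by
  ext1 x
  show (c * x.1, if c * x.1 ∈ sub (G := G) (V₁ ∩ V₂) then !x.2 else x.2) =
    (c * x.1, if x.1 ∈ sub (G := G) (V₁ ∩ V₂) then !x.2 else x.2)
  rw [if_congr (Subgroup.mul_mem_cancel_left _ hc) rfl rfl]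

/-- the twisted left multiplication -/
noncomputable def twi : RACG G →* Equiv.Perm (RACG G × Bool) where
  toFun w := swp G V₁ V₂ * lft G w * swp G V₁ V₂
  map_one' := by rw [map_one, mul_one, swp_swp]
  map_mul' a b := by
    rw [map_mul]
    calc swp G V₁ V₂ * (lft G a * lft G b) * swp G V₁ V₂ =
        swp G V₁ V₂ * (lft G a * (1 * lft G b)) * swp G V₁ V₂ := by rw [one_mul]
      _ = _ := by rw [← swp_swp G V₁ V₂]; simp only [mul_assoc]

lemma twi_eq {c : RACG G} (hc : c ∈ sub (G := G) (V₁ ∩ V₂)) : twi G V₁ V₂ c = lft G c := by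
  show swp G V₁ V₂ * lft G c * swp G V₁ V₂ = lft G c
  rw [swp_lft G V₁ V₂ hc, mul_assoc, swp_swp, mul_one]

variable {G V₁ V₂}
variable (hcov : ∀ v, v ∈ V₁ ∨ v ∈ V₂) (hadj : ∀ u v, u ∈ V₁ → u ∉ V₂ → v ∈ V₂ → v ∉ V₁ → ¬ G.Adj u v)

/-- the twisted action: the generators of `V₂` act by left multiplication, those of `V₁` by twisted left
multiplication -/
noncomputable def rep (hadj : ∀ u v, u ∈ V₁ → u ∉ V₂ → v ∈ V₂ → v ∉ V₁ → ¬ G.Adj u v)
    (hcov : ∀ v, v ∈ V₁ ∨ v ∈ V₂) : RACG G →* Equiv.Perm (RACG G × Bool) :=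
  lift (fun v => if v ∈ V₂ then lft G (gen G v) else twi G V₁ V₂ (gen G v))
    (fun v => by
      split_ifs
      · rw [← map_mul, gen_mul_gen, map_one]
      · rw [← map_mul, gen_mul_gen, map_one])
    fun u v h => by
      by_cases hu : u ∈ V₂
      · by_cases hv : v ∈ V₂
        · rw [if_pos hu, if_pos hv, ← map_mul, ← map_mul, gen_comm h]
        · have hv1 : v ∈ V₁ := (hcov v).resolve_right hv
          have hu1 : u ∈ V₁ := by
            by_contra hu1
            exact hadj v u hv1 hv hu hu1 h.symm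
          rw [if_pos hu, if_neg hv, ← twi_eq G V₁ V₂ (gen_mem_sub (A := V₁ ∩ V₂) ⟨hu1, hu⟩), ← map_mul, ← map_mul,
            gen_comm h]
      · have hu1 : u ∈ V₁ := (hcov u).resolve_right hu
        by_cases hv : v ∈ V₂
        · have hv1 : v ∈ V₁ := by
            by_contra hv1
            exact hadj u v hu1 hu hv hv1 h
          rw [if_neg hu, if_pos hv, ← twi_eq G V₁ V₂ (gen_mem_sub (A := V₁ ∩ V₂) ⟨hv1, hv⟩), ← map_mul, ← map_mul,
            gen_comm h]
        · rw [if_neg hu, if_neg hv, ← map_mul, ← map_mul, gen_comm h]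

include hcov hadj

lemma rep_two {k : RACG G} (hk : k ∈ sub (G := G) V₂) : rep hadj hcov k = lft G k := by
  have h : sub (G := G) V₂ ≤ (rep hadj hcov).eqLocus (lft G) := by
    refine (Subgroup.closure_le _).2 ?_
    rintro _ ⟨v, hv, rfl⟩
    show rep hadj hcov (gen G v) = lft G (gen G v)
    rw [rep, lift_gen, if_pos hv]
  exact h hk

lemma rep_one {k : RACG G} (hk : k ∈ sub (G := G) V₁) : rep hadj hcov k = twi G V₁ V₂ k := by
  have h : sub (G := G) V₁ ≤ (rep hadj hcov).eqLocus (twi G V₁ V₂) := by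
    refine (Subgroup.closure_le _).2 ?_
    rintro _ ⟨v, hv, rfl⟩
    show rep hadj hcov (gen G v) = twi G V₁ V₂ (gen G v)
    by_cases h2 : v ∈ V₂
    · rw [rep, lift_gen, if_pos h2, twi_eq G V₁ V₂ (gen_mem_sub (A := V₁ ∩ V₂) ⟨hv, h2⟩)]
    · rw [rep, lift_gen, if_neg h2]
  exact h hk

lemma rep_fst (w : RACG G) (x : RACG G × Bool) : (rep hadj hcov w x).1 = w * x.1 := by
  induction w using induction generalizing x with
  | h1 => rw [map_one, one_mul]; rfl
  | hm v w ih =>
    rw [map_mul, Equiv.Perm.mul_apply, mul_assoc, ← ih]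
    generalize rep hadj hcov w x = y
    rw [rep, lift_gen]
    split_ifs
    · rfl
    · rfl

/-- **the half-space of an amalgamated product** -/
theorem exists_side : ∃ S : Set (RACG G),
    (∀ w ∈ S, ∀ k ∈ sub (G := G) V₂, w * k ∈ S) ∧
    (∀ w, (w ∈ S ∨ w ∈ sub (G := G) (V₁ ∩ V₂)) → ∀ k ∈ sub (G := G) V₁, w * k ∈ S ∨ w * k ∈ sub (G := G) (V₁ ∩ V₂)) ∧
    ∀ w ∈ S, w ∉ sub (G := G) (V₁ ∩ V₂) := by
  set s : RACG G → Bool := fun w => (rep hadj hcov w (1, false)).2 with hs
  have hrep : ∀ w, rep hadj hcov w (1, false) = (w, s w) := fun w =>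
    Prod.ext (by rw [rep_fst, mul_one]) rfl
  have h2 : ∀ k ∈ sub (G := G) V₂, ∀ w, s (k * w) = s w := by
    intro k hk w
    show (rep hadj hcov (k * w) (1, false)).2 = _
    rw [map_mul, Equiv.Perm.mul_apply, rep_two hcov hadj hk, hrep]
    rfl
  have hC : ∀ c ∈ sub (G := G) (V₁ ∩ V₂), s c = false := by
    intro c hc
    have h1 := h2 c (sub_mono Set.inter_subset_right hc) 1
    rw [mul_one] at h1
    rw [h1]
    show (rep hadj hcov 1 (1, false)).2 = false
    rw [map_one]
    rfl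
  have h1 : ∀ k ∈ sub (G := G) V₁, ∀ w, s (k * w) =
      if k * w ∈ sub (G := G) (V₁ ∩ V₂) then !(if w ∈ sub (G := G) (V₁ ∩ V₂) then !(s w) else s w)
        else (if w ∈ sub (G := G) (V₁ ∩ V₂) then !(s w) else s w) := by
    intro k hk w
    show (rep hadj hcov (k * w) (1, false)).2 = _
    rw [map_mul, Equiv.Perm.mul_apply, rep_one hcov hadj hk, hrep]
    rfl
  have hinv : ∀ k, k ∈ sub (G := G) V₁ → ∀ w, (s w = true ∨ w ∈ sub (G := G) (V₁ ∩ V₂)) →
      (s (k * w) = true ∨ k * w ∈ sub (G := G) (V₁ ∩ V₂)) := by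
    intro k hk w hw
    by_cases h : k * w ∈ sub (G := G) (V₁ ∩ V₂)
    · exact Or.inr h
    left
    rw [h1 k hk w, if_neg h]
    by_cases h' : w ∈ sub (G := G) (V₁ ∩ V₂)
    · rw [if_pos h', hC w h']
      rfl
    · rw [if_neg h']
      exact hw.resolve_right h'
  have hinvmem : ∀ w : RACG G, w⁻¹ ∈ sub (G := G) (V₁ ∩ V₂) ↔ w ∈ sub (G := G) (V₁ ∩ V₂) := fun w => inv_mem_iff
  refine ⟨{w | s w⁻¹ = true}, fun w hw k hk => ?_, fun w hw k hk => ?_, fun w hw hc => ?_⟩
  · show s (w * k)⁻¹ = true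
    rw [mul_inv_rev, h2 _ (Subgroup.inv_mem _ hk)]
    exact hw
  · have h3 := hinv k⁻¹ (Subgroup.inv_mem _ hk) w⁻¹ (hw.imp id fun h => (hinvmem w).2 h)
    rw [← mul_inv_rev] at h3
    exact h3.imp id fun h => (hinvmem _).1 h
  · have h4 : s w⁻¹ = true := hw
    rw [hC _ ((hinvmem w).2 hc)] at h4
    exact absurd h4 (by simp)

end amalg

end Racg
end Singer
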