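import Pool.Agent.Singer.Defs
import Pool.Agent.Singer.Amalg

/-!
# Singer: the right-angled Coxeter group as a system of involutions
-/

set_option autoImplicit false

namespace Singer

variable {V V' : Type*}

theorem isSys_gen (G : SimpleGraph V) : IsSys G (Racg.gen G) := ⟨Racg.gen_mul_gen G, fun _ _ h => Racg.gen_comm h⟩

theorem sub_gen (G : SimpleGraph V) (A : Set V) : sub (Racg.gen G) A = Racg.sub A := rfl

/-- (W1) -/
theorem exists_incl (G : SimpleGraph V) (j : V' ↪ V) : ∃ φ : RACG (G.comap j) →* RACG G, Function.Injective φ ∧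
    ∀ v, φ (Racg.gen _ v) = Racg.gen G (j v) :=
  ⟨Racg.map j fun _ _ h => h, Racg.map_injective j j.injective fun _ _ => Iff.rfl, fun v => Racg.map_gen _ _ v⟩

/-- (W2) -/
theorem gen_notMem (G : SimpleGraph V) (a : V) {A : Set V} (h : a ∉ A) : Racg.gen G a ∉ sub (Racg.gen G) A :=
  Racg.gen_notMem h

/-- (W4) -/
theorem gen_mul_gen_pow (G : SimpleGraph V) {p q : V} (hpq : p ≠ q) (h : ¬ G.Adj p q) (n : ℕ) (hn : 0 < n) :
    (Racg.gen G p * Racg.gen G q) ^ n ≠ 1 := Racg.pow_ne_one hpq h hn.ne'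

/-- (W3) the side set of an amalgam -/
theorem side_racg (G : SimpleGraph V) {K K' : Set V} (hcov : ∀ v, v ∈ K ∨ v ∈ K')
    (hno : ∀ u v, u ∉ K' → v ∉ K → ¬ G.Adj u v) :
    Side (sub (Racg.gen G) K) (sub (Racg.gen G) K') (sub (Racg.gen G) (K ∩ K')) := by
  obtain ⟨S, h1, h2, h3⟩ := Racg.exists_side (G := G) (V₁ := K) (V₂ := K') hcov fun u v _ hu _ hv => hno u v hu hv
  refine ⟨S ∪ (sub (Racg.gen G) (K ∩ K') : Set (RACG G)), fun g hg k hk => ?_, fun c hc => Or.inr hc,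
    fun g hg hgC b hb => ?_⟩
  · exact h2 g hg k hk
  · have hg' : g ∈ S := hg.resolve_right hgC
    have h4 := h1 g hg' b hb
    exact ⟨Or.inl h4, h3 _ h4⟩

end Singer
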