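import Pool.Agent.Singer.Links

/-!
# Singer: vanishing above the middle dimension for full subgraphs

* `bet_upper`: if `Good n G`, then `bet (res G A) i = 0` for all `A` and `n < 2 * i`;
* `bet_upper_of_links`: if all links of `G` satisfy `Good m`, then `bet (res G A) i = 0` for all `A` and `m + 2 < 2 * i`.
-/

set_option autoImplicit false
set_option linter.unusedSectionVars false
set_option linter.unusedVariables false

namespace Singer

universe u

/-- the full subgraph on a set of neighbours of `a` is a full subgraph of the link of `a` -/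
noncomputable def resLk {V : Type*} (G : SimpleGraph V) (a : V) {U : Finset V} {U' : Finset {w // G.Adj a w}}
    (hU : ∀ v ∈ U, G.Adj a v) (hU' : ∀ w, w ∈ U' ↔ w.1 ∈ U) : res G U ≃g res (lk G a) U' :=
  isoOfBij (fun v => ⟨⟨v.1, hU _ v.2⟩, (hU' _).2 v.2⟩)
    ⟨fun x y h => by
      have h1 := Subtype.mk.inj h
      exact Subtype.ext (Subtype.mk.inj h1), by
      rintro ⟨⟨w, hw⟩, h⟩
      exact ⟨⟨w, (hU' _).1 h⟩, rfl⟩⟩
    (fun x y => Iff.rfl)

/-- the induction step: the neighbours of `a` in `A` -/
theorem bn_nbr_eq_zero {V : Type u} [Fintype V] [DecidableEq V] {G : SimpleGraph V} {a : V} {i : ℕ} {r : V → ℕ}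
    (hr : Function.Injective r) (h : ∀ {W : Type u} [Fintype W] [DecidableEq W] (H : SimpleGraph W)
      (B : Finset W), Nonempty (H ≃g lk G a) → bet (res H B) i = 0) {U : Finset V} (hU : ∀ v ∈ U, G.Adj a v) :
    bn r G (Racg.gen G) U i = 0 := by
  classical
  rw [bn_eq_bet G hr U i]
  have e := resLk G a (U := U) (U' := Finset.univ.filter fun w : {w // G.Adj a w} => w.1 ∈ U) hU (by simp)
  rw [bet_iso e i]
  exact h (lk G a) _ ⟨SimpleGraph.Iso.refl⟩

theorem nbr_filter {V : Type u} [DecidableEq V] {G : SimpleGraph V} [DecidableRel G.Adj] {a : V} {A : Finset V}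
    (ha : a ∉ A) : Nbr G a A (A.filter fun v => G.Adj a v) where
  notMem := ha
  mem := by simp

theorem injective_rk {V : Type u} [Fintype V] : Function.Injective (rk : V → ℕ) := fun a b h =>
  (Fintype.equivFin V).injective (Fin.ext h)

/-- **hereditary vanishing gives vanishing above the middle dimension for all full subgraphs** -/
theorem bet_upper {n : ℕ} : ∀ {V : Type u} [Fintype V] [DecidableEq V] {G : SimpleGraph V}, Good n G →
    ∀ (A : Finset V) (i : ℕ), n < 2 * i → bet (res G A) i = 0 := by
  induction n with
  | zero =>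
    intro V _ _ G h A i hi
    have h' : IsEmpty V := h
    exact bet_empty _ (by omega)
  | succ n ih =>
    intro V _ _ G h A i hi
    classical
    have hr : Function.Injective (rk : V → ℕ) := injective_rk
    rw [good_succ_iff] at h
    have key : ∀ C : Finset V, bn rk G (Racg.gen G) Cᶜ i = 0 := by
      intro C
      induction C using Finset.induction_on with
      | empty =>
        rw [Finset.compl_empty]
        exact h.1 i (by omega)
      | insert a C ha ihC =>
        have ha' : a ∉ (insert a C)ᶜ := by simp
        have h1 := bn_le_insert hr (isSys_gen G) (nbr_filter ha')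
          (gen_notMem G a (A := ((insert a C)ᶜ.filter fun v => G.Adj a v : Finset V)) (by simp)) i
        have hins : insert a (insert a C)ᶜ = Cᶜ := by
          ext v
          by_cases hv : v = a
          · subst hv
            simp [ha]
          · simp [hv]
        have h2 : bn rk G (Racg.gen G) ((insert a C)ᶜ.filter fun v => G.Adj a v) i = 0 := by
          refine bn_nbr_eq_zero (a := a) hr ?_ (by simp)
          rintro W _ _ H B ⟨e⟩
          exact ih (good_iso e.symm (h.2 a)) B i (by omega)
        rw [hins, ihC, h2] at h1
        have h3 := bn_nonneg (r := rk) (G := G) (s := Racg.gen G) (hr := hr) (A := (insert a C)ᶜ) (i := i)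
        linarith
    have h4 := key Aᶜ
    rw [compl_compl] at h4
    rw [← bn_eq_bet G hr A i]
    exact h4

/-- **if the links satisfy hereditary vanishing, then all full subgraphs have vanishing homology above
the middle dimension** -/
theorem bet_upper_of_links {m : ℕ} {V : Type u} [Fintype V] [DecidableEq V] {G : SimpleGraph V} [DecidableRel G.Adj]
    (h : ∀ v : V, Good m (lk G v)) (A : Finset V) (i : ℕ) (hi : m + 2 < 2 * i) : bet (res G A) i = 0 := by
  classical
  have hr : Function.Injective (rk : V → ℕ) := injective_rk
  rw [← bn_eq_bet G hr A i]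
  obtain ⟨j, rfl⟩ : ∃ j, i = j + 1 := ⟨i - 1, by omega⟩
  induction A using Finset.induction_on with
  | empty =>
    rw [bn_eq_bet G hr]
    have : IsEmpty {v // v ∈ (∅ : Finset V)} := ⟨fun x => absurd x.2 (Finset.notMem_empty _)⟩
    exact bet_empty _ (by omega)
  | insert a A ha ihA =>
    have h1 := bn_insert_succ_le hr (isSys_gen G) (nbr_filter ha)
      (gen_notMem G a (A := (A.filter fun v => G.Adj a v : Finset V)) (by simp)) j
    have h2 : bn rk G (Racg.gen G) (A.filter fun v => G.Adj a v) j = 0 := by
      refine bn_nbr_eq_zero (a := a) hr ?_ (by simp)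
      rintro W _ _ H B ⟨e⟩
      exact bet_upper (n := m) (good_iso e.symm (good_inst (h a))) B j (by omega)
    rw [ihA, h2] at h1
    have h3 := bn_nonneg (r := rk) (G := G) (s := Racg.gen G) (hr := hr) (A := insert a A) (i := j + 1)
    linarith

/-- the case of `G` itself -/
theorem bet_upper_univ {m : ℕ} {V : Type u} [Fintype V] [DecidableEq V] {G : SimpleGraph V} [DecidableRel G.Adj]
    (h : ∀ v : V, Good m (lk G v)) (i : ℕ) (hi : m + 2 < 2 * i) : bet G i = 0 := by
  have h1 := bet_upper_of_links h Finset.univ i hi
  have h2 := bn_eq_bet G (injective_rk (V := V)) Finset.univ i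
  rw [h1] at h2
  exact h2

end Singer
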