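import Pool.Agent.Singer.Defs

/-!
# Singer: the class `Cls` is closed under links and joins
-/

set_option autoImplicit false
set_option linter.unusedSectionVars false
set_option linter.unusedVariables false

namespace Singer

universe u

/-! ### Transport along bijections -/

theorem Cls.push {n : ℕ} {V W : Type u} {G : SimpleGraph V} {H : SimpleGraph W} (h : Cls n G) (f : V → W)
    (hf : Function.Bijective f) (ha : ∀ x y, H.Adj (f x) (f y) ↔ G.Adj x y) : Cls n H :=
  Cls.iso h ⟨Equiv.ofBijective f hf, ha _ _⟩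

theorem Cls.pull {n : ℕ} {V W : Type u} {G : SimpleGraph V} {H : SimpleGraph W} (h : Cls n H) (f : V → W)
    (hf : Function.Bijective f) (ha : ∀ x y, H.Adj (f x) (f y) ↔ G.Adj x y) : Cls n G :=
  Cls.iso h (RelIso.symm (⟨Equiv.ofBijective f hf, ha _ _⟩ : G ≃g H))

theorem Cls.isEmpty_aux {n : ℕ} {V : Type u} {G : SimpleGraph V} (h : Cls n G) : n = 0 → IsEmpty V := by
  induction h with
  | empty h G => exact fun _ => h
  | susp h ih => intro h0; omega
  | @subd n V G a b h hab ih => intro h0; exact ((ih h0).false a).elim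
  | @glue n V G K K' B h1 h2 h3 h4 h5 ih1 ih2 => intro h0; exact ((ih1 h0).false none).elim
  | split h1 h2 h3 h4 h5 h6 h7 ih1 ih2 ih3 => intro h0; omega
  | @iso n V W G H h e ih => intro h0; exact ⟨fun w => (ih h0).false (e.symm w)⟩

theorem Cls.isEmpty {V : Type u} {G : SimpleGraph V} (h : Cls 0 G) : IsEmpty V := h.isEmpty_aux rfl

theorem Cls.finite {n : ℕ} {V : Type u} {G : SimpleGraph V} (h : Cls n G) : Finite V := by
  induction h with
  | empty h G => have := h; exact inferInstance
  | susp h ih => have := ih; exact inferInstance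
  | @subd n V G a b h hab ih => have := ih; exact inferInstance
  | @glue n V G K K' B h1 h2 h3 h4 h5 ih1 ih2 =>
    classical
    exact Finite.of_surjective (fun x : {v // v ∈ K} ⊕ {v // v ∈ K'} => Sum.elim Subtype.val Subtype.val x) fun v => by
      rcases h1 v with hv | hv
      · exact ⟨Sum.inl ⟨v, hv⟩, rfl⟩
      · exact ⟨Sum.inr ⟨v, hv⟩, rfl⟩
  | @split n V G p q K B h1 h2 h3 h4 h5 h6 h7 ih1 ih2 ih3 =>
    exact Finite.of_surjective (fun x : {v // v ∈ K} ⊕ Bool => Sum.elim Subtype.val (fun b => if b then p else q) x)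
      fun v => by
        by_cases hp : v = p
        · exact ⟨Sum.inr true, hp.symm⟩
        · by_cases hq : v = q
          · exact ⟨Sum.inr false, hq.symm⟩
          · exact ⟨Sum.inl ⟨v, (h2 v).2 ⟨hp, hq⟩⟩, rfl⟩
  | @iso n V W G H h e ih => exact Finite.of_equiv V e.toEquiv

/-- a suspension of a finite graph, recognised inside a graph -/
theorem Cls.susp_of {n : ℕ} {V W : Type u} {G : SimpleGraph V} {H : SimpleGraph W} (h : Cls n G) (j : V → W) (p q : W)
    (hj : Function.Injective j) (hpq : p ≠ q) (hjp : ∀ v, j v ≠ p) (hjq : ∀ v, j v ≠ q)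
    (hcov : ∀ w, w = p ∨ w = q ∨ ∃ v, j v = w) (ha : ∀ x y, H.Adj (j x) (j y) ↔ G.Adj x y)
    (hp : ∀ v, H.Adj p (j v)) (hq : ∀ v, H.Adj q (j v)) (hn : ¬ H.Adj p q) : Cls (n + 1) H := by
  refine (Cls.susp h).push (fun x => Sum.elim j (fun b => if b then p else q) x) ⟨?_, ?_⟩ ?_
  · rintro (x | x) (y | y) hxy
    · exact congrArg _ (hj hxy)
    · cases y
      · exact (hjq x hxy).elim
      · exact (hjp x hxy).elim
    · cases x
      · exact (hjq y hxy.symm).elim
      · exact (hjp y hxy.symm).elim
    · cases x <;> cases y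
      · rfl
      · exact (hpq hxy.symm).elim
      · exact (hpq hxy).elim
      · rfl
  · intro w
    rcases hcov w with rfl | rfl | ⟨v, rfl⟩
    · exact ⟨Sum.inr true, rfl⟩
    · exact ⟨Sum.inr false, rfl⟩
    · exact ⟨Sum.inl v, rfl⟩
  · have hn' : ¬ H.Adj q p := fun h1 => hn h1.symm
    rintro (x | x) (y | y)
    · exact ha x y
    · refine iff_of_true ?_ trivial
      cases y
      · exact (hq x).symm
      · exact (hp x).symm
    · refine iff_of_true ?_ trivial
      cases x
      · exact hq y
      · exact hp y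
    · refine iff_of_false ?_ id
      cases x <;> cases y
      · exact H.loopless.1 _
      · exact hn'
      · exact hn
      · exact H.loopless.1 _

/-! ### Links -/

/-- the link of a vertex of the cap, over the full link -/
theorem Cls.lk_of_cap {n : ℕ} {V : Type u} {G : SimpleGraph V} {K B : Finset V} {v : V} (hv : v ∈ K) (hvB : v ∉ B)
    (hN : ∀ w, G.Adj v w → w ∈ K) (h : Cls n (lk (cap G K B) (some ⟨v, hv⟩))) : Cls n (lk G v) := by
  refine h.pull (fun w => ⟨some ⟨w.1, hN _ w.2⟩, w.2⟩) ⟨?_, ?_⟩ fun x y => Iff.rfl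
  · rintro ⟨x, hx⟩ ⟨y, hy⟩ hxy
    exact Subtype.ext (by simpa using congrArg Subtype.val hxy)
  · rintro ⟨_ | w, hw⟩
    · exact (hvB hw).elim
    · exact ⟨⟨w.1, hw⟩, rfl⟩

theorem Cls.lk_step {n : ℕ} (IH : ∀ m, n = m + 1 → ∀ {V : Type u} {G : SimpleGraph V}, Cls (m + 1) G → ∀ v : V,
    Cls m (lk G v)) : ∀ {m : ℕ} {V : Type u} {G : SimpleGraph V}, Cls m G → m = n + 1 → ∀ v : V, Cls n (lk G v) := by
  intro m V G h
  induction h with
  | empty h G => intro h0; omega
  | @susp k V G h ih =>
    intro h0
    obtain rfl : k = n := by omega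
    rintro (v | b)
    · -- a vertex of `G`
      cases k with
      | zero => exact ((h.isEmpty).false v).elim
      | succ k =>
        refine (IH k rfl h v).susp_of (fun w => ⟨.inl w.1, w.2⟩) ⟨.inr true, trivial⟩ ⟨.inr false, trivial⟩
          ?_ ?_ ?_ ?_ ?_ ?_ ?_ ?_ ?_
        · rintro ⟨x, hx⟩ ⟨y, hy⟩ hxy
          exact Subtype.ext (by simpa using congrArg Subtype.val hxy)
        · exact fun h1 => absurd (congrArg Subtype.val h1) (by simp)
        · exact fun w h1 => absurd (congrArg Subtype.val h1) (by simp)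
        · exact fun w h1 => absurd (congrArg Subtype.val h1) (by simp)
        · rintro ⟨w | b, hw⟩
          · exact Or.inr (Or.inr ⟨⟨w, hw⟩, rfl⟩)
          · cases b
            · exact Or.inr (Or.inl rfl)
            · exact Or.inl rfl
        · exact fun x y => Iff.rfl
        · exact fun v => trivial
        · exact fun v => trivial
        · exact fun h1 => h1
    · -- an apex
      refine h.push (fun w => ⟨.inl w, trivial⟩) ⟨?_, ?_⟩ fun x y => Iff.rfl
      · intro x y hxy
        simpa using congrArg Subtype.val hxy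
      · rintro ⟨w | c, hw⟩
        · exact ⟨w, rfl⟩
        · exact hw.elim
  | @subd k V G a b h hab ih =>
    intro h0 v
    have ih' := ih h0
    subst h0
    rcases v with _ | c
    · -- the new vertex
      cases n with
      | zero => exact (((ih' a).isEmpty).false ⟨b, hab⟩).elim
      | succ n =>
        have h1 := IH n rfl (ih' a) ⟨b, hab⟩
        refine h1.susp_of (fun w => ⟨some w.1.1, Or.inr (Or.inr ⟨w.1.2, w.2⟩)⟩) ⟨some a, Or.inl rfl⟩
          ⟨some b, Or.inr (Or.inl rfl)⟩ ?_ ?_ ?_ ?_ ?_ ?_ ?_ ?_ ?_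
        · rintro ⟨⟨x, hx⟩, hx'⟩ ⟨⟨y, hy⟩, hy'⟩ hxy
          exact Subtype.ext (by simpa using congrArg Subtype.val hxy)
        · intro h2
          exact G.ne_of_adj hab (Option.some.inj (congrArg Subtype.val h2))
        · intro w h2
          exact G.ne_of_adj w.1.2 (Option.some.inj (congrArg Subtype.val h2)).symm
        · intro w h2
          have h3 : G.Adj b w.1.1 := w.2
          exact G.ne_of_adj h3 (Option.some.inj (congrArg Subtype.val h2)).symm
        · rintro ⟨_ | w, hw⟩
          · exact hw.elim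
          · rcases hw with rfl | rfl | hw
            · exact Or.inl rfl
            · exact Or.inr (Or.inl rfl)
            · exact Or.inr (Or.inr ⟨⟨⟨w, hw.1⟩, hw.2⟩, rfl⟩)
        · rintro ⟨⟨x, hx⟩, hx'⟩ ⟨⟨y, hy⟩, hy'⟩
          have hx2 : G.Adj b x := hx'
          constructor
          · exact fun h2 => h2.1
          · exact fun h2 => ⟨h2, fun h3 => G.ne_of_adj hx h3.1.symm, fun h3 => G.ne_of_adj hx2 h3.1.symm⟩
        · rintro ⟨⟨x, hx⟩, hx'⟩
          have hx2 : G.Adj b x := hx'
          exact ⟨hx, fun h3 => G.ne_of_adj hx2 h3.2.symm, fun h3 => G.ne_of_adj hab h3.1⟩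
        · rintro ⟨⟨x, hx⟩, hx'⟩
          have hx2 : G.Adj b x := hx'
          exact ⟨hx2, fun h3 => G.ne_of_adj hab h3.1.symm, fun h3 => G.ne_of_adj hx h3.2.symm⟩
        · exact fun h2 => h2.2.1 ⟨rfl, rfl⟩
    · by_cases hca : c = a
      · -- the vertex `a`
        subst hca
        classical
        refine (ih' c).push (fun w => if hw : w.1 = b then ⟨none, Or.inl rfl⟩ else
          ⟨some w.1, ⟨w.2, fun h1 => hw h1.2, fun h1 => G.ne_of_adj hab h1.1⟩⟩) ⟨?_, ?_⟩ ?_
        · rintro ⟨x, hx⟩ ⟨y, hy⟩ hxy
          have hxy' := congrArg Subtype.val hxy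
          by_cases h1 : x = b <;> by_cases h2 : y = b
          · subst h1; subst h2; rfl
          · simp [h1, h2] at hxy'
          · simp [h1, h2] at hxy'
          · exact Subtype.ext (by simpa [h1, h2] using hxy')
        · rintro ⟨_ | w, hw⟩
          · exact ⟨⟨b, hab⟩, by simp⟩
          · have hwb : w ≠ b := fun h1 => hw.2.1 ⟨rfl, h1⟩
            exact ⟨⟨w, hw.1⟩, by simp [hwb]⟩
        · rintro ⟨x, hx⟩ ⟨y, hy⟩
          have hxa : x ≠ c := (G.ne_of_adj hx).symm
          have hya : y ≠ c := (G.ne_of_adj hy).symm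
          by_cases h1 : x = b <;> by_cases h2 : y = b
          · subst h1; subst h2
            simp
          · subst h1
            simp only [dite_true, dif_neg h2]
            constructor
            · rintro (h3 | h3 | h3)
              · exact (hya h3).elim
              · exact (h2 h3).elim
              · exact h3.2
            · exact fun h3 => Or.inr (Or.inr ⟨hy, h3⟩)
          · subst h2
            simp only [dite_true, dif_neg h1]
            constructor
            · rintro (h3 | h3 | h3)
              · exact (hxa h3).elim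
              · exact (h1 h3).elim
              · exact SimpleGraph.Adj.symm h3.2
            · exact fun h3 => Or.inr (Or.inr ⟨hx, SimpleGraph.Adj.symm h3⟩)
          · simp only [dif_neg h1, dif_neg h2]
            constructor
            · exact fun h3 => h3.1
            · exact fun h3 => ⟨h3, fun h4 => h2 h4.2, fun h4 => h1 h4.1⟩
      · by_cases hcb : c = b
        · -- the vertex `b`
          subst hcb
          classical
          refine (ih' c).push (fun w => if hw : w.1 = a then ⟨none, Or.inr (Or.inl rfl)⟩ else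
            ⟨some w.1, ⟨w.2, fun h1 => hca h1.1, fun h1 => hw h1.2⟩⟩) ⟨?_, ?_⟩ ?_
          · rintro ⟨x, hx⟩ ⟨y, hy⟩ hxy
            have hxy' := congrArg Subtype.val hxy
            by_cases h1 : x = a <;> by_cases h2 : y = a
            · subst h1; subst h2; rfl
            · simp [h1, h2] at hxy'
            · simp [h1, h2] at hxy'
            · exact Subtype.ext (by simpa [h1, h2] using hxy')
          · rintro ⟨_ | w, hw⟩
            · exact ⟨⟨a, SimpleGraph.Adj.symm hab⟩, by simp⟩
            · have hwb : w ≠ a := fun h1 => hw.2.2 ⟨rfl, h1⟩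
              exact ⟨⟨w, hw.1⟩, by simp [hwb]⟩
          · rintro ⟨x, hx⟩ ⟨y, hy⟩
            have hxa : x ≠ c := (G.ne_of_adj hx).symm
            have hya : y ≠ c := (G.ne_of_adj hy).symm
            by_cases h1 : x = a <;> by_cases h2 : y = a
            · subst h1; subst h2
              simp
            · subst h1
              simp only [dite_true, dif_neg h2]
              constructor
              · rintro (h3 | h3 | h3)
                · exact (h2 h3).elim
                · exact (hya h3).elim
                · exact h3.1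
              · exact fun h3 => Or.inr (Or.inr ⟨h3, hy⟩)
            · subst h2
              simp only [dite_true, dif_neg h1]
              constructor
              · rintro (h3 | h3 | h3)
                · exact (h1 h3).elim
                · exact (hxa h3).elim
                · exact SimpleGraph.Adj.symm h3.1
              · exact fun h3 => Or.inr (Or.inr ⟨SimpleGraph.Adj.symm h3, hx⟩)
            · simp only [dif_neg h1, dif_neg h2]
              constructor
              · exact fun h3 => h3.1
              · exact fun h3 => ⟨h3, fun h4 => h1 h4.1, fun h4 => h2 h4.2⟩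
        · by_cases hc : G.Adj a c ∧ G.Adj b c
          · -- a vertex of the link of the edge
            have hca' : G.Adj c a := SimpleGraph.Adj.symm hc.1
            have hcb' : G.Adj c b := SimpleGraph.Adj.symm hc.2
            have h1 : Cls n (Singer.subd (lk G c) ⟨a, hca'⟩ ⟨b, hcb'⟩) := Cls.subd (ih' c) hab
            refine h1.push (fun w => match w with
              | none => ⟨none, Or.inr (Or.inr hc)⟩
              | some x => ⟨some x.1, ⟨x.2, fun h2 => hca h2.1, fun h2 => hcb h2.1⟩⟩) ⟨?_, ?_⟩ ?_
            · rintro (_ | ⟨x, hx⟩) (_ | ⟨y, hy⟩) hxy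
              · rfl
              · exact absurd (congrArg Subtype.val hxy) (by simp)
              · exact absurd (congrArg Subtype.val hxy) (by simp)
              · obtain rfl : x = y := by simpa using congrArg Subtype.val hxy
                rfl
            · rintro ⟨_ | w, hw⟩
              · exact ⟨none, rfl⟩
              · exact ⟨some ⟨w, hw.1⟩, rfl⟩
            · rintro (_ | ⟨x, hx⟩) (_ | ⟨y, hy⟩)
              · exact Iff.rfl
              · show (y = a ∨ y = b ∨ (G.Adj a y ∧ G.Adj b y)) ↔
                  ((⟨y, hy⟩ : {w // G.Adj c w}) = ⟨a, hca'⟩ ∨ (⟨y, hy⟩ : {w // G.Adj c w}) = ⟨b, hcb'⟩ ∨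
                    (G.Adj a y ∧ G.Adj b y))
                simp only [Subtype.mk.injEq]
              · show (x = a ∨ x = b ∨ (G.Adj a x ∧ G.Adj b x)) ↔
                  ((⟨x, hx⟩ : {w // G.Adj c w}) = ⟨a, hca'⟩ ∨ (⟨x, hx⟩ : {w // G.Adj c w}) = ⟨b, hcb'⟩ ∨
                    (G.Adj a x ∧ G.Adj b x))
                simp only [Subtype.mk.injEq]
              · show (G.Adj x y ∧ ¬ (x = a ∧ y = b) ∧ ¬ (x = b ∧ y = a)) ↔
                  (G.Adj x y ∧ ¬ ((⟨x, hx⟩ : {w // G.Adj c w}) = ⟨a, hca'⟩ ∧ (⟨y, hy⟩ : {w // G.Adj c w}) = ⟨b, hcb'⟩) ∧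
                    ¬ ((⟨x, hx⟩ : {w // G.Adj c w}) = ⟨b, hcb'⟩ ∧ (⟨y, hy⟩ : {w // G.Adj c w}) = ⟨a, hca'⟩))
                simp only [Subtype.mk.injEq]
          · -- any other vertex
            refine (ih' c).push (fun w => ⟨some w.1, ⟨w.2, fun h2 => hca h2.1, fun h2 => hcb h2.1⟩⟩) ⟨?_, ?_⟩ ?_
            · rintro ⟨x, hx⟩ ⟨y, hy⟩ hxy
              exact Subtype.ext (by simpa using congrArg Subtype.val hxy)
            · rintro ⟨_ | w, hw⟩
              · rcases hw with h2 | h2 | h2
                · exact (hca h2).elim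
                · exact (hcb h2).elim
                · exact (hc h2).elim
              · exact ⟨⟨w, hw.1⟩, rfl⟩
            · rintro ⟨x, hx⟩ ⟨y, hy⟩
              constructor
              · exact fun h3 => h3.1
              · refine fun h3 => ⟨h3, ?_, ?_⟩
                · rintro ⟨h4, h5⟩
                  have h4' : x = a := h4
                  have h5' : y = b := h5
                  subst h4'; subst h5'
                  exact hc ⟨SimpleGraph.Adj.symm hx, SimpleGraph.Adj.symm hy⟩
                · rintro ⟨h4, h5⟩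
                  have h4' : x = b := h4
                  have h5' : y = a := h5
                  subst h4'; subst h5'
                  exact hc ⟨SimpleGraph.Adj.symm hy, SimpleGraph.Adj.symm hx⟩
  | @glue k V G K K' B hcov hB hno h1 h2 ih1 ih2 =>
    intro h0 v
    by_cases hvK : v ∈ K
    · by_cases hvK' : v ∈ K'
      · -- `v ∈ B`
        have hvB : v ∈ B := (hB v).2 ⟨hvK, hvK'⟩
        have hfin : Finite V := (Cls.glue hcov hB hno h1 h2).finite
        classical
        let _ : Fintype V := Fintype.ofFinite V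
        let _ : Fintype {w // G.Adj v w} := Fintype.ofFinite _
        have key : ∀ (L : Finset V) (hL : v ∈ L), Cls n (lk (cap G L B) (some ⟨v, hL⟩)) →
            Cls n (cap (lk G v) (Finset.univ.filter fun w => w.1 ∈ L) (Finset.univ.filter fun w => w.1 ∈ B)) := by
          intro L hL h3
          refine h3.pull (fun w => match w with
            | none => ⟨none, hvB⟩
            | some x => ⟨some ⟨x.1.1, (Finset.mem_filter.1 x.2).2⟩, x.1.2⟩) ⟨?_, ?_⟩ ?_
          · rintro (_ | ⟨⟨x, hx⟩, hx'⟩) (_ | ⟨⟨y, hy⟩, hy'⟩) hxy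
            · rfl
            · exact absurd (congrArg Subtype.val hxy) (by simp)
            · exact absurd (congrArg Subtype.val hxy) (by simp)
            · obtain rfl : x = y := by simpa using congrArg Subtype.val hxy
              rfl
          · rintro ⟨_ | ⟨w, hw'⟩, hw⟩
            · exact ⟨none, rfl⟩
            · exact ⟨some ⟨⟨w, hw⟩, by simpa using hw'⟩, rfl⟩
          · rintro (_ | ⟨⟨x, hx⟩, hx'⟩) (_ | ⟨⟨y, hy⟩, hy'⟩)
            · exact Iff.rfl
            · show y ∈ B ↔ (⟨y, hy⟩ : {w // G.Adj v w}) ∈ Finset.univ.filter fun w : {w // G.Adj v w} => w.1 ∈ B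
              simp
            · show x ∈ B ↔ (⟨x, hx⟩ : {w // G.Adj v w}) ∈ Finset.univ.filter fun w : {w // G.Adj v w} => w.1 ∈ B
              simp
            · exact Iff.rfl
        refine Cls.glue (K := Finset.univ.filter fun w => w.1 ∈ K) (K' := Finset.univ.filter fun w => w.1 ∈ K')
          (B := Finset.univ.filter fun w => w.1 ∈ B) ?_ ?_ ?_ (key K hvK (ih1 h0 _)) (key K' hvK' (ih2 h0 _))
        · intro w
          simpa using hcov w.1
        · intro w
          simpa using hB w.1
        · intro x y hx hy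
          simp only [Finset.mem_filter, Finset.mem_univ, true_and] at hx hy
          exact hno _ _ hx hy
      · refine Cls.lk_of_cap hvK (fun h3 => hvK' ((hB v).1 h3).2) ?_ (ih1 h0 _)
        intro w hw
        by_contra h3
        exact hno v w hvK' h3 hw
    · have hvK' : v ∈ K' := (hcov v).resolve_left hvK
      refine Cls.lk_of_cap hvK' (fun h3 => hvK ((hB v).1 h3).1) ?_ (ih2 h0 _)
      intro w hw
      by_contra h3
      exact hno w v h3 hvK (SimpleGraph.Adj.symm hw)
  | @split k V G p q K B hpq hK hB hsq h1 h2 h3 ih1 ih2 ih3 =>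
    intro h0 v
    obtain rfl : k = n := by omega
    by_cases hvp : v = p
    · subst hvp; exact h2
    by_cases hvq : v = q
    · subst hvq; exact h3
    have hvK : v ∈ K := (hK v).2 ⟨hvp, hvq⟩
    have hL := ih1 rfl (some ⟨v, hvK⟩)
    by_cases hap : G.Adj p v
    · have hvB : v ∈ B := (hB v).2 ⟨hvK, Or.inl hap⟩
      by_cases haq : G.Adj q v
      · -- `v` in the link of the edge
        cases k with
        | zero => exact ((h2.isEmpty).false ⟨q, hpq⟩).elim
        | succ k =>
          have hfin : Finite V := (Cls.split hpq hK hB hsq h1 h2 h3).finite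
          classical
          let _ : Fintype V := Fintype.ofFinite V
          let _ : Fintype {w // G.Adj v w} := Fintype.ofFinite _
          have l1 := IH k rfl h2 ⟨v, hap⟩
          have l2 := IH k rfl h3 ⟨v, haq⟩
          refine Cls.split (p := ⟨p, SimpleGraph.Adj.symm hap⟩) (q := ⟨q, SimpleGraph.Adj.symm haq⟩)
            (K := Finset.univ.filter fun w => w.1 ∈ K) (B := Finset.univ.filter fun w => w.1 ∈ B) hpq ?_ ?_ ?_ ?_ ?_ ?_
          · intro w
            simp only [Finset.mem_filter, Finset.mem_univ, true_and, hK, ne_eq, Subtype.ext_iff]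
          · intro w
            simp only [Finset.mem_filter, Finset.mem_univ, true_and, hB]
            exact Iff.rfl
          · intro x y hx hxy hy
            rcases hsq x.1 y.1 hx hxy hy with h4 | h4 | h4 | h4
            · exact Or.inl (Subtype.ext h4)
            · exact Or.inr (Or.inl (Subtype.ext h4))
            · exact Or.inr (Or.inr (Or.inl h4))
            · exact Or.inr (Or.inr (Or.inr h4))
          · refine hL.pull (fun w => match w with
              | none => ⟨none, hvB⟩
              | some x => ⟨some ⟨x.1.1, (Finset.mem_filter.1 x.2).2⟩, x.1.2⟩) ⟨?_, ?_⟩ ?_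
            · rintro (_ | ⟨⟨x, hx⟩, hx'⟩) (_ | ⟨⟨y, hy⟩, hy'⟩) hxy
              · rfl
              · exact absurd (congrArg Subtype.val hxy) (by simp)
              · exact absurd (congrArg Subtype.val hxy) (by simp)
              · obtain rfl : x = y := by simpa using congrArg Subtype.val hxy
                rfl
            · rintro ⟨_ | ⟨w, hw'⟩, hw⟩
              · exact ⟨none, rfl⟩
              · exact ⟨some ⟨⟨w, hw⟩, by simpa using hw'⟩, rfl⟩
            · rintro (_ | ⟨⟨x, hx⟩, hx'⟩) (_ | ⟨⟨y, hy⟩, hy'⟩)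
              · exact Iff.rfl
              · show y ∈ B ↔ (⟨y, hy⟩ : {w // G.Adj v w}) ∈ Finset.univ.filter fun w : {w // G.Adj v w} => w.1 ∈ B
                simp
              · show x ∈ B ↔ (⟨x, hx⟩ : {w // G.Adj v w}) ∈ Finset.univ.filter fun w : {w // G.Adj v w} => w.1 ∈ B
                simp
              · exact Iff.rfl
          · refine l1.push (fun w => ⟨⟨w.1.1, w.2⟩, w.1.2⟩) ⟨?_, ?_⟩ fun x y => Iff.rfl
            · rintro ⟨⟨x, hx⟩, hx'⟩ ⟨⟨y, hy⟩, hy'⟩ hxy
              obtain rfl : x = y := congrArg Subtype.val (congrArg Subtype.val hxy)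
              rfl
            · rintro ⟨⟨w, hw⟩, hw'⟩
              exact ⟨⟨⟨w, hw'⟩, hw⟩, rfl⟩
          · refine l2.push (fun w => ⟨⟨w.1.1, w.2⟩, w.1.2⟩) ⟨?_, ?_⟩ fun x y => Iff.rfl
            · rintro ⟨⟨x, hx⟩, hx'⟩ ⟨⟨y, hy⟩, hy'⟩ hxy
              obtain rfl : x = y := congrArg Subtype.val (congrArg Subtype.val hxy)
              rfl
            · rintro ⟨⟨w, hw⟩, hw'⟩
              exact ⟨⟨⟨w, hw'⟩, hw⟩, rfl⟩
      · -- adjacent to `p` only
        refine hL.push (fun w => match w with
          | ⟨none, _⟩ => ⟨p, SimpleGraph.Adj.symm hap⟩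
          | ⟨some x, hx⟩ => ⟨x.1, hx⟩) ⟨?_, ?_⟩ ?_
        · rintro ⟨_ | x, hx⟩ ⟨_ | y, hy⟩ hxy
          · rfl
          · exact (((hK y.1).1 y.2).1 (congrArg Subtype.val hxy).symm).elim
          · exact (((hK x.1).1 x.2).1 (congrArg Subtype.val hxy)).elim
          · have h9 := congrArg Subtype.val hxy
            have h10 : x.1 = y.1 := h9
            obtain rfl : x = y := Subtype.ext h10
            rfl
        · rintro ⟨w, hw⟩
          by_cases hwp : w = p
          · subst hwp
            exact ⟨⟨none, hvB⟩, rfl⟩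
          · have hwq : w ≠ q := fun h4 => haq (by rw [← h4]; exact SimpleGraph.Adj.symm hw)
            exact ⟨⟨some ⟨w, (hK w).2 ⟨hwp, hwq⟩⟩, hw⟩, rfl⟩
        · have hmem : ∀ x : {v // v ∈ K}, G.Adj v x.1 → (G.Adj p x.1 ↔ x.1 ∈ B) := by
            intro x hx
            rw [hB]
            constructor
            · exact fun h4 => ⟨x.2, Or.inl h4⟩
            · rintro ⟨_, h4 | h4⟩
              · exact h4
              · rcases hsq v x.1 hap hx (SimpleGraph.Adj.symm h4) with h5 | h5 | h5 | h5
                · exact (hvq h5).elim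
                · exact (((hK x.1).1 x.2).1 h5).elim
                · exact (haq h5).elim
                · exact h5
          rintro ⟨_ | x, hx⟩ ⟨_ | y, hy⟩
          · exact iff_of_false (G.loopless.1 _) id
          · exact hmem y hy
          · exact (G.adj_comm _ _).trans (hmem x hx)
          · exact Iff.rfl
    · by_cases haq : G.Adj q v
      · -- adjacent to `q` only
        have hvB : v ∈ B := (hB v).2 ⟨hvK, Or.inr haq⟩
        refine hL.push (fun w => match w with
          | ⟨none, _⟩ => ⟨q, SimpleGraph.Adj.symm haq⟩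
          | ⟨some x, hx⟩ => ⟨x.1, hx⟩) ⟨?_, ?_⟩ ?_
        · rintro ⟨_ | x, hx⟩ ⟨_ | y, hy⟩ hxy
          · rfl
          · exact (((hK y.1).1 y.2).2 (congrArg Subtype.val hxy).symm).elim
          · exact (((hK x.1).1 x.2).2 (congrArg Subtype.val hxy)).elim
          · have h9 := congrArg Subtype.val hxy
            have h10 : x.1 = y.1 := h9
            obtain rfl : x = y := Subtype.ext h10
            rfl
        · rintro ⟨w, hw⟩
          by_cases hwq : w = q
          · subst hwq
            exact ⟨⟨none, hvB⟩, rfl⟩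
          · have hwp : w ≠ p := fun h4 => hap (by rw [← h4]; exact SimpleGraph.Adj.symm hw)
            exact ⟨⟨some ⟨w, (hK w).2 ⟨hwp, hwq⟩⟩, hw⟩, rfl⟩
        · have hmem : ∀ x : {v // v ∈ K}, G.Adj v x.1 → (G.Adj q x.1 ↔ x.1 ∈ B) := by
            intro x hx
            rw [hB]
            constructor
            · exact fun h4 => ⟨x.2, Or.inr h4⟩
            · rintro ⟨_, h4 | h4⟩
              · rcases hsq x.1 v h4 (SimpleGraph.Adj.symm hx) (SimpleGraph.Adj.symm haq) with h5 | h5 | h5 | h5
                · exact (((hK x.1).1 x.2).2 h5).elim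
                · exact (hvp h5).elim
                · exact h5
                · exact (hap h5).elim
              · exact h4
          rintro ⟨_ | x, hx⟩ ⟨_ | y, hy⟩
          · exact iff_of_false (G.loopless.1 _) id
          · exact hmem y hy
          · exact (G.adj_comm _ _).trans (hmem x hx)
          · exact Iff.rfl
      · -- adjacent to neither
        refine Cls.lk_of_cap hvK ?_ ?_ hL
        · intro h4
          rcases ((hB v).1 h4).2 with h5 | h5
          · exact hap h5
          · exact haq h5
        · intro w hw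
          refine (hK w).2 ⟨?_, ?_⟩
          · rintro rfl; exact hap (SimpleGraph.Adj.symm hw)
          · rintro rfl; exact haq (SimpleGraph.Adj.symm hw)
  | @iso k V W G H h e ih =>
    intro h0 w
    refine (ih h0 (e.symm w)).push (fun x => ⟨e x.1, ?_⟩) ⟨?_, ?_⟩ ?_
    · have h1 := e.map_rel_iff.2 x.2
      simpa using h1
    · rintro ⟨x, hx⟩ ⟨y, hy⟩ hxy
      exact Subtype.ext (by simpa using congrArg Subtype.val hxy)
    · rintro ⟨y, hy⟩
      refine ⟨⟨e.symm y, ?_⟩, ?_⟩
      · exact e.symm.map_rel_iff.2 hy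
      · simp
    · rintro ⟨x, hx⟩ ⟨y, hy⟩
      exact e.map_rel_iff

/-- the class is closed under links -/
theorem Cls.lk {n : ℕ} {V : Type u} {G : SimpleGraph V} (h : Cls (n + 1) G) (v : V) : Cls n (Singer.lk G v) := by
  induction n generalizing V with
  | zero => exact Cls.lk_step (fun m hm => by omega) h rfl v
  | succ n ih =>
    refine Cls.lk_step (fun m hm => ?_) h rfl v
    obtain rfl : n = m := by omega
    exact fun h v => ih h v

/-! ### Joins -/

/-- the join of two graphs -/
def jn {V W : Type*} (G : SimpleGraph V) (H : SimpleGraph W) : SimpleGraph (V ⊕ W) where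
  Adj
    | .inl x, .inl y => G.Adj x y
    | .inl _, .inr _ => True
    | .inr _, .inl _ => True
    | .inr x, .inr y => H.Adj x y
  symm := ⟨by
    rintro (x | x) (y | y) h
    · exact SimpleGraph.Adj.symm h
    · exact h
    · exact h
    · exact SimpleGraph.Adj.symm h⟩
  loopless := ⟨by
    rintro (x | x) h
    · exact G.loopless.1 _ h
    · exact H.loopless.1 _ h⟩

/-- the link of a vertex of the first factor of a join -/
theorem Cls.lk_jn {n : ℕ} {V W : Type u} {G : SimpleGraph V} {H : SimpleGraph W} {v : V}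
    (h : Cls n (jn (Singer.lk G v) H)) : Cls n (Singer.lk (jn G H) (.inl v)) := by
  refine h.push (fun x => match x with
    | .inl x => ⟨.inl x.1, x.2⟩
    | .inr y => ⟨.inr y, trivial⟩) ⟨?_, ?_⟩ ?_
  · rintro (⟨x, hx⟩ | x) (⟨y, hy⟩ | y) hxy
    · obtain rfl : x = y := by simpa using congrArg Subtype.val hxy
      rfl
    · exact absurd (congrArg Subtype.val hxy) (by simp)
    · exact absurd (congrArg Subtype.val hxy) (by simp)
    · obtain rfl : x = y := by simpa using congrArg Subtype.val hxy
      rfl
  · rintro ⟨w | w, hw⟩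
    · exact ⟨.inl ⟨w, hw⟩, rfl⟩
    · exact ⟨.inr w, rfl⟩
  · rintro (⟨x, hx⟩ | x) (⟨y, hy⟩ | y) <;> exact Iff.rfl

/-- the cap of a join -/
theorem Cls.cap_jn {n : ℕ} {V W : Type u} [Fintype W] {G : SimpleGraph V} {H : SimpleGraph W} {K B : Finset V}
    (h : Cls n (jn (Singer.cap G K B) H)) :
    Cls n (Singer.cap (jn G H) (K.disjSum Finset.univ) (B.disjSum Finset.univ)) := by
  refine h.push (fun x => match x with
    | .inl none => none
    | .inl (some x) => some ⟨.inl x.1, by simp⟩
    | .inr y => some ⟨.inr y, by simp⟩) ⟨?_, ?_⟩ ?_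
  · rintro ((_ | ⟨x, hx⟩) | x) ((_ | ⟨y, hy⟩) | y) hxy
    · rfl
    · exact absurd hxy (by simp)
    · exact absurd hxy (by simp)
    · exact absurd hxy (by simp)
    · obtain rfl : x = y := by simpa using hxy
      rfl
    · exact absurd hxy (by simp)
    · exact absurd hxy (by simp)
    · exact absurd hxy (by simp)
    · obtain rfl : x = y := by simpa using hxy
      rfl
  · rintro (_ | ⟨w | w, hw⟩)
    · exact ⟨.inl none, rfl⟩
    · exact ⟨.inl (some ⟨w, by simpa using hw⟩), rfl⟩
    · exact ⟨.inr w, rfl⟩
  · rintro ((_ | ⟨x, hx⟩) | x) ((_ | ⟨y, hy⟩) | y)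
    · exact Iff.rfl
    · show (Sum.inl y : V ⊕ W) ∈ B.disjSum Finset.univ ↔ y ∈ B
      simp
    · show (Sum.inr y : V ⊕ W) ∈ B.disjSum Finset.univ ↔ True
      simp
    · show (Sum.inl x : V ⊕ W) ∈ B.disjSum Finset.univ ↔ x ∈ B
      simp
    · exact Iff.rfl
    · exact Iff.rfl
    · show (Sum.inr x : V ⊕ W) ∈ B.disjSum Finset.univ ↔ True
      simp
    · exact Iff.rfl
    · exact Iff.rfl

/-- the class is closed under joins -/
theorem Cls.jn {n m : ℕ} {V W : Type u} {G : SimpleGraph V} {H : SimpleGraph W} (h : Cls n G) (h' : Cls m H) :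
    Cls (n + m) (Singer.jn G H) := by
  have hW : Finite W := h'.finite
  let _ : Fintype W := Fintype.ofFinite W
  induction h with
  | @empty V hV G =>
    rw [Nat.zero_add]
    refine h'.push Sum.inr ⟨Sum.inr_injective, ?_⟩ fun x y => Iff.rfl
    rintro (x | x)
    · exact (hV.false x).elim
    · exact ⟨x, rfl⟩
  | @susp n V G h ih =>
    rw [Nat.add_right_comm]
    refine ih.susp_of (fun x => match x with
      | .inl x => .inl (.inl x)
      | .inr y => .inr y) (.inl (.inr true)) (.inl (.inr false)) ?_ ?_ ?_ ?_ ?_ ?_ ?_ ?_ ?_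
    · rintro (x | x) (y | y) hxy
      · obtain rfl : x = y := by simpa using hxy
        rfl
      · exact absurd hxy (by simp)
      · exact absurd hxy (by simp)
      · obtain rfl : x = y := by simpa using hxy
        rfl
    · simp
    · rintro (x | x) <;> simp
    · rintro (x | x) <;> simp
    · rintro ((w | b) | w)
      · exact Or.inr (Or.inr ⟨.inl w, rfl⟩)
      · cases b
        · exact Or.inr (Or.inl rfl)
        · exact Or.inl rfl
      · exact Or.inr (Or.inr ⟨.inr w, rfl⟩)
    · rintro (x | x) (y | y) <;> exact Iff.rfl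
    · rintro (x | x) <;> trivial
    · rintro (x | x) <;> trivial
    · exact fun h1 => h1
  | @subd n V G a b h hab ih =>
    have h1 : Cls (n + m) (Singer.subd (Singer.jn G H) (.inl a) (.inl b)) := Cls.subd ih hab
    refine h1.push (fun x => match x with
      | none => .inl none
      | some (.inl x) => .inl (some x)
      | some (.inr y) => .inr y) ⟨?_, ?_⟩ ?_
    · rintro (_ | x | x) (_ | y | y) hxy
      · rfl
      · exact absurd hxy (by simp)
      · exact absurd hxy (by simp)
      · exact absurd hxy (by simp)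
      · obtain rfl : x = y := by simpa using hxy
        rfl
      · exact absurd hxy (by simp)
      · exact absurd hxy (by simp)
      · exact absurd hxy (by simp)
      · obtain rfl : x = y := by simpa using hxy
        rfl
    · rintro ((_ | w) | w)
      · exact ⟨none, rfl⟩
      · exact ⟨some (.inl w), rfl⟩
      · exact ⟨some (.inr w), rfl⟩
    · rintro (_ | x | x) (_ | y | y)
      · exact Iff.rfl
      · show (y = a ∨ y = b ∨ (G.Adj a y ∧ G.Adj b y)) ↔
          ((.inl y : V ⊕ W) = .inl a ∨ (.inl y : V ⊕ W) = .inl b ∨ (G.Adj a y ∧ G.Adj b y))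
        simp
      · show True ↔ ((.inr y : V ⊕ W) = .inl a ∨ (.inr y : V ⊕ W) = .inl b ∨ (True ∧ True))
        simp
      · show (x = a ∨ x = b ∨ (G.Adj a x ∧ G.Adj b x)) ↔
          ((.inl x : V ⊕ W) = .inl a ∨ (.inl x : V ⊕ W) = .inl b ∨ (G.Adj a x ∧ G.Adj b x))
        simp
      · show (G.Adj x y ∧ ¬ (x = a ∧ y = b) ∧ ¬ (x = b ∧ y = a)) ↔
          (G.Adj x y ∧ ¬ ((.inl x : V ⊕ W) = .inl a ∧ (.inl y : V ⊕ W) = .inl b) ∧
            ¬ ((.inl x : V ⊕ W) = .inl b ∧ (.inl y : V ⊕ W) = .inl a))
        simp
      · show True ↔ (True ∧ ¬ ((.inl x : V ⊕ W) = .inl a ∧ (.inr y : V ⊕ W) = .inl b) ∧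
            ¬ ((.inl x : V ⊕ W) = .inl b ∧ (.inr y : V ⊕ W) = .inl a))
        simp
      · show True ↔ ((.inr x : V ⊕ W) = .inl a ∨ (.inr x : V ⊕ W) = .inl b ∨ (True ∧ True))
        simp
      · show True ↔ (True ∧ ¬ ((.inr x : V ⊕ W) = .inl a ∧ (.inl y : V ⊕ W) = .inl b) ∧
            ¬ ((.inr x : V ⊕ W) = .inl b ∧ (.inl y : V ⊕ W) = .inl a))
        simp
      · show H.Adj x y ↔ (H.Adj x y ∧ ¬ ((.inr x : V ⊕ W) = .inl a ∧ (.inr y : V ⊕ W) = .inl b) ∧
            ¬ ((.inr x : V ⊕ W) = .inl b ∧ (.inr y : V ⊕ W) = .inl a))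
        simp
  | @glue n V G K K' B hcov hB hno h1 h2 ih1 ih2 =>
    refine Cls.glue (K := K.disjSum Finset.univ) (K' := K'.disjSum Finset.univ) (B := B.disjSum Finset.univ)
      ?_ ?_ ?_ (Cls.cap_jn ih1) (Cls.cap_jn ih2)
    · rintro (v | v)
      · simpa using hcov v
      · simp
    · rintro (v | v)
      · simpa using hB v
      · simp
    · rintro (u | u) (v | v) hu hv
      · exact hno u v (by simpa using hu) (by simpa using hv)
      · simp at hv
      · simp at hu
      · simp at hu
  | @split n V G p q K B hpq hK hB hsq h1 h2 h3 ih1 ih2 ih3 =>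
    rw [Nat.add_right_comm] at ih1 ⊢
    refine Cls.split (p := .inl p) (q := .inl q) (K := K.disjSum Finset.univ) (B := B.disjSum Finset.univ) hpq
      ?_ ?_ ?_ (Cls.cap_jn ih1) (Cls.lk_jn ih2) (Cls.lk_jn ih3)
    · rintro (v | v)
      · simpa using hK v
      · simp
    · rintro (v | v)
      · show (Sum.inl v : V ⊕ W) ∈ B.disjSum Finset.univ ↔
          (Sum.inl v : V ⊕ W) ∈ K.disjSum Finset.univ ∧ (G.Adj p v ∨ G.Adj q v)
        simpa using hB v
      · show (Sum.inr v : V ⊕ W) ∈ B.disjSum Finset.univ ↔
          (Sum.inr v : V ⊕ W) ∈ K.disjSum Finset.univ ∧ (True ∨ True)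
        simp
    · rintro (x | x) (y | y) hx hxy hy
      · rcases hsq x y hx hxy hy with h4 | h4 | h4 | h4
        · exact Or.inl (congrArg _ h4)
        · exact Or.inr (Or.inl (congrArg _ h4))
        · exact Or.inr (Or.inr (Or.inl h4))
        · exact Or.inr (Or.inr (Or.inr h4))
      · exact Or.inr (Or.inr (Or.inr trivial))
      · exact Or.inr (Or.inr (Or.inl trivial))
      · exact Or.inr (Or.inr (Or.inr trivial))
  | @iso n V W' G G' h e ih =>
    refine ih.push (Sum.map e id) ⟨?_, ?_⟩ ?_
    · exact Sum.map_injective.2 ⟨e.injective, Function.injective_id⟩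
    · exact Sum.map_surjective.2 ⟨e.surjective, Function.surjective_id⟩
    · rintro (x | x) (y | y)
      · exact e.map_rel_iff
      · exact Iff.rfl
      · exact Iff.rfl
      · exact Iff.rfl

end Singer
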