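import Pool.Agent.Singer.Fam
import Pool.Agent.Singer.Sphere

/-!
# Singer: separation in flag homology spheres

`acy_two_edges`: if `x` is adjacent to `a` and `c` (not adjacent) then the family of the cliques disjoint from `{a, x, c}`
is acyclic; `sep`: if `a, c` are the only common neighbours of the adjacent vertices `v, b`, then every path from `b` to
`v` of length three which does not use the edge `v b` meets `{a, x, c}`.
-/

set_option autoImplicit false
set_option linter.unusedSectionVars false
set_option linter.unusedVariables false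

namespace Singer

universe u

section sep
variable {V : Type u} [Fintype V] [DecidableEq V] {G : SimpleGraph V} {n : ℕ}

/-- the family of the cliques disjoint from a path `a x c` -/
theorem acy_two_edges (h : QS n G) {a x c : V} (hax : G.Adj a x) (hxc : G.Adj x c) (hac : ¬ G.Adj a c) (hne : a ≠ c)
    {r : V → ℕ} (hr : Function.Injective r) : Acy ℤ r (Clq G {a, x, c}) := by
  rw [qs_iff] at h
  have hx : Acy ℤ r (Clq G {x}) := h.2 {x} (Finset.singleton_nonempty x) (by simp) r hr
  have hxc' : Acy ℤ r (Clq G {x, c}) := h.2 {x, c} (Finset.insert_nonempty x _)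
    (by rw [Finset.coe_pair, SimpleGraph.isClique_pair]; exact fun _ => hxc) r hr
  have hax' : Acy ℤ r (Clq G {a, x}) := h.2 {a, x} (Finset.insert_nonempty a _)
    (by rw [Finset.coe_pair, SimpleGraph.isClique_pair]; exact fun _ => hax) r hr
  have hU : Acy ℤ r {S : Finset V | G.IsClique (S : Set V) ∧ x ∉ S ∧ c ∈ S} := by
    refine acy_high hr (D := Clq G {x}) (D₁ := Clq G {x, c}) ⟨cvx_of_lower lower_Clq, fun S => ?_, ?_⟩ hx hxc'
    · unfold Clq
      simp only [Set.mem_ofPred_eq, Finset.disjoint_singleton_right, Finset.disjoint_insert_right]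
      tauto
    · rintro S ⟨_, hS⟩ T ⟨_, _, hT⟩ hTS
      simp only [Finset.disjoint_singleton_right, Finset.disjoint_insert_right] at hS
      exact hS.2 (hTS hT)
  refine acy_low hr (D := Clq G {a, x}) (D₂ := {S : Finset V | G.IsClique (S : Set V) ∧ x ∉ S ∧ c ∈ S})
    ⟨cvx_of_lower lower_Clq, fun S => ?_, ?_⟩ hax' hU
  · unfold Clq
    simp only [Set.mem_ofPred_eq, Finset.disjoint_singleton_right, Finset.disjoint_insert_right]
    have h1 : G.IsClique (S : Set V) → c ∈ S → a ∉ S := fun hS hc ha => hac (hS ha hc hne)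
    tauto
  · rintro S ⟨_, hS⟩ T ⟨_, _, hT⟩ hTS
    simp only [Finset.disjoint_singleton_right, Finset.disjoint_insert_right] at hS
    exact hS.2.2 (hTS hT)

/-- the coboundary of a cochain on an edge -/
lemma dl_pair {r : V → ℕ} (hr : Function.Injective r) (e : Finset V → ℤ) {s t : V} (hst : s ≠ t) :
    dl r e {s, t} = 0 ↔ e {s} = e {t} := by
  have h1 : ({s, t} : Finset V).erase s = {t} := by
    rw [Finset.erase_insert (by simpa using hst)]
  have h2 : ({s, t} : Finset V).erase t = {s} := by
    rw [Finset.pair_comm, Finset.erase_insert (by simpa using hst.symm)]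
  unfold dl
  rw [Finset.sum_pair hst, h1, h2]
  rcases lt_or_gt_of_ne (fun h => hst (hr h)) with h | h
  · have h3 : sgz r s {t} = 1 := by
      unfold sgz
      rw [Finset.filter_singleton, if_neg (not_lt.2 h.le)]
      simp
    have h4 : sgz r t {s} = -1 := by
      unfold sgz
      rw [Finset.filter_singleton, if_pos h]
      simp
    rw [h3, h4]
    constructor
    · intro h5
      simp only [smul_eq_mul] at h5
      linarith
    · intro h5
      rw [h5]
      simp
  · have h3 : sgz r s {t} = -1 := by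
      unfold sgz
      rw [Finset.filter_singleton, if_pos h]
      simp
    have h4 : sgz r t {s} = 1 := by
      unfold sgz
      rw [Finset.filter_singleton, if_neg (not_lt.2 h.le)]
      simp
    rw [h3, h4]
    constructor
    · intro h5
      simp only [smul_eq_mul] at h5
      linarith
    · intro h5
      rw [h5]
      simp

/-- **separation**: the path `b y q v` meets `{a, x, c}` if `a, c` are the only common neighbours of `v` and `b` and `x`
is adjacent to `a` and `c` -/
theorem sep (h : QS n G) {v b a c x y q : V} (hvb : G.Adj v b) (hac : ¬ G.Adj a c) (hne : a ≠ c)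
    (hcn : ∀ z, G.Adj v z → G.Adj b z → z = a ∨ z = c) (hax : G.Adj a x) (hxc : G.Adj x c)
    (hv : v ≠ a ∧ v ≠ x ∧ v ≠ c) (hb : b ≠ a ∧ b ≠ x ∧ b ≠ c)
    (hby : G.Adj b y) (hyq : G.Adj y q) (hqv : G.Adj q v) (hy : y ≠ a ∧ y ≠ x ∧ y ≠ c ∧ y ≠ v)
    (hq : q ≠ a ∧ q ≠ x ∧ q ≠ c ∧ q ≠ b) : False := by
  classical
  have hr : Function.Injective (fun w : V => (Fintype.equivFin V w : ℕ)) := fun u w e =>
    (Fintype.equivFin V).injective (Fin.ext e)
  set r : V → ℕ := fun w => (Fintype.equivFin V w : ℕ)
  have hA := acy_two_edges h hax hxc hac hne hr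
  have hmem : ∀ S : Finset V, S ∈ Clq G {a, x, c} ↔ G.IsClique (S : Set V) ∧ a ∉ S ∧ x ∉ S ∧ c ∉ S := by
    intro S
    unfold Clq
    simp only [Set.mem_ofPred_eq, Finset.disjoint_singleton_right, Finset.disjoint_insert_right]
  have hpair : ∀ s t, G.Adj s t → (s ≠ a ∧ s ≠ x ∧ s ≠ c) → (t ≠ a ∧ t ≠ x ∧ t ≠ c) →
      ({s, t} : Finset V) ∈ Clq G {a, x, c} := by
    intro s t hst hs ht
    rw [hmem]
    refine ⟨by rw [Finset.coe_pair, SimpleGraph.isClique_pair]; exact fun _ => hst, ?_, ?_, ?_⟩
    · simp only [Finset.mem_insert, Finset.mem_singleton, not_or]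
      exact ⟨hs.1.symm, ht.1.symm⟩
    · simp only [Finset.mem_insert, Finset.mem_singleton, not_or]
      exact ⟨hs.2.1.symm, ht.2.1.symm⟩
    · simp only [Finset.mem_insert, Finset.mem_singleton, not_or]
      exact ⟨hs.2.2.symm, ht.2.2.symm⟩
  set w : Finset V → ℤ := fun S => if S = {v, b} then 1 else 0 with hw
  have hvb' := hpair v b hvb hv hb
  obtain ⟨e, he, hde⟩ := hA w (fun S hS => if_neg fun h0 : S = {v, b} => hS (by rw [h0]; exact hvb')) (by
    intro T hT
    rw [hmem] at hT
    refine Finset.sum_eq_zero fun z hz => ?_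
    have h1 : T.erase z ≠ {v, b} := by
      intro h0
      have hv1 : v ∈ T.erase z := by rw [h0]; simp
      have hb1 : b ∈ T.erase z := by rw [h0]; simp
      have hvT := Finset.mem_of_mem_erase hv1
      have hbT := Finset.mem_of_mem_erase hb1
      rcases hcn z (hT.1 hvT hz (Finset.ne_of_mem_erase hv1)) (hT.1 hbT hz (Finset.ne_of_mem_erase hb1)) with rfl | rfl
      · exact hT.2.1 hz
      · exact hT.2.2.2 hz
    rw [hw]
    dsimp only
    rw [if_neg h1, smul_zero])
  have hedge : ∀ s t, G.Adj s t → (s ≠ a ∧ s ≠ x ∧ s ≠ c) → (t ≠ a ∧ t ≠ x ∧ t ≠ c) → ({s, t} : Finset V) ≠ {v, b} →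
      e {s} = e {t} := by
    intro s t hst hs ht hne'
    rw [← dl_pair hr e hst.ne, hde _ (hpair s t hst hs ht)]
    exact if_neg hne'
  have h1 : e {b} = e {y} := hedge b y hby hb ⟨hy.1, hy.2.1, hy.2.2.1⟩ (by
    intro h0
    have : v ∈ ({b, y} : Finset V) := by rw [h0]; simp
    simp only [Finset.mem_insert, Finset.mem_singleton] at this
    rcases this with h2 | h2
    · exact hvb.ne h2
    · exact hy.2.2.2 h2.symm)
  have h2 : e {y} = e {q} := hedge y q hyq ⟨hy.1, hy.2.1, hy.2.2.1⟩ ⟨hq.1, hq.2.1, hq.2.2.1⟩ (by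
    intro h0
    have : b ∈ ({y, q} : Finset V) := by rw [h0]; simp
    simp only [Finset.mem_insert, Finset.mem_singleton] at this
    rcases this with h2 | h2
    · exact hby.ne h2
    · exact hq.2.2.2 h2.symm)
  have h3 : e {q} = e {v} := hedge q v hqv ⟨hq.1, hq.2.1, hq.2.2.1⟩ hv (by
    intro h0
    have : b ∈ ({q, v} : Finset V) := by rw [h0]; simp
    simp only [Finset.mem_insert, Finset.mem_singleton] at this
    rcases this with h2 | h2
    · exact hq.2.2.2 h2.symm
    · exact hvb.ne h2.symm)
  have h4 : dl r e {v, b} = 0 := (dl_pair hr e hvb.ne).2 (by rw [h1, h2, h3])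
  rw [hde _ hvb', hw] at h4
  dsimp only at h4
  rw [if_pos rfl] at h4
  exact one_ne_zero h4

end sep

end Singer
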