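import Pool.Agent.Singer.P2a
import Pool.Agent.Singer.P2c
import Pool.Agent.Singer.Sep
import Pool.Agent.Singer.DualAsm
import Pool.Agent.Singer.ClsLk

/-!
# Singer: all flag homology spheres of dimension at most three are in the class

* `qs_conn` : flag homology spheres are connected;
* `cls_one`, `cls_two`, `cls_three` : flag homology spheres of dimension 0, 1, 2 are in `Cls`;
* `clsE_low` : flag homology spheres of dimension at most three are in `ClsE`.
-/

set_option autoImplicit false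
set_option linter.unusedSectionVars false
set_option linter.unusedVariables false

namespace Singer

universe u

theorem qs_inst {n : ℕ} {V : Type u} {I J : Fintype V} {G : SimpleGraph V} (h : @QS n V I G) : @QS n V J G := by
  rwa [Subsingleton.elim J I]

section conn
variable {V : Type u} [Fintype V] {G : SimpleGraph V}

/-- **connectedness**: a property of the vertices which is constant along the edges is constant on the complement of a
vertex -/
theorem qs_conn {n : ℕ} (h : QS n G) (P : V → Prop) (hP : ∀ u w, G.Adj u w → P u → P w) {v0 u w : V} (hu : u ≠ v0)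
    (hw : w ≠ v0) (h1 : P u) : P w := by
  classical
  rw [qs_iff] at h
  have hr : Function.Injective (fun w : V => (Fintype.equivFin V w : ℕ)) := fun u w e =>
    (Fintype.equivFin V).injective (Fin.ext e)
  set r : V → ℕ := fun w => (Fintype.equivFin V w : ℕ)
  have hA : Acy ℤ r (Clq G {v0}) := h.2 {v0} (Finset.singleton_nonempty v0) (by simp) r hr
  have hmem : ∀ S : Finset V, S ∈ Clq G {v0} ↔ G.IsClique (S : Set V) ∧ v0 ∉ S := by
    intro S
    unfold Clq
    simp only [Set.mem_ofPred_eq, Finset.disjoint_singleton_right]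
  set c : Finset V → ℤ := fun S => if ∃ x, S = {x} ∧ x ≠ v0 ∧ P x then 1 else 0 with hc
  have hc1 : ∀ x, x ≠ v0 → c {x} = if P x then 1 else 0 := by
    intro x hx
    rw [hc]
    dsimp only
    by_cases hp : P x
    · rw [if_pos ⟨x, rfl, hx, hp⟩, if_pos hp]
    · rw [if_neg hp, if_neg]
      rintro ⟨y, hy, _, hy2⟩
      rw [Finset.singleton_inj.1 hy] at hp
      exact hp hy2
  obtain ⟨e, he, hde⟩ := hA c (fun S hS => if_neg (by
    rintro ⟨x, rfl, hx, _⟩
    exact hS ((hmem _).2 ⟨by simp, by simpa using hx.symm⟩))) (by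
    intro T hT
    rw [hmem] at hT
    by_cases h2 : ∃ s t, s ≠ t ∧ T = {s, t}
    · obtain ⟨s, t, hst, rfl⟩ := h2
      have h3 : G.Adj s t := hT.1 (by simp) (by simp) hst
      have h4 : s ≠ v0 := fun h => hT.2 (by simp [h])
      have h5 : t ≠ v0 := fun h => hT.2 (by simp [h])
      rw [dl_pair hr c hst, hc1 s h4, hc1 t h5]
      by_cases h6 : P s
      · rw [if_pos h6, if_pos (hP _ _ h3 h6)]
      · rw [if_neg h6, if_neg fun h7 => h6 (hP _ _ h3.symm h7)]
    · refine Finset.sum_eq_zero fun z hz => ?_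
      have h3 : c (T.erase z) = 0 := if_neg (by
        rintro ⟨x, hx, _, _⟩
        refine h2 ⟨z, x, fun h => ?_, ?_⟩
        · have h4 : x ∈ T.erase z := by rw [hx]; exact Finset.mem_singleton_self x
          exact Finset.ne_of_mem_erase h4 h.symm
        · rw [← hx, Finset.insert_erase hz])
      rw [h3, smul_zero])
  have h5 : ∀ x, x ≠ v0 → c {x} = e ∅ := by
    intro x hx
    rw [← hde {x} ((hmem _).2 ⟨by simp, by simpa using hx.symm⟩)]
    unfold dl
    rw [Finset.sum_singleton, Finset.erase_singleton]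
    unfold sgz
    simp
  have h6 := (h5 u hu).trans (h5 w hw).symm
  rw [hc1 u hu, hc1 w hw, if_pos h1] at h6
  by_contra h7
  rw [if_neg h7] at h6
  exact one_ne_zero h6

/-- connectedness, second form: a nonempty set of vertices which is closed under adjacency is everything, if every vertex
has a neighbour -/
theorem qs_conn' {n : ℕ} (h : QS n G) (hN : ∀ v, ∃ w, G.Adj v w) (P : V → Prop) (hP : ∀ u w, G.Adj u w → P u → P w)
    {u : V} (h1 : P u) (w : V) : P w := by
  classical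
  by_cases hw : w = u
  · rw [hw]; exact h1
  obtain ⟨u', hu'⟩ := hN u
  by_cases h2 : w = u'
  · rw [h2]; exact hP _ _ hu' h1
  obtain ⟨w', hw'⟩ := hN w
  -- a third vertex `v0` different from the end points
  have h3 : P u' := hP _ _ hu' h1
  exact qs_conn h P hP (v0 := u) (u := u') (w := w) hu'.ne' hw h3

end conn

section susp
variable {V : Type u} {G : SimpleGraph V}

/-- recognition of suspensions -/
theorem cls_of_susp {n : ℕ} {a b : V} (hab : a ≠ b) (hnab : ¬ G.Adj a b)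
    (h : ∀ v, v ≠ a → v ≠ b → G.Adj a v ∧ G.Adj b v) (hl : Cls n (lk G a)) : Cls (n + 1) G := by
  refine Cls.susp_of hl (fun w => w.1) a b Subtype.val_injective hab (fun v => v.2.ne') (fun v hv => ?_) (fun w => ?_)
    (fun x y => Iff.rfl) (fun v => v.2) (fun v => ?_) hnab
  · exact hnab (hv ▸ v.2)
  · by_cases h1 : w = a
    · exact Or.inl h1
    · by_cases h2 : w = b
      · exact Or.inr (Or.inl h2)
      · exact Or.inr (Or.inr ⟨⟨w, (h w h1 h2).1⟩, rfl⟩)
  · refine (h v.1 v.2.ne' fun hv => hnab ?_).2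
    rw [← hv]
    exact v.2

/-- an edge which is contained in an induced square -/
theorem bad_edge {v a : V} (hbad : ¬ ∀ x y, G.Adj v x → G.Adj x y → G.Adj y a → x = a ∨ y = v ∨ G.Adj a x ∨ G.Adj v y) :
    ∃ c x, G.Adj v c ∧ c ≠ a ∧ ¬ G.Adj a c ∧ G.Adj x c ∧ G.Adj x a ∧ x ≠ v ∧ ¬ G.Adj v x := by
  push Not at hbad
  obtain ⟨c, x, h1, h2, h3, h4, h5, h6, h7⟩ := hbad
  exact ⟨c, x, h1, h4, h6, h2.symm, h3, h5, h7⟩

end susp

section low
variable {V : Type u} [Fintype V] {G : SimpleGraph V}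

/-- 0-spheres -/
theorem cls_one (h : GoodQ (fun n {V} [Fintype V] (G : SimpleGraph V) => QS.{u} n G) 1 G) : Cls 1 G := by
  obtain ⟨a, b, hab, h1, h2⟩ := goodQ_one_pair h
  refine cls_of_susp hab (h2 a b) (fun v ha hb => ?_) (.empty ⟨fun w => h2 _ _ w.2⟩ _)
  rcases h1 v with h | h
  · exact absurd h ha
  · exact absurd h hb

/-- a set of vertices of a circle, each of which has two neighbours in the set, is everything -/
theorem two_closed (h : GoodQ (fun n {V} [Fintype V] (G : SimpleGraph V) => QS.{u} n G) 2 G) (S : V → Prop) {s : V}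
    (hs : S s) (hS : ∀ s, S s → ∃ a b, S a ∧ S b ∧ a ≠ b ∧ G.Adj s a ∧ G.Adj s b) (v : V) : S v := by
  classical
  refine qs_conn' (goodQ_succ_iff.1 h).1 (fun v => ?_) S (fun u w huw hu => ?_) hs v
  · obtain ⟨a, b, _, _, h1⟩ := goodQ_two_nbr h v
    exact ⟨a, (h1 a).2 (Or.inl rfl)⟩
  · obtain ⟨a, b, ha, hb, hab, h1, h2⟩ := hS u hu
    obtain ⟨a', b', _, _, h3⟩ := goodQ_two_nbr h u
    have h4 := (h3 a).1 h1
    have h5 := (h3 b).1 h2
    have h6 := (h3 w).1 huw
    rcases h4 with rfl | rfl <;> rcases h5 with rfl | rfl <;> rcases h6 with rfl | rfl <;> first | exact ha | exact hb | exact absurd rfl hab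

end low

/-- the induction step: contraction of an edge in no induced square -/
theorem cls_contract {n : ℕ} {V : Type u} [Fintype V] {G : SimpleGraph V}
    (h : GoodQ (fun n {V} [Fintype V] (G : SimpleGraph V) => QS.{u} n G) (n + 1) G)
    (ih : ∀ (W : Type u) [Fintype W] (H : SimpleGraph W), Fintype.card W < Fintype.card V →
      GoodQ (fun n {V} [Fintype V] (G : SimpleGraph V) => QS.{u} n G) (n + 1) H → Cls (n + 1) H)
    (hlk : ∀ v : V, Cls n (lk G v)) {p q : V} (hpq : G.Adj p q)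
    (hsq : ∀ x y, G.Adj p x → G.Adj x y → G.Adj y q → x = q ∨ y = p ∨ G.Adj q x ∨ G.Adj p y) : Cls (n + 1) G := by
  classical
  have hK : ∀ v, v ∈ (Finset.univ.filter fun v : V => v ≠ p ∧ v ≠ q) ↔ v ≠ p ∧ v ≠ q := fun v => by simp
  have hB : ∀ v, v ∈ (Finset.univ.filter fun v : V => (v ≠ p ∧ v ≠ q) ∧ (G.Adj p v ∨ G.Adj q v)) ↔
      v ∈ (Finset.univ.filter fun v : V => v ≠ p ∧ v ≠ q) ∧ (G.Adj p v ∨ G.Adj q v) := fun v => by simp
  refine .split hpq hK hB hsq (ih _ _ ?_ (goodQ_inst (goodQ_contract hpq hK hB hsq h))) (hlk p) (hlk q)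
  rw [Fintype.card_option, Fintype.card_coe]
  have h1 : (Finset.univ.filter fun v : V => v ≠ p ∧ v ≠ q) = (Finset.univ.erase p).erase q := by
    ext v
    simp only [Finset.mem_filter, Finset.mem_univ, true_and, Finset.mem_erase, and_true]
    tauto
  rw [h1, Finset.card_erase_of_mem (Finset.mem_erase.2 ⟨hpq.ne', Finset.mem_univ q⟩),
    Finset.card_erase_of_mem (Finset.mem_univ p), Finset.card_univ]
  have h2 : 1 < Fintype.card V := Fintype.one_lt_card_iff.2 ⟨p, q, hpq.ne⟩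
  omega

/-- circles -/
theorem cls_two (m : ℕ) : ∀ (V : Type u) [Fintype V] (G : SimpleGraph V), Fintype.card V = m →
    GoodQ (fun n {V} [Fintype V] (G : SimpleGraph V) => QS.{u} n G) 2 G → Cls 2 G := by
  induction m using Nat.strong_induction_on with
  | _ m ih =>
    intro V _ G hm h
    classical
    obtain ⟨p⟩ := (goodQ_succ_iff.1 h).1.1
    obtain ⟨q, q', _, _, h1⟩ := goodQ_two_nbr h p
    have hpq : G.Adj p q := (h1 q).2 (Or.inl rfl)
    have hlk : ∀ v : V, Cls 1 (lk G v) := fun v => cls_one ((goodQ_succ_iff.1 h).2 v)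
    by_cases hsq : ∀ x y, G.Adj p x → G.Adj x y → G.Adj y q → x = q ∨ y = p ∨ G.Adj q x ∨ G.Adj p y
    · exact cls_contract h (fun W _ H hW hH => ih _ (hm ▸ hW) W H rfl hH) hlk hpq hsq
    · obtain ⟨x, y, hpx, hxq, hqx, hyx, hyq, hyp, hpy⟩ := bad_edge hsq
      have h2 := two_closed h (fun v => v = p ∨ v = x ∨ v = y ∨ v = q) (Or.inl rfl) (by
        rintro s (rfl | rfl | rfl | rfl)
        · exact ⟨x, q, by simp, by simp, hxq, hpx, hpq⟩
        · exact ⟨p, y, by simp, by simp, hyp.symm, hpx.symm, hyx.symm⟩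
        · exact ⟨x, q, by simp, by simp, hxq, hyx, hyq⟩
        · exact ⟨p, y, by simp, by simp, hyp.symm, hpq.symm, hyq.symm⟩)
      refine cls_of_susp hyp.symm hpy (fun v hvp hvy => ?_) (hlk p)
      rcases h2 v with rfl | rfl | rfl | rfl
      · exact absurd rfl hvp
      · exact ⟨hpx, hyx⟩
      · exact absurd rfl hvy
      · exact ⟨hpq, hyq⟩

section three
variable {V : Type u} [Fintype V] {G : SimpleGraph V}

/-- recognition of suspensions in dimension two -/
theorem susp_three (h : GoodQ (fun n {V} [Fintype V] (G : SimpleGraph V) => QS.{u} n G) 3 G) {v x : V} (hxv : x ≠ v)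
    (hn : ¬ G.Adj v x) (hx : ∀ w, G.Adj v w → G.Adj x w) : Cls 3 G := by
  classical
  have h1 := goodQ_succ_iff.1 h
  have hnb : ∀ u : V, ∃ w, G.Adj u w := by
    intro u
    obtain ⟨⟨w, hw⟩⟩ := (goodQ_succ_iff.1 (h1.2 u)).1.1
    exact ⟨w, hw⟩
  -- the neighbours of `x`
  have hNx : ∀ u, G.Adj x u → G.Adj v u := by
    intro u hu
    obtain ⟨w0, hw0⟩ := hnb v
    refine two_closed (h1.2 x) (fun w => G.Adj v w.1) (s := ⟨w0, hx _ hw0⟩) hw0 ?_ ⟨u, hu⟩
    rintro ⟨w, hxw⟩ hvw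
    obtain ⟨a, b, hab, _, h2⟩ := goodQ_three_edge h (u := v) (v := w) hvw
    have ha := (h2 a).2 (Or.inl rfl)
    have hb := (h2 b).2 (Or.inr rfl)
    exact ⟨⟨a, hx _ ha.1⟩, ⟨b, hx _ hb.1⟩, ha.1, hb.1, fun h3 => hab (congrArg Subtype.val h3), ha.2, hb.2⟩
  -- the neighbours of a neighbour of `v`
  have hNw : ∀ w, G.Adj v w → ∀ u, G.Adj w u → u = v ∨ u = x ∨ G.Adj v u := by
    intro w hvw u hwu
    obtain ⟨a, b, hab, _, h2⟩ := goodQ_three_edge h (u := v) (v := w) hvw
    have ha := (h2 a).2 (Or.inl rfl)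
    have hb := (h2 b).2 (Or.inr rfl)
    have h3 := two_closed (h1.2 w) (fun u => u.1 = v ∨ u.1 = x ∨ u.1 = a ∨ u.1 = b) (s := ⟨v, hvw.symm⟩)
      (Or.inl rfl) (by
        rintro ⟨s, hs⟩ (rfl | rfl | rfl | rfl)
        · exact ⟨⟨a, ha.2⟩, ⟨b, hb.2⟩, by simp, by simp, fun h3 => hab (congrArg Subtype.val h3), ha.1, hb.1⟩
        · exact ⟨⟨a, ha.2⟩, ⟨b, hb.2⟩, by simp, by simp, fun h3 => hab (congrArg Subtype.val h3), hx _ ha.1, hx _ hb.1⟩
        · exact ⟨⟨v, hvw.symm⟩, ⟨x, (hx _ hvw).symm⟩, by simp, by simp, fun h3 => hxv (congrArg Subtype.val h3).symm,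
            ha.1.symm, (hx _ ha.1).symm⟩
        · exact ⟨⟨v, hvw.symm⟩, ⟨x, (hx _ hvw).symm⟩, by simp, by simp, fun h3 => hxv (congrArg Subtype.val h3).symm,
            hb.1.symm, (hx _ hb.1).symm⟩) ⟨u, hwu⟩
    rcases h3 with h3 | h3 | h3 | h3
    · exact Or.inl h3
    · exact Or.inr (Or.inl h3)
    · have h4 : u = a := h3
      rw [h4]
      exact Or.inr (Or.inr ha.1)
    · have h4 : u = b := h3
      rw [h4]
      exact Or.inr (Or.inr hb.1)
  have hall := qs_conn' h1.1 hnb (fun u => u = v ∨ u = x ∨ G.Adj v u) (by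
    rintro u w huw (rfl | rfl | hu)
    · exact Or.inr (Or.inr huw)
    · exact Or.inr (Or.inr (hNx _ huw))
    · exact hNw u hu w huw) (u := v) (Or.inl rfl)
  refine cls_of_susp hxv.symm hn (fun u hu1 hu2 => ?_) (cls_two _ _ _ rfl (h1.2 v))
  rcases hall u with h2 | h2 | h2
  · exact absurd h2 hu1
  · exact absurd h2 hu2
  · exact ⟨h2, hx _ h2⟩

/-- a vertex of degree four -/
theorem deg_four (h : GoodQ (fun n {V} [Fintype V] (G : SimpleGraph V) => QS.{u} n G) 3 G) {v a b c d : V}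
    (hva : G.Adj v a) (hvb : G.Adj v b) (hvc : G.Adj v c) (hvd : G.Adj v d) (hab : G.Adj a b) (hbc : G.Adj b c)
    (hcd : G.Adj c d) (hda : G.Adj d a) (hac : ¬ G.Adj a c) (hbd : ¬ G.Adj b d) (hac' : a ≠ c) (hbd' : b ≠ d)
    (hN : ∀ w, G.Adj v w → w = a ∨ w = b ∨ w = c ∨ w = d)
    (hbad : ∀ w, G.Adj v w → ∃ c x, G.Adj v c ∧ c ≠ w ∧ ¬ G.Adj w c ∧ G.Adj x c ∧ G.Adj x w ∧ x ≠ v ∧ ¬ G.Adj v x) :
    ∃ x, x ≠ v ∧ ¬ G.Adj v x ∧ ∀ w, G.Adj v w → G.Adj x w := by
  classical
  obtain ⟨c', x, h1, h2, h3, h4, h5, h6, h7⟩ := hbad a hva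
  have hc' : c' = c := by
    rcases hN c' h1 with rfl | rfl | rfl | rfl
    · exact absurd rfl h2
    · exact absurd hab h3
    · rfl
    · exact absurd hda.symm h3
  subst hc'
  obtain ⟨d', y, k1, k2, k3, k4, k5, k6, k7⟩ := hbad b hvb
  have hd' : d' = d := by
    rcases hN d' k1 with rfl | rfl | rfl | rfl
    · exact absurd hab.symm k3
    · exact absurd rfl k2
    · exact absurd hbc k3
    · rfl
  subst hd'
  have hne : ∀ w, G.Adj v w → w ≠ x := fun w hw h => h7 (h ▸ hw)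
  have hne' : ∀ w, G.Adj v w → w ≠ y := fun w hw h => k7 (h ▸ hw)
  by_cases hyx : y = x
  · subst hyx
    refine ⟨y, h6, h7, fun w hw => ?_⟩
    rcases hN w hw with rfl | rfl | rfl | rfl
    · exact h5
    · exact k5
    · exact h4
    · exact k4
  · exfalso
    refine sep (goodQ_succ_iff.1 h).1 (v := v) (b := b) (a := a) (c := c') (x := x) (y := y) (q := d') hvb hac hac' ?_
      h5.symm h4 ⟨hva.ne, h6.symm, hvc.ne⟩ ⟨hab.ne', hne b hvb, hbc.ne⟩ k5.symm k4 hvd.symm
      ⟨(hne' a hva).symm, hyx, (hne' c' hvc).symm, k6⟩ ⟨hda.ne, hne d' hvd, hcd.ne', hbd'.symm⟩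
    intro z hz1 hz2
    rcases hN z hz1 with rfl | rfl | rfl | rfl
    · exact Or.inl rfl
    · exact absurd rfl hz2.ne
    · exact Or.inr rfl
    · exact absurd hz2 hbd

/-- a vertex of degree five, first part -/
theorem deg_five_aux (h : QS 3 G) {v a1 a2 a3 a4 a5 x : V}
    (hv1 : G.Adj v a1) (hv2 : G.Adj v a2) (hv3 : G.Adj v a3) (hv4 : G.Adj v a4) (hv5 : G.Adj v a5)
    (h12 : G.Adj a1 a2) (h23 : G.Adj a2 a3) (h34 : G.Adj a3 a4) (h45 : G.Adj a4 a5) (h51 : G.Adj a5 a1)
    (n13 : ¬ G.Adj a1 a3) (n24 : ¬ G.Adj a2 a4) (n35 : ¬ G.Adj a3 a5) (n41 : ¬ G.Adj a4 a1) (n52 : ¬ G.Adj a5 a2)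
    (d13 : a1 ≠ a3) (d24 : a2 ≠ a4) (d35 : a3 ≠ a5) (d41 : a4 ≠ a1) (d52 : a5 ≠ a2)
    (hN : ∀ w, G.Adj v w → w = a1 ∨ w = a2 ∨ w = a3 ∨ w = a4 ∨ w = a5)
    (hbad : ∀ w, G.Adj v w → ∃ c x, G.Adj v c ∧ c ≠ w ∧ ¬ G.Adj w c ∧ G.Adj x c ∧ G.Adj x w ∧ x ≠ v ∧ ¬ G.Adj v x)
    (hxv : x ≠ v) (hx : ¬ G.Adj v x) (x1 : G.Adj x a1) (x2 : G.Adj x a2) (x3 : G.Adj x a3) (x4 : G.Adj x a4) :
    ∀ w, G.Adj v w → G.Adj x w := by
  classical
  have hne : ∀ w, G.Adj v w → w ≠ x := fun w hw h => hx (h ▸ hw)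
  obtain ⟨c, z, k1, k2, k3, k4, k5, k6, k7⟩ := hbad a5 hv5
  have hnz : ∀ w, G.Adj v w → w ≠ z := fun w hw h => k7 (h ▸ hw)
  have hzx : x = z := by
    by_contra hxz
    have hc : c = a2 ∨ c = a3 := by
      rcases hN c k1 with rfl | rfl | rfl | rfl | rfl
      · exact absurd h51 k3
      · exact Or.inl rfl
      · exact Or.inr rfl
      · exact absurd h45.symm k3
      · exact absurd rfl k2
    rcases hc with rfl | rfl
    · -- `z` is adjacent to `a5` and `a2`
      refine sep h (v := v) (b := a1) (a := a5) (c := c) (x := z) (y := x) (q := a3) hv1 n52 d52 ?_ k5.symm k4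
        ⟨hv5.ne, k6.symm, hv2.ne⟩ ⟨h51.ne', hnz a1 hv1, h12.ne⟩ x1.symm x3 hv3.symm
        ⟨(hne a5 hv5).symm, hxz, (hne c hv2).symm, hxv⟩ ⟨d35, hnz a3 hv3, h23.ne', d13.symm⟩
      intro w hw1 hw2
      rcases hN w hw1 with rfl | rfl | rfl | rfl | rfl
      · exact absurd rfl hw2.ne
      · exact Or.inr rfl
      · exact absurd hw2 n13
      · exact absurd hw2.symm n41
      · exact Or.inl rfl
    · -- `z` is adjacent to `a5` and `a3`
      refine sep h (v := v) (b := a4) (a := a5) (c := c) (x := z) (y := x) (q := a1) hv4 (fun h => n35 h.symm) d35.symm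
        ?_ k5.symm k4 ⟨hv5.ne, k6.symm, hv3.ne⟩ ⟨h45.ne, hnz a4 hv4, h34.ne'⟩ x4.symm x1 hv1.symm
        ⟨(hne a5 hv5).symm, hxz, (hne c hv3).symm, hxv⟩ ⟨h51.ne', hnz a1 hv1, d13, d41.symm⟩
      intro w hw1 hw2
      rcases hN w hw1 with rfl | rfl | rfl | rfl | rfl
      · exact absurd hw2 n41
      · exact absurd hw2.symm n24
      · exact Or.inr rfl
      · exact absurd rfl hw2.ne
      · exact Or.inl rfl
  subst hzx
  intro w hw
  rcases hN w hw with rfl | rfl | rfl | rfl | rfl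
  · exact x1
  · exact x2
  · exact x3
  · exact x4
  · exact k5

/-- a vertex of degree five, second part -/
theorem deg_five_aux2 (h : QS 3 G) {v a1 a2 a3 a4 a5 x : V}
    (hv1 : G.Adj v a1) (hv2 : G.Adj v a2) (hv3 : G.Adj v a3) (hv4 : G.Adj v a4) (hv5 : G.Adj v a5)
    (h12 : G.Adj a1 a2) (h23 : G.Adj a2 a3) (h34 : G.Adj a3 a4) (h45 : G.Adj a4 a5) (h51 : G.Adj a5 a1)
    (n13 : ¬ G.Adj a1 a3) (n24 : ¬ G.Adj a2 a4) (n35 : ¬ G.Adj a3 a5) (n41 : ¬ G.Adj a4 a1) (n52 : ¬ G.Adj a5 a2)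
    (d13 : a1 ≠ a3) (d24 : a2 ≠ a4) (d35 : a3 ≠ a5) (d41 : a4 ≠ a1) (d52 : a5 ≠ a2)
    (hN : ∀ w, G.Adj v w → w = a1 ∨ w = a2 ∨ w = a3 ∨ w = a4 ∨ w = a5)
    (hbad : ∀ w, G.Adj v w → ∃ c x, G.Adj v c ∧ c ≠ w ∧ ¬ G.Adj w c ∧ G.Adj x c ∧ G.Adj x w ∧ x ≠ v ∧ ¬ G.Adj v x)
    (hxv : x ≠ v) (hx : ¬ G.Adj v x) (x1 : G.Adj x a1) (x3 : G.Adj x a3) :
    ∀ w, G.Adj v w → G.Adj x w := by
  classical
  have hne : ∀ w, G.Adj v w → w ≠ x := fun w hw h => hx (h ▸ hw)
  obtain ⟨c, y, k1, k2, k3, k4, k5, k6, k7⟩ := hbad a2 hv2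
  have hny : ∀ w, G.Adj v w → w ≠ y := fun w hw h => k7 (h ▸ hw)
  have hc : c = a4 ∨ c = a5 := by
    rcases hN c k1 with rfl | rfl | rfl | rfl | rfl
    · exact absurd h12.symm k3
    · exact absurd rfl k2
    · exact absurd h23 k3
    · exact Or.inl rfl
    · exact Or.inr rfl
  have hcn : ∀ w, G.Adj v w → G.Adj a2 w → w = a1 ∨ w = a3 := by
    intro w hw1 hw2
    rcases hN w hw1 with rfl | rfl | rfl | rfl | rfl
    · exact Or.inl rfl
    · exact absurd rfl hw2.ne
    · exact Or.inr rfl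
    · exact absurd hw2 n24
    · exact absurd hw2.symm n52
  have hca : c ≠ a1 ∧ c ≠ a3 := by
    rcases hc with rfl | rfl
    · exact ⟨d41, h34.ne'⟩
    · exact ⟨h51.ne, d35.symm⟩
  have hyx : y = x := by
    by_contra hyx
    exact sep h (v := v) (b := a2) (a := a1) (c := a3) (x := x) (y := y) (q := c) hv2 n13 d13 hcn x1.symm x3
      ⟨hv1.ne, hxv.symm, hv3.ne⟩ ⟨h12.ne', hne a2 hv2, h23.ne⟩ k5.symm k4 k1.symm
      ⟨(hny a1 hv1).symm, hyx, (hny a3 hv3).symm, k6⟩ ⟨hca.1, hne c k1, hca.2, k2⟩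
  subst hyx
  rcases hc with rfl | rfl
  · exact deg_five_aux h hv1 hv2 hv3 hv4 hv5 h12 h23 h34 h45 h51 n13 n24 n35 n41 n52 d13 d24 d35 d41 d52 hN hbad hxv hx
      x1 k5 x3 k4
  · -- the reflection `a3 a2 a1 a5 a4`
    refine deg_five_aux h (a1 := a3) (a2 := a2) (a3 := a1) (a4 := c) (a5 := a4) hv3 hv2 hv1 hv5 hv4 h23.symm h12.symm
      h51.symm h45.symm h34.symm (fun h => n13 h.symm) (fun h => n52 h.symm) (fun h => n41 h.symm) (fun h => n35 h.symm)
      (fun h => n24 h.symm) d13.symm d52.symm d41.symm d35.symm d24.symm (fun w hw => ?_) hbad hxv hx x3 k5 x1 k4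
    rcases hN w hw with h | h | h | h | h
    · exact Or.inr (Or.inr (Or.inl h))
    · exact Or.inr (Or.inl h)
    · exact Or.inl h
    · exact Or.inr (Or.inr (Or.inr (Or.inr h)))
    · exact Or.inr (Or.inr (Or.inr (Or.inl h)))

/-- a vertex of degree five -/
theorem deg_five (h : QS 3 G) {v a1 a2 a3 a4 a5 : V}
    (hv1 : G.Adj v a1) (hv2 : G.Adj v a2) (hv3 : G.Adj v a3) (hv4 : G.Adj v a4) (hv5 : G.Adj v a5)
    (h12 : G.Adj a1 a2) (h23 : G.Adj a2 a3) (h34 : G.Adj a3 a4) (h45 : G.Adj a4 a5) (h51 : G.Adj a5 a1)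
    (n13 : ¬ G.Adj a1 a3) (n24 : ¬ G.Adj a2 a4) (n35 : ¬ G.Adj a3 a5) (n41 : ¬ G.Adj a4 a1) (n52 : ¬ G.Adj a5 a2)
    (d13 : a1 ≠ a3) (d24 : a2 ≠ a4) (d35 : a3 ≠ a5) (d41 : a4 ≠ a1) (d52 : a5 ≠ a2)
    (hN : ∀ w, G.Adj v w → w = a1 ∨ w = a2 ∨ w = a3 ∨ w = a4 ∨ w = a5)
    (hbad : ∀ w, G.Adj v w → ∃ c x, G.Adj v c ∧ c ≠ w ∧ ¬ G.Adj w c ∧ G.Adj x c ∧ G.Adj x w ∧ x ≠ v ∧ ¬ G.Adj v x) :
    ∃ x, x ≠ v ∧ ¬ G.Adj v x ∧ ∀ w, G.Adj v w → G.Adj x w := by
  classical
  obtain ⟨c, x, k1, k2, k3, k4, k5, k6, k7⟩ := hbad a1 hv1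
  have hc : c = a3 ∨ c = a4 := by
    rcases hN c k1 with rfl | rfl | rfl | rfl | rfl
    · exact absurd rfl k2
    · exact absurd h12 k3
    · exact Or.inl rfl
    · exact Or.inr rfl
    · exact absurd h51.symm k3
  refine ⟨x, k6, k7, ?_⟩
  rcases hc with rfl | rfl
  · exact deg_five_aux2 h hv1 hv2 hv3 hv4 hv5 h12 h23 h34 h45 h51 n13 n24 n35 n41 n52 d13 d24 d35 d41 d52 hN hbad k6 k7
      k5 k4
  · -- the reflection `a1 a5 a4 a3 a2`
    refine deg_five_aux2 h (a1 := a1) (a2 := a5) (a3 := c) (a4 := a3) (a5 := a2) hv1 hv5 hv4 hv3 hv2 h51.symm h45.symm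
      h34.symm h23.symm h12.symm (fun h => n41 h.symm) (fun h => n35 h.symm) (fun h => n24 h.symm) (fun h => n13 h.symm)
      (fun h => n52 h.symm) d41.symm d35.symm d24.symm d13.symm d52.symm (fun w hw => ?_) hbad k6 k7 k5 k4
    rcases hN w hw with h | h | h | h | h
    · exact Or.inl h
    · exact Or.inr (Or.inr (Or.inr (Or.inr h)))
    · exact Or.inr (Or.inr (Or.inr (Or.inl h)))
    · exact Or.inr (Or.inr (Or.inl h))
    · exact Or.inr (Or.inl h)

/-- the neighbours of a vertex of degree at most five form a cycle of length four or five -/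
theorem exists_edge_or (h : GoodQ (fun n {V} [Fintype V] (G : SimpleGraph V) => QS.{u} n G) 3 G) :
    (∃ p q, G.Adj p q ∧ ∀ x y, G.Adj p x → G.Adj x y → G.Adj y q → x = q ∨ y = p ∨ G.Adj q x ∨ G.Adj p y) ∨
      ∃ v x, x ≠ v ∧ ¬ G.Adj v x ∧ ∀ w, G.Adj v w → G.Adj x w := by
  classical
  by_contra hcon
  push Not at hcon
  obtain ⟨hcon1, hcon2⟩ := hcon
  have hbad : ∀ v w, G.Adj v w → ∃ c x, G.Adj v c ∧ c ≠ w ∧ ¬ G.Adj w c ∧ G.Adj x c ∧ G.Adj x w ∧ x ≠ v ∧ ¬ G.Adj v x := by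
    intro v w hvw
    obtain ⟨c, x, h1, h2, h3, h4, h5, h6, h7⟩ := hcon1 v w hvw
    exact ⟨c, x, h1, h4, h6, h2.symm, h3, h5, h7⟩
  obtain ⟨v, N, hN, hcard⟩ := exists_nbrs_le_five h
  have h1 := goodQ_succ_iff.1 h
  obtain ⟨⟨a, hva⟩⟩ := (goodQ_succ_iff.1 (h1.2 v)).1.1
  obtain ⟨b, d, hbd', hbd, h2⟩ := goodQ_three_edge h (u := v) (v := a) hva
  have hb := (h2 b).2 (Or.inl rfl)
  have hd := (h2 d).2 (Or.inr rfl)
  -- the neighbours of `b` and `d`
  have hoth : ∀ b a, G.Adj v b → G.Adj v a → G.Adj b a → ∃ c, G.Adj v c ∧ G.Adj b c ∧ a ≠ c ∧ ¬ G.Adj a c ∧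
      ∀ w, G.Adj v w → G.Adj b w → w = a ∨ w = c := by
    intro b a hvb hva hba
    obtain ⟨s, t, hst', hst, h3⟩ := goodQ_three_edge h (u := v) (v := b) hvb
    have hs := (h3 s).2 (Or.inl rfl)
    have ht := (h3 t).2 (Or.inr rfl)
    rcases (h3 a).1 ⟨hva, hba⟩ with rfl | rfl
    · exact ⟨t, ht.1, ht.2, hst', hst, fun w hw1 hw2 => (h3 w).1 ⟨hw1, hw2⟩⟩
    · exact ⟨s, hs.1, hs.2, hst'.symm, fun h => hst h.symm, fun w hw1 hw2 => ((h3 w).1 ⟨hw1, hw2⟩).symm⟩
  obtain ⟨c, hvc, hbc, hac', hac, hNb⟩ := hoth b a hb.1 hva hb.2.symm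
  obtain ⟨e, hve, hde, hae', hae, hNd⟩ := hoth d a hd.1 hva hd.2.symm
  by_cases hce : c = e
  · -- degree four
    subst hce
    obtain ⟨x, hx1, hx2, hx3⟩ := deg_four h (v := v) (a := a) (b := b) (c := c) (d := d) hva hb.1 hvc hd.1 hb.2 hbc
      hde.symm hd.2.symm hac hbd hac' hbd' (fun w hw => by
        by_contra hw'
        push Not at hw'
        obtain ⟨w1, w2, w3, w4⟩ := hw'
        -- `w` has two neighbours in the link, which are not `a`, `b`, `c`, `d`
        have hNc : ∀ w, G.Adj v w → G.Adj c w → w = b ∨ w = d := by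
          obtain ⟨t, _, _, ht3, ht4, ht5⟩ := hoth c b hvc hb.1 hbc.symm
          intro w hw1 hw2
          rcases ht5 w hw1 hw2 with h | h
          · exact Or.inl h
          · rcases ht5 d hd.1 hde.symm with h' | h'
            · exact absurd h'.symm hbd'
            · exact Or.inr (h.trans h'.symm)
        obtain ⟨s, t, hst', hst, h3⟩ := goodQ_three_edge h (u := v) (v := w) hw
        have hs := (h3 s).2 (Or.inl rfl)
        have ht := (h3 t).2 (Or.inr rfl)
        have h4 : ∀ s, G.Adj v s → G.Adj w s → s ≠ a ∧ s ≠ b ∧ s ≠ c ∧ s ≠ d ∧ s ≠ w := by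
          intro s hs1 hs2
          refine ⟨?_, ?_, ?_, ?_, hs2.ne'⟩
          · rintro rfl
            rcases (h2 w).1 ⟨hw, hs2.symm⟩ with h | h
            · exact w2 h
            · exact w4 h
          · rintro rfl
            rcases hNb w hw hs2.symm with h | h
            · exact w1 h
            · exact w3 h
          · rintro rfl
            rcases hNc w hw hs2.symm with h | h
            · exact w2 h
            · exact w4 h
          · rintro rfl
            rcases hNd w hw hs2.symm with h | h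
            · exact w1 h
            · exact w3 h
        have hs' := h4 s hs.1 hs.2
        have h5 : ({a, b, c, d, w, s} : Finset V) ⊆ N := by
          intro z hz
          simp only [Finset.mem_insert, Finset.mem_singleton] at hz
          rw [hN]
          rcases hz with rfl | rfl | rfl | rfl | rfl | rfl
          · exact hva
          · exact hb.1
          · exact hvc
          · exact hd.1
          · exact hw
          · exact hs.1
        have h6 := (Finset.card_le_card h5).trans hcard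
        rw [Finset.card_insert_of_notMem, Finset.card_insert_of_notMem, Finset.card_insert_of_notMem,
          Finset.card_insert_of_notMem, Finset.card_insert_of_notMem, Finset.card_singleton] at h6
        · omega
        · simp only [Finset.mem_singleton]; exact hs'.2.2.2.2.symm
        · simp only [Finset.mem_insert, Finset.mem_singleton, not_or]; exact ⟨w4.symm, hs'.2.2.2.1.symm⟩
        · simp only [Finset.mem_insert, Finset.mem_singleton, not_or]; exact ⟨hde.ne', w3.symm, hs'.2.2.1.symm⟩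
        · simp only [Finset.mem_insert, Finset.mem_singleton, not_or]
          exact ⟨hbc.ne, hbd', w2.symm, hs'.2.1.symm⟩
        · simp only [Finset.mem_insert, Finset.mem_singleton, not_or]
          exact ⟨hb.2.ne, hac', hd.2.ne, w1.symm, hs'.1.symm⟩) (fun w hw => hbad v w hw)
    obtain ⟨w, hw1, hw2⟩ := hcon2 v x hx1 hx2
    exact hw2 (hx3 w hw1)
  · -- degree five
    have hcd : c ≠ d := fun h => hbd (h ▸ hbc)
    have heb : e ≠ b := fun h => hbd (h ▸ hde).symm
    have hcd' : ¬ G.Adj c d := by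
      intro h
      rcases hNd c hvc h.symm with h' | h'
      · exact hac' h'.symm
      · exact hce h'
    have heb' : ¬ G.Adj e b := by
      intro h
      rcases hNb e hve h.symm with h' | h'
      · exact hae' h'.symm
      · exact hce h'.symm
    have h5 : ∀ w, G.Adj v w → w = a ∨ w = b ∨ w = c ∨ w = e ∨ w = d := by
      intro w hw
      by_contra hw'
      push Not at hw'
      obtain ⟨w1, w2, w3, w4, w5⟩ := hw'
      have h6 : ({a, b, c, d, e, w} : Finset V) ⊆ N := by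
        intro z hz
        simp only [Finset.mem_insert, Finset.mem_singleton] at hz
        rw [hN]
        rcases hz with rfl | rfl | rfl | rfl | rfl | rfl
        · exact hva
        · exact hb.1
        · exact hvc
        · exact hd.1
        · exact hve
        · exact hw
      have h7 := (Finset.card_le_card h6).trans hcard
      rw [Finset.card_insert_of_notMem, Finset.card_insert_of_notMem, Finset.card_insert_of_notMem,
        Finset.card_insert_of_notMem, Finset.card_insert_of_notMem, Finset.card_singleton] at h7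
      · omega
      · simp only [Finset.mem_singleton]; exact w4.symm
      · simp only [Finset.mem_insert, Finset.mem_singleton, not_or]; exact ⟨hde.ne, w5.symm⟩
      · simp only [Finset.mem_insert, Finset.mem_singleton, not_or]; exact ⟨hcd, hce, w3.symm⟩
      · simp only [Finset.mem_insert, Finset.mem_singleton, not_or]
        exact ⟨hbc.ne, hbd', heb.symm, w2.symm⟩
      · simp only [Finset.mem_insert, Finset.mem_singleton, not_or]
        exact ⟨hb.2.ne, hac', hd.2.ne, hae', w1.symm⟩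
    -- the other neighbour of `c`
    obtain ⟨t, ht1, ht2, ht3, ht4, ht5⟩ := hoth c b hvc hb.1 hbc.symm
    have hce' : G.Adj c e := by
      rcases h5 t ht1 with rfl | rfl | rfl | rfl | rfl
      · exact absurd ht2.symm hac
      · exact absurd rfl ht3
      · exact absurd rfl ht2.ne
      · exact ht2
      · exact absurd ht2 hcd'
    obtain ⟨x, hx1, hx2, hx3⟩ := deg_five h1.1 (v := v) (a1 := a) (a2 := b) (a3 := c) (a4 := e) (a5 := d) hva hb.1 hvc
      hve hd.1 hb.2 hbc hce' hde.symm hd.2.symm hac (fun h => heb' h.symm) hcd' (fun h => hae h.symm)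
      (fun h => hbd h.symm) hac' heb.symm hcd hae'.symm hbd'.symm h5 (fun w hw => hbad v w hw)
    obtain ⟨w, hw1, hw2⟩ := hcon2 v x hx1 hx2
    exact hw2 (hx3 w hw1)

end three

/-- **flag homology 2-spheres are in the class** -/
theorem cls_three (m : ℕ) : ∀ (V : Type u) [Fintype V] (G : SimpleGraph V), Fintype.card V = m →
    GoodQ (fun n {V} [Fintype V] (G : SimpleGraph V) => QS.{u} n G) 3 G → Cls 3 G := by
  induction m using Nat.strong_induction_on with
  | _ m ih =>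
    intro V _ G hm h
    classical
    have hlk : ∀ v : V, Cls 2 (lk G v) := fun v => cls_two _ _ _ rfl ((goodQ_succ_iff.1 h).2 v)
    rcases exists_edge_or h with ⟨p, q, hpq, hsq⟩ | ⟨v, x, hxv, hn, hx⟩
    · exact cls_contract h (fun W _ H hW hH => ih _ (hm ▸ hW) W H rfl hH) hlk hpq hsq
    · exact susp_three h hxv hn hx

/-- **flag homology spheres of dimension at most three are in the class with the even constructor** -/
theorem clsE_low {n : ℕ} (hn : n ≤ 4) {V : Type u} [Fintype V] {G : SimpleGraph V}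
    (h : GoodQ (fun n {V} [Fintype V] (G : SimpleGraph V) => QS.{u} n G) n G) : ClsE SphQ.{u} n G := by
  classical
  have h3 : ∀ {V : Type u} [Fintype V] {G : SimpleGraph V},
      GoodQ (fun n {V} [Fintype V] (G : SimpleGraph V) => QS.{u} n G) 3 G → Cls 3 G := fun h =>
    cls_three _ _ _ rfl h
  obtain rfl | rfl | rfl | rfl | rfl : n = 0 ∨ n = 1 ∨ n = 2 ∨ n = 3 ∨ n = 4 := by omega
  · exact .empty h G
  · exact (cls_one h).toE
  · exact (cls_two _ _ _ rfl h).toE
  · exact (h3 h).toE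
  · have h1 := (goodQ_succ_iff.1 h).1
    refine .even (by decide) inferInstance ?_ fun v => (h3 ((goodQ_succ_iff.1 h).2 v)).toE
    intro I
    exact qs_inst h1

end Singer
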