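import Pool.Agent.Singer.Hc

/-!
# Singer: exactness of the Davis complex

`AD_mem`, `AD_AD`, `ac_exact_succ`, `ac_exact_zero`, for coefficients in an arbitrary abelian group.

Filtration by the length of the top vertex of a cell: the cells with the top vertex `w ≠ 1` form the full simplex on the
set of the right descents of `w`.
-/

set_option autoImplicit false
set_option linter.unusedSectionVars false
set_option linter.unusedVariables false

namespace Singer

universe u

open Racg Hc

section davisex
variable {V : Type u} [Fintype V] [DecidableEq V] {M : Type*} [AddCommGroup M] {G : SimpleGraph V} {r : V → ℕ}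

theorem AD_mem {A : Finset V} {i : ℕ} {f : RACG G × Finset V → M} (hf : f ∈ AC M G A (i + 1)) :
    AD r f ∈ AC M G A i := by
  have key : ∀ x T, AD r f (x, T) ≠ 0 → ∃ v, v ∉ T ∧ f (x, insert v T) ≠ 0 := by
    intro x T h
    obtain ⟨v, hv, hne⟩ := Finset.exists_ne_zero_of_sum_ne_zero h
    refine ⟨v, by simpa using hv, fun h1 => hne ?_⟩
    dsimp only
    rw [h1, smul_zero]
  refine ⟨?_, ?_, ?_⟩
  · refine ((hf.1.image Prod.fst).prod (Set.finite_univ (α := Finset V))).subset ?_
    rintro ⟨x, T⟩ hx
    obtain ⟨v, hv, h1⟩ := key x T hx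
    exact ⟨⟨(x, insert v T), h1, rfl⟩, Set.mem_univ _⟩
  · rintro ⟨x, T⟩ hx
    obtain ⟨v, hv, h1⟩ := key x T hx
    obtain ⟨h2, h3, h4⟩ := hf.2.1 _ h1
    have h3' : (insert v T).card = i + 1 := h3
    rw [Finset.card_insert_of_notMem hv] at h3'
    exact ⟨(Finset.subset_insert v T).trans h2, by simpa using h3', h4.subset (by simp)⟩
  · intro x T w hw
    show ∑ v ∈ Tᶜ, sgz r v T • f (x * gen G w, insert v T) = -∑ v ∈ Tᶜ, sgz r v T • f (x, insert v T)
    rw [← Finset.sum_neg_distrib]
    refine Finset.sum_congr rfl fun v _ => ?_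
    rw [hf.2.2 x _ w (Finset.mem_insert_of_mem hw), smul_neg]

theorem AD_AD (hr : Function.Injective r) (f : RACG G × Finset V → M) : AD r (AD r f) = 0 := by
  funext ⟨x, T⟩
  show ∑ v ∈ Tᶜ, sgz r v T • (∑ u ∈ (insert v T)ᶜ, sgz r u (insert v T) • f (x, insert u (insert v T))) = 0
  simp_rw [Finset.smul_sum]
  rw [Finset.sum_sigma' Tᶜ (fun v => (insert v T)ᶜ)
    (fun v u => sgz r v T • sgz r u (insert v T) • f (x, insert u (insert v T)))]
  refine Finset.sum_involution (fun x _ => (⟨x.2, x.1⟩ : Sigma fun _ : V => V)) ?_ ?_ ?_ ?_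
  · rintro ⟨v, u⟩ h
    simp only [Finset.mem_sigma, Finset.mem_compl, Finset.mem_insert, not_or] at h
    obtain ⟨hv, huv, hu⟩ := h
    have h4 := sgz_anti hr (u := u) (v := v) (T := T) hu hv huv
    dsimp only
    rw [smul_smul, smul_smul, Finset.insert_comm v u T, h4, neg_smul, add_neg_cancel]
  · rintro ⟨v, u⟩ h _ h1
    simp only [Finset.mem_sigma, Finset.mem_compl, Finset.mem_insert, not_or] at h
    exact h.2.1 (by simpa using (congrArg Sigma.fst h1))
  · rintro ⟨v, u⟩ h
    simp only [Finset.mem_sigma, Finset.mem_compl, Finset.mem_insert, not_or] at h ⊢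
    exact ⟨h.2.2, Ne.symm h.2.1, h.1⟩
  · rintro ⟨v, u⟩ h
    rfl

namespace Hc

/-- every cell has a top vertex -/
lemma exists_top {S : Finset V} (hS : G.IsClique S) (x : RACG G) :
    ∃ u ∈ Racg.sub (G := G) (S : Set V), (∀ s ∈ S, Rd s (x * u)) ∧ (ln (x * u) ≤ ln x → ∀ s ∈ S, Rd s x) ∧
      ln x ≤ ln (x * u) := by
  classical
  generalize hN : (S.filter fun s => ¬ Rd s x).card = N
  induction N using Nat.strong_induction_on generalizing x with
  | _ N ih =>
    by_cases h : ∀ s ∈ S, Rd s x
    · exact ⟨1, one_mem _, by simpa using h, fun _ => h, by simp⟩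
    · push Not at h
      obtain ⟨s, hs, hsx⟩ := h
      have h1 := ln_mul hsx
      have h2 : (S.filter fun t => ¬ Rd t (x * gen G s)).card < N := by
        rw [← hN]
        refine Finset.card_lt_card ?_
        refine (Finset.ssubset_iff_of_subset ?_).2 ⟨s, by simp [hs, hsx], ?_⟩
        · intro t ht
          rw [Finset.mem_filter] at ht ⊢
          refine ⟨ht.1, ?_⟩
          by_cases hts : t = s
          · rw [hts]
            exact hsx
          · rw [← rd_adj (hS (Finset.mem_coe.2 ht.1) (Finset.mem_coe.2 hs) hts) x]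
            exact ht.2
        · rw [Finset.mem_filter, rd_self]
          tauto
      obtain ⟨u, hu, h3, h4, h5⟩ := ih _ h2 (x * gen G s) rfl
      refine ⟨gen G s * u, mul_mem (gen_mem_sub hs) hu, by simpa [mul_assoc] using h3, fun h6 => ?_, ?_⟩
      · rw [← mul_assoc] at h6
        omega
      · rw [← mul_assoc]
        omega

/-- the top vertex is the unique vertex of maximal length -/
lemma eq_of_top {S : Finset V} (hS : G.IsClique S) {g x : RACG G} (hg : ∀ s ∈ S, Rd s g)
    (h : g⁻¹ * x ∈ Racg.sub (G := G) (S : Set V)) (hl : ln g ≤ ln x) : x = g := by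
  obtain ⟨u, hu, h1, h2, h3⟩ := exists_top hS x
  have h4 : g⁻¹ * x * u = 1 := eq_one_of_rd hS (w := g) (mul_mem h hu) fun s hs => by
    rw [← mul_assoc, mul_inv_cancel_left]
    exact ⟨fun _ => hg s hs, fun _ => h1 s hs⟩
  have h5 : x * u = g := by
    rw [mul_assoc, inv_mul_eq_one] at h4
    exact h4.symm
  rw [h5] at h2
  have h6 : g⁻¹ * x = 1 := eq_one_of_rd hS (w := g) h fun s hs => by
    rw [mul_inv_cancel_left]
    exact ⟨fun _ => hg s hs, fun _ => h2 hl s hs⟩
  rw [inv_mul_eq_one] at h6
  exact h6.symm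

/-- a chain is determined by its values on the top vertices -/
lemma ac_ext_top {A : Finset V} {i : ℕ} {f : RACG G × Finset V → M} (hf : f ∈ AC M G A i)
    (h : ∀ w S, (∀ s ∈ S, Rd s w) → f (w, S) = 0) : f = 0 := by
  funext ⟨x, S⟩
  by_cases hS : G.IsClique S
  · obtain ⟨u, hu, h1, -⟩ := exists_top hS x
    have h2 := ac_anti hf x S hu
    rw [h _ _ h1] at h2
    rcases Int.units_eq_one_or (sgW G u) with h3 | h3
    · rw [h3] at h2
      simpa using h2.symm
    · rw [h3] at h2
      simpa using h2.symm
  · by_contra h1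
    exact hS (hf.2.1 _ h1).2.2

/-- the top vertices of the cells of the support have length at most `N` -/
def Tl (N : ℕ) (f : RACG G × Finset V → M) : Prop := ∀ x T, f (x, T) ≠ 0 → (∀ s ∈ T, Rd s x) → ln x ≤ N

lemma exists_Tl {A : Finset V} {i : ℕ} {f : RACG G × Finset V → M} (hf : f ∈ AC M G A i) : ∃ N, Tl N f := by
  obtain ⟨N, hN⟩ := (hf.1.image fun y => ln y.1).bddAbove
  exact ⟨N, fun x T h _ => hN ⟨(x, T), h, rfl⟩⟩

/-- the boundary of a sum of cells with the top vertex `g` -/
lemma AD_ext_top {g : RACG G} {c : Finset V → M} (hc : ∀ S, c S ≠ 0 → G.IsClique S ∧ ∀ s ∈ S, Rd s g)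
    {x : RACG G} {T : Finset V} (hl : ln g ≤ ln x) (I : Decidable (x = g)) :
    AD r (ext g c) (x, T) = if x = g then ∑ v ∈ Tᶜ, sgz r v T • c (insert v T) else 0 := by
  have h1 : ∀ S, ext g c (x, S) = if x = g then c S else 0 := by
    intro S
    rw [ext_apply]
    by_cases h0 : c S = 0
    · rw [h0, cel_zero]
      simp
    · by_cases h : g⁻¹ * x ∈ Racg.sub (G := G) (S : Set V)
      · have h2 : x = g := eq_of_top (hc S h0).1 (hc S h0).2 h hl
        rw [cel_pos _ h, if_pos h2, h2]
        simp
      · rw [cel_neg _ h, if_neg]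
        rintro rfl
        exact h (by simp)
  show ∑ v ∈ Tᶜ, sgz r v T • ext g c (x, insert v T) = _
  by_cases h2 : x = g
  · rw [if_pos h2]
    refine Finset.sum_congr rfl fun v _ => ?_
    rw [h1, if_pos h2]
  · rw [if_neg h2]
    refine Finset.sum_eq_zero fun v _ => ?_
    rw [h1, if_neg h2, smul_zero]

/-- one step of the filtration -/
lemma ex_step (hr : Function.Injective r) {A : Finset V} {i N : ℕ} {f : RACG G × Finset V → M}
    (hf : f ∈ AC M G A i) (h0 : AD r f = 0) (hN : Tl (N + 1) f)
    (ha : ∀ x T, f (x, T) ≠ 0 → (∀ s ∈ T, Rd s x) → ln x = N + 1 → ∃ a ∈ A, Rd a x) :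
    ∃ h ∈ AC M G A (i + 1), Tl N (f - AD r h) := by
  classical
  let B : Finset (RACG G) := (hf.1.image Prod.fst).toFinset.filter fun g => ln g = N + 1 ∧ ∃ a ∈ A, Rd a g
  have hB : ∀ g T, f (g, T) ≠ 0 → ln g = N + 1 → (∃ a ∈ A, Rd a g) → g ∈ B := fun g T h1 h2 h3 =>
    Finset.mem_filter.2 ⟨(Set.Finite.mem_toFinset _).2 ⟨(g, T), h1, rfl⟩, h2, h3⟩
  have hB' : ∀ g ∈ B, ln g = N + 1 := fun g hg => (Finset.mem_filter.1 hg).2.1
  have key : ∀ g : RACG G, ∃ e : Finset V → M, g ∈ B → (∀ S, e S ≠ 0 → G.IsClique S ∧ ∀ s ∈ S, Rd s g) ∧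
      (∀ S, e S ≠ 0 → S ⊆ A ∧ S.card = i + 1) ∧ ∀ T : Finset V, (∀ s ∈ T, Rd s g) →
        ∑ v ∈ Tᶜ, sgz r v T • e (insert v T) = f (g, T) := by
    intro g
    by_cases hg : g ∈ B
    swap
    · exact ⟨0, fun h => absurd h hg⟩
    have hlg := hB' g hg
    obtain ⟨a, haA, hag⟩ := (Finset.mem_filter.1 hg).2.2
    let e : Finset V → M := fun S => if a ∈ S ∧ ∀ s ∈ S, Rd s g then sgz r a (S.erase a) • f (g, S.erase a) else 0
    have he1 : ∀ S, e S ≠ 0 → (a ∈ S ∧ ∀ s ∈ S, Rd s g) ∧ f (g, S.erase a) ≠ 0 := by
      intro S hS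
      by_cases h : a ∈ S ∧ ∀ s ∈ S, Rd s g
      · refine ⟨h, fun h1 => hS ?_⟩
        show (if a ∈ S ∧ ∀ s ∈ S, Rd s g then sgz r a (S.erase a) • f (g, S.erase a) else 0) = 0
        rw [h1, smul_zero, ite_self]
      · exact absurd (if_neg h) hS
    refine ⟨e, fun _ => ⟨fun S hS => ?_, fun S hS => ?_, fun T hT => ?_⟩⟩
    · obtain ⟨⟨h1, h2⟩, h3⟩ := he1 S hS
      refine ⟨fun s hs t ht hst => rd_clique hst (h2 s (Finset.mem_coe.1 hs)) (h2 t (Finset.mem_coe.1 ht)), h2⟩
    · obtain ⟨⟨h1, h2⟩, h3⟩ := he1 S hS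
      obtain ⟨h4, h5, -⟩ := hf.2.1 _ h3
      constructor
      · intro s hs
        by_cases hsa : s = a
        · rw [hsa]
          exact haA
        · exact h4 (Finset.mem_erase.2 ⟨hsa, hs⟩)
      · have h5' : (S.erase a).card = i := h5
        rw [← Finset.card_erase_add_one h1, h5']
    · by_cases haT : a ∈ T
      · have hins : insert a (T.erase a) = T := Finset.insert_erase haT
        have hcomp : (T.erase a)ᶜ = insert a Tᶜ := by
          ext v
          simp only [Finset.mem_compl, Finset.mem_erase, Finset.mem_insert]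
          tauto
        have hcyc : ∑ w ∈ (T.erase a)ᶜ, sgz r w (T.erase a) • f (g, insert w (T.erase a)) = 0 := by
          have := congrFun h0 (g, T.erase a)
          exact this
        rw [hcomp, Finset.sum_insert (by simpa using haT), hins] at hcyc
        have hterm : ∀ w ∈ Tᶜ, sgz r w T • e (insert w T) =
            -(sgz r a (T.erase a) • (sgz r w (T.erase a) • f (g, insert w (T.erase a)))) := by
          intro w hw
          have hwT : w ∉ T := by simpa using hw
          have hwa : w ≠ a := fun h => hwT (h ▸ haT)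
          have her : (insert w T).erase a = insert w (T.erase a) := by
            rw [Finset.erase_insert_of_ne hwa]
          by_cases hwg : Rd w g
          · have h1 : e (insert w T) = sgz r a (insert w (T.erase a)) • f (g, insert w (T.erase a)) := by
              show (if a ∈ insert w T ∧ ∀ s ∈ insert w T, Rd s g then
                sgz r a ((insert w T).erase a) • f (g, (insert w T).erase a) else 0) = _
              rw [if_pos, her]
              refine ⟨Finset.mem_insert_of_mem haT, fun s hs => ?_⟩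
              rcases Finset.mem_insert.1 hs with rfl | hs
              · exact hwg
              · exact hT s hs
            have h2 := sgz_anti hr (u := a) (v := w) (T := T.erase a) (by simp) (by simp [hwT]) (Ne.symm hwa)
            rw [hins] at h2
            have h3 := sgz_sq (r := r) a (T.erase a)
            have h4 := sgz_sq (r := r) a (insert w (T.erase a))
            have h5 : sgz r w T * sgz r a (insert w (T.erase a)) = -(sgz r a (T.erase a) * sgz r w (T.erase a)) := by
              calc sgz r w T * sgz r a (insert w (T.erase a))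
                  = (sgz r a (T.erase a) * sgz r a (T.erase a)) * (sgz r w T * sgz r a (insert w (T.erase a))) := by
                    rw [h3, one_mul]
                _ = sgz r a (T.erase a) * (sgz r a (T.erase a) * sgz r w T) * sgz r a (insert w (T.erase a)) := by ring
                _ = -(sgz r a (T.erase a) * sgz r w (T.erase a)) *
                    (sgz r a (insert w (T.erase a)) * sgz r a (insert w (T.erase a))) := by
                    rw [h2]
                    ring
                _ = _ := by rw [h4, mul_one]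
            rw [h1, smul_smul, h5, neg_smul, mul_smul]
          · have h1 : e (insert w T) = 0 := by
              refine if_neg fun h => hwg (h.2 w (Finset.mem_insert_self w T))
            have h2 : f (g, insert w (T.erase a)) = 0 := by
              by_contra h3
              have hcl : G.IsClique ((insert w (T.erase a) : Finset V) : Set V) := (hf.2.1 _ h3).2.2
              have h4 : f (g * gen G w, insert w (T.erase a)) ≠ 0 := by
                rw [hf.2.2 g _ w (Finset.mem_insert_self w _)]
                exact neg_ne_zero.2 h3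
              have h5 := hN _ _ h4 (by
                intro s hs
                rcases Finset.mem_insert.1 hs with rfl | hs'
                · rw [rd_self]
                  exact hwg
                · have hsT := Finset.mem_of_mem_erase hs'
                  have hsw : s ≠ w := fun h => hwT (h ▸ hsT)
                  rw [rd_adj (hcl (Finset.mem_coe.2 hs) (by simp) hsw)]
                  exact hT s hsT)
              have h6 := ln_mul hwg
              omega
            rw [h1, h2, smul_zero, smul_zero, smul_zero, neg_zero]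
        rw [Finset.sum_congr rfl hterm, Finset.sum_neg_distrib, ← Finset.smul_sum]
        have h6 : ∑ w ∈ Tᶜ, sgz r w (T.erase a) • f (g, insert w (T.erase a)) = -(sgz r a (T.erase a) • f (g, T)) :=
          (neg_eq_of_add_eq_zero_right hcyc).symm
        rw [h6, smul_neg, neg_neg, smul_smul, sgz_sq, one_smul]
      · rw [Finset.sum_eq_single a]
        · have h1 : e (insert a T) = sgz r a T • f (g, T) := by
            show (if a ∈ insert a T ∧ ∀ s ∈ insert a T, Rd s g then
                sgz r a ((insert a T).erase a) • f (g, (insert a T).erase a) else 0) = _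
            rw [if_pos, Finset.erase_insert haT]
            refine ⟨Finset.mem_insert_self a T, fun s hs => ?_⟩
            rcases Finset.mem_insert.1 hs with rfl | hs
            · exact hag
            · exact hT s hs
          rw [h1, smul_smul, sgz_sq, one_smul]
        · intro v _ hva
          have h1 : e (insert v T) = 0 := by
            refine if_neg fun h => ?_
            rcases Finset.mem_insert.1 h.1 with h2 | h2
            · exact hva h2.symm
            · exact haT h2
          rw [h1, smul_zero]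
        · intro h
          exact absurd (Finset.mem_compl.2 haT) h
  choose e he using key
  have hmem : ∀ g ∈ B, ext g (e g) ∈ AC M G A (i + 1) := by
    intro g hg
    have h1 : ext g (e g) ∈ AC M G Finset.univ (i + 1) :=
      ext_mem fun S hS => ⟨((he g hg).1 S hS).1, ((he g hg).2.1 S hS).2⟩
    refine ⟨h1.1, fun x hx => ?_, h1.2.2⟩
    refine ⟨?_, (h1.2.1 x hx).2⟩
    obtain ⟨y, T⟩ := x
    rw [ext_apply] at hx
    have h2 : e g T ≠ 0 := by
      intro h3
      apply hx
      rw [h3, cel_zero]
      rfl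
    exact ((he g hg).2.1 T h2).1
  refine ⟨∑ g ∈ B, ext g (e g), AddSubgroup.sum_mem _ hmem, ?_⟩
  intro x T hx hT
  by_contra hlt
  have hlt : N + 1 ≤ ln x := by omega
  refine hx ?_
  rw [Pi.sub_apply, map_sum, Finset.sum_apply]
  have h1 : ∀ g ∈ B, AD r (ext g (e g)) (x, T) = if x = g then ∑ v ∈ Tᶜ, sgz r v T • e g (insert v T) else 0 :=
    fun g hg => AD_ext_top (he g hg).1 (by rw [hB' g hg]; exact hlt) inferInstance
  rw [Finset.sum_congr rfl h1, Finset.sum_ite_eq]
  by_cases hxB : x ∈ B
  · rw [if_pos hxB, (he x hxB).2.2 T hT, sub_self]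
  · rw [if_neg hxB, sub_zero]
    by_contra h2
    have h3 := hN x T h2 hT
    exact hxB (hB x T h2 (by omega) (ha x T h2 hT (by omega)))

/-- the filtration -/
lemma ex_reduce (hr : Function.Injective r) {A : Finset V} {i : ℕ} {f : RACG G × Finset V → M}
    (hf : f ∈ AC M G A i) (h0 : AD r f = 0)
    (ha : ∀ x : RACG G, ∀ T : Finset V, T ⊆ A → T.card = i → (∀ s ∈ T, Rd s x) → x ≠ 1 → ∃ a ∈ A, Rd a x) :
    ∃ h ∈ AC M G A (i + 1), Tl 0 (f - AD r h) := by
  obtain ⟨N, hN⟩ := exists_Tl hf
  induction N generalizing f with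
  | zero => exact ⟨0, zero_mem _, by rwa [map_zero, sub_zero]⟩
  | succ N ih =>
    obtain ⟨h, hh, h1⟩ := ex_step hr hf h0 hN fun x T hx hT hl => by
      obtain ⟨c1, c2, -⟩ := hf.2.1 _ hx
      refine ha x T c1 c2 hT ?_
      rintro rfl
      rw [ln_one] at hl
      omega
    obtain ⟨h', hh', h2⟩ := ih (sub_mem hf (AD_mem hh)) (by rw [_root_.map_sub, h0, AD_AD hr, sub_zero]) h1
    refine ⟨h + h', add_mem hh hh', ?_⟩
    rwa [map_add, ← sub_sub]

end Hc

theorem ac_exact_succ (hr : Function.Injective r) {A : Finset V} {i : ℕ} {f : RACG G × Finset V → M}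
    (hf : f ∈ AC M G A (i + 1)) (h0 : AD r f = 0) : ∃ h ∈ AC M G A (i + 2), AD r h = f := by
  obtain ⟨h, hh, h1⟩ := ex_reduce hr hf h0 fun x T hTA hTc hT _ => by
    obtain ⟨a, haT⟩ := Finset.card_pos.1 (by rw [hTc]; omega : 0 < T.card)
    exact ⟨a, hTA haT, hT a haT⟩
  refine ⟨h, hh, ?_⟩
  have h2 : f - AD r h = 0 := by
    refine ac_ext_top (sub_mem hf (AD_mem hh)) fun w S hS => ?_
    by_contra h3
    have h4 := h1 w S h3 hS
    have hw : w = 1 := by
      by_contra h5
      have := ln_pos h5
      omega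
    have h5 := ((sub_mem hf (AD_mem hh)).2.1 _ h3).2.1
    obtain ⟨a, haS⟩ := Finset.card_pos.1 (by rw [h5]; omega : 0 < S.card)
    have h6 := hS a haS
    rw [hw] at h6
    exact not_rd_one a h6
  exact (sub_eq_zero.1 h2).symm

/-- the augmentation of a boundary is zero -/
lemma finsum_AD {h : RACG G × Finset V → M} (hh : h ∈ AC M G Finset.univ 1) : ∑ᶠ g, AD r h (g, ∅) = 0 := by
  classical
  have h1 : ∀ g, AD r h (g, ∅) = ∑ v : V, sgz r v ∅ • h (g, {v}) := by
    intro g
    show ∑ v ∈ (∅ : Finset V)ᶜ, sgz r v ∅ • h (g, insert v ∅) = _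
    rw [Finset.compl_empty]
    rfl
  have hfin : ∀ v : V, (Function.support fun g => sgz r v ∅ • h (g, {v})).Finite := by
    intro v
    refine ((hh.1.preimage (f := fun g : RACG G => (g, ({v} : Finset V))) (fun a _ b _ hab =>
      congrArg Prod.fst hab))).subset fun g hg h0 => hg ?_
    show sgz r v ∅ • h (g, {v}) = 0
    have h2 : h (g, {v}) = 0 := h0
    rw [h2, smul_zero]
  rw [finsum_congr h1, finsum_sum_comm _ _ fun v _ => hfin v]
  refine Finset.sum_eq_zero fun v _ => ?_
  rw [finsum_eq_sum_of_support_subset _ (s := (hfin v).toFinset) (by simp)]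
  have hanti : ∀ g, h (g * gen G v, {v}) = -h (g, {v}) := fun g => hh.2.2 g {v} v (Finset.mem_singleton_self v)
  refine Finset.sum_involution (fun g _ => g * gen G v) ?_ ?_ ?_ ?_
  · intro g _
    rw [hanti, smul_neg, add_neg_cancel]
  · intro g _ _ h2
    exact gen_ne_one v (mul_eq_left.1 h2)
  · intro g hg
    rw [Set.Finite.mem_toFinset] at hg ⊢
    intro h2
    apply hg
    have h3 : sgz r v ∅ • h (g * gen G v, {v}) = 0 := h2
    rw [hanti, smul_neg, neg_eq_zero] at h3
    exact h3
  · intro g _
    show g * gen G v * gen G v = g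
    rw [mul_assoc, gen_mul_gen, mul_one]

theorem ac_exact_zero (hr : Function.Injective r) {f : RACG G × Finset V → M} (hf : f ∈ AC M G Finset.univ 0) :
    ∑ᶠ g, f (g, ∅) = 0 ↔ ∃ h ∈ AC M G Finset.univ 1, AD r h = f := by
  constructor
  · intro hs
    have h0 : AD r f = 0 := by
      funext ⟨x, T⟩
      refine Finset.sum_eq_zero fun v hv => ?_
      have h1 : f (x, insert v T) = 0 := by
        by_contra h2
        exact absurd (Finset.card_eq_zero.1 (hf.2.1 _ h2).2.1) (Finset.insert_ne_empty _ _)
      dsimp only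
      rw [h1, smul_zero]
    obtain ⟨h, hh, h1⟩ := ex_reduce hr hf h0 fun x T _ _ _ hx => by
      obtain ⟨a, ha⟩ := exists_rd hx
      exact ⟨a, Finset.mem_univ a, ha⟩
    refine ⟨h, hh, ?_⟩
    have hmem := sub_mem hf (AD_mem (r := r) hh)
    have h2 : ∀ x, x ≠ 1 → (f - AD r h) (x, ∅) = 0 := by
      intro x hx
      by_contra h3
      have := h1 x ∅ h3 (by simp)
      have := ln_pos hx
      omega
    have hfin : ∀ {k : RACG G × Finset V → M}, k ∈ AC M G Finset.univ 0 →
        (Function.support fun g => k (g, ∅)).Finite := fun {k} hk =>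
      hk.1.preimage (f := fun g : RACG G => (g, (∅ : Finset V))) (fun a _ b _ hab => congrArg Prod.fst hab)
    have h3 : (f - AD r h) (1, ∅) = 0 := by
      have h4 : ∑ᶠ g, (f - AD r h) (g, ∅) = (f - AD r h) (1, ∅) := finsum_eq_single _ 1 fun g hg => h2 g hg
      rw [← h4]
      have h5 : ∑ᶠ g, (f - AD r h) (g, ∅) = ∑ᶠ g, f (g, ∅) - ∑ᶠ g, AD r h (g, ∅) :=
        finsum_sub_distrib (hfin hf) (hfin (AD_mem hh))
      rw [h5, hs, finsum_AD hh, sub_zero]
    have h4 : f - AD r h = 0 := by
      funext ⟨x, T⟩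
      by_contra h5
      have h6 : T = ∅ := Finset.card_eq_zero.1 (hmem.2.1 _ h5).2.1
      subst h6
      by_cases hx : x = 1
      · subst hx
        exact h5 h3
      · exact h5 (h2 x hx)
    exact (sub_eq_zero.1 h4).symm
  · rintro ⟨h, hh, rfl⟩
    exact finsum_AD hh

end davisex

end Singer
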