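import Pool.Agent.Singer.DavisOps
import Pool.Agent.Singer.RacgSys
import Pool.Agent.Singer.DavisEx

/-!
# Singer: the Davis complex and its dual as resolutions

* `davisResC`: the chains `Ch` with the boundary `D` are a resolution of `ℂ` over the right-angled Coxeter group;
* `dualRes`: for a homology sphere of dimension `n - 1` the sign twisted cochains, in reverse order, are a resolution.
-/

set_option autoImplicit false
set_option linter.unusedSectionVars false
set_option linter.unusedVariables false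

open scoped ComplexConjugate InnerProductSpace
open Filter Topology

namespace Singer

universe u

/-! ### functions of finite support -/

section conv
variable {X : Type*}

/-- a function of finite support as an element of `ℓ²` -/
noncomputable def ofFin (F : X → ℂ) (h : (Function.support F).Finite) : L2 X :=
  ⟨F, memL2 (summable_of_hasFiniteSupport (h.subset fun x hx => by
    intro h0
    apply hx
    show ‖F x‖ ^ 2 = 0
    rw [h0]
    simp))⟩

lemma ofFin_apply (F : X → ℂ) (h : (Function.support F).Finite) (x : X) : ofFin F h x = F x := rfl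

lemma coe_ofFin (F : X → ℂ) (h : (Function.support F).Finite) : (⇑(ofFin F h) : X → ℂ) = F := rfl

end conv

section eps
variable {Γ : Type*} [Group Γ] {ι κ : Type*}

/-- the sum of the column `j` -/
noncomputable def su (j : ι) (f : E Γ ι) : ℂ := ∑ᶠ g : Γ, f (g, j)

lemma fs_col {f : E Γ ι} (hf : FS f) (j : ι) : (Function.support fun g : Γ => f (g, j)).Finite := by
  have h1 : (Function.support fun g : Γ => f (g, j)) = (fun g : Γ => (g, j)) ⁻¹' {x | f x ≠ 0} := rfl
  rw [h1]
  exact hf.preimage (col_inj j).injOn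

lemma eps_eq_sum [Fintype ι] (w : ι → ℂ) {f : E Γ ι} (hf : FS f) : eps w f = ∑ j, w j * su j f := by
  classical
  unfold eps
  have h1 : ∑ᶠ x : Γ × ι, w x.2 * f x = ∑ᶠ y : ι × Γ, w y.1 * f (y.2, y.1) :=
    (finsum_comp_equiv (Equiv.prodComm ι Γ) (f := fun x : Γ × ι => w x.2 * f x)).symm
  have h2 : (Function.support fun y : ι × Γ => w y.1 * f (y.2, y.1)).Finite := by
    have h3 : (Function.support fun y : ι × Γ => w y.1 * f (y.2, y.1)) ⊆
        (Equiv.prodComm ι Γ) ⁻¹' {x | f x ≠ 0} := by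
      intro y hy h0
      apply hy
      show w y.1 * f (y.2, y.1) = 0
      have h4 : f (y.2, y.1) = 0 := h0
      rw [h4, mul_zero]
    exact (hf.preimage (Equiv.injective _).injOn).subset h3
  rw [h1, finsum_curry _ h2, finsum_eq_sum_of_fintype]
  refine Finset.sum_congr rfl fun j _ => ?_
  have h5 : w j * ∑ᶠ g : Γ, f (g, j) = ∑ᶠ g : Γ, w j * f (g, j) := mul_finsum _ _
  exact h5.symm

lemma su_add (j : ι) {f g : E Γ ι} (hf : FS f) (hg : FS g) : su j (f + g) = su j f + su j g := by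
  unfold su
  rw [← finsum_add_distrib (fs_col hf j) (fs_col hg j)]
  rfl

lemma su_rt (j : ι) (a : Γ) (f : E Γ ι) : su j (rt a f) = su j f := by
  unfold su
  rw [← finsum_comp_equiv (Equiv.mulRight a) (f := fun g : Γ => f (g, j))]
  rfl

lemma eps_col (w : κ → ℂ) (j : ι) (k : κ) {f : E Γ ι} (hf : FS f) : eps w (col j k f) = w k * su j f := by
  classical
  unfold eps su
  have h1 : ∑ᶠ x : Γ × κ, w x.2 * col j k f x = ∑ᶠ x ∈ Set.range (fun g : Γ => (g, k)), w x.2 * col j k f x := by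
    rw [finsum_mem_def]
    refine finsum_congr fun x => ?_
    by_cases hx : x ∈ Set.range (fun g : Γ => (g, k))
    · rw [Set.indicator_of_mem hx]
    · rw [Set.indicator_of_notMem hx]
      have hk : x.2 ≠ k := fun h0 => hx ⟨x.1, by rw [← h0]⟩
      rw [col_apply, if_neg hk, mul_zero]
  rw [h1, finsum_mem_range (col_inj k), mul_finsum]
  refine finsum_congr fun g => ?_
  rw [col_apply_self]

end eps

/-! ### the boundary and the coboundary -/

section conv2
variable {V : Type u} [Fintype V] [DecidableEq V] {G : SimpleGraph V} {r : V → ℕ}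

lemma sg_eq (v : V) (T : Finset V) : sg r v T = ((sgz r v T : ℤ) : ℂ) := by
  unfold sg sgz
  push_cast
  rfl

lemma mem_ac_iff {A : Finset V} {i : ℕ} {f : E (RACG G) (Finset V)} :
    (⇑f : RACG G × Finset V → ℂ) ∈ AC ℂ G A i ↔ f ∈ Ch G (Racg.gen G) A i ∧ FS f :=
  ⟨fun h => ⟨⟨h.2.1, h.2.2⟩, h.1⟩, fun h => ⟨h.2, h.1.1, h.1.2⟩⟩

lemma D_coe (f : E (RACG G) (Finset V)) : (⇑(D r f) : RACG G × Finset V → ℂ) = AD r ⇑f := by
  funext x
  obtain ⟨g, T⟩ := x
  rw [D_apply]
  refine Finset.sum_congr rfl fun v _ => ?_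
  rw [sg_eq, zsmul_eq_mul]

lemma cobd_coe (f : E (RACG G) (Finset V)) :
    (⇑(cobd r G (Racg.gen G) f) : RACG G × Finset V → ℂ) = Acod r ⇑f := by
  classical
  funext x
  obtain ⟨g, T⟩ := x
  rw [cobd_apply]
  show _ = if G.IsClique (T : Set V) then ∑ v ∈ T, sgz r v (T.erase v) •
    (f (g, T.erase v) - f (g * Racg.gen G v, T.erase v)) else 0
  by_cases hT : G.IsClique (T : Set V)
  · rw [if_pos hT, if_pos hT]
    refine Finset.sum_congr rfl fun v _ => ?_
    rw [sg_eq, zsmul_eq_mul]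
  · rw [if_neg hT, if_neg hT]

/-- preimages under `D` -/
lemma exists_of_AD {i : ℕ} {f : E (RACG G) (Finset V)} (h : ∃ F ∈ AC ℂ G Finset.univ i, AD r F = ⇑f) :
    ∃ g ∈ Ch G (Racg.gen G) Finset.univ i, FS g ∧ D r g = f := by
  obtain ⟨F, hF, hFf⟩ := h
  have h1 : (⇑(ofFin F hF.1) : RACG G × Finset V → ℂ) ∈ AC ℂ G Finset.univ i := hF
  obtain ⟨h2, h3⟩ := mem_ac_iff.1 h1
  refine ⟨ofFin F hF.1, h2, h3, ?_⟩
  apply lp.ext
  rw [D_coe, coe_ofFin]
  exact hFf

/-- preimages under `cobd` -/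
lemma exists_of_Acod {i : ℕ} {f : E (RACG G) (Finset V)} (h : ∃ F ∈ AC ℂ G Finset.univ i, Acod r F = ⇑f) :
    ∃ g ∈ Ch G (Racg.gen G) Finset.univ i, FS g ∧ cobd r G (Racg.gen G) g = f := by
  obtain ⟨F, hF, hFf⟩ := h
  have h1 : (⇑(ofFin F hF.1) : RACG G × Finset V → ℂ) ∈ AC ℂ G Finset.univ i := hF
  obtain ⟨h2, h3⟩ := mem_ac_iff.1 h1
  refine ⟨ofFin F hF.1, h2, h3, ?_⟩
  apply lp.ext
  rw [cobd_coe, coe_ofFin]
  exact hFf

lemma eps_ch_zero {f : E (RACG G) (Finset V)} (hf : f ∈ Ch G (Racg.gen G) Finset.univ 0) (hfs : FS f) :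
    eps (fun _ => 1) f = ∑ᶠ g, f (g, ∅) := by
  rw [eps_eq_sum _ hfs, Finset.sum_eq_single_of_mem ∅ (Finset.mem_univ _), one_mul]
  · rfl
  · intro T _ hT
    rw [one_mul]
    unfold su
    have h0 : ∀ g, f (g, T) = 0 := fun g => by
      by_contra h
      exact hT (Finset.card_eq_zero.1 (hf.1 (g, T) h).2.1)
    rw [finsum_congr h0, finsum_zero]

/-- the Davis complex -/
noncomputable def davisResC (G : SimpleGraph V) (hr : Function.Injective r) : Res.{u} (RACG G) where
  ι _ := Finset V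
  ft _ := inferInstance
  P i := Ch G (Racg.gen G) Finset.univ i
  e i := (exists_prj (isSys_gen G) i).choose
  d _ := D r
  w _ := 1
  mat_e i := (exists_prj (isSys_gen G) i).choose_spec.1
  mat_d _ := mat_D
  e_mem i f := (exists_prj (isSys_gen G) i).choose_spec.2.1 f
  e_eq i f hf := (exists_prj (isSys_gen G) i).choose_spec.2.2 f hf
  d_mem _ _ hf := D_mem_Ch r G _ hf
  d_d _ f _ := D_D r hr f
  eps_d f hf hfs := by
    rw [eps_ch_zero (D_mem_Ch r G _ hf) (mat_D.fs hfs)]
    have h1 : (⇑(D r f) : RACG G × Finset V → ℂ) ∈ AC ℂ G Finset.univ 0 :=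
      mem_ac_iff.2 ⟨D_mem_Ch r G _ hf, mat_D.fs hfs⟩
    refine (ac_exact_zero hr h1).2 ⟨f, mem_ac_iff.2 ⟨hf, hfs⟩, (D_coe f).symm⟩
  surj := by
    have h0 : (del 1 ∅ : E (RACG G) (Finset V)) ∈ Ch G (Racg.gen G) Finset.univ 0 := by
      have h1 : ∀ x : RACG G × Finset V, (del 1 ∅ : E (RACG G) (Finset V)) x ≠ 0 → x = (1, ∅) := fun x hx => by
        by_contra h
        exact hx (del_apply_ne h)
      constructor
      · intro x hx
        rw [h1 x hx]
        exact ⟨Finset.empty_subset _, rfl, by simp⟩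
      · intro g T v hv
        have h2 : T ≠ ∅ := Finset.ne_empty_of_mem hv
        rw [del_apply_ne (fun h => h2 (congrArg Prod.snd h)), del_apply_ne (fun h => h2 (congrArg Prod.snd h)),
          neg_zero]
    refine ⟨del 1 ∅, h0, fs_del _ _, ?_⟩
    rw [eps_ch_zero h0 (fs_del _ _), finsum_eq_single _ (1 : RACG G), del_apply_self]
    intro g hg
    exact del_apply_ne (fun h => hg (congrArg Prod.fst h))
  ex_zero f hf hfs h0 := by
    rw [eps_ch_zero hf hfs] at h0
    obtain ⟨F, hF, hFf⟩ := (ac_exact_zero hr (mem_ac_iff.2 ⟨hf, hfs⟩)).1 h0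
    exact exists_of_AD ⟨F, hF, hFf⟩
  ex_succ i f hf hfs h0 := by
    have h1 : AD r (⇑f : RACG G × Finset V → ℂ) = 0 := by
      rw [← D_coe, h0]
      rfl
    obtain ⟨F, hF, hFf⟩ := ac_exact_succ hr (mem_ac_iff.2 ⟨hf, hfs⟩) h1
    exact exists_of_AD ⟨F, hF, hFf⟩

end conv2

/-! ### the dual complex -/

section dual
variable {V : Type u} [Fintype V] [DecidableEq V] {r : V → ℕ} {G : SimpleGraph V}

/-- a cycle of top dimension through the facet `τ` -/
lemma Sph.exists_cyc (hr : Function.Injective r) {n : ℕ} {τ : Finset V} (h : Sph ℂ r G n τ) :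
    ∃ z : Finset V → ℂ, z τ ≠ 0 ∧ ∀ F : Finset V → ℂ, (∀ S, F S ≠ 0 → G.IsClique (S : Set V)) →
      ∀ P : Finset V → Prop, (∀ T, P T ↔ G.IsClique (T : Set V)) → ∀ [DecidablePred P],
      ∑ T ∈ Finset.univ.filter P, z T * dl r F T = 0 := by
  classical
  let L : (Finset V → ℂ) →ₗ[ℂ] (Finset V → ℂ) :=
    { toFun := fun F T => if G.IsClique (T : Set V) then
        dl r (fun S => if G.IsClique (S : Set V) then F S else 0) T else 0
      map_add' := fun F F' => by
        funext T
        simp only [Pi.add_apply]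
        by_cases hT : G.IsClique (T : Set V)
        · rw [if_pos hT, if_pos hT, if_pos hT]
          unfold dl
          rw [← Finset.sum_add_distrib]
          refine Finset.sum_congr rfl fun v _ => ?_
          rw [← smul_add]
          congr 1
          dsimp only
          split_ifs <;> simp
        · rw [if_neg hT, if_neg hT, if_neg hT, add_zero]
      map_smul' := fun c F => by
        funext T
        simp only [Pi.smul_apply, RingHom.id_apply, smul_eq_mul]
        by_cases hT : G.IsClique (T : Set V)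
        · rw [if_pos hT, if_pos hT]
          unfold dl
          rw [Finset.mul_sum]
          refine Finset.sum_congr rfl fun v _ => ?_
          rw [zsmul_eq_mul, zsmul_eq_mul]
          dsimp only
          split_ifs
          · ring
          · ring
        · rw [if_neg hT, if_neg hT, mul_zero] }
  have hL : ∀ F T, L F T = if G.IsClique (T : Set V) then
        dl r (fun S => if G.IsClique (S : Set V) then F S else 0) T else 0 := fun F T => rfl
  have hx : (Pi.single τ 1 : Finset V → ℂ) ∉ LinearMap.range L := by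
    rintro ⟨F, hF⟩
    set F' : Finset V → ℂ := fun S => if G.IsClique (S : Set V) ∧ S ≠ τ then F S else 0 with hF'
    have h1 : ∀ T : Finset V, G.IsClique (T : Set V) → dl r F' T = (Pi.single τ 1 : Finset V → ℂ) T := by
      intro T hT
      rw [← hF, hL, if_pos hT]
      unfold dl
      refine Finset.sum_congr rfl fun v hv => ?_
      have h2 : T.erase v ≠ τ := by
        intro h3
        have h4 := h.dim T hT
        rw [← Finset.card_erase_add_one hv, h3, h.card] at h4
        omega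
      simp only [hF']
      by_cases h5 : G.IsClique ((T.erase v : Finset V) : Set V)
      · rw [if_pos ⟨h5, h2⟩, if_pos h5]
      · rw [if_neg (fun h6 => h5 h6.1), if_neg h5]
    obtain ⟨e, he0, he⟩ := h.fac F' (fun S hS => by
        simp only [hF']
        rw [if_neg]
        rintro ⟨h6, h7⟩
        exact hS ⟨⟨h6, by simp⟩, by simpa using h7⟩) (fun T hT => by
        rw [h1 T hT.1.1, Pi.single_eq_of_ne (by simpa using hT.2)])
    have h8 : dl r F' τ = dl r (dl r e) τ := by
      unfold dl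
      refine Finset.sum_congr rfl fun v hv => ?_
      congr 1
      have h9 : τ.erase v ∈ Clq G ∅ \ {τ} := by
        refine ⟨⟨h.clq.subset (by simp), by simp⟩, ?_⟩
        intro h10
        have h11 : τ.erase v = τ := h10
        rw [← h11] at hv
        simp at hv
      exact (he _ h9).symm
    rw [h1 τ h.clq, Pi.single_eq_same, dl_dl hr] at h8
    exact one_ne_zero h8
  obtain ⟨φ, hφ1, hφ2⟩ := Submodule.exists_le_ker_of_notMem hx
  refine ⟨fun T => φ (Pi.single T 1), hφ1, fun F hF P hP _ => ?_⟩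
  have h1 : φ (L F) = 0 := hφ2 ⟨F, rfl⟩
  have h2 : L F = ∑ T : Finset V, L F T • (Pi.single T 1 : Finset V → ℂ) := by
    funext S
    rw [Finset.sum_apply, Finset.sum_eq_single_of_mem S (Finset.mem_univ _)]
    · simp
    · intro T _ hT
      simp [Pi.single_eq_of_ne hT.symm]
  rw [h2, map_sum] at h1
  rw [← h1, Finset.sum_filter]
  refine Finset.sum_congr rfl fun T _ => ?_
  rw [map_smul, smul_eq_mul, hL]
  by_cases hT : G.IsClique (T : Set V)
  · rw [if_pos ((hP T).2 hT), if_pos hT, mul_comm]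
    congr 1
    unfold dl
    refine Finset.sum_congr rfl fun v hv => ?_
    congr 1
    dsimp only
    by_cases h5 : G.IsClique ((T.erase v : Finset V) : Set V)
    · rw [if_pos h5]
    · rw [if_neg h5]
      by_contra h6
      exact h5 (hF _ h6)
  · rw [if_neg (fun h => hT ((hP T).1 h)), if_neg hT, zero_mul]

variable (r G) in
/-- the coboundary, twisted with the sign -/
noncomputable def dcob : E (RACG G) (Finset V) →L[ℂ] E (RACG G) (Finset V) :=
  (tw (sgW G)).comp ((cobd r G (Racg.gen G)).comp (tw (sgW G)))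

lemma dcob_eq (f : E (RACG G) (Finset V)) : dcob r G f = tw (sgW G) (cobd r G (Racg.gen G) (tw (sgW G) f)) := rfl

lemma tw_dcob (f : E (RACG G) (Finset V)) : tw (sgW G) (dcob r G f) = cobd r G (Racg.gen G) (tw (sgW G) f) := by
  rw [dcob_eq, tw_tw]

lemma mat_dcob : Mat (dcob r G) := Mat.tw _ mat_cobd

variable (G) in
/-- the dual chains of degree `i` -/
noncomputable def DCh (n i : ℕ) : Submodule ℂ (E (RACG G) (Finset V)) :=
  if i ≤ n then (Ch G (Racg.gen G) Finset.univ (n - i)).comap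
    ((tw (sgW G) : E (RACG G) (Finset V) →L[ℂ] E (RACG G) (Finset V)) :
      E (RACG G) (Finset V) →ₗ[ℂ] E (RACG G) (Finset V)) else ⊥

lemma mem_DCh {n i : ℕ} (h : i ≤ n) {f : E (RACG G) (Finset V)} :
    f ∈ DCh G n i ↔ tw (sgW G) f ∈ Ch G (Racg.gen G) Finset.univ (n - i) := by
  unfold DCh
  rw [if_pos h]
  rfl

lemma mem_DCh_of_lt {n i : ℕ} (h : n < i) {f : E (RACG G) (Finset V)} : f ∈ DCh G n i ↔ f = 0 := by
  unfold DCh
  rw [if_neg (not_le.2 h)]
  rfl

open Classical in
lemma dcob_sum (f : E (RACG G) (Finset V)) : dcob r G f =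
    ∑ T ∈ Finset.univ.filter (fun T : Finset V => G.IsClique (T : Set V)), ∑ v ∈ T,
      sg r v (T.erase v) • col (T.erase v) T (f + rt (Racg.gen G v) f) := by
  rw [dcob_eq]
  unfold cobd
  rw [sum_apply, map_sum]
  refine Finset.sum_congr rfl fun T _ => ?_
  rw [sum_apply, map_sum]
  refine Finset.sum_congr rfl fun v _ => ?_
  rw [smul_apply, map_smul]
  congr 1
  rw [ContinuousLinearMap.comp_apply, sub_apply]
  have h1 : (1 : E (RACG G) (Finset V) →L[ℂ] E (RACG G) (Finset V)) (tw (sgW G) f) = tw (sgW G) f := rfl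
  have h2 : ∀ h : E (RACG G) (Finset V), tw (sgW G) (col (T.erase v) T h) = col (T.erase v) T (tw (sgW G) h) := by
    intro h
    ext x
    rw [tw_apply, col_apply, col_apply]
    by_cases hx : x.2 = T
    · rw [if_pos hx, if_pos hx, tw_apply]
    · rw [if_neg hx, if_neg hx, mul_zero]
  rw [h1, h2, map_sub (tw (sgW G)), tw_tw, tw_rt, tw_tw, Hc.sgW_gen]
  congr 1
  rw [sub_eq_add_neg, ← neg_smul]
  simp

open Classical in
lemma eps_dcob (w : Finset V → ℂ) {f : E (RACG G) (Finset V)} (hf : FS f) : eps w (dcob r G f) =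
    ∑ T ∈ Finset.univ.filter (fun T : Finset V => G.IsClique (T : Set V)), w T * dl r (fun S => 2 * su S f) T := by
  have h1 : ∀ v, FS (f + rt (Racg.gen G v) f) := fun v => hf.add ((mat_rt _).fs hf)
  have h2 : ∀ (T : Finset V) (v : V), FS (sg r v (T.erase v) • col (T.erase v) T (f + rt (Racg.gen G v) f)) :=
    fun T v => ((mat_col _ _).fs (h1 v)).smul _
  rw [dcob_sum, eps_sum w fun T _ => FS.sum fun v _ => h2 T v]
  refine Finset.sum_congr rfl fun T _ => ?_
  rw [eps_sum w fun v _ => h2 T v]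
  unfold dl
  rw [Finset.mul_sum]
  refine Finset.sum_congr rfl fun v _ => ?_
  rw [eps_smul w _ ((mat_col _ _).fs (h1 v)), eps_col w _ _ (h1 v), su_add _ hf ((mat_rt _).fs hf), su_rt, sg_eq,
    zsmul_eq_mul]
  ring

lemma eps_dcob_zero {w : Finset V → ℂ} (hw : ∀ F : Finset V → ℂ, (∀ S, F S ≠ 0 → G.IsClique (S : Set V)) →
      ∀ P : Finset V → Prop, (∀ T, P T ↔ G.IsClique (T : Set V)) → ∀ [DecidablePred P],
      ∑ T ∈ Finset.univ.filter P, w T * dl r F T = 0) {i : ℕ} {f : E (RACG G) (Finset V)}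
    (hf : tw (sgW G) f ∈ Ch G (Racg.gen G) Finset.univ i) (hfs : FS f) : eps w (dcob r G f) = 0 := by
  classical
  rw [eps_dcob w hfs]
  refine hw _ (fun S hS => ?_) _ fun T => Iff.rfl
  by_contra h
  apply hS
  have h0 : ∀ g, f (g, S) = 0 := fun g => by
    by_contra h1
    have h2 : tw (sgW G) f (g, S) ≠ 0 := by
      intro h3
      apply h1
      have h4 : f (g, S) = tw (sgW G) (tw (sgW G) f) (g, S) := by rw [tw_tw]
      rw [h4, tw_apply, h3, mul_zero]
    exact h (hf.1 (g, S) h2).2.2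
  unfold su
  rw [finsum_congr h0, finsum_zero, mul_zero]

/-- the cell of type `τ` in the dual complex -/
lemma exists_dcell {n : ℕ} {τ : Finset V} (h : Sph ℂ r G n τ) : ∃ f0 : E (RACG G) (Finset V),
    FS f0 ∧ (∀ m : ℂ, (⇑(tw (sgW G) (m • f0)) : RACG G × Finset V → ℂ) = cel m 1 τ) ∧
    tw (sgW G) f0 ∈ Ch G (Racg.gen G) Finset.univ n ∧ ∀ w : Finset V → ℂ, w τ ≠ 0 → eps w f0 ≠ 0 := by
  classical
  have h1 : cel (G := G) (1 : ℂ) 1 τ ∈ AC ℂ G Finset.univ n := by
    have := cel_mem (G := G) (1 : ℂ) 1 h.clq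
    rwa [h.card] at this
  have h2 : (⇑(ofFin _ h1.1) : RACG G × Finset V → ℂ) ∈ AC ℂ G Finset.univ n := h1
  obtain ⟨h3, h4⟩ := mem_ac_iff.1 h2
  have h5 : FS (tw (sgW G) (ofFin _ h1.1)) := fs_tw _ h4
  have h6 : ∀ g, tw (sgW G) (ofFin _ h1.1) (g, τ) = if g ∈ Racg.sub (G := G) (τ : Set V) then 1 else 0 := by
    intro g
    rw [tw_apply, ofFin_apply]
    unfold cel
    simp only [inv_one, one_mul, true_and]
    by_cases hg : g ∈ Racg.sub (G := G) (τ : Set V)
    · rw [if_pos hg, if_pos hg, zsmul_eq_mul, mul_one, sgn_sq]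
    · rw [if_neg hg, if_neg hg, mul_zero]
  refine ⟨tw (sgW G) (ofFin _ h1.1), h5, fun m => ?_, by rwa [tw_tw], fun w hw => ?_⟩
  · rw [map_smul, tw_tw]
    funext x
    rw [lp.coeFn_smul, Pi.smul_apply, ofFin_apply]
    unfold cel
    by_cases hx : x.2 = τ ∧ 1⁻¹ * x.1 ∈ Racg.sub (G := G) (τ : Set V)
    · rw [if_pos hx, if_pos hx, smul_eq_mul, zsmul_eq_mul, zsmul_eq_mul]
      ring
    · rw [if_neg hx, if_neg hx, smul_zero]
  · rw [eps_eq_sum w h5, Finset.sum_eq_single_of_mem τ (Finset.mem_univ _)]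
    · refine mul_ne_zero hw ?_
      unfold su
      rw [finsum_congr h6]
      have h7 : (Function.support fun g : RACG G => if g ∈ Racg.sub (G := G) (τ : Set V) then (1 : ℂ) else 0).Finite := by
        have h8 := fs_col h5 τ
        rwa [show (fun g : RACG G => tw (sgW G) (ofFin _ h1.1) (g, τ)) =
          fun g : RACG G => if g ∈ Racg.sub (G := G) (τ : Set V) then (1 : ℂ) else 0 from funext h6] at h8
      rw [finsum_eq_sum_of_support_subset _ (s := h7.toFinset) (by simp)]
      rw [Finset.sum_congr rfl (g := fun _ => (1 : ℂ)) (fun g hg => by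
        have h8 := h7.mem_toFinset.1 hg
        by_contra h9
        apply h8
        show (if g ∈ Racg.sub (G := G) (τ : Set V) then (1 : ℂ) else 0) = 0
        rw [if_neg]
        intro h10
        exact h9 (if_pos h10))]
      rw [Finset.sum_const, nsmul_eq_mul, mul_one]
      refine Nat.cast_ne_zero.2 (Finset.card_ne_zero.2 ⟨1, ?_⟩)
      rw [h7.mem_toFinset]
      show (if (1 : RACG G) ∈ Racg.sub (G := G) (τ : Set V) then (1 : ℂ) else 0) ≠ 0
      rw [if_pos (one_mem _)]
      exact one_ne_zero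
    · intro T _ hT
      unfold su
      have h7 : ∀ g, tw (sgW G) (ofFin _ h1.1) (g, T) = 0 := fun g => by
        rw [tw_apply, ofFin_apply]
        unfold cel
        rw [if_neg (fun h => hT h.1), mul_zero]
      rw [finsum_congr h7, finsum_zero, mul_zero]

/-- coboundaries -/
lemma exists_of_AB {n i : ℕ} (hi : i ≤ n) {f : E (RACG G) (Finset V)}
    (h : (⇑(tw (sgW G) f) : RACG G × Finset V → ℂ) ∈ AB ℂ G r (n - i)) :
    ∃ g ∈ DCh G n (i + 1), FS g ∧ dcob r G g = f := by
  by_cases h1 : i = n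
  · subst h1
    rw [Nat.sub_self] at h
    have h2 : (⇑(tw (sgW G) f) : RACG G × Finset V → ℂ) = 0 := h
    have h3 : tw (sgW G) f = 0 := lp.ext h2
    refine ⟨0, (mem_DCh_of_lt (Nat.lt_succ_self i)).2 rfl, FS.zero, ?_⟩
    rw [map_zero, ← tw_tw (sgW G) f, h3, map_zero]
  · have h2 : n - i = (n - (i + 1)) + 1 := by omega
    rw [h2] at h
    obtain ⟨F, hF, hFf⟩ := h
    obtain ⟨g, hg, hgs, hgf⟩ := exists_of_Acod ⟨F, hF, hFf⟩
    refine ⟨tw (sgW G) g, (mem_DCh (by omega)).2 (by rwa [tw_tw]), fs_tw _ hgs, ?_⟩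
    rw [dcob_eq, tw_tw, hgf, tw_tw]

/-- the dual of the Davis complex -/
noncomputable def dualRes (hr : Function.Injective r) {n : ℕ} {τ : Finset V} (h : Sph ℂ r G n τ) :
    Res.{u} (RACG G) where
  ι _ := Finset V
  ft _ := inferInstance
  P i := DCh G n i
  e i := if i ≤ n then (tw (sgW G)).comp ((exists_prj (isSys_gen G) (n - i)).choose.comp (tw (sgW G))) else 0
  d _ := dcob r G
  w := (h.exists_cyc hr).choose
  mat_e i := by
    by_cases hi : i ≤ n
    · rw [if_pos hi]
      exact Mat.tw _ (exists_prj (isSys_gen G) (n - i)).choose_spec.1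
    · rw [if_neg hi]
      exact Mat.zero
  mat_d _ := mat_dcob
  e_mem i f := by
    by_cases hi : i ≤ n
    · rw [if_pos hi, mem_DCh hi, ContinuousLinearMap.comp_apply, tw_tw]
      exact (exists_prj (isSys_gen G) (n - i)).choose_spec.2.1 _
    · rw [if_neg hi, mem_DCh_of_lt (not_le.1 hi)]
      rfl
  e_eq i f hf := by
    by_cases hi : i ≤ n
    · rw [mem_DCh hi] at hf
      rw [if_pos hi, ContinuousLinearMap.comp_apply, ContinuousLinearMap.comp_apply,
        (exists_prj (isSys_gen G) (n - i)).choose_spec.2.2 _ hf, tw_tw]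
    · rw [mem_DCh_of_lt (not_le.1 hi)] at hf
      rw [if_neg hi, hf, map_zero]
  d_mem i f hf := by
    by_cases hi : i + 1 ≤ n
    · rw [mem_DCh hi] at hf
      rw [mem_DCh (by omega), tw_dcob]
      have h1 := cobd_mem (r := r) (isSys_gen G) hf
      rwa [show n - (i + 1) + 1 = n - i by omega] at h1
    · rw [mem_DCh_of_lt (not_le.1 hi)] at hf
      rw [hf, map_zero]
      exact Submodule.zero_mem _
  d_d i f hf := by
    by_cases hi : i + 2 ≤ n
    · rw [mem_DCh hi] at hf
      rw [dcob_eq (dcob r G f), tw_dcob]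
      rw [cobd_cobd hr (isSys_gen G) hf, map_zero]
    · rw [mem_DCh_of_lt (not_le.1 hi)] at hf
      rw [hf, map_zero, map_zero]
  eps_d f hf hfs := by
    by_cases hi : 1 ≤ n
    · rw [mem_DCh hi] at hf
      exact eps_dcob_zero (h.exists_cyc hr).choose_spec.2 hf hfs
    · rw [mem_DCh_of_lt (not_le.1 hi)] at hf
      rw [hf, map_zero, eps_zero]
  surj := by
    obtain ⟨f0, h1, h2, h3, h4⟩ := exists_dcell h
    have h5 := h4 _ (h.exists_cyc hr).choose_spec.1
    refine ⟨(eps (h.exists_cyc hr).choose f0)⁻¹ • f0, Submodule.smul_mem _ _ ((mem_DCh (Nat.zero_le n)).2 h3),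
      h1.smul _, ?_⟩
    rw [eps_smul _ _ h1, inv_mul_cancel₀ h5]
  ex_zero f hf hfs h0 := by
    obtain ⟨f0, h1, h2, h3, h4⟩ := exists_dcell h
    have h5 := h4 _ (h.exists_cyc hr).choose_spec.1
    have hf' := (mem_DCh (Nat.zero_le n)).1 hf
    rw [Nat.sub_zero] at hf'
    obtain ⟨m, hm⟩ := hc_gen hr h (mem_ac_iff.2 ⟨hf', fs_tw _ hfs⟩)
    rw [← h2 m] at hm
    have h6 : (⇑(tw (sgW G) (f - m • f0)) : RACG G × Finset V → ℂ) ∈ AB ℂ G r (n - 0) := by
      rw [map_sub, Nat.sub_zero]
      exact hm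
    obtain ⟨g, hg, hgs, hgf⟩ := exists_of_AB (Nat.zero_le n) h6
    have h7 : eps (h.exists_cyc hr).choose (dcob r G g) = 0 := by
      by_cases hi : 1 ≤ n
      · exact eps_dcob_zero (h.exists_cyc hr).choose_spec.2 ((mem_DCh hi).1 hg) hgs
      · rw [(mem_DCh_of_lt (not_le.1 hi)).1 hg, map_zero, eps_zero]
    rw [hgf, eps_sub _ hfs (h1.smul _), h0, eps_smul _ _ h1, zero_sub, neg_eq_zero] at h7
    have h8 : m = 0 := (mul_eq_zero.1 h7).resolve_right h5
    refine ⟨g, hg, hgs, ?_⟩
    rw [hgf, h8, zero_smul, sub_zero]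
  ex_succ i f hf hfs h0 := by
    by_cases hi : i + 1 ≤ n
    · have hf' := (mem_DCh hi).1 hf
      refine exists_of_AB hi (hc_vanish hr h (by omega) (mem_ac_iff.2 ⟨hf', fs_tw _ hfs⟩) ?_)
      rw [← cobd_coe, ← tw_dcob, h0, map_zero]
      rfl
    · rw [mem_DCh_of_lt (not_le.1 hi)] at hf
      refine ⟨0, Submodule.zero_mem _, FS.zero, ?_⟩
      rw [hf, map_zero]

end dual

end Singer
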