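import Pool.Agent.Singer.TFinal
import Pool.Agent.Singer.DavisRes
import Pool.Agent.Singer.FinElem
import Pool.Agent.Singer.Links

/-!
# Singer: the reduced `ℓ²`-homology of the subgroups of finite index
-/

set_option autoImplicit false
set_option linter.unusedSectionVars false
set_option linter.unusedVariables false

namespace Singer

universe u

/-- from the Davis complex to the resolution -/
theorem davisResC_le {V : Type u} [Fintype V] [DecidableEq V] {G : SimpleGraph V} {r : V → ℕ}
    (hr : Function.Injective r) {i : ℕ}
    (h : Cy r G (Racg.gen G) Finset.univ i ≤ Bd r G (Racg.gen G) Finset.univ i) :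
    (davisResC G hr).Z i ≤ (davisResC G hr).B i := by
  cases i with
  | zero =>
    rw [Cy_zero] at h
    exact h
  | succ i => exact h

/-- the reduced `ℓ²`-homology of a subgroup of finite index, computed with an arbitrary resolution -/
theorem vanE_of_good {n : ℕ} {V : Type u} [Fintype V] {G : SimpleGraph V} (h : Good n G) {H : Subgroup (RACG G)}
    (hi : H.FiniteIndex) (F : FinRes H) {i : ℕ} (hn : 2 * i ≠ n) : F.VanE i := by
  classical
  have hr : Function.Injective (rk : V → ℕ) := fun a b hab =>
    (Fintype.equivFin V).injective (Fin.ext hab)
  rw [← FinRes.van_iff_vanE]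
  refine Res.van_of_index (davisResC G hr) H hi F i (davisResC_le hr ?_)
  exact Cy_le_Bd_of_bn _ _ _ hr (good_bet h i hn)

end Singer
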