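import Pool.Agent.Singer.Stmt2
import Pool.Agent.Singer.TVan
import Pool.Agent.Singer.DualAsm

/-!
# Comparison of the definitions of `Stmt2.lean` with those of the library
-/

set_option autoImplicit false
set_option linter.unusedSectionVars false
set_option linter.unusedVariables false

namespace SingerPD

open Singer

variable {V : Type} (G : SimpleGraph V)

lemma rels_eq : rels G = racgRels G := rfl

lemma link_eq (v : V) : link G v = lk G v := rfl

lemma conef_eq (K B : Finset V) : conef G K B = cap G K B := by
  ext x y
  rcases x with _ | x <;> rcases y with _ | y <;> exact Iff.rfl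

lemma susp_eq : SingerPD.susp G = Singer.susp G := by
  ext x y
  constructor
  · rintro (⟨u, v, rfl, rfl, h⟩ | h)
    · exact h
    · rcases x with x | x <;> rcases y with y | y
      · exact absurd rfl h
      · exact trivial
      · exact trivial
      · exact absurd rfl h
  · intro h
    rcases x with x | x <;> rcases y with y | y
    · exact Or.inl ⟨x, y, rfl, rfl, h⟩
    · exact Or.inr (by simp)
    · exact Or.inr (by simp)
    · exact absurd h id

lemma subd_eq (a b : V) : SingerPD.subd G a b = Singer.subd G a b := by
  ext x y
  rcases x with _ | x <;> rcases y with _ | y <;> exact Iff.rfl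

variable {G}

lemma sphQ_of_sphereCond {n : ℕ} (h : SphereCond G) : SphQ n G := by
  intro _
  refine ⟨h.1, fun σ h1 h2 r hr => ?_⟩
  intro c hc hd
  have hcob : ∀ (c : Finset V → ℤ) (T : Finset V), cob r c T =
      @dl V (fun a b => Classical.propDecidable (a = b)) ℤ _ r c T := by
    intro c T
    unfold cob dl
    refine Finset.sum_congr rfl fun v _ => ?_
    rw [smul_eq_mul]
    unfold sgz
    congr!
  obtain ⟨e, he1, he2⟩ := h.2 σ h1 h2 r hr c (fun S hS => hc S fun h3 => hS h3) (fun T hT => by
    rw [hcob]
    exact hd T hT)
  exact ⟨e, fun S hS => he1 S fun h3 => hS h3, fun T hT => by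
    rw [← hcob]
    exact he2 T hT⟩

theorem Cls.toClsE {n : ℕ} {V : Type} {G : SimpleGraph V} (h : SingerPD.Cls n G) : ClsE SphQ.{0} n G := by
  induction h with
  | empty h G => exact .empty h G
  | susp h ih => rw [susp_eq]; exact .susp ih
  | subd h hab ih => rw [subd_eq]; exact .subd ih hab
  | glue hcov hB hno h1 h2 ih1 ih2 =>
    rw [conef_eq] at ih1 ih2
    exact .glue hcov hB hno ih1 ih2
  | split hpq hK hB hsq h1 h2 h3 ih1 ih2 ih3 =>
    rw [conef_eq] at ih1
    exact .split hpq hK hB hsq ih1 ih2 ih3
  | even hn hf hS h1 ih1 => exact .even hn hf (sphQ_of_sphereCond hS) ih1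
  | iso h e ih => exact .iso ih e

end SingerPD
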