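import Pool.Agent.Singer.Stmt3
import Pool.Agent.Singer.Stmt2Conv
import Pool.Agent.Singer.Cube.OmConv
import Pool.Agent.Singer.Links

/-!
# Comparison of the definitions of `Stmt3.lean` with those of the library
-/

set_option autoImplicit false
set_option linter.unusedSectionVars false
set_option linter.unusedVariables false

namespace SingerCube

open SingerPD Singer

lemma goodQ_of_hsphere {n : ℕ} {V : Type} [Fintype V] {G : SimpleGraph V} (h : HSphere n G) :
    GoodQ (fun n {V} [Fintype V] (G : SimpleGraph V) => QS.{0} n G) n G := by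
  induction n generalizing V with
  | zero => exact h
  | succ n ih =>
    classical
    refine ⟨sphQ_of_sphereCond h.2.1, fun v => ih ?_⟩
    exact h.2.2 v

/-- the comparison, given the result on spheres of small dimension -/
theorem Cls.toClsE' (hlow : ∀ (n : ℕ) (V : Type) [Fintype V] (G : SimpleGraph V), n ≤ 4 →
      GoodQ (fun n {V} [Fintype V] (G : SimpleGraph V) => QS.{0} n G) n G → ClsE SphQ.{0} n G)
    {n : ℕ} {V : Type} {G : SimpleGraph V} (h : SingerCube.Cls n G) : ClsE SphQ.{0} n G := by
  induction h with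
  | @low n V G hn h =>
    cases n with
    | zero => exact .empty h G
    | succ n =>
      have : Finite V := h.1
      have : Fintype V := Fintype.ofFinite V
      exact hlow _ V G hn (goodQ_of_hsphere h)
  | susp h ih => rw [susp_eq]; exact .susp ih
  | subd h hab ih => rw [subd_eq]; exact .subd ih hab
  | glue hcov hB hno h1 h2 ih1 ih2 =>
    rw [conef_eq] at ih1 ih2
    exact .glue hcov hB hno ih1 ih2
  | split hpq hK hB hsq h1 h2 h3 ih1 ih2 ih3 =>
    rw [conef_eq] at ih1
    exact .split hpq hK hB hsq ih1 ih2 ih3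
  | even hn hf hS h1 ih1 => exact .even hn hf (sphQ_of_sphereCond hS) ih1
  | iso h e ih => exact .iso ih e

section om
variable {V : Type} {G : SimpleGraph V} {Ω : Set (Cox G)}

lemma Convex.lc (h : Convex Ω) : Om.LC (G := G) Ω := ⟨h.one, h.conn, h.sq⟩

lemma clsE_dir [Fintype V] {S : ∀ (_ : ℕ) {V : Type}, SimpleGraph V → Prop} {n : ℕ} {w : Cox G}
    (h : ClsE S n (star Ω w)) : ClsE S n (Singer.res G (Om.dir (G := G) Ω w)) := by
  refine h.iso (⟨Equiv.subtypeEquivRight fun v => (Om.mem_dir (G := G) (Ω := Ω) (w := w)).symm, ?_⟩)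
  intro a b
  exact Iff.rfl

end om

end SingerCube
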