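import Pool.Agent.Singer.Stmt5
import Pool.Agent.Singer.Stmt4Conv
import Pool.Agent.Singer.Hr.Main
import Pool.Agent.Singer.Arr

/-!
# Singer: the class of `Stmt5.lean` and the vanishing
-/

set_option autoImplicit false
set_option linter.unusedSectionVars false
set_option linter.unusedVariables false

namespace SingerFold

open SingerPD SingerCube Singer

/-- hereditary properties of the class -/
theorem Cls.goodQ {Q : ℕ → ∀ {V : Type} [Fintype V], SimpleGraph V → Prop} (hQ : Closed Q)
    (hb : ∀ {n : ℕ} {V : Type} [Fintype V] {G : SimpleGraph V}, GoodQ (fun n {V} [Fintype V] (G : SimpleGraph V) =>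
      QS.{0} n G) n G → GoodQ Singer.VanQ n G → GoodQ Q n G)
    (hE : ∀ {n : ℕ} {V : Type} [Fintype V] {G : SimpleGraph V} [DecidableRel G.Adj], Odd n → SphereCond G →
      (∀ v : V, SingerFold.Cls n (lk G v)) → (∀ v : V, GoodQ Q n (lk G v)) → Q (n + 1) G)
    {n : ℕ} {V : Type} {G : SimpleGraph V} (h : SingerFold.Cls n G) : ∀ [Fintype V], GoodQ Q n G := by
  classical
  induction h with
  | @low n V G hn h =>
    intro I
    have h1 := goodQ_of_hsphere h
    exact hb h1 (good_iff_goodQ.1 (good_of_clsE_sph (clsE_low hn h1)))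
  | @ord n V P G hG h =>
    intro I
    obtain rfl : G = Ord.Cmp := by
      ext a b
      exact hG a b
    have h1 := goodQ_of_hsphere h
    exact hb h1 (Ord.ord_goodQ h1)
  | @fold n p V G c f h h1 h2 =>
    intro I
    have h3 := goodQ_of_hsphere h
    exact hb h3 (Hr.goodQ_of_cf h3 (Hr.cf_of_sums h1 h2))
  | @arr n m V G c H h h1 =>
    intro I
    have h3 := goodQ_of_hsphere h
    obtain ⟨c', f, h4, h5⟩ := fold_of_arr c H h1
    exact hb h3 (Hr.goodQ_of_cf h3 (Hr.cf_of_sums h4 h5))
  | @susp n V G h ih =>
    intro I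
    rw [susp_eq]
    have : Finite V := Finite.of_injective (Sum.inl : V → V ⊕ Bool) Sum.inl_injective
    have J : Fintype V := Fintype.ofFinite V
    exact goodQ_inst (goodQ_susp hQ ih)
  | @subd n V G a b h hab ih =>
    intro I
    rw [subd_eq]
    have : Finite V := Finite.of_injective (some : V → Option V) (Option.some_injective _)
    have J : Fintype V := Fintype.ofFinite V
    exact goodQ_inst (goodQ_subd hQ hab ih)
  | glue hcov hB hno h1 h2 ih1 ih2 =>
    intro I
    rw [conef_eq] at ih1 ih2
    exact goodQ_glue hQ hcov hB hno ih1 ih2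
  | split hpq hK hB hsq h1 h2 h3 ih1 ih2 ih3 =>
    intro I
    rw [conef_eq] at ih1
    exact goodQ_split hQ hpq hK hB hsq ih1 ih2 ih3
  | @even n V G hn hV hG h ih =>
    intro I
    rw [goodQ_succ_iff]
    exact ⟨hE hn hG h fun v => ih v, fun v => ih v⟩
  | @iso n V W G H h e ih =>
    intro I
    have : Finite V := Finite.of_equiv W e.symm.toEquiv
    have J : Fintype V := Fintype.ofFinite V
    exact goodQ_iso hQ e ih

theorem Cls.goodQ_QS {n : ℕ} {V : Type} {G : SimpleGraph V} (h : SingerFold.Cls n G) [Fintype V] :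
    GoodQ (fun n {V} [Fintype V] (G : SimpleGraph V) => QS.{0} n G) n G :=
  Cls.goodQ closed_QS (fun h _ => h) (fun {n V _ G _} hn hG _ _ => @sphQ_of_sphereCond V G (n + 1) hG _) h

theorem Cls.finite {n : ℕ} {V : Type} {G : SimpleGraph V} (h : SingerFold.Cls n G) : Finite V := by
  induction h with
  | @low n V G hn h =>
    cases n with
    | zero => exact @Finite.of_subsingleton _ (@IsEmpty.instSubsingleton _ h)
    | succ n => exact h.1
  | @ord n V P G hG h =>
    cases n with
    | zero => exact @Finite.of_subsingleton _ (@IsEmpty.instSubsingleton _ h)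
    | succ n => exact h.1
  | @fold n p V G c f h h1 h2 =>
    cases n with
    | zero => exact @Finite.of_subsingleton _ (@IsEmpty.instSubsingleton _ h)
    | succ n => exact h.1
  | @arr n m V G c H h h1 =>
    cases n with
    | zero => exact @Finite.of_subsingleton _ (@IsEmpty.instSubsingleton _ h)
    | succ n => exact h.1
  | susp h ih => exact inferInstance
  | subd h hab ih => exact inferInstance
  | @glue n V G K K' B hcov hB hno h1 h2 ih1 ih2 =>
    have h3 : (Set.univ : Set V) ⊆ (K : Set V) ∪ (K' : Set V) := fun v _ => by simpa using hcov v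
    exact Set.finite_univ_iff.1 ((K.finite_toSet.union K'.finite_toSet).subset h3)
  | @split n V G p q K B hpq hK hB hsq h1 h2 h3 ih1 ih2 ih3 =>
    classical
    have h3 : (Set.univ : Set V) ⊆ (insert p (insert q K) : Finset V) := fun v _ => by
      by_cases h1 : v = p
      · simp [h1]
      · by_cases h2 : v = q
        · simp [h2]
        · have := (hK v).2 ⟨h1, h2⟩
          simp [this]
    exact Set.finite_univ_iff.1 ((Finset.finite_toSet _).subset h3)
  | even hn hV hG h ih => exact hV
  | iso h e ih => exact Finite.of_equiv _ e.toEquiv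

/-- **hereditary vanishing for the class** -/
theorem Cls.good {n : ℕ} {V : Type} {G : SimpleGraph V} (h : SingerFold.Cls n G) [Fintype V] : Good n G := by
  refine good_iff_goodQ.2 (Cls.goodQ closed_vanQ (fun _ h => h) ?_ h)
  intro n V I G _ hn hG hl h1
  classical
  refine vanQ_even hn ?_ h1
  intro _ i hi h0
  have h2 : SingerFold.Cls (n + 1) G := .even hn inferInstance hG hl
  obtain ⟨τ, hτ⟩ := exists_facet h2.goodQ_QS
  exact bet_dual' (hτ rk rk_inj).of_int hi h0

end SingerFold
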