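import Pool.Agent.Singer.TVan
import Pool.Agent.Singer.DualAsm

/-!
# Singer: the conclusion for the subgroups of finite index
-/

set_option autoImplicit false
set_option linter.unusedSectionVars false
set_option linter.unusedVariables false

namespace Singer

universe u

/-- **Main theorem** (library form): for a graph of the class, the subgroups of finite index without involutions are
Poincare duality groups of dimension `n` of type FL, and their reduced `ℓ²`-homology vanishes in the degrees `i` with
`2 * i ≠ n` -/
theorem concl_of_clsE {n : ℕ} {V : Type u} [Finite V] {G : SimpleGraph V} (h : ClsE SphQ.{u} n G) :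
    (∃ H : Subgroup (RACG G), H.FiniteIndex ∧ NoInv H) ∧
    ∀ H : Subgroup (RACG G), H.FiniteIndex → NoInv H →
      IsPD n H ∧ (∃ R : FinRes H, ∃ N, ∀ i, N < i → IsEmpty (R.ι i)) ∧
      ∀ (R : FinRes H) (i : ℕ), 2 * i ≠ n → R.VanE i := by
  classical
  have : Fintype V := Fintype.ofFinite V
  refine ⟨⟨ker2 G, finiteIndex_ker2 G, noInv_ker2 G⟩, fun H hi hH => ⟨isPD_of_goodQ h.goodQ_QS hi hH, ?_,
    fun R i hn => vanE_of_good (good_of_clsE_sph h) hi R hn⟩⟩
  obtain ⟨R, hR⟩ := exists_finRes_of_noInv hi hH
  exact ⟨R, _, hR⟩

end Singer
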