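import Mathlib

/-!
# Resolutions by finitely generated free modules over `ℤ[Γ]` and `ℓ²`-homology, in elementary terms

`FinRes Γ`: a resolution of the trivial module `ℤ` by finitely generated free left `ℤ[Γ]`-modules (matrices over the
group ring which act on rows from the right).  `FinRes.VanE i`: the reduced `ℓ²`-homology of `Γ` in degree `i`,
computed with the resolution, vanishes: every square-summable cycle is a limit of boundaries of square-summable chains.
-/

set_option autoImplicit false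

open scoped Matrix

namespace Singer

/-- the augmentation `ℤ[Γ]^ι → ℤ` with values `w` on the basis -/
noncomputable def augw {Γ ι : Type*} [Fintype ι] (w : ι → ℤ) (x : ι → MonoidAlgebra ℤ Γ) : ℤ :=
  ∑ i, w i * ∑ g ∈ (x i).coeff.support, (x i).coeff g

/-- a resolution `⋯ → ℤ[Γ]^(ι 2) → ℤ[Γ]^(ι 1) → ℤ[Γ]^(ι 0) → ℤ → 0` of the trivial module `ℤ` by finitely generated
free left modules over the group ring `ℤ[Γ]`; the boundary maps are given by matrices which act on rows from the right,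
the augmentation by its values `w` on the basis of `ℤ[Γ]^(ι 0)`. -/
structure FinRes (Γ : Type*) [Group Γ] where
  ι : ℕ → Type
  ft : ∀ i, Fintype (ι i)
  d : ∀ i, Matrix (ι (i + 1)) (ι i) (MonoidAlgebra ℤ Γ)
  w : ι 0 → ℤ
  surj : ∃ x : ι 0 → MonoidAlgebra ℤ Γ, augw w x = 1
  exact_zero : ∀ x : ι 0 → MonoidAlgebra ℤ Γ, augw w x = 0 ↔ ∃ y, y ᵥ* d 0 = x
  exact_succ : ∀ i, ∀ x : ι (i + 1) → MonoidAlgebra ℤ Γ, x ᵥ* d i = 0 ↔ ∃ y, y ᵥ* d (i + 1) = x

attribute [instance] FinRes.ft

/-- the product `x M` of a row `x` of complex functions on `Γ` with a matrix `M` over the group ring: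
`(x M) l g = ∑ i, ∑ h, M i l (h) * x i (g * h⁻¹)` -/
noncomputable def rmul {Γ ι κ : Type*} [Group Γ] [Fintype ι] (x : ι → Γ → ℂ) (M : Matrix ι κ (MonoidAlgebra ℤ Γ))
    (l : κ) (g : Γ) : ℂ :=
  ∑ i, ∑ h ∈ (M i l).coeff.support, ((M i l).coeff h : ℂ) * x i (g * h⁻¹)

/-- a row of square-summable functions on `Γ` -/
def SqS {Γ ι : Type*} (x : ι → Γ → ℂ) : Prop := ∀ j, Summable fun g => ‖x j g‖ ^ 2

namespace FinRes
variable {Γ : Type*} [Group Γ]

/-- cycles -/
def Cyc (R : FinRes Γ) : ∀ i : ℕ, (R.ι i → Γ → ℂ) → Prop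
  | 0, _ => True
  | i + 1, x => ∀ l g, rmul x (R.d i) l g = 0

/-- the reduced `ℓ²`-homology in degree `i`, computed with the resolution, vanishes: for every square-summable cycle `x`
and every `ε > 0` there is a square-summable chain `y` with `‖x - y * d i‖ ^ 2 < ε` (all partial sums of the squares) -/
def VanE (R : FinRes Γ) (i : ℕ) : Prop :=
  ∀ x : R.ι i → Γ → ℂ, SqS x → R.Cyc i x → ∀ ε : ℝ, 0 < ε →
    ∃ y : R.ι (i + 1) → Γ → ℂ, SqS y ∧ ∀ S : Finset Γ, ∑ g ∈ S, ∑ j, ‖x j g - rmul y (R.d i) j g‖ ^ 2 < ε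

end FinRes

end Singer
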