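import Pool.Agent.Singer.TDefs

/-!
# Singer: acyclic families of finite sets

Rules for `Acy M r D` (the complex of the cochains which are zero outside of `D` is exact): cones, additivity in
decompositions, shifts, images, change of the coefficients.
-/

set_option autoImplicit false
set_option linter.unusedSectionVars false
set_option linter.unusedVariables false

namespace Singer

section fam
variable {V V' : Type*} [DecidableEq V] [DecidableEq V'] {M : Type*} [AddCommGroup M] {r : V → ℕ}

lemma sgz_sq (v : V) (T : Finset V) : sgz r v T * sgz r v T = 1 := by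
  unfold sgz
  rw [← pow_add]
  exact Even.neg_one_pow ⟨_, rfl⟩

lemma sgz_insert {u v : V} {T : Finset V} (hu : u ∉ T) :
    sgz r v (insert u T) = (if r u < r v then -1 else 1) * sgz r v T := by
  unfold sgz
  rw [Finset.filter_insert]
  split_ifs with h
  · rw [Finset.card_insert_of_notMem (fun h1 => hu (Finset.mem_filter.1 h1).1), pow_succ]
    ring
  · rw [one_mul]

theorem sgz_anti (hr : Function.Injective r) {u v : V} {T : Finset V} (hu : u ∉ T) (hv : v ∉ T) (huv : u ≠ v) :
    sgz r u T * sgz r v (insert u T) = -(sgz r v T * sgz r u (insert v T)) := by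
  rw [sgz_insert hu, sgz_insert hv]
  rcases lt_trichotomy (r u) (r v) with h | h | h
  · rw [if_pos h, if_neg (by omega)]
    ring
  · exact absurd (hr h) huv
  · rw [if_neg (by omega), if_pos h]
    ring

lemma dl_add (c c' : Finset V → M) (T : Finset V) : dl r (fun S => c S + c' S) T = dl r c T + dl r c' T := by
  unfold dl
  rw [← Finset.sum_add_distrib]
  exact Finset.sum_congr rfl fun v _ => smul_add _ _ _

lemma dl_sub (c c' : Finset V → M) (T : Finset V) : dl r (fun S => c S - c' S) T = dl r c T - dl r c' T := by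
  unfold dl
  rw [← Finset.sum_sub_distrib]
  exact Finset.sum_congr rfl fun v _ => smul_sub _ _ _

/-- the coboundary at `T` depends only on the values at the proper subsets -/
lemma dl_congr {c c' : Finset V → M} {T : Finset V} (h : ∀ S, S ⊆ T → S ≠ T → c S = c' S) : dl r c T = dl r c' T := by
  unfold dl
  refine Finset.sum_congr rfl fun v hv => ?_
  rw [h _ (Finset.erase_subset _ _) fun h1 => ?_]
  have := h1 ▸ hv
  exact Finset.notMem_erase v T this

lemma dl_eq_zero {c : Finset V → M} {T : Finset V} (h : ∀ S, S ⊆ T → S ≠ T → c S = 0) : dl r c T = 0 := by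
  have h1 : dl r c T = dl r (fun _ => (0 : M)) T := dl_congr h
  rw [h1]
  unfold dl
  simp

theorem dl_dl (hr : Function.Injective r) (c : Finset V → M) (T : Finset V) : dl r (dl r c) T = 0 := by
  have h1 : dl r (dl r c) T = ∑ x ∈ T.offDiag,
      (sgz r x.1 (T.erase x.1) * sgz r x.2 ((T.erase x.1).erase x.2)) • c ((T.erase x.1).erase x.2) := by
    have h2 : T.offDiag.sum (fun x => (sgz r x.1 (T.erase x.1) * sgz r x.2 ((T.erase x.1).erase x.2)) •
        c ((T.erase x.1).erase x.2)) = (T.sigma fun v => T.erase v).sum (fun x =>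
          (sgz r x.1 (T.erase x.1) * sgz r x.2 ((T.erase x.1).erase x.2)) • c ((T.erase x.1).erase x.2)) := by
      refine Finset.sum_bij' (fun x _ => (⟨x.1, x.2⟩ : Σ _ : V, V)) (fun x _ => (x.1, x.2)) ?_ ?_ ?_ ?_ ?_
      · rintro ⟨a, b⟩ h
        rw [Finset.mem_offDiag] at h
        exact Finset.mem_sigma.2 ⟨h.1, Finset.mem_erase.2 ⟨fun h1 => h.2.2 h1.symm, h.2.1⟩⟩
      · rintro ⟨a, b⟩ h
        have h3 := Finset.mem_sigma.1 h
        have h4 := Finset.mem_erase.1 h3.2
        exact Finset.mem_offDiag.2 ⟨h3.1, h4.2, fun h1 => h4.1 h1.symm⟩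
      · intro _ _
        rfl
      · intro _ _
        rfl
      · intro _ _
        rfl
    rw [h2, Finset.sum_sigma]
    unfold dl
    refine Finset.sum_congr rfl fun v _ => ?_
    rw [Finset.smul_sum]
    refine Finset.sum_congr rfl fun u _ => ?_
    rw [mul_smul]
  rw [h1]
  refine Finset.sum_involution (fun x _ => (x.2, x.1)) ?_ ?_ ?_ ?_
  · rintro ⟨u, v⟩ h
    obtain ⟨hu, hv, huv⟩ := Finset.mem_offDiag.1 h
    dsimp only at hu hv huv ⊢
    rw [Finset.erase_right_comm (a := v) (b := u), ← add_smul]
    have e1 : T.erase v = insert u ((T.erase u).erase v) := by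
      rw [Finset.erase_right_comm, Finset.insert_erase (Finset.mem_erase.2 ⟨huv, hu⟩)]
    have e2 : T.erase u = insert v ((T.erase u).erase v) :=
      (Finset.insert_erase (Finset.mem_erase.2 ⟨fun h1 => huv h1.symm, hv⟩)).symm
    have h3 := sgz_anti (r := r) hr (u := u) (v := v) (T := (T.erase u).erase v)
      (fun h4 => Finset.notMem_erase u T (Finset.mem_of_mem_erase h4)) (Finset.notMem_erase _ _) huv
    rw [← e1, ← e2] at h3
    have h4 : sgz r u (T.erase u) * sgz r v ((T.erase u).erase v) +
        sgz r v (T.erase v) * sgz r u ((T.erase u).erase v) = 0 := by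
      linarith
    rw [h4, zero_smul]
  · rintro ⟨u, v⟩ h _ h1
    exact (Finset.mem_offDiag.1 h).2.2 (congrArg Prod.snd h1)
  · rintro ⟨u, v⟩ h
    obtain ⟨hu, hv, huv⟩ := Finset.mem_offDiag.1 h
    exact Finset.mem_offDiag.2 ⟨hv, hu, fun h1 => huv h1.symm⟩
  · intro _ _
    rfl

theorem acy_empty : Acy M r (∅ : Set (Finset V)) :=
  fun _ _ _ => ⟨fun _ => 0, fun _ _ => rfl, fun _ hT => absurd hT (Set.notMem_empty _)⟩

lemma dl_insert {v : V} {T : Finset V} (hv : v ∉ T) (c : Finset V → M) :
    dl r c (insert v T) = sgz r v T • c T + ∑ u ∈ T, sgz r u (insert v (T.erase u)) • c (insert v (T.erase u)) := by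
  unfold dl
  rw [Finset.sum_insert hv, Finset.erase_insert hv]
  congr 1
  refine Finset.sum_congr rfl fun u hu => ?_
  have hne : v ≠ u := by
    rintro rfl
    exact hv hu
  rw [Finset.erase_insert_of_ne hne]

theorem acy_cone (hr : Function.Injective r) {D : Set (Finset V)} (v : V)
    (h : ∀ S, v ∉ S → (S ∈ D ↔ insert v S ∈ D)) : Acy M r D := by
  intro c hc hd
  refine ⟨fun S => if v ∈ S then 0 else sgz r v S • c (insert v S), fun S hS => ?_, fun T hT => ?_⟩
  · dsimp only
    by_cases hv : v ∈ S
    · rw [if_pos hv]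
    · rw [if_neg hv, hc _ (fun h1 => hS ((h S hv).2 h1)), smul_zero]
  · by_cases hv : v ∈ T
    · unfold dl
      rw [Finset.sum_eq_single_of_mem v hv]
      · dsimp only
        rw [if_neg (Finset.notMem_erase v T), Finset.insert_erase hv, ← mul_smul, sgz_sq, one_smul]
      · intro u hu huv
        dsimp only
        rw [if_pos (Finset.mem_erase.2 ⟨fun h1 => huv h1.symm, hv⟩), smul_zero]
    · have h1 := hd _ ((h T hv).1 hT)
      rw [dl_insert hv] at h1
      have h2 : dl r (fun S => if v ∈ S then 0 else sgz r v S • c (insert v S)) T =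
          -(sgz r v T • ∑ u ∈ T, sgz r u (insert v (T.erase u)) • c (insert v (T.erase u))) := by
        unfold dl
        rw [Finset.smul_sum, ← Finset.sum_neg_distrib]
        refine Finset.sum_congr rfl fun u hu => ?_
        have hne : u ≠ v := by
          rintro rfl
          exact hv hu
        dsimp only
        rw [if_neg (fun h2 => hv (Finset.mem_of_mem_erase h2)), ← mul_smul, ← mul_smul, ← neg_smul]
        congr 1
        have h3 := sgz_anti (r := r) hr (u := u) (v := v) (T := T.erase u) (Finset.notMem_erase _ _)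
          (fun h2 => hv (Finset.mem_of_mem_erase h2)) hne
        rw [Finset.insert_erase hu] at h3
        have h4 := sgz_sq (r := r) v T
        have h5 := sgz_sq (r := r) v (T.erase u)
        calc sgz r u (T.erase u) * sgz r v (T.erase u)
            = (sgz r v T * sgz r v T) * (sgz r u (T.erase u) * sgz r v (T.erase u)) := by rw [h4, one_mul]
          _ = (sgz r u (T.erase u) * sgz r v T) * (sgz r v T * sgz r v (T.erase u)) := by ring
          _ = -(sgz r v (T.erase u) * sgz r v (T.erase u)) * (sgz r v T * sgz r u (insert v (T.erase u))) := by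
              rw [h3]
              ring
          _ = -(sgz r v T * sgz r u (insert v (T.erase u))) := by rw [h5]; ring
      have h6 : ∑ u ∈ T, sgz r u (insert v (T.erase u)) • c (insert v (T.erase u)) = -(sgz r v T • c T) :=
        eq_neg_of_add_eq_zero_right h1
      rw [h2, h6, smul_neg, neg_neg, ← mul_smul, sgz_sq, one_smul]

/-! ### decompositions -/

open Classical in
/-- restriction to a family -/
noncomputable def rst (D : Set (Finset V)) (c : Finset V → M) (S : Finset V) : M := if S ∈ D then c S else 0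

lemma rst_mem {D : Set (Finset V)} {c : Finset V → M} {S : Finset V} (h : S ∈ D) : rst D c S = c S := if_pos h

lemma rst_not {D : Set (Finset V)} {c : Finset V → M} {S : Finset V} (h : S ∉ D) : rst D c S = 0 := if_neg h

/-- in a convex family the square of the coboundary is zero -/
lemma dl_rst_dl (hr : Function.Injective r) {D : Set (Finset V)} (hD : Cvx D) {c : Finset V → M}
    (hc : ∀ S, S ∉ D → c S = 0) {T : Finset V} (hT : T ∈ D) : dl r (rst D (dl r c)) T = 0 := by
  rw [← dl_dl hr c T]
  refine dl_congr fun S hS _ => ?_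
  by_cases h : S ∈ D
  · exact rst_mem h
  · rw [rst_not h]
    exact (dl_eq_zero fun R hR _ => hc R fun h1 => h (hD R h1 T hT S hR hS)).symm

namespace Dec

variable {D D₁ D₂ : Set (Finset V)}

lemma not_two (h : Dec D D₁ D₂) {S : Finset V} (h1 : S ∈ D₁) : S ∉ D₂ := fun h2 => h.low S h1 S h2 (Finset.Subset.refl S)

lemma dl_low (h : Dec D D₁ D₂) {c : Finset V → M} (hc : ∀ S, S ∉ D₂ → c S = 0) {T : Finset V} (hT : T ∈ D₁) :
    dl r c T = 0 := dl_eq_zero fun S hS _ => hc S fun h1 => h.low T hT S h1 hS

lemma dl_rst (h : Dec D D₁ D₂) {c : Finset V → M} (hc : ∀ S, S ∉ D → c S = 0) {T : Finset V} (hT : T ∈ D₁) :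
    dl r (rst D₁ c) T = dl r c T := by
  refine dl_congr fun S hS _ => ?_
  by_cases h1 : S ∈ D₁
  · exact rst_mem h1
  · rw [rst_not h1, hc S fun h2 => ?_]
    rcases (h.mem S).1 h2 with h3 | h3
    · exact h1 h3
    · exact h.low T hT S h3 hS

end Dec

theorem acy_add (hr : Function.Injective r) {D D₁ D₂ : Set (Finset V)} (h : Dec D D₁ D₂) (h1 : Acy M r D₁)
    (h2 : Acy M r D₂) : Acy M r D := by
  intro c hc hd
  obtain ⟨e, he, hde⟩ := h1 (rst D₁ c) (fun S hS => rst_not hS) fun T hT => by
    rw [h.dl_rst hc hT]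
    exact hd T ((h.mem T).2 (Or.inl hT))
  have he' : ∀ S, S ∉ D → e S = 0 := fun S hS => he S fun h3 => hS ((h.mem S).2 (Or.inl h3))
  obtain ⟨f, hf, hdf⟩ := h2 (fun S => c S - rst D (dl r e) S) (fun S hS => by
      by_cases h3 : S ∈ D
      · have h4 : S ∈ D₁ := ((h.mem S).1 h3).resolve_right hS
        rw [rst_mem h3, hde S h4, rst_mem h4, sub_self]
      · rw [rst_not h3, hc S h3, sub_zero]) fun T hT => by
    have h3 : T ∈ D := (h.mem T).2 (Or.inr hT)
    rw [dl_sub, hd T h3, dl_rst_dl hr h.cvx he' h3, sub_zero]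
  refine ⟨fun S => e S + f S, fun S hS => ?_, fun T hT => ?_⟩
  · dsimp only
    rw [he' S hS, hf S fun h3 => hS ((h.mem S).2 (Or.inr h3)), add_zero]
  · rw [dl_add]
    rcases (h.mem T).1 hT with h3 | h3
    · rw [hde T h3, rst_mem h3, h.dl_low hf h3, add_zero]
    · rw [hdf T h3, rst_mem hT]
      abel

theorem acy_low (hr : Function.Injective r) {D D₁ D₂ : Set (Finset V)} (h : Dec D D₁ D₂) (h0 : Acy M r D)
    (h2 : Acy M r D₂) : Acy M r D₁ := by
  intro c hc hd
  have hc' : ∀ S, S ∉ D → c S = 0 := fun S hS => hc S fun h3 => hS ((h.mem S).2 (Or.inl h3))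
  have hb : ∀ S, S ∉ D₂ → rst D (dl r c) S = 0 := fun S hS => by
    by_cases h3 : S ∈ D
    · rw [rst_mem h3]
      exact hd S (((h.mem S).1 h3).resolve_right hS)
    · exact rst_not h3
  obtain ⟨f, hf, hdf⟩ := h2 (rst D (dl r c)) hb fun T hT => dl_rst_dl hr h.cvx hc' ((h.mem T).2 (Or.inr hT))
  obtain ⟨e, he, hde⟩ := h0 (fun S => c S - f S) (fun S hS => by
      rw [hc' S hS, hf S fun h3 => hS ((h.mem S).2 (Or.inr h3)), sub_zero]) fun T hT => by
    rw [dl_sub]
    rcases (h.mem T).1 hT with h3 | h3
    · rw [hd T h3, h.dl_low hf h3, sub_zero]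
    · rw [hdf T h3, rst_mem hT, sub_self]
  refine ⟨rst D₁ e, fun S hS => rst_not hS, fun T hT => ?_⟩
  rw [h.dl_rst he hT, hde T ((h.mem T).2 (Or.inl hT)), hf T (h.not_two hT), sub_zero]

theorem acy_high (hr : Function.Injective r) {D D₁ D₂ : Set (Finset V)} (h : Dec D D₁ D₂) (h0 : Acy M r D)
    (h1 : Acy M r D₁) : Acy M r D₂ := by
  intro c hc hd
  have hc' : ∀ S, S ∉ D → c S = 0 := fun S hS => hc S fun h3 => hS ((h.mem S).2 (Or.inr h3))
  obtain ⟨e, he, hde⟩ := h0 c hc' fun T hT => by
    rcases (h.mem T).1 hT with h3 | h3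
    · exact h.dl_low hc h3
    · exact hd T h3
  obtain ⟨f, hf, hdf⟩ := h1 (rst D₁ e) (fun S hS => rst_not hS) fun T hT => by
    rw [h.dl_rst he hT, hde T ((h.mem T).2 (Or.inl hT)), hc T (h.not_two hT)]
  have hf' : ∀ S, S ∉ D → f S = 0 := fun S hS => hf S fun h3 => hS ((h.mem S).2 (Or.inl h3))
  refine ⟨fun S => e S - rst D (dl r f) S, fun S hS => ?_, fun T hT => ?_⟩
  · dsimp only
    by_cases h3 : S ∈ D
    · have h4 : S ∈ D₁ := ((h.mem S).1 h3).resolve_right hS
      rw [rst_mem h3, hdf S h4, rst_mem h4, sub_self]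
    · rw [rst_not h3, he S h3, sub_zero]
  · have h3 : T ∈ D := (h.mem T).2 (Or.inr hT)
    rw [dl_sub, hde T h3, dl_rst_dl hr h.cvx hf' h3, sub_zero]

/-! ### shifts -/

/-- the gauge of the shift by `v` -/
def gau (r : V → ℕ) (v : V) (S : Finset V) : ℤ := (-1) ^ (S.filter fun t => r v < r t).card

lemma gau_sq (v : V) (S : Finset V) : gau r v S * gau r v S = 1 := by
  unfold gau
  rw [← pow_add]
  exact Even.neg_one_pow ⟨_, rfl⟩

lemma gau_insert {u v : V} {T : Finset V} (hu : u ∉ T) :
    gau r v (insert u T) = (if r v < r u then -1 else 1) * gau r v T := by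
  unfold gau
  rw [Finset.filter_insert]
  split_ifs with h
  · rw [Finset.card_insert_of_notMem (fun h1 => hu (Finset.mem_filter.1 h1).1), pow_succ]
    ring
  · rw [one_mul]

/-- coboundary of a function which is zero at the sets without `v` -/
lemma dl_shift {v : V} {S : Finset V} (hv : v ∉ S) {c : Finset V → M} (hc : ∀ T, v ∉ T → c T = 0) :
    dl r c (insert v S) = gau r v S • dl r (fun T => gau r v T • c (insert v T)) S := by
  rw [dl_insert hv, hc S hv, smul_zero, zero_add]
  unfold dl
  rw [Finset.smul_sum]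
  refine Finset.sum_congr rfl fun u hu => ?_
  have hvu : v ∉ S.erase u := fun h => hv (Finset.mem_of_mem_erase h)
  rw [← mul_smul, ← mul_smul]
  congr 1
  have h1 : gau r v S = (if r v < r u then -1 else 1) * gau r v (S.erase u) := by
    rw [← gau_insert (Finset.notMem_erase u S), Finset.insert_erase hu]
  rw [sgz_insert hvu, h1]
  have h2 := gau_sq (r := r) v (S.erase u)
  linear_combination (-(if r v < r u then (-1 : ℤ) else 1) * sgz r u (S.erase u)) * h2

theorem acy_shift (hr : Function.Injective r) {D : Set (Finset V)} {v : V} (hv : ∀ S ∈ D, v ∉ S) (h : Acy M r D) :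
    Acy M r ((fun S => insert v S) '' D) := by
  intro c hc hd
  have hc0 : ∀ T, v ∉ T → c T = 0 := fun T hT => hc T (by
    rintro ⟨S, hS, rfl⟩
    exact hT (Finset.mem_insert_self v S))
  have hg : ∀ S : Finset V, ∀ m : M, gau r v S • gau r v S • m = m := fun S m => by
    rw [← mul_smul, gau_sq, one_smul]
  obtain ⟨e, he, hde⟩ := h (rst D fun S => gau r v S • c (insert v S)) (fun S hS => rst_not hS) fun T hT => by
    have h1 := hd _ ⟨T, hT, rfl⟩
    dsimp only at h1
    rw [dl_shift (hv T hT) hc0] at h1
    have h2 : dl r (fun T => gau r v T • c (insert v T)) T = 0 := by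
      rw [← hg T (dl r (fun T => gau r v T • c (insert v T)) T), h1, smul_zero]
    rw [← h2]
    refine dl_congr fun S hS _ => ?_
    by_cases h3 : S ∈ D
    · exact rst_mem h3
    · rw [rst_not h3, hc (insert v S), smul_zero]
      rintro ⟨S', hS', h4⟩
      dsimp only at h4
      apply h3
      have h5 : S = S' := by
        have h6 : v ∉ S := fun h7 => hv T hT (hS h7)
        rw [← Finset.erase_insert h6, ← h4, Finset.erase_insert (hv S' hS')]
      rw [h5]
      exact hS'
  refine ⟨fun T => if v ∈ T then gau r v (T.erase v) • e (T.erase v) else 0, fun T hT => ?_, ?_⟩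
  · dsimp only
    by_cases h1 : v ∈ T
    · rw [if_pos h1, he, smul_zero]
      intro h2
      exact hT ⟨T.erase v, h2, Finset.insert_erase h1⟩
    · exact if_neg h1
  · rintro _ ⟨T, hT, rfl⟩
    dsimp only
    rw [dl_shift (hv T hT) (fun T h1 => if_neg h1)]
    have h1 : dl r (fun S => gau r v S • if v ∈ insert v S then gau r v ((insert v S).erase v) •
        e ((insert v S).erase v) else 0) T = dl r e T := by
      refine dl_congr fun S hS _ => ?_
      have h6 : v ∉ S := fun h7 => hv T hT (hS h7)
      rw [if_pos (Finset.mem_insert_self v S), Finset.erase_insert h6, hg]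
    rw [h1, hde T hT, rst_mem hT, hg]

/-! ### images -/

lemma dl_map (j : V' ↪ V) (c : Finset V → M) (S : Finset V') :
    dl r c (S.map j) = dl (fun v => r (j v)) (fun T => c (T.map j)) S := by
  unfold dl
  rw [Finset.sum_map]
  refine Finset.sum_congr rfl fun u hu => ?_
  have h1 : (S.map j).erase (j u) = (S.erase u).map j := (Finset.map_erase j S u).symm
  rw [h1]
  congr 1
  unfold sgz
  congr 1
  rw [Finset.filter_map, Finset.card_map]
  rfl

theorem acy_map (j : V' ↪ V) (D : Set (Finset V')) :
    Acy M (fun v => r (j v)) D ↔ Acy M r ((fun S => S.map j) '' D) := by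
  have hj : Function.Injective fun S : Finset V' => S.map j := Finset.map_injective j
  constructor
  · intro h c hc hd
    obtain ⟨e, he, hde⟩ := h (fun S => c (S.map j)) (fun S hS => hc _ fun h1 => by
        obtain ⟨S', hS', h2⟩ := h1
        exact hS (hj h2 ▸ hS')) fun T hT => by
      rw [← dl_map]
      exact hd _ ⟨T, hT, rfl⟩
    refine ⟨Function.extend (fun S : Finset V' => S.map j) e fun _ => 0, fun T hT => ?_, ?_⟩
    · by_cases h1 : ∃ S : Finset V', S.map j = T
      · obtain ⟨S, rfl⟩ := h1
        have h2 : Function.extend (fun S : Finset V' => S.map j) e (fun _ => 0) (S.map j) = e S := hj.extend_apply e _ S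
        rw [h2]
        exact he S fun h3 => hT ⟨S, h3, rfl⟩
      · exact Function.extend_apply' _ _ _ h1
    · rintro _ ⟨T, hT, rfl⟩
      dsimp only
      rw [dl_map]
      have h2 : (fun S : Finset V' => Function.extend (fun S : Finset V' => S.map j) e (fun _ => 0) (S.map j)) = e := by
        funext S
        exact hj.extend_apply e _ S
      rw [h2, hde T hT]
  · intro h c hc hd
    have h2 : (fun S : Finset V' => Function.extend (fun S : Finset V' => S.map j) c (fun _ => 0) (S.map j)) = c := by
      funext S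
      exact hj.extend_apply c _ S
    obtain ⟨e, he, hde⟩ := h (Function.extend (fun S : Finset V' => S.map j) c fun _ => 0) (fun T hT => by
        by_cases h1 : ∃ S : Finset V', S.map j = T
        · obtain ⟨S, rfl⟩ := h1
          rw [show Function.extend (fun S : Finset V' => S.map j) c (fun _ => 0) (S.map j) = c S from
            hj.extend_apply c _ S]
          exact hc S fun h3 => hT ⟨S, h3, rfl⟩
        · exact Function.extend_apply' _ _ _ h1) (by
        rintro _ ⟨T, hT, rfl⟩
        dsimp only
        rw [dl_map, h2]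
        exact hd T hT)
    refine ⟨fun S => e (S.map j), fun S hS => he _ fun h1 => by
        obtain ⟨S', hS', h3⟩ := h1
        exact hS (hj h3 ▸ hS'), fun T hT => ?_⟩
    rw [← dl_map, hde _ ⟨T, hT, rfl⟩]
    exact hj.extend_apply c _ T

/-! ### coefficients -/

/-- torsion free coefficients; the values of `c` generate a finitely generated free abelian group -/
theorem acy_of_int [Fintype V] [IsAddTorsionFree M] {D : Set (Finset V)} (h : Acy ℤ r D) : Acy M r D := by
  classical
  intro c hc hd
  let N : Submodule ℤ M := Submodule.span ℤ (Set.range c)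
  have hN : Module.Finite ℤ N := by
    have : Finite (Finset V) := inferInstance
    exact Module.Finite.span_of_finite ℤ (Set.finite_range c)
  have hfree : Module.Free ℤ N := inferInstance
  let b := Module.Free.chooseBasis ℤ N
  let c' : Finset V → N := fun S => ⟨c S, Submodule.subset_span ⟨S, rfl⟩⟩
  have hdc : ∀ T, ((dl r c' T : N) : M) = dl r c T := by
    intro T
    unfold dl
    rw [AddSubmonoidClass.coe_finsetSum]
    rfl
  have hrep : ∀ i T, dl r (fun S => b.repr (c' S) i) T = b.repr (dl r c' T) i := by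
    intro i T
    unfold dl
    rw [map_sum, Finsupp.finsetSum_apply]
    refine Finset.sum_congr rfl fun v _ => ?_
    rw [map_smul]
    rfl
  have h1 : ∀ i, ∃ e : Finset V → ℤ, (∀ S, S ∉ D → e S = 0) ∧ ∀ T ∈ D, dl r e T = b.repr (c' T) i := by
    intro i
    refine h (fun S => b.repr (c' S) i) (fun S hS => ?_) fun T hT => ?_
    · have h2 : c' S = 0 := Subtype.ext (hc S hS)
      rw [h2, map_zero]
      rfl
    · have h2 : dl r c' T = 0 := Subtype.ext ((hdc T).trans (hd T hT))
      rw [hrep, h2, map_zero]
      rfl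
  choose e he hde using h1
  refine ⟨fun S => ∑ i, e i S • (b i : M), fun S hS => ?_, fun T hT => ?_⟩
  · refine Finset.sum_eq_zero fun i _ => ?_
    rw [he i S hS, zero_smul]
  · have h2 : dl r (fun S => ∑ i, e i S • (b i : M)) T = ∑ i, dl r (e i) T • (b i : M) := by
      unfold dl
      simp only [Finset.smul_sum, Finset.sum_smul, smul_eq_mul, mul_smul]
      exact Finset.sum_comm
    rw [h2]
    have h3 : ∑ i, dl r (e i) T • (b i : M) = ((∑ i, b.repr (c' T) i • b i : N) : M) := by
      rw [AddSubmonoidClass.coe_finsetSum]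
      refine Finset.sum_congr rfl fun i _ => ?_
      rw [hde i T hT]
      rfl
    rw [h3, b.sum_repr]

end fam

end Singer
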