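import Pool.Agent.Singer.TDefs
import Pool.Agent.Singer.Desc
import Pool.Agent.Singer.Fam

/-!
# Singer: cohomology with compact supports of the Davis complex of a homology sphere

* `Acod_mem`, `Acod_Acod`, `cel_mem`, `AD_cel`, `ac_ext`
* `hc_vanish`, `hc_gen`, `hc_inj` : `H_c^i = 0` for `i ≠ n` and `H_c^n = M`, generated by the cell `W_τ`

Filtration by the length of the bottom vertex of a cell; the graded pieces are the cochain complexes of the cliques which
do not meet the set of descents.
-/

set_option autoImplicit false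
set_option linter.unusedSectionVars false
set_option linter.unusedVariables false

namespace Singer

universe u

open Racg

namespace Hc

section grp
variable {V : Type u} {G : SimpleGraph V}

lemma sub_induction {S : Set V} {p : RACG G → Prop} (h1 : p 1)
    (hm : ∀ w ∈ Racg.sub (G := G) S, ∀ s ∈ S, p w → p (w * gen G s)) : ∀ u ∈ Racg.sub (G := G) S, p u := by
  intro u hu
  refine Subgroup.closure_induction_right (p := fun x _ => p x) h1 ?_ ?_ hu
  · rintro x hx y ⟨s, hs, rfl⟩ h
    exact hm x hx s hs h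
  · rintro x hx y ⟨s, hs, rfl⟩ h
    rw [gen_inv]
    exact hm x hx s hs h

lemma ne_of_clique {S : Set V} {a : V} (ha : a ∉ S) {s : V} (hs : s ∈ S) : a ≠ s := fun h => ha (h ▸ hs)

/-- `W_{S ∪ a} = W_S ∪ W_S a` -/
lemma mem_sub_insert {S : Set V} {a : V} (hS : ∀ s ∈ S, G.Adj a s) {w : RACG G}
    (hw : w ∈ Racg.sub (G := G) (insert a S)) : w ∈ Racg.sub (G := G) S ∨ w * gen G a ∈ Racg.sub (G := G) S := by
  refine sub_induction (p := fun w => w ∈ Racg.sub (G := G) S ∨ w * gen G a ∈ Racg.sub (G := G) S)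
    (Or.inl (one_mem _)) ?_ w hw
  rintro w - s (rfl | hs) (h | h)
  · right
    rwa [mul_assoc, gen_mul_gen, mul_one]
  · exact Or.inl h
  · exact Or.inl (mul_mem h (gen_mem_sub hs))
  · right
    rw [mul_assoc, ← gen_comm (hS s hs), ← mul_assoc]
    exact mul_mem h (gen_mem_sub hs)

lemma rd_sub {S : Set V} {a : V} (hS : ∀ s ∈ S, G.Adj a s) (w : RACG G) {u : RACG G} (hu : u ∈ Racg.sub (G := G) S) :
    Rd a (w * u) ↔ Rd a w := by
  refine sub_induction (p := fun u => Rd a (w * u) ↔ Rd a w) ?_ ?_ u hu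
  · rw [mul_one]
  · intro x _ s hs h
    rw [← mul_assoc, rd_adj (hS s hs), h]

/-- an element of `W_S` is determined by the changes of the descents -/
lemma eq_one_of_rd [DecidableEq V] {S : Finset V} (hS : G.IsClique S) {w u : RACG G}
    (hu : u ∈ Racg.sub (G := G) (S : Set V)) (h : ∀ s ∈ S, (Rd s (w * u) ↔ Rd s w)) : u = 1 := by
  induction S using Finset.induction_on with
  | empty =>
    have h1 : Racg.sub (G := G) ((∅ : Finset V) : Set V) = ⊥ := by
      unfold Racg.sub
      simp
    rw [h1] at hu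
    exact hu
  | insert a S ha ih =>
    have hadj : ∀ s ∈ (S : Set V), G.Adj a s := fun s hs =>
      hS (by simp) (by simp [Finset.mem_coe.1 hs]) (ne_of_clique (S := (S : Set V)) (by simpa using ha) hs)
    rw [Finset.coe_insert] at hu
    rcases mem_sub_insert hadj hu with h1 | h1
    · exact ih (hS.subset (by simp)) h1 fun s hs => h s (Finset.mem_insert_of_mem hs)
    · exfalso
      have h2 := rd_sub hadj w h1
      rw [← mul_assoc, rd_self, h a (Finset.mem_insert_self a S)] at h2
      tauto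

lemma finite_sub' [DecidableEq V] {S : Finset V} (hS : G.IsClique S) :
    ((Racg.sub (G := G) (S : Set V) : Subgroup (RACG G)) : Set (RACG G)).Finite := by
  induction S using Finset.induction_on with
  | empty =>
    have h1 : Racg.sub (G := G) ((∅ : Finset V) : Set V) = ⊥ := by
      unfold Racg.sub
      simp
    rw [h1]
    simp
  | insert a S ha ih =>
    have hadj : ∀ s ∈ (S : Set V), G.Adj a s := fun s hs =>
      hS (by simp) (by simp [Finset.mem_coe.1 hs]) (ne_of_clique (S := (S : Set V)) (by simpa using ha) hs)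
    have h1 := ih (hS.subset (by simp))
    refine (h1.union (h1.image fun w => w * gen G a)).subset fun w hw => ?_
    rw [Finset.coe_insert] at hw
    rcases mem_sub_insert hadj hw with h2 | h2
    · exact Or.inl h2
    · refine Or.inr ⟨w * gen G a, h2, ?_⟩
      show w * gen G a * gen G a = w
      rw [mul_assoc, gen_mul_gen, mul_one]

/-- every cell has a bottom vertex -/
lemma exists_bot [Fintype V] (S : Set V) (x : RACG G) :
    ∃ u ∈ Racg.sub (G := G) S, ∀ s ∈ S, ¬ Rd s (x * u) := by
  generalize hN : ln x = N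
  induction N using Nat.strong_induction_on generalizing x with
  | _ N ih =>
    by_cases h : ∀ s ∈ S, ¬ Rd s x
    · exact ⟨1, one_mem _, by simpa using h⟩
    · push Not at h
      obtain ⟨s, hs, hr⟩ := h
      have h1 := ln_mul' hr
      obtain ⟨u, hu, h2⟩ := ih (ln (x * gen G s)) (by omega) (x * gen G s) rfl
      exact ⟨gen G s * u, mul_mem (gen_mem_sub hs) hu, by simpa [mul_assoc] using h2⟩

lemma ln_one [Fintype V] : ln (1 : RACG G) = 0 := by
  unfold ln
  simp [x0]

lemma ln_pos [Fintype V] {w : RACG G} (hw : w ≠ 1) : 0 < ln w := by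
  obtain ⟨s, hs⟩ := exists_rd hw
  have := ln_mul' hs
  omega

lemma sgW_gen (v : V) : sgW G (gen G v) = -1 := lift_gen v

end grp

section sums
variable {V : Type u} [DecidableEq V] {M : Type*} [AddCommGroup M] {r : V → ℕ}

/-- the double sum behind `d² = 0` -/
lemma dd (hr : Function.Injective r) (T : Finset V) (F : V → V → M) (hF : ∀ u v, F u v = F v u) :
    ∑ v ∈ T, sgz r v (T.erase v) • ∑ u ∈ T.erase v, sgz r u ((T.erase v).erase u) • F v u = 0 := by
  simp_rw [Finset.smul_sum]
  rw [Finset.sum_sigma' T (fun v => T.erase v)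
    (fun v u => sgz r v (T.erase v) • sgz r u ((T.erase v).erase u) • F v u)]
  refine Finset.sum_involution (fun x _ => (⟨x.2, x.1⟩ : Sigma fun _ : V => V)) ?_ ?_ ?_ ?_
  · rintro ⟨v, u⟩ h
    simp only [Finset.mem_sigma, Finset.mem_erase] at h
    obtain ⟨hv, huv, hu⟩ := h
    have h1 : insert u ((T.erase v).erase u) = T.erase v := Finset.insert_erase (by simp [huv, hu])
    have h2 : (T.erase v).erase u = (T.erase u).erase v := by
      ext w
      simp only [Finset.mem_erase]
      tauto
    have h3 : insert v ((T.erase u).erase v) = T.erase u := Finset.insert_erase (by simp [Ne.symm huv, hv])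
    have h4 := sgz_anti hr (u := u) (v := v) (T := (T.erase v).erase u) (by simp) (by simp) huv
    rw [h1, h2, h3] at h4
    dsimp only
    rw [hF u v, smul_smul, smul_smul, ← add_smul, h2, mul_comm (sgz r v (T.erase v)), h4,
      mul_comm (sgz r u (T.erase u)), neg_add_cancel, zero_smul]
  · rintro ⟨v, u⟩ h _ h1
    simp only [Finset.mem_sigma, Finset.mem_erase] at h
    exact h.2.1 (by simpa using (congrArg Sigma.fst h1))
  · rintro ⟨v, u⟩ h
    simp only [Finset.mem_sigma, Finset.mem_erase] at h ⊢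
    exact ⟨h.2.2, Ne.symm h.2.1, h.1⟩
  · rintro ⟨v, u⟩ h
    rfl

end sums

section chains
variable {V : Type u} [DecidableEq V] {M : Type*} [AddCommGroup M] {G : SimpleGraph V} {r : V → ℕ}

lemma Acod_apply {f : RACG G × Finset V → M} {x : RACG G} {T : Finset V} (hT : G.IsClique T) :
    Acod r f (x, T) = ∑ v ∈ T, sgz r v (T.erase v) • (f (x, T.erase v) - f (x * gen G v, T.erase v)) := if_pos hT

lemma Acod_apply_not {f : RACG G × Finset V → M} {x : RACG G} {T : Finset V} (hT : ¬ G.IsClique T) :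
    Acod r f (x, T) = 0 := if_neg hT

lemma clique_comm {S : Finset V} (hS : G.IsClique S) {u v : V} (hu : u ∈ S) (hv : v ∈ S) :
    gen G u * gen G v = gen G v * gen G u := by
  by_cases h : u = v
  · rw [h]
  · exact gen_comm (hS (Finset.mem_coe.2 hu) (Finset.mem_coe.2 hv) h)

lemma ac_anti [Fintype V] {A : Finset V} {i : ℕ} {f : RACG G × Finset V → M} (hf : f ∈ AC M G A i) (x : RACG G)
    (S : Finset V) {u : RACG G} (hu : u ∈ Racg.sub (G := G) (S : Set V)) :
    f (x * u, S) = ((sgW G u : ℤˣ) : ℤ) • f (x, S) := by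
  refine sub_induction (p := fun u => f (x * u, S) = ((sgW G u : ℤˣ) : ℤ) • f (x, S)) ?_ ?_ u hu
  · simp
  · intro w _ s hs h
    rw [← mul_assoc, hf.2.2 _ _ s (Finset.mem_coe.1 hs), h, map_mul, sgW_gen]
    simp

end chains

end Hc

section hc
variable {V : Type u} [Fintype V] [DecidableEq V] {M : Type*} [AddCommGroup M] {G : SimpleGraph V} {r : V → ℕ}

open Hc

theorem Acod_mem {i : ℕ} {f : RACG G × Finset V → M} (hf : f ∈ AC M G Finset.univ i) :
    Acod r f ∈ AC M G Finset.univ (i + 1) := by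
  classical
  have key : ∀ x T, Acod r f (x, T) ≠ 0 → G.IsClique T ∧ ∃ v ∈ T, (f (x, T.erase v) ≠ 0 ∨
      f (x * gen G v, T.erase v) ≠ 0) := by
    intro x T h
    by_cases hT : G.IsClique T
    · refine ⟨hT, ?_⟩
      by_contra h1
      push Not at h1
      refine h ?_
      rw [Acod_apply hT]
      refine Finset.sum_eq_zero fun v hv => ?_
      rw [(h1 v hv).1, (h1 v hv).2, sub_zero, smul_zero]
    · exact absurd (Acod_apply_not hT) h
  refine ⟨?_, ?_, ?_⟩
  · have hfin : (⋃ v : V, ((fun y : RACG G × Finset V => (y.1, insert v y.2)) '' Function.support f ∪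
        (fun y : RACG G × Finset V => (y.1 * gen G v, insert v y.2)) '' Function.support f)).Finite :=
      Set.finite_iUnion fun v => (hf.1.image _).union (hf.1.image _)
    refine hfin.subset ?_
    rintro ⟨x, T⟩ hx
    obtain ⟨hT, v, hv, h1 | h1⟩ := key x T hx
    · exact Set.mem_iUnion.2 ⟨v, Or.inl ⟨(x, T.erase v), h1, by simp [Finset.insert_erase hv]⟩⟩
    · exact Set.mem_iUnion.2 ⟨v, Or.inr ⟨(x * gen G v, T.erase v), h1,
        by simp [Finset.insert_erase hv, mul_assoc]⟩⟩
  · rintro ⟨x, T⟩ hx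
    obtain ⟨hT, v, hv, h1⟩ := key x T hx
    refine ⟨Finset.subset_univ _, ?_, hT⟩
    show T.card = i + 1
    rw [← Finset.card_erase_add_one hv]
    rcases h1 with h1 | h1
    · rw [(hf.2.1 _ h1).2.1]
    · rw [(hf.2.1 _ h1).2.1]
  · intro x T u hu
    by_cases hT : G.IsClique T
    · rw [Acod_apply hT, Acod_apply hT, ← Finset.sum_neg_distrib]
      refine Finset.sum_congr rfl fun v hv => ?_
      rw [← smul_neg]
      congr 1
      by_cases huv : u = v
      · subst huv
        rw [mul_assoc, gen_mul_gen, mul_one, neg_sub]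
      · have h1 : u ∈ T.erase v := Finset.mem_erase.2 ⟨huv, hu⟩
        rw [mul_assoc, clique_comm hT hu hv, ← mul_assoc, hf.2.2 _ _ u h1, hf.2.2 _ _ u h1]
        abel
    · rw [Acod_apply_not hT, Acod_apply_not hT, neg_zero]

theorem Acod_Acod (hr : Function.Injective r) {i : ℕ} {f : RACG G × Finset V → M} (hf : f ∈ AC M G Finset.univ i) :
    Acod r (Acod r f) = 0 := by
  funext ⟨x, T⟩
  show Acod r (Acod r f) (x, T) = 0
  by_cases hT : G.IsClique T
  · rw [Acod_apply hT]
    have h1 : ∀ v ∈ T, ∀ y, Acod r f (y, T.erase v) = ∑ u ∈ T.erase v, sgz r u ((T.erase v).erase u) •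
        (f (y, (T.erase v).erase u) - f (y * gen G u, (T.erase v).erase u)) := by
      intro v hv y
      exact Acod_apply (hT.subset (by simp))
    let F : V → V → M := fun v u => (f (x, (T.erase v).erase u) - f (x * gen G u, (T.erase v).erase u)) -
      (f (x * gen G v, (T.erase v).erase u) - f (x * gen G v * gen G u, (T.erase v).erase u))
    let F' : V → V → M := fun v u => if v ∈ T ∧ u ∈ T then F v u else 0
    have h2 := dd (M := M) hr T F' (by
      intro u v
      show (if u ∈ T ∧ v ∈ T then F u v else 0) = if v ∈ T ∧ u ∈ T then F v u else 0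
      by_cases h : u ∈ T ∧ v ∈ T
      · rw [if_pos h, if_pos h.symm]
        show (f (x, (T.erase u).erase v) - f (x * gen G v, (T.erase u).erase v)) -
          (f (x * gen G u, (T.erase u).erase v) - f (x * gen G u * gen G v, (T.erase u).erase v)) =
          (f (x, (T.erase v).erase u) - f (x * gen G u, (T.erase v).erase u)) -
          (f (x * gen G v, (T.erase v).erase u) - f (x * gen G v * gen G u, (T.erase v).erase u))
        have h3 : (T.erase v).erase u = (T.erase u).erase v := by
          ext w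
          simp only [Finset.mem_erase]
          tauto
        rw [h3, mul_assoc, mul_assoc, clique_comm hT h.1 h.2]
        abel
      · rw [if_neg h, if_neg fun h' => h h'.symm])
    rw [← h2]
    refine Finset.sum_congr rfl fun v hv => ?_
    rw [h1 v hv, h1 v hv, ← Finset.sum_sub_distrib]
    congr 1
    refine Finset.sum_congr rfl fun u hu => ?_
    rw [← smul_sub]
    congr 1
    show _ = if v ∈ T ∧ u ∈ T then F v u else 0
    rw [if_pos ⟨hv, Finset.mem_of_mem_erase hu⟩]
  · exact Acod_apply_not hT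

omit [Fintype V] in
lemma cel_pos (m : M) {g x : RACG G} {S : Finset V} (h : g⁻¹ * x ∈ Racg.sub (G := G) (S : Set V)) :
    cel m g S (x, S) = ((sgW G (g⁻¹ * x) : ℤˣ) : ℤ) • m := if_pos ⟨rfl, h⟩

omit [Fintype V] in
lemma cel_neg (m : M) {g x : RACG G} {S : Finset V} (h : g⁻¹ * x ∉ Racg.sub (G := G) (S : Set V)) :
    cel m g S (x, S) = 0 := if_neg fun h1 => h h1.2

omit [Fintype V] in
lemma cel_apply_ne (m : M) (g x : RACG G) {S T : Finset V} (h : T ≠ S) : cel m g S (x, T) = 0 :=
  if_neg fun h1 => h h1.1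

theorem cel_mem (m : M) (g : RACG G) {S : Finset V} (hS : G.IsClique S) : cel m g S ∈ AC M G Finset.univ S.card := by
  classical
  refine ⟨?_, ?_, ?_⟩
  · refine (((finite_sub' hS).image fun u => (g * u, S))).subset ?_
    rintro ⟨x, T⟩ hx
    have h1 : T = S ∧ g⁻¹ * x ∈ Racg.sub (G := G) (S : Set V) := by
      by_contra h
      exact hx (if_neg h)
    obtain ⟨rfl, h2⟩ := h1
    exact ⟨g⁻¹ * x, h2, by simp⟩
  · rintro ⟨x, T⟩ hx
    have h1 : T = S ∧ g⁻¹ * x ∈ Racg.sub (G := G) (S : Set V) := by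
      by_contra h
      exact hx (if_neg h)
    obtain ⟨rfl, h2⟩ := h1
    exact ⟨Finset.subset_univ _, rfl, hS⟩
  · intro x T v hv
    by_cases hT : T = S
    · subst hT
      have h1 : gen G v ∈ Racg.sub (G := G) (T : Set V) := gen_mem_sub (Finset.mem_coe.2 hv)
      have h2 : g⁻¹ * (x * gen G v) ∈ Racg.sub (G := G) (T : Set V) ↔ g⁻¹ * x ∈ Racg.sub (G := G) (T : Set V) := by
        rw [← mul_assoc]
        exact Subgroup.mul_mem_cancel_right _ h1
      by_cases h3 : g⁻¹ * x ∈ Racg.sub (G := G) (T : Set V)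
      · rw [cel_pos m (h2.2 h3), cel_pos m h3, ← mul_assoc, map_mul, sgW_gen]
        simp
      · rw [cel_neg m fun h => h3 (h2.1 h), cel_neg m h3, neg_zero]
    · rw [cel_apply_ne _ _ _ hT, cel_apply_ne _ _ _ hT, neg_zero]

theorem AD_cel (m : M) (g : RACG G) {S : Finset V} (hS : G.IsClique S) :
    AD r (cel m g S) = ∑ v ∈ S, sgz r v (S.erase v) • (cel m g (S.erase v) - cel m (g * Racg.gen G v) (S.erase v)) := by
  classical
  funext ⟨x, T⟩
  rw [Finset.sum_apply]
  show ∑ v ∈ Tᶜ, sgz r v T • cel m g S (x, insert v T) = ∑ v ∈ S, sgz r v (S.erase v) •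
    (cel m g (S.erase v) (x, T) - cel m (g * gen G v) (S.erase v) (x, T))
  by_cases h : ∃ v ∈ S, T = S.erase v
  · obtain ⟨v, hv, rfl⟩ := h
    have hinj : ∀ u ∈ S, u ≠ v → S.erase v ≠ S.erase u := by
      intro u hu huv h1
      have h2 : u ∈ S.erase v := Finset.mem_erase.2 ⟨huv, hu⟩
      rw [h1] at h2
      simp at h2
    rw [Finset.sum_eq_single v, Finset.sum_eq_single v, Finset.insert_erase hv]
    · congr 1
      have hadj : ∀ s ∈ ((S.erase v : Finset V) : Set V), G.Adj v s := fun s hs =>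
        hS (by simpa using hv) (by simpa using Finset.mem_of_mem_erase (Finset.mem_coe.1 hs))
          (Ne.symm (Finset.ne_of_mem_erase (Finset.mem_coe.1 hs)))
      have hne : gen G v ∉ Racg.sub (G := G) ((S.erase v : Finset V) : Set V) := Racg.gen_notMem (by simp)
      have hle : Racg.sub (G := G) ((S.erase v : Finset V) : Set V) ≤ Racg.sub (G := G) (S : Set V) :=
        Racg.sub_mono (by simp)
      have hv' : gen G v ∈ Racg.sub (G := G) (S : Set V) := gen_mem_sub (Finset.mem_coe.2 hv)
      have hcomm : ∀ u ∈ Racg.sub (G := G) ((S.erase v : Finset V) : Set V), gen G v * u = u * gen G v := by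
        intro u hu
        refine sub_induction (p := fun u => gen G v * u = u * gen G v) (by simp) ?_ u hu
        intro w _ s hs h
        rw [← mul_assoc, h, mul_assoc, gen_comm (hadj s hs), ← mul_assoc]
      have hmul : (g * gen G v)⁻¹ * x = gen G v * (g⁻¹ * x) := by rw [mul_inv_rev, gen_inv, mul_assoc]
      by_cases h1 : g⁻¹ * x ∈ Racg.sub (G := G) (S : Set V)
      · rw [cel_pos m h1]
        have h2 : g⁻¹ * x ∈ Racg.sub (G := G) (insert v ((S.erase v : Finset V) : Set V)) := by
          rw [← Finset.coe_insert, Finset.insert_erase hv]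
          exact h1
        rcases mem_sub_insert hadj h2 with h3 | h3
        · rw [cel_pos m h3, cel_neg m fun h4 => hne ((Subgroup.mul_mem_cancel_right _ h3).1 (hmul ▸ h4)), sub_zero]
        · have h5 : gen G v * (g⁻¹ * x) ∈ Racg.sub (G := G) ((S.erase v : Finset V) : Set V) := by
            have h6 := hcomm _ h3
            rw [mul_assoc (g⁻¹ * x), gen_mul_gen, mul_one, ← mul_assoc] at h6
            have h7 : gen G v * (g⁻¹ * x) = g⁻¹ * x * gen G v := by
              calc gen G v * (g⁻¹ * x) = gen G v * (g⁻¹ * x) * gen G v * gen G v := by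
                    rw [mul_assoc (gen G v * (g⁻¹ * x)), gen_mul_gen, mul_one]
                _ = g⁻¹ * x * gen G v := by rw [h6]
            rw [h7]
            exact h3
          have h6 : (g * gen G v)⁻¹ * x ∈ Racg.sub (G := G) ((S.erase v : Finset V) : Set V) := hmul ▸ h5
          rw [cel_neg m fun h7 => hne ((Subgroup.mul_mem_cancel_left _ h7).1 h3), cel_pos m h6, zero_sub, hmul,
            map_mul (sgW G) (gen G v), sgW_gen]
          simp
      · rw [cel_neg m h1, cel_neg m fun h2 => h1 (hle h2), cel_neg m fun h2 => h1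
          ((Subgroup.mul_mem_cancel_left _ hv').1 (hle (hmul ▸ h2))), sub_zero]
    · intro u hu huv
      rw [cel_apply_ne _ _ _ (hinj u hu huv), cel_apply_ne _ _ _ (hinj u hu huv), sub_zero, smul_zero]
    · exact fun h1 => absurd hv h1
    · intro u hu huv
      rw [cel_apply_ne, smul_zero]
      intro h1
      have h2 : u ∈ S := by rw [← h1]; simp
      exact (Finset.mem_compl.1 hu) (Finset.mem_erase.2 ⟨huv, h2⟩)
    · intro h1
      simp at h1
  · rw [Finset.sum_eq_zero, Finset.sum_eq_zero]
    · intro v hv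
      have h1 : T ≠ S.erase v := fun h1 => h ⟨v, hv, h1⟩
      rw [cel_apply_ne _ _ _ h1, cel_apply_ne _ _ _ h1, sub_zero, smul_zero]
    · intro v hv
      rw [cel_apply_ne, smul_zero]
      intro h1
      refine h ⟨v, by rw [← h1]; simp, ?_⟩
      rw [← h1, Finset.erase_insert (by simpa using hv)]

/-- a chain is determined by its values on the bottom vertices -/
theorem ac_ext {i : ℕ} {f : RACG G × Finset V → M} (hf : f ∈ AC M G Finset.univ i)
    (h : ∀ w S, (∀ s ∈ S, ¬ Racg.Rd s w) → f (w, S) = 0) : f = 0 := by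
  funext ⟨x, S⟩
  obtain ⟨u, hu, h1⟩ := exists_bot (G := G) (S : Set V) x
  have h2 := ac_anti hf x S hu
  rw [h _ _ fun s hs => h1 s (Finset.mem_coe.2 hs)] at h2
  rcases Int.units_eq_one_or (sgW G u) with h3 | h3
  · rw [h3] at h2
    simpa using h2.symm
  · rw [h3] at h2
    simpa using h2.symm

/-! ### The filtration -/

namespace Hc

omit [Fintype V] in
lemma cel_zero (g : RACG G) (S : Finset V) : cel (0 : M) g S = 0 := by
  funext ⟨x, T⟩
  show cel (0 : M) g S (x, T) = 0
  by_cases hT : T = S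
  · subst hT
    by_cases h : g⁻¹ * x ∈ Racg.sub (G := G) (T : Set V)
    · rw [cel_pos _ h, smul_zero]
    · exact cel_neg _ h
  · exact cel_apply_ne _ _ _ hT

/-- the cochain with the values `c` on the cells `g W_S` -/
noncomputable def ext (g : RACG G) (c : Finset V → M) : RACG G × Finset V → M := ∑ S : Finset V, cel (c S) g S

lemma ext_apply (g : RACG G) (c : Finset V → M) (x : RACG G) (T : Finset V) :
    ext g c (x, T) = cel (c T) g T (x, T) := by
  unfold ext
  rw [Finset.sum_apply]
  exact Finset.sum_eq_single T (fun S _ h => cel_apply_ne _ _ _ (Ne.symm h)) fun h => absurd (Finset.mem_univ _) h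

lemma ext_mem {i : ℕ} {g : RACG G} {c : Finset V → M} (hc : ∀ S, c S ≠ 0 → G.IsClique S ∧ S.card = i) :
    ext g c ∈ AC M G Finset.univ i := by
  refine AddSubgroup.sum_mem _ fun S _ => ?_
  by_cases h : c S = 0
  · rw [h, cel_zero]
    exact zero_mem _
  · have h1 := cel_mem (c S) g (hc S h).1
    rwa [(hc S h).2] at h1

lemma ext_bot {g : RACG G} {c : Finset V → M} (hc : ∀ S, c S ≠ 0 → G.IsClique S ∧ ∀ s ∈ S, ¬ Rd s g)
    {x : RACG G} {T : Finset V} (hx : ∀ s ∈ T, ¬ Rd s x) (I : Decidable (x = g)) :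
    ext g c (x, T) = if x = g then c T else 0 := by
  rw [ext_apply]
  by_cases h0 : c T = 0
  · rw [h0, cel_zero]
    simp
  · by_cases h : g⁻¹ * x ∈ Racg.sub (G := G) (T : Set V)
    · have h1 : g⁻¹ * x = 1 := eq_one_of_rd (w := g) (hc T h0).1 h fun s hs => by
        rw [mul_inv_cancel_left]
        exact ⟨fun h2 => absurd h2 (hx s hs), fun h2 => absurd h2 ((hc T h0).2 s hs)⟩
      have h2 : x = g := by
        rw [inv_mul_eq_one] at h1
        exact h1.symm
      rw [cel_pos _ h, h1, if_pos h2]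
      simp
    · rw [cel_neg _ h, if_neg]
      rintro rfl
      exact h (by simp)

lemma bot_mul {x : RACG G} {T : Finset V} (hT : G.IsClique T) (hx : ∀ s ∈ T, ¬ Rd s x) {v : V} (hv : v ∈ T) :
    ∀ s ∈ T.erase v, ¬ Rd s (x * gen G v) := by
  intro s hs h
  rw [Finset.mem_erase] at hs
  exact hx s hs.2 ((rd_adj (hT (Finset.mem_coe.2 hs.2) (Finset.mem_coe.2 hv) hs.1) x).1 h)

lemma bot_erase {x : RACG G} {T : Finset V} (hx : ∀ s ∈ T, ¬ Rd s x) (v : V) : ∀ s ∈ T.erase v, ¬ Rd s x :=
  fun s hs => hx s (Finset.mem_of_mem_erase hs)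

lemma Acod_ext_bot {g : RACG G} {c : Finset V → M} (hc : ∀ S, c S ≠ 0 → G.IsClique S ∧ ∀ s ∈ S, ¬ Rd s g)
    {x : RACG G} {T : Finset V} (hT : G.IsClique T) (hx : ∀ s ∈ T, ¬ Rd s x) (hl : ln g ≤ ln x)
    (I : Decidable (x = g)) : Acod r (ext g c) (x, T) = if x = g then dl r c T else 0 := by
  classical
  have h1 : ∀ v ∈ T, sgz r v (T.erase v) • (ext g c (x, T.erase v) - ext g c (x * gen G v, T.erase v)) =
      sgz r v (T.erase v) • (if x = g then c (T.erase v) else 0) := by
    intro v hv
    congr 1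
    rw [ext_bot hc (bot_erase hx v) I, ext_bot hc (bot_mul hT hx hv) inferInstance, if_neg (c := x * gen G v = g),
      sub_zero]
    intro h2
    have h3 := ln_mul (hx v hv)
    rw [h2] at h3
    omega
  rw [Acod_apply hT, Finset.sum_congr rfl h1]
  by_cases h2 : x = g
  · simp only [if_pos h2]
    rfl
  · simp [if_neg h2]

/-- the bottom vertices of the cells of the support have length at most `N` -/
def Bl (N : ℕ) (f : RACG G × Finset V → M) : Prop := ∀ x T, f (x, T) ≠ 0 → (∀ s ∈ T, ¬ Rd s x) → ln x ≤ N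

lemma exists_Bl {i : ℕ} {f : RACG G × Finset V → M} (hf : f ∈ AC M G Finset.univ i) : ∃ N, Bl N f := by
  obtain ⟨N, hN⟩ := (hf.1.image fun y => ln y.1).bddAbove
  exact ⟨N, fun x T h _ => hN ⟨(x, T), h, rfl⟩⟩

/-- the restriction of a cochain to the cells with bottom `g` -/
lemma dl_restrict {i : ℕ} {f : RACG G × Finset V → M} (hf : f ∈ AC M G Finset.univ i) {g : RACG G}
    (hg : ∀ v T, (∀ s ∈ T, ¬ Rd s (g * gen G v)) → ¬ Rd v g → f (g * gen G v, T) = 0) {c : Finset V → M}
    {T : Finset V} (hT : G.IsClique T) (hx : ∀ s ∈ T, ¬ Rd s g) (hc : ∀ v ∈ T, c (T.erase v) = f (g, T.erase v)) :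
    dl r c T = Acod r f (g, T) := by
  rw [Acod_apply hT]
  refine Finset.sum_congr rfl fun v hv => ?_
  rw [hg v _ (bot_mul hT hx hv) (hx v hv), sub_zero, hc v hv]

lemma AB_le (i : ℕ) : AB M G r i ≤ AC M G Finset.univ i := by
  cases i with
  | zero => exact bot_le
  | succ i =>
    rintro _ ⟨e, he, rfl⟩
    exact Acod_mem he

lemma Acod_AB (hr : Function.Injective r) {i : ℕ} {b : RACG G × Finset V → M} (hb : b ∈ AB M G r i) :
    Acod r b = 0 := by
  cases i with
  | zero =>
    have h1 : b = 0 := hb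
    rw [h1, map_zero]
  | succ i =>
    obtain ⟨e, he, rfl⟩ := hb
    exact Acod_Acod hr he

/-- truncation of a primitive to the right degree -/
lemma trunc {i : ℕ} {D : Set (Finset V)} {c e : Finset V → M} (he0 : ∀ S, S ∉ D → e S = 0)
    (he : ∀ T ∈ D, dl r e T = c T) (hc : ∀ S, c S ≠ 0 → S.card = i) :
    ∃ e' : Finset V → M, (∀ S, e' S ≠ 0 → S ∈ D ∧ S.card + 1 = i) ∧ (∀ T ∈ D, dl r e' T = c T) ∧
      ∀ T : Finset V, T.card ≠ i → dl r e' T = 0 := by
  classical
  have key : ∀ T : Finset V, T.card ≠ i → dl r (fun S : Finset V => if S.card + 1 = i then e S else 0) T = 0 := by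
    intro T hT
    refine Finset.sum_eq_zero fun v hv => ?_
    dsimp only
    rw [if_neg, smul_zero]
    rw [Finset.card_erase_add_one hv]
    exact hT
  refine ⟨fun S => if S.card + 1 = i then e S else 0, ?_, ?_, key⟩
  · intro S hS
    by_cases h : S.card + 1 = i
    · refine ⟨?_, h⟩
      by_contra h1
      exact hS (by simp [h, he0 S h1])
    · exact absurd (if_neg h) hS
  · intro T hT
    by_cases h : T.card = i
    · rw [← he T hT]
      refine Finset.sum_congr rfl fun v hv => ?_
      dsimp only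
      rw [if_pos]
      rw [Finset.card_erase_add_one hv]
      exact h
    · rw [key T h]
      by_contra h1
      exact h (hc T (Ne.symm h1))

/-- one step of the filtration -/
lemma reduce_step (hr : Function.Injective r) (hac : ∀ σ : Finset V, σ.Nonempty → G.IsClique σ → Acy M r (Clq G σ))
    {i N : ℕ} {f : RACG G × Finset V → M} (hf : f ∈ AC M G Finset.univ i) (hN : Bl (N + 1) f)
    (h0 : ∀ x T, (∀ s ∈ T, ¬ Rd s x) → 1 ≤ ln x → Acod r f (x, T) = 0) :
    ∃ b ∈ AB M G r i, Bl N (f - b) := by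
  classical
  let A : Finset (RACG G) := (hf.1.image Prod.fst).toFinset.filter fun g => ln g = N + 1
  have hA : ∀ g T, f (g, T) ≠ 0 → ln g = N + 1 → g ∈ A := fun g T h1 h2 =>
    Finset.mem_filter.2 ⟨(Set.Finite.mem_toFinset _).2 ⟨(g, T), h1, rfl⟩, h2⟩
  have hA' : ∀ g ∈ A, ln g = N + 1 := fun g hg => (Finset.mem_filter.1 hg).2
  have key : ∀ g : RACG G, ∃ e : Finset V → M, g ∈ A → (∀ S, e S ≠ 0 → G.IsClique S ∧ ∀ s ∈ S, ¬ Rd s g) ∧
      (∀ S, e S ≠ 0 → S.card + 1 = i) ∧ ∀ T : Finset V, G.IsClique T → (∀ s ∈ T, ¬ Rd s g) →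
        dl r e T = f (g, T) := by
    intro g
    by_cases hg : g ∈ A
    · have hlg := hA' g hg
      let σ : Finset V := Finset.univ.filter fun s => Rd s g
      have hmem : ∀ S, S ∈ Clq G σ ↔ G.IsClique S ∧ ∀ s ∈ S, ¬ Rd s g := by
        intro S
        show G.IsClique S ∧ Disjoint S σ ↔ _
        rw [Finset.disjoint_left]
        simp [σ]
      have hg1 : g ≠ 1 := by
        rintro rfl
        rw [ln_one] at hlg
        omega
      have hσ1 : σ.Nonempty := by
        obtain ⟨s, hs⟩ := exists_rd hg1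
        exact ⟨s, by simpa [σ] using hs⟩
      have hσ2 : G.IsClique σ := by
        intro s hs t ht hst
        exact rd_clique hst (by simpa [σ] using hs) (by simpa [σ] using ht)
      obtain ⟨e, he0, he⟩ := hac σ hσ1 hσ2 (fun S => if S ∈ Clq G σ then f (g, S) else 0) (fun S hS => if_neg hS) (by
        intro T hT
        have hT' := (hmem T).1 hT
        rw [dl_restrict hf (g := g) ?_ hT'.1 hT'.2, h0 g T hT'.2 (by omega)]
        · intro v hv
          exact if_pos ((hmem _).2 ⟨hT'.1.subset (by simp), bot_erase hT'.2 v⟩)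
        · intro v T' h1 h2
          by_contra h3
          have h4 := hN _ _ h3 h1
          have h5 := ln_mul h2
          omega)
      obtain ⟨e', h1, h2, -⟩ := trunc (i := i) he0 he (by
        intro S hS
        by_cases h : S ∈ Clq G σ
        · have h3 : f (g, S) ≠ 0 := by
            intro h4
            exact hS (by simp [h, h4])
          exact (hf.2.1 _ h3).2.1
        · exact absurd (if_neg h) hS)
      refine ⟨e', fun _ => ⟨fun S hS => (hmem S).1 (h1 S hS).1, fun S hS => (h1 S hS).2, fun T hT hT' => ?_⟩⟩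
      rw [h2 T ((hmem T).2 ⟨hT, hT'⟩)]
      exact if_pos ((hmem T).2 ⟨hT, hT'⟩)
    · exact ⟨0, fun h => absurd h hg⟩
  choose e he using key
  cases i with
  | zero =>
    refine ⟨0, rfl, ?_⟩
    rw [sub_zero]
    intro x T hx hb
    have h1 := hN x T hx hb
    by_contra h2
    have hxA := hA x T hx (by omega)
    have h3 := (he x hxA).2.2 T (hf.2.1 _ hx).2.2 hb
    refine hx ?_
    rw [← h3]
    refine Finset.sum_eq_zero fun v _ => ?_
    have h4 : e x (T.erase v) = 0 := by
      by_contra h5
      exact absurd ((he x hxA).2.1 _ h5) (by omega)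
    rw [h4, smul_zero]
  | succ j =>
    have hmem : ∑ g ∈ A, ext g (e g) ∈ AC M G Finset.univ j := by
      refine AddSubgroup.sum_mem _ fun g hg => ext_mem fun S hS => ⟨((he g hg).1 S hS).1, ?_⟩
      have := (he g hg).2.1 S hS
      omega
    refine ⟨Acod r (∑ g ∈ A, ext g (e g)), ⟨_, hmem, rfl⟩, ?_⟩
    intro x T hx hb
    by_contra hlt
    have hlt : N + 1 ≤ ln x := by omega
    by_cases hT : G.IsClique T
    · refine hx ?_
      rw [Pi.sub_apply, map_sum, Finset.sum_apply]
      have h1 : ∀ g ∈ A, Acod r (ext g (e g)) (x, T) = if x = g then dl r (e g) T else 0 := fun g hg =>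
        Acod_ext_bot (he g hg).1 hT hb (by rw [hA' g hg]; exact hlt) inferInstance
      rw [Finset.sum_congr rfl h1, Finset.sum_ite_eq]
      by_cases hxA : x ∈ A
      · rw [if_pos hxA, (he x hxA).2.2 T hT hb, sub_self]
      · rw [if_neg hxA, sub_zero]
        by_contra h2
        have h3 := hN x T h2 hb
        exact hxA (hA x T h2 (by omega))
    · refine hx ?_
      rw [Pi.sub_apply, Acod_apply_not hT, sub_zero]
      by_contra h2
      exact hT (hf.2.1 _ h2).2.2

/-- reduction to cochains which live on the cells with bottom `1` -/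
lemma reduce (hr : Function.Injective r) (hac : ∀ σ : Finset V, σ.Nonempty → G.IsClique σ → Acy M r (Clq G σ))
    {i : ℕ} {f : RACG G × Finset V → M} (hf : f ∈ AC M G Finset.univ i)
    (h0 : ∀ x T, (∀ s ∈ T, ¬ Rd s x) → 1 ≤ ln x → Acod r f (x, T) = 0) :
    ∃ b ∈ AB M G r i, Bl 0 (f - b) := by
  obtain ⟨N, hN⟩ := exists_Bl hf
  induction N generalizing f with
  | zero => exact ⟨0, zero_mem _, by rwa [sub_zero]⟩
  | succ N ih =>
    obtain ⟨b, hb, h1⟩ := reduce_step hr hac hf hN h0
    obtain ⟨b', hb', h2⟩ := ih (sub_mem hf (AB_le i hb)) (fun x T hx hl => by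
      rw [_root_.map_sub, Acod_AB hr hb, sub_zero]
      exact h0 x T hx hl) h1
    exact ⟨b + b', add_mem hb hb', by rwa [← sub_sub]⟩

end Hc

omit [Fintype V] in
lemma Hc.mem_clq_empty {S : Finset V} : S ∈ Clq G ∅ ↔ G.IsClique S := by
  show G.IsClique S ∧ Disjoint S ∅ ↔ _
  simp

/-- a cochain which lives on the cells with bottom `1` -/
lemma Hc.dl_one {i : ℕ} {f : RACG G × Finset V → M} (hf : f ∈ AC M G Finset.univ i) (hB : Bl 0 f) {c : Finset V → M}
    {T : Finset V} (hT : G.IsClique T) (hc : ∀ v ∈ T, c (T.erase v) = f (1, T.erase v)) :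
    dl r c T = Acod r f (1, T) := by
  refine dl_restrict hf (g := 1) ?_ hT (fun s _ => not_rd_one s) hc
  intro v T' h1 h2
  by_contra h3
  have h4 := hB _ _ h3 h1
  have h5 := ln_mul h2
  omega

/-- on the cells with bottom `1`: solve on `Clq G ∅ \ {τ}` -/
lemma Hc.solve {n : ℕ} {τ : Finset V} (h : Sph M r G n τ) {i : ℕ} {f : RACG G × Finset V → M}
    (hf : f ∈ AC M G Finset.univ i) (hB : Bl 0 f) (h0 : Acod r f = 0) :
    ∃ b ∈ AB M G r i, ∃ m : M, f = b + cel m 1 τ ∧ (i ≠ n → m = 0) := by
  classical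
  have hD : ∀ S, S ∈ Clq G ∅ \ {τ} ↔ G.IsClique S ∧ S ≠ τ := by
    intro S
    rw [Set.mem_sdiff, mem_clq_empty]
    rfl
  let c : Finset V → M := fun S => if S = τ then 0 else f (1, S)
  have hc0 : ∀ S, S ∉ Clq G ∅ \ {τ} → c S = 0 := by
    intro S hS
    rw [hD] at hS
    by_cases h1 : S = τ
    · exact if_pos h1
    · show (if S = τ then 0 else f (1, S)) = 0
      rw [if_neg h1]
      by_contra h2
      exact hS ⟨(hf.2.1 _ h2).2.2, h1⟩
  have hcd : ∀ T : Finset V, G.IsClique T → ∀ v ∈ T, c (T.erase v) = f (1, T.erase v) := by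
    intro T hT v hv
    refine if_neg fun h1 => ?_
    have h2 := h.dim T hT
    have h3 := h.card
    rw [← h1] at h3
    have h4 := Finset.card_erase_add_one hv
    omega
  have hdl : ∀ T ∈ Clq G ∅ \ {τ}, dl r c T = 0 := by
    intro T hT
    rw [dl_one hf hB ((hD T).1 hT).1 (hcd T ((hD T).1 hT).1), h0]
    rfl
  obtain ⟨e0, he0, he1⟩ := h.fac c hc0 hdl
  obtain ⟨e, h1, h2, h3⟩ := trunc (i := i) he0 he1 (by
    intro S hS
    by_cases hS' : S = τ
    · exact absurd (if_pos hS') hS
    · have h4 : f (1, S) ≠ 0 := by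
        intro h5
        refine hS ?_
        show (if S = τ then 0 else f (1, S)) = 0
        rw [if_neg hS', h5]
      exact (hf.2.1 _ h4).2.1)
  have he2 : ∀ S, e S ≠ 0 → G.IsClique S ∧ ∀ s ∈ S, ¬ Rd s (1 : RACG G) := fun S hS =>
    ⟨((hD S).1 (h1 S hS).1).1, fun s _ => not_rd_one s⟩
  let m : M := f (1, τ) - dl r e τ
  have hm : i ≠ n → m = 0 := by
    intro hi
    show f (1, τ) - dl r e τ = 0
    rw [h3 τ (by rw [h.card]; exact Ne.symm hi), sub_zero]
    by_contra h4
    exact hi (by rw [← (hf.2.1 _ h4).2.1, ← h.card])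
  -- the value on the bottom vertices
  have hval : ∀ F : RACG G × Finset V → M, (∀ x, ∀ T : Finset V, (∀ s ∈ T, ¬ Rd s x) → G.IsClique T →
      F (x, T) = if x = 1 then dl r e T else 0) →
      (∀ x, ∀ T : Finset V, ¬ G.IsClique T → F (x, T) = 0) → F ∈ AC M G Finset.univ i → f = F + cel m 1 τ := by
    intro F hF1 hF2 hF3
    have hmem : f - F - cel m 1 τ ∈ AC M G Finset.univ i := by
      refine sub_mem (sub_mem hf hF3) ?_
      by_cases hi : i = n
      · have := cel_mem m (1 : RACG G) h.clq
        rwa [h.card, ← hi] at this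
      · rw [hm hi, cel_zero]
        exact zero_mem _
    have hz := ac_ext hmem (by
      intro x T hx
      show f (x, T) - F (x, T) - cel m 1 τ (x, T) = 0
      by_cases hT : G.IsClique T
      · rw [hF1 x T hx hT]
        have hcel : cel m (1 : RACG G) τ (x, T) = if x = 1 ∧ T = τ then m else 0 := by
          by_cases hTτ : T = τ
          · subst hTτ
            by_cases hu : (1 : RACG G)⁻¹ * x ∈ Racg.sub (G := G) (T : Set V)
            · have h5 : (1 : RACG G)⁻¹ * x = 1 := eq_one_of_rd (w := 1) hT hu fun s hs => by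
                rw [one_mul, inv_one, one_mul]
                exact ⟨fun h6 => absurd h6 (hx s hs), fun h6 => absurd h6 (not_rd_one s)⟩
              rw [cel_pos _ hu, h5, map_one]
              rw [inv_one, one_mul] at h5
              rw [if_pos ⟨h5, rfl⟩]
              simp
            · rw [cel_neg _ hu, if_neg]
              rintro ⟨rfl, -⟩
              exact hu (by simp)
          · rw [cel_apply_ne _ _ _ hTτ, if_neg fun h5 => hTτ h5.2]
        rw [hcel]
        by_cases hx1 : x = 1
        · subst hx1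
          by_cases hTτ : T = τ
          · subst hTτ
            rw [if_pos rfl, if_pos ⟨rfl, rfl⟩]
            show f (1, T) - dl r e T - (f (1, T) - dl r e T) = 0
            rw [sub_self]
          · rw [if_pos rfl, if_neg fun h5 => hTτ h5.2, sub_zero, h2 T ((hD T).2 ⟨hT, hTτ⟩)]
            show f (1, T) - (if T = τ then 0 else f (1, T)) = 0
            rw [if_neg hTτ, sub_self]
        · rw [if_neg hx1, if_neg fun h5 => hx1 h5.1, sub_zero, sub_zero]
          by_contra h5
          have h6 := hB x T h5 hx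
          have h7 := ln_pos hx1
          omega
      · rw [hF2 x T hT, sub_zero, cel_apply_ne, sub_zero]
        · by_contra h5
          exact hT (hf.2.1 _ h5).2.2
        · rintro rfl
          exact hT h.clq)
    rw [sub_sub, sub_eq_zero] at hz
    exact hz
  cases i with
  | zero =>
    refine ⟨0, zero_mem _, m, ?_, hm⟩
    refine hval 0 ?_ (fun _ _ _ => rfl) (zero_mem _)
    intro x T _ _
    have h4 : dl r e T = 0 := by
      refine Finset.sum_eq_zero fun v _ => ?_
      have h5 : e (T.erase v) = 0 := by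
        by_contra h6
        exact absurd (h1 _ h6).2 (by omega)
      rw [h5, smul_zero]
    rw [h4]
    simp
  | succ j =>
    have hmem : ext (1 : RACG G) e ∈ AC M G Finset.univ j := ext_mem fun S hS =>
      ⟨(he2 S hS).1, by have := (h1 S hS).2; omega⟩
    refine ⟨Acod r (ext 1 e), ⟨_, hmem, rfl⟩, m, ?_, hm⟩
    refine hval _ ?_ (fun _ _ hT => Acod_apply_not hT) (Acod_mem hmem)
    intro x T hx hT
    exact Acod_ext_bot he2 hT hx (by rw [ln_one]; omega) _

theorem hc_vanish (hr : Function.Injective r) {n : ℕ} {τ : Finset V} (h : Sph M r G n τ) {i : ℕ} (hi : i ≠ n)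
    {f : RACG G × Finset V → M} (hf : f ∈ AC M G Finset.univ i) (h0 : Acod r f = 0) : f ∈ AB M G r i := by
  obtain ⟨b, hb, h1⟩ := reduce hr h.acy hf fun x T _ _ => by rw [h0]; rfl
  obtain ⟨b', hb', m, h2, h3⟩ := solve h (sub_mem hf (AB_le i hb)) h1 (by
    rw [_root_.map_sub, h0, Acod_AB hr hb, sub_zero])
  rw [h3 hi, cel_zero, add_zero] at h2
  rw [sub_eq_iff_eq_add.1 h2]
  exact add_mem hb' hb

theorem hc_gen (hr : Function.Injective r) {n : ℕ} {τ : Finset V} (h : Sph M r G n τ)
    {f : RACG G × Finset V → M} (hf : f ∈ AC M G Finset.univ n) : ∃ m : M, f - cel m 1 τ ∈ AB M G r n := by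
  have h0 : Acod r f = 0 := by
    funext x
    by_contra h1
    have h2 := (Acod_mem hf (r := r)).2.1 x h1
    have h3 := h.dim _ h2.2.2
    omega
  obtain ⟨b, hb, h1⟩ := reduce hr h.acy hf fun x T _ _ => by rw [h0]; rfl
  obtain ⟨b', hb', m, h2, -⟩ := solve h (sub_mem hf (AB_le n hb)) h1 (by
    rw [_root_.map_sub, h0, Acod_AB hr hb, sub_zero])
  refine ⟨m, ?_⟩
  have h3 : f - cel m 1 τ = b' + b := by
    rw [sub_eq_iff_eq_add] at h2 ⊢
    rw [h2]
    abel
  rw [h3]
  exact add_mem hb' hb

theorem hc_inj (hr : Function.Injective r) {n : ℕ} {τ : Finset V} (h : Sph M r G n τ) {m : M}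
    (hm : cel (G := G) m 1 τ ∈ AB M G r n) : m = 0 := by
  classical
  have hval : cel (G := G) m 1 τ (1, τ) = m := by
    rw [cel_pos m (by simp), mul_one, inv_one, map_one]
    simp
  cases n with
  | zero =>
    have h1 : cel (G := G) m 1 τ = 0 := hm
    rw [← hval, h1]
    rfl
  | succ j =>
    obtain ⟨e, he, h1⟩ := hm
    have hcel : ∀ x T, (∀ s ∈ T, ¬ Rd s x) → ¬ (x = 1 ∧ T = τ) → cel (G := G) m 1 τ (x, T) = 0 := by
      intro x T hx hne
      by_cases hTτ : T = τ
      · subst hTτ
        refine cel_neg _ fun hu => hne ⟨?_, rfl⟩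
        have h5 : (1 : RACG G)⁻¹ * x = 1 := eq_one_of_rd (w := 1) h.clq hu fun s hs => by
          rw [one_mul, inv_one, one_mul]
          exact ⟨fun h6 => absurd h6 (hx s hs), fun h6 => absurd h6 (not_rd_one s)⟩
        rwa [inv_one, one_mul] at h5
      · exact cel_apply_ne _ _ _ hTτ
    obtain ⟨b, hb, h2⟩ := reduce hr h.acy he fun x T hx hl => by
      rw [h1]
      refine hcel x T hx ?_
      rintro ⟨rfl, -⟩
      rw [ln_one] at hl
      omega
    have he' : e - b ∈ AC M G Finset.univ j := sub_mem he (AB_le j hb)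
    have h3 : Acod r (e - b) = cel m 1 τ := by rw [_root_.map_sub, Acod_AB hr hb, sub_zero, h1]
    have hdl : ∀ T : Finset V, G.IsClique T → dl r (fun S => (e - b) (1, S)) T = cel (G := G) m 1 τ (1, T) := by
      intro T hT
      rw [dl_one he' h2 hT fun _ _ => rfl, h3]
    have hD : ∀ S, S ∈ Clq G ∅ \ {τ} ↔ G.IsClique S ∧ S ≠ τ := by
      intro S
      rw [Set.mem_sdiff, mem_clq_empty]
      rfl
    obtain ⟨e0, he0, he1⟩ := h.fac (fun S => (e - b) (1, S)) (by
      intro S hS
      by_contra h4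
      have h5 := he'.2.1 _ h4
      refine hS ((hD S).2 ⟨h5.2.2, ?_⟩)
      rintro rfl
      have h6 := h.card
      have h7 : S.card = j := h5.2.1
      omega) (by
      intro T hT
      rw [hdl T ((hD T).1 hT).1]
      exact cel_apply_ne _ _ _ ((hD T).1 hT).2)
    rw [← hval, ← hdl τ h.clq, ← dl_dl hr e0 τ]
    refine Finset.sum_congr rfl fun v hv => ?_
    rw [he1 (τ.erase v)]
    rw [hD]
    refine ⟨h.clq.subset (by simp), fun h4 => ?_⟩
    have h5 := Finset.card_erase_add_one hv
    rw [h4] at h5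
    omega

end hc

end Singer
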