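import Pool.Agent.Singer.Racg
import Pool.Agent.Singer.PDStmt

/-!
# Singer: the Davis complex with coefficients, acyclic families

* `AC`, `AD`, `Acod`, `AB` : finitely supported chains of the Davis complex with coefficients in `M`, boundary,
  coboundary, the group of coboundaries;
* `Acy M r D` : acyclic families of finite sets; `QS` : the property of graphs which gives duality;
* `Fr H`, `ker2 G` : subgroups with a free action on the cells, the kernel of the homomorphism to `(ℤ/2)^V`; `cel m g S` : a cell; `Frame H` : representatives of the orbits of cells; `Sph` : the data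
  of a homology sphere.
-/

set_option autoImplicit false
set_option linter.unusedSectionVars false
set_option linter.unusedVariables false

namespace Singer

universe u

/-! ### The Davis complex with coefficients in an abelian group -/

/-- the sign of the vertex `v` in `insert v T` -/
def sgz {V : Type*} (r : V → ℕ) (v : V) (T : Finset V) : ℤ := (-1) ^ (T.filter fun t => r t < r v).card

section alg
variable {V : Type u} [DecidableEq V]

/-- chains with coefficients in `M`: finitely supported antisymmetric functions on the cliques of size `i` in `A` -/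
def AC (M : Type*) [AddCommGroup M] (G : SimpleGraph V) (A : Finset V) (i : ℕ) :
    AddSubgroup (RACG G × Finset V → M) where
  carrier := {f | (Function.support f).Finite ∧
    (∀ x : RACG G × Finset V, f x ≠ 0 → x.2 ⊆ A ∧ x.2.card = i ∧ G.IsClique x.2) ∧
    ∀ g T, ∀ v ∈ T, f (g * Racg.gen G v, T) = -f (g, T)}
  zero_mem' := by simp
  add_mem' := by
    rintro f h ⟨hf0, hf1, hf2⟩ ⟨hh0, hh1, hh2⟩
    refine ⟨(hf0.union hh0).subset (Function.support_add _ _), fun x hx => ?_, fun g T v hv => ?_⟩
    · by_cases h1 : f x = 0
      · refine hh1 x fun h2 => hx ?_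
        rw [Pi.add_apply, h1, h2, add_zero]
      · exact hf1 x h1
    · rw [Pi.add_apply, Pi.add_apply, hf2 g T v hv, hh2 g T v hv, neg_add]
  neg_mem' := by
    rintro f ⟨hf0, hf1, hf2⟩
    refine ⟨hf0.subset fun x hx h0 => hx ?_, fun x hx => hf1 x fun h0 => hx ?_, fun g T v hv => ?_⟩
    · rw [Pi.neg_apply, h0, neg_zero]
    · rw [Pi.neg_apply, h0, neg_zero]
    · rw [Pi.neg_apply, Pi.neg_apply, hf2 g T v hv]

variable {M : Type*} [AddCommGroup M] {G : SimpleGraph V}

/-- the boundary -/
def AD [Fintype V] (r : V → ℕ) : (RACG G × Finset V → M) →+ (RACG G × Finset V → M) where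
  toFun f := fun x => ∑ v ∈ x.2ᶜ, sgz r v x.2 • f (x.1, insert v x.2)
  map_zero' := by
    funext x
    simp
  map_add' f h := by
    funext x
    simp [smul_add, Finset.sum_add_distrib]

open Classical in
/-- the coboundary -/
noncomputable def Acod (r : V → ℕ) : (RACG G × Finset V → M) →+ (RACG G × Finset V → M) where
  toFun f := fun x => if G.IsClique x.2 then ∑ v ∈ x.2, sgz r v (x.2.erase v) •
    (f (x.1, x.2.erase v) - f (x.1 * Racg.gen G v, x.2.erase v)) else 0
  map_zero' := by
    funext x
    simp
  map_add' f h := by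
    funext x
    by_cases hx : G.IsClique x.2
    · simp only [if_pos hx, Pi.add_apply, ← Finset.sum_add_distrib, ← smul_add]
      refine Finset.sum_congr rfl fun v _ => ?_
      congr 1
      abel
    · simp [if_neg hx]

/-- the coboundaries of finitely supported cochains -/
noncomputable def AB (M : Type*) [AddCommGroup M] (G : SimpleGraph V) [Fintype V] (r : V → ℕ) :
    ℕ → AddSubgroup (RACG G × Finset V → M)
  | 0 => ⊥
  | i + 1 => (AC M G Finset.univ i).map (Acod r)

end alg

/-! ### Acyclic families of finite sets -/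

section acy
variable {V : Type*} [DecidableEq V]

/-- convex families of finite sets -/
def Cvx (D : Set (Finset V)) : Prop := ∀ S ∈ D, ∀ T ∈ D, ∀ R, S ⊆ R → R ⊆ T → R ∈ D

/-- `D` is convex, it is the union of `D₁` and `D₂`, and no element of `D₂` is contained in an element of `D₁` -/
structure Dec (D D₁ D₂ : Set (Finset V)) : Prop where
  cvx : Cvx D
  mem : ∀ S, S ∈ D ↔ S ∈ D₁ ∨ S ∈ D₂
  low : ∀ S ∈ D₁, ∀ T ∈ D₂, ¬ T ⊆ S

/-- the simplicial coboundary -/
def dl {M : Type*} [AddCommGroup M] (r : V → ℕ) (c : Finset V → M) (T : Finset V) : M :=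
  ∑ v ∈ T, sgz r v (T.erase v) • c (T.erase v)

/-- acyclic families: the complex of the cochains which are zero outside of `D` is exact -/
def Acy (M : Type*) [AddCommGroup M] (r : V → ℕ) (D : Set (Finset V)) : Prop :=
  ∀ c : Finset V → M, (∀ S, S ∉ D → c S = 0) → (∀ T ∈ D, dl r c T = 0) →
    ∃ e : Finset V → M, (∀ S, S ∉ D → e S = 0) ∧ ∀ T ∈ D, dl r e T = c T

/-- the cliques which do not meet `σ` -/
def Clq (G : SimpleGraph V) (σ : Finset V) : Set (Finset V) := {S | G.IsClique S ∧ Disjoint S σ}

end acy

/-- the sphere condition: the complement of a nonempty clique is acyclic -/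
def QS (_n : ℕ) {V : Type u} [Fintype V] (G : SimpleGraph V) : Prop := by
  classical
  exact Nonempty V ∧ ∀ σ : Finset V, σ.Nonempty → G.IsClique σ → ∀ r : V → ℕ, Function.Injective r →
    Acy ℤ r (Clq G σ)

/-! ### Subgroups -/

section sub
variable {V : Type u}

/-- `H` acts freely on the cells of the Davis complex -/
def Fr {G : SimpleGraph V} (H : Subgroup (RACG G)) : Prop :=
  ∀ S : Finset V, G.IsClique S → ∀ w : RACG G, ∀ h ∈ H, w⁻¹ * h * w ∈ Racg.sub (G := G) (S : Set V) → h = 1

open Classical in
/-- the homomorphism to `(ℤ/2)^V` -/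
noncomputable def ab2 (G : SimpleGraph V) : RACG G →* (V → Multiplicative (ZMod 2)) :=
  Racg.lift (fun v w => if w = v then Multiplicative.ofAdd 1 else 1)
    (fun v => by
      funext w
      rw [Pi.mul_apply, Pi.one_apply]
      by_cases h : w = v
      · rw [if_pos h]; rfl
      · rw [if_neg h]; rfl)
    fun u v _ => mul_comm _ _

/-- the kernel of the homomorphism to `(ℤ/2)^V` -/
noncomputable def ker2 (G : SimpleGraph V) : Subgroup (RACG G) := (ab2 G).ker

/-- the sign -/
noncomputable def sgW (G : SimpleGraph V) : RACG G →* ℤˣ :=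
  Racg.lift (fun _ => -1) (fun _ => by norm_num) fun _ _ _ => rfl

open Classical in
/-- the cell `g W_S` with the coefficient `m` -/
noncomputable def cel {M : Type*} [AddCommGroup M] {G : SimpleGraph V} (m : M) (g : RACG G) (S : Finset V)
    (x : RACG G × Finset V) : M :=
  if x.2 = S ∧ g⁻¹ * x.1 ∈ Racg.sub (G := G) (S : Set V) then ((sgW G (g⁻¹ * x.1) : ℤˣ) : ℤ) • m else 0

/-- coordinates for a subgroup which acts freely on the cells: representatives `t S o` of the double cosets -/
structure Frame {G : SimpleGraph V} (H : Subgroup (RACG G)) where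
  /-- the orbits of cells of type `S` -/
  O : Finset V → Type u
  [fin : ∀ S, Fintype (O S)]
  /-- representatives -/
  t : ∀ S, O S → RACG G
  /-- coordinates -/
  e : ∀ S : Finset V, G.IsClique S → (H × O S × Racg.sub (G := G) (S : Set V)) ≃ RACG G
  e_apply : ∀ (S : Finset V) (hS : G.IsClique S) (h : H) (o : O S) (u : Racg.sub (G := G) (S : Set V)),
    e S hS (h, o, u) = h * t S o * u

attribute [instance] Frame.fin

/-- the basis of the chains of degree `i` -/
abbrev Frame.J {G : SimpleGraph V} {H : Subgroup (RACG G)} (F : Frame H) (i : ℕ) : Type u :=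
  Σ S : {S : Finset V // G.IsClique S ∧ S.card = i}, F.O S.1

end sub

/-- the data of a homology sphere with the facet `τ` -/
structure Sph {V : Type u} [DecidableEq V] (M : Type*) [AddCommGroup M] (r : V → ℕ) (G : SimpleGraph V) (n : ℕ)
    (τ : Finset V) : Prop where
  acy : ∀ σ : Finset V, σ.Nonempty → G.IsClique σ → Acy M r (Clq G σ)
  clq : G.IsClique τ
  card : τ.card = n
  fac : Acy M r (Clq G ∅ \ {τ})
  dim : ∀ S : Finset V, G.IsClique S → S.card ≤ n

end Singer
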