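import Pool.Agent.Singer.Dim

/-!
# Singer: rank-nullity
-/

set_option autoImplicit false
set_option linter.unusedSectionVars false
set_option linter.unusedVariables false

open scoped ComplexConjugate InnerProductSpace
open Filter Topology

namespace Singer

variable {Γ : Type*} [Group Γ] {ι κ : Type*} [Fintype ι] [Fintype κ]

section contraction
variable {H K : Type*} [NormedAddCommGroup H] [InnerProductSpace ℂ H] [CompleteSpace H]
  [NormedAddCommGroup K] [InnerProductSpace ℂ K] [CompleteSpace K]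

/-- `1 - c T*T` -/
noncomputable def ctr (T : H →L[ℂ] K) : H →L[ℂ] H := 1 - ((1 / (‖T‖ ^ 2 + 1) : ℝ) : ℂ) • (ContinuousLinearMap.adjoint T).comp T

lemma norm_ctr_le (T : H →L[ℂ] K) : ‖ctr T‖ ≤ 1 := by
  refine ContinuousLinearMap.opNorm_le_bound _ zero_le_one fun x => ?_
  set c : ℝ := 1 / (‖T‖ ^ 2 + 1) with hc
  have hc0 : 0 < c := by positivity
  have hcT : c * ‖T‖ ^ 2 ≤ 1 := by
    rw [hc, one_div, inv_mul_le_iff₀ (by positivity)]
    linarith
  rw [one_mul]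
  have h1 : ctr T x = x - (c : ℂ) • (ContinuousLinearMap.adjoint T) (T x) := by
    simp [ctr, hc]
  have h2 : ‖ctr T x‖ ^ 2 = ‖x‖ ^ 2 - 2 * c * ‖T x‖ ^ 2 + c ^ 2 * ‖(ContinuousLinearMap.adjoint T) (T x)‖ ^ 2 := by
    rw [h1, norm_sub_sq (𝕜 := ℂ), inner_smul_right, ContinuousLinearMap.adjoint_inner_right]
    have h3 : ⟪T x, T x⟫_ℂ = ((‖T x‖ ^ 2 : ℝ) : ℂ) := by
      rw [inner_self_eq_norm_sq_to_K]; simp
    rw [h3, norm_smul, mul_pow]
    have h4 : RCLike.re ((c : ℂ) * ((‖T x‖ ^ 2 : ℝ) : ℂ)) = c * ‖T x‖ ^ 2 := by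
      rw [← Complex.ofReal_mul]
      exact Complex.ofReal_re _
    rw [h4]
    simp
    ring
  have h5 : ‖(ContinuousLinearMap.adjoint T) (T x)‖ ^ 2 ≤ ‖T‖ ^ 2 * ‖T x‖ ^ 2 := by
    rw [← mul_pow]
    have := (ContinuousLinearMap.adjoint T).le_opNorm (T x)
    rw [LinearIsometryEquiv.norm_map] at this
    gcongr
  have h6 : ‖ctr T x‖ ^ 2 ≤ ‖x‖ ^ 2 := by
    rw [h2]
    have : c ^ 2 * ‖(ContinuousLinearMap.adjoint T) (T x)‖ ^ 2 ≤ c * ‖T x‖ ^ 2 := by
      calc c ^ 2 * ‖(ContinuousLinearMap.adjoint T) (T x)‖ ^ 2 ≤ c ^ 2 * (‖T‖ ^ 2 * ‖T x‖ ^ 2) := by gcongr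
        _ = c * (c * ‖T‖ ^ 2) * ‖T x‖ ^ 2 := by ring
        _ ≤ c * 1 * ‖T x‖ ^ 2 := by gcongr
        _ = _ := by ring
    nlinarith [norm_nonneg (T x), sq_nonneg ‖T x‖]
  exact abs_le_of_sq_le_sq' h6 (norm_nonneg _) |>.2

lemma ctr_eq_iff (T : H →L[ℂ] K) (x : H) : ctr T x = x ↔ T x = 0 := by
  have hc : ((1 / (‖T‖ ^ 2 + 1) : ℝ) : ℂ) ≠ 0 := by
    rw [Complex.ofReal_ne_zero]; positivity
  constructor
  · intro h
    have h1 : ctr T x = x - ((1 / (‖T‖ ^ 2 + 1) : ℝ) : ℂ) • (ContinuousLinearMap.adjoint T) (T x) := by simp [ctr]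
    rw [h1, sub_eq_self, smul_eq_zero] at h
    have h2 := h.resolve_left hc
    have h3 : ⟪T x, T x⟫_ℂ = 0 := by
      rw [← ContinuousLinearMap.adjoint_inner_right, h2, inner_zero_right]
    exact inner_self_eq_zero.1 h3
  · intro h
    simp [ctr, h]

lemma ctr_comp_adj (T : H →L[ℂ] K) : (ctr T).comp (ContinuousLinearMap.adjoint T) = (ContinuousLinearMap.adjoint T).comp (ctr (ContinuousLinearMap.adjoint T)) := by
  have h : ‖ContinuousLinearMap.adjoint T‖ = ‖T‖ := LinearIsometryEquiv.norm_map _ _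
  ext1 x
  simp [ctr, h]

lemma ctr_pow_comp_adj (T : H →L[ℂ] K) (n : ℕ) : ((ctr T) ^ n).comp (ContinuousLinearMap.adjoint T) = (ContinuousLinearMap.adjoint T).comp ((ctr (ContinuousLinearMap.adjoint T)) ^ n) := by
  induction n with
  | zero => ext1 x; simp
  | succ n ih =>
    rw [pow_succ, pow_succ]
    calc ((ctr T) ^ n * ctr T).comp (ContinuousLinearMap.adjoint T) = ((ctr T) ^ n).comp ((ctr T).comp (ContinuousLinearMap.adjoint T)) := rfl
      _ = (((ctr T) ^ n).comp (ContinuousLinearMap.adjoint T)).comp (ctr (ContinuousLinearMap.adjoint T)) := by rw [ctr_comp_adj]; rfl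
      _ = _ := by rw [ih]; rfl

end contraction

omit [Fintype ι] [Fintype κ] in
lemma equi_ctr {T : E Γ ι →L[ℂ] E Γ κ} (hT : Equi T) : Equi (ctr T) :=
  equi_one.sub ((hT.adjoint.comp hT).smul _)

omit [Fintype ι] in
lemma Equi.pow {T : E Γ ι →L[ℂ] E Γ ι} (hT : Equi T) (n : ℕ) : Equi (T ^ n) := by
  induction n with
  | zero => exact equi_one
  | succ n ih => rw [pow_succ]; exact ih.comp hT

lemma tr_pow {T : E Γ ι →L[ℂ] E Γ κ} (hT : Equi T) (n : ℕ) :
    tr ((ctr T) ^ n) - Fintype.card ι = tr ((ctr (ContinuousLinearMap.adjoint T)) ^ n) - Fintype.card κ := by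
  induction n with
  | zero => rw [pow_zero, pow_zero, tr_one, tr_one]; simp
  | succ n ih =>
    set c : ℂ := ((1 / (‖T‖ ^ 2 + 1) : ℝ) : ℂ) with hc
    have hn : ‖ContinuousLinearMap.adjoint T‖ = ‖T‖ := LinearIsometryEquiv.norm_map _ _
    have e1 : ctr T = 1 - c • (ContinuousLinearMap.adjoint T).comp T := rfl
    have e2 : ctr (ContinuousLinearMap.adjoint T) = 1 - c • T.comp (ContinuousLinearMap.adjoint T) := by
      unfold ctr
      rw [ContinuousLinearMap.adjoint_adjoint, hn]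
    have h1 : (ctr T) ^ (n + 1) = (ctr T) ^ n - c • (((ctr T) ^ n).comp (ContinuousLinearMap.adjoint T)).comp T := by
      calc (ctr T) ^ (n + 1) = (ctr T) ^ n * (1 - c • (ContinuousLinearMap.adjoint T).comp T) := by rw [pow_succ, ← e1]
        _ = _ := by rw [mul_sub, mul_one, mul_smul_comm]; rfl
    have h2 : (ctr (ContinuousLinearMap.adjoint T)) ^ (n + 1) = (ctr (ContinuousLinearMap.adjoint T)) ^ n - c • T.comp ((ContinuousLinearMap.adjoint T).comp ((ctr (ContinuousLinearMap.adjoint T)) ^ n)) := by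
      calc (ctr (ContinuousLinearMap.adjoint T)) ^ (n + 1) = (1 - c • T.comp (ContinuousLinearMap.adjoint T)) * (ctr (ContinuousLinearMap.adjoint T)) ^ n := by rw [pow_succ', ← e2]
        _ = _ := by rw [sub_mul, one_mul, smul_mul_assoc]; rfl
    have h3 : tr ((((ctr T) ^ n).comp (ContinuousLinearMap.adjoint T)).comp T) = tr (T.comp ((ContinuousLinearMap.adjoint T).comp ((ctr (ContinuousLinearMap.adjoint T)) ^ n))) := by
      rw [tr_comp (((equi_ctr hT).pow n).comp hT.adjoint) hT, ctr_pow_comp_adj]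
    rw [h1, h2, tr_sub, tr_sub, tr_smul, tr_smul, h3]
    linear_combination ih

lemma tr_avg {S : E Γ ι →L[ℂ] E Γ ι} (hn : ‖S‖ ≤ 1) {V : Submodule ℂ (E Γ ι)} (hV : ∀ x, S x = x ↔ x ∈ V) :
    Tendsto (fun N : ℕ => (N : ℂ)⁻¹ * ∑ n ∈ Finset.range N, tr (S ^ n)) atTop (𝓝 (tr (prj V))) := by
  have hcl : IsClosed (V : Set (E Γ ι)) := by
    have : (V : Set (E Γ ι)) = {x | S x = x} := by ext x; exact (hV x).symm
    rw [this]
    exact isClosed_eq S.continuous continuous_id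
  have key : ∀ j : ι, Tendsto (fun N : ℕ => (birkhoffAverage ℂ S _root_.id N (del (1 : Γ) j)) (1, j)) atTop
      (𝓝 ((prj V (del 1 j)) (1, j))) := by
    intro j
    have h1 := ContinuousLinearMap.tendsto_birkhoffAverage_orthogonalProjection S hn (del (1 : Γ) j)
    have h2 : ((S.eqLocus (1 : E Γ ι →L[ℂ] E Γ ι)).orthogonalProjectionOnto (del (1 : Γ) j) : E Γ ι) =
        prj V (del 1 j) := by
      symm
      refine prj_unique ?_ ?_
      · apply V.le_topologicalClosure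
        rw [← hV]
        have := ((S.eqLocus (1 : E Γ ι →L[ℂ] E Γ ι)).orthogonalProjectionOnto (del (1 : Γ) j)).2
        exact this
      · rw [Submodule.mem_orthogonal]
        intro u hu
        have hu' : u ∈ S.eqLocus (1 : E Γ ι →L[ℂ] E Γ ι) := (hV u).2 hu
        have h3 := Submodule.sub_starProjection_mem_orthogonal (K := S.eqLocus (1 : E Γ ι →L[ℂ] E Γ ι)) (del (1 : Γ) j)
        exact (Submodule.mem_orthogonal _ _).1 h3 u hu'
    rw [h2] at h1
    have h3 := (h1.inner (𝕜 := ℂ) (tendsto_const_nhds (x := del (1 : Γ) j)))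
    have h4 : ∀ f : E Γ ι, f (1, j) = conj ⟪f, del (1 : Γ) j⟫_ℂ := by
      intro f
      rw [inner_del_right]; simp
    simp_rw [h4]
    exact (Complex.continuous_conj.tendsto _).comp h3
  have hsum := tendsto_finsetSum (Finset.univ : Finset ι) fun j _ => key j
  refine hsum.congr fun N => ?_
  have h5 : ∀ j : ι, (birkhoffAverage ℂ S _root_.id N (del (1 : Γ) j)) (1, j) =
      (N : ℂ)⁻¹ * ∑ n ∈ Finset.range N, ((S ^ n) (del 1 j)) (1, j) := by
    intro j
    have h6 : birkhoffAverage ℂ S _root_.id N (del (1 : Γ) j) =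
        (N : ℂ)⁻¹ • ∑ n ∈ Finset.range N, (S ^ n) (del (1 : Γ) j) := by
      unfold birkhoffAverage birkhoffSum
      congr 1
      refine Finset.sum_congr rfl fun n _ => ?_
      simp
    rw [h6, lp.coeFn_smul, Pi.smul_apply, lp.coeFn_sum, Finset.sum_apply, smul_eq_mul]
  simp_rw [h5]
  rw [← Finset.mul_sum, Finset.sum_comm]
  rfl

/-- rank-nullity -/
theorem vdim_ker_add {T : E Γ ι →L[ℂ] E Γ κ} (hT : Equi T) :
    vdim (LinearMap.range (T : E Γ ι →ₗ[ℂ] E Γ κ)) + vdim (LinearMap.ker (T : E Γ ι →ₗ[ℂ] E Γ κ)) = Fintype.card ι := by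
  have h1 := tr_avg (norm_ctr_le T) (V := LinearMap.ker (T : E Γ ι →ₗ[ℂ] E Γ κ)) (fun x => ctr_eq_iff T x)
  have h2 := tr_avg (norm_ctr_le (ContinuousLinearMap.adjoint T)) (V := LinearMap.ker ((ContinuousLinearMap.adjoint T) : E Γ κ →ₗ[ℂ] E Γ ι)) (fun x => ctr_eq_iff (ContinuousLinearMap.adjoint T) x)
  have h3 : Tendsto (fun N : ℕ => (N : ℂ)⁻¹ * ∑ n ∈ Finset.range N, tr ((ctr T) ^ n)) atTop
      (𝓝 (tr (prj (LinearMap.ker ((ContinuousLinearMap.adjoint T) : E Γ κ →ₗ[ℂ] E Γ ι))) - Fintype.card κ + Fintype.card ι)) := by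
    refine ((h2.sub_const _).add_const _).congr' ?_
    filter_upwards [eventually_gt_atTop 0] with N hN
    have hN' : (N : ℂ) ≠ 0 := by exact_mod_cast hN.ne'
    have h4 : ∀ n, tr ((ctr T) ^ n) = tr ((ctr (ContinuousLinearMap.adjoint T)) ^ n) - Fintype.card κ + Fintype.card ι := fun n => by
      linear_combination tr_pow hT n
    simp_rw [h4]
    rw [Finset.sum_add_distrib, Finset.sum_sub_distrib]
    simp only [Finset.sum_const, Finset.card_range, nsmul_eq_mul]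
    field_simp
  have h5 := tendsto_nhds_unique h1 h3
  rw [← vdim_eq_tr, ← vdim_eq_tr] at h5
  have h6 : vdim (LinearMap.ker (T : E Γ ι →ₗ[ℂ] E Γ κ)) =
      vdim (LinearMap.ker ((ContinuousLinearMap.adjoint T) : E Γ κ →ₗ[ℂ] E Γ ι)) - Fintype.card κ + Fintype.card ι := by exact_mod_cast h5
  have h7 : (LinearMap.range (T : E Γ ι →ₗ[ℂ] E Γ κ))ᗮ = LinearMap.ker ((ContinuousLinearMap.adjoint T) : E Γ κ →ₗ[ℂ] E Γ ι) := by
    exact ContinuousLinearMap.orthogonal_range T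
  have h8 := vdim_orthogonal (LinearMap.range (T : E Γ ι →ₗ[ℂ] E Γ κ))
  rw [h7] at h8
  linarith

/-- rank-nullity on a closed invariant subspace -/
theorem vdim_map_add {T : E Γ ι →L[ℂ] E Γ κ} (hT : Equi T) {V : Submodule ℂ (E Γ ι)} (hV : Inv V)
    (hc : IsClosed (V : Set (E Γ ι))) :
    vdim (V.map (T : E Γ ι →ₗ[ℂ] E Γ κ)) + vdim (V ⊓ LinearMap.ker (T : E Γ ι →ₗ[ℂ] E Γ κ)) = vdim V := by
  have hmem : ∀ f, prj V f ∈ V := fun f => by
    have := prj_mem V f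
    rwa [IsClosed.submodule_topologicalClosure_eq hc] at this
  have hE : Equi (T.comp (prj V)) := hT.comp (equi_prj hV)
  have h1 := vdim_ker_add hE
  have h2 : LinearMap.range ((T.comp (prj V) : E Γ ι →L[ℂ] E Γ κ) : E Γ ι →ₗ[ℂ] E Γ κ) =
      V.map (T : E Γ ι →ₗ[ℂ] E Γ κ) := by
    ext y
    constructor
    · rintro ⟨x, rfl⟩
      exact ⟨prj V x, hmem x, rfl⟩
    · rintro ⟨x, hx, rfl⟩
      exact ⟨x, by simp [prj_eq_of_mem (V.le_topologicalClosure hx)]⟩
  have h3 : LinearMap.ker ((T.comp (prj V) : E Γ ι →L[ℂ] E Γ κ) : E Γ ι →ₗ[ℂ] E Γ κ) =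
      (V ⊓ LinearMap.ker (T : E Γ ι →ₗ[ℂ] E Γ κ)) ⊔ Vᗮ := by
    ext x
    constructor
    · intro hx
      have h4 : x = prj V x + (x - prj V x) := by abel
      rw [h4]
      exact Submodule.add_mem_sup ⟨hmem x, hx⟩ (sub_prj_mem V x)
    · intro hx
      obtain ⟨y, hy, z, hz, rfl⟩ := Submodule.mem_sup.1 hx
      show T (prj V (y + z)) = 0
      have h5 : prj V (y + z) = y := by
        refine prj_unique (V.le_topologicalClosure hy.1) ?_
        rwa [add_sub_cancel_left]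
      rw [h5]
      exact hy.2
  rw [h2, h3, vdim_sup_of_le_orthogonal, vdim_orthogonal] at h1
  · linarith
  · rw [Submodule.orthogonal_orthogonal_eq_closure]
    exact inf_le_left.trans V.le_topologicalClosure

/-- dimension of sums -/
theorem vdim_sup_add_inf {V W : Submodule ℂ (E Γ ι)} (hV : Inv V) (hW : Inv W) (hcV : IsClosed (V : Set (E Γ ι)))
    (hcW : IsClosed (W : Set (E Γ ι))) : vdim (V ⊔ W) + vdim (V ⊓ W) = vdim V + vdim W := by
  -- T = projection onto the complement of W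
  have hmem : ∀ f, prj W f ∈ W := fun f => by
    have := prj_mem W f
    rwa [IsClosed.submodule_topologicalClosure_eq hcW] at this
  set T : E Γ ι →L[ℂ] E Γ ι := 1 - prj W with hTdef
  have hT : Equi T := equi_one.sub (equi_prj hW)
  have h1 := vdim_map_add hT hV hcV
  have h2 : V ⊓ LinearMap.ker (T : E Γ ι →ₗ[ℂ] E Γ ι) = V ⊓ W := by
    congr 1
    ext x
    constructor
    · intro hx
      have hx' : x - prj W x = 0 := hx
      rw [sub_eq_zero] at hx'
      rw [hx']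
      exact hmem x
    · intro hx
      show x - prj W x = 0
      rw [prj_eq_of_mem (W.le_topologicalClosure hx), sub_self]
  have h3 : V ⊔ W = V.map (T : E Γ ι →ₗ[ℂ] E Γ ι) ⊔ W := by
    refine le_antisymm (sup_le (fun v hv => ?_) le_sup_right) (sup_le ?_ le_sup_right)
    · have h4 : v = (v - prj W v) + prj W v := by abel
      rw [h4]
      exact Submodule.add_mem_sup ⟨v, hv, rfl⟩ (hmem v)
    · rintro _ ⟨v, hv, rfl⟩
      show v - prj W v ∈ V ⊔ W
      exact Submodule.sub_mem _ (Submodule.mem_sup_left hv) (Submodule.mem_sup_right (hmem v))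
  have h5 : V.map (T : E Γ ι →ₗ[ℂ] E Γ ι) ≤ Wᗮ := by
    rintro _ ⟨v, hv, rfl⟩
    exact sub_prj_mem W v
  rw [h2] at h1
  rw [h3, vdim_sup_of_le_orthogonal h5]
  linarith

/-- dimension of a preimage of a submodule of the closure of the image -/
theorem vdim_comap {T : E Γ ι →L[ℂ] E Γ κ} (hT : Equi T) {X : Submodule ℂ (E Γ ι)} (hX : Inv X)
    (hcX : IsClosed (X : Set (E Γ ι))) {V : Submodule ℂ (E Γ κ)} (hV : Inv V) (hcV : IsClosed (V : Set (E Γ κ)))
    (hle : V ≤ (X.map (T : E Γ ι →ₗ[ℂ] E Γ κ)).topologicalClosure) :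
    vdim (X ⊓ V.comap (T : E Γ ι →ₗ[ℂ] E Γ κ)) + vdim (X.map (T : E Γ ι →ₗ[ℂ] E Γ κ)) = vdim X + vdim V := by
  -- S = projection onto the complement of V, after T
  have hmem : ∀ f, prj V f ∈ V := fun f => by
    have := prj_mem V f
    rwa [IsClosed.submodule_topologicalClosure_eq hcV] at this
  set Q : E Γ κ →L[ℂ] E Γ κ := 1 - prj V with hQdef
  have hQ : Equi Q := equi_one.sub (equi_prj hV)
  have h1 := vdim_map_add (hQ.comp hT) hX hcX
  have h2 : X ⊓ LinearMap.ker ((Q.comp T : E Γ ι →L[ℂ] E Γ κ) : E Γ ι →ₗ[ℂ] E Γ κ) =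
      X ⊓ V.comap (T : E Γ ι →ₗ[ℂ] E Γ κ) := by
    congr 1
    ext x
    constructor
    · intro hx
      have hx' : T x - prj V (T x) = 0 := hx
      rw [sub_eq_zero] at hx'
      show T x ∈ V
      rw [hx']
      exact hmem _
    · intro hx
      have hx' : T x ∈ V := hx
      show T x - prj V (T x) = 0
      rw [prj_eq_of_mem (V.le_topologicalClosure hx'), sub_self]
  have h3 : vdim (X.map ((Q.comp T : E Γ ι →L[ℂ] E Γ κ) : E Γ ι →ₗ[ℂ] E Γ κ)) =
      vdim (X.map (T : E Γ ι →ₗ[ℂ] E Γ κ)) - vdim V := by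
    have h4 := vdim_map_add hQ (V := (X.map (T : E Γ ι →ₗ[ℂ] E Γ κ)).topologicalClosure) (hX.map hT).closure
      (Submodule.isClosed_topologicalClosure _)
    have h5 : (X.map (T : E Γ ι →ₗ[ℂ] E Γ κ)).topologicalClosure ⊓ LinearMap.ker (Q : E Γ κ →ₗ[ℂ] E Γ κ) = V := by
      ext y
      constructor
      · rintro ⟨_, hy⟩
        have hy' : y - prj V y = 0 := hy
        rw [sub_eq_zero] at hy'
        rw [hy']
        exact hmem y
      · intro hy
        refine ⟨hle hy, ?_⟩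
        show y - prj V y = 0
        rw [prj_eq_of_mem (V.le_topologicalClosure hy), sub_self]
    have h6 : vdim ((X.map (T : E Γ ι →ₗ[ℂ] E Γ κ)).topologicalClosure.map (Q : E Γ κ →ₗ[ℂ] E Γ κ)) =
        vdim (X.map ((Q.comp T : E Γ ι →L[ℂ] E Γ κ) : E Γ ι →ₗ[ℂ] E Γ κ)) := by
      rw [← vdim_closure, ← vdim_closure (X.map ((Q.comp T : E Γ ι →L[ℂ] E Γ κ) : E Γ ι →ₗ[ℂ] E Γ κ))]
      congr 1
      refine le_antisymm ?_ ?_
      · refine Submodule.topologicalClosure_minimal _ ?_ (Submodule.isClosed_topologicalClosure _)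
        rintro _ ⟨y, hy, rfl⟩
        have h7 : Q y ∈ _root_.closure ((Q : E Γ κ → E Γ κ) '' (X.map (T : E Γ ι →ₗ[ℂ] E Γ κ) : Set (E Γ κ))) :=
          image_closure_subset_closure_image Q.continuous ⟨y, hy, rfl⟩
        refine closure_mono ?_ h7
        rintro _ ⟨_, ⟨x, hx, rfl⟩, rfl⟩
        exact ⟨x, hx, rfl⟩
      · refine Submodule.topologicalClosure_mono ?_
        rintro _ ⟨x, hx, rfl⟩
        exact ⟨T x, Submodule.le_topologicalClosure _ ⟨x, hx, rfl⟩, rfl⟩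
    rw [h5, h6, vdim_closure] at h4
    linarith
  rw [h2, h3] at h1
  linarith

/-- (D5) -/
theorem dense_image {T : E Γ ι →L[ℂ] E Γ κ} (hT : Equi T) {X : Submodule ℂ (E Γ ι)} (hX : Inv X)
    (hcX : IsClosed (X : Set (E Γ ι))) {V : Submodule ℂ (E Γ κ)} (hV : Inv V) (hcV : IsClosed (V : Set (E Γ κ)))
    (hle : V ≤ (X.map (T : E Γ ι →ₗ[ℂ] E Γ κ)).topologicalClosure) :
    ((X ⊓ V.comap (T : E Γ ι →ₗ[ℂ] E Γ κ)).map (T : E Γ ι →ₗ[ℂ] E Γ κ)).topologicalClosure = V := by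
  have hcY : IsClosed ((X ⊓ V.comap (T : E Γ ι →ₗ[ℂ] E Γ κ) : Submodule ℂ (E Γ ι)) : Set (E Γ ι)) := by
    exact hcX.inter (hcV.preimage T.continuous)
  have hIY : Inv (X ⊓ V.comap (T : E Γ ι →ₗ[ℂ] E Γ κ)) := hX.inf (hV.comap hT)
  have h1 := vdim_map_add hT hIY hcY
  have h2 := vdim_map_add hT hX hcX
  have h3 := vdim_comap hT hX hcX hV hcV hle
  have h4 : (X ⊓ V.comap (T : E Γ ι →ₗ[ℂ] E Γ κ)) ⊓ LinearMap.ker (T : E Γ ι →ₗ[ℂ] E Γ κ) =
      X ⊓ LinearMap.ker (T : E Γ ι →ₗ[ℂ] E Γ κ) := by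
    ext x
    constructor
    · rintro ⟨⟨hx, _⟩, hk⟩
      exact ⟨hx, hk⟩
    · rintro ⟨hx, hk⟩
      refine ⟨⟨hx, ?_⟩, hk⟩
      show T x ∈ V
      rw [show T x = 0 from hk]
      exact V.zero_mem
  rw [h4] at h1
  refine eq_of_vdim_le (hIY.map hT).closure hV (Submodule.isClosed_topologicalClosure _) ?_ ?_
  · refine Submodule.topologicalClosure_minimal _ ?_ hcV
    rintro _ ⟨x, hx, rfl⟩
    exact hx.2
  · rw [vdim_closure]
    linarith

end Singer
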