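import Pool.Agent.Singer.Subgr

/-!
# Singer: the free resolution of a subgroup given by the Davis complex

`H` is a subgroup of a right-angled Coxeter group which acts freely on the cells, given with a `Frame`.
`Frame.psi` : the chains in coordinates; `davis` : the resolution.
-/

set_option autoImplicit false
set_option linter.unusedSectionVars false
set_option linter.unusedVariables false

namespace Singer

universe u

/-! ### the group ring -/

section ring
variable {Γ : Type u} [Group Γ]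

lemma coeff_single_smul (g k : Γ) (a : ZG Γ) : (MonoidAlgebra.single g (1 : ℤ) * a).coeff k = a.coeff (g⁻¹ * k) := by
  rw [MonoidAlgebra.coeff_single_mul_eq_mul_coeff (g⁻¹ * k) (fun m _ => by rw [eq_inv_mul_iff_mul_eq]), one_mul]

/-- an additive map which commutes with the group is linear -/
def linOf {P Q : Type u} [AddCommGroup P] [Module (ZG Γ) P] [AddCommGroup Q] [Module (ZG Γ) Q] (f : P →+ Q)
    (hf : ∀ (g : Γ) (x : P), f (MonoidAlgebra.single g (1 : ℤ) • x) = MonoidAlgebra.single g (1 : ℤ) • f x) :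
    P →ₗ[ZG Γ] Q where
  toFun := f
  map_add' := f.map_add
  map_smul' a x := by
    rw [RingHom.id_apply]
    induction a using MonoidAlgebra.induction_on with
    | of g => exact hf g x
    | add a b ha hb => rw [add_smul, map_add, ha, hb, add_smul]
    | smul n a ha =>
      rw [smul_assoc, map_zsmul, ha, smul_assoc]

@[simp] lemma linOf_apply {P Q : Type u} [AddCommGroup P] [Module (ZG Γ) P] [AddCommGroup Q] [Module (ZG Γ) Q]
    (f : P →+ Q) (hf : ∀ (g : Γ) (x : P), f (MonoidAlgebra.single g (1 : ℤ) • x) = MonoidAlgebra.single g (1 : ℤ) • f x)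
    (x : P) : linOf f hf x = f x := rfl

/-- the involution `g ↦ g⁻¹` of the group ring, as an additive map -/
noncomputable def star' : ZG Γ ≃+ ZG Γ where
  toFun a := MonoidAlgebra.ofCoeff (Finsupp.equivMapDomain (Equiv.inv Γ) a.coeff)
  invFun a := MonoidAlgebra.ofCoeff (Finsupp.equivMapDomain (Equiv.inv Γ) a.coeff)
  left_inv a := by
    apply MonoidAlgebra.coeff_injective
    ext g
    simp [Finsupp.equivMapDomain_apply]
  right_inv a := by
    apply MonoidAlgebra.coeff_injective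
    ext g
    simp [Finsupp.equivMapDomain_apply]
  map_add' a b := by
    apply MonoidAlgebra.coeff_injective
    ext g
    simp [Finsupp.equivMapDomain_apply]

lemma coeff_star' (a : ZG Γ) (g : Γ) : (star' a).coeff g = a.coeff g⁻¹ := by
  simp [star', Finsupp.equivMapDomain_apply]

/-- linear maps from a free module to the group ring -/
noncomputable def homEquiv (ι : Type u) [Fintype ι] [DecidableEq ι] : ((ι → ZG Γ) →ₗ[ZG Γ] ZG Γ) ≃+ (ι → ZG Γ) :=
  ((Pi.basisFun (ZG Γ) ι).constr ℤ (M' := ZG Γ)).symm.toAddEquiv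

lemma homEquiv_apply (ι : Type u) [Fintype ι] [DecidableEq ι] (φ : (ι → ZG Γ) →ₗ[ZG Γ] ZG Γ) (j : ι) :
    homEquiv ι φ j = φ (Pi.single j 1) := by
  show ((Pi.basisFun (ZG Γ) ι).constr ℤ (M' := ZG Γ)).symm φ j = _
  rw [Module.Basis.constr_symm_apply, Pi.basisFun_apply]

end ring

/-! ### the sign -/

section sign
variable {V : Type u} {G : SimpleGraph V}

lemma sgW_gen (v : V) : sgW G (Racg.gen G v) = -1 := Racg.lift_gen v

lemma sgW_mul_self (g : RACG G) : ((sgW G g : ℤˣ) : ℤ) * ((sgW G g : ℤˣ) : ℤ) = 1 := by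
  rw [← Units.val_mul, Int.units_mul_self, Units.val_one]

lemma sgW_gen_mul (g : RACG G) (v : V) : ((sgW G (g * Racg.gen G v) : ℤˣ) : ℤ) = -((sgW G g : ℤˣ) : ℤ) := by
  rw [map_mul, sgW_gen]
  simp

variable [DecidableEq V] {M : Type*} [AddCommGroup M]

lemma ac_mul {A : Finset V} {i : ℕ} {f : RACG G × Finset V → M} (hf : f ∈ AC M G A i) {S : Finset V} {u : RACG G}
    (hu : u ∈ Racg.sub (G := G) (S : Set V)) (g : RACG G) : f (g * u, S) = ((sgW G u : ℤˣ) : ℤ) • f (g, S) := by
  induction hu using Subgroup.closure_induction generalizing g with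
  | mem u hu =>
    obtain ⟨v, hv, rfl⟩ := hu
    rw [hf.2.2 g S v hv, sgW_gen]
    simp
  | one => simp
  | mul u u' _ _ ihu ihu' =>
    rw [← mul_assoc, ihu', ihu, smul_smul, map_mul, Units.val_mul, mul_comm]
  | inv u _ ih =>
    have h := ih (g * u⁻¹)
    rw [inv_mul_cancel_right] at h
    rw [h, smul_smul, map_inv, ← Units.val_mul, inv_mul_cancel, Units.val_one, one_smul]

end sign

section frame
variable {V : Type u} [DecidableEq V] {G : SimpleGraph V} {H : Subgroup (RACG G)}

noncomputable instance [Fintype V] (F : Frame H) (i : ℕ) : Fintype (F.J i) := by classical exact inferInstance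

/-- the coordinates of an element of the group -/
noncomputable def Frame.c (F : Frame H) {S : Finset V} (hS : G.IsClique S) (g : RACG G) :
    H × F.O S × Racg.sub (G := G) (S : Set V) := (F.e S hS).symm g

lemma Frame.c_spec (F : Frame H) {S : Finset V} (hS : G.IsClique S) (g : RACG G) :
    ((F.c hS g).1 : RACG G) * F.t S (F.c hS g).2.1 * (F.c hS g).2.2 = g := by
  have h := F.e_apply S hS (F.c hS g).1 (F.c hS g).2.1 (F.c hS g).2.2
  rw [← h]
  exact (F.e S hS).apply_symm_apply g

lemma Frame.c_eq (F : Frame H) {S : Finset V} (hS : G.IsClique S) (h : H) (o : F.O S)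
    (u : Racg.sub (G := G) (S : Set V)) : F.c hS (h * F.t S o * u) = (h, o, u) := by
  unfold Frame.c
  rw [← F.e_apply S hS h o u]
  exact (F.e S hS).symm_apply_apply _

lemma Frame.c_mul (F : Frame H) {S : Finset V} (hS : G.IsClique S) (g : RACG G) (h : H)
    (u : Racg.sub (G := G) (S : Set V)) :
    F.c hS (h * g * u) = (h * (F.c hS g).1, (F.c hS g).2.1, (F.c hS g).2.2 * u) := by
  rw [← F.c_eq hS (h * (F.c hS g).1) (F.c hS g).2.1 ((F.c hS g).2.2 * u)]
  congr 1
  conv_lhs => rw [← F.c_spec hS g]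
  rw [Subgroup.coe_mul, Subgroup.coe_mul]
  simp only [mul_assoc]

open Classical in
/-- the chain with the coordinates `x` -/
noncomputable def Frame.fn (F : Frame H) (i : ℕ) (x : F.J i → ZG H) (y : RACG G × Finset V) : ℤ :=
  if h : G.IsClique y.2 ∧ y.2.card = i then
    ((sgW G ((F.c h.1 y.1).2.2 : RACG G) : ℤˣ) : ℤ) * (x ⟨⟨y.2, h⟩, (F.c h.1 y.1).2.1⟩).coeff (F.c h.1 y.1).1
  else 0

lemma Frame.fn_apply (F : Frame H) {i : ℕ} (x : F.J i → ZG H) {S : Finset V} (h : G.IsClique S ∧ S.card = i)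
    (g : RACG G) : F.fn i x (g, S) = ((sgW G ((F.c h.1 g).2.2 : RACG G) : ℤˣ) : ℤ) *
      (x ⟨⟨S, h⟩, (F.c h.1 g).2.1⟩).coeff (F.c h.1 g).1 := dif_pos h

lemma Frame.fn_mul (F : Frame H) {i : ℕ} (x : F.J i → ZG H) (h : H) (j : F.J i)
    (u : Racg.sub (G := G) (j.1.1 : Set V)) :
    F.fn i x (h * F.t j.1.1 j.2 * u, j.1.1) = ((sgW G (u : RACG G) : ℤˣ) : ℤ) * (x j).coeff h := by
  rw [F.fn_apply x j.1.2, F.c_eq j.1.2.1 h j.2 u]

lemma Frame.fn_mem [Fintype V] (F : Frame H) (i : ℕ) (x : F.J i → ZG H) : F.fn i x ∈ AC ℤ G Finset.univ i := by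
  classical
  refine ⟨?_, fun y hy => ?_, fun g T v hv => ?_⟩
  · have hfin : (⋃ j : F.J i, ⋃ h ∈ ((x j).coeff.support : Set H),
        Set.range fun u : Racg.sub (G := G) (j.1.1 : Set V) => ((h : RACG G) * F.t j.1.1 j.2 * u, j.1.1)).Finite := by
      refine Set.finite_iUnion fun j => Set.Finite.biUnion (Finset.finite_toSet _) fun h _ => ?_
      have := finite_sub j.1.2.1
      exact Set.finite_range _
    refine hfin.subset ?_
    rintro ⟨g, S⟩ hy
    have hy' : F.fn i x (g, S) ≠ 0 := hy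
    by_cases h : G.IsClique S ∧ S.card = i
    · rw [F.fn_apply x h] at hy'
      refine Set.mem_iUnion.2 ⟨⟨⟨S, h⟩, (F.c h.1 g).2.1⟩, Set.mem_iUnion₂.2 ⟨(F.c h.1 g).1, ?_, ?_⟩⟩
      · rw [Finset.mem_coe, Finsupp.mem_support_iff]
        exact fun h0 => hy' (by rw [h0, mul_zero])
      · exact ⟨(F.c h.1 g).2.2, Prod.ext (F.c_spec h.1 g) rfl⟩
    · exact absurd (dif_neg h) hy'
  · by_contra hc
    apply hy
    refine dif_neg fun h => hc ⟨Finset.subset_univ _, h.2, h.1⟩
  · by_cases h : G.IsClique T ∧ T.card = i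
    · have hu : Racg.gen G v ∈ Racg.sub (G := G) (T : Set V) := Racg.gen_mem_sub hv
      have h1 := F.c_mul h.1 g 1 ⟨Racg.gen G v, hu⟩
      rw [one_mul] at h1
      rw [F.fn_apply x h, F.fn_apply x h]
      have h2 : (((1 : H) : RACG G) * g * ((⟨Racg.gen G v, hu⟩ : Racg.sub (G := G) (T : Set V)) : RACG G)) =
          g * Racg.gen G v := by simp
      rw [h2] at h1
      rw [h1]
      dsimp only
      rw [Subgroup.coe_mul, sgW_gen_mul, neg_mul]
    · have h1 : ∀ g', F.fn i x (g', T) = 0 := fun g' => dif_neg h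
      rw [h1, h1, neg_zero]

/-- the coordinates of a chain -/
noncomputable def Frame.co [Fintype V] (F : Frame H) (i : ℕ) (f : AC ℤ G Finset.univ i) (j : F.J i) : ZG H :=
  MonoidAlgebra.ofCoeff (Finsupp.ofSupportFinite (fun h : H => (f : RACG G × Finset V → ℤ) (h * F.t j.1.1 j.2, j.1.1)) (by
    refine (f.2.1.preimage (f := fun h : H => ((h : RACG G) * F.t j.1.1 j.2, j.1.1)) ?_)
    intro h _ h' _ hh
    have h1 := congrArg Prod.fst hh
    exact Subtype.ext (mul_right_cancel h1)))

lemma Frame.coeff_co [Fintype V] (F : Frame H) (i : ℕ) (f : AC ℤ G Finset.univ i) (j : F.J i) (h : H) :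
    (F.co i f j).coeff h = (f : RACG G × Finset V → ℤ) (h * F.t j.1.1 j.2, j.1.1) := rfl

/-- chains in coordinates -/
noncomputable def Frame.psi [Fintype V] (F : Frame H) (i : ℕ) : (F.J i → ZG H) ≃+ AC ℤ G Finset.univ i where
  toFun x := ⟨F.fn i x, F.fn_mem i x⟩
  invFun f := F.co i f
  left_inv x := by
    funext j
    apply MonoidAlgebra.coeff_injective
    ext h
    rw [F.coeff_co]
    show F.fn i x (h * F.t j.1.1 j.2, j.1.1) = _
    have h1 := F.fn_mul x h j 1
    rw [Subgroup.coe_one, mul_one, map_one, Units.val_one, one_mul] at h1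
    exact h1
  right_inv f := by
    apply Subtype.ext
    funext ⟨g, S⟩
    show F.fn i (F.co i f) (g, S) = (f : RACG G × Finset V → ℤ) (g, S)
    by_cases h : G.IsClique S ∧ S.card = i
    · rw [F.fn_apply _ h, F.coeff_co]
      dsimp only
      rw [← smul_eq_mul, ← ac_mul f.2 (F.c h.1 g).2.2.2, F.c_spec h.1 g]
    · have h1 : F.fn i (F.co i f) (g, S) = 0 := dif_neg h
      rw [h1]
      by_contra h2
      exact h ⟨(f.2.2.1 (g, S) (Ne.symm h2)).2.2, (f.2.2.1 (g, S) (Ne.symm h2)).2.1⟩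
  map_add' x y := by
    apply Subtype.ext
    funext ⟨g, S⟩
    show F.fn i (x + y) (g, S) = F.fn i x (g, S) + F.fn i y (g, S)
    by_cases h : G.IsClique S ∧ S.card = i
    · rw [F.fn_apply _ h, F.fn_apply _ h, F.fn_apply _ h, ← mul_add]
      rfl
    · have h1 : ∀ z, F.fn i z (g, S) = 0 := fun z => dif_neg h
      rw [h1, h1, h1, add_zero]

lemma Frame.psi_coe [Fintype V] (F : Frame H) (i : ℕ) (x : F.J i → ZG H) :
    (F.psi i x : RACG G × Finset V → ℤ) = F.fn i x := rfl

theorem Frame.psi_smul [Fintype V] (F : Frame H) {i : ℕ} (x : F.J i → ZG H) (h : H) (g : RACG G) (S : Finset V) :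
    (F.psi i (MonoidAlgebra.single h (1 : ℤ) • x) : RACG G × Finset V → ℤ) (g, S) =
      (F.psi i x : RACG G × Finset V → ℤ) ((h : RACG G)⁻¹ * g, S) := by
  rw [F.psi_coe, F.psi_coe]
  by_cases hS : G.IsClique S ∧ S.card = i
  · rw [F.fn_apply _ hS, F.fn_apply _ hS]
    have h1 := F.c_mul hS.1 g h⁻¹ 1
    rw [Subgroup.coe_one, mul_one, Subgroup.coe_inv, mul_one] at h1
    rw [h1]
    dsimp only
    rw [Pi.smul_apply, smul_eq_mul, coeff_single_smul]
  · have h1 : ∀ z g', F.fn i z (g', S) = 0 := fun z g' => dif_neg hS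
    rw [h1, h1]

/-- left translations of chains -/
lemma ac_trans [Fintype V] {M : Type*} [AddCommGroup M] {A : Finset V} {i : ℕ} {f : RACG G × Finset V → M}
    (hf : f ∈ AC M G A i) (g : RACG G) : (fun x => f (g * x.1, x.2)) ∈ AC M G A i := by
  refine ⟨?_, fun x hx => hf.2.1 (g * x.1, x.2) hx, fun k T v hv => ?_⟩
  · refine hf.1.preimage (f := fun x : RACG G × Finset V => (g * x.1, x.2)) ?_
    rintro ⟨a, S⟩ _ ⟨b, T⟩ _ h
    have h1 := congrArg Prod.fst h
    have h2 := congrArg Prod.snd h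
    exact Prod.ext (mul_left_cancel h1) h2
  · show f (g * (k * Racg.gen G v), T) = -f (g * k, T)
    rw [← mul_assoc]
    exact hf.2.2 (g * k) T v hv

end frame

end Singer
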