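import Pool.Agent.Singer.Davis
import Pool.Agent.Singer.DavisEx

/-!
# Singer: the resolution of a subgroup given by the Davis complex

`pdRes F r hr : ProjRes H`
-/

set_option autoImplicit false
set_option linter.unusedSectionVars false
set_option linter.unusedVariables false

namespace Singer

universe u

section res
variable {V : Type u} [Fintype V] [DecidableEq V] {G : SimpleGraph V} {H : Subgroup (RACG G)}

/-- the boundary on chains -/
def acD (G : SimpleGraph V) (r : V → ℕ) (i : ℕ) : AC ℤ G Finset.univ (i + 1) →+ AC ℤ G Finset.univ i where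
  toFun f := ⟨AD r f, AD_mem f.2⟩
  map_zero' := Subtype.ext (map_zero _)
  map_add' f g := Subtype.ext (map_add (AD r) (f : RACG G × Finset V → ℤ) g)

lemma acD_coe (r : V → ℕ) (i : ℕ) (f : AC ℤ G Finset.univ (i + 1)) :
    (acD G r i f : RACG G × Finset V → ℤ) = AD r f := rfl

lemma AD_trans {M : Type*} [AddCommGroup M] (r : V → ℕ) (f : RACG G × Finset V → M) (g : RACG G) :
    AD r (fun x => f (g * x.1, x.2)) = fun x => AD r f (g * x.1, x.2) := rfl

lemma Frame.psi_smul' (F : Frame H) {i : ℕ} (x : F.J i → ZG H) (h : H) :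
    (F.psi i (MonoidAlgebra.single h (1 : ℤ) • x) : RACG G × Finset V → ℤ) =
      fun y => (F.psi i x : RACG G × Finset V → ℤ) ((h : RACG G)⁻¹ * y.1, y.2) :=
  funext fun y => F.psi_smul x h y.1 y.2

/-- the differential in coordinates, as an additive map -/
noncomputable def Frame.d0 (F : Frame H) (r : V → ℕ) (i : ℕ) : (F.J (i + 1) → ZG H) →+ (F.J i → ZG H) :=
  ((F.psi i).symm.toAddMonoidHom.comp (acD G r i)).comp (F.psi (i + 1)).toAddMonoidHom

lemma Frame.psi_d0 (F : Frame H) (r : V → ℕ) (i : ℕ) (x : F.J (i + 1) → ZG H) :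
    F.psi i (F.d0 r i x) = acD G r i (F.psi (i + 1) x) := by
  show F.psi i ((F.psi i).symm (acD G r i (F.psi (i + 1) x))) = _
  rw [AddEquiv.apply_symm_apply]

lemma Frame.d0_smul (F : Frame H) (r : V → ℕ) (i : ℕ) (h : H) (x : F.J (i + 1) → ZG H) :
    F.d0 r i (MonoidAlgebra.single h (1 : ℤ) • x) = MonoidAlgebra.single h (1 : ℤ) • F.d0 r i x := by
  apply (F.psi i).injective
  apply Subtype.ext
  rw [F.psi_d0, F.psi_smul', F.psi_d0, acD_coe, F.psi_smul', AD_trans, acD_coe]

/-- the differential in coordinates -/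
noncomputable def Frame.dd (F : Frame H) (r : V → ℕ) (i : ℕ) : (F.J (i + 1) → ZG H) →ₗ[ZG H] (F.J i → ZG H) :=
  linOf (F.d0 r i) (F.d0_smul r i)

lemma Frame.psi_dd (F : Frame H) (r : V → ℕ) (i : ℕ) (x : F.J (i + 1) → ZG H) :
    F.psi i (F.dd r i x) = acD G r i (F.psi (i + 1) x) := F.psi_d0 r i x

lemma ac_fin {M : Type*} [AddCommGroup M] {A : Finset V} {i : ℕ} {f : RACG G × Finset V → M} (hf : f ∈ AC M G A i)
    (S : Finset V) : (Function.support fun g => f (g, S)).Finite :=
  hf.1.preimage (f := fun g : RACG G => (g, S)) fun a _ b _ h => congrArg Prod.fst h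

/-- the augmentation -/
noncomputable def Frame.ag (F : Frame H) : (F.J 0 → ZG H) →+ ℤ where
  toFun x := ∑ᶠ g, (F.psi 0 x : RACG G × Finset V → ℤ) (g, ∅)
  map_zero' := by
    rw [map_zero]
    exact finsum_zero
  map_add' x y := by
    rw [map_add]
    exact finsum_add_distrib (ac_fin (F.psi 0 x).2 ∅) (ac_fin (F.psi 0 y).2 ∅)

lemma Frame.ag_apply (F : Frame H) (x : F.J 0 → ZG H) :
    F.ag x = ∑ᶠ g, (F.psi 0 x : RACG G × Finset V → ℤ) (g, ∅) := rfl

lemma sub_empty' (g : RACG G) (hg : g ∈ Racg.sub (G := G) ((∅ : Finset V) : Set V)) : g = 1 := by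
  unfold Racg.sub at hg
  rw [Finset.coe_empty, Set.image_empty, Subgroup.closure_empty] at hg
  exact Subgroup.mem_bot.1 hg

lemma finsum_cel (m : ℤ) : ∑ᶠ g : RACG G, cel m (1 : RACG G) (∅ : Finset V) (g, ∅) = m := by
  rw [finsum_eq_single _ (1 : RACG G)]
  · unfold cel
    rw [if_pos ⟨rfl, by rw [inv_one, one_mul]; exact Subgroup.one_mem _⟩]
    rw [inv_one, one_mul, map_one, Units.val_one, one_smul]
  · intro g hg
    unfold cel
    rw [if_neg]
    rintro ⟨-, h⟩
    rw [inv_one, one_mul] at h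
    exact hg (sub_empty' g h)

/-- the Davis complex as a resolution of `ℤ` over the group ring of `H` -/
noncomputable def pdRes (F : Frame H) {r : V → ℕ} (hr : Function.Injective r) : ProjRes H where
  P i := F.J i → ZG H
  proj i := inferInstance
  fin i := inferInstance
  d i := F.dd r i
  aug := F.ag
  aug_smul h x := by
    rw [F.ag_apply, F.ag_apply, F.psi_smul']
    exact finsum_comp_equiv (Equiv.mulLeft ((h : RACG G)⁻¹)) (f := fun g => (F.psi 0 x : RACG G × Finset V → ℤ) (g, ∅))
  aug_surj m := by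
    have h0 : cel m (1 : RACG G) (∅ : Finset V) ∈ AC ℤ G Finset.univ 0 := cel_mem m 1 (by simp)
    refine ⟨(F.psi 0).symm ⟨_, h0⟩, ?_⟩
    rw [F.ag_apply, AddEquiv.apply_symm_apply]
    exact finsum_cel m
  exact_zero x := by
    rw [F.ag_apply, ac_exact_zero hr (F.psi 0 x).2]
    constructor
    · rintro ⟨h, hh, hd⟩
      refine ⟨(F.psi 1).symm ⟨h, hh⟩, ?_⟩
      apply (F.psi 0).injective
      apply Subtype.ext
      rw [F.psi_dd, AddEquiv.apply_symm_apply]
      exact hd
    · rintro ⟨y, hy⟩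
      refine ⟨F.psi 1 y, (F.psi 1 y).2, ?_⟩
      have h1 := F.psi_dd r 0 y
      rw [hy] at h1
      rw [h1]
      rfl
  exact_succ i x := by
    constructor
    · intro h
      have h1 := F.psi_dd r i x
      rw [h, map_zero] at h1
      have h2 : AD r (F.psi (i + 1) x : RACG G × Finset V → ℤ) = 0 := (congrArg Subtype.val h1).symm
      obtain ⟨k, hk, hkd⟩ := ac_exact_succ hr (F.psi (i + 1) x).2 h2
      refine ⟨(F.psi (i + 2)).symm ⟨k, hk⟩, ?_⟩
      apply (F.psi (i + 1)).injective
      apply Subtype.ext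
      rw [F.psi_dd, AddEquiv.apply_symm_apply]
      exact hkd
    · rintro ⟨y, rfl⟩
      apply (F.psi i).injective
      apply Subtype.ext
      rw [F.psi_dd, F.psi_dd, map_zero, acD_coe, acD_coe]
      exact AD_AD hr _

lemma pdRes_P (F : Frame H) {r : V → ℕ} (hr : Function.Injective r) (i : ℕ) :
    (pdRes F hr).P i = (F.J i → ZG H) := rfl

end res

end Singer
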