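import Pool.Agent.Singer.Loc
import Pool.Agent.Singer.Racg

/-!
# Singer: definitions

* `IsSys G s`: involutions `s v` of a group, commuting for adjacent vertices; `sub s A` the subgroup generated by `s '' A`;
* `Side`: side sets of amalgams; `Hor T` (operators which commute with all `cut S`); `Mdl W`: closed invariant subspaces;
* `Ch`, `D`, `Cy`, `Bd`, `bn`: the `ℓ²` chain complex of the Davis complex, cycles, closure of boundaries, Betti numbers;
* `bet G i`: the `i`-th `ℓ²`-Betti number of the right-angled Coxeter group `RACG G`;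
* `susp`, `subd`, `cap`: suspension, edge subdivision, full subgraph with a cone point;
* `Good n G`: hereditary vanishing; `Cls n G`: the class of graphs of the main theorem.
-/

set_option autoImplicit false
set_option linter.unusedSectionVars false
set_option linter.unusedVariables false

open scoped ComplexConjugate InnerProductSpace
open Filter Topology

namespace Singer

universe u

/-! ### Groups -/

section racg
variable {V : Type*}

/-- a family of involutions which commute for adjacent vertices -/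
structure IsSys {Γ : Type*} [Group Γ] (G : SimpleGraph V) (s : V → Γ) : Prop where
  sq : ∀ v, s v * s v = 1
  comm : ∀ u v, G.Adj u v → s u * s v = s v * s u

/-- the subgroup generated by the generators of `A` -/
def sub {Γ : Type*} [Group Γ] (s : V → Γ) (A : Set V) : Subgroup Γ := Subgroup.closure (s '' A)

/-- there is a side set for the amalgam of `A` and `B` along `C` -/
def Side {Γ : Type*} [Group Γ] (A B C : Subgroup Γ) : Prop :=
  ∃ S : Set Γ, (∀ g ∈ S, ∀ k ∈ A, g * k ∈ S) ∧ (∀ c ∈ C, c ∈ S) ∧ ∀ g ∈ S, g ∉ C → ∀ b ∈ B, g * b ∈ S ∧ g * b ∉ C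

end racg

/-! ### Local subspaces -/

section loc
variable {Γ : Type*} [Group Γ] {ι κ : Type*}

/-- operators which commute with the cut-offs -/
def Hor (T : E Γ ι →L[ℂ] E Γ κ) : Prop := ∀ (S : Set Γ) (f : E Γ ι), T (cut S f) = cut S (T f)

/-- a closed invariant subspace -/
structure Mdl (W : Submodule ℂ (E Γ ι)) : Prop where
  inv : Inv W
  cl : IsClosed (W : Set (E Γ ι))

lemma Mdl.inf {V W : Submodule ℂ (E Γ ι)} (hV : Mdl V) (hW : Mdl W) : Mdl (V ⊓ W) :=
  ⟨hV.inv.inf hW.inv, hV.cl.inter hW.cl⟩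

lemma Mdl.orthogonal {V : Submodule ℂ (E Γ ι)} (hV : Inv V) : Mdl Vᗮ :=
  ⟨hV.orthogonal, Submodule.isClosed_orthogonal V⟩

lemma Mdl.closure {V : Submodule ℂ (E Γ ι)} (hV : Inv V) : Mdl V.topologicalClosure :=
  ⟨hV.closure, Submodule.isClosed_topologicalClosure V⟩

lemma mdl_ker {T : E Γ ι →L[ℂ] E Γ κ} (hT : Equi T) : Mdl (LinearMap.ker (T : E Γ ι →ₗ[ℂ] E Γ κ)) :=
  ⟨inv_ker hT, ContinuousLinearMap.isClosed_ker T⟩

lemma mdl_asym (a : Γ) : Mdl (asym a : Submodule ℂ (E Γ ι)) := ⟨inv_asym a, isClosed_asym a⟩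

lemma mdl_symm (a : Γ) : Mdl (symm a : Submodule ℂ (E Γ ι)) := ⟨inv_symm a, isClosed_symm a⟩

end loc

/-! ### The chain complex -/

section complex
variable {Γ : Type*} [Group Γ] {V : Type*} [Fintype V] [DecidableEq V]

/-- the sign of the vertex `v` in `insert v T` -/
noncomputable def sg (r : V → ℕ) (v : V) (T : Finset V) : ℂ := (-1) ^ (T.filter fun t => r t < r v).card

/-- the boundary operator -/
noncomputable def D (r : V → ℕ) : E Γ (Finset V) →L[ℂ] E Γ (Finset V) :=
  ∑ T : Finset V, ∑ v ∈ Tᶜ, sg r v T • col (insert v T) T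

/-- chains: antisymmetric functions on the cliques of size `i` in `A` -/
def Ch (G : SimpleGraph V) (s : V → Γ) (A : Finset V) (i : ℕ) : Submodule ℂ (E Γ (Finset V)) where
  carrier := {f | (∀ x : Γ × Finset V, f x ≠ 0 → x.2 ⊆ A ∧ x.2.card = i ∧ G.IsClique x.2) ∧
    ∀ g T, ∀ v ∈ T, f (g * s v, T) = -f (g, T)}
  zero_mem' := by simp
  add_mem' := by
    rintro f h ⟨hf1, hf2⟩ ⟨hh1, hh2⟩
    refine ⟨fun x hx => ?_, fun g T v hv => ?_⟩
    · rw [lp.coeFn_add, Pi.add_apply] at hx
      by_cases h1 : f x = 0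
      · rw [h1, zero_add] at hx
        exact hh1 x hx
      · exact hf1 x h1
    · rw [lp.coeFn_add, Pi.add_apply, Pi.add_apply, hf2 g T v hv, hh2 g T v hv]
      ring
  smul_mem' := by
    rintro c f ⟨hf1, hf2⟩
    refine ⟨fun x hx => hf1 x fun h0 => hx ?_, fun g T v hv => ?_⟩
    · rw [lp.coeFn_smul, Pi.smul_apply, h0, smul_zero]
    · rw [lp.coeFn_smul, Pi.smul_apply, Pi.smul_apply, hf2 g T v hv, smul_neg]

/-- cycles -/
noncomputable def Cy (r : V → ℕ) (G : SimpleGraph V) (s : V → Γ) (A : Finset V) (i : ℕ) :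
    Submodule ℂ (E Γ (Finset V)) :=
  Ch G s A i ⊓ LinearMap.ker ((D r : E Γ (Finset V) →L[ℂ] E Γ (Finset V)) : E Γ (Finset V) →ₗ[ℂ] E Γ (Finset V))

/-- closure of the boundaries -/
noncomputable def Bd (r : V → ℕ) (G : SimpleGraph V) (s : V → Γ) (A : Finset V) (i : ℕ) :
    Submodule ℂ (E Γ (Finset V)) :=
  ((Ch G s A (i + 1)).map
    ((D r : E Γ (Finset V) →L[ℂ] E Γ (Finset V)) : E Γ (Finset V) →ₗ[ℂ] E Γ (Finset V))).topologicalClosure

/-- Betti numbers -/
noncomputable def bn (r : V → ℕ) (G : SimpleGraph V) (s : V → Γ) (A : Finset V) (i : ℕ) : ℝ :=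
  vdim (Cy r G s A i) - vdim (Bd r G s A i)

/-- the dimension of the kernel of `H_i(U)^- → H_i(A)` -/
noncomputable def kap (r : V → ℕ) (G : SimpleGraph V) (s : V → Γ) (a : V) (U A : Finset V) (i : ℕ) : ℝ :=
  vdim (Cy r G s U i ⊓ asym (s a) ⊓ Bd r G s A i) - vdim (Bd r G s U i ⊓ asym (s a))

/-- the dimension of the kernel of `H_i(K ∩ K') → H_i(K) ⊕ H_i(K')` -/
noncomputable def mk (r : V → ℕ) (G : SimpleGraph V) (s : V → Γ) (K K' : Finset V) (i : ℕ) : ℝ :=
  vdim (Bd r G s K i ⊓ Bd r G s K' i) - vdim (Bd r G s (K ∩ K') i)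

/-- semistability: `K` the big complex, `U` the small one -/
def SS (r : V → ℕ) (G : SimpleGraph V) (s : V → Γ) (K U : Finset V) (k : ℕ) : Prop :=
  ∀ W : Submodule ℂ (E Γ (Finset V)), Mdl W → Loc (sub s U) W → W ≤ Cy r G s U k → W ≤ (Bd r G s U k)ᗮ →
    2 * vdim (W ⊓ Bd r G s K k) ≤ vdim W

end complex

section bet
variable {V : Type*} [Fintype V] [DecidableEq V]

/-- an enumeration of the vertices -/
noncomputable def rk (v : V) : ℕ := (Fintype.equivFin V v : ℕ)

/-- the `ℓ²`-Betti numbers of the right-angled Coxeter group of `G` -/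
noncomputable def bet (G : SimpleGraph V) (i : ℕ) : ℝ := bn rk G (Racg.gen G) Finset.univ i

/-- the link of a vertex -/
abbrev lk (G : SimpleGraph V) (v : V) : SimpleGraph {w // G.Adj v w} := G.comap Subtype.val

/-- the full subgraph on `A` -/
abbrev res (G : SimpleGraph V) (A : Finset V) : SimpleGraph {v // v ∈ A} := G.comap Subtype.val

/-- the full subgraph on `K`, with a cone point `none` over `B` -/
def cap (G : SimpleGraph V) (K B : Finset V) : SimpleGraph (Option {v // v ∈ K}) where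
  Adj
    | some u, some v => G.Adj u v
    | none, some v => (v : V) ∈ B
    | some u, none => (u : V) ∈ B
    | none, none => False
  symm := ⟨by
    rintro (_ | u) (_ | v) h
    · exact h
    · exact h
    · exact h
    · exact SimpleGraph.Adj.symm h⟩
  loopless := ⟨by
    rintro (_ | u) h
    · exact h
    · exact G.loopless.1 _ h⟩

/-- suspension -/
def susp (G : SimpleGraph V) : SimpleGraph (V ⊕ Bool) where
  Adj
    | .inl u, .inl v => G.Adj u v
    | .inl _, .inr _ => True
    | .inr _, .inl _ => True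
    | .inr _, .inr _ => False
  symm := ⟨by
    rintro (u | u) (v | v) h
    · exact SimpleGraph.Adj.symm h
    · exact h
    · exact h
    · exact h⟩
  loopless := ⟨by
    rintro (u | u) h
    · exact G.loopless.1 _ h
    · exact h⟩

/-- subdivision of the edge `{a, b}`: the new vertex is `none` -/
def subd (G : SimpleGraph V) (a b : V) : SimpleGraph (Option V) where
  Adj
    | some u, some v => G.Adj u v ∧ ¬ (u = a ∧ v = b) ∧ ¬ (u = b ∧ v = a)
    | none, some v => v = a ∨ v = b ∨ (G.Adj a v ∧ G.Adj b v)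
    | some u, none => u = a ∨ u = b ∨ (G.Adj a u ∧ G.Adj b u)
    | none, none => False
  symm := ⟨by
    rintro (_ | u) (_ | v) h
    · exact h
    · exact h
    · exact h
    · exact ⟨SimpleGraph.Adj.symm h.1, fun h1 => h.2.2 ⟨h1.2, h1.1⟩, fun h1 => h.2.1 ⟨h1.2, h1.1⟩⟩⟩
  loopless := ⟨by
    rintro (_ | u) h
    · exact h
    · exact G.loopless.1 _ h.1⟩

end bet

/-- hereditary vanishing: `G` and all its links have `ℓ²`-homology only in the middle dimension -/
def Good : ℕ → ∀ {V : Type u} [Fintype V], SimpleGraph V → Prop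
  | 0, V, _, _ => IsEmpty V
  | n + 1, V, _, G => by
    classical
    exact (∀ i, 2 * i ≠ n + 1 → bet G i = 0) ∧ ∀ v : V, Good n (V := {w // G.Adj v w}) (lk G v)

/-- the class of graphs (of flag spheres) of the main theorem: it contains the empty graph, and it is closed under
suspension, edge subdivision, glueing along full subgraphs of codimension one (`glue`), and splitting of vertices
(`split`: the contraction of the edge `pq` of `G` is `cap G K B`). -/
inductive Cls : ∀ (n : ℕ) {V : Type u}, SimpleGraph V → Prop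
  | empty {V : Type u} (h : IsEmpty V) (G : SimpleGraph V) : Cls 0 G
  | susp {n : ℕ} {V : Type u} {G : SimpleGraph V} : Cls n G → Cls (n + 1) (susp G)
  | subd {n : ℕ} {V : Type u} {G : SimpleGraph V} {a b : V} : Cls n G → G.Adj a b → Cls n (subd G a b)
  | glue {n : ℕ} {V : Type u} {G : SimpleGraph V} {K K' B : Finset V} : (∀ v, v ∈ K ∨ v ∈ K') →
      (∀ v, v ∈ B ↔ v ∈ K ∧ v ∈ K') → (∀ u v, u ∉ K' → v ∉ K → ¬ G.Adj u v) →
      Cls n (cap G K B) → Cls n (cap G K' B) → Cls n G
  | split {n : ℕ} {V : Type u} {G : SimpleGraph V} {p q : V} {K B : Finset V} : G.Adj p q →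
      (∀ v, v ∈ K ↔ v ≠ p ∧ v ≠ q) → (∀ v, v ∈ B ↔ v ∈ K ∧ (G.Adj p v ∨ G.Adj q v)) →
      (∀ x y, G.Adj p x → G.Adj x y → G.Adj y q → x = q ∨ y = p ∨ G.Adj q x ∨ G.Adj p y) →
      Cls (n + 1) (cap G K B) → Cls n (lk G p) → Cls n (lk G q) → Cls (n + 1) G
  | iso {n : ℕ} {V W : Type u} {G : SimpleGraph V} {H : SimpleGraph W} : Cls n G → (G ≃g H) → Cls n H

end Singer
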