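import Pool.Agent.Singer.L2

/-!
# Singer: trace and dimension

`vdim V` = von Neumann dimension of the closure of `V` (for a left invariant subspace `V` of `ℓ²(Γ × ι)`, `ι` finite).
Main results: `vdim_mono`, `eq_of_vdim_le`, `vdim_map_add` (rank-nullity), `dense_image` (D5).
-/

set_option autoImplicit false
set_option linter.unusedSectionVars false
set_option linter.unusedVariables false

open scoped ComplexConjugate InnerProductSpace
open Filter Topology

namespace Singer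

variable {Γ : Type*} [Group Γ] {ι κ μ : Type*} [Fintype ι] [Fintype κ] [Fintype μ]

section del
omit [Fintype ι] [Fintype κ] [Fintype μ]

open Classical in
/-- basis vector -/
noncomputable def del (g : Γ) (j : ι) : E Γ ι := lp.single 2 (g, j) (1 : ℂ)

open Classical in
lemma inner_del_left (g : Γ) (j : ι) (f : E Γ ι) : ⟪del g j, f⟫_ℂ = f (g, j) := by
  unfold del
  rw [lp.inner_single_left]
  simp

lemma inner_del_right (g : Γ) (j : ι) (f : E Γ ι) : ⟪f, del g j⟫_ℂ = conj (f (g, j)) := by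
  rw [← inner_conj_symm, inner_del_left]

lemma lam_del (h g : Γ) (j : ι) : lam h (del g j) = del (h * g) j := by
  refine ext_inner_right ℂ fun f => ?_
  rw [inner_lam_left, inner_del_left, inner_del_left]
  simp

lemma eq_zero_of_del {T : E Γ ι →L[ℂ] E Γ κ} (hT : Equi T) (h : ∀ j, T (del 1 j) = 0) : T = 0 := by
  have h1 : ∀ g j, T (del g j) = 0 := by
    intro g j
    have : del g j = lam g (del (1 : Γ) j) := by rw [lam_del, mul_one]
    rw [this, hT, h, map_zero]
  have h2 : ContinuousLinearMap.adjoint T = 0 := by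
    ext f x
    obtain ⟨g, j⟩ := x
    rw [← inner_del_left, ContinuousLinearMap.adjoint_inner_right, h1]
    simp
  have h3 : ContinuousLinearMap.adjoint (ContinuousLinearMap.adjoint T) = 0 := by rw [h2, map_zero]
  rwa [ContinuousLinearMap.adjoint_adjoint] at h3

end del

/-- the trace -/
noncomputable def tr (T : E Γ ι →L[ℂ] E Γ ι) : ℂ := ∑ j, (T (del 1 j)) (1, j)

lemma tr_add (S T : E Γ ι →L[ℂ] E Γ ι) : tr (S + T) = tr S + tr T := by
  simp [tr, Finset.sum_add_distrib]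

lemma tr_sub (S T : E Γ ι →L[ℂ] E Γ ι) : tr (S - T) = tr S - tr T := by
  simp [tr, Finset.sum_sub_distrib]

lemma tr_smul (c : ℂ) (T : E Γ ι →L[ℂ] E Γ ι) : tr (c • T) = c * tr T := by
  simp [tr, Finset.mul_sum]

lemma tr_one : tr (1 : E Γ ι →L[ℂ] E Γ ι) = Fintype.card ι := by
  have : ∀ j : ι, (del (1 : Γ) j) (1, j) = 1 := by
    intro j
    simp [del]
  simp [tr, this]

lemma mat_adj {S : E Γ κ →L[ℂ] E Γ ι} (hS : Equi S) (g : Γ) (k : κ) (i : ι) :
    conj ((ContinuousLinearMap.adjoint S (del 1 i)) (g, k)) = (S (del 1 k)) (g⁻¹, i) := by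
  rw [← inner_del_right, ContinuousLinearMap.adjoint_inner_left]
  have : del g k = lam g (del (1 : Γ) k) := by rw [lam_del, mul_one]
  rw [this, hS, inner_del_left]
  simp

/-- the trace property -/
theorem tr_comp {S : E Γ κ →L[ℂ] E Γ ι} {T : E Γ ι →L[ℂ] E Γ κ} (hS : Equi S) (hT : Equi T) :
    tr (S.comp T) = tr (T.comp S) := by
  have h1 : ∀ i : ι, (S (T (del (1 : Γ) i))) (1, i) =
      ∑' x : Γ × κ, (S (del 1 x.2)) (x.1⁻¹, i) * (T (del 1 i)) (x.1, x.2) := by
    intro i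
    rw [← inner_del_left, ← ContinuousLinearMap.adjoint_inner_left, inner_eq]
    congr 1
    funext x
    rw [← mat_adj hS]
  have h2 : ∀ k : κ, (T (S (del (1 : Γ) k))) (1, k) =
      ∑' x : Γ × ι, (T (del 1 x.2)) (x.1⁻¹, k) * (S (del 1 k)) (x.1, x.2) := by
    intro k
    rw [← inner_del_left, ← ContinuousLinearMap.adjoint_inner_left, inner_eq]
    congr 1
    funext x
    rw [← mat_adj hT]
  have s1 : ∀ i : ι, Summable fun x : Γ × κ => (S (del 1 x.2)) (x.1⁻¹, i) * (T (del 1 i)) (x.1, x.2) := by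
    intro i
    refine (summable_inner' (ContinuousLinearMap.adjoint S (del 1 i)) (T (del 1 i))).congr fun x => ?_
    rw [← mat_adj hS]
  have h3 : ∀ i : ι, (S (T (del (1 : Γ) i))) (1, i) =
      ∑ k : κ, ∑' g : Γ, (S (del 1 k)) (g⁻¹, i) * (T (del 1 i)) (g, k) := by
    intro i
    rw [h1, ← (Equiv.prodComm κ Γ).tsum_eq]
    have s2 : Summable fun x : κ × Γ => (S (del 1 x.1)) (x.2⁻¹, i) * (T (del 1 i)) (x.2, x.1) :=
      ((Equiv.prodComm κ Γ).summable_iff).2 (s1 i)
    show (∑' x : κ × Γ, (S (del 1 x.1)) (x.2⁻¹, i) * (T (del 1 i)) (x.2, x.1)) = _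
    rw [s2.tsum_prod, tsum_fintype]
  have s3 : ∀ k : κ, Summable fun x : Γ × ι => (T (del 1 x.2)) (x.1⁻¹, k) * (S (del 1 k)) (x.1, x.2) := by
    intro k
    refine (summable_inner' (ContinuousLinearMap.adjoint T (del 1 k)) (S (del 1 k))).congr fun x => ?_
    rw [← mat_adj hT]
  have h4 : ∀ k : κ, (T (S (del (1 : Γ) k))) (1, k) =
      ∑ i : ι, ∑' g : Γ, (T (del 1 i)) (g⁻¹, k) * (S (del 1 k)) (g, i) := by
    intro k
    rw [h2, ← (Equiv.prodComm ι Γ).tsum_eq]
    have s2 : Summable fun x : ι × Γ => (T (del 1 x.1)) (x.2⁻¹, k) * (S (del 1 k)) (x.2, x.1) :=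
      ((Equiv.prodComm ι Γ).summable_iff).2 (s3 k)
    show (∑' x : ι × Γ, (T (del 1 x.1)) (x.2⁻¹, k) * (S (del 1 k)) (x.2, x.1)) = _
    rw [s2.tsum_prod, tsum_fintype]
  unfold tr
  simp only [ContinuousLinearMap.comp_apply]
  rw [Finset.sum_congr rfl fun i _ => h3 i, Finset.sum_congr rfl fun k _ => h4 k, Finset.sum_comm]
  refine Finset.sum_congr rfl fun k _ => Finset.sum_congr rfl fun i _ => ?_
  rw [← (Equiv.inv Γ).tsum_eq]
  congr 1
  funext g
  simp [mul_comm]

/-- left invariant subspaces -/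
def Inv (V : Submodule ℂ (E Γ ι)) : Prop := ∀ g, ∀ f ∈ V, lam g f ∈ V

omit [Fintype ι] in
lemma Inv.inf {V W : Submodule ℂ (E Γ ι)} (hV : Inv V) (hW : Inv W) : Inv (V ⊓ W) :=
  fun g f hf => ⟨hV g f hf.1, hW g f hf.2⟩

omit [Fintype ι] in
lemma Inv.sup {V W : Submodule ℂ (E Γ ι)} (hV : Inv V) (hW : Inv W) : Inv (V ⊔ W) := by
  intro g f hf
  obtain ⟨v, hv, w, hw, rfl⟩ := Submodule.mem_sup.1 hf
  rw [map_add]
  exact Submodule.add_mem_sup (hV g v hv) (hW g w hw)

omit [Fintype ι] in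
lemma Inv.closure {V : Submodule ℂ (E Γ ι)} (hV : Inv V) : Inv V.topologicalClosure := by
  intro g f hf
  have h1 : lam g f ∈ _root_.closure ((lam g : E Γ ι →L[ℂ] E Γ ι) '' (V : Set (E Γ ι))) :=
    image_closure_subset_closure_image (lam g).continuous ⟨f, hf, rfl⟩
  refine closure_mono ?_ h1
  rintro _ ⟨x, hx, rfl⟩
  exact hV g x hx

omit [Fintype ι] in
lemma Inv.orthogonal {V : Submodule ℂ (E Γ ι)} (hV : Inv V) : Inv Vᗮ := by
  intro g f hf
  rw [Submodule.mem_orthogonal] at hf ⊢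
  intro u hu
  have h1 := hf (lam g⁻¹ u) (hV g⁻¹ u hu)
  rw [inner_lam_left] at h1
  simpa using h1

omit [Fintype ι] [Fintype κ] in
lemma Inv.map {V : Submodule ℂ (E Γ ι)} (hV : Inv V) {T : E Γ ι →L[ℂ] E Γ κ} (hT : Equi T) :
    Inv (V.map (T : E Γ ι →ₗ[ℂ] E Γ κ)) := by
  rintro g _ ⟨f, hf, rfl⟩
  exact ⟨lam g f, hV g f hf, hT g f⟩

omit [Fintype ι] [Fintype κ] in
lemma Inv.comap {V : Submodule ℂ (E Γ κ)} (hV : Inv V) {T : E Γ ι →L[ℂ] E Γ κ} (hT : Equi T) :
    Inv (V.comap (T : E Γ ι →ₗ[ℂ] E Γ κ)) := by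
  intro g f hf
  show T (lam g f) ∈ V
  rw [hT]
  exact hV g _ hf

omit [Fintype ι] [Fintype κ] in
lemma inv_ker {T : E Γ ι →L[ℂ] E Γ κ} (hT : Equi T) : Inv (LinearMap.ker (T : E Γ ι →ₗ[ℂ] E Γ κ)) := by
  intro g f hf
  show T (lam g f) = 0
  rw [hT, show T f = 0 from hf, map_zero]

omit [Fintype ι] in
lemma inv_top : Inv (⊤ : Submodule ℂ (E Γ ι)) := fun _ _ _ => trivial

omit [Fintype ι] in
lemma inv_bot : Inv (⊥ : Submodule ℂ (E Γ ι)) := by
  intro g f hf
  rw [Submodule.mem_bot] at hf ⊢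
  rw [hf, map_zero]

/-- orthogonal projection onto the closure -/
noncomputable def prj (V : Submodule ℂ (E Γ ι)) : E Γ ι →L[ℂ] E Γ ι := V.topologicalClosure.starProjection

omit [Fintype ι] in
lemma prj_mem (V : Submodule ℂ (E Γ ι)) (f : E Γ ι) : prj V f ∈ V.topologicalClosure :=
  Submodule.starProjection_apply_mem _ _

omit [Fintype ι] in
lemma prj_eq_of_mem {V : Submodule ℂ (E Γ ι)} {f : E Γ ι} (h : f ∈ V.topologicalClosure) : prj V f = f :=
  Submodule.starProjection_eq_self_iff.2 h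

omit [Fintype ι] in
lemma sub_prj_mem (V : Submodule ℂ (E Γ ι)) (f : E Γ ι) : f - prj V f ∈ Vᗮ := by
  rw [← Submodule.orthogonal_closure V]
  exact Submodule.sub_starProjection_mem_orthogonal f

omit [Fintype ι] in
/-- characterisation of the projection -/
lemma prj_unique {V : Submodule ℂ (E Γ ι)} {f v : E Γ ι} (hv : v ∈ V.topologicalClosure) (h : f - v ∈ Vᗮ) :
    prj V f = v := by
  refine Submodule.eq_starProjection_of_mem_orthogonal (K := V.topologicalClosure) hv ?_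
  rwa [Submodule.orthogonal_closure]

omit [Fintype ι] in
lemma prj_inner (V : Submodule ℂ (E Γ ι)) (f g : E Γ ι) : ⟪prj V f, g⟫_ℂ = ⟪f, prj V g⟫_ℂ :=
  Submodule.inner_starProjection_left_eq_right _ _ _

omit [Fintype ι] in
lemma equi_prj {V : Submodule ℂ (E Γ ι)} (hV : Inv V) : Equi (prj V) := by
  intro g f
  refine prj_unique (hV.closure g _ (prj_mem V f)) ?_
  rw [← map_sub]
  exact hV.orthogonal g _ (sub_prj_mem V f)

/-- von Neumann dimension (of the closure) -/
noncomputable def vdim (V : Submodule ℂ (E Γ ι)) : ℝ := ∑ j, ‖prj V (del 1 j)‖ ^ 2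

lemma vdim_eq_tr (V : Submodule ℂ (E Γ ι)) : (vdim V : ℂ) = tr (prj V) := by
  unfold vdim tr
  push_cast
  refine Finset.sum_congr rfl fun j _ => ?_
  rw [← inner_del_left]
  have h : prj V (prj V (del 1 j)) = prj V (del (1 : Γ) j) := prj_eq_of_mem (prj_mem _ _)
  rw [← h, ← prj_inner]
  have h2 := inner_self_eq_norm_sq_to_K (𝕜 := ℂ) (prj V (del (1 : Γ) j))
  rw [h2]
  rw [h]
  simp

lemma vdim_nonneg (V : Submodule ℂ (E Γ ι)) : 0 ≤ vdim V := Finset.sum_nonneg fun _ _ => by positivity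

lemma prj_closure (V : Submodule ℂ (E Γ ι)) : prj V.topologicalClosure = prj V := by
  ext1 f
  refine prj_unique ?_ ?_
  · exact V.topologicalClosure.le_topologicalClosure (prj_mem V f)
  · rw [Submodule.orthogonal_closure]
    exact sub_prj_mem V f

lemma vdim_closure (V : Submodule ℂ (E Γ ι)) : vdim V.topologicalClosure = vdim V := by
  unfold vdim
  rw [prj_closure]

lemma prj_bot : prj (⊥ : Submodule ℂ (E Γ ι)) = 0 := by
  ext1 f
  refine prj_unique (Submodule.zero_mem _) ?_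
  rw [Submodule.bot_orthogonal_eq_top]
  trivial

lemma prj_top : prj (⊤ : Submodule ℂ (E Γ ι)) = 1 := by
  ext1 f
  refine prj_unique (by rw [Submodule.topologicalClosure_eq_top_iff.2 (by simp)]; trivial) ?_
  simp

lemma vdim_bot : vdim (⊥ : Submodule ℂ (E Γ ι)) = 0 := by
  unfold vdim
  rw [prj_bot]
  simp

lemma vdim_top : vdim (⊤ : Submodule ℂ (E Γ ι)) = Fintype.card ι := by
  have h := vdim_eq_tr (⊤ : Submodule ℂ (E Γ ι))
  rw [prj_top, tr_one] at h
  exact_mod_cast h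

/-- orthogonal sums -/
lemma prj_sup_of_le_orthogonal {V W : Submodule ℂ (E Γ ι)} (h : V ≤ Wᗮ) : prj (V ⊔ W) = prj V + prj W := by
  have h' : W ≤ Vᗮ := by
    intro w hw
    rw [Submodule.mem_orthogonal]
    intro v hv
    exact (Submodule.mem_orthogonal' W v).1 (h hv) w hw
  have hc : V.topologicalClosure ≤ Wᗮ := Submodule.topologicalClosure_minimal _ h (Submodule.isClosed_orthogonal W)
  have hc' : W.topologicalClosure ≤ Vᗮ := Submodule.topologicalClosure_minimal _ h' (Submodule.isClosed_orthogonal V)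
  ext1 f
  refine prj_unique ?_ ?_
  · rw [add_apply]
    exact Submodule.add_mem _ (Submodule.topologicalClosure_mono le_sup_left (prj_mem V f))
      (Submodule.topologicalClosure_mono le_sup_right (prj_mem W f))
  · rw [← Submodule.inf_orthogonal, add_apply]
    constructor
    · rw [← sub_sub]
      exact Submodule.sub_mem _ (sub_prj_mem V f) (hc' (prj_mem W f))
    · rw [add_comm, ← sub_sub]
      exact Submodule.sub_mem _ (sub_prj_mem W f) (hc (prj_mem V f))

lemma vdim_sup_of_le_orthogonal {V W : Submodule ℂ (E Γ ι)} (h : V ≤ Wᗮ) : vdim (V ⊔ W) = vdim V + vdim W := by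
  have h1 := vdim_eq_tr (V ⊔ W)
  rw [prj_sup_of_le_orthogonal h, tr_add, ← vdim_eq_tr, ← vdim_eq_tr] at h1
  exact_mod_cast h1

lemma vdim_orthogonal (V : Submodule ℂ (E Γ ι)) : vdim Vᗮ = Fintype.card ι - vdim V := by
  have h1 : V ⊔ Vᗮ ≤ ⊤ := le_top
  have h2 : vdim (Vᗮ ⊔ V) = vdim Vᗮ + vdim V := vdim_sup_of_le_orthogonal le_rfl
  have h3 : vdim (Vᗮ ⊔ V) = Fintype.card ι := by
    rw [← vdim_closure]
    have : (Vᗮ ⊔ V).topologicalClosure = ⊤ := by
      rw [Submodule.topologicalClosure_eq_top_iff, ← Submodule.inf_orthogonal]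
      rw [eq_bot_iff]
      rintro x ⟨hx1, hx2⟩
      rw [Submodule.mem_bot]
      exact inner_self_eq_zero (𝕜 := ℂ).1 ((Submodule.mem_orthogonal _ _).1 hx1 x hx2)
    rw [this, vdim_top]
  linarith

/-- decomposition of a larger module -/
lemma vdim_add_diff {V W : Submodule ℂ (E Γ ι)} (hV : IsClosed (V : Set (E Γ ι))) (h : V ≤ W) :
    vdim V + vdim (W ⊓ Vᗮ) = vdim W := by
  rw [add_comm, ← vdim_sup_of_le_orthogonal (inf_le_right : W ⊓ Vᗮ ≤ Vᗮ)]
  congr 1
  refine le_antisymm (sup_le inf_le_left h) fun w hw => ?_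
  have h1 : prj V w ∈ V := by
    have := prj_mem V w
    rwa [IsClosed.submodule_topologicalClosure_eq hV] at this
  have h2 : w = (w - prj V w) + prj V w := by abel
  rw [h2]
  exact Submodule.add_mem_sup ⟨Submodule.sub_mem _ hw (h h1), sub_prj_mem V w⟩ h1

lemma vdim_mono {V W : Submodule ℂ (E Γ ι)} (h : V ≤ W) : vdim V ≤ vdim W := by
  rw [← vdim_closure V, ← vdim_closure W]
  have := vdim_add_diff (V := V.topologicalClosure) (W := W.topologicalClosure)
    (Submodule.isClosed_topologicalClosure V) (Submodule.topologicalClosure_mono h)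
  have h2 := vdim_nonneg (W.topologicalClosure ⊓ V.topologicalClosureᗮ)
  linarith

lemma eq_bot_of_vdim {V : Submodule ℂ (E Γ ι)} (hI : Inv V) (h : vdim V ≤ 0) : V = ⊥ := by
  have h1 : ∀ j, ‖prj V (del (1 : Γ) j)‖ ^ 2 = 0 := by
    have h2 : vdim V = 0 := le_antisymm h (vdim_nonneg V)
    intro j
    exact (Finset.sum_eq_zero_iff_of_nonneg fun i _ => by positivity).1 h2 j (Finset.mem_univ j)
  have h3 : prj V = 0 := eq_zero_of_del (equi_prj hI) fun j => by
    have := h1 j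
    rwa [sq_eq_zero_iff, norm_eq_zero] at this
  rw [eq_bot_iff]
  intro f hf
  have h4 := prj_eq_of_mem (V.le_topologicalClosure hf)
  rw [h3] at h4
  simpa using h4.symm

/-- faithfulness -/
theorem eq_of_vdim_le {V W : Submodule ℂ (E Γ ι)} (hV : Inv V) (hW : Inv W) (hcV : IsClosed (V : Set (E Γ ι)))
    (h : V ≤ W) (hd : vdim W ≤ vdim V) : V = W := by
  have h1 := vdim_add_diff hcV h
  have h2 : W ⊓ Vᗮ = ⊥ := eq_bot_of_vdim (hW.inf hV.orthogonal) (by linarith)
  refine le_antisymm h fun w hw => ?_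
  have h3 : prj V w ∈ V := by
    have := prj_mem V w
    rwa [IsClosed.submodule_topologicalClosure_eq hcV] at this
  have h4 : w - prj V w ∈ W ⊓ Vᗮ := ⟨Submodule.sub_mem _ hw (h h3), sub_prj_mem V w⟩
  rw [h2, Submodule.mem_bot, sub_eq_zero] at h4
  rw [h4]
  exact h3

end Singer
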