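import Pool.Agent.Singer.Stmt2Conv
import Pool.Agent.Singer.TConcl

/-!
# MP_984acc_gt: the Singer conjecture for Poincare duality groups of a class of flag homology spheres, all dimensions

`SingerPD.Cls n` is the smallest class of graphs which contains the empty graph (`n = 0`) and is closed under suspension
(`n` goes to `n + 1`), subdivision of an edge, glueing along full separating subgraphs, splitting of vertices,
isomorphism, and, for even `n`, contains every finite graph which satisfies the sphere condition and all of whose links are
in `Cls (n - 1)`.  The clique complexes of its members are flag homology spheres of dimension `n - 1`.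

For `G` in `Cls n` every subgroup `H` of finite index without elements of order two of the right-angled Coxeter group
of `G` is a Poincare duality group of dimension `n`, and the reduced `ℓ²`-homology of `H`, computed with an arbitrary
resolution of `ℤ` by finitely generated free modules, vanishes in all degrees `i` with `2 * i ≠ n`.
-/

set_option autoImplicit false

namespace Pool.Agent.Results.MP_984acc_gt.DualityGroups

open SingerPD Singer

/-- the Singer conjecture for the subgroups `H` of finite index without involutions of the right-angled Coxeter group of
a graph of the class `Cls n`; there are such subgroups, and they have finite free resolutions of finite length -/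
theorem result {n : ℕ} {V : Type} {G : SimpleGraph V} (hG : SingerPD.Cls n G) :
    (∃ H : Subgroup (Cox G), H.FiniteIndex ∧ NoInv H) ∧
    ∀ H : Subgroup (Cox G), H.FiniteIndex → NoInv H →
      IsPD n H ∧ (∃ R : FinRes H, ∃ N, ∀ i, N < i → IsEmpty (R.ι i)) ∧
      ∀ (R : FinRes H) (i : ℕ), 2 * i ≠ n → R.VanE i := by
  have h := hG.toClsE
  have : Finite V := h.finite
  exact concl_of_clsE h

end Pool.Agent.Results.MP_984acc_gt.DualityGroups
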