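import Pool.Agent.Singer.Hat
import Pool.Agent.Singer.FinStmt

/-!
# Singer: resolutions by finitely generated free modules over `ℤ[Γ]`

`FinRes Γ`: a resolution of the trivial module `ℤ` by finitely generated free left `ℤ[Γ]`-modules; `FinRes.Van i`: the
reduced `ℓ²`-homology of `Γ` in degree `i`, computed with the resolution, vanishes; `FinRes.van_iff`: this does not depend
on the resolution.
-/

set_option autoImplicit false
set_option linter.unusedSectionVars false
set_option linter.unusedVariables false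

open scoped ComplexConjugate InnerProductSpace Matrix
open Filter Topology

namespace Singer

variable {Γ : Type*} [Group Γ] {ι κ μ : Type*} [Fintype ι] [Fintype κ] [Fintype μ]

lemma eps_embv (w : ι → ℤ) (x : ι → MonoidAlgebra ℤ Γ) : eps (fun i => (w i : ℂ)) (embv x) = (augw w x : ℂ) := by
  classical
  rw [embv_eq, eps_sum _ fun i _ => ?_]
  · unfold augw
    rw [Int.cast_sum]
    refine Finset.sum_congr rfl fun i _ => ?_
    show eps _ (∑ g ∈ (x i).coeff.support, ((x i).coeff g : ℂ) • (del g i : E Γ ι)) = _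
    rw [eps_sum _ fun g _ => (fs_del _ _).smul _, Int.cast_mul, Int.cast_sum, Finset.mul_sum]
    refine Finset.sum_congr rfl fun g _ => ?_
    rw [eps_smul _ _ (fs_del _ _)]
    have h : eps (fun i => (w i : ℂ)) (del g i : E Γ ι) = w i := by
      unfold eps
      rw [finsum_eq_single _ (g, i)]
      · rw [del_apply_self, mul_one]
      · intro p hp
        rw [del_apply_ne hp, mul_zero]
    rw [h, mul_comm]
  · exact FS.sum fun g _ => (fs_del _ _).smul _

/-- base change of exactness, for matrices -/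
theorem base_matrix {M : Matrix ι κ (MonoidAlgebra ℤ Γ)} {N : Matrix μ ι (MonoidAlgebra ℤ Γ)}
    (hex : ∀ x : ι → MonoidAlgebra ℤ Γ, x ᵥ* M = 0 → ∃ y, y ᵥ* N = x) {f : E Γ ι} (hf : FS f) (h0 : hat M f = 0) :
    ∃ h : E Γ μ, FS h ∧ hat N h = f := by
  obtain ⟨n, b, x, hb, rfl⟩ := exists_decomp hf
  have h1 : ∀ s, x s ᵥ* M = 0 := by
    rw [map_sum] at h0
    have h2 : ∀ g l, ∑ s, ((x s ᵥ* M) l).coeff g • b s = 0 := by
      intro g l
      have h3 := congrArg (fun f : E Γ κ => f (g, l)) h0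
      simp only [map_smul, hat_embv] at h3
      rw [lp.coeFn_sum, Finset.sum_apply] at h3
      refine Eq.trans (Finset.sum_congr rfl fun s _ => ?_) h3
      rw [lp.coeFn_smul, Pi.smul_apply, embv_apply, smul_eq_mul, zsmul_eq_mul, mul_comm]
    intro s
    funext l
    refine MonoidAlgebra.ext (Finsupp.ext fun g => ?_)
    exact Fintype.linearIndependent_iff.1 hb _ (h2 g l) s
  choose y hy using fun s => hex (x s) (h1 s)
  refine ⟨∑ s, b s • embv (y s), FS.sum fun s _ => (fs_embv _).smul _, ?_⟩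
  rw [map_sum]
  refine Finset.sum_congr rfl fun s _ => ?_
  rw [map_smul, hat_embv, hy]

/-- base change of exactness, for the augmentation -/
theorem base_augw {w : ι → ℤ} {N : Matrix μ ι (MonoidAlgebra ℤ Γ)}
    (hex : ∀ x : ι → MonoidAlgebra ℤ Γ, augw w x = 0 → ∃ y, y ᵥ* N = x) {f : E Γ ι} (hf : FS f)
    (h0 : eps (fun i => (w i : ℂ)) f = 0) : ∃ h : E Γ μ, FS h ∧ hat N h = f := by
  obtain ⟨n, b, x, hb, rfl⟩ := exists_decomp hf
  have h1 : ∀ s, augw w (x s) = 0 := by
    rw [eps_sum _ fun s _ => (fs_embv _).smul _] at h0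
    have h2 : ∑ s, augw w (x s) • b s = 0 := by
      rw [← h0]
      refine Finset.sum_congr rfl fun s _ => ?_
      rw [eps_smul _ _ (fs_embv _), eps_embv, zsmul_eq_mul, mul_comm]
    exact Fintype.linearIndependent_iff.1 hb _ h2
  choose y hy using fun s => hex (x s) (h1 s)
  refine ⟨∑ s, b s • embv (y s), FS.sum fun s _ => (fs_embv _).smul _, ?_⟩
  rw [map_sum]
  refine Finset.sum_congr rfl fun s _ => ?_
  rw [map_smul, hat_embv, hy]

namespace FinRes

/-- the completion of a free resolution -/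
noncomputable def toRes (R : FinRes Γ) : Res.{0} Γ where
  ι := R.ι
  ft := R.ft
  P _ := ⊤
  e _ := 1
  d i := hat (R.d i)
  w i := R.w i
  mat_e _ := Mat.one
  mat_d i := mat_hat _
  e_mem _ _ := trivial
  e_eq _ _ _ := rfl
  d_mem _ _ _ := trivial
  d_d i f _ := by
    have h : R.d (i + 1) * R.d i = 0 := by
      classical
      ext1 a b
      have h1 := (R.exact_succ i (Pi.single a 1 ᵥ* R.d (i + 1))).2 ⟨_, rfl⟩
      rw [Matrix.vecMul_vecMul] at h1
      have h2 := congrFun h1 b
      rw [Matrix.single_one_vecMul] at h2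
      exact h2
    have h1 := hat_mul (R.d (i + 1)) (R.d i)
    rw [h, hat_zero] at h1
    exact (DFunLike.congr_fun h1 f).symm
  eps_d f _ hf := by
    obtain ⟨n, b, x, hb, rfl⟩ := exists_decomp hf
    rw [map_sum, eps_sum _ fun s _ => (mat_hat _).fs ((fs_embv _).smul _)]
    refine Finset.sum_eq_zero fun s _ => ?_
    rw [map_smul, eps_smul _ _ ((mat_hat _).fs (fs_embv _)), hat_embv, eps_embv,
      (R.exact_zero _).2 ⟨_, rfl⟩, Int.cast_zero, mul_zero]
  surj := by
    obtain ⟨x, hx⟩ := R.surj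
    exact ⟨embv x, trivial, fs_embv x, by rw [eps_embv, hx, Int.cast_one]⟩
  ex_zero f _ hf h0 := by
    obtain ⟨h, h1, h2⟩ := base_augw (fun x hx => (R.exact_zero x).1 hx) hf h0
    exact ⟨h, trivial, h1, h2⟩
  ex_succ i f _ hf h0 := by
    obtain ⟨h, h1, h2⟩ := base_matrix (fun x hx => (R.exact_succ i x).1 hx) hf h0
    exact ⟨h, trivial, h1, h2⟩

/-- the reduced `ℓ²`-homology in degree `i`, computed with the resolution, vanishes: every `ℓ²`-cycle is a limit of
boundaries -/
def Van (R : FinRes Γ) : ℕ → Prop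
  | 0 => ∀ f : E Γ (R.ι 0), f ∈ closure (Set.range (hat (R.d 0)))
  | i + 1 => ∀ f : E Γ (R.ι (i + 1)), hat (R.d i) f = 0 → f ∈ closure (Set.range (hat (R.d (i + 1))))

lemma mem_B (R : FinRes Γ) (i : ℕ) (f : E Γ (R.ι i)) : f ∈ R.toRes.B i ↔ f ∈ closure (Set.range (hat (R.d i))) := by
  have h : (((⊤ : Submodule ℂ (E Γ (R.ι (i + 1)))).map
      (hat (R.d i) : E Γ (R.ι (i + 1)) →ₗ[ℂ] E Γ (R.ι i)) : Submodule ℂ (E Γ (R.ι i))) : Set (E Γ (R.ι i))) =
      Set.range (hat (R.d i)) := by
    ext y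
    constructor
    · rintro ⟨x, _, rfl⟩
      exact ⟨x, rfl⟩
    · rintro ⟨x, rfl⟩
      exact ⟨x, trivial, rfl⟩
  show f ∈ closure (((⊤ : Submodule ℂ (E Γ (R.ι (i + 1)))).map
      (hat (R.d i) : E Γ (R.ι (i + 1)) →ₗ[ℂ] E Γ (R.ι i)) : Submodule ℂ (E Γ (R.ι i))) : Set (E Γ (R.ι i))) ↔ _
  rw [h]

lemma van_iff_le (R : FinRes Γ) (i : ℕ) : R.Van i ↔ R.toRes.Z i ≤ R.toRes.B i := by
  cases i with
  | zero =>
    constructor
    · intro h f _
      exact (R.mem_B 0 f).2 (h f)
    · intro h f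
      exact (R.mem_B 0 f).1 (h trivial)
  | succ i =>
    constructor
    · intro h f hf
      exact (R.mem_B (i + 1) f).2 (h f hf.2)
    · intro h f hf
      exact (R.mem_B (i + 1) f).1 (h ⟨trivial, hf⟩)

/-- the vanishing of the reduced `ℓ²`-homology in degree `i` does not depend on the resolution -/
theorem van_iff (R R' : FinRes Γ) (i : ℕ) : R.Van i ↔ R'.Van i := by
  rw [van_iff_le, van_iff_le]
  exact ⟨Res.vanish _ _ i, Res.vanish _ _ i⟩

end FinRes

end Singer
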