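import Pool.Agent.Singer.Links
import Pool.Agent.Singer.Elem

/-!
# MP_984acc_gt: the Singer conjecture for right-angled Coxeter groups of a class of flag spheres, all dimensions

`Singer.Cls n` is the smallest class of finite graphs which contains the empty graph (`n = 0`) and is closed under
suspension (`n` goes to `n + 1`), subdivision of an edge, glueing along full separating subgraphs, splitting of vertices
and isomorphism.  The clique complexes of the members of `Cls n` are flag triangulations of the sphere of dimension
`n - 1`.  For `G` in `Cls n` the reduced `ℓ²`-homology of the Davis complex of the right-angled Coxeter group of `G`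
vanishes in all degrees `i` with `2 * i ≠ n`.
-/

set_option autoImplicit false

namespace Singer.FlagSpheres

open Singer

/-- for `G` in `Cls n` and `2 * i ≠ n` every square-summable cycle of degree `i` of the Davis complex is a limit of
boundaries of square-summable chains -/
theorem result {n : ℕ} {V : Type} [Fintype V] [DecidableEq V] {G : SimpleGraph V} (hG : Cls n G) {i : ℕ}
    (hi : 2 * i ≠ n) {r : V → ℕ} (hr : Function.Injective r) {f : RACG G → Finset V → ℂ} (hf : Chain G i f)
    (h0 : ∀ w T, bdry r f w T = 0) {ε : ℝ} (hε : 0 < ε) :
    ∃ c : RACG G → Finset V → ℂ, Chain G (i + 1) c ∧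
      ∀ S : Finset (RACG G), ∑ w ∈ S, ∑ T : Finset V, ‖f w T - bdry r c w T‖ ^ 2 < ε := by
  refine elem_of_le (Cy_le_Bd_of_bn _ _ _ hr ?_) hf h0 hε
  rw [← bet_eq_bn G hr i]
  exact good_bet (good_of_cls hG) i hi

end Singer.FlagSpheres
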