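import Pool.Agent.Singer.Basic

/-!
# Singer: the Mayer-Vietoris formula
-/

set_option autoImplicit false
set_option linter.unusedSectionVars false
set_option linter.unusedVariables false

open scoped ComplexConjugate InnerProductSpace
open Filter Topology

namespace Singer

variable {Γ : Type*} [Group Γ] {V : Type*} [Fintype V] [DecidableEq V]
variable {r : V → ℕ} {G : SimpleGraph V} {s : V → Γ} {K K' : Finset V}

theorem Ch_inter (i : ℕ) : Ch G s (K ∩ K') i = Ch G s K i ⊓ Ch G s K' i := by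
  refine le_antisymm (le_inf (Ch_mono _ _ Finset.inter_subset_left i) (Ch_mono _ _ Finset.inter_subset_right i)) ?_
  rintro f ⟨f1, f2⟩
  exact ⟨fun x hx => ⟨Finset.subset_inter (f1.1 x hx).1 (f2.1 x hx).1, (f1.1 x hx).2⟩, f1.2⟩

/-- restriction to the cells in `K` -/
noncomputable def cellCut (K : Finset V) : E Γ (Finset V) →L[ℂ] E Γ (Finset V) := ∑ T ∈ K.powerset, col T T

lemma cellCut_apply (K : Finset V) (f : E Γ (Finset V)) (g : Γ) (T : Finset V) :
    cellCut K f (g, T) = if T ⊆ K then f (g, T) else 0 := by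
  unfold cellCut
  rw [sum_apply, lp.coeFn_sum, Finset.sum_apply]
  by_cases h : T ⊆ K
  · rw [if_pos h, Finset.sum_eq_single T]
    · simp [col_apply]
    · intro S _ hS
      simp [col_apply, Ne.symm hS]
    · intro h'
      exact absurd (Finset.mem_powerset.2 h) h'
  · rw [if_neg h]
    refine Finset.sum_eq_zero fun S hS => ?_
    have : T ≠ S := fun e => h (e ▸ Finset.mem_powerset.1 hS)
    simp [col_apply, this]

theorem Ch_union (hno : ∀ u ∈ K, u ∉ K' → ∀ v ∈ K', v ∉ K → ¬ G.Adj u v) (i : ℕ) :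
    Ch G s (K ∪ K') i = Ch G s K i ⊔ Ch G s K' i := by
  refine le_antisymm ?_ (sup_le (Ch_mono _ _ Finset.subset_union_left i) (Ch_mono _ _ Finset.subset_union_right i))
  rintro f ⟨f1, f2⟩
  have h1 : cellCut K f ∈ Ch G s K i := by
    constructor
    · rintro ⟨g, T⟩ hx
      rw [cellCut_apply] at hx
      by_cases hT : T ⊆ K
      · rw [if_pos hT] at hx
        exact ⟨hT, (f1 (g, T) hx).2⟩
      · rw [if_neg hT] at hx
        exact absurd rfl hx
    · intro g T v hv
      rw [cellCut_apply, cellCut_apply]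
      split_ifs
      · exact f2 g T v hv
      · rw [neg_zero]
  have h2 : f - cellCut K f ∈ Ch G s K' i := by
    have e : ∀ g T, (f - cellCut K f : E Γ (Finset V)) (g, T) = if T ⊆ K then 0 else f (g, T) := by
      intro g T
      rw [lp.coeFn_sub, Pi.sub_apply, cellCut_apply]
      split_ifs
      · rw [sub_self]
      · rw [sub_zero]
    constructor
    · rintro ⟨g, T⟩ hx
      rw [e] at hx
      by_cases hT : T ⊆ K
      · rw [if_pos hT] at hx
        exact absurd rfl hx
      · rw [if_neg hT] at hx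
        obtain ⟨c1, c2, c3⟩ := f1 (g, T) hx
        refine ⟨fun u hu => ?_, c2, c3⟩
        by_contra huK'
        have huK : u ∈ K := (Finset.mem_union.1 (c1 hu)).resolve_right huK'
        obtain ⟨v, hv, hvK⟩ := Finset.not_subset.1 hT
        have hvK' : v ∈ K' := (Finset.mem_union.1 (c1 hv)).resolve_left hvK
        refine hno u huK huK' v hvK' hvK (c3 (Finset.mem_coe.2 hu) (Finset.mem_coe.2 hv) ?_)
        rintro rfl
        exact hvK huK
    · intro g T v hv
      rw [e, e]
      split_ifs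
      · rw [neg_zero]
      · exact f2 g T v hv
  have h3 : f = cellCut K f + (f - cellCut K f) := by abel
  rw [h3]
  exact Submodule.add_mem_sup h1 h2

lemma vdim_Ch_union (hno : ∀ u ∈ K, u ∉ K' → ∀ v ∈ K', v ∉ K → ¬ G.Adj u v) (i : ℕ) :
    vdim (Ch G s (K ∪ K') i) = vdim (Ch G s K i) + vdim (Ch G s K' i) - vdim (Ch G s (K ∩ K') i) := by
  have := vdim_sup_add_inf (mdl_Ch G s K i).inv (mdl_Ch G s K' i).inv (mdl_Ch G s K i).cl (mdl_Ch G s K' i).cl
  rw [Ch_union hno, Ch_inter]
  linarith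

lemma vdim_Bd_union (hno : ∀ u ∈ K, u ∉ K' → ∀ v ∈ K', v ∉ K → ¬ G.Adj u v) (i : ℕ) :
    vdim (Bd r G s (K ∪ K') i) =
      vdim (Bd r G s K i) + vdim (Bd r G s K' i) - vdim (Bd r G s K i ⊓ Bd r G s K' i) := by
  have h := vdim_sup_add_inf (mdl_Bd r G s K i).inv (mdl_Bd r G s K' i).inv (mdl_Bd r G s K i).cl (mdl_Bd r G s K' i).cl
  have h1 : Bd r G s (K ∪ K') i = (Bd r G s K i ⊔ Bd r G s K' i).topologicalClosure := by
    refine le_antisymm ?_ ?_
    · refine Bd_le_of r G s (Submodule.isClosed_topologicalClosure _) fun f hf => ?_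
      rw [Ch_union hno] at hf
      obtain ⟨x, hx, y, hy, rfl⟩ := Submodule.mem_sup.1 hf
      rw [map_add]
      exact Submodule.le_topologicalClosure _ (Submodule.add_mem_sup (D_mem_Bd r G s hx) (D_mem_Bd r G s hy))
    · exact Submodule.topologicalClosure_minimal _
        (sup_le (Bd_mono _ _ _ Finset.subset_union_left _) (Bd_mono _ _ _ Finset.subset_union_right _))
        (mdl_Bd _ _ _ _ _).cl
  rw [h1, vdim_closure]
  linarith

/-- Mayer-Vietoris -/
theorem mv_succ (hr : Function.Injective r) (hno : ∀ u ∈ K, u ∉ K' → ∀ v ∈ K', v ∉ K → ¬ G.Adj u v) (i : ℕ) :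
    bn r G s (K ∪ K') (i + 1) = mk r G s K K' i + bn r G s K (i + 1) + bn r G s K' (i + 1) -
      bn r G s (K ∩ K') (i + 1) + mk r G s K K' (i + 1) := by
  have a1 := vdim_Bd r G s (K ∪ K') i
  have a2 := vdim_Bd r G s K i
  have a3 := vdim_Bd r G s K' i
  have a4 := vdim_Bd r G s (K ∩ K') i
  have b1 := vdim_Bd_union (r := r) (s := s) hno i
  have b2 := vdim_Bd_union (r := r) (s := s) hno (i + 1)
  have c := vdim_Ch_union (s := s) hno (i + 1)
  unfold bn mk
  linarith

theorem mv_zero (hr : Function.Injective r) (hno : ∀ u ∈ K, u ∉ K' → ∀ v ∈ K', v ∉ K → ¬ G.Adj u v) :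
    bn r G s (K ∪ K') 0 = bn r G s K 0 + bn r G s K' 0 - bn r G s (K ∩ K') 0 + mk r G s K K' 0 := by
  have b1 := vdim_Bd_union (r := r) (s := s) hno 0
  have c := vdim_Ch_union (s := s) hno 0
  unfold bn mk
  rw [Cy_zero, Cy_zero, Cy_zero, Cy_zero]
  linarith

theorem mk_nonneg (hr : Function.Injective r) (i : ℕ) : 0 ≤ mk r G s K K' i :=
  sub_nonneg.2 (vdim_mono (le_inf (Bd_mono _ _ _ Finset.inter_subset_left _) (Bd_mono _ _ _ Finset.inter_subset_right _)))

theorem mk_le (hr : Function.Injective r) (i : ℕ) : mk r G s K K' i ≤ bn r G s (K ∩ K') i := by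
  unfold mk bn
  refine sub_le_sub_right (vdim_mono ?_) _
  rintro f ⟨f1, f2⟩
  have c1 := Bd_le_Cy _ _ _ hr _ _ f1
  have c2 := Bd_le_Cy _ _ _ hr _ _ f2
  refine ⟨?_, c1.2⟩
  rw [Ch_inter]
  exact ⟨c1.1, c2.1⟩

end Singer
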