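import Pool.Agent.Singer.Bet
import Pool.Agent.Singer.MV
import Pool.Agent.Singer.Step
import Pool.Agent.Singer.RacgSys

/-!
# Singer: glueing along a full subgraph of codimension one
-/

set_option autoImplicit false
set_option linter.unusedSectionVars false
set_option linter.unusedVariables false

open scoped ComplexConjugate InnerProductSpace
open Filter Topology

namespace Singer

section glue
variable {V : Type*} [Fintype V] [DecidableEq V]

private theorem rk_inj_glue : Function.Injective (rk : V → ℕ) := fun _ _ h => (Fintype.equivFin V).injective (Fin.ext h)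

/-- glueing: `m` even: `mk_eq_zero` (with `cap_SS`, `side_racg`), `cap_half`, `mv_succ`; `m` odd: `cap_eq`, `mv_succ`,
`mk_le` -/
theorem bet_glue {G : SimpleGraph V} {K K' B : Finset V} (hcov : ∀ v, v ∈ K ∨ v ∈ K')
    (hB : ∀ v, v ∈ B ↔ v ∈ K ∧ v ∈ K') (hno : ∀ u v, u ∉ K' → v ∉ K → ¬ G.Adj u v) {m : ℕ}
    (h0 : ∀ i, 2 * i ≠ m → bet (res G B) i = 0) (h1 : ∀ i, 2 * i ≠ m + 1 → bet (cap G K B) i = 0)
    (h2 : ∀ i, 2 * i ≠ m + 1 → bet (cap G K' B) i = 0) (i : ℕ) (hi : 2 * i ≠ m + 1) : bet G i = 0 := by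
  have hBe : B = K ∩ K' := by
    ext v
    rw [hB, Finset.mem_inter]
  have hU : (Finset.univ : Finset V) = K ∪ K' := by
    ext v
    simpa using hcov v
  have hBK : B ⊆ K := fun v hv => ((hB v).1 hv).1
  have hBK' : B ⊆ K' := fun v hv => ((hB v).1 hv).2
  have hno' : ∀ u ∈ K, u ∉ K' → ∀ v ∈ K', v ∉ K → ¬ G.Adj u v := fun u _ hu v _ hv => hno u v hu hv
  have hr : Function.Injective (rk : V → ℕ) := rk_inj_glue
  have hb : ∀ j, 2 * j ≠ m → bn rk G (Racg.gen G) (K ∩ K') j = 0 := by
    intro j hj
    rw [bn_eq_bet G hr, ← hBe]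
    exact h0 j hj
  have hmk : ∀ j, 2 * j ≠ m → mk rk G (Racg.gen G) K K' j = 0 := fun j hj =>
    le_antisymm ((mk_le hr j).trans_eq (hb j hj)) (mk_nonneg hr j)
  have hbet : ∀ j, bet G j = bn rk G (Racg.gen G) (K ∪ K') j := by
    intro j
    rw [← hU]
    rfl
  rcases Nat.even_or_odd' m with ⟨k, rfl | rfl⟩
  · -- `m` even
    have c1 : ∀ j, bet (cap G K B) j = 0 := fun j => h1 j (by omega)
    have c2 : ∀ j, bet (cap G K' B) j = 0 := fun j => h2 j (by omega)
    have hS : Side (sub (Racg.gen G) (K : Set V)) (sub (Racg.gen G) (K' : Set V))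
        (sub (Racg.gen G) ((K ∩ K' : Finset V) : Set V)) := by
      rw [Finset.coe_inter]
      exact side_racg G (fun v => by simpa using hcov v) fun u v hu hv => hno u v (by simpa using hu) (by simpa using hv)
    have s1 : SS rk G (Racg.gen G) K (K ∩ K') k := by
      rw [← hBe]
      exact cap_SS G hBK hr (c1 _)
    have s2 : SS rk G (Racg.gen G) K' (K ∩ K') k := by
      rw [← hBe]
      exact cap_SS G hBK' hr (c2 _)
    have hmk' : ∀ j, mk rk G (Racg.gen G) K K' j = 0 := by
      intro j
      by_cases hj : 2 * j = 2 * k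
      · obtain rfl : j = k := by omega
        exact mk_eq_zero hr hS s1 s2
      · exact hmk j hj
    have a1 : ∀ j, bn rk G (Racg.gen G) K j = bn rk G (Racg.gen G) (K ∩ K') j / 2 := by
      intro j
      rw [← hBe]
      exact cap_half G hBK hr c1 j
    have a2 : ∀ j, bn rk G (Racg.gen G) K' j = bn rk G (Racg.gen G) (K ∩ K') j / 2 := by
      intro j
      rw [← hBe]
      exact cap_half G hBK' hr c2 j
    rw [hbet]
    cases i with
    | zero =>
      rw [mv_zero hr hno', hmk', a1, a2]
      ring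
    | succ i =>
      rw [mv_succ hr hno', hmk', hmk', a1, a2]
      ring
  · -- `m` odd
    have b0 : ∀ j, bn rk G (Racg.gen G) (K ∩ K') j = 0 := fun j => hb j (by omega)
    have b0' : ∀ j, bn rk G (Racg.gen G) B j = 0 := by
      rw [hBe]
      exact b0
    have hmk' : ∀ j, mk rk G (Racg.gen G) K K' j = 0 := fun j => hmk j (by omega)
    have a1 : bn rk G (Racg.gen G) K i = 0 := by
      rw [← cap_eq G hBK hr b0' i]
      exact h1 i hi
    have a2 : bn rk G (Racg.gen G) K' i = 0 := by
      rw [← cap_eq G hBK' hr b0' i]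
      exact h2 i hi
    rw [hbet]
    cases i with
    | zero =>
      rw [mv_zero hr hno', hmk', a1, a2, b0]
      ring
    | succ i =>
      rw [mv_succ hr hno', hmk', hmk', a1, a2, b0]
      ring

end glue

end Singer
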