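import Pool.Agent.Singer.Gen.Push
import Pool.Agent.Singer.FinBetti

/-!
# The `ℓ²`-Betti numbers of an amalgamated product and of its two doubles

`b_i(A *_C B) ≤ (b_i(A *_C A) + b_i(B *_C B)) / 2` in every degree `i`.
-/

set_option autoImplicit false

universe u v

/-- Let `C` be a common subgroup of two groups `G true` and `G false` (through injective homomorphisms `φ true` and
`φ false`); suppose that the three groups are of type `FP_∞`.  In every degree the `ℓ²`-Betti number of the amalgamated
product of `G true` and `G false` along `C` is at most the mean of the `ℓ²`-Betti numbers of the two doubles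
`G b *_C G b` (all of them computed with any resolutions by finitely generated free modules). -/
theorem Singer.gluingInequality {C : Type u} [Group C] {G : Bool → Type v}
    [∀ b, Group (G b)] (φ : ∀ b, C →* G b) (hφ : ∀ b, Function.Injective (φ b)) (RC : Singer.FinRes C)
    (RG : ∀ b, Singer.FinRes (G b)) (R : Singer.FinRes (Monoid.PushoutI φ))
    (RD : ∀ b, Singer.FinRes (Monoid.PushoutI fun _ : Bool => φ b)) (i : ℕ) :
    0 ≤ R.betti i ∧ R.betti i ≤ ((RD true).betti i + (RD false).betti i) / 2 := by
  refine ⟨R.betti_nonneg i, ?_⟩
  obtain ⟨S, SD, h⟩ := Singer.push_le hφ RC.toRes fun b => (RG b).toRes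
  rw [R.betti_eq, (RD true).betti_eq, (RD false).betti_eq, Singer.Res.h_eq R.toRes S,
    Singer.Res.h_eq (RD true).toRes (SD true), Singer.Res.h_eq (RD false).toRes (SD false)]
  have h1 := h i
  linarith
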