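import Pool.Agent.Singer.Loc

/-!
# Singer: the half-space lemma

`U ≤ K` subgroups, `a` an involution which commutes with `U` and is not in `U`, `S ⊆ Γ` with `S K ⊆ S`, `U ⊆ S` and
`(S \ U) a ⊆ S \ U`.  `X` is a `U`-local module, `N ≤ X` a `K`-local module whose intersection with every `U`-local
`V ≤ X` has at most half of the dimension of `V`.  Then no nonzero element of `N` is antisymmetric under `rt a`.
-/

set_option autoImplicit false
set_option linter.unusedSectionVars false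
set_option linter.unusedVariables false

open scoped ComplexConjugate InnerProductSpace
open Filter Topology

namespace Singer

variable {Γ : Type*} [Group Γ] {ι : Type*}

/-- a half space: `S K ⊆ S`, `U ⊆ S` and `(S \ U) a ⊆ S \ U` -/
structure HalfSp (U K : Subgroup Γ) (a : Γ) (S : Set Γ) : Prop where
  mul_mem : ∀ s ∈ S, ∀ k ∈ K, s * k ∈ S
  sub : ∀ u ∈ U, u ∈ S
  mul_a : ∀ s ∈ S, s ∉ U → s * a ∈ S ∧ s * a ∉ U

/-- the pairing argument: a vector which is symmetric under `rt a` and orthogonal to `1_S y`, with `y` antisymmetric, is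
orthogonal to `1_U y` -/
lemma HalfSp.inner_cut {U K : Subgroup Γ} {a : Γ} {S : Set Γ} (hS : HalfSp U K a S) (ha : a * a = 1) {y ξ : E Γ ι}
    (hy : rt a y = -y) (hξ : rt a ξ = ξ) (h0 : ⟪cut S y, ξ⟫_ℂ = 0) : ⟪cut (U : Set Γ) y, ξ⟫_ℂ = 0 := by
  have hdec : cut S y = cut (U : Set Γ) y + cut (S \ U) y := by
    rw [← cut_add_cut Set.disjoint_sdiff_right]
    congr 2
    rw [Set.union_sdiff_cancel]
    exact fun u hu => hS.sub u hu
  have hT : {x : Γ | x * a ∈ S \ (U : Set Γ)} = S \ (U : Set Γ) := by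
    ext x
    constructor
    · intro hx
      have h1 := hS.mul_a _ hx.1 hx.2
      rw [mul_assoc, ha, mul_one] at h1
      exact h1
    · intro hx
      exact hS.mul_a _ hx.1 hx.2
  have h1 : rt a (cut (S \ U) y) = -cut (S \ U) y := by
    rw [rt_cut, hT, hy, map_neg]
  have h2 : ⟪cut (S \ U) y, ξ⟫_ℂ = 0 := by
    have h3 : ⟪cut (S \ U) y, ξ⟫_ℂ = -⟪cut (S \ U) y, ξ⟫_ℂ := by
      calc ⟪cut (S \ U) y, ξ⟫_ℂ = ⟪cut (S \ U) y, rt a ξ⟫_ℂ := by rw [hξ]
        _ = ⟪rt a (cut (S \ U) y), ξ⟫_ℂ := (inner_rt_invol ha _ _).symm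
        _ = _ := by rw [h1, inner_neg_left]
    exact self_eq_neg.1 h3
  rw [hdec, inner_add_left, h2, add_zero] at h0
  exact h0

/-- the half-space lemma -/
theorem half_space [Fintype ι] {U K : Subgroup Γ} (hUK : U ≤ K) {a : Γ} (ha : a * a = 1)
    (hcom : ∀ u ∈ U, a * u = u * a) (haU : a ∉ U) {S : Set Γ} (hS : HalfSp U K a S)
    {X N : Submodule ℂ (E Γ ι)} (hXI : Inv X) (hXc : IsClosed (X : Set (E Γ ι))) (hXL : Loc U X)
    (hNI : Inv N) (hNc : IsClosed (N : Set (E Γ ι))) (hNL : Loc K N) (hNX : N ≤ X)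
    (hSS : ∀ V : Submodule ℂ (E Γ ι), Inv V → IsClosed (V : Set (E Γ ι)) → Loc U V → V ≤ X →
      2 * vdim (N ⊓ V) ≤ vdim V) :
    N ⊓ asym a = ⊥ := by
  set Y : Submodule ℂ (E Γ ι) := N ⊓ asym a with hYdef
  have hYI : Inv Y := hNI.inf (inv_asym a)
  have hYc : IsClosed (Y : Set (E Γ ι)) := hNc.inter (isClosed_asym a)
  set X' : Submodule ℂ (E Γ ι) := hull U (Y : Set (E Γ ι)) with hX'def
  set XN : Submodule ℂ (E Γ ι) := hull K (Y : Set (E Γ ι)) with hXNdef
  have iX' : Inv X' := inv_hull _ _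
  have cX' : IsClosed (X' : Set (E Γ ι)) := isClosed_hull _ _
  have lX' : Loc U X' := loc_hull _ _
  have iXN : Inv XN := inv_hull _ _
  have cXN : IsClosed (XN : Set (E Γ ι)) := isClosed_hull _ _
  have lXN : Loc K XN := loc_hull _ _
  have hYX' : Y ≤ X' := fun y hy => subset_hull U (fun g z hz => hYI g z hz) hy
  have hYXN : Y ≤ XN := fun y hy => subset_hull K (fun g z hz => hYI g z hz) hy
  have hX'X : X' ≤ X := hull_le hXI hXc hXL fun y hy => hNX hy.1
  have hXNN : XN ≤ N := hull_le hNI hNc hNL fun y hy => hy.1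
  have hXNX' : XN ≤ X' := hull_le iX' cX' (lX'.mono iX' cX' hUK) fun y hy => hYX' hy
  -- the symmetrisation of XN is dense in the symmetric part of X'
  set P : E Γ ι →L[ℂ] E Γ ι := 1 + rt a with hPdef
  have hP : Equi P := equi_one.add (equi_rt a)
  have hPa : ∀ f, P f = f + rt a f := fun f => rfl
  have hr : ∀ f ∈ X', rt a f ∈ X' := fun f hf => lX'.rt_mem iX' cX' ha hcom hf
  have hsub : XN.map (P : E Γ ι →ₗ[ℂ] E Γ ι) ≤ X' ⊓ symm a := by
    rintro _ ⟨f, hf, rfl⟩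
    refine ⟨X'.add_mem (hXNX' hf) (hr f (hXNX' hf)), ?_⟩
    show P f ∈ symm a
    rw [mem_symm, hPa, map_add, rt_invol ha, add_comm]
  have key : ∀ ξ ∈ X' ⊓ symm a, ξ ∈ (XN.map (P : E Γ ι →ₗ[ℂ] E Γ ι))ᗮ → ξ = 0 := by
    intro ξ hξ hort
    -- `ξ` is orthogonal to `XN`
    have h1 : ∀ g : Γ, ∀ x ∈ XN, ⟪x, lam g ξ⟫_ℂ = 0 := by
      intro g x hx
      have h2 : ∀ x ∈ XN, ⟪x, ξ⟫_ℂ = 0 := by
        intro x hx
        have h3 : ⟪P x, ξ⟫_ℂ = 0 := (Submodule.mem_orthogonal _ _).1 hort _ ⟨x, hx, rfl⟩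
        rw [hPa, inner_add_left, inner_rt_invol ha, mem_symm.1 hξ.2, ← two_mul] at h3
        exact (mul_eq_zero.1 h3).resolve_left two_ne_zero
      have h4 := h2 _ (iXN g⁻¹ x hx)
      rw [inner_lam_left, inv_inv] at h4
      exact h4
    have h5 : X' ≤ (Submodule.span ℂ {ξ})ᗮ := by
      refine Submodule.topologicalClosure_minimal _ (Submodule.span_le.2 ?_) (Submodule.isClosed_orthogonal _)
      rintro _ ⟨g, y, hy, rfl⟩
      show _ ∈ (Submodule.span ℂ {ξ})ᗮ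
      rw [Submodule.mem_orthogonal_singleton_iff_inner_left, inner_lam_left]
      refine hS.inner_cut ha (mem_asym.1 hy.2) ?_ ?_
      · rw [equi_rt, mem_symm.1 hξ.2]
      · exact h1 g⁻¹ _ (lXN.cut_mem iXN cXN hS.mul_mem (hYXN hy))
    have h6 := h5 hξ.1
    rw [Submodule.mem_orthogonal_singleton_iff_inner_left] at h6
    exact inner_self_eq_zero.1 h6
  have hdense : vdim (XN.map (P : E Γ ι →ₗ[ℂ] E Γ ι)) = vdim (X' ⊓ symm a) := by
    rw [← vdim_closure]
    congr 1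
    have cS : IsClosed ((X' ⊓ symm a : Submodule ℂ (E Γ ι)) : Set (E Γ ι)) := cX'.inter (isClosed_symm a)
    refine le_antisymm (Submodule.topologicalClosure_minimal _ hsub cS) fun ξ hξ => ?_
    have h7 := prj_mem (XN.map (P : E Γ ι →ₗ[ℂ] E Γ ι)) ξ
    have h8 : prj (XN.map (P : E Γ ι →ₗ[ℂ] E Γ ι)) ξ ∈ X' ⊓ symm a :=
      Submodule.topologicalClosure_minimal _ hsub cS h7
    have h9 := key _ (Submodule.sub_mem _ hξ h8) (sub_prj_mem _ ξ)
    rw [sub_eq_zero] at h9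
    rw [h9]
    exact h7
  have hker : XN ⊓ LinearMap.ker (P : E Γ ι →ₗ[ℂ] E Γ ι) = Y := by
    refine le_antisymm (fun f hf => ⟨hXNN hf.1, hf.2⟩) fun f hf => ⟨hYXN hf, hf.2⟩
  have h10 := vdim_map_add hP iXN cXN
  rw [hker, hdense] at h10
  have h11 := vdim_symm iX' cX' lX' ha hcom haU
  have h12 := hSS X' iX' cX' lX' hX'X
  have h13 : vdim XN ≤ vdim (N ⊓ X') := vdim_mono (le_inf hXNN hXNX')
  exact eq_bot_of_vdim hYI (by linarith)

end Singer
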