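import Pool.Agent.Singer.Compare
import Pool.Agent.Singer.IndG

/-!
# Singer: matrices over `ℤ[Γ]` as operators on `ℓ²`

`hat M : E Γ ι →L[ℂ] E Γ κ` is the right multiplication by the matrix `M` over the group ring `ℤ[Γ]`;
`embv x` is the element of `ℓ²` of a row `x : ι → ℤ[Γ]`; `hat M (embv x) = embv (x ᵥ* M)`, `hat (M * N) = hat N ∘ hat M`.
`exists_decomp`: a finitely supported function is a combination of integral ones with coefficients which are linearly
independent over `ℤ`.
-/

set_option autoImplicit false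
set_option linter.unusedSectionVars false
set_option linter.unusedVariables false

open scoped ComplexConjugate InnerProductSpace Matrix
open Filter Topology

namespace Singer

variable {Γ : Type*} [Group Γ] {ι κ μ : Type*} [Fintype ι] [Fintype κ] [Fintype μ]

/-- right multiplication by a matrix over the group ring: the operator with
`(hat M f)(g, l) = ∑ i, ∑ x, (M i l)(x) * f (g * x⁻¹, i)` -/
noncomputable def hat (M : Matrix ι κ (MonoidAlgebra ℤ Γ)) : E Γ ι →L[ℂ] E Γ κ :=
  ∑ i, ∑ l, ∑ x ∈ (M i l).coeff.support, ((M i l).coeff x : ℂ) • (rt x⁻¹).comp (col i l)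

lemma mat_hat (M : Matrix ι κ (MonoidAlgebra ℤ Γ)) : Mat (hat M) :=
  Mat.sum fun _ _ => Mat.sum fun _ _ => Mat.sum fun _ _ => ((mat_rt _).comp (mat_col _ _)).smul _

lemma hat_apply (M : Matrix ι κ (MonoidAlgebra ℤ Γ)) (f : E Γ ι) (g : Γ) (l : κ) :
    hat M f (g, l) = ∑ i, ∑ x ∈ (M i l).coeff.support, ((M i l).coeff x : ℂ) * f (g * x⁻¹, i) := by
  classical
  unfold hat
  simp only [sum_apply, lp.coeFn_sum, Finset.sum_apply, smul_apply, lp.coeFn_smul, Pi.smul_apply, smul_eq_mul,
    ContinuousLinearMap.comp_apply, rt_apply, col_apply]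
  refine Finset.sum_congr rfl fun i _ => ?_
  rw [Finset.sum_eq_single l]
  · simp
  · intro l' _ hl'
    refine Finset.sum_eq_zero fun x _ => ?_
    rw [if_neg (Ne.symm hl'), mul_zero]
  · intro h
    exact absurd (Finset.mem_univ l) h

/-- the row of `M` -/
lemma hat_del (M : Matrix ι κ (MonoidAlgebra ℤ Γ)) (g : Γ) (i : ι) :
    hat M (del g i) = ∑ l, ∑ x ∈ (M i l).coeff.support, ((M i l).coeff x : ℂ) • del (g * x) l := by
  classical
  unfold hat
  rw [sum_apply, Finset.sum_eq_single i]
  · rw [sum_apply]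
    refine Finset.sum_congr rfl fun l _ => ?_
    rw [sum_apply]
    refine Finset.sum_congr rfl fun x _ => ?_
    rw [smul_apply, ContinuousLinearMap.comp_apply, col_del_self, rt_del, inv_inv]
  · intro i' _ hi'
    rw [sum_apply]
    refine Finset.sum_eq_zero fun l _ => ?_
    rw [sum_apply]
    refine Finset.sum_eq_zero fun x _ => ?_
    rw [smul_apply, ContinuousLinearMap.comp_apply, col_del_ne (Ne.symm hi'), map_zero, smul_zero]
  · intro h
    exact absurd (Finset.mem_univ i) h

/-- the element of `ℓ²` of an element of the group ring, in the coordinate `i` -/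
noncomputable def embR (i : ι) : MonoidAlgebra ℤ Γ →+ E Γ ι where
  toFun x := ∑ g ∈ x.coeff.support, (x.coeff g : ℂ) • del g i
  map_zero' := by simp
  map_add' x y := by
    classical
    have key : ∀ (z : MonoidAlgebra ℤ Γ) (s : Finset Γ), z.coeff.support ⊆ s →
        ∑ g ∈ z.coeff.support, (z.coeff g : ℂ) • (del g i : E Γ ι) = ∑ g ∈ s, (z.coeff g : ℂ) • del g i := by
      intro z s hs
      refine Finset.sum_subset hs fun g _ hg => ?_
      rw [Finsupp.notMem_support_iff.1 hg, Int.cast_zero, zero_smul]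
    set s := x.coeff.support ∪ y.coeff.support ∪ (x + y).coeff.support with hs
    rw [key x s (by rw [hs]; intro a ha; simp [Finsupp.mem_support_iff.1 ha]),
      key y s (by rw [hs]; intro a ha; simp [Finsupp.mem_support_iff.1 ha]),
      key (x + y) s (by rw [hs]; exact Finset.subset_union_right), ← Finset.sum_add_distrib]
    refine Finset.sum_congr rfl fun g _ => ?_
    rw [MonoidAlgebra.coeff_add, Finsupp.add_apply, Int.cast_add, add_smul]

lemma embR_single (i : ι) (g : Γ) (c : ℤ) : embR i (MonoidAlgebra.single g c) = (c : ℂ) • (del g i : E Γ ι) := by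
  classical
  show ∑ h ∈ (MonoidAlgebra.single g c).coeff.support, ((MonoidAlgebra.single g c).coeff h : ℂ) • del h i = _
  by_cases hc : c = 0
  · subst hc
    simp
  · rw [MonoidAlgebra.coeff_single, Finsupp.support_single _ hc, Finset.sum_singleton, Finsupp.single_eq_same]

/-- the element of `ℓ²` of a row -/
noncomputable def embv : (ι → MonoidAlgebra ℤ Γ) →+ E Γ ι := ∑ i, (embR i).comp (Pi.evalAddMonoidHom _ i)

lemma embv_eq (x : ι → MonoidAlgebra ℤ Γ) : embv x = ∑ i, embR i (x i) := by
  simp [embv]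

lemma embR_apply (i : ι) (x : MonoidAlgebra ℤ Γ) (g : Γ) : (embR i x : E Γ ι) (g, i) = (x.coeff g : ℂ) := by
  classical
  show (∑ h ∈ x.coeff.support, (x.coeff h : ℂ) • (del h i : E Γ ι)) (g, i) = _
  rw [lp.coeFn_sum, Finset.sum_apply]
  simp only [lp.coeFn_smul, Pi.smul_apply, smul_eq_mul]
  by_cases hg : x.coeff g = 0
  · rw [hg, Int.cast_zero, Finset.sum_eq_zero]
    intro h hh
    have hne : (g, i) ≠ (h, i) := fun h1 => by
      have h2 : g = h := congrArg Prod.fst h1
      rw [h2] at hg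
      exact Finsupp.mem_support_iff.1 hh hg
    rw [del_apply_ne hne, mul_zero]
  · rw [Finset.sum_eq_single_of_mem g (Finsupp.mem_support_iff.2 hg), del_apply_self, mul_one]
    intro h _ hh
    rw [del_apply_ne (fun h1 => hh (congrArg Prod.fst h1).symm), mul_zero]

lemma embR_apply_ne {i j : ι} (hij : j ≠ i) (x : MonoidAlgebra ℤ Γ) (g : Γ) : (embR i x : E Γ ι) (g, j) = 0 := by
  classical
  show (∑ h ∈ x.coeff.support, (x.coeff h : ℂ) • (del h i : E Γ ι)) (g, j) = _
  rw [lp.coeFn_sum, Finset.sum_apply]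
  refine Finset.sum_eq_zero fun h _ => ?_
  rw [lp.coeFn_smul, Pi.smul_apply, del_apply_ne (fun h1 => hij (congrArg Prod.snd h1)), smul_zero]

lemma embv_apply (x : ι → MonoidAlgebra ℤ Γ) (g : Γ) (i : ι) : (embv x : E Γ ι) (g, i) = ((x i).coeff g : ℂ) := by
  classical
  rw [embv_eq, lp.coeFn_sum, Finset.sum_apply, Finset.sum_eq_single_of_mem i (Finset.mem_univ i), embR_apply]
  intro j _ hj
  exact embR_apply_ne (Ne.symm hj) _ _

lemma fs_embv (x : ι → MonoidAlgebra ℤ Γ) : FS (embv x : E Γ ι) := by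
  rw [embv_eq]
  refine FS.sum fun i _ => ?_
  exact FS.sum fun g _ => (fs_del _ _).smul _

lemma embv_injective : Function.Injective (embv : (ι → MonoidAlgebra ℤ Γ) →+ E Γ ι) := by
  intro x y h
  funext i
  refine MonoidAlgebra.ext (Finsupp.ext fun g => ?_)
  have h1 := congrArg (fun f : E Γ ι => f (g, i)) h
  simp only [embv_apply] at h1
  exact_mod_cast h1

open Classical in
lemma embv_single (i : ι) (x : MonoidAlgebra ℤ Γ) : embv (Pi.single i x) = (embR i x : E Γ ι) := by
  rw [embv_eq, Finset.sum_eq_single_of_mem i (Finset.mem_univ i), Pi.single_eq_same]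
  intro j _ hj
  rw [Pi.single_eq_of_ne hj, map_zero]

open Classical in
lemma del_eq_embv (i : ι) : (del 1 i : E Γ ι) = embv (Pi.single i 1) := by
  rw [embv_single]
  have h1 : (1 : MonoidAlgebra ℤ Γ) = MonoidAlgebra.single 1 1 := rfl
  rw [h1, embR_single, Int.cast_one, one_smul]

/-- left translation -/
lemma lam_embv (g : Γ) (x : ι → MonoidAlgebra ℤ Γ) :
    lam g (embv x : E Γ ι) = embv fun i => MonoidAlgebra.single g 1 * x i := by
  ext p
  obtain ⟨h, i⟩ := p
  rw [lam_apply, embv_apply, embv_apply]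
  rw [MonoidAlgebra.coeff_single_mul_apply, one_mul]

/-- `hat` and rows -/
theorem hat_embv (M : Matrix ι κ (MonoidAlgebra ℤ Γ)) (x : ι → MonoidAlgebra ℤ Γ) :
    hat M (embv x) = embv (x ᵥ* M) := by
  classical
  let F : (ι → MonoidAlgebra ℤ Γ) →+ E Γ κ := ((hat M : E Γ ι →ₗ[ℂ] E Γ κ).toAddMonoidHom).comp embv
  let G : (ι → MonoidAlgebra ℤ Γ) →+ E Γ κ :=
    embv.comp ⟨⟨fun x => x ᵥ* M, Matrix.zero_vecMul M⟩, fun x y => Matrix.add_vecMul M x y⟩
  suffices h : F = G from DFunLike.congr_fun h x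
  refine AddMonoidHom.functions_ext' _ _ _ fun i => MonoidAlgebra.addMonoidHom_ext fun g c => ?_
  show hat M (embv (Pi.single i (MonoidAlgebra.single g c))) =
    embv ((Pi.single i (MonoidAlgebra.single g c) : ι → MonoidAlgebra ℤ Γ) ᵥ* M)
  rw [embv_single, embR_single, map_smul, hat_del, Matrix.single_vecMul, embv_eq, Finset.smul_sum]
  refine Finset.sum_congr rfl fun l _ => ?_
  have h1 : ∀ y : MonoidAlgebra ℤ Γ, embR l (MonoidAlgebra.single g c * y) =
      (c : ℂ) • ∑ x ∈ y.coeff.support, (y.coeff x : ℂ) • (del (g * x) l : E Γ κ) := by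
    intro y
    have h2 : y = ∑ x ∈ y.coeff.support, MonoidAlgebra.single x (y.coeff x) := by
      refine MonoidAlgebra.ext ?_
      rw [MonoidAlgebra.coeff_sum]
      simp only [MonoidAlgebra.coeff_single]
      exact (Finsupp.sum_single y.coeff).symm
    conv_lhs => rw [h2]
    rw [Finset.mul_sum, map_sum, Finset.smul_sum]
    refine Finset.sum_congr rfl fun x _ => ?_
    rw [MonoidAlgebra.single_mul_single, embR_single, Int.cast_mul, mul_smul]
  exact (h1 (M i l)).symm

lemma hat_mul (M : Matrix ι κ (MonoidAlgebra ℤ Γ)) (N : Matrix κ μ (MonoidAlgebra ℤ Γ)) :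
    hat (M * N) = (hat N).comp (hat M) := by
  classical
  refine equi_ext (mat_hat _).equi ((mat_hat _).comp (mat_hat _)).equi fun j => ?_
  rw [ContinuousLinearMap.comp_apply, del_eq_embv, hat_embv, hat_embv, hat_embv, Matrix.vecMul_vecMul]

lemma hat_zero : hat (0 : Matrix ι κ (MonoidAlgebra ℤ Γ)) = 0 := by
  classical
  refine equi_ext (mat_hat _).equi equi_zero fun j => ?_
  rw [del_eq_embv, hat_embv, Matrix.vecMul_zero, map_zero]
  simp

lemma hat_one [DecidableEq ι] : hat (1 : Matrix ι ι (MonoidAlgebra ℤ Γ)) = 1 := by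
  classical
  refine equi_ext (mat_hat _).equi equi_one fun j => ?_
  rw [del_eq_embv, hat_embv, Matrix.vecMul_one]
  rfl

lemma hat_add (M N : Matrix ι κ (MonoidAlgebra ℤ Γ)) : hat (M + N) = hat M + hat N := by
  classical
  refine equi_ext (mat_hat _).equi ((mat_hat _).add (mat_hat _)).equi fun j => ?_
  rw [add_apply, del_eq_embv, hat_embv, hat_embv, hat_embv, Matrix.vecMul_add, map_add]

lemma hat_neg (M : Matrix ι κ (MonoidAlgebra ℤ Γ)) : hat (-M) = -hat M := by
  rw [eq_neg_iff_add_eq_zero, ← hat_add, neg_add_cancel, hat_zero]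

/-! ### induction -/

section ind
variable {H : Type*} [Group H] (j : H →* Γ) (hj : Function.Injective j)

/-- the induced matrix -/
noncomputable def indm (M : Matrix ι κ (MonoidAlgebra ℤ H)) : Matrix ι κ (MonoidAlgebra ℤ Γ) :=
  M.map (MonoidAlgebra.mapDomainRingHom ℤ j)

lemma indm_mul (M : Matrix ι κ (MonoidAlgebra ℤ H)) (N : Matrix κ μ (MonoidAlgebra ℤ H)) :
    indm j (M * N) = indm j M * indm j N := by
  unfold indm
  exact Matrix.map_mul

include hj in
lemma indRel_hat (M : Matrix ι κ (MonoidAlgebra ℤ H)) : IndRel j hj (hat M) (hat (indm j M)) := by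
  classical
  have h : hat (indm j M) = ∑ i, ∑ l, ∑ x ∈ (M i l).coeff.support, ((M i l).coeff x : ℂ) •
      (rt (j x⁻¹)).comp (col i l) := by
    unfold hat
    refine Finset.sum_congr rfl fun i _ => Finset.sum_congr rfl fun l _ => ?_
    have h1 : (indm j M i l).coeff = (M i l).coeff.mapDomain j := by
      simp [indm]
    rw [h1]
    have h2 : ((M i l).coeff.mapDomain j).support = (M i l).coeff.support.image j :=
      Finsupp.mapDomain_support_of_injective hj _
    rw [h2, Finset.sum_image fun a _ b _ hab => hj hab]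
    refine Finset.sum_congr rfl fun x _ => ?_
    rw [Finsupp.mapDomain_apply hj, map_inv]
  rw [h]
  unfold hat
  exact IndRel.sum fun i _ => IndRel.sum fun l _ => IndRel.sum fun x _ =>
    ((IndRel.rt _).comp (IndRel.col _ _)).smul _

end ind

/-! ### base change -/

/-- a finitely supported function is a combination of integral ones, with coefficients which are linearly independent
over `ℤ` -/
theorem exists_decomp {f : E Γ ι} (hf : FS f) : ∃ (n : ℕ) (b : Fin n → ℂ) (x : Fin n → ι → MonoidAlgebra ℤ Γ),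
    LinearIndependent ℤ b ∧ f = ∑ s, b s • embv (x s) := by
  classical
  set P : Submodule ℤ ℂ := Submodule.span ℤ (f '' {p | f p ≠ 0}) with hP
  have hfin : Module.Finite ℤ P := Module.Finite.span_of_finite ℤ (hf.image _)
  have hmem : ∀ p, f p ∈ P := by
    intro p
    by_cases hp : f p = 0
    · rw [hp]; exact P.zero_mem
    · exact Submodule.subset_span ⟨p, hp, rfl⟩
  let B := Module.finBasis ℤ P
  have hfs : ∀ s i, {g : Γ | B.repr ⟨f (g, i), hmem _⟩ s ≠ 0}.Finite := by
    intro s i
    refine (hf.preimage (f := fun g : Γ => (g, i)) (col_inj i).injOn).subset fun g hg h0 => hg ?_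
    have h0' : f (g, i) = 0 := h0
    have h1 : (⟨f (g, i), hmem _⟩ : P) = 0 := Subtype.ext h0'
    rw [h1, map_zero]
    rfl
  refine ⟨_, fun s => (B s : ℂ), fun s i => ⟨Finsupp.ofSupportFinite (fun g => B.repr ⟨f (g, i), hmem _⟩ s) (hfs s i)⟩,
    ?_, ?_⟩
  · exact B.linearIndependent.map' P.subtype (Submodule.ker_subtype P)
  · ext p
    obtain ⟨g, i⟩ := p
    rw [lp.coeFn_sum, Finset.sum_apply]
    have h1 := B.sum_repr ⟨f (g, i), hmem _⟩
    have h2 : f (g, i) = ∑ s, ((B.repr ⟨f (g, i), hmem _⟩ s • B s : P) : ℂ) := by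
      rw [← AddSubmonoidClass.coe_finsetSum, h1]
    refine h2.trans (Finset.sum_congr rfl fun s _ => ?_)
    rw [lp.coeFn_smul, Pi.smul_apply, embv_apply, smul_eq_mul, Submodule.coe_smul, zsmul_eq_mul, mul_comm]
    rfl

end Singer
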