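import Mathlib

/-!
# Singer: the Hilbert space `ℓ²(Γ × ι)` and operators on it

`L2 X = ℓ²(X)`; `E Γ ι = ℓ²(Γ × ι)`; `pull p` = composition with an injective map, `push p` = extension by zero,
`mul m` = multiplication by a bounded function, `lam g` = left translation, `rt a` = right translation,
`cut S` = multiplication by the indicator function of `S`, `col j k` = matrix unit.
-/

set_option autoImplicit false

open scoped ComplexConjugate InnerProductSpace
open Filter Topology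

set_option linter.unusedSectionVars false
set_option linter.unusedVariables false

namespace Singer

/-- `ℓ²(X)` -/
noncomputable abbrev L2 (X : Type*) := lp (fun _ : X => ℂ) 2

section ops
variable {X Y Z : Type*}

lemma summable_sq (f : L2 X) : Summable fun x => ‖f x‖ ^ 2 := by
  have h := (memℓp_gen_iff (by norm_num : 0 < (2 : ENNReal).toReal)).1 f.2
  simpa using h

lemma memL2 {f : X → ℂ} (h : Summable fun x => ‖f x‖ ^ 2) : Memℓp f 2 := by
  apply memℓp_gen
  simpa using h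

lemma norm_sq_eq (f : L2 X) : ‖f‖ ^ 2 = ∑' x, ‖f x‖ ^ 2 := by
  have h := lp.norm_rpow_eq_tsum (by norm_num : 0 < (2 : ENNReal).toReal) f
  simpa using h

lemma norm_le_of_sq {f : L2 X} {g : L2 Y} {C : ℝ} (hC : 0 ≤ C) (h : ‖f‖ ^ 2 ≤ C ^ 2 * ‖g‖ ^ 2) : ‖f‖ ≤ C * ‖g‖ := by
  rw [← mul_pow] at h
  exact le_of_sq_le_sq h (by positivity) 
where
  le_of_sq_le_sq {a b : ℝ} (h : a ^ 2 ≤ b ^ 2) (hb : 0 ≤ b) : a ≤ b := by
    exact abs_le_of_sq_le_sq' h hb |>.2

/-- composition with an injective map -/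
noncomputable def pull (p : X → Y) (hp : Function.Injective p) : L2 Y →L[ℂ] L2 X :=
  LinearMap.mkContinuous
    { toFun := fun f => ⟨fun x => f (p x), memL2 ((summable_sq f).comp_injective hp)⟩
      map_add' := fun f g => by ext x; simp
      map_smul' := fun c f => by ext x; simp } 1 (by
    intro f
    apply norm_le_of_sq zero_le_one
    rw [norm_sq_eq, norm_sq_eq, one_pow, one_mul]
    exact tsum_comp_le_tsum_of_inj (summable_sq f) (fun _ => by positivity) hp)

@[simp] lemma pull_apply (p : X → Y) (hp : Function.Injective p) (f : L2 Y) (x : X) : pull p hp f x = f (p x) := rfl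

lemma norm_pull_equiv (e : X ≃ Y) (f : L2 Y) : ‖pull e e.injective f‖ = ‖f‖ := by
  have h : ‖pull e e.injective f‖ ^ 2 = ‖f‖ ^ 2 := by
    rw [norm_sq_eq, norm_sq_eq]
    exact e.tsum_eq fun y => ‖f y‖ ^ 2
  exact (sq_eq_sq₀ (norm_nonneg _) (norm_nonneg _)).1 h

open Classical in
/-- extension by zero -/
noncomputable def extFun (p : X → Y) (f : X → ℂ) (y : Y) : ℂ := if h : ∃ x, p x = y then f h.choose else 0

lemma extFun_apply {p : X → Y} (hp : Function.Injective p) (f : X → ℂ) (x : X) : extFun p f (p x) = f x := by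
  unfold extFun
  have h : ∃ x', p x' = p x := ⟨x, rfl⟩
  rw [dif_pos h]
  congr 1
  exact hp h.choose_spec

lemma extFun_of_notMem {p : X → Y} (f : X → ℂ) {y : Y} (h : y ∉ Set.range p) : extFun p f y = 0 := by
  unfold extFun
  rw [dif_neg]
  exact fun ⟨x, hx⟩ => h ⟨x, hx⟩

lemma hasSum_extFun {p : X → Y} (hp : Function.Injective p) (f : L2 X) :
    HasSum (fun y => ‖extFun p f y‖ ^ 2) (∑' x, ‖f x‖ ^ 2) := by
  rw [← hp.hasSum_iff]
  · have : ((fun y => ‖extFun p f y‖ ^ 2) ∘ p) = fun x => ‖f x‖ ^ 2 := by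
      funext x; simp [extFun_apply hp]
    rw [this]
    exact (summable_sq f).hasSum
  · intro y hy
    rw [extFun_of_notMem _ hy]; simp

/-- extension by zero along an injective map -/
noncomputable def push (p : X → Y) (hp : Function.Injective p) : L2 X →L[ℂ] L2 Y :=
  LinearMap.mkContinuous
    { toFun := fun f => ⟨fun y => extFun p f y, memL2 (hasSum_extFun hp f).summable⟩
      map_add' := fun f g => by
        ext y
        by_cases h : y ∈ Set.range p
        · obtain ⟨x, rfl⟩ := h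
          simp [extFun_apply hp]
        · simp [extFun_of_notMem _ h]
      map_smul' := fun c f => by
        ext y
        by_cases h : y ∈ Set.range p
        · obtain ⟨x, rfl⟩ := h
          simp [extFun_apply hp]
        · simp [extFun_of_notMem _ h] } 1 (by
    intro f
    apply norm_le_of_sq zero_le_one
    rw [norm_sq_eq, norm_sq_eq, one_pow, one_mul]
    exact ((hasSum_extFun hp f).tsum_eq).le)

@[simp] lemma push_apply (p : X → Y) (hp : Function.Injective p) (f : L2 X) (x : X) : push p hp f (p x) = f x :=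
  extFun_apply hp f x

lemma push_apply_of_notMem (p : X → Y) (hp : Function.Injective p) (f : L2 X) {y : Y} (h : y ∉ Set.range p) :
    push p hp f y = 0 := extFun_of_notMem f h

lemma norm_push (p : X → Y) (hp : Function.Injective p) (f : L2 X) : ‖push p hp f‖ = ‖f‖ := by
  have h : ‖push p hp f‖ ^ 2 = ‖f‖ ^ 2 := by
    rw [norm_sq_eq, norm_sq_eq]
    exact (hasSum_extFun hp f).tsum_eq
  exact (sq_eq_sq₀ (norm_nonneg _) (norm_nonneg _)).1 h

lemma pull_push (p : X → Y) (hp : Function.Injective p) (f : L2 X) : pull p hp (push p hp f) = f := by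
  ext x; simp

/-- multiplication by a function bounded by one -/
noncomputable def mul (m : X → ℂ) (hm : ∀ x, ‖m x‖ ≤ 1) : L2 X →L[ℂ] L2 X :=
  have key : ∀ f : L2 X, ∀ x, ‖m x * f x‖ ^ 2 ≤ ‖f x‖ ^ 2 := fun f x => by
    rw [norm_mul, mul_pow]
    calc ‖m x‖ ^ 2 * ‖f x‖ ^ 2 ≤ 1 * ‖f x‖ ^ 2 :=
          mul_le_mul_of_nonneg_right (pow_le_one₀ (norm_nonneg _) (hm x)) (by positivity)
      _ = _ := one_mul _
  LinearMap.mkContinuous
    { toFun := fun f => ⟨fun x => m x * f x,
        memL2 (Summable.of_nonneg_of_le (fun _ => by positivity) (key f) (summable_sq f))⟩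
      map_add' := fun f g => by ext x; simp [mul_add]
      map_smul' := fun c f => by ext x; simp; ring } 1 (by
    intro f
    apply norm_le_of_sq zero_le_one
    rw [norm_sq_eq, norm_sq_eq, one_pow, one_mul]
    exact Summable.tsum_le_tsum (key f)
      (Summable.of_nonneg_of_le (fun _ => by positivity) (key f) (summable_sq f)) (summable_sq f))

@[simp] lemma mul_apply (m : X → ℂ) (hm : ∀ x, ‖m x‖ ≤ 1) (f : L2 X) (x : X) : mul m hm f x = m x * f x := rfl

lemma inner_eq (f g : L2 X) : ⟪f, g⟫_ℂ = ∑' x, conj (f x) * g x := by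
  rw [lp.inner_eq_tsum]
  congr 1
  funext x
  simp [mul_comm]

lemma summable_inner' (f g : L2 X) : Summable fun x => conj (f x) * g x := by
  have h := lp.summable_inner (𝕜 := ℂ) f g
  refine h.congr fun x => ?_
  simp [mul_comm]

end ops

section grp
variable {Γ : Type*} [Group Γ] {ι κ μ : Type*}

/-- `ℓ²(Γ × ι)` -/
noncomputable abbrev E (Γ ι : Type*) := L2 (Γ × ι)

lemma left_inj (g : Γ) : Function.Injective fun x : Γ × ι => (g⁻¹ * x.1, x.2) := by
  rintro ⟨a, i⟩ ⟨b, j⟩ h
  simpa using h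

lemma right_inj (g : Γ) : Function.Injective fun x : Γ × ι => (x.1 * g, x.2) := by
  rintro ⟨a, i⟩ ⟨b, j⟩ h
  simpa using h

/-- left translation -/
noncomputable def lam (g : Γ) : E Γ ι →L[ℂ] E Γ ι := pull _ (left_inj g)

/-- right translation -/
noncomputable def rt (a : Γ) : E Γ ι →L[ℂ] E Γ ι := pull _ (right_inj a)

@[simp] lemma lam_apply (g : Γ) (f : E Γ ι) (x : Γ × ι) : lam g f x = f (g⁻¹ * x.1, x.2) := rfl

@[simp] lemma rt_apply (a : Γ) (f : E Γ ι) (x : Γ × ι) : rt a f x = f (x.1 * a, x.2) := rfl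

@[simp] lemma lam_one (f : E Γ ι) : lam 1 f = f := by ext x; simp

lemma lam_lam (g h : Γ) (f : E Γ ι) : lam g (lam h f) = lam (g * h) f := by
  ext x; simp [mul_assoc]

@[simp] lemma lam_inv_lam (g : Γ) (f : E Γ ι) : lam g⁻¹ (lam g f) = f := by
  rw [lam_lam, inv_mul_cancel, lam_one]

@[simp] lemma lam_lam_inv (g : Γ) (f : E Γ ι) : lam g (lam g⁻¹ f) = f := by
  rw [lam_lam, mul_inv_cancel, lam_one]

lemma norm_lam (g : Γ) (f : E Γ ι) : ‖lam g f‖ = ‖f‖ :=
  norm_pull_equiv (((Equiv.mulLeft g⁻¹).prodCongr (Equiv.refl ι) : Γ × ι ≃ Γ × ι)) f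

lemma rt_rt (a b : Γ) (f : E Γ ι) : rt a (rt b f) = rt (a * b) f := by
  ext x; simp [mul_assoc]

@[simp] lemma rt_one (f : E Γ ι) : rt 1 f = f := by ext x; simp

lemma norm_rt (a : Γ) (f : E Γ ι) : ‖rt a f‖ = ‖f‖ :=
  norm_pull_equiv (((Equiv.mulRight a).prodCongr (Equiv.refl ι) : Γ × ι ≃ Γ × ι)) f

lemma inner_lam_left (g : Γ) (f h : E Γ ι) : ⟪lam g f, h⟫_ℂ = ⟪f, lam g⁻¹ h⟫_ℂ := by
  rw [inner_eq, inner_eq]
  rw [← ((Equiv.mulLeft g).prodCongr (Equiv.refl ι) : Γ × ι ≃ Γ × ι).tsum_eq]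
  congr 1
  funext x
  simp [Prod.map]

lemma inner_lam_lam (g : Γ) (f h : E Γ ι) : ⟪lam g f, lam g h⟫_ℂ = ⟪f, h⟫_ℂ := by
  rw [inner_lam_left, lam_inv_lam]

lemma inner_rt_left (a : Γ) (f h : E Γ ι) : ⟪rt a f, h⟫_ℂ = ⟪f, rt a⁻¹ h⟫_ℂ := by
  rw [inner_eq, inner_eq]
  rw [← ((Equiv.mulRight a⁻¹).prodCongr (Equiv.refl ι) : Γ × ι ≃ Γ × ι).tsum_eq]
  congr 1
  funext x
  simp [Prod.map]

open Classical in
/-- multiplication by the indicator function of `S` -/
noncomputable def cut (S : Set Γ) : E Γ ι →L[ℂ] E Γ ι :=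
  mul (fun x => if x.1 ∈ S then 1 else 0) (fun x => by split_ifs <;> simp)

open Classical in
lemma cut_apply (S : Set Γ) (f : E Γ ι) (x : Γ × ι) : cut S f x = if x.1 ∈ S then f x else 0 := by
  unfold cut
  rw [mul_apply]
  split_ifs <;> simp

lemma cut_apply_mem {S : Set Γ} {x : Γ × ι} (h : x.1 ∈ S) (f : E Γ ι) : cut S f x = f x := by
  rw [cut_apply, if_pos h]

lemma cut_apply_notMem {S : Set Γ} {x : Γ × ι} (h : x.1 ∉ S) (f : E Γ ι) : cut S f x = 0 := by
  rw [cut_apply, if_neg h]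

lemma inner_cut_left (S : Set Γ) (f h : E Γ ι) : ⟪cut S f, h⟫_ℂ = ⟪f, cut S h⟫_ℂ := by
  rw [inner_eq, inner_eq]
  congr 1
  funext x
  by_cases hx : x.1 ∈ S
  · rw [cut_apply_mem hx, cut_apply_mem hx]
  · rw [cut_apply_notMem hx, cut_apply_notMem hx]; simp

lemma lam_cut (g : Γ) (S : Set Γ) (f : E Γ ι) : lam g (cut S f) = cut {x | g⁻¹ * x ∈ S} (lam g f) := by
  ext x
  by_cases hx : g⁻¹ * x.1 ∈ S
  · rw [cut_apply_mem (by exact hx)]
    simp only [lam_apply]
    rw [cut_apply_mem (by exact hx)]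
  · rw [cut_apply_notMem (by exact hx)]
    simp only [lam_apply]
    rw [cut_apply_notMem (by exact hx)]

lemma col_inj (j : ι) : Function.Injective fun g : Γ => (g, j) := fun a b h => by simpa using h

/-- matrix unit: `(col j k f)(g, k) = f(g, j)`, all other components are zero -/
noncomputable def col (j : ι) (k : κ) : E Γ ι →L[ℂ] E Γ κ :=
  (push (fun g : Γ => (g, k)) (col_inj k)).comp (pull (fun g : Γ => (g, j)) (col_inj j))

lemma col_apply_self (j : ι) (k : κ) (f : E Γ ι) (g : Γ) : col j k f (g, k) = f (g, j) := by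
  unfold col
  rw [ContinuousLinearMap.comp_apply]
  exact push_apply (fun g : Γ => (g, k)) (col_inj k) _ g

lemma col_apply_ne (j : ι) {k k' : κ} (h : k' ≠ k) (f : E Γ ι) (g : Γ) : col j k f (g, k') = 0 := by
  unfold col
  rw [ContinuousLinearMap.comp_apply]
  apply push_apply_of_notMem
  rintro ⟨x, hx⟩
  exact h (congrArg Prod.snd hx).symm

open Classical in
lemma col_apply (j : ι) (k : κ) (f : E Γ ι) (x : Γ × κ) : col j k f x = if x.2 = k then f (x.1, j) else 0 := by
  obtain ⟨g, k'⟩ := x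
  by_cases h : k' = k
  · subst h
    rw [if_pos rfl, col_apply_self]
  · rw [if_neg (by exact h), col_apply_ne j h]

/-- equivariant operators -/
def Equi (T : E Γ ι →L[ℂ] E Γ κ) : Prop := ∀ g f, T (lam g f) = lam g (T f)

lemma equi_col (j : ι) (k : κ) : Equi (col j k : E Γ ι →L[ℂ] E Γ κ) := by
  classical
  intro g f
  ext x
  simp [col_apply]

lemma equi_rt (a : Γ) : Equi (rt a : E Γ ι →L[ℂ] E Γ ι) := by
  intro g f
  ext x
  simp [mul_assoc]

lemma Equi.add {T S : E Γ ι →L[ℂ] E Γ κ} (hT : Equi T) (hS : Equi S) : Equi (T + S) := fun g f => by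
  simp [hT g f, hS g f]

lemma Equi.sub {T S : E Γ ι →L[ℂ] E Γ κ} (hT : Equi T) (hS : Equi S) : Equi (T - S) := fun g f => by
  simp [hT g f, hS g f]

lemma Equi.smul {T : E Γ ι →L[ℂ] E Γ κ} (c : ℂ) (hT : Equi T) : Equi (c • T) := fun g f => by
  simp [hT g f]

lemma Equi.comp {T : E Γ κ →L[ℂ] E Γ μ} {S : E Γ ι →L[ℂ] E Γ κ} (hT : Equi T) (hS : Equi S) : Equi (T.comp S) :=
  fun g f => by simp [hT g _, hS g f]

lemma equi_one : Equi (1 : E Γ ι →L[ℂ] E Γ ι) := fun g f => rfl

lemma equi_zero : Equi (0 : E Γ ι →L[ℂ] E Γ κ) := fun g f => by simp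

lemma Equi.sum {α : Type*} {s : Finset α} {T : α → E Γ ι →L[ℂ] E Γ κ} (h : ∀ a ∈ s, Equi (T a)) :
    Equi (∑ a ∈ s, T a) := by
  classical
  induction s using Finset.induction_on with
  | empty => simpa using equi_zero
  | insert a s ha ih =>
    rw [Finset.sum_insert ha]
    exact (h a (Finset.mem_insert_self _ _)).add (ih fun b hb => h b (Finset.mem_insert_of_mem hb))

lemma Equi.adjoint {T : E Γ ι →L[ℂ] E Γ κ} (hT : Equi T) : Equi (ContinuousLinearMap.adjoint T) := by
  intro g f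
  refine ext_inner_right ℂ fun h => ?_
  rw [ContinuousLinearMap.adjoint_inner_left, inner_lam_left, inner_lam_left, ← hT,
    ContinuousLinearMap.adjoint_inner_left]

end grp

end Singer
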