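import Pool.Agent.Singer.Rank

/-!
# Singer: local modules

`Loc H V`: the subspace `V` of `ℓ²(Γ × ι)` contains `1_H f` for every `f ∈ V` (modules induced from the subgroup `H`).
Main results: `mem_of_cosets`, `Loc.cut_mem` (multiplication by the indicator function of a union of cosets), `Loc.mono`,
`Loc.rt_mem`, `vdim_asym`, `vdim_symm` (the `∓1`-eigenspaces of `rt a` in an `H`-local module have half the dimension,
when `a` is an involution which commutes with `H` and is not in `H`), `hull` (the smallest `H`-local module).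
-/

set_option autoImplicit false
set_option linter.unusedSectionVars false
set_option linter.unusedVariables false

open scoped ComplexConjugate InnerProductSpace
open Filter Topology

namespace Singer

variable {Γ : Type*} [Group Γ] {ι κ : Type*}

/-- `V` is `H`-local -/
def Loc (H : Subgroup Γ) (V : Submodule ℂ (E Γ ι)) : Prop := ∀ f ∈ V, cut (H : Set Γ) f ∈ V

/-- the left coset of `g` -/
def coset (H : Subgroup Γ) (g : Γ) : Set Γ := {x | g⁻¹ * x ∈ H}

lemma mem_coset {H : Subgroup Γ} {g x : Γ} : x ∈ coset H g ↔ g⁻¹ * x ∈ H := Iff.rfl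

lemma cut_coset (H : Subgroup Γ) (g : Γ) (f : E Γ ι) :
    cut (coset H g) f = lam g (cut (H : Set Γ) (lam g⁻¹ f)) := by
  rw [lam_cut, lam_lam_inv]
  rfl

lemma mem_coset_out {H : Subgroup Γ} {c : Γ ⧸ H} {x : Γ} : x ∈ coset H c.out ↔ (x : Γ ⧸ H) = c := by
  rw [mem_coset, ← QuotientGroup.eq, QuotientGroup.out_eq']
  exact eq_comm

open Classical in
/-- the inner product is the sum of the inner products over the cosets -/
lemma hasSum_inner_cosets (H : Subgroup Γ) (f h : E Γ ι) :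
    HasSum (fun c : Γ ⧸ H => ⟪cut (coset H c.out) f, h⟫_ℂ) ⟪f, h⟫_ℂ := by
  have h1 : HasSum (fun x => conj (f x) * h x) ⟪f, h⟫_ℂ := by
    rw [inner_eq]
    exact (summable_inner' f h).hasSum
  have h2 := h1.tsum_fiberwise fun x : Γ × ι => (x.1 : Γ ⧸ H)
  have h3 : (fun c : Γ ⧸ H => ∑' b : ((fun x : Γ × ι => (x.1 : Γ ⧸ H)) ⁻¹' {c}), conj (f b) * h b) =
      fun c => ⟪cut (coset H c.out) f, h⟫_ℂ := by
    funext c
    rw [inner_eq]
    rw [tsum_subtype ((fun x : Γ × ι => (x.1 : Γ ⧸ H)) ⁻¹' {c}) (fun x => conj (f x) * h x)]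
    congr 1
    funext x
    by_cases hx : (x.1 : Γ ⧸ H) = c
    · rw [Set.indicator_of_mem (by exact hx), cut_apply_mem (mem_coset_out.2 hx)]
    · rw [Set.indicator_of_notMem (by exact hx), cut_apply_notMem (fun h' => hx (mem_coset_out.1 h'))]
      simp
  rw [← h3]
  exact h2

/-- a closed subspace contains `T f` if it contains the images of all pieces of `f` -/
theorem mem_of_cosets (H : Subgroup Γ) (T : E Γ ι →L[ℂ] E Γ κ) {W : Submodule ℂ (E Γ κ)}
    (hc : IsClosed (W : Set (E Γ κ))) {f : E Γ ι} (h : ∀ g, T (cut (coset H g) f) ∈ W) : T f ∈ W := by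
  have h0 : W.topologicalClosure = W := IsClosed.submodule_topologicalClosure_eq hc
  rw [← h0, ← Submodule.orthogonal_orthogonal_eq_closure, Submodule.mem_orthogonal']
  intro u hu
  have h1 := hasSum_inner_cosets H f (ContinuousLinearMap.adjoint T u)
  have h2 : ∀ c : Γ ⧸ H, ⟪cut (coset H c.out) f, ContinuousLinearMap.adjoint T u⟫_ℂ = 0 := by
    intro c
    rw [ContinuousLinearMap.adjoint_inner_right]
    exact (Submodule.mem_orthogonal _ _).1 hu _ (h c.out)
  rw [ContinuousLinearMap.adjoint_inner_right] at h1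
  simp_rw [h2] at h1
  exact h1.unique hasSum_zero

lemma cut_cut (S T : Set Γ) (f : E Γ ι) : cut S (cut T f) = cut (S ∩ T) f := by
  ext x
  by_cases h1 : x.1 ∈ S
  · by_cases h2 : x.1 ∈ T
    · have h3 : x.1 ∈ S ∩ T := ⟨h1, h2⟩
      rw [cut_apply_mem h1, cut_apply_mem h2, cut_apply_mem h3]
    · have h3 : x.1 ∉ S ∩ T := fun h => h2 h.2
      rw [cut_apply_mem h1, cut_apply_notMem h2, cut_apply_notMem h3]
  · have h3 : x.1 ∉ S ∩ T := fun h => h1 h.1
    rw [cut_apply_notMem h1, cut_apply_notMem h3]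

lemma cut_empty (f : E Γ ι) : cut (∅ : Set Γ) f = 0 := by
  ext x
  have h3 : x.1 ∉ (∅ : Set Γ) := Set.notMem_empty _
  rw [cut_apply_notMem h3]
  rfl

lemma cut_self (S : Set Γ) (f : E Γ ι) : cut S (cut S f) = cut S f := by
  rw [cut_cut, Set.inter_self]

lemma cut_add_cut {S T : Set Γ} (h : Disjoint S T) (f : E Γ ι) : cut (S ∪ T) f = cut S f + cut T f := by
  ext x
  rw [lp.coeFn_add, Pi.add_apply]
  by_cases h1 : x.1 ∈ S
  · have h2 : x.1 ∉ T := fun h2 => (Set.disjoint_left.1 h) h1 h2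
    have h3 : x.1 ∈ S ∪ T := Or.inl h1
    rw [cut_apply_mem h3, cut_apply_mem h1, cut_apply_notMem h2, add_zero]
  · by_cases h2 : x.1 ∈ T
    · have h3 : x.1 ∈ S ∪ T := Or.inr h2
      rw [cut_apply_mem h3, cut_apply_notMem h1, cut_apply_mem h2, zero_add]
    · have h3 : x.1 ∉ S ∪ T := fun h => h.elim h1 h2
      rw [cut_apply_notMem h3, cut_apply_notMem h1, cut_apply_notMem h2, zero_add]

/-- right translation of a cut function -/
lemma rt_cut (a : Γ) (S : Set Γ) (f : E Γ ι) : rt a (cut S f) = cut {x | x * a ∈ S} (rt a f) := by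
  ext x
  by_cases hx : x.1 * a ∈ S
  · rw [cut_apply_mem (by exact hx)]
    simp only [rt_apply]
    rw [cut_apply_mem (by exact hx)]
  · rw [cut_apply_notMem (by exact hx)]
    simp only [rt_apply]
    rw [cut_apply_notMem (by exact hx)]

namespace Loc

variable {H K : Subgroup Γ} {V W : Submodule ℂ (E Γ ι)}

lemma coset_mem (hI : Inv V) (hV : Loc H V) {f : E Γ ι} (hf : f ∈ V) (g : Γ) : cut (coset H g) f ∈ V := by
  rw [cut_coset]
  exact hI g _ (hV _ (hI _ _ hf))

/-- multiplication by the indicator function of a union of cosets -/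
theorem cut_mem (hI : Inv V) (hc : IsClosed (V : Set (E Γ ι))) (hV : Loc H V) {S : Set Γ}
    (hS : ∀ s ∈ S, ∀ h ∈ H, s * h ∈ S) {f : E Γ ι} (hf : f ∈ V) : cut S f ∈ V := by
  refine mem_of_cosets H (cut S) hc fun g => ?_
  rw [cut_cut]
  by_cases hg : g ∈ S
  · have h1 : S ∩ coset H g = coset H g := by
      refine Set.inter_eq_right.2 fun x hx => ?_
      have := hS g hg _ hx
      simpa using this
    rw [h1]
    exact hV.coset_mem hI hf g
  · have h1 : S ∩ coset H g = ∅ := by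
      refine Set.eq_empty_iff_forall_notMem.2 fun x hx => hg ?_
      have := hS x hx.1 _ (H.inv_mem hx.2)
      simpa using this
    rw [h1, cut_empty]
    exact V.zero_mem

/-- a local module is local for larger subgroups -/
theorem mono (hI : Inv V) (hc : IsClosed (V : Set (E Γ ι))) (hV : Loc H V) (hHK : H ≤ K) : Loc K V := fun f hf =>
  hV.cut_mem hI hc (fun s hs h hh => K.mul_mem hs (hHK hh)) hf

theorem inf (hV : Loc H V) (hW : Loc H W) : Loc H (V ⊓ W) := fun f hf => ⟨hV f hf.1, hW f hf.2⟩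

theorem sup (hV : Loc H V) (hW : Loc H W) : Loc H (V ⊔ W) := by
  intro f hf
  obtain ⟨v, hv, w, hw, rfl⟩ := Submodule.mem_sup.1 hf
  rw [map_add]
  exact Submodule.add_mem_sup (hV v hv) (hW w hw)

theorem closure (hV : Loc H V) : Loc H V.topologicalClosure := by
  intro f hf
  have h1 : cut (H : Set Γ) f ∈ _root_.closure ((cut (H : Set Γ) : E Γ ι →L[ℂ] E Γ ι) '' (V : Set (E Γ ι))) :=
    image_closure_subset_closure_image (cut (H : Set Γ)).continuous ⟨f, hf, rfl⟩
  refine closure_mono ?_ h1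
  rintro _ ⟨x, hx, rfl⟩
  exact hV x hx

theorem orthogonal (hV : Loc H V) : Loc H Vᗮ := by
  intro f hf
  rw [Submodule.mem_orthogonal] at hf ⊢
  intro u hu
  rw [← inner_cut_left]
  exact hf _ (hV u hu)

theorem map (hV : Loc H V) {T : E Γ ι →L[ℂ] E Γ κ} (hT : ∀ f, T (cut (H : Set Γ) f) = cut (H : Set Γ) (T f)) :
    Loc H (V.map (T : E Γ ι →ₗ[ℂ] E Γ κ)) := by
  rintro _ ⟨f, hf, rfl⟩
  exact ⟨cut (H : Set Γ) f, hV f hf, hT f⟩

theorem comap {V : Submodule ℂ (E Γ κ)} (hV : Loc H V) {T : E Γ ι →L[ℂ] E Γ κ}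
    (hT : ∀ f, T (cut (H : Set Γ) f) = cut (H : Set Γ) (T f)) : Loc H (V.comap (T : E Γ ι →ₗ[ℂ] E Γ κ)) := by
  intro f hf
  show T (cut (H : Set Γ) f) ∈ V
  rw [hT]
  exact hV _ hf

theorem ker {T : E Γ ι →L[ℂ] E Γ κ} (hT : ∀ f, T (cut (H : Set Γ) f) = cut (H : Set Γ) (T f)) :
    Loc H (LinearMap.ker (T : E Γ ι →ₗ[ℂ] E Γ κ)) := by
  intro f hf
  show T (cut (H : Set Γ) f) = 0
  rw [hT, show T f = 0 from hf, map_zero]

theorem top : Loc H (⊤ : Submodule ℂ (E Γ ι)) := fun _ _ => trivial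

theorem bot : Loc H (⊥ : Submodule ℂ (E Γ ι)) := by
  intro f hf
  rw [Submodule.mem_bot] at hf ⊢
  rw [hf, map_zero]

/-- the projection commutes with the cut -/
theorem prj_cut (hV : Loc H V) (f : E Γ ι) : prj V (cut (H : Set Γ) f) = cut (H : Set Γ) (prj V f) := by
  refine prj_unique (hV.closure _ (prj_mem V f)) ?_
  rw [← map_sub]
  exact hV.orthogonal _ (sub_prj_mem V f)

end Loc

/-! ### the eigenspaces of an involution -/

/-- `{f | rt a f = -f}` -/
noncomputable def asym (a : Γ) : Submodule ℂ (E Γ ι) := LinearMap.ker ((1 + rt a : E Γ ι →L[ℂ] E Γ ι) : E Γ ι →ₗ[ℂ] E Γ ι)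

/-- `{f | rt a f = f}` -/
noncomputable def symm (a : Γ) : Submodule ℂ (E Γ ι) := LinearMap.ker ((1 - rt a : E Γ ι →L[ℂ] E Γ ι) : E Γ ι →ₗ[ℂ] E Γ ι)

lemma mem_asym {a : Γ} {f : E Γ ι} : f ∈ (asym a : Submodule ℂ (E Γ ι)) ↔ rt a f = -f := by
  show f + rt a f = 0 ↔ _
  rw [add_comm, add_eq_zero_iff_eq_neg]

lemma mem_symm {a : Γ} {f : E Γ ι} : f ∈ (symm a : Submodule ℂ (E Γ ι)) ↔ rt a f = f := by
  show f - rt a f = 0 ↔ _
  rw [sub_eq_zero, eq_comm]

lemma inv_asym (a : Γ) : Inv (asym a : Submodule ℂ (E Γ ι)) := inv_ker (equi_one.add (equi_rt a))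

lemma inv_symm (a : Γ) : Inv (symm a : Submodule ℂ (E Γ ι)) := inv_ker (equi_one.sub (equi_rt a))

lemma isClosed_asym (a : Γ) : IsClosed ((asym a : Submodule ℂ (E Γ ι)) : Set (E Γ ι)) :=
  ContinuousLinearMap.isClosed_ker _

lemma isClosed_symm (a : Γ) : IsClosed ((symm a : Submodule ℂ (E Γ ι)) : Set (E Γ ι)) :=
  ContinuousLinearMap.isClosed_ker _

lemma rt_invol {a : Γ} (ha : a * a = 1) (f : E Γ ι) : rt a (rt a f) = f := by
  rw [rt_rt, ha, rt_one]

lemma inner_rt_invol {a : Γ} (ha : a * a = 1) (f h : E Γ ι) : ⟪rt a f, h⟫_ℂ = ⟪f, rt a h⟫_ℂ := by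
  rw [inner_rt_left, inv_eq_of_mul_eq_one_left ha]

/-- right translation by an element that commutes with `H` -/
lemma rt_cut_subgroup {H : Subgroup Γ} {a : Γ} (ha : a * a = 1) (hcom : ∀ h ∈ H, a * h = h * a) (f : E Γ ι) :
    rt a (cut (H : Set Γ) f) = lam a (cut (H : Set Γ) f) := by
  have hai : a⁻¹ = a := inv_eq_of_mul_eq_one_left ha
  ext ⟨x, j⟩
  simp only [rt_apply, lam_apply]
  rw [hai]
  by_cases hx : x * a ∈ H
  · have h1 : a * x = x * a := by
      have h2 := hcom _ hx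
      calc a * x = a * (x * a) * a := by rw [mul_assoc, mul_assoc, ha, mul_one]
        _ = (x * a) * a * a := by rw [h2]
        _ = x * a := by rw [mul_assoc (x * a), ha, mul_one]
    rw [h1]
  · have h1 : a * x ∉ H := by
      intro h
      apply hx
      have h2 := hcom _ h
      have h3 : x * a = a * x := by
        calc x * a = a * (a * x) * a := by rw [← mul_assoc, ha, one_mul]
          _ = (a * x) * a * a := by rw [h2]
          _ = a * x := by rw [mul_assoc (a * x), ha, mul_one]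
      rw [h3]
      exact h
    rw [cut_apply_notMem (by exact hx), cut_apply_notMem (by exact h1)]

namespace Loc

variable {H K : Subgroup Γ} {V W : Submodule ℂ (E Γ ι)}

/-- a local module is invariant under right translation by an involution which commutes with the subgroup -/
theorem rt_mem (hI : Inv V) (hc : IsClosed (V : Set (E Γ ι))) (hV : Loc H V) {a : Γ} (ha : a * a = 1)
    (hcom : ∀ h ∈ H, a * h = h * a) {f : E Γ ι} (hf : f ∈ V) : rt a f ∈ V := by
  refine mem_of_cosets H (rt a) hc fun g => ?_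
  rw [cut_coset, equi_rt, rt_cut_subgroup ha hcom]
  exact hI _ _ (hI _ _ (hV _ (hI _ _ hf)))

lemma cut_rt {a : Γ} (ha : a ∈ K) (f : E Γ ι) : cut (K : Set Γ) (rt a f) = rt a (cut (K : Set Γ) f) := by
  rw [rt_cut]
  congr 2
  ext x
  exact (K.mul_mem_cancel_right ha).symm

/-- the eigenspaces of `rt a` are local for subgroups which contain `a` -/
theorem asym {a : Γ} (ha : a ∈ K) : Loc K (Singer.asym a : Submodule ℂ (E Γ ι)) := by
  intro f hf
  rw [mem_asym] at hf ⊢
  rw [← cut_rt ha, hf, map_neg]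

theorem symm {a : Γ} (ha : a ∈ K) : Loc K (Singer.symm a : Submodule ℂ (E Γ ι)) := by
  intro f hf
  rw [mem_symm] at hf ⊢
  rw [← cut_rt ha, hf]

end Loc

section dim
variable [Fintype ι] {H : Subgroup Γ} {V : Submodule ℂ (E Γ ι)}

lemma cut_del (H : Subgroup Γ) (j : ι) : cut (H : Set Γ) (del (1 : Γ) j) = del 1 j := by
  refine ext_inner_right ℂ fun f => ?_
  rw [inner_cut_left, inner_del_left, inner_del_left, cut_apply_mem (by exact H.one_mem)]

/-- the projection of a basis vector is supported on the subgroup -/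
lemma prj_del_apply (hV : Loc H V) (j i : ι) {a : Γ} (ha : a ∉ H) : (prj V (del (1 : Γ) j)) (a, i) = 0 := by
  rw [← cut_del H j, hV.prj_cut, cut_apply_notMem (by exact ha)]

lemma tr_rt_prj (hV : Loc H V) {a : Γ} (ha : a ∉ H) : tr ((rt a).comp (prj V)) = 0 := by
  unfold tr
  refine Finset.sum_eq_zero fun j _ => ?_
  rw [ContinuousLinearMap.comp_apply, rt_apply]
  simp only [one_mul]
  exact prj_del_apply hV j j ha

lemma prj_asym (hc : IsClosed (V : Set (E Γ ι))) {a : Γ} (ha : a * a = 1) (hr : ∀ f ∈ V, rt a f ∈ V) :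
    prj (V ⊓ asym a) = (1 / 2 : ℂ) • (prj V - (rt a).comp (prj V)) := by
  have hmem : ∀ f, prj V f ∈ V := fun f => by
    have := prj_mem V f
    rwa [IsClosed.submodule_topologicalClosure_eq hc] at this
  ext1 f
  refine prj_unique (Submodule.le_topologicalClosure _ ⟨?_, ?_⟩) ?_
  · exact V.smul_mem _ (V.sub_mem (hmem f) (hr _ (hmem f)))
  · show _ ∈ asym a
    rw [mem_asym]
    simp only [smul_apply, sub_apply, ContinuousLinearMap.comp_apply, map_smul, map_sub, rt_invol ha]
    rw [← smul_neg, neg_sub]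
  · rw [Submodule.mem_orthogonal]
    rintro w ⟨hw1, hw2⟩
    have hw3 : rt a w = -w := mem_asym.1 hw2
    have h1 : ⟪w, f - prj V f⟫_ℂ = 0 := (Submodule.mem_orthogonal _ _).1 (sub_prj_mem V f) w hw1
    rw [inner_sub_right, sub_eq_zero] at h1
    have h2 : ⟪w, rt a (prj V f)⟫_ℂ = -⟪w, prj V f⟫_ℂ := by
      rw [← inner_rt_invol ha, hw3, inner_neg_left]
    simp only [smul_apply, sub_apply, ContinuousLinearMap.comp_apply, inner_sub_right,
      inner_smul_right, h2, h1]
    ring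

lemma prj_symm (hc : IsClosed (V : Set (E Γ ι))) {a : Γ} (ha : a * a = 1) (hr : ∀ f ∈ V, rt a f ∈ V) :
    prj (V ⊓ symm a) = (1 / 2 : ℂ) • (prj V + (rt a).comp (prj V)) := by
  have hmem : ∀ f, prj V f ∈ V := fun f => by
    have := prj_mem V f
    rwa [IsClosed.submodule_topologicalClosure_eq hc] at this
  ext1 f
  refine prj_unique (Submodule.le_topologicalClosure _ ⟨?_, ?_⟩) ?_
  · exact V.smul_mem _ (V.add_mem (hmem f) (hr _ (hmem f)))
  · show _ ∈ symm a
    rw [mem_symm]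
    simp only [smul_apply, add_apply, ContinuousLinearMap.comp_apply, map_smul, map_add, rt_invol ha]
    rw [add_comm]
  · rw [Submodule.mem_orthogonal]
    rintro w ⟨hw1, hw2⟩
    have hw3 : rt a w = w := mem_symm.1 hw2
    have h1 : ⟪w, f - prj V f⟫_ℂ = 0 := (Submodule.mem_orthogonal _ _).1 (sub_prj_mem V f) w hw1
    rw [inner_sub_right, sub_eq_zero] at h1
    have h2 : ⟪w, rt a (prj V f)⟫_ℂ = ⟪w, prj V f⟫_ℂ := by
      rw [← inner_rt_invol ha, hw3]
    simp only [smul_apply, add_apply, ContinuousLinearMap.comp_apply, inner_sub_right, inner_add_right,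
      inner_smul_right, h2, h1]
    ring

/-- the antisymmetric part of a local module has half the dimension -/
theorem vdim_asym (hI : Inv V) (hc : IsClosed (V : Set (E Γ ι))) (hV : Loc H V) {a : Γ} (ha : a * a = 1)
    (hcom : ∀ h ∈ H, a * h = h * a) (haH : a ∉ H) : 2 * vdim (V ⊓ asym a) = vdim V := by
  have h1 := vdim_eq_tr (V ⊓ asym a)
  rw [prj_asym hc ha (fun f hf => hV.rt_mem hI hc ha hcom hf), tr_smul, tr_sub, tr_rt_prj hV haH, ← vdim_eq_tr] at h1
  have h2 : ((2 * vdim (V ⊓ asym a) : ℝ) : ℂ) = (vdim V : ℂ) := by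
    push_cast
    rw [h1]
    ring
  exact_mod_cast h2

/-- the symmetric part of a local module has half the dimension -/
theorem vdim_symm (hI : Inv V) (hc : IsClosed (V : Set (E Γ ι))) (hV : Loc H V) {a : Γ} (ha : a * a = 1)
    (hcom : ∀ h ∈ H, a * h = h * a) (haH : a ∉ H) : 2 * vdim (V ⊓ symm a) = vdim V := by
  have h1 := vdim_eq_tr (V ⊓ symm a)
  rw [prj_symm hc ha (fun f hf => hV.rt_mem hI hc ha hcom hf), tr_smul, tr_add, tr_rt_prj hV haH, ← vdim_eq_tr] at h1
  have h2 : ((2 * vdim (V ⊓ symm a) : ℝ) : ℂ) = (vdim V : ℂ) := by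
    push_cast
    rw [h1]
    ring
  exact_mod_cast h2

end dim

/-! ### the smallest local module -/

/-- the smallest `H`-local module which contains `Y` -/
noncomputable def hull (H : Subgroup Γ) (Y : Set (E Γ ι)) : Submodule ℂ (E Γ ι) :=
  (Submodule.span ℂ {f | ∃ g : Γ, ∃ y ∈ Y, f = lam g (cut (H : Set Γ) y)}).topologicalClosure

lemma isClosed_hull (H : Subgroup Γ) (Y : Set (E Γ ι)) : IsClosed (hull H Y : Set (E Γ ι)) :=
  Submodule.isClosed_topologicalClosure _

lemma inv_hull (H : Subgroup Γ) (Y : Set (E Γ ι)) : Inv (hull H Y) := by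
  refine Inv.closure ?_
  intro g f hf
  induction hf using Submodule.span_induction with
  | mem x hx =>
    obtain ⟨g', y, hy, rfl⟩ := hx
    rw [lam_lam]
    exact Submodule.subset_span ⟨g * g', y, hy, rfl⟩
  | zero => rw [map_zero]; exact Submodule.zero_mem _
  | add x y _ _ hx hy => rw [map_add]; exact Submodule.add_mem _ hx hy
  | smul c x _ hx => rw [map_smul]; exact Submodule.smul_mem _ _ hx

open Classical in
lemma cut_lam_cut (H : Subgroup Γ) (g : Γ) (f : E Γ ι) :
    cut (H : Set Γ) (lam g (cut (H : Set Γ) f)) = if g ∈ H then lam g (cut (H : Set Γ) f) else 0 := by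
  split_ifs with hg
  · rw [lam_cut, cut_cut]
    congr 1
    congr 1
    refine Set.inter_eq_right.2 fun x hx => ?_
    have := H.mul_mem hg hx
    simpa using this
  · rw [lam_cut, cut_cut]
    have : (H : Set Γ) ∩ {x | g⁻¹ * x ∈ (H : Set Γ)} = ∅ := by
      refine Set.eq_empty_iff_forall_notMem.2 fun x hx => hg ?_
      have h1 : g⁻¹ ∈ H := by
        have := H.mul_mem hx.2 (H.inv_mem hx.1)
        simpa using this
      simpa using H.inv_mem h1
    rw [this, cut_empty]

lemma loc_hull (H : Subgroup Γ) (Y : Set (E Γ ι)) : Loc H (hull H Y) := by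
  classical
  refine Loc.closure ?_
  intro f hf
  induction hf using Submodule.span_induction with
  | mem x hx =>
    obtain ⟨g, y, hy, rfl⟩ := hx
    rw [cut_lam_cut]
    split_ifs
    · exact Submodule.subset_span ⟨g, y, hy, rfl⟩
    · exact Submodule.zero_mem _
  | zero => rw [map_zero]; exact Submodule.zero_mem _
  | add x y _ _ hx hy => rw [map_add]; exact Submodule.add_mem _ hx hy
  | smul c x _ hx => rw [map_smul]; exact Submodule.smul_mem _ _ hx

lemma cut_mem_hull (H : Subgroup Γ) {Y : Set (E Γ ι)} {y : E Γ ι} (hy : y ∈ Y) :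
    cut (H : Set Γ) y ∈ hull H Y := by
  refine Submodule.le_topologicalClosure _ (Submodule.subset_span ⟨1, y, hy, ?_⟩)
  rw [lam_one]

lemma subset_hull (H : Subgroup Γ) {Y : Set (E Γ ι)} (hY : ∀ g, ∀ y ∈ Y, lam g y ∈ Y) {y : E Γ ι} (hy : y ∈ Y) :
    y ∈ hull H Y := by
  refine mem_of_cosets H (1 : E Γ ι →L[ℂ] E Γ ι) (isClosed_hull H Y) fun g => ?_
  show cut (coset H g) y ∈ _
  rw [cut_coset]
  exact inv_hull H Y _ _ (cut_mem_hull H (hY _ _ hy))

lemma hull_le {H : Subgroup Γ} {Y : Set (E Γ ι)} {V : Submodule ℂ (E Γ ι)} (hI : Inv V)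
    (hc : IsClosed (V : Set (E Γ ι))) (hV : Loc H V) (h : ∀ y ∈ Y, y ∈ V) : hull H Y ≤ V := by
  refine Submodule.topologicalClosure_minimal _ (Submodule.span_le.2 ?_) hc
  rintro _ ⟨g, y, hy, rfl⟩
  exact hI _ _ (hV _ (h y hy))

end Singer
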