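import Pool.Agent.Singer.Sphere

/-!
# Singer: contraction of edges in flag homology spheres

* `qs_link` : links of graphs with the sphere condition have the sphere condition;
* `qs_contract` : if an edge is in no induced square then the contraction preserves the sphere condition;
* `goodQ_contract` : the contraction of such an edge of a flag homology sphere is a flag homology sphere.
-/

set_option autoImplicit false
set_option linter.unusedSectionVars false
set_option linter.unusedVariables false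

namespace Singer

universe u

section fams
variable {V V' : Type*} [DecidableEq V] [DecidableEq V'] {M : Type*} [AddCommGroup M] {r : V → ℕ}

/-- an extension of the rank along an embedding -/
theorem exists_rank_ext [Fintype V] [Fintype V'] (j : V' ↪ V) {r : V' → ℕ} (hr : Function.Injective r) :
    ∃ r' : V → ℕ, Function.Injective r' ∧ (fun v => r' (j v)) = r := by
  refine ⟨Function.extend j r fun v => Finset.univ.sup r + 1 + (Fintype.equivFin V v : ℕ), ?_, ?_⟩
  · have h1 : ∀ v, r v < Finset.univ.sup r + 1 := fun v => Nat.lt_succ_of_le (Finset.le_sup (Finset.mem_univ v))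
    intro x y h
    by_cases hx : ∃ a, j a = x
    · obtain ⟨a, rfl⟩ := hx
      rw [j.injective.extend_apply] at h
      by_cases hy : ∃ b, j b = y
      · obtain ⟨b, rfl⟩ := hy
        rw [j.injective.extend_apply] at h
        exact congrArg j (hr h)
      · rw [Function.extend_apply' _ _ _ hy] at h
        have := h1 a
        omega
    · rw [Function.extend_apply' _ _ _ hx] at h
      by_cases hy : ∃ b, j b = y
      · obtain ⟨b, rfl⟩ := hy
        rw [j.injective.extend_apply] at h
        have := h1 b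
        omega
      · rw [Function.extend_apply' _ _ _ hy] at h
        have h2 : (Fintype.equivFin V x : ℕ) = (Fintype.equivFin V y : ℕ) := by omega
        exact (Fintype.equivFin V).injective (Fin.ext h2)
  · funext v
    exact j.injective.extend_apply _ _ _

/-- a lower family is acyclic if its shift is acyclic -/
theorem acy_unshift (hr : Function.Injective r) {D : Set (Finset V)} {v : V} (hD : ∀ S ∈ D, ∀ T ⊆ S, T ∈ D)
    (hv : ∀ S ∈ D, v ∉ S) (h : Acy M r ((fun S => insert v S) '' D)) : Acy M r D := by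
  have hmem : ∀ S, S ∈ D ∪ (fun S => insert v S) '' D ↔ S.erase v ∈ D := by
    intro S
    constructor
    · rintro (hS | ⟨T, hT, rfl⟩)
      · exact hD S hS _ (Finset.erase_subset _ _)
      · rw [Finset.erase_insert (hv T hT)]
        exact hT
    · intro hS
      by_cases h1 : v ∈ S
      · exact Or.inr ⟨_, hS, Finset.insert_erase h1⟩
      · rw [Finset.erase_eq_of_notMem h1] at hS
        exact Or.inl hS
  refine acy_low hr (D := D ∪ (fun S => insert v S) '' D) ⟨?_, fun S => Iff.rfl, ?_⟩ ?_ h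
  · intro S _ T hT R _ hRT
    rw [hmem] at hT ⊢
    exact hD _ hT _ (Finset.erase_subset_erase _ hRT)
  · rintro S hS _ ⟨T, hT, rfl⟩ h1
    exact hv S hS (h1 (Finset.mem_insert_self _ _))
  · refine acy_cone hr v fun S hS => ?_
    rw [hmem, hmem, Finset.erase_insert hS, Finset.erase_eq_of_notMem hS]

end fams

section qs
variable {V : Type u} [Fintype V]

/-- cliques of the link, as cliques of the graph -/
def CL {V : Type*} [DecidableEq V] (G : SimpleGraph V) (c : V) (σ : Finset V) : Set (Finset V) :=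
  {S | G.IsClique S ∧ Disjoint S σ ∧ ∀ x ∈ S, G.Adj c x}

theorem lower_CL [DecidableEq V] {G : SimpleGraph V} {c : V} {σ : Finset V} : ∀ S ∈ CL G c σ, ∀ T ⊆ S, T ∈ CL G c σ :=
  fun S hS T hT => ⟨hS.1.subset (Finset.coe_subset.2 hT), hS.2.1.mono_left hT, fun x hx => hS.2.2 x (hT hx)⟩

theorem not_mem_CL [DecidableEq V] {G : SimpleGraph V} {c : V} {σ : Finset V} : ∀ S ∈ CL G c σ, c ∉ S :=
  fun S hS hc => G.loopless.1 _ (hS.2.2 c hc)

/-- transport between the link and the graph -/
theorem acy_CL [DecidableEq V] {M : Type*} [AddCommGroup M] {G : SimpleGraph V} {c : V} {σ : Finset V}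
    {τ : Finset {w // G.Adj c w}} (hτ : ∀ x : {w // G.Adj c w}, x ∈ τ ↔ (x : V) ∈ σ) {r : V → ℕ} :
    Acy M (fun v => r (v : {w // G.Adj c w})) (Clq (lk G c) τ) ↔ Acy M r (CL G c σ) := by
  refine acy_pull (r := r) (Function.Embedding.subtype _ : {w // G.Adj c w} ↪ V) ?_ ?_
  · intro S
    constructor
    · rintro ⟨h1, h2⟩
      refine ⟨?_, ?_, ?_⟩
      · intro x hx y hy hxy
        obtain ⟨x, hx', rfl⟩ := Finset.mem_map.1 (Finset.mem_coe.1 hx)
        obtain ⟨y, hy', rfl⟩ := Finset.mem_map.1 (Finset.mem_coe.1 hy)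
        exact h1 (Finset.mem_coe.2 hx') (Finset.mem_coe.2 hy') fun h => hxy (congrArg _ h)
      · rw [Finset.disjoint_left] at h2 ⊢
        intro x hx hxσ
        obtain ⟨x, hx', rfl⟩ := Finset.mem_map.1 hx
        exact h2 hx' ((hτ x).2 hxσ)
      · intro x hx
        obtain ⟨x, hx', rfl⟩ := Finset.mem_map.1 hx
        exact x.2
    · rintro ⟨h1, h2, _⟩
      constructor
      · intro x hx y hy hxy
        exact h1 (Finset.mem_coe.2 (Finset.mem_map.2 ⟨x, hx, rfl⟩))
          (Finset.mem_coe.2 (Finset.mem_map.2 ⟨y, hy, rfl⟩)) fun h => hxy (Subtype.ext h)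
      · rw [Finset.disjoint_left] at h2 ⊢
        intro x hx hxτ
        exact h2 (Finset.mem_map.2 ⟨x, hx, rfl⟩) ((hτ x).1 hxτ)
  · rintro S ⟨_, _, h⟩ x hx
    exact ⟨⟨x, h x hx⟩, rfl⟩

/-- **links of graphs with the sphere condition** -/
theorem qs_link [DecidableEq V] {n m : ℕ} {G : SimpleGraph V} {c : V} [Fintype {w // G.Adj c w}] (h : QS n G)
    (hc : Nonempty {w // G.Adj c w}) : QS m (lk G c) := by
  rw [qs_iff] at h ⊢
  refine ⟨hc, fun σ hσ hcl r hr => ?_⟩
  obtain ⟨r', hr', hrr⟩ := exists_rank_ext (Function.Embedding.subtype _ : {w // G.Adj c w} ↪ V) hr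
  rw [← hrr]
  have hcσ : c ∉ σ.map (Function.Embedding.subtype _) := fun h1 => by
    obtain ⟨x, _, hx⟩ := Finset.mem_map.1 h1
    exact x.2.ne hx.symm
  have h1 : G.IsClique (σ.map (Function.Embedding.subtype _) : Finset V) := by
    intro x hx y hy hxy
    obtain ⟨x, hx', rfl⟩ := Finset.mem_map.1 (Finset.mem_coe.1 hx)
    obtain ⟨y, hy', rfl⟩ := Finset.mem_map.1 (Finset.mem_coe.1 hy)
    exact hcl (Finset.mem_coe.2 hx') (Finset.mem_coe.2 hy') fun h => hxy (congrArg _ h)
  have h2 : G.IsClique (insert c (σ.map (Function.Embedding.subtype _)) : Finset V) := by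
    refine isClique_insert h1 fun x hx _ => ?_
    obtain ⟨x, hx', rfl⟩ := Finset.mem_map.1 hx
    exact x.2
  have h3 := h.2 (σ.map (Function.Embedding.subtype _)) (by simpa using hσ) h1 r' hr'
  have h4 := h.2 (insert c (σ.map (Function.Embedding.subtype _))) (Finset.insert_nonempty _ _) h2 r' hr'
  refine (acy_CL (r := r') (σ := σ.map (Function.Embedding.subtype _)) ?_).2 ?_
  · intro x
    rw [Finset.mem_map]
    constructor
    · intro hx
      exact ⟨x, hx, rfl⟩
    · rintro ⟨y, hy, hyx⟩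
      have h5 : y = x := Subtype.ext hyx
      exact h5 ▸ hy
  · refine acy_unshift hr' (v := c) lower_CL not_mem_CL ?_
    refine acy_high hr' (D₁ := Clq G (insert c (σ.map (Function.Embedding.subtype _)))) ⟨cvx_of_lower lower_Clq, ?_, ?_⟩
      h3 h4
    · intro S
      constructor
      · rintro ⟨h5, h6⟩
        by_cases h7 : c ∈ S
        · right
          refine ⟨S.erase c, ⟨h5.subset (Finset.coe_subset.2 (Finset.erase_subset _ _)),
            h6.mono_left (Finset.erase_subset _ _), fun x hx => ?_⟩, Finset.insert_erase h7⟩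
          have h8 := Finset.mem_erase.1 hx
          exact h5 (Finset.mem_coe.2 h7) (Finset.mem_coe.2 h8.2) h8.1.symm
        · left
          refine ⟨h5, ?_⟩
          rw [Finset.disjoint_insert_right]
          exact ⟨h7, h6⟩
      · rintro (⟨h5, h6⟩ | ⟨T, ⟨h5, h6, h7⟩, rfl⟩)
        · exact ⟨h5, h6.mono_right (Finset.subset_insert _ _)⟩
        · refine ⟨isClique_insert h5 fun x hx _ => h7 x hx, ?_⟩
          rw [Finset.disjoint_insert_left]
          exact ⟨hcσ, h6⟩
    · rintro S ⟨_, hS⟩ _ ⟨T, _, rfl⟩ h5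
      exact Finset.disjoint_left.1 hS (h5 (Finset.mem_insert_self _ _)) (Finset.mem_insert_self _ _)

/-- a clique of neighbours of `p` or `q` is in the link of `p` or in the link of `q` -/
theorem star_or {V : Type*} {G : SimpleGraph V} {p q : V} {σ : Finset V} (hσ : G.IsClique σ) (hp : p ∉ σ) (hq : q ∉ σ)
    (hB : ∀ x ∈ σ, G.Adj p x ∨ G.Adj q x)
    (hsq : ∀ x y, G.Adj p x → G.Adj x y → G.Adj y q → x = q ∨ y = p ∨ G.Adj q x ∨ G.Adj p y) :
    (∀ x ∈ σ, G.Adj p x) ∨ ∀ x ∈ σ, G.Adj q x := by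
  by_contra h
  rw [not_or] at h
  obtain ⟨h1, h2⟩ := h
  push Not at h1 h2
  obtain ⟨y, hy, hpy⟩ := h1
  obtain ⟨x, hx, hqx⟩ := h2
  have hpx : G.Adj p x := (hB x hx).resolve_right hqx
  have hqy : G.Adj q y := (hB y hy).resolve_left hpy
  have hxy : x ≠ y := fun h => hqx (h ▸ hqy)
  rcases hsq x y hpx (hσ (Finset.mem_coe.2 hx) (Finset.mem_coe.2 hy) hxy) hqy.symm with h | h | h | h
  · exact hq (h ▸ hx)
  · exact hp (h ▸ hy)
  · exact hqx h
  · exact hpy h

/-- the complement of a clique of the link of `p` in `V - {p, q}` -/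
theorem acy_CK_of_star [DecidableEq V] {n : ℕ} {G : SimpleGraph V} {p q : V} {K : Finset V} (h : QS n G)
    (hpq : G.Adj p q) (hK : ∀ v, v ∈ K ↔ v ≠ p ∧ v ≠ q) {σ : Finset V} (hσ : G.IsClique σ) (hσK : σ ⊆ K)
    (hs : ∀ x ∈ σ, G.Adj p x) {r : V → ℕ} (hr : Function.Injective r) : Acy ℤ r (CK G K σ) := by
  classical
  have h0 := qs_iff.1 h
  have hcl : G.IsClique (insert p σ : Finset V) := isClique_insert hσ fun x hx _ => hs x hx
  have h1 := h0.2 (insert p σ) (Finset.insert_nonempty _ _) hcl r hr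
  have h2 : QS n (lk G q) := qs_link h ⟨⟨p, hpq.symm⟩⟩
  have h3 : Acy ℤ r (CL G q (insert p σ)) := by
    refine (acy_CL (r := r) (τ := (insert p σ).subtype (fun w => G.Adj q w)) fun x => Finset.mem_subtype).1 ?_
    refine (qs_iff.1 h2).2 _ ⟨⟨p, hpq.symm⟩, Finset.mem_subtype.2 (Finset.mem_insert_self _ _)⟩ ?_ _
      (hr.comp Subtype.val_injective)
    intro x hx y hy hxy
    exact hcl (Finset.mem_coe.2 (Finset.mem_subtype.1 (Finset.mem_coe.1 hx)))
      (Finset.mem_coe.2 (Finset.mem_subtype.1 (Finset.mem_coe.1 hy))) fun h => hxy (Subtype.ext h)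
  have h4 := acy_shift hr (v := q) (fun S hS => not_mem_CL S hS) h3
  have hqσ : q ∉ σ := fun hq => ((hK q).1 (hσK hq)).2 rfl
  refine acy_low hr (D := Clq G (insert p σ)) ⟨cvx_of_lower lower_Clq, ?_, ?_⟩ h1 h4
  · intro S
    constructor
    · rintro ⟨h5, h6⟩
      have h9 := (Finset.disjoint_insert_right.1 h6)
      by_cases h7 : q ∈ S
      · right
        refine ⟨S.erase q, ⟨h5.subset (Finset.coe_subset.2 (Finset.erase_subset _ _)),
          h6.mono_left (Finset.erase_subset _ _), fun x hx => ?_⟩, Finset.insert_erase h7⟩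
        have h8 := Finset.mem_erase.1 hx
        exact h5 (Finset.mem_coe.2 h7) (Finset.mem_coe.2 h8.2) h8.1.symm
      · left
        refine ⟨h5, fun x hx => (hK x).2 ⟨?_, ?_⟩, h9.2⟩
        · rintro rfl
          exact h9.1 hx
        · rintro rfl
          exact h7 hx
    · rintro (⟨h5, h6, h7⟩ | ⟨T, ⟨h5, h6, h7⟩, rfl⟩)
      · refine ⟨h5, ?_⟩
        rw [Finset.disjoint_insert_right]
        exact ⟨fun hp => ((hK p).1 (h6 hp)).1 rfl, h7⟩
      · refine ⟨isClique_insert h5 fun x hx _ => h7 x hx, ?_⟩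
        rw [Finset.disjoint_insert_left, Finset.mem_insert, not_or]
        exact ⟨⟨hpq.ne', hqσ⟩, h6⟩
  · rintro S ⟨_, hS, _⟩ _ ⟨T, _, rfl⟩ h5
    exact ((hK q).1 (hS (h5 (Finset.mem_insert_self _ _)))).2 rfl

/-- the union of the stars of `p` and `q` -/
theorem acy_stars [DecidableEq V] {G : SimpleGraph V} {p q : V} (hpq : G.Adj p q) {σ : Finset V} (hp : p ∉ σ)
    (hq : q ∉ σ) {r : V → ℕ} (hr : Function.Injective r) :
    Acy ℤ r {S | S ∈ Clq G σ ∧ (G.IsClique (insert p S : Finset V) ∨ G.IsClique (insert q S : Finset V))} := by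
  have hlow : ∀ S ∈ {S | S ∈ Clq G σ ∧ (G.IsClique (insert p S : Finset V) ∨ G.IsClique (insert q S : Finset V))},
      ∀ T ⊆ S, T ∈ {S | S ∈ Clq G σ ∧
        (G.IsClique (insert p S : Finset V) ∨ G.IsClique (insert q S : Finset V))} := by
    rintro S ⟨h4, h5⟩ T hT
    refine ⟨lower_Clq _ h4 _ hT, h5.imp (fun h => ?_) fun h => ?_⟩
    · exact h.subset (Finset.coe_subset.2 (Finset.insert_subset_insert _ hT))
    · exact h.subset (Finset.coe_subset.2 (Finset.insert_subset_insert _ hT))
  refine acy_add hr (D₁ := {S | S ∈ Clq G σ ∧ G.IsClique (insert p S : Finset V)})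
    (D₂ := {S | S ∈ Clq G σ ∧ G.IsClique (insert q S : Finset V) ∧ ¬ G.IsClique (insert p S : Finset V)})
    ⟨cvx_of_lower hlow, ?_, ?_⟩ ?_ ?_
  · intro S
    constructor
    · rintro ⟨h4, h5⟩
      by_cases h6 : G.IsClique (insert p S : Finset V)
      · exact Or.inl ⟨h4, h6⟩
      · exact Or.inr ⟨h4, h5.resolve_left h6, h6⟩
    · rintro (⟨h4, h5⟩ | ⟨h4, h5, h6⟩)
      · exact ⟨h4, Or.inl h5⟩
      · exact ⟨h4, Or.inr h5⟩
  · rintro S ⟨_, hS⟩ T ⟨_, _, hT⟩ hTS
    exact hT (hS.subset (Finset.coe_subset.2 (Finset.insert_subset_insert _ hTS)))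
  · refine acy_cone hr p fun S hS => ?_
    constructor
    · rintro ⟨h4, h5⟩
      refine ⟨⟨h5, ?_⟩, by simpa using h5⟩
      rw [Finset.disjoint_insert_left]
      exact ⟨hp, h4.2⟩
    · rintro ⟨h4, h5⟩
      exact ⟨lower_Clq _ h4 _ (Finset.subset_insert _ _), h4.1⟩
  · refine acy_cone hr q fun S hS => ?_
    constructor
    · rintro ⟨h4, h5, h6⟩
      refine ⟨⟨h5, ?_⟩, by simpa using h5, fun h7 => h6 ?_⟩
      · rw [Finset.disjoint_insert_left]
        exact ⟨hq, h4.2⟩
      · exact h7.subset (Finset.coe_subset.2 (Finset.insert_subset_insert _ (Finset.subset_insert _ _)))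
    · rintro ⟨h4, h5, h6⟩
      refine ⟨lower_Clq _ h4 _ (Finset.subset_insert _ _), h4.1, fun h7 => h6 (isClique_insert h4.1 ?_)⟩
      intro x hx hxp
      rcases Finset.mem_insert.1 hx with rfl | hx
      · exact hpq
      · exact h7 (Finset.mem_coe.2 (Finset.mem_insert_self _ _))
          (Finset.mem_coe.2 (Finset.mem_insert_of_mem hx)) hxp.symm

/-- the cliques of `V - {p, q}` which are not in `B` -/
theorem acy_diff [DecidableEq V] {n : ℕ} {G : SimpleGraph V} {p q : V} {K B : Finset V} (h : QS n G)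
    (hpq : G.Adj p q) (hK : ∀ v, v ∈ K ↔ v ≠ p ∧ v ≠ q) (hB : ∀ v, v ∈ B ↔ v ∈ K ∧ (G.Adj p v ∨ G.Adj q v))
    (hsq : ∀ x y, G.Adj p x → G.Adj x y → G.Adj y q → x = q ∨ y = p ∨ G.Adj q x ∨ G.Adj p y)
    {σ : Finset V} (hne : σ.Nonempty) (hσ : G.IsClique σ) (hσK : σ ⊆ K)
    {r : V → ℕ} (hr : Function.Injective r) : Acy ℤ r (CK G K σ \ CK G B σ) := by
  have h1 := (qs_iff.1 h).2 σ hne hσ r hr
  have hp : p ∉ σ := fun hp => ((hK p).1 (hσK hp)).1 rfl
  have hq : q ∉ σ := fun hq => ((hK q).1 (hσK hq)).2 rfl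
  refine acy_high hr (D := Clq G σ)
    (D₁ := {S | S ∈ Clq G σ ∧ (G.IsClique (insert p S : Finset V) ∨ G.IsClique (insert q S : Finset V))})
    ⟨cvx_of_lower lower_Clq, ?_, ?_⟩ h1 (acy_stars hpq hp hq hr)
  · intro S
    constructor
    · intro hS
      by_cases h2 : G.IsClique (insert p S : Finset V) ∨ G.IsClique (insert q S : Finset V)
      · exact Or.inl ⟨hS, h2⟩
      · right
        rw [not_or] at h2
        have h3 : S ⊆ K := by
          intro x hx
          refine (hK x).2 ⟨?_, ?_⟩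
          · rintro rfl
            exact h2.1 (by rw [Finset.insert_eq_of_mem hx]; exact hS.1)
          · rintro rfl
            exact h2.2 (by rw [Finset.insert_eq_of_mem hx]; exact hS.1)
        refine ⟨⟨hS.1, h3, hS.2⟩, ?_⟩
        rintro ⟨_, h4, _⟩
        rcases star_or hS.1 (fun hp => ((hK p).1 (h3 hp)).1 rfl) (fun hq => ((hK q).1 (h3 hq)).2 rfl)
          (fun x hx => ((hB x).1 (h4 hx)).2) hsq with h5 | h5
        · exact h2.1 (isClique_insert hS.1 fun x hx _ => h5 x hx)
        · exact h2.2 (isClique_insert hS.1 fun x hx _ => h5 x hx)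
    · rintro (hS | hS)
      · exact hS.1
      · exact ⟨hS.1.1, hS.1.2.2⟩
  · rintro S ⟨hS, h2⟩ T ⟨hT, hTB⟩ hTS
    refine hTB ⟨hT.1, fun x hx => (hB x).2 ⟨hT.2.1 hx, ?_⟩, hT.2.2⟩
    have h3 := (hK x).1 (hT.2.1 hx)
    refine h2.imp (fun h => ?_) fun h => ?_
    · exact h (Finset.mem_coe.2 (Finset.mem_insert_self _ _)) (Finset.mem_coe.2 (Finset.mem_insert_of_mem (hTS hx)))
        (Ne.symm h3.1)
    · exact h (Finset.mem_coe.2 (Finset.mem_insert_self _ _)) (Finset.mem_coe.2 (Finset.mem_insert_of_mem (hTS hx)))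
        (Ne.symm h3.2)

/-- **contraction of an edge and the sphere condition** -/
theorem qs_contract [DecidableEq V] {n m : ℕ} {G : SimpleGraph V} {p q : V} {K B : Finset V} (h : QS n G)
    (hpq : G.Adj p q) (hK : ∀ v, v ∈ K ↔ v ≠ p ∧ v ≠ q) (hB : ∀ v, v ∈ B ↔ v ∈ K ∧ (G.Adj p v ∨ G.Adj q v))
    (hsq : ∀ x y, G.Adj p x → G.Adj x y → G.Adj y q → x = q ∨ y = p ∨ G.Adj q x ∨ G.Adj p y) :
    QS m (cap G K B) := by
  rw [qs_iff]
  refine ⟨⟨none⟩, fun σ' hσ' hc r₀ hr₀ => ?_⟩
  obtain ⟨r, hr, hrr⟩ := exists_rank_ext (jK K) hr₀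
  rw [← hrr]
  have hBK : B ⊆ K := fun v hv => ((hB v).1 hv).1
  obtain ⟨σ, hσ⟩ : ∃ σ, σ = Finset.eraseNone (σ'.map (jK K)) := ⟨_, rfl⟩
  rw [cap_isClique_iff, ← hσ] at hc
  have hσK : σ ⊆ K := by
    rw [hσ]
    exact fun x hx => (mem_part.1 hx).1
  have hrs : Function.Injective fun v => r (some v) := hr.comp (Option.some_injective _)
  -- disjointness
  have hdis : ∀ S : Finset (Option {v // v ∈ K}), Disjoint S σ' ↔
      Disjoint (Finset.eraseNone (S.map (jK K))) σ ∧ (none ∈ S → none ∉ σ') := by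
    intro S
    rw [hσ, Finset.disjoint_left, Finset.disjoint_left]
    constructor
    · intro h3
      refine ⟨fun x hx hxσ => ?_, fun h4 => h3 h4⟩
      obtain ⟨hxK, hx⟩ := mem_part.1 hx
      obtain ⟨_, hxσ⟩ := mem_part.1 hxσ
      exact h3 hx hxσ
    · rintro ⟨h3, h4⟩ (_ | x) hx
      · exact h4 hx
      · exact fun hxσ => h3 (mem_part.2 ⟨x.2, hx⟩) (mem_part.2 ⟨x.2, hxσ⟩)
  by_cases h0 : none ∈ σ'
  · -- with the cone point
    have hσB : ∀ x ∈ σ, x ∈ B := hc.2 h0
    have h1 : Acy ℤ (fun v => r (some v)) (CK G K σ) := by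
      rcases star_or hc.1 (fun hp => ((hK p).1 (hσK hp)).1 rfl) (fun hq => ((hK q).1 (hσK hq)).2 rfl)
        (fun x hx => ((hB x).1 (hσB x hx)).2) hsq with h5 | h5
      · exact acy_CK_of_star h hpq hK hc.1 hσK h5 hrs
      · exact acy_CK_of_star h hpq.symm (fun v => (hK v).trans and_comm) hc.1 hσK h5 hrs
    refine (acy_pull (r := r) (jK K) (D := {S | none ∉ S ∧ Finset.eraseNone S ∈ CK G K σ}) ?_ ?_).2 (opt_low.2 h1)
    · intro S
      constructor
      · rintro ⟨h2, h3⟩
        rw [cap_isClique_iff] at h2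
        rw [hdis] at h3
        refine ⟨fun h4 => h3.2 (none_mem_map.1 h4) h0, h2.1, fun x hx => (mem_part.1 hx).1, h3.1⟩
      · rintro ⟨h2, h3, _, h5⟩
        have h6 : none ∉ S := fun h => h2 (none_mem_map.2 h)
        exact ⟨cap_isClique_iff.2 ⟨h3, fun h => absurd h h6⟩, (hdis S).2 ⟨h5, fun h => absurd h h6⟩⟩
    · rintro S ⟨h2, _, h3, _⟩ (_ | x) hx
      · exact absurd hx h2
      · exact ⟨some ⟨x, h3 (Finset.mem_eraseNone.2 hx)⟩, rfl⟩
  · -- without the cone point
    have hne : σ.Nonempty := by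
      obtain ⟨_ | x, hx⟩ := hσ'
      · exact absurd hx h0
      · exact ⟨x, by rw [hσ]; exact mem_part.2 ⟨x.2, hx⟩⟩
    have h1 := acy_diff h hpq hK hB hsq hne hc.1 hσK hrs
    have h2 : Acy ℤ r (opt (CK G K σ) (CK G B σ)) := by
      refine acy_add hr (D₁ := {S | Finset.eraseNone S ∈ CK G B σ})
        (D₂ := {S | none ∉ S ∧ Finset.eraseNone S ∈ CK G K σ \ CK G B σ}) ⟨cvx_of_lower ?_, ?_, ?_⟩ ?_
        (opt_low.2 h1)
      · rintro S ⟨h2, h3⟩ T hT
        have hsub : Finset.eraseNone T ⊆ Finset.eraseNone S := by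
          intro x hx
          rw [Finset.mem_eraseNone] at hx ⊢
          exact hT hx
        refine ⟨fun h4 => ?_, fun h4 => lower_CK _ (h3 (hT h4)) _ hsub⟩
        by_cases h5 : none ∈ S
        · have h6 := h3 h5
          exact lower_CK _ ⟨h6.1, h6.2.1.trans hBK, h6.2.2⟩ _ hsub
        · exact lower_CK _ (h2 h5) _ hsub
      · intro S
        constructor
        · rintro ⟨h2, h3⟩
          by_cases h4 : Finset.eraseNone S ∈ CK G B σ
          · exact Or.inl h4
          · have h5 : none ∉ S := fun h => h4 (h3 h)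
            exact Or.inr ⟨h5, h2 h5, h4⟩
        · rintro (h2 | ⟨h2, h3⟩)
          · have h3 : Finset.eraseNone S ∈ CK G B σ := h2
            exact ⟨fun _ => ⟨h3.1, h3.2.1.trans hBK, h3.2.2⟩, fun _ => h3⟩
          · exact ⟨fun _ => h3.1, fun h => absurd h h2⟩
      · rintro S hS T ⟨_, hT⟩ hTS
        refine hT.2 (lower_CK _ hS _ ?_)
        intro x hx
        rw [Finset.mem_eraseNone] at hx ⊢
        exact hTS hx
      · refine acy_cone hr none fun S hS => ?_
        have h5 : Finset.eraseNone (insert none S) = Finset.eraseNone S := by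
          ext x
          simp
        change Finset.eraseNone S ∈ CK G B σ ↔ Finset.eraseNone (insert none S) ∈ CK G B σ
        rw [h5]
    refine (acy_pull (r := r) (jK K) ?_ ?_).2 h2
    · intro S
      have h4 : Finset.eraseNone (S.map (jK K)) ⊆ K := fun x hx => (mem_part.1 hx).1
      constructor
      · rintro ⟨h3, h5⟩
        rw [cap_isClique_iff] at h3
        have h5 := ((hdis S).1 h5).1
        exact ⟨fun _ => ⟨h3.1, h4, h5⟩, fun h6 => ⟨h3.1, h3.2 (none_mem_map.1 h6), h5⟩⟩
      · rintro ⟨h3, h5⟩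
        by_cases h6 : none ∈ S
        · obtain ⟨h7, h8, h9⟩ := h5 (none_mem_map.2 h6)
          exact ⟨cap_isClique_iff.2 ⟨h7, fun _ => h8⟩, (hdis S).2 ⟨h9, fun _ => h0⟩⟩
        · obtain ⟨h7, h8, h9⟩ := h3 (fun h => h6 (none_mem_map.1 h))
          exact ⟨cap_isClique_iff.2 ⟨h7, fun h => absurd h h6⟩, (hdis S).2 ⟨h9, fun _ => h0⟩⟩
    · rintro S ⟨h3, h5⟩ (_ | x) hx
      · exact ⟨none, rfl⟩
      · have h6 : x ∈ K := by
          by_cases h7 : none ∈ S
          · exact hBK ((h5 h7).2.1 (Finset.mem_eraseNone.2 hx))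
          · exact (h3 h7).2.1 (Finset.mem_eraseNone.2 hx)
        exact ⟨some ⟨x, h6⟩, rfl⟩

/-- in a graph with the sphere condition every vertex has a companion -/
theorem exists_ne_of_qs [DecidableEq V] {n : ℕ} {G : SimpleGraph V} (h : QS n G) (v : V) : ∃ w, w ≠ v := by
  by_contra h1
  push Not at h1
  have h2 := (qs_iff.1 h).2 {v} (Finset.singleton_nonempty v) (by simp) (fun x => (Fintype.equivFin V x : ℕ))
    (fun a b h => (Fintype.equivFin V).injective (Fin.ext h))
  have h3 : Clq G {v} = {(∅ : Finset V)} := by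
    ext S
    constructor
    · rintro ⟨_, h4⟩
      refine Finset.eq_empty_of_forall_notMem fun x hx => ?_
      rw [Finset.disjoint_singleton_right] at h4
      exact h4 (h1 x ▸ hx)
    · intro h4
      have h5 : S = ∅ := h4
      subst h5
      exact ⟨by simp, Finset.disjoint_empty_left _⟩
  rw [h3] at h2
  exact not_acy_empty h2

end qs

/-- **contraction of an edge of a flag homology sphere** -/
theorem goodQ_contract {n : ℕ} {V : Type u} [Fintype V] {G : SimpleGraph V} {p q : V} {K B : Finset V}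
    (hpq : G.Adj p q) (hK : ∀ v, v ∈ K ↔ v ≠ p ∧ v ≠ q) (hB : ∀ v, v ∈ B ↔ v ∈ K ∧ (G.Adj p v ∨ G.Adj q v))
    (hsq : ∀ x y, G.Adj p x → G.Adj x y → G.Adj y q → x = q ∨ y = p ∨ G.Adj q x ∨ G.Adj p y)
    (h : GoodQ (fun n {V} [Fintype V] (G : SimpleGraph V) => QS.{u} n G) n G) :
    GoodQ (fun n {V} [Fintype V] (G : SimpleGraph V) => QS.{u} n G) n (cap G K B) := by
  classical
  induction n generalizing V with
  | zero =>
    have h' : IsEmpty V := h
    exact (h'.false p).elim
  | succ m ih =>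
    have h1 := goodQ_succ_iff.1 h
    have hBK : ∀ v ∈ B, v ∈ K := fun v hv => ((hB v).1 hv).1
    have hqs : QS (m + 1) (cap G K B) := qs_contract h1.1 hpq hK hB hsq
    -- the links of the vertices of `K`
    have hlk : ∀ v (hvK : v ∈ K), GoodQ (fun n {V} [Fintype V] (G : SimpleGraph V) => QS.{u} n G) m
        (lk (cap G K B) (some ⟨v, hvK⟩)) := by
      intro v hvK
      have hvpq := (hK v).1 hvK
      by_cases h2 : G.Adj p v
      · have hvB : v ∈ B := (hB v).2 ⟨hvK, Or.inl h2⟩
        by_cases h3 : G.Adj q v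
        · refine goodQ_iso closed_QS (lkCapIn G (K' := Finset.univ.filter fun w => w.1 ∈ K)
            (B' := Finset.univ.filter fun w => w.1 ∈ B) hvK hvB (by simp) (by simp)) ?_
          refine ih (G := lk G v) (p := ⟨p, h2.symm⟩) (q := ⟨q, h3.symm⟩) hpq ?_ ?_ ?_ (h1.2 v)
          · intro w
            simp only [Finset.mem_filter, Finset.mem_univ, true_and]
            rw [hK w.1]
            simp only [ne_eq, Subtype.ext_iff]
          · intro w
            simp only [Finset.mem_filter, Finset.mem_univ, true_and]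
            exact hB w.1
          · intro x y hx hxy hy
            rcases hsq x.1 y.1 hx hxy hy with h | h | h | h
            · exact Or.inl (Subtype.ext h)
            · exact Or.inr (Or.inl (Subtype.ext h))
            · exact Or.inr (Or.inr (Or.inl h))
            · exact Or.inr (Or.inr (Or.inr h))
        · refine goodQ_iso closed_QS (lkCapOne G hvK hvB h2.symm (fun h => ((hK p).1 h).1 rfl) ?_ ?_).symm (h1.2 v)
          · intro w hw
            by_cases hwp : w = p
            · exact Or.inl hwp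
            · exact Or.inr ((hK w).2 ⟨hwp, fun h => h3 (h ▸ hw.symm)⟩)
          · intro w hwK hw
            constructor
            · intro hwB
              rcases ((hB w).1 hwB).2 with h | h
              · exact h
              · rcases hsq v w h2 hw h.symm with h' | h' | h' | h'
                · exact absurd h' hvpq.2
                · exact absurd h' ((hK w).1 hwK).1
                · exact absurd h' h3
                · exact h'
            · intro h
              exact (hB w).2 ⟨hwK, Or.inl h⟩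
      · by_cases h3 : G.Adj q v
        · have hvB : v ∈ B := (hB v).2 ⟨hvK, Or.inr h3⟩
          refine goodQ_iso closed_QS (lkCapOne G hvK hvB h3.symm (fun h => ((hK q).1 h).2 rfl) ?_ ?_).symm (h1.2 v)
          · intro w hw
            by_cases hwq : w = q
            · exact Or.inl hwq
            · exact Or.inr ((hK w).2 ⟨fun h => h2 (h ▸ hw.symm), hwq⟩)
          · intro w hwK hw
            constructor
            · intro hwB
              rcases ((hB w).1 hwB).2 with h | h
              · rcases hsq w v h hw.symm h3.symm with h' | h' | h' | h'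
                · exact absurd h' ((hK w).1 hwK).2
                · exact absurd h' hvpq.1
                · exact h'
                · exact absurd h' h2
              · exact h
            · intro h
              exact (hB w).2 ⟨hwK, Or.inr h⟩
        · refine goodQ_iso closed_QS (lkCapOut G hvK ?_ ?_).symm (h1.2 v)
          · intro h
            rcases ((hB v).1 h).2 with h | h
            · exact h2 h
            · exact h3 h
          · exact fun w hw => (hK w).2 ⟨fun h => h2 (h ▸ hw.symm), fun h => h3 (h ▸ hw.symm)⟩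
    rw [goodQ_succ_iff]
    refine ⟨hqs, ?_⟩
    rintro (_ | ⟨v, hv⟩)
    · -- the link of the cone point
      cases m with
      | zero =>
        have h' : IsEmpty {w // G.Adj p w} := h1.2 p
        exact (h'.false ⟨q, hpq⟩).elim
      | succ m =>
        have h2 := goodQ_succ_iff.1 (h1.2 p)
        obtain ⟨⟨w, hpw⟩, hwq⟩ := exists_ne_of_qs h2.1 ⟨q, hpq⟩
        have hwK : w ∈ K := (hK w).2 ⟨hpw.ne', fun h => hwq (Subtype.ext h)⟩
        have hwB : w ∈ B := (hB w).2 ⟨hwK, Or.inl hpw⟩
        rw [goodQ_succ_iff]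
        refine ⟨qs_link hqs ⟨⟨some ⟨w, hwK⟩, hwB⟩⟩, ?_⟩
        rintro ⟨_ | ⟨v, hv⟩, hvB⟩
        · exact (hvB : False).elim
        · have hvB' : (cap G K B).Adj (some ⟨v, hv⟩) none := hvB
          exact goodQ_iso closed_QS (lkLk (cap G K B) hvB' hvB) ((goodQ_succ_iff.1 (hlk v hv)).2 ⟨none, hvB'⟩)
    · exact hlk v hv

end Singer
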