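import Mathlib

/-!
# Faces of polytopes, in terms of linear algebra

A polytope with vertices indexed by `ι` is given by the space `Φ` of the vectors of values of the affine
functions.  `Face Φ F`: the set `F` is the zero set of a nonnegative element of `Φ`.
`Atm Φ F`: `F` is a minimal nonempty face (a vertex).  `ctr Φ F0`: the vertex figure of `F0`.
`sec Φ g`: the section by the hyperplane `g = 0`.
-/

set_option autoImplicit false
set_option linter.unusedSectionVars false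
set_option linter.unusedVariables false

namespace Singer
namespace Poly

universe u

open Classical

variable {ι : Type u} [Fintype ι]

/-- `F` is the zero set of a nonnegative element of `Φ` -/
def Face (Φ : Submodule ℝ (ι → ℝ)) (F : Finset ι) : Prop := ∃ φ ∈ Φ, (∀ i, 0 ≤ φ i) ∧ ∀ i, i ∈ F ↔ φ i = 0

/-- `h` is positive somewhere on `F` -/
def PosOn (h : ι → ℝ) (F : Finset ι) : Prop := ∃ i ∈ F, 0 < h i

/-- `h` is negative somewhere on `F` -/
def NegOn (h : ι → ℝ) (F : Finset ι) : Prop := ∃ i ∈ F, h i < 0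

/-- a minimal nonempty face -/
def Atm (Φ : Submodule ℝ (ι → ℝ)) (F : Finset ι) : Prop :=
  Face Φ F ∧ F.Nonempty ∧ ∀ F', Face Φ F' → F'.Nonempty → F' ⊆ F → F' = F

lemma exists_big (s : Finset ι) (ψ g : ι → ℝ) (h : ∀ i ∈ s, 0 < ψ i) : ∃ N : ℝ, 0 < N ∧ ∀ i ∈ s, 0 < N * ψ i + g i := by
  have h1 : ∀ᶠ N : ℝ in Filter.atTop, ∀ i ∈ s, 0 < N * ψ i + g i := by
    rw [Filter.eventually_all_finset]
    intro i hi
    exact (Filter.tendsto_atTop_add_const_right _ (g i)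
      (Filter.tendsto_id.atTop_mul_const (h i hi))).eventually_gt_atTop 0
  obtain ⟨N, hN⟩ := (h1.and (Filter.eventually_gt_atTop 0)).exists
  exact ⟨N, hN.2, hN.1⟩

lemma exists_small (s : Finset ι) (ψ g : ι → ℝ) (h : ∀ i ∈ s, 0 < ψ i) :
    ∃ ε : ℝ, 0 < ε ∧ ∀ i ∈ s, 0 < ψ i + ε * g i := by
  obtain ⟨N, hN, h1⟩ := exists_big s ψ g h
  refine ⟨N⁻¹, inv_pos.2 hN, fun i hi => ?_⟩
  have h2 := mul_pos (inv_pos.2 hN) (h1 i hi)
  rwa [mul_add, inv_mul_cancel_left₀ hN.ne'] at h2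

variable {Φ : Submodule ℝ (ι → ℝ)}

lemma face_univ : Face Φ Finset.univ := ⟨0, Φ.zero_mem, fun i => le_refl _, fun i => by simp⟩

/-- over a face, the zero set of an element which is nonnegative on the face is a face -/
lemma face_lex {F : Finset ι} (hF : Face Φ F) {g : ι → ℝ} (hg : g ∈ Φ) (hg0 : ∀ i ∈ F, 0 ≤ g i) :
    Face Φ (F.filter fun i => g i = 0) := by
  obtain ⟨ψ, hψ, hψ0, hψF⟩ := hF
  obtain ⟨N, hN, h1⟩ := exists_big (Finset.univ.filter fun i => i ∉ F) ψ g (fun i hi => by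
    rw [Finset.mem_filter] at hi
    exact lt_of_le_of_ne (hψ0 i) (fun h => hi.2 ((hψF i).2 h.symm)))
  refine ⟨N • ψ + g, Φ.add_mem (Φ.smul_mem _ hψ) hg, fun i => ?_, fun i => ?_⟩
  · by_cases hi : i ∈ F
    · have h2 := (hψF i).1 hi
      have h3 := hg0 i hi
      simp only [Pi.add_apply, Pi.smul_apply, smul_eq_mul, h2, mul_zero, zero_add]
      exact h3
    · exact (h1 i (Finset.mem_filter.2 ⟨Finset.mem_univ _, hi⟩)).le
  · rw [Finset.mem_filter]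
    by_cases hi : i ∈ F
    · have h2 := (hψF i).1 hi
      simp only [Pi.add_apply, Pi.smul_apply, smul_eq_mul, h2, mul_zero, zero_add, hi, true_and]
    · exact iff_of_false (fun h => hi h.1) (h1 i (Finset.mem_filter.2 ⟨Finset.mem_univ _, hi⟩)).ne'

lemma face_inter {F F' : Finset ι} (hF : Face Φ F) (hF' : Face Φ F') : Face Φ (F ∩ F') := by
  obtain ⟨ψ, hψ, hψ0, hψF⟩ := hF'
  have h1 := face_lex hF hψ (fun i _ => hψ0 i)
  have h2 : (F.filter fun i => ψ i = 0) = F ∩ F' := by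
    ext i
    rw [Finset.mem_filter, Finset.mem_inter, hψF]
  rwa [h2] at h1

/-- the maximum of a ratio over a face is attained on a face -/
lemma face_max {φ0 : ι → ℝ} (h0 : φ0 ∈ Φ) (hp : ∀ i, 0 < φ0 i) {F : Finset ι} (hF : Face Φ F) (hne : F.Nonempty)
    {g : ι → ℝ} (hg : g ∈ Φ) : ∃ ρ : ℝ, (∀ i ∈ F, g i ≤ ρ * φ0 i) ∧ Face Φ (F.filter fun i => g i = ρ * φ0 i) ∧
      (F.filter fun i => g i = ρ * φ0 i).Nonempty := by
  obtain ⟨i0, hi0, h1⟩ := Finset.exists_max_image F (fun i => g i / φ0 i) hne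
  have h2 : ∀ i ∈ F, g i ≤ g i0 / φ0 i0 * φ0 i := fun i hi => (div_le_iff₀ (hp i)).1 (h1 i hi)
  refine ⟨g i0 / φ0 i0, h2, ?_, ⟨i0, ?_⟩⟩
  · have h3 := face_lex hF (Φ.sub_mem (Φ.smul_mem (g i0 / φ0 i0) h0) hg) (fun i hi => by
      have := h2 i hi
      simp only [Pi.sub_apply, Pi.smul_apply, smul_eq_mul, sub_nonneg]
      exact this)
    have h4 : (F.filter fun i => ((g i0 / φ0 i0) • φ0 - g) i = 0) = F.filter fun i => g i = g i0 / φ0 i0 * φ0 i := by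
      ext i
      rw [Finset.mem_filter, Finset.mem_filter]
      simp only [Pi.sub_apply, Pi.smul_apply, smul_eq_mul, sub_eq_zero]
      constructor
      · exact fun h => ⟨h.1, h.2.symm⟩
      · exact fun h => ⟨h.1, h.2.symm⟩
    rwa [h4] at h3
  · rw [Finset.mem_filter]
    exact ⟨hi0, (div_mul_cancel₀ _ (hp i0).ne').symm⟩

/-- every nonempty face contains an atom -/
lemma exists_atm {F : Finset ι} (hF : Face Φ F) (hne : F.Nonempty) : ∃ F', Atm Φ F' ∧ F' ⊆ F := by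
  induction F using Finset.strongInduction with
  | H F ih =>
    by_cases h : Atm Φ F
    · exact ⟨F, h, Finset.Subset.refl _⟩
    · have h2 : ∃ F', Face Φ F' ∧ F'.Nonempty ∧ F' ⊆ F ∧ F' ≠ F := by
        by_contra h3
        push Not at h3
        exact h ⟨hF, hne, fun F' h4 h5 h6 => h3 F' h4 h5 h6⟩
      obtain ⟨F', h4, h5, h6, h7⟩ := h2
      obtain ⟨F'', h8, h9⟩ := ih F' (Finset.ssubset_iff_subset_ne.2 ⟨h6, h7⟩) h4 h5
      exact ⟨F'', h8, h9.trans h6⟩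

/-- ratios are constant on atoms -/
lemma atm_const {φ0 : ι → ℝ} (h0 : φ0 ∈ Φ) (hp : ∀ i, 0 < φ0 i) {F : Finset ι} (hF : Atm Φ F) {g : ι → ℝ}
    (hg : g ∈ Φ) : ∃ ρ : ℝ, ∀ i ∈ F, g i = ρ * φ0 i := by
  obtain ⟨ρ, -, h1, h2⟩ := face_max h0 hp hF.1 hF.2.1 hg
  refine ⟨ρ, fun i hi => ?_⟩
  rw [← hF.2.2 _ h1 h2 (Finset.filter_subset _ _), Finset.mem_filter] at hi
  exact hi.2

lemma atm_sub {F F' : Finset ι} (hF : Atm Φ F) (hF' : Face Φ F') {i : ι} (hi : i ∈ F) (hi' : i ∈ F') : F ⊆ F' := by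
  have h1 := hF.2.2 _ (face_inter hF.1 hF') ⟨i, Finset.mem_inter.2 ⟨hi, hi'⟩⟩ Finset.inter_subset_left
  rw [← h1]
  exact Finset.inter_subset_right

lemma atm_eq {F F' : Finset ι} (hF : Atm Φ F) (hF' : Atm Φ F') {i : ι} (hi : i ∈ F) (hi' : i ∈ F') : F = F' :=
  Finset.Subset.antisymm (atm_sub hF hF'.1 hi hi') (atm_sub hF' hF.1 hi' hi)

lemma pos_atm {φ0 : ι → ℝ} (h0 : φ0 ∈ Φ) (hp : ∀ i, 0 < φ0 i) {F : Finset ι} (hF : Face Φ F) {g : ι → ℝ}
    (hg : g ∈ Φ) (h : PosOn g F) : ∃ F', Atm Φ F' ∧ F' ⊆ F ∧ ∀ i ∈ F', 0 < g i := by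
  obtain ⟨i, hi, hgi⟩ := h
  obtain ⟨ρ, h1, h2, h3⟩ := face_max h0 hp hF ⟨i, hi⟩ hg
  have hρ : 0 < ρ := (mul_pos_iff_of_pos_right (hp i)).1 (lt_of_lt_of_le hgi (h1 i hi))
  obtain ⟨F', h4, h5⟩ := exists_atm h2 h3
  refine ⟨F', h4, h5.trans (Finset.filter_subset _ _), fun j hj => ?_⟩
  rw [(Finset.mem_filter.1 (h5 hj)).2]
  exact mul_pos hρ (hp j)

lemma neg_atm {φ0 : ι → ℝ} (h0 : φ0 ∈ Φ) (hp : ∀ i, 0 < φ0 i) {F : Finset ι} (hF : Face Φ F) {g : ι → ℝ}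
    (hg : g ∈ Φ) (h : NegOn g F) : ∃ F', Atm Φ F' ∧ F' ⊆ F ∧ ∀ i ∈ F', g i < 0 := by
  obtain ⟨i, hi, hgi⟩ := h
  obtain ⟨F', h1, h2, h3⟩ := pos_atm h0 hp hF (Φ.neg_mem hg) ⟨i, hi, by simpa using hgi⟩
  exact ⟨F', h1, h2, fun j hj => by simpa using h3 j hj⟩

/-- a face which contains an atom strictly contains another atom -/
lemma other_atm {φ0 : ι → ℝ} (h0 : φ0 ∈ Φ) (hp : ∀ i, 0 < φ0 i) {F F0 : Finset ι} (hF : Face Φ F) (hF0 : Atm Φ F0)
    (h : F0 ⊂ F) : ∃ F', Atm Φ F' ∧ F' ⊆ F ∧ F' ≠ F0 := by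
  obtain ⟨i, hi, hi0⟩ := Finset.exists_of_ssubset h
  obtain ⟨ψ, hψ, hψ0, hψF⟩ := hF0.1
  obtain ⟨F', h1, h2, h3⟩ := pos_atm h0 hp hF hψ
    ⟨i, hi, lt_of_le_of_ne (hψ0 i) (fun h => hi0 ((hψF i).2 h.symm))⟩
  refine ⟨F', h1, h2, ?_⟩
  rintro rfl
  obtain ⟨j, hj⟩ := h1.2.1
  exact absurd ((hψF j).1 hj) (h3 j hj).ne'

/-! ### Dimensions -/

lemma finrank_map_add_one {κ : Type u} [Fintype κ] (L : (ι → ℝ) →ₗ[ℝ] (κ → ℝ)) {g : ι → ℝ} (hg : g ∈ Φ) (hg0 : g ≠ 0)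
    (hL : L g = 0) (hker : ∀ φ ∈ Φ, L φ = 0 → ∃ c : ℝ, φ = c • g) :
    Module.finrank ℝ (Φ.map L) + 1 = Module.finrank ℝ Φ := by
  have h1 := LinearMap.finrank_range_add_finrank_ker (L.domRestrict Φ)
  rw [LinearMap.range_domRestrict] at h1
  have h2 : LinearMap.ker (L.domRestrict Φ) = Submodule.span ℝ {(⟨g, hg⟩ : Φ)} := by
    apply le_antisymm
    · rintro ⟨φ, hφ⟩ h
      obtain ⟨c, hc⟩ := hker φ hφ h
      rw [Submodule.mem_span_singleton]
      exact ⟨c, Subtype.ext hc.symm⟩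
    · rw [Submodule.span_singleton_le_iff_mem]
      exact hL
  rw [h2, finrank_span_singleton (fun h => hg0 (congrArg Subtype.val h))] at h1
  exact h1

/-! ### The vertex figure -/

section ctr
variable (Φ) (F0 : Finset ι)

/-- the restrictions of the elements which vanish on `F0` -/
def ctr : Submodule ℝ ({i // i ∉ F0} → ℝ) where
  carrier := {χ | ∃ φ ∈ Φ, (∀ i ∈ F0, φ i = 0) ∧ ∀ i : {i // i ∉ F0}, χ i = φ i.1}
  zero_mem' := ⟨0, Φ.zero_mem, fun _ _ => rfl, fun _ => rfl⟩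
  add_mem' := by
    rintro a b ⟨φ, h1, h2, h3⟩ ⟨φ', h1', h2', h3'⟩
    refine ⟨φ + φ', Φ.add_mem h1 h1', fun i hi => ?_, fun i => ?_⟩
    · rw [Pi.add_apply, h2 i hi, h2' i hi, add_zero]
    · rw [Pi.add_apply, Pi.add_apply, h3, h3']
  smul_mem' := by
    rintro c a ⟨φ, h1, h2, h3⟩
    refine ⟨c • φ, Φ.smul_mem c h1, fun i hi => ?_, fun i => ?_⟩
    · rw [Pi.smul_apply, h2 i hi, smul_zero]
    · rw [Pi.smul_apply, Pi.smul_apply, h3]

/-- the subset of `ι` which belongs to a subset of the complement of `F0` -/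
noncomputable def lft (F' : Finset {i // i ∉ F0}) : Finset ι := F0 ∪ F'.map (Function.Embedding.subtype _)

variable {Φ F0}

lemma mem_lft {F' : Finset {i // i ∉ F0}} {i : ι} : i ∈ lft F0 F' ↔ i ∈ F0 ∨ ∃ h : i ∉ F0, (⟨i, h⟩ : {i // i ∉ F0}) ∈ F' := by
  rw [lft, Finset.mem_union, Finset.mem_map]
  constructor
  · rintro (h | ⟨⟨j, hj⟩, h1, rfl⟩)
    · exact Or.inl h
    · exact Or.inr ⟨hj, h1⟩
  · rintro (h | ⟨h, h1⟩)
    · exact Or.inl h
    · exact Or.inr ⟨⟨i, h⟩, h1, rfl⟩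

lemma mem_lft' {F' : Finset {i // i ∉ F0}} (i : {i // i ∉ F0}) : i.1 ∈ lft F0 F' ↔ i ∈ F' := by
  rw [mem_lft]
  constructor
  · rintro (h | ⟨h, h1⟩)
    · exact absurd h i.2
    · exact h1
  · exact fun h => Or.inr ⟨i.2, h⟩

lemma sub_lft (F' : Finset {i // i ∉ F0}) : F0 ⊆ lft F0 F' := fun i hi => mem_lft.2 (Or.inl hi)

lemma lft_le {F1 F2 : Finset {i // i ∉ F0}} : lft F0 F1 ≤ lft F0 F2 ↔ F1 ≤ F2 := by
  constructor
  · intro h i hi
    exact (mem_lft' i).1 (h ((mem_lft' i).2 hi))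
  · intro h i hi
    rw [mem_lft] at hi ⊢
    rcases hi with hi | ⟨hi, h1⟩
    · exact Or.inl hi
    · exact Or.inr ⟨hi, h h1⟩

lemma lft_lt {F1 F2 : Finset {i // i ∉ F0}} : lft F0 F1 < lft F0 F2 ↔ F1 < F2 :=
  lt_iff_lt_of_le_iff_le' lft_le lft_le

lemma lft_inj {F1 F2 : Finset {i // i ∉ F0}} (h : lft F0 F1 = lft F0 F2) : F1 = F2 :=
  le_antisymm (lft_le.1 h.le) (lft_le.1 h.ge)

lemma lft_surj {F : Finset ι} (h : F0 ⊆ F) : ∃ F' : Finset {i // i ∉ F0}, lft F0 F' = F := by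
  refine ⟨Finset.univ.filter fun i => i.1 ∈ F, ?_⟩
  ext i
  rw [mem_lft]
  constructor
  · rintro (hi | ⟨hi, h1⟩)
    · exact h hi
    · exact (Finset.mem_filter.1 h1).2
  · intro hi
    by_cases h1 : i ∈ F0
    · exact Or.inl h1
    · exact Or.inr ⟨h1, Finset.mem_filter.2 ⟨Finset.mem_univ _, hi⟩⟩

lemma lft_univ : lft F0 (Finset.univ : Finset {i // i ∉ F0}) = Finset.univ := by
  ext i
  rw [mem_lft]
  refine iff_of_true ?_ (Finset.mem_univ _)
  by_cases h1 : i ∈ F0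
  · exact Or.inl h1
  · exact Or.inr ⟨h1, Finset.mem_univ _⟩

lemma lft_eq_univ {F' : Finset {i // i ∉ F0}} : lft F0 F' = Finset.univ ↔ F' = Finset.univ := by
  constructor
  · intro h
    exact lft_inj (h.trans lft_univ.symm)
  · rintro rfl
    exact lft_univ

lemma lft_nonempty {F' : Finset {i // i ∉ F0}} : F0 < lft F0 F' ↔ F'.Nonempty := by
  constructor
  · intro h
    obtain ⟨i, hi, h1⟩ := Finset.exists_of_ssubset h
    rw [mem_lft] at hi
    rcases hi with hi | ⟨hi, h2⟩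
    · exact absurd hi h1
    · exact ⟨_, h2⟩
  · rintro ⟨i, hi⟩
    exact Finset.ssubset_iff_subset_ne.2 ⟨sub_lft F', fun h => i.2 (h.ge ((mem_lft' i).2 hi))⟩

lemma face_lft {F' : Finset {i // i ∉ F0}} : Face (ctr Φ F0) F' ↔ Face Φ (lft F0 F') := by
  constructor
  · rintro ⟨χ, ⟨φ, h1, h2, h3⟩, h4, h5⟩
    refine ⟨φ, h1, fun i => ?_, fun i => ?_⟩
    · by_cases hi : i ∈ F0
      · exact (h2 i hi).ge
      · rw [← h3 ⟨i, hi⟩]
        exact h4 _
    · rw [mem_lft]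
      by_cases hi : i ∈ F0
      · exact iff_of_true (Or.inl hi) (h2 i hi)
      · rw [← h3 ⟨i, hi⟩, ← h5]
        constructor
        · rintro (h | ⟨h, h'⟩)
          · exact absurd h hi
          · exact h'
        · exact fun h => Or.inr ⟨hi, h⟩
  · rintro ⟨φ, h1, h2, h3⟩
    refine ⟨fun i => φ i.1, ⟨φ, h1, fun i hi => (h3 i).1 (sub_lft F' hi), fun i => rfl⟩, fun i => h2 _, fun i => ?_⟩
    rw [← h3, mem_lft']

lemma posOn_lft {F' : Finset {i // i ∉ F0}} {g : ι → ℝ} (hg : ∀ i ∈ F0, g i = 0) :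
    PosOn (fun i : {i // i ∉ F0} => g i.1) F' ↔ PosOn g (lft F0 F') := by
  constructor
  · rintro ⟨i, hi, h⟩
    exact ⟨i.1, (mem_lft' i).2 hi, h⟩
  · rintro ⟨i, hi, h⟩
    rw [mem_lft] at hi
    rcases hi with hi | ⟨hi, h1⟩
    · exact absurd (hg i hi) h.ne'
    · exact ⟨⟨i, hi⟩, h1, h⟩

lemma negOn_lft {F' : Finset {i // i ∉ F0}} {g : ι → ℝ} (hg : ∀ i ∈ F0, g i = 0) :
    NegOn (fun i : {i // i ∉ F0} => g i.1) F' ↔ NegOn g (lft F0 F') := by
  constructor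
  · rintro ⟨i, hi, h⟩
    exact ⟨i.1, (mem_lft' i).2 hi, h⟩
  · rintro ⟨i, hi, h⟩
    rw [mem_lft] at hi
    rcases hi with hi | ⟨hi, h1⟩
    · exact absurd (hg i hi) h.ne
    · exact ⟨⟨i, hi⟩, h1, h⟩

lemma mem_ctr {g : ι → ℝ} (hg : g ∈ Φ) (hg0 : ∀ i ∈ F0, g i = 0) : (fun i : {i // i ∉ F0} => g i.1) ∈ ctr Φ F0 :=
  ⟨g, hg, hg0, fun _ => rfl⟩

lemma ctr_pointed (hF0 : Face Φ F0) : ∃ φ ∈ ctr Φ F0, ∀ i, 0 < φ i := by
  obtain ⟨ψ, hψ, hψ0, hψF⟩ := hF0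
  refine ⟨fun i => ψ i.1, mem_ctr hψ fun i hi => (hψF i).1 hi, fun i => ?_⟩
  exact lt_of_le_of_ne (hψ0 _) (fun h => i.2 ((hψF _).2 h.symm))

lemma finrank_ctr {φ0 : ι → ℝ} (h0 : φ0 ∈ Φ) (hp : ∀ i, 0 < φ0 i) (hF0 : Atm Φ F0) :
    Module.finrank ℝ (ctr Φ F0) + 1 = Module.finrank ℝ Φ := by
  obtain ⟨i0, hi0⟩ := hF0.2.1
  have hq : ∀ φ ∈ Φ, ∀ i ∈ F0, φ i = φ i0 / φ0 i0 * φ0 i := fun φ hφ i hi => by
    obtain ⟨ρ, hρ⟩ := atm_const h0 hp hF0 hφ
    rw [hρ i hi, hρ i0 hi0, mul_div_cancel_right₀ _ (hp i0).ne']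
  let L : (ι → ℝ) →ₗ[ℝ] ({i // i ∉ F0} → ℝ) :=
    { toFun := fun φ i => φ i.1 - φ i0 / φ0 i0 * φ0 i.1
      map_add' := fun a b => by
        funext i
        simp only [Pi.add_apply]
        ring
      map_smul' := fun c a => by
        funext i
        simp only [Pi.smul_apply, smul_eq_mul, RingHom.id_apply]
        ring }
  have hL : ∀ φ i, L φ i = φ i.1 - φ i0 / φ0 i0 * φ0 i.1 := fun φ i => rfl
  have h1 : Φ.map L = ctr Φ F0 := by
    ext χ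
    rw [Submodule.mem_map]
    constructor
    · rintro ⟨φ, hφ, rfl⟩
      refine ⟨φ - (φ i0 / φ0 i0) • φ0, Φ.sub_mem hφ (Φ.smul_mem _ h0), fun i hi => ?_, fun i => ?_⟩
      · rw [Pi.sub_apply, Pi.smul_apply, smul_eq_mul, hq φ hφ i hi, sub_self]
      · rw [hL, Pi.sub_apply, Pi.smul_apply, smul_eq_mul]
    · rintro ⟨φ, h2, h3, h4⟩
      refine ⟨φ, h2, ?_⟩
      funext i
      rw [hL, h3 i0 hi0, zero_div, zero_mul, sub_zero, h4]
  rw [← h1]
  refine finrank_map_add_one L h0 (fun h => ?_) ?_ ?_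
  · exact absurd (congrFun h i0) (hp i0).ne'
  · funext i
    rw [hL, div_self (hp i0).ne', one_mul, sub_self]
    rfl
  · intro φ hφ h
    refine ⟨φ i0 / φ0 i0, ?_⟩
    funext i
    rw [Pi.smul_apply, smul_eq_mul]
    by_cases hi : i ∈ F0
    · exact hq φ hφ i hi
    · have h2 := congrFun h ⟨i, hi⟩
      rw [hL] at h2
      exact sub_eq_zero.1 h2

end ctr

/-! ### Sections -/

section section_
variable (g : ι → ℝ)

/-- the index set of a section -/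
abbrev SecI : Type u := ({i // 0 < g i} × {j // g j < 0}) ⊕ {k // g k = 0}

/-- the values at the vertices of the section -/
def secL : (ι → ℝ) →ₗ[ℝ] (SecI g → ℝ) where
  toFun φ := Sum.elim (fun x => g x.1.1 * φ x.2.1 - g x.2.1 * φ x.1.1) (fun k => φ k.1)
  map_add' a b := by
    funext x
    rcases x with x | x
    · simp only [Sum.elim_inl, Pi.add_apply]
      ring
    · simp only [Sum.elim_inr, Pi.add_apply]
  map_smul' c a := by
    funext x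
    rcases x with x | x
    · simp only [Sum.elim_inl, Pi.smul_apply, smul_eq_mul, RingHom.id_apply]
      ring
    · simp only [Sum.elim_inr, Pi.smul_apply, RingHom.id_apply]

/-- the subset of the index set of the section -/
noncomputable def secF (F : Finset ι) : Finset (SecI g) :=
  Finset.univ.filter fun x => Sum.elim (fun x => x.1.1 ∈ F ∧ x.2.1 ∈ F) (fun k => k.1 ∈ F) x

variable {g}

lemma mem_secF_inl {F : Finset ι} {x : {i // 0 < g i} × {j // g j < 0}} :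
    (Sum.inl x : SecI g) ∈ secF g F ↔ x.1.1 ∈ F ∧ x.2.1 ∈ F := by
  simp only [secF, Finset.mem_filter, Finset.mem_univ, true_and, Sum.elim_inl]

lemma mem_secF_inr {F : Finset ι} {k : {k // g k = 0}} : (Sum.inr k : SecI g) ∈ secF g F ↔ k.1 ∈ F := by
  simp only [secF, Finset.mem_filter, Finset.mem_univ, true_and, Sum.elim_inr]

lemma secL_inl (φ : ι → ℝ) (x : {i // 0 < g i} × {j // g j < 0}) :
    secL g φ (Sum.inl x) = g x.1.1 * φ x.2.1 - g x.2.1 * φ x.1.1 := rfl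

lemma secL_inr (φ : ι → ℝ) (k : {k // g k = 0}) : secL g φ (Sum.inr k) = φ k.1 := rfl

/-- extension of a nonnegative function on the section -/
lemma sec_ext {φ : ι → ℝ} (hp : ∃ i, 0 < g i) (h : ∀ x, 0 ≤ secL g φ x) : ∃ c : ℝ, ∀ i, 0 ≤ φ i + c * g i := by
  obtain ⟨i1, hi1⟩ := hp
  obtain ⟨i0, hi0, h1⟩ := Finset.exists_max_image (Finset.univ.filter fun i => 0 < g i) (fun i => -φ i / g i)
    ⟨i1, Finset.mem_filter.2 ⟨Finset.mem_univ _, hi1⟩⟩
  have hi0' : 0 < g i0 := (Finset.mem_filter.1 hi0).2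
  refine ⟨-φ i0 / g i0, fun i => ?_⟩
  rcases lt_trichotomy 0 (g i) with hi | hi | hi
  · have h2 := (div_le_iff₀ hi).1 (h1 i (Finset.mem_filter.2 ⟨Finset.mem_univ _, hi⟩))
    linarith
  · rw [← hi, mul_zero, add_zero]
    exact h (Sum.inr ⟨i, hi.symm⟩)
  · have h2 := h (Sum.inl (⟨i0, hi0'⟩, ⟨i, hi⟩))
    rw [secL_inl] at h2
    have h3 : φ i + -φ i0 / g i0 * g i = (g i0 * φ i - g i * φ i0) / g i0 := by
      field_simp
      ring
    rw [h3]
    exact div_nonneg h2 hi0'.le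

lemma secL_g : secL g g = 0 := by
  funext x
  rcases x with x | x
  · rw [secL_inl, mul_comm, sub_self]
    rfl
  · exact x.2

lemma face_secF {F : Finset ι} (hF : Face Φ F) : Face (Φ.map (secL g)) (secF g F) := by
  obtain ⟨ψ, hψ, hψ0, hψF⟩ := hF
  refine ⟨secL g ψ, Submodule.mem_map_of_mem hψ, ?_, ?_⟩
  · rintro (x | x)
    · rw [secL_inl]
      have h1 := mul_nonneg x.1.2.le (hψ0 x.2.1)
      have h2 := mul_nonneg (neg_nonneg.2 x.2.2.le) (hψ0 x.1.1)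
      linarith
    · exact hψ0 _
  · rintro (x | x)
    · rw [secL_inl, mem_secF_inl, hψF, hψF]
      have h1 := mul_nonneg x.1.2.le (hψ0 x.2.1)
      have h2 := mul_nonneg (neg_nonneg.2 x.2.2.le) (hψ0 x.1.1)
      constructor
      · rintro ⟨h3, h4⟩
        rw [h3, h4, mul_zero, mul_zero, sub_zero]
      · intro h3
        have h4 : g x.1.1 * ψ x.2.1 = 0 := by linarith
        have h5 : -g x.2.1 * ψ x.1.1 = 0 := by linarith
        exact ⟨(mul_eq_zero.1 h5).resolve_left (neg_pos.2 x.2.2).ne', (mul_eq_zero.1 h4).resolve_left x.1.2.ne'⟩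
    · rw [secL_inr, mem_secF_inr, hψF]

lemma face_secF' (hg : g ∈ Φ) (hp : ∃ i, 0 < g i) {F' : Finset (SecI g)} (hF : Face (Φ.map (secL g)) F') :
    ∃ F, Face Φ F ∧ secF g F = F' := by
  obtain ⟨χ, hχ, hχ0, hχF⟩ := hF
  obtain ⟨φ, hφ, rfl⟩ := Submodule.mem_map.1 hχ
  obtain ⟨c, hc⟩ := sec_ext hp hχ0
  have h1 : Face Φ (Finset.univ.filter fun i => φ i + c * g i = 0) :=
    ⟨φ + c • g, Φ.add_mem hφ (Φ.smul_mem _ hg), hc, fun i => by
      rw [Finset.mem_filter]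
      exact ⟨fun h => h.2, fun h => ⟨Finset.mem_univ _, h⟩⟩⟩
  refine ⟨_, h1, ?_⟩
  ext x
  rw [hχF]
  rcases x with x | x
  · rw [mem_secF_inl, Finset.mem_filter, Finset.mem_filter, secL_inl]
    simp only [Finset.mem_univ, true_and]
    have h2 := mul_nonneg x.1.2.le (hc x.2.1)
    have h3 := mul_nonneg (neg_nonneg.2 x.2.2.le) (hc x.1.1)
    have h4 : g x.1.1 * φ x.2.1 - g x.2.1 * φ x.1.1 =
      g x.1.1 * (φ x.2.1 + c * g x.2.1) + -g x.2.1 * (φ x.1.1 + c * g x.1.1) := by ring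
    rw [h4]
    constructor
    · rintro ⟨h5, h6⟩
      rw [h5, h6, mul_zero, mul_zero, add_zero]
    · intro h5
      have h6 : g x.1.1 * (φ x.2.1 + c * g x.2.1) = 0 := by linarith
      have h7 : -g x.2.1 * (φ x.1.1 + c * g x.1.1) = 0 := by linarith
      exact ⟨(mul_eq_zero.1 h7).resolve_left (neg_pos.2 x.2.2).ne', (mul_eq_zero.1 h6).resolve_left x.1.2.ne'⟩
  · rw [mem_secF_inr, Finset.mem_filter, secL_inr]
    simp only [Finset.mem_univ, true_and]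
    rw [x.2, mul_zero, add_zero]

lemma finrank_sec (hg : g ∈ Φ) (hp : ∃ i, 0 < g i) (hn : ∃ j, g j < 0) :
    Module.finrank ℝ (Φ.map (secL g)) + 1 = Module.finrank ℝ Φ := by
  obtain ⟨i0, hi0⟩ := hp
  obtain ⟨j0, hj0⟩ := hn
  refine finrank_map_add_one _ hg (fun h => ?_) secL_g ?_
  · rw [h] at hi0
    exact lt_irrefl _ hi0
  · intro φ hφ h
    have hij : ∀ i (hi : 0 < g i) j (hj : g j < 0), g i * φ j = g j * φ i := fun i hi j hj => by
      have h1 := congrFun h (Sum.inl (⟨i, hi⟩, ⟨j, hj⟩))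
      rw [secL_inl] at h1
      exact sub_eq_zero.1 h1
    refine ⟨φ i0 / g i0, ?_⟩
    funext i
    rw [Pi.smul_apply, smul_eq_mul]
    have hj1 := hij i0 hi0 j0 hj0
    rcases lt_trichotomy 0 (g i) with hi | hi | hi
    · have h1 := hij i hi j0 hj0
      have h2 : g j0 * (φ i * g i0 - φ i0 * g i) = 0 := by
        have e1 : g j0 * φ i * g i0 = g i * φ j0 * g i0 := by rw [h1]
        have e2 : g j0 * φ i0 * g i = g i0 * φ j0 * g i := by rw [hj1]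
        linarith
      have h3 := (mul_eq_zero.1 h2).resolve_left hj0.ne
      field_simp
      linarith
    · have h1 := congrFun h (Sum.inr ⟨i, hi.symm⟩)
      rw [secL_inr] at h1
      rw [← hi, mul_zero]
      exact h1
    · have h1 := hij i0 hi0 i hi
      field_simp
      linarith

/-- a face which crosses the hyperplane, or lies in it -/
def Scd (g : ι → ℝ) (F : Finset ι) : Prop := (PosOn g F ∧ NegOn g F) ∨ ∀ i ∈ F, g i = 0

lemma secF_mono {F F' : Finset ι} (h : F ⊆ F') : secF g F ⊆ secF g F' := by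
  rintro (x | x) hx
  · rw [mem_secF_inl] at hx ⊢
    exact ⟨h hx.1, h hx.2⟩
  · rw [mem_secF_inr] at hx ⊢
    exact h hx

lemma secF_le {F F' : Finset ι} (hF : Scd g F) : secF g F ≤ secF g F' ↔ F ≤ F' := by
  constructor
  · intro h i hi
    rcases hF with ⟨⟨i0, hi0, hp⟩, ⟨j0, hj0, hn⟩⟩ | h0
    · rcases lt_trichotomy 0 (g i) with h1 | h1 | h1
      · exact (mem_secF_inl.1 (h ((mem_secF_inl (x := (⟨i, h1⟩, ⟨j0, hn⟩))).2 ⟨hi, hj0⟩))).1
      · exact mem_secF_inr.1 (h ((mem_secF_inr (k := ⟨i, h1.symm⟩)).2 hi))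
      · exact (mem_secF_inl.1 (h ((mem_secF_inl (x := (⟨i0, hp⟩, ⟨i, h1⟩))).2 ⟨hi0, hi⟩))).2
    · exact mem_secF_inr.1 (h ((mem_secF_inr (k := ⟨i, h0 i hi⟩)).2 hi))
  · exact fun h => secF_mono h

lemma secF_lt {F F' : Finset ι} (hF : Scd g F) (hF' : Scd g F') : secF g F < secF g F' ↔ F < F' :=
  lt_iff_lt_of_le_iff_le' (secF_le hF') (secF_le hF)

lemma secF_inj {F F' : Finset ι} (hF : Scd g F) (hF' : Scd g F') (h : secF g F = secF g F') : F = F' :=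
  le_antisymm ((secF_le hF).1 h.le) ((secF_le hF').1 h.ge)

lemma secF_surj (hg : g ∈ Φ) (hp : ∃ i, 0 < g i) {F' : Finset (SecI g)} (hF : Face (Φ.map (secL g)) F')
    (hne : F'.Nonempty) : ∃ F, Face Φ F ∧ F.Nonempty ∧ Scd g F ∧ secF g F = F' := by
  obtain ⟨F, h1, rfl⟩ := face_secF' hg hp hF
  by_cases hP : PosOn g F
  · by_cases hN : NegOn g F
    · exact ⟨F, h1, ⟨_, hP.choose_spec.1⟩, Or.inl ⟨hP, hN⟩, rfl⟩
    · have h2 : ∀ i ∈ F, 0 ≤ g i := fun i hi => not_lt.1 fun h => hN ⟨i, hi, h⟩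
      have h3 := face_lex h1 hg h2
      obtain ⟨x, hx⟩ := hne
      have h4 : secF g (F.filter fun i => g i = 0) = secF g F := by
        ext x
        rcases x with x | x
        · rw [mem_secF_inl, mem_secF_inl]
          exact iff_of_false (fun h => x.1.2.ne' (Finset.mem_filter.1 h.1).2) (fun h => hN ⟨_, h.2, x.2.2⟩)
        · rw [mem_secF_inr, mem_secF_inr, Finset.mem_filter]
          exact ⟨fun h => h.1, fun h => ⟨h, x.2⟩⟩
      refine ⟨_, h3, ?_, Or.inr fun i hi => (Finset.mem_filter.1 hi).2, h4⟩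
      rcases x with x | x
      · rw [mem_secF_inl] at hx
        exact absurd ⟨_, hx.2, x.2.2⟩ hN
      · rw [mem_secF_inr] at hx
        exact ⟨_, Finset.mem_filter.2 ⟨hx, x.2⟩⟩
  · have h2 : ∀ i ∈ F, 0 ≤ (-g) i := fun i hi => by
      rw [Pi.neg_apply, neg_nonneg]
      exact not_lt.1 fun h => hP ⟨i, hi, h⟩
    have h3 := face_lex h1 (Φ.neg_mem hg) h2
    obtain ⟨x, hx⟩ := hne
    have h4 : secF g (F.filter fun i => (-g) i = 0) = secF g F := by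
      ext x
      rcases x with x | x
      · rw [mem_secF_inl, mem_secF_inl]
        exact iff_of_false (fun h => x.1.2.ne' (neg_eq_zero.1 (Finset.mem_filter.1 h.1).2)) (fun h => hP ⟨_, h.1, x.1.2⟩)
      · rw [mem_secF_inr, mem_secF_inr, Finset.mem_filter]
        exact ⟨fun h => h.1, fun h => ⟨h, neg_eq_zero.2 x.2⟩⟩
    refine ⟨_, h3, ?_, Or.inr fun i hi => neg_eq_zero.1 (Finset.mem_filter.1 hi).2, h4⟩
    rcases x with x | x
    · rw [mem_secF_inl] at hx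
      exact absurd ⟨_, hx.1, x.1.2⟩ hP
    · rw [mem_secF_inr] at hx
      exact ⟨_, Finset.mem_filter.2 ⟨hx, neg_eq_zero.2 x.2⟩⟩

lemma secF_eq_univ (hp : ∃ i, 0 < g i) (hn : ∃ j, g j < 0) {F : Finset ι} : secF g F = Finset.univ ↔ F = Finset.univ := by
  obtain ⟨i0, hi0⟩ := hp
  obtain ⟨j0, hj0⟩ := hn
  constructor
  · intro h
    ext i
    refine iff_of_true ?_ (Finset.mem_univ _)
    have h1 : ∀ x : SecI g, x ∈ secF g F := fun x => by
      rw [h]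
      exact Finset.mem_univ _
    rcases lt_trichotomy 0 (g i) with h2 | h2 | h2
    · exact (mem_secF_inl.1 (h1 (Sum.inl (⟨i, h2⟩, ⟨j0, hj0⟩)))).1
    · exact mem_secF_inr.1 (h1 (Sum.inr ⟨i, h2.symm⟩))
    · exact (mem_secF_inl.1 (h1 (Sum.inl (⟨i0, hi0⟩, ⟨i, h2⟩)))).2
  · rintro rfl
    ext x
    refine iff_of_true ?_ (Finset.mem_univ _)
    rcases x with x | x
    · exact mem_secF_inl.2 ⟨Finset.mem_univ _, Finset.mem_univ _⟩
    · exact mem_secF_inr.2 (Finset.mem_univ _)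

lemma secF_nonempty {F : Finset ι} (hF : Scd g F) (hne : F.Nonempty) : (secF g F).Nonempty := by
  rcases hF with ⟨⟨i0, hi0, hp⟩, ⟨j0, hj0, hn⟩⟩ | h0
  · exact ⟨Sum.inl (⟨i0, hp⟩, ⟨j0, hn⟩), mem_secF_inl.2 ⟨hi0, hj0⟩⟩
  · obtain ⟨i, hi⟩ := hne
    exact ⟨Sum.inr ⟨i, h0 i hi⟩, mem_secF_inr.2 hi⟩

lemma sec_pointed {φ0 : ι → ℝ} (h0 : φ0 ∈ Φ) (hp : ∀ i, 0 < φ0 i) : ∃ φ ∈ Φ.map (secL g), ∀ x, 0 < φ x := by
  refine ⟨secL g φ0, Submodule.mem_map_of_mem h0, ?_⟩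
  rintro (x | x)
  · rw [secL_inl]
    have h1 := mul_pos x.1.2 (hp x.2.1)
    have h2 := mul_pos (neg_pos.2 x.2.2) (hp x.1.1)
    linarith
  · exact hp _

end section_

end Poly
end Singer
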