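import Pool.Agent.Singer.PolyMain

/-!
# Polytopes belong to the class `Cls`: the induction
-/

set_option autoImplicit false
set_option linter.unusedSectionVars false
set_option linter.unusedVariables false

namespace Singer
namespace Poly

universe u

open Classical

variable {ι : Type u} [Fintype ι] {Φ : Submodule ℝ (ι → ℝ)}

/-- the positive vertices -/
noncomputable def Pa (Φ : Submodule ℝ (ι → ℝ)) (h : ι → ℝ) : Finset (Finset ι) :=
  Finset.univ.filter fun F => Atm Φ F ∧ ∀ i ∈ F, 0 < h i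

lemma mem_Pa {h : ι → ℝ} {F : Finset ι} : F ∈ Pa Φ h ↔ Atm Φ F ∧ ∀ i ∈ F, 0 < h i := by
  rw [Pa, Finset.mem_filter]
  exact and_iff_right (Finset.mem_univ _)

/-- a single positive vertex: the cap is a suspension -/
lemma claimB_one {r : ℕ} (hA : ClaimA.{u} r) {φ0 h : ι → ℝ} {F0 : Finset ι} (h0 : φ0 ∈ Φ) (hp : ∀ i, 0 < φ0 i)
    (hh : h ∈ Φ) (hr : Module.finrank ℝ Φ = r + 1 + 1) (hneg : ∃ j, h j < 0) (hgen : ∀ F, Atm Φ F → ∃ i ∈ F, h i ≠ 0)
    (hF0 : Atm Φ F0) (hpos : ∀ i ∈ F0, 0 < h i) (huniq : ∀ F ∈ Pa Φ h, F = F0) :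
    Cls (r + 1) (cap (cmpG (Finset ι)) (Kf Φ h) (Nf h)) := by
  have h1 := finrank_ctr h0 hp hF0
  have key := hA {i // i ∉ F0} (ctr Φ F0) (by
    obtain ⟨j, hj⟩ := hneg
    exact ⟨⟨j, fun h2 => absurd (hpos j h2) hj.not_gt⟩⟩) (ctr_pointed hF0.1) (by omega)
  have hF0u : F0 ≠ Finset.univ := by
    rintro rfl
    obtain ⟨j, hj⟩ := hneg
    exact absurd (hpos j (Finset.mem_univ _)) hj.not_gt
  have hnn : ¬ NegOn h F0 := by
    rintro ⟨i, hi, h2⟩
    exact absurd (hpos i hi) h2.not_gt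
  have hsup : ∀ F, Face Φ F → F0 ≤ F → PosOn h F := fun F _ h2 => by
    obtain ⟨i, hi⟩ := hF0.2.1
    exact ⟨i, h2 hi, hpos i hi⟩
  have hsup' : ∀ F, Face Φ F → PosOn h F → F0 ≤ F := fun F h2 h3 => by
    obtain ⟨F1, h4, h5, h6⟩ := pos_atm h0 hp h2 hh h3
    rw [huniq F1 (mem_Pa.2 ⟨h4, h6⟩)] at h5
    exact h5
  have hng : ∀ F, Face Φ F → F0 < F → NegOn h F := fun F h2 h3 => by
    obtain ⟨F1, h4, h5, h6⟩ := other_atm h0 hp h2 hF0 h3
    rcases atm_sign h0 hp h4 hh (hgen F1 h4) with h7 | h7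
    · exact absurd (huniq F1 (mem_Pa.2 ⟨h4, h7⟩)) h6
    · obtain ⟨i, hi⟩ := h4.2.1
      exact ⟨i, h5 hi, h7 i hi⟩
  have hv : ∀ F : {F : Finset {i // i ∉ F0} // Face (ctr Φ F0) F ∧ F.Nonempty ∧ F ≠ Finset.univ},
      F0 < lft F0 F.1 ∧ lft F0 F.1 ∈ Kf Φ h ∧ lft F0 F.1 ∈ Nf h := by
    rintro ⟨F, h2, h3, h4⟩
    have h5 : F0 < lft F0 F := lft_nonempty.2 h3
    have h6 : Face Φ (lft F0 F) := face_lft.1 h2
    exact ⟨h5, mem_Kf.2 ⟨h6, fun h7 => h4 (lft_eq_univ.1 h7), hsup _ h6 h5.le⟩, mem_Nf.2 (hng _ h6 h5)⟩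
  have hF0K : F0 ∈ Kf Φ h := mem_Kf.2 ⟨hF0.1, hF0u, hsup _ hF0.1 le_rfl⟩
  refine key.susp.of_bij (fun x => match x with
    | .inl F => some ⟨lft F0 F.1, (hv F).2.1⟩
    | .inr true => none
    | .inr false => some ⟨F0, hF0K⟩) ⟨?_, ?_⟩ ?_
  · rintro (x | (_ | _)) (y | (_ | _)) hxy
    · have h2 : lft F0 x.1 = lft F0 y.1 := congrArg Subtype.val (Option.some.inj hxy)
      exact congrArg Sum.inl (Subtype.ext (lft_inj h2))
    · have h2 : lft F0 x.1 = F0 := congrArg Subtype.val (Option.some.inj hxy)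
      exact absurd h2.symm (hv x).1.ne
    · exact absurd hxy (Option.some_ne_none _)
    · have h2 : F0 = lft F0 y.1 := congrArg Subtype.val (Option.some.inj hxy)
      exact absurd h2 (hv y).1.ne
    · rfl
    · exact absurd hxy (Option.some_ne_none _)
    · exact absurd hxy.symm (Option.some_ne_none _)
    · exact absurd hxy.symm (Option.some_ne_none _)
    · rfl
  · rintro (_ | ⟨F, hF⟩)
    · exact ⟨.inr true, rfl⟩
    · have hF' := mem_Kf.1 hF
      rcases (hsup' F hF'.1 hF'.2.2).eq_or_lt with h2 | h2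
      · subst h2
        exact ⟨.inr false, rfl⟩
      · obtain ⟨F', rfl⟩ := lft_surj h2.le
        exact ⟨.inl ⟨F', face_lft.2 hF'.1, lft_nonempty.1 h2, fun h7 => hF'.2.1 (lft_eq_univ.2 h7)⟩, rfl⟩
  · rintro (x | (_ | _)) (y | (_ | _))
    · exact or_congr lft_lt lft_lt
    · exact iff_of_true (Or.inr (hv x).1) trivial
    · exact iff_of_true (hv x).2.2 trivial
    · exact iff_of_true (Or.inl (hv y).1) trivial
    · exact iff_of_false (fun h => h.elim (lt_irrefl _) (lt_irrefl _)) (fun h => h)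
    · exact iff_of_false (fun h => hnn (mem_Nf.1 h)) (fun h => h)
    · exact iff_of_true (hv y).2.2 trivial
    · exact iff_of_false (fun h => hnn (mem_Nf.1 h)) (fun h => h)
    · exact iff_of_false (fun h => h) (fun h => h)

theorem claimB_succ {r : ℕ} (hA : ClaimA.{u} r) (hB : ClaimB.{u} r) : ClaimB.{u} (r + 1) := by
  intro ι _ Φ h hh hpt hr hpos hneg hgen
  obtain ⟨φ0, h0, hp⟩ := hpt
  obtain ⟨m, hm⟩ : ∃ m, m = (Pa Φ h).card := ⟨_, rfl⟩
  induction m using Nat.strong_induction_on generalizing h with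
  | _ m ih =>
    -- the positive vertex of minimal ratio
    obtain ⟨F1, hF1, -, hF1p⟩ := pos_atm h0 hp (face_univ (Φ := Φ)) hh (by
      obtain ⟨i, hi⟩ := hpos
      exact ⟨i, Finset.mem_univ _, hi⟩)
    obtain ⟨i1, hi1⟩ := hF1.2.1
    obtain ⟨i0, hi0, hmin⟩ := Finset.exists_min_image (Finset.univ.filter fun i => ∃ F ∈ Pa Φ h, i ∈ F)
      (fun i => h i / φ0 i) ⟨i1, Finset.mem_filter.2 ⟨Finset.mem_univ _, F1, mem_Pa.2 ⟨hF1, hF1p⟩, hi1⟩⟩
    obtain ⟨F0, hF0P, hi0F⟩ := (Finset.mem_filter.1 hi0).2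
    obtain ⟨hF0, hF0p⟩ := mem_Pa.1 hF0P
    by_cases huniq : ∀ F ∈ Pa Φ h, F = F0
    · exact claimB_one hA h0 hp hh hr hneg hgen hF0 hF0p huniq
    push Not at huniq
    obtain ⟨F2, hF2P, hF20⟩ := huniq
    obtain ⟨hF2, hF2p⟩ := mem_Pa.1 hF2P
    obtain ⟨ρ, hρd⟩ : ∃ ρ, ρ = h i0 / φ0 i0 := ⟨_, rfl⟩
    have hρ : 0 < ρ := by
      rw [hρd]
      exact div_pos (hF0p i0 hi0F) (hp i0)
    have hρ0 : ∀ i ∈ F0, h i = ρ * φ0 i := by
      obtain ⟨σ, hσ⟩ := atm_const h0 hp hF0 hh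
      have h2 : ρ = σ := by
        rw [hρd, hσ i0 hi0F, mul_div_cancel_right₀ _ (hp i0).ne']
      rw [h2]
      exact hσ
    have hρ1 : ∀ F ∈ Pa Φ h, ∀ i ∈ F, ρ * φ0 i ≤ h i := fun F hF i hi => by
      rw [hρd]
      exact (le_div_iff₀ (hp i)).1 (hmin i (Finset.mem_filter.2 ⟨Finset.mem_univ _, F, hF, hi⟩))
    -- the supporting functional of the vertex
    obtain ⟨ψ, hψ, hψ0, hψF⟩ := hF0.1
    have hψp : ∀ i, i ∉ F0 → 0 < ψ i := fun i hi => lt_of_le_of_ne (hψ0 i) (fun h => hi ((hψF i).2 h.symm))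
    obtain ⟨δ, hδ, h1⟩ := exists_small Finset.univ φ0 (-ψ) (fun i _ => hp i)
    have h1' : ∀ i, 0 < φ0 i - δ * ψ i := fun i => by
      have := h1 i (Finset.mem_univ _)
      rw [Pi.neg_apply] at this
      linarith
    obtain ⟨h', hh'd⟩ : ∃ h' : ι → ℝ, h' = h + (-ρ) • (φ0 + (-δ) • ψ) := ⟨_, rfl⟩
    have hv' : ∀ i, h' i = h i - ρ * (φ0 i - δ * ψ i) := fun i => by
      rw [hh'd]
      simp only [Pi.add_apply, Pi.smul_apply, smul_eq_mul]
      ring
    have D : Dat Φ φ0 h h' F0 := by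
      refine ⟨h0, hp, hh, ?_, hF0, hF0p, ?_, ?_, ?_, ?_, hneg⟩
      · rw [hh'd]
        exact Φ.add_mem hh (Φ.smul_mem _ (Φ.add_mem h0 (Φ.smul_mem _ hψ)))
      · intro i hi
        rw [hv', (hψF i).1 hi, hρ0 i hi]
        ring
      · intro i
        rw [hv']
        have := mul_pos hρ (h1' i)
        linarith
      · intro F hF hFn
        rcases atm_sign h0 hp hF hh (hgen F hF) with h2 | h2
        · left
          intro i hi
          have h3 : i ∉ F0 := fun h3 => hFn (atm_eq hF hF0 hi h3)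
          have h4 := hρ1 F (mem_Pa.2 ⟨hF, h2⟩) i hi
          have h5 := mul_pos hρ (mul_pos hδ (hψp i h3))
          rw [hv']
          linarith
        · exact Or.inr h2
      · obtain ⟨i, hi⟩ := hF2.2.1
        have h3 : i ∉ F0 := fun h3 => hF20 (atm_eq hF2 hF0 hi h3)
        have h4 := hρ1 F2 hF2P i hi
        have h5 := mul_pos hρ (mul_pos hδ (hψp i h3))
        refine ⟨i, ?_⟩
        rw [hv']
        linarith
    -- the functional beyond the vertex
    obtain ⟨ε, hε, h2⟩ := exists_small (Finset.univ.filter fun i => 0 < h' i) h' (-φ0) (fun i hi =>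
      (Finset.mem_filter.1 hi).2)
    obtain ⟨h'', hh''d⟩ : ∃ h'' : ι → ℝ, h'' = h' + ε • (-φ0) := ⟨_, rfl⟩
    have hv'' : ∀ i, h'' i = h' i + ε * (-φ0) i := fun i => by
      rw [hh''d]
      rfl
    have hlt : ∀ i, h'' i < h' i := fun i => by
      rw [hv'', Pi.neg_apply]
      have := mul_pos hε (hp i)
      linarith
    have hgt : ∀ i, 0 < h' i → 0 < h'' i := fun i hi => by
      rw [hv'']
      exact h2 i (Finset.mem_filter.2 ⟨Finset.mem_univ _, hi⟩)
    have hh'' : h'' ∈ Φ := by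
      rw [hh''d]
      exact Φ.add_mem D.hh' (Φ.smul_mem _ (Φ.neg_mem h0))
    have hn0 : ∀ i ∈ F0, h'' i < 0 := fun i hi => by
      have := hlt i
      rwa [D.zero0 i hi] at this
    have hPa : Pa Φ h'' ⊂ Pa Φ h := by
      rw [Finset.ssubset_iff_subset_ne]
      constructor
      · intro F hF
        rw [mem_Pa] at hF ⊢
        exact ⟨hF.1, fun i hi => (hF.2 i hi).trans ((hlt i).trans (D.lt i))⟩
      · intro e
        have h3 : F0 ∈ Pa Φ h'' := by
          rw [e]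
          exact hF0P
        exact absurd ((mem_Pa.1 h3).2 i0 hi0F) (hn0 i0 hi0F).not_gt
    have hP : ∀ F : Finset ι, PosOn h'' F ↔ PosOn h' F := fun F => by
      constructor
      · rintro ⟨i, hi, h3⟩
        exact ⟨i, hi, h3.trans (hlt i)⟩
      · rintro ⟨i, hi, h3⟩
        exact ⟨i, hi, hgt i h3⟩
    have key := ih (Pa Φ h'').card (by
      rw [hm]
      exact Finset.card_lt_card hPa) h'' hh'' (by
      obtain ⟨i, hi⟩ := D.expos
      exact ⟨i, hgt i hi⟩) ⟨i0, hn0 i0 hi0F⟩ (fun F hF => by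
      by_cases hF' : F = F0
      · subst hF'
        exact ⟨i0, hi0F, (hn0 i0 hi0F).ne⟩
      · obtain ⟨i, hi⟩ := hF.2.1
        rcases D.alt F hF hF' with h3 | h3
        · exact ⟨i, hi, (hgt i (h3 i hi)).ne'⟩
        · exact ⟨i, hi, ((hlt i).trans ((D.lt i).trans (h3 i hi))).ne⟩) rfl
    refine D.step hA hB hr (key.cap_congr ?_ ?_)
    · intro v
      rw [mem_Kf, mem_Kf, hP]
    · intro v hv
      rw [mem_Kf] at hv
      have hv2 := (hP v).1 hv.2.2
      rw [Finset.mem_filter, mem_Kf, mem_Nf, mem_Nf]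
      constructor
      · rintro ⟨-, h3 | h3⟩
        · have h4 : F0 < v := h3.resolve_right (D.not_lt hv.1 hv.2.2.nonempty)
          exact ⟨i0, h4.le hi0F, hn0 i0 hi0F⟩
        · obtain ⟨i, hi, h4⟩ := h3
          exact ⟨i, hi, (hlt i).trans ((D.lt i).trans h4)⟩
      · intro h3
        refine ⟨⟨hv.1, hv.2.1, hv2⟩, ?_⟩
        obtain ⟨F, h4, h5, h6⟩ := neg_atm h0 hp hv.1 hh'' h3
        by_cases h7 : F = F0
        · subst h7
          refine Or.inl (Or.inl (lt_of_le_of_ne h5 fun e => ?_))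
          rw [← e] at hv2
          exact D.not_pos hv2
        · obtain ⟨i, hi⟩ := h4.2.1
          rcases D.alt F h4 h7 with h8 | h8
          · exact absurd (hgt i (h8 i hi)) (h6 i hi).not_gt
          · exact Or.inr ⟨i, h5 hi, h8 i hi⟩

theorem claims (r : ℕ) : ClaimA.{u} r ∧ ClaimB.{u} r := by
  induction r with
  | zero => exact ⟨claimA_zero, claimB_zero⟩
  | succ r ih =>
    have h := claimB_succ ih.1 ih.2
    exact ⟨claimA_of_claimB h, h⟩

/-- **boundaries of polytopes**: if `Φ` has dimension `r + 1`, then the comparability graph of the proper nonempty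
faces is in `Cls r` -/
theorem cls_bd {ι : Type u} [Fintype ι] {Φ : Submodule ℝ (ι → ℝ)} (hne : Nonempty ι) (hpt : ∃ φ ∈ Φ, ∀ i, 0 < φ i)
    {r : ℕ} (hr : Module.finrank ℝ Φ = r + 1) : Cls r (bd Φ) := (claims r).1 ι Φ hne hpt hr

end Poly
end Singer
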