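import Pool.Agent.Singer.PolyStep2
import Pool.Agent.Singer.PolyFace

/-!
# Polytopes belong to the class `Cls`

`bd Φ`: the comparability graph of the proper nonempty faces, i.e. the barycentric subdivision of the boundary.
`cap (cmpG _) (Kf Φ h) (Nf h)`: the part of it where `h` is positive, closed by a cone point.
`claimA`: `bd Φ` is in the class.  `claimB`: the same for the caps, if `h` does not vanish at the vertices.
-/

set_option autoImplicit false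
set_option linter.unusedSectionVars false
set_option linter.unusedVariables false

namespace Singer
namespace Poly

universe u

open Classical

/-- the comparability graph of the proper nonempty faces -/
def bd {ι : Type u} [Fintype ι] (Φ : Submodule ℝ (ι → ℝ)) :
    SimpleGraph {F : Finset ι // Face Φ F ∧ F.Nonempty ∧ F ≠ Finset.univ} := (cmpG (Finset ι)).comap Subtype.val

/-- the proper faces which meet the positive side -/
noncomputable def Kf {ι : Type u} [Fintype ι] (Φ : Submodule ℝ (ι → ℝ)) (h : ι → ℝ) : Finset (Finset ι) :=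
  Finset.univ.filter fun F => Face Φ F ∧ F ≠ Finset.univ ∧ PosOn h F

/-- the sets which meet the negative side -/
noncomputable def Nf {ι : Type u} [Fintype ι] (h : ι → ℝ) : Finset (Finset ι) :=
  Finset.univ.filter fun F => NegOn h F

/-- boundaries of polytopes are in the class -/
def ClaimA (r : ℕ) : Prop := ∀ (ι : Type u) [Fintype ι] (Φ : Submodule ℝ (ι → ℝ)), Nonempty ι →
  (∃ φ ∈ Φ, ∀ i, 0 < φ i) → Module.finrank ℝ Φ = r + 1 → Cls r (bd Φ)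

/-- caps of polytopes are in the class -/
def ClaimB (r : ℕ) : Prop := ∀ (ι : Type u) [Fintype ι] (Φ : Submodule ℝ (ι → ℝ)) (h : ι → ℝ), h ∈ Φ →
  (∃ φ ∈ Φ, ∀ i, 0 < φ i) → Module.finrank ℝ Φ = r + 1 → (∃ i, 0 < h i) → (∃ j, h j < 0) →
  (∀ F, Atm Φ F → ∃ i ∈ F, h i ≠ 0) → Cls r (cap (cmpG (Finset ι)) (Kf Φ h) (Nf h))

variable {ι : Type u} [Fintype ι] {Φ : Submodule ℝ (ι → ℝ)}

lemma mem_Kf {h : ι → ℝ} {F : Finset ι} : F ∈ Kf Φ h ↔ Face Φ F ∧ F ≠ Finset.univ ∧ PosOn h F := by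
  rw [Kf, Finset.mem_filter]
  exact and_iff_right (Finset.mem_univ _)

lemma mem_Nf {h : ι → ℝ} {F : Finset ι} : F ∈ Nf h ↔ NegOn h F := by
  rw [Nf, Finset.mem_filter]
  exact and_iff_right (Finset.mem_univ _)

lemma PosOn.mono {h : ι → ℝ} {F F' : Finset ι} (hF : PosOn h F) (hs : F ⊆ F') : PosOn h F' := by
  obtain ⟨i, hi, h1⟩ := hF
  exact ⟨i, hs hi, h1⟩

lemma NegOn.mono {h : ι → ℝ} {F F' : Finset ι} (hF : NegOn h F) (hs : F ⊆ F') : NegOn h F' := by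
  obtain ⟨i, hi, h1⟩ := hF
  exact ⟨i, hs hi, h1⟩

lemma PosOn.nonempty {h : ι → ℝ} {F : Finset ι} (hF : PosOn h F) : F.Nonempty := by
  obtain ⟨i, hi, h1⟩ := hF
  exact ⟨i, hi⟩

lemma NegOn.nonempty {h : ι → ℝ} {F : Finset ι} (hF : NegOn h F) : F.Nonempty := by
  obtain ⟨i, hi, h1⟩ := hF
  exact ⟨i, hi⟩

lemma atm_sign {φ0 : ι → ℝ} (h0 : φ0 ∈ Φ) (hp : ∀ i, 0 < φ0 i) {F : Finset ι} (hF : Atm Φ F) {h : ι → ℝ}
    (hh : h ∈ Φ) (hne : ∃ i ∈ F, h i ≠ 0) : (∀ i ∈ F, 0 < h i) ∨ ∀ i ∈ F, h i < 0 := by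
  obtain ⟨ρ, hρ⟩ := atm_const h0 hp hF hh
  obtain ⟨j, hj, hj0⟩ := hne
  rcases lt_trichotomy 0 ρ with h1 | h1 | h1
  · left
    intro i hi
    rw [hρ i hi]
    exact mul_pos h1 (hp i)
  · exact absurd (by rw [hρ j hj, ← h1, zero_mul]) hj0
  · right
    intro i hi
    rw [hρ i hi]
    exact mul_neg_of_neg_of_pos h1 (hp i)

/-! ### The base -/

lemma finrank_one {φ0 : ι → ℝ} (h0 : φ0 ∈ Φ) (hne : φ0 ≠ 0) (hr : Module.finrank ℝ Φ = 1) {φ : ι → ℝ} (hφ : φ ∈ Φ) :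
    ∃ c : ℝ, φ = c • φ0 := by
  obtain ⟨c, hc⟩ := (finrank_eq_one_iff_of_nonzero' (⟨φ0, h0⟩ : Φ) (fun h => hne (congrArg Subtype.val h))).1 hr ⟨φ, hφ⟩
  exact ⟨c, (congrArg Subtype.val hc).symm⟩

theorem claimB_zero : ClaimB.{u} 0 := by
  intro ι _ Φ h hh hpt hr hpos hneg hgen
  obtain ⟨φ0, h0, hp⟩ := hpt
  obtain ⟨i, hi⟩ := hpos
  obtain ⟨j, hj⟩ := hneg
  obtain ⟨c, hc⟩ := finrank_one h0 (fun h => absurd (congrFun h i) (hp i).ne') hr hh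
  rw [hc] at hi hj
  simp only [Pi.smul_apply, smul_eq_mul] at hi hj
  have h1 : 0 < c := (mul_pos_iff_of_pos_right (hp i)).1 hi
  exact absurd (mul_pos h1 (hp j)) hj.not_gt

theorem claimA_zero : ClaimA.{u} 0 := by
  intro ι _ Φ hne hpt hr
  obtain ⟨φ0, h0, hp⟩ := hpt
  refine Cls.empty ⟨?_⟩ _
  rintro ⟨F, ⟨φ, hφ, hφ0, hφF⟩, ⟨i, hi⟩, h1⟩
  obtain ⟨c, hc⟩ := finrank_one h0 (fun h => absurd (congrFun h i) (hp i).ne') hr hφ
  have h2 := (hφF i).1 hi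
  rw [hc, Pi.smul_apply, smul_eq_mul] at h2
  have h3 : c = 0 := (mul_eq_zero.1 h2).resolve_right (hp i).ne'
  apply h1
  ext j
  refine iff_of_true ((hφF j).2 ?_) (Finset.mem_univ _)
  rw [hc, h3, zero_smul]
  rfl

/-! ### From caps to boundaries -/

theorem claimA_of_claimB {r : ℕ} (hB : ClaimB.{u} (r + 1)) : ClaimA.{u} (r + 1) := by
  intro ι _ Φ hne hpt hr
  obtain ⟨φ0, h0, hp⟩ := hpt
  obtain ⟨F0, hF0, -⟩ := exists_atm (Φ := Φ) face_univ (by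
    obtain ⟨i⟩ := hne
    exact ⟨i, Finset.mem_univ _⟩)
  have hF0u : F0 ≠ Finset.univ := by
    rintro rfl
    have h1 : Module.finrank ℝ Φ ≤ 1 := by
      refine finrank_le_one (⟨φ0, h0⟩ : Φ) ?_
      rintro ⟨φ, hφ⟩
      obtain ⟨ρ, hρ⟩ := atm_const h0 hp hF0 hφ
      refine ⟨ρ, Subtype.ext ?_⟩
      funext i
      exact (hρ i (Finset.mem_univ _)).symm
    omega
  obtain ⟨ψ, hψ, hψ0, hψF⟩ := hF0.1
  have hψp : ∀ i, i ∉ F0 → 0 < ψ i := fun i hi => lt_of_le_of_ne (hψ0 i) (fun h => hi ((hψF i).2 h.symm))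
  obtain ⟨ε, hε, h1⟩ := exists_small (Finset.univ.filter fun i => i ∉ F0) ψ (-φ0) (fun i hi =>
    hψp i (Finset.mem_filter.1 hi).2)
  set h : ι → ℝ := ψ + ε • (-φ0) with hhd
  have hv : ∀ i, h i = ψ i + ε * (-φ0) i := fun i => rfl
  have hh : h ∈ Φ := Φ.add_mem hψ (Φ.smul_mem _ (Φ.neg_mem h0))
  have hpo : ∀ i, i ∉ F0 → 0 < h i := fun i hi => h1 i (Finset.mem_filter.2 ⟨Finset.mem_univ _, hi⟩)
  have hne' : ∀ i ∈ F0, h i < 0 := fun i hi => by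
    rw [hv, (hψF i).1 hi, zero_add, Pi.neg_apply, mul_neg, neg_neg_iff_pos]
    exact mul_pos hε (hp i)
  have hnz : ∀ i, h i ≠ 0 := fun i => by
    by_cases hi : i ∈ F0
    · exact (hne' i hi).ne
    · exact (hpo i hi).ne'
  obtain ⟨i1, hi1⟩ : ∃ i, i ∉ F0 := by
    by_contra h2
    push Not at h2
    exact hF0u (Finset.eq_univ_iff_forall.2 h2)
  have key := hB ι Φ h hh ⟨φ0, h0, hp⟩ hr ⟨i1, hpo i1 hi1⟩ (by
    obtain ⟨j, hj⟩ := hF0.2.1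
    exact ⟨j, hne' j hj⟩) (fun F hF => by
    obtain ⟨j, hj⟩ := hF.2.1
    exact ⟨j, hj, hnz j⟩)
  have hKne : ∀ v : {v // v ∈ Kf Φ h}, v.1 ≠ F0 := by
    rintro ⟨v, hv'⟩ e
    obtain ⟨i, hi, hip⟩ := (mem_Kf.1 hv').2.2
    rw [show v = F0 from e] at hi
    exact absurd hip (hne' i hi).not_gt
  have hneg : ∀ v : {v // v ∈ Kf Φ h}, v.1 ∈ Nf h ↔ F0 < v.1 ∨ v.1 < F0 := by
    intro v
    rw [mem_Nf]
    constructor
    · rintro ⟨i, hi, hin⟩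
      have hiF : i ∈ F0 := by
        by_contra h2
        exact absurd hin (hpo i h2).not_gt
      exact Or.inl (lt_of_le_of_ne (atm_sub hF0 (mem_Kf.1 v.2).1 hiF hi) (fun e => hKne v e.symm))
    · rintro (h2 | h2)
      · obtain ⟨i, hi⟩ := hF0.2.1
        exact ⟨i, h2.le hi, hne' i hi⟩
      · exact absurd (hF0.2.2 _ (mem_Kf.1 v.2).1 (mem_Kf.1 v.2).2.2.nonempty h2.le) (hKne v)
  refine key.of_bij (fun x => match x with
    | none => ⟨F0, hF0.1, hF0.2.1, hF0u⟩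
    | some v => ⟨v.1, (mem_Kf.1 v.2).1, (mem_Kf.1 v.2).2.2.nonempty, (mem_Kf.1 v.2).2.1⟩) ⟨?_, ?_⟩ ?_
  · rintro (_ | x) (_ | y) hxy
    · rfl
    · exact absurd (congrArg Subtype.val hxy).symm (hKne y)
    · exact absurd (congrArg Subtype.val hxy) (hKne x)
    · have h2 := congrArg Subtype.val hxy
      exact congrArg some (Subtype.ext h2)
  · rintro ⟨F, hF, hFn, hFu⟩
    by_cases hFF : F = F0
    · subst hFF
      exact ⟨none, rfl⟩
    · have h2 : F ∈ Kf Φ h := by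
        rw [mem_Kf]
        refine ⟨hF, hFu, ?_⟩
        by_contra h3
        apply hFF
        refine hF0.2.2 F hF hFn fun i hi => ?_
        by_contra h4
        exact h3 ⟨i, hi, hpo i h4⟩
      exact ⟨some ⟨F, h2⟩, rfl⟩
  · rintro (_ | x) (_ | y)
    · exact iff_of_false (fun h => h.elim (lt_irrefl _) (lt_irrefl _)) (fun h => h)
    · exact (hneg y).symm
    · exact Or.comm.trans (hneg x).symm
    · exact Iff.rfl

/-! ### The basic situation -/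

/-- `F0` is a vertex, `h` is positive and `h'` vanishes on it; the other vertices are positive for `h'` or negative
for `h`. -/
structure Dat (Φ : Submodule ℝ (ι → ℝ)) (φ0 h h' : ι → ℝ) (F0 : Finset ι) : Prop where
  h0 : φ0 ∈ Φ
  hp : ∀ i, 0 < φ0 i
  hh : h ∈ Φ
  hh' : h' ∈ Φ
  at0 : Atm Φ F0
  pos0 : ∀ i ∈ F0, 0 < h i
  zero0 : ∀ i ∈ F0, h' i = 0
  lt : ∀ i, h' i < h i
  alt : ∀ F, Atm Φ F → F ≠ F0 → (∀ i ∈ F, 0 < h' i) ∨ ∀ i ∈ F, h i < 0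
  expos : ∃ i, 0 < h' i
  exneg : ∃ j, h j < 0

section dat
variable {φ0 h h' : ι → ℝ} {F0 : Finset ι}

lemma Dat.exneg' (D : Dat Φ φ0 h h' F0) : ∃ j, h' j < 0 := by
  obtain ⟨j, hj⟩ := D.exneg
  exact ⟨j, (D.lt j).trans hj⟩

lemma Dat.neg_iff (D : Dat Φ φ0 h h' F0) {F : Finset ι} (hF : Face Φ F) : NegOn h' F ↔ NegOn h F := by
  constructor
  · intro h1
    obtain ⟨F1, h2, h3, h4⟩ := neg_atm D.h0 D.hp hF D.hh' h1
    obtain ⟨i, hi⟩ := h2.2.1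
    have h5 : F1 ≠ F0 := by
      rintro rfl
      exact absurd (D.zero0 i hi) (h4 i hi).ne
    rcases D.alt F1 h2 h5 with h6 | h6
    · exact absurd (h6 i hi) (h4 i hi).not_gt
    · exact ⟨i, h3 hi, h6 i hi⟩
  · rintro ⟨i, hi, h1⟩
    exact ⟨i, hi, (D.lt i).trans h1⟩

lemma Dat.pos_of (D : Dat Φ φ0 h h' F0) {F : Finset ι} (hF : PosOn h' F) : PosOn h F := by
  obtain ⟨i, hi, h1⟩ := hF
  exact ⟨i, hi, h1.trans (D.lt i)⟩

lemma Dat.not_lt (D : Dat Φ φ0 h h' F0) {F : Finset ι} (hF : Face Φ F) (hne : F.Nonempty) : ¬ F < F0 :=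
  fun h1 => h1.ne (D.at0.2.2 F hF hne h1.le)

lemma Dat.not_univ (D : Dat Φ φ0 h h' F0) : F0 ≠ Finset.univ := by
  rintro rfl
  obtain ⟨j, hj⟩ := D.exneg
  exact absurd (D.pos0 j (Finset.mem_univ _)) hj.not_gt

lemma Dat.not_pos (D : Dat Φ φ0 h h' F0) : ¬ PosOn h' F0 := by
  rintro ⟨i, hi, h1⟩
  exact absurd (D.zero0 i hi) h1.ne'

lemma Dat.not_neg (D : Dat Φ φ0 h h' F0) : ¬ NegOn h F0 := by
  rintro ⟨i, hi, h1⟩
  exact absurd (D.pos0 i hi) h1.not_gt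

/-- a face which contains `F0` strictly has another vertex -/
lemma Dat.other (D : Dat Φ φ0 h h' F0) {F : Finset ι} (hF : Face Φ F) (hs : F0 < F) :
    ∃ i ∈ F, i ∉ F0 ∧ h' i ≠ 0 ∧ (¬ PosOn h' F → h i < 0) := by
  obtain ⟨F1, h1, h2, h3⟩ := other_atm D.h0 D.hp hF D.at0 hs
  obtain ⟨i, hi⟩ := h1.2.1
  refine ⟨i, h2 hi, fun h4 => h3 (atm_eq h1 D.at0 hi h4), ?_, ?_⟩
  · rcases D.alt F1 h1 h3 with h5 | h5
    · exact (h5 i hi).ne'
    · exact ((D.lt i).trans (h5 i hi)).ne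
  · intro h4
    rcases D.alt F1 h1 h3 with h5 | h5
    · exact absurd ⟨i, h2 hi, h5 i hi⟩ h4
    · exact h5 i hi

lemma Dat.neg_of_not_pos (D : Dat Φ φ0 h h' F0) {F : Finset ι} (hF : Face Φ F) (hs : F0 < F) (hn : ¬ PosOn h' F) :
    NegOn h F := by
  obtain ⟨i, hi, -, -, h1⟩ := D.other hF hs
  exact ⟨i, hi, h1 hn⟩

/-- a face on which `h` is positive contains `F0`, or `h'` is positive on it -/
lemma Dat.pos_or (D : Dat Φ φ0 h h' F0) {F : Finset ι} (hF : Face Φ F) (hP : PosOn h F) : F0 ≤ F ∨ PosOn h' F := by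
  obtain ⟨F1, h1, h2, h3⟩ := pos_atm D.h0 D.hp hF D.hh hP
  by_cases h4 : F1 = F0
  · subst h4
    exact Or.inl h2
  · obtain ⟨i, hi⟩ := h1.2.1
    rcases D.alt F1 h1 h4 with h5 | h5
    · exact Or.inr ⟨i, h2 hi, h5 i hi⟩
    · exact absurd (h3 i hi) (h5 i hi).not_gt

/-- the faces on the positive side of `h'`, which are on the negative side and contain `F0` -/
noncomputable def Ef (Φ : Submodule ℝ (ι → ℝ)) (h h' : ι → ℝ) (F0 : Finset ι) : Finset (Finset ι) :=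
  Finset.univ.filter fun F => F ∈ Kf Φ h' ∧ F0 < F ∧ NegOn h F

/-- the faces which contain `F0` and are not on the positive side of `h'` -/
noncomputable def Rf (Φ : Submodule ℝ (ι → ℝ)) (h' : ι → ℝ) (F0 : Finset ι) : Finset (Finset ι) :=
  Finset.univ.filter fun F => Face Φ F ∧ F ≠ Finset.univ ∧ F0 < F ∧ ¬ PosOn h' F

lemma mem_Ef {F : Finset ι} : F ∈ Ef Φ h h' F0 ↔ F ∈ Kf Φ h' ∧ F0 < F ∧ NegOn h F := by
  rw [Ef, Finset.mem_filter]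
  exact and_iff_right (Finset.mem_univ _)

lemma mem_Rf {F : Finset ι} : F ∈ Rf Φ h' F0 ↔ Face Φ F ∧ F ≠ Finset.univ ∧ F0 < F ∧ ¬ PosOn h' F := by
  rw [Rf, Finset.mem_filter]
  exact and_iff_right (Finset.mem_univ _)

/-- the vertex figure, positive side -/
lemma Dat.h2 (D : Dat Φ φ0 h h' F0) {r : ℕ} (hB : ClaimB.{u} r) (hr : Module.finrank ℝ Φ = r + 1 + 1) :
    Cls r (cap (cmpG (Finset ι)) ((Kf Φ h').filter fun v => (cmpG (Finset ι)).Adj F0 v) (Ef Φ h h' F0)) := by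
  have h1 := finrank_ctr D.h0 D.hp D.at0
  have key := hB {i // i ∉ F0} (ctr Φ F0) (fun i => h' i.1) (mem_ctr D.hh' D.zero0) (ctr_pointed D.at0.1)
    (by omega) (by
      obtain ⟨i, hi⟩ := D.expos
      exact ⟨⟨i, fun h2 => absurd (D.zero0 i h2) hi.ne'⟩, hi⟩) (by
      obtain ⟨i, hi⟩ := D.exneg'
      exact ⟨⟨i, fun h2 => absurd (D.zero0 i h2) hi.ne⟩, hi⟩) (fun F hF => by
      obtain ⟨i, hi, hi0, hi1, -⟩ := D.other (face_lft.1 hF.1) (lft_nonempty.2 hF.2.1)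
      exact ⟨⟨i, hi0⟩, (mem_lft' ⟨i, hi0⟩).1 hi, hi1⟩)
  refine key.cap_map (lft F0) (fun u _ v _ h => lft_inj h) ?_ ?_ (fun u _ v _ => ?_) ?_
  · intro u hu
    rw [mem_Kf] at hu
    rw [Finset.mem_filter, mem_Kf]
    exact ⟨⟨face_lft.1 hu.1, fun h2 => hu.2.1 (lft_eq_univ.1 h2), (posOn_lft D.zero0).1 hu.2.2⟩,
      Or.inl (lft_nonempty.2 hu.2.2.nonempty)⟩
  · intro w hw
    rw [Finset.mem_filter, mem_Kf] at hw
    obtain ⟨⟨h2, h3, h4⟩, h5⟩ := hw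
    have h6 : F0 < w := h5.resolve_right (D.not_lt h2 h4.nonempty)
    obtain ⟨F', rfl⟩ := lft_surj h6.le
    refine ⟨F', mem_Kf.2 ⟨face_lft.2 h2, fun h7 => h3 (lft_eq_univ.2 h7), (posOn_lft D.zero0).2 h4⟩, rfl⟩
  · exact or_congr lft_lt lft_lt
  · intro u hu
    rw [mem_Kf] at hu
    rw [mem_Ef, mem_Kf, mem_Nf, negOn_lft D.zero0, D.neg_iff (face_lft.1 hu.1)]
    constructor
    · exact fun h2 => h2.2.2
    · intro h2
      exact ⟨⟨face_lft.1 hu.1, fun h2 => hu.2.1 (lft_eq_univ.1 h2), (posOn_lft D.zero0).1 hu.2.2⟩,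
        lft_nonempty.2 hu.2.2.nonempty, h2⟩

/-- the vertex figure, negative side -/
lemma Dat.h4 (D : Dat Φ φ0 h h' F0) {r : ℕ} (hB : ClaimB.{u} r) (hr : Module.finrank ℝ Φ = r + 1 + 1) :
    Cls r (cap (cmpG (Finset ι)) (Rf Φ h' F0 ∪ Ef Φ h h' F0) (Ef Φ h h' F0)) := by
  have h1 := finrank_ctr D.h0 D.hp D.at0
  have hpn : ∀ F : Finset {i // i ∉ F0}, PosOn (fun i : {i // i ∉ F0} => (-h') i.1) F ↔
      NegOn (fun i : {i // i ∉ F0} => h' i.1) F := fun F => by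
    simp only [PosOn, NegOn, Pi.neg_apply, Left.neg_pos_iff]
  have hnp : ∀ F : Finset {i // i ∉ F0}, NegOn (fun i : {i // i ∉ F0} => (-h') i.1) F ↔
      PosOn (fun i : {i // i ∉ F0} => h' i.1) F := fun F => by
    simp only [PosOn, NegOn, Pi.neg_apply, Left.neg_neg_iff]
  have key := hB {i // i ∉ F0} (ctr Φ F0) (fun i => (-h') i.1) (mem_ctr (Φ.neg_mem D.hh') fun i hi => by
    rw [Pi.neg_apply, D.zero0 i hi, neg_zero]) (ctr_pointed D.at0.1) (by omega) (by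
      obtain ⟨i, hi⟩ := D.exneg'
      exact ⟨⟨i, fun h2 => absurd (D.zero0 i h2) hi.ne⟩, neg_pos.2 hi⟩) (by
      obtain ⟨i, hi⟩ := D.expos
      exact ⟨⟨i, fun h2 => absurd (D.zero0 i h2) hi.ne'⟩, neg_neg_iff_pos.2 hi⟩) (fun F hF => by
      obtain ⟨i, hi, hi0, hi1, -⟩ := D.other (face_lft.1 hF.1) (lft_nonempty.2 hF.2.1)
      exact ⟨⟨i, hi0⟩, (mem_lft' ⟨i, hi0⟩).1 hi, neg_ne_zero.2 hi1⟩)
  have hmem : ∀ u : Finset {i // i ∉ F0}, Face (ctr Φ F0) u → u ≠ Finset.univ → u.Nonempty →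
      NegOn h (lft F0 u) → lft F0 u ∈ Rf Φ h' F0 ∪ Ef Φ h h' F0 := by
    intro u h2 h3 h4 h5
    have h6 : lft F0 u ≠ Finset.univ := fun h7 => h3 (lft_eq_univ.1 h7)
    have h7 : F0 < lft F0 u := lft_nonempty.2 h4
    rw [Finset.mem_union, mem_Rf, mem_Ef, mem_Kf]
    by_cases h8 : PosOn h' (lft F0 u)
    · exact Or.inr ⟨⟨face_lft.1 h2, h6, h8⟩, h7, h5⟩
    · exact Or.inl ⟨face_lft.1 h2, h6, h7, h8⟩
  refine key.cap_map (lft F0) (fun u _ v _ h => lft_inj h) ?_ ?_ (fun u _ v _ => ?_) ?_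
  · intro u hu
    have hu1 := (mem_Kf.1 hu).1
    rw [mem_Kf, hpn, negOn_lft D.zero0, D.neg_iff (face_lft.1 hu1)] at hu
    refine hmem u hu.1 hu.2.1 (lft_nonempty.1 (lt_of_le_of_ne (sub_lft u) fun e => ?_)) hu.2.2
    rw [← e] at hu
    exact D.not_neg hu.2.2
  · intro w hw
    have h2 : Face Φ w ∧ w ≠ Finset.univ ∧ F0 < w ∧ NegOn h w := by
      rw [Finset.mem_union, mem_Rf, mem_Ef, mem_Kf] at hw
      rcases hw with hw | hw
      · exact ⟨hw.1, hw.2.1, hw.2.2.1, D.neg_of_not_pos hw.1 hw.2.2.1 hw.2.2.2⟩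
      · exact ⟨hw.1.1, hw.1.2.1, hw.2.1, hw.2.2⟩
    obtain ⟨h3, h4, h5, h6⟩ := h2
    obtain ⟨F', rfl⟩ := lft_surj h5.le
    refine ⟨F', mem_Kf.2 ⟨face_lft.2 h3, fun h7 => h4 (lft_eq_univ.2 h7), ?_⟩, rfl⟩
    rw [hpn, negOn_lft D.zero0, D.neg_iff h3]
    exact h6
  · exact or_congr lft_lt lft_lt
  · intro u hu
    have hu1 := (mem_Kf.1 hu).1
    rw [mem_Kf, hpn, negOn_lft D.zero0, D.neg_iff (face_lft.1 hu1)] at hu
    rw [mem_Ef, mem_Kf, mem_Nf, hnp, posOn_lft D.zero0]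
    constructor
    · exact fun h2 => h2.1.2.2
    · intro h2
      refine ⟨⟨face_lft.1 hu.1, fun h3 => hu.2.1 (lft_eq_univ.1 h3), h2⟩, ?_, hu.2.2⟩
      refine lt_of_le_of_ne (sub_lft u) fun e => ?_
      rw [← e] at h2
      exact D.not_pos h2

/-- the section -/
lemma Dat.h3 (D : Dat Φ φ0 h h' F0) {r : ℕ} (hA : ClaimA.{u} r) (hr : Module.finrank ℝ Φ = r + 1 + 1) :
    Cls r (cap (cmpG (Finset ι)) ((Kf Φ h').filter fun v => v ∈ Nf h) (Ef Φ h h' F0)) := by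
  have h1 := finrank_sec D.hh' D.expos D.exneg'
  have key := hA (SecI h') (Φ.map (secL h')) (by
    obtain ⟨i, hi⟩ := D.expos
    obtain ⟨j, hj⟩ := D.exneg'
    exact ⟨Sum.inl (⟨i, hi⟩, ⟨j, hj⟩)⟩) (sec_pointed D.h0 D.hp) (by omega)
  have hS0 : Scd h' F0 := Or.inr D.zero0
  have hv : ∀ v : {v // v ∈ (Kf Φ h').filter fun v => v ∈ Nf h}, Face Φ v.1 ∧ v.1 ≠ Finset.univ ∧ PosOn h' v.1 ∧
      NegOn h v.1 := by
    rintro ⟨v, hv⟩
    rw [Finset.mem_filter, mem_Kf, mem_Nf] at hv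
    exact ⟨hv.1.1, hv.1.2.1, hv.1.2.2, hv.2⟩
  have hS : ∀ v : {v // v ∈ (Kf Φ h').filter fun v => v ∈ Nf h}, Scd h' v.1 := fun v =>
    Or.inl ⟨(hv v).2.2.1, (D.neg_iff (hv v).1).2 (hv v).2.2.2⟩
  have hne0 : ∀ v : {v // v ∈ (Kf Φ h').filter fun v => v ∈ Nf h}, v.1 ≠ F0 := fun v e =>
    D.not_pos (e ▸ (hv v).2.2.1)
  have hE : ∀ v : {v // v ∈ (Kf Φ h').filter fun v => v ∈ Nf h}, v.1 ∈ Ef Φ h h' F0 ↔
      (F0 < v.1 ∨ v.1 < F0) := fun v => by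
    rw [mem_Ef, mem_Kf]
    constructor
    · exact fun h2 => Or.inl h2.2.1
    · intro h2
      exact ⟨⟨(hv v).1, (hv v).2.1, (hv v).2.2.1⟩, h2.resolve_right (D.not_lt (hv v).1 (hv v).2.2.1.nonempty),
        (hv v).2.2.2⟩
  refine key.of_bij' (fun x => match x with
    | none => ⟨secF h' F0, face_secF D.at0.1, secF_nonempty hS0 D.at0.2.1,
        fun e => D.not_univ ((secF_eq_univ D.expos D.exneg').1 e)⟩
    | some v => ⟨secF h' v.1, face_secF (hv v).1, secF_nonempty (hS v) (hv v).2.2.1.nonempty,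
        fun e => (hv v).2.1 ((secF_eq_univ D.expos D.exneg').1 e)⟩) ⟨?_, ?_⟩ ?_
  · rintro (_ | x) (_ | y) hxy
    · rfl
    · exact absurd (secF_inj hS0 (hS y) (congrArg Subtype.val hxy)).symm (hne0 y)
    · exact absurd (secF_inj (hS x) hS0 (congrArg Subtype.val hxy)) (hne0 x)
    · rw [Subtype.ext (secF_inj (hS x) (hS y) (congrArg Subtype.val hxy))]
  · rintro ⟨F', hF', hFn, hFu⟩
    obtain ⟨F, h2, h3, h4, rfl⟩ := secF_surj D.hh' D.expos hF' hFn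
    have hFu' : F ≠ Finset.univ := fun e => hFu ((secF_eq_univ D.expos D.exneg').2 e)
    rcases h4 with h4 | h4
    · refine ⟨some ⟨F, ?_⟩, rfl⟩
      rw [Finset.mem_filter, mem_Kf, mem_Nf]
      exact ⟨⟨h2, hFu', h4.1⟩, (D.neg_iff h2).1 h4.2⟩
    · have h5 : F = F0 := by
        by_contra h5
        obtain ⟨F1, h6, h7⟩ := exists_atm h2 h3
        have h8 : F1 = F0 := by
          by_contra h8
          obtain ⟨i, hi⟩ := h6.2.1
          rcases D.alt F1 h6 h8 with h9 | h9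
          · exact absurd (h4 i (h7 hi)) (h9 i hi).ne'
          · exact absurd (h4 i (h7 hi)) ((D.lt i).trans (h9 i hi)).ne
        subst h8
        obtain ⟨i, hi, -, h9, -⟩ := D.other h2 (lt_of_le_of_ne h7 fun e => h5 e.symm)
        exact h9 (h4 i hi)
      subst h5
      exact ⟨none, rfl⟩
  · rintro (_ | x) (_ | y)
    · exact iff_of_false (fun h => h.elim (lt_irrefl _) (lt_irrefl _)) (fun h => h)
    · refine Iff.trans ?_ (hE y).symm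
      exact or_congr (secF_lt hS0 (hS y)) (secF_lt (hS y) hS0)
    · refine Iff.trans ?_ (hE x).symm
      exact (or_congr (secF_lt (hS x) hS0) (secF_lt hS0 (hS x))).trans Or.comm
    · exact or_congr (secF_lt (hS x) (hS y)) (secF_lt (hS y) (hS x))

/-- `Cls.step'` with sets given by their elements -/
theorem _root_.Singer.Cls.stepm {n : ℕ} {V : Type u} {G : SimpleGraph V} {K B A E R A1 A2 A3 A4 : Finset V} {p : V}
    (hA1 : ∀ v, v ∈ A1 ↔ v ∈ A ∧ (G.Adj p v ∨ v ∈ B)) (hA2 : ∀ v, v ∈ A2 ↔ v ∈ A ∧ G.Adj p v)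
    (hA3 : ∀ v, v ∈ A3 ↔ v ∈ A ∧ v ∈ B) (hA4 : ∀ v, v ∈ A4 ↔ v ∈ R ∨ v ∈ E)
    (hpB : p ∉ B) (hK : ∀ v, v ∈ K ↔ v = p ∨ v ∈ A ∨ v ∈ R)
    (hpA : p ∉ A) (hpR : p ∉ R) (hAR : ∀ v ∈ A, v ∉ R)
    (hE : ∀ v, v ∈ E ↔ v ∈ A ∧ G.Adj p v ∧ v ∈ B)
    (hRp : ∀ v ∈ R, G.Adj p v ∧ v ∈ B) (hRA : ∀ u ∈ R, ∀ v ∈ A, G.Adj u v → v ∈ E)
    (hno : ∀ u ∈ A, G.Adj p u → ∀ v ∈ A, v ∈ B → G.Adj u v → u ∈ B ∨ G.Adj p v)
    (h1 : Cls (n + 1) (cap G A A1)) (h2 : Cls n (cap G A2 E)) (h3 : Cls n (cap G A3 E))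
    (h4 : Cls n (cap G A4 E)) : Cls (n + 1) (cap G K B) := by
  have e1 : A1 = A.filter fun v => G.Adj p v ∨ v ∈ B := Finset.ext fun v => by rw [hA1, Finset.mem_filter]
  have e2 : A2 = A.filter fun v => G.Adj p v := Finset.ext fun v => by rw [hA2, Finset.mem_filter]
  have e3 : A3 = A.filter fun v => v ∈ B := Finset.ext fun v => by rw [hA3, Finset.mem_filter]
  have e4 : A4 = R ∪ E := Finset.ext fun v => by rw [hA4, Finset.mem_union]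
  subst e1 e2 e3 e4
  exact Cls.step' hpB hK hpA hpR hAR hE hRp hRA hno h1 h2 h3 h4

/-- **the inductive step** -/
lemma Dat.step (D : Dat Φ φ0 h h' F0) {r : ℕ} (hA : ClaimA.{u} r) (hB : ClaimB.{u} r)
    (hr : Module.finrank ℝ Φ = r + 1 + 1)
    (h1 : Cls (r + 1) (cap (cmpG (Finset ι)) (Kf Φ h')
      ((Kf Φ h').filter fun v => (cmpG (Finset ι)).Adj F0 v ∨ v ∈ Nf h))) :
    Cls (r + 1) (cap (cmpG (Finset ι)) (Kf Φ h) (Nf h)) := by
  refine Cls.stepm (n := r) (p := F0) (A := Kf Φ h') (R := Rf Φ h' F0) (E := Ef Φ h h' F0)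
    (fun v => by rw [Finset.mem_filter]) (fun v => by rw [Finset.mem_filter]) (fun v => by rw [Finset.mem_filter])
    (fun v => by rw [Finset.mem_union]) ?_ ?_ ?_ ?_ ?_ ?_ ?_ ?_ ?_ h1 (D.h2 hB hr) (D.h3 hA hr) (D.h4 hB hr)
  · exact fun h2 => D.not_neg (mem_Nf.1 h2)
  · intro v
    rw [mem_Kf, mem_Kf, mem_Rf]
    constructor
    · rintro ⟨h2, h3, h4⟩
      by_cases h5 : PosOn h' v
      · exact Or.inr (Or.inl ⟨h2, h3, h5⟩)
      · have h6 := (D.pos_or h2 h4).resolve_right h5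
        rcases h6.eq_or_lt with h7 | h7
        · exact Or.inl h7.symm
        · exact Or.inr (Or.inr ⟨h2, h3, h7, h5⟩)
    · rintro (h2 | h2 | h2)
      · subst h2
        obtain ⟨i, hi⟩ := D.at0.2.1
        exact ⟨D.at0.1, D.not_univ, ⟨i, hi, D.pos0 i hi⟩⟩
      · exact ⟨h2.1, h2.2.1, D.pos_of h2.2.2⟩
      · obtain ⟨i, hi⟩ := D.at0.2.1
        exact ⟨h2.1, h2.2.1, ⟨i, h2.2.2.1.le hi, D.pos0 i hi⟩⟩
  · exact fun h2 => D.not_pos (mem_Kf.1 h2).2.2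
  · exact fun h2 => lt_irrefl _ (mem_Rf.1 h2).2.2.1
  · exact fun v hv h2 => (mem_Rf.1 h2).2.2.2 (mem_Kf.1 hv).2.2
  · intro v
    rw [mem_Ef, mem_Nf]
    constructor
    · exact fun h2 => ⟨h2.1, Or.inl h2.2.1, h2.2.2⟩
    · rintro ⟨h2, h3, h4⟩
      exact ⟨h2, h3.resolve_right (D.not_lt (mem_Kf.1 h2).1 (mem_Kf.1 h2).2.2.nonempty), h4⟩
  · intro v hv
    rw [mem_Rf] at hv
    exact ⟨Or.inl hv.2.2.1, mem_Nf.2 (D.neg_of_not_pos hv.1 hv.2.2.1 hv.2.2.2)⟩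
  · intro u hu v hv huv
    rw [mem_Rf] at hu
    have hv' := mem_Kf.1 hv
    rcases huv with h2 | h2
    · exact mem_Ef.2 ⟨hv, hu.2.2.1.trans h2, (D.neg_of_not_pos hu.1 hu.2.2.1 hu.2.2.2).mono h2.le⟩
    · exact absurd (hv'.2.2.mono h2.le) hu.2.2.2
  · intro u hu hpu v hv hqv huv
    have hpu' : F0 < u := hpu.resolve_right (D.not_lt (mem_Kf.1 hu).1 (mem_Kf.1 hu).2.2.nonempty)
    rcases huv with h2 | h2
    · exact Or.inr (Or.inl (hpu'.trans h2))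
    · exact Or.inl (mem_Nf.2 ((mem_Nf.1 hqv).mono h2.le))

end dat

end Poly
end Singer
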