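import Pool.Agent.Singer.Defs

/-!
# A composite operation of the class `Cls`

`Cls.step`: the graph `G` has two vertices `p`, `q` which are not adjacent; `A` and `R` are the other vertices,
`E` the common neighbours of `p` and `q` in `A`; all vertices of `R` are joined to `p` and `q`, and to no vertex
of `A \ E`.  `G` is obtained from `cap G A (N(p) ∪ N(q))` by splitting the cone point into `p` and `q`,
subdividing the edge `pq` and glueing the suspension of `cap G (R ∪ E) E` at the new vertex.
-/

set_option autoImplicit false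
set_option linter.unusedSectionVars false

namespace Singer

universe u

/-- invariance of the class under bijections -/
theorem Cls.of_bij {n : ℕ} {V W : Type u} {G : SimpleGraph V} {H : SimpleGraph W} (hG : Cls n G) (f : V → W)
    (hf : Function.Bijective f) (h : ∀ u v, H.Adj (f u) (f v) ↔ G.Adj u v) : Cls n H :=
  hG.iso ⟨Equiv.ofBijective f hf, fun {u v} => h u v⟩

/-- invariance of the class under equality -/
theorem Cls.of_eq {n : ℕ} {V : Type u} {G H : SimpleGraph V} (hG : Cls n G) (h : ∀ u v, H.Adj u v ↔ G.Adj u v) :
    Cls n H := by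
  have e : H = G := by
    ext u v
    exact h u v
  rw [e]
  exact hG

section
variable {V : Type u} (G : SimpleGraph V) (p q : V) (C : Finset V)

/-- the full subgraph on `C` with the additional edge `pq` -/
def addE (hpq : p ≠ q) : SimpleGraph {v // v ∈ C} where
  Adj u v := G.Adj u v ∨ ((u : V) = p ∧ (v : V) = q) ∨ ((u : V) = q ∧ (v : V) = p)
  symm := ⟨by
    rintro u v (h | h | h)
    · exact Or.inl h.symm
    · exact Or.inr (Or.inr ⟨h.2, h.1⟩)
    · exact Or.inr (Or.inl ⟨h.2, h.1⟩)⟩
  loopless := ⟨by
    rintro u (h | h | h)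
    · exact G.loopless.1 _ h
    · exact hpq (h.1.symm.trans h.2)
    · exact hpq (h.2.symm.trans h.1)⟩

end

open Classical in
/-- **the composite operation** -/
theorem Cls.step {n : ℕ} {V : Type u} {G : SimpleGraph V} {p q : V} {A E R : Finset V}
    (hpq : p ≠ q) (hnp : ¬ G.Adj p q) (hcov : ∀ v, v = p ∨ v = q ∨ v ∈ A ∨ v ∈ R)
    (hpA : p ∉ A) (hqA : q ∉ A) (hpR : p ∉ R) (hqR : q ∉ R) (hAR : ∀ v ∈ A, v ∉ R)
    (hE : ∀ v, v ∈ E ↔ v ∈ A ∧ G.Adj p v ∧ G.Adj q v)
    (hRp : ∀ v ∈ R, G.Adj p v ∧ G.Adj q v) (hRA : ∀ u ∈ R, ∀ v ∈ A, G.Adj u v → v ∈ E)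
    (hno : ∀ u ∈ A, G.Adj p u → ∀ v ∈ A, G.Adj q v → G.Adj u v → G.Adj q u ∨ G.Adj p v)
    (h1 : Cls (n + 1) (cap G A (A.filter fun v => G.Adj p v ∨ G.Adj q v)))
    (h2 : Cls n (cap G (A.filter fun v => G.Adj p v) E))
    (h3 : Cls n (cap G (A.filter fun v => G.Adj q v) E))
    (h4 : Cls n (cap G (R ∪ E) E)) : Cls (n + 1) G := by
  have hEA : ∀ v ∈ E, v ∈ A := fun v hv => ((hE v).1 hv).1
  have hEp : ∀ v ∈ E, G.Adj p v := fun v hv => ((hE v).1 hv).2.1
  have hEq : ∀ v ∈ E, G.Adj q v := fun v hv => ((hE v).1 hv).2.2
  set C : Finset V := insert p (insert q A) with hC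
  have hpC : p ∈ C := by rw [hC]; exact Finset.mem_insert_self _ _
  have hqC : q ∈ C := by rw [hC]; exact Finset.mem_insert_of_mem (Finset.mem_insert_self _ _)
  have hAC : ∀ v ∈ A, v ∈ C := fun v hv => by
    rw [hC]; exact Finset.mem_insert_of_mem (Finset.mem_insert_of_mem hv)
  have hCm : ∀ v ∈ C, v = p ∨ v = q ∨ v ∈ A := fun v hv => by
    rw [hC, Finset.mem_insert, Finset.mem_insert] at hv
    exact hv
  -- the graph with the edge `pq`
  have hG1 : Cls (n + 1) (addE G p q C hpq) := by
    refine Cls.split (p := ⟨p, hpC⟩) (q := ⟨q, hqC⟩)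
      (K := Finset.univ.filter fun v : {v // v ∈ C} => (v : V) ∈ A)
      (B := Finset.univ.filter fun v : {v // v ∈ C} => (v : V) ∈ A ∧ (G.Adj p v ∨ G.Adj q v))
      (Or.inr (Or.inl ⟨rfl, rfl⟩)) ?_ ?_ ?_ ?_ ?_ ?_
    · rintro ⟨v, hv⟩
      rw [Finset.mem_filter]
      simp only [Finset.mem_univ, true_and, ne_eq, Subtype.mk.injEq]
      constructor
      · intro h
        exact ⟨fun e => hpA (e ▸ h), fun e => hqA (e ▸ h)⟩
      · rintro ⟨ha, hb⟩
        rcases hCm v hv with h | h | h
        · exact absurd h ha
        · exact absurd h hb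
        · exact h
    · rintro ⟨v, hv⟩
      show _ ↔ _ ∈ Finset.univ.filter _ ∧ ((G.Adj p v ∨ (p = p ∧ v = q) ∨ (p = q ∧ v = p)) ∨
        (G.Adj q v ∨ (q = p ∧ v = q) ∨ (q = q ∧ v = p)))
      rw [Finset.mem_filter, Finset.mem_filter]
      simp only [Finset.mem_univ, true_and]
      constructor
      · rintro ⟨ha, hb⟩
        refine ⟨ha, ?_⟩
        rcases hb with hb | hb
        · exact Or.inl (Or.inl hb)
        · exact Or.inr (Or.inl hb)
      · rintro ⟨ha, hb⟩
        refine ⟨ha, ?_⟩
        have hvq : v ≠ q := fun e => hqA (e ▸ ha)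
        have hvp : v ≠ p := fun e => hpA (e ▸ ha)
        rcases hb with (hb | hb) | (hb | hb)
        · exact Or.inl hb
        · rcases hb with hb | hb
          · exact absurd hb hvq
          · exact absurd hb.2 hvp
        · exact Or.inr hb
        · rcases hb with hb | hb
          · exact absurd hb.2 hvq
          · exact absurd hb hvp
    · rintro ⟨x, hx⟩ ⟨y, hy⟩ h5 h6 h7
      simp only [addE, Subtype.mk.injEq] at h5 h6 h7 ⊢
      rcases hCm x hx with rfl | rfl | hxA
      · rcases h5 with h5 | h5 | h5
        · exact absurd h5 (G.loopless.1 _)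
        · exact absurd h5.2 hpq
        · exact absurd h5.1 hpq
      · exact Or.inl rfl
      · rcases hCm y hy with rfl | rfl | hyA
        · exact Or.inr (Or.inl rfl)
        · rcases h7 with h7 | h7 | h7
          · exact absurd h7 (G.loopless.1 _)
          · exact absurd h7.1.symm hpq
          · exact absurd h7.2.symm hpq
        · have h5' : G.Adj p x := by
            rcases h5 with h5 | h5 | h5
            · exact h5
            · exact absurd (h5.2 ▸ hxA) hqA
            · exact absurd (h5.2 ▸ hxA) hpA
          have h6' : G.Adj x y := by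
            rcases h6 with h6 | h6 | h6
            · exact h6
            · exact absurd (h6.1 ▸ hxA) hpA
            · exact absurd (h6.1 ▸ hxA) hqA
          have h7' : G.Adj q y := by
            rcases h7 with h7 | h7 | h7
            · exact h7.symm
            · exact absurd (h7.1 ▸ hyA) hpA
            · exact absurd (h7.1 ▸ hyA) hqA
          rcases hno x hxA h5' y hyA h7' h6' with h | h
          · exact Or.inr (Or.inr (Or.inl (Or.inl h)))
          · exact Or.inr (Or.inr (Or.inr (Or.inl h)))
    · refine h1.of_bij (fun x => x.map fun v => ⟨⟨v.1, hAC _ v.2⟩, by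
        rw [Finset.mem_filter]
        exact ⟨Finset.mem_univ _, v.2⟩⟩) ⟨?_, ?_⟩ ?_
      · intro x y hxy
        rcases x with _ | x <;> rcases y with _ | y
        · rfl
        · exact absurd hxy (by simp)
        · exact absurd hxy (by simp)
        · simp only [Option.map_some, Option.some.injEq, Subtype.mk.injEq] at hxy
          rw [Subtype.ext hxy]
      · rintro (_ | ⟨⟨v, hv⟩, hv2⟩)
        · exact ⟨none, rfl⟩
        · rw [Finset.mem_filter] at hv2
          exact ⟨some ⟨v, hv2.2⟩, rfl⟩
      · rintro (_ | x) (_ | y)
        · exact Iff.rfl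
        · show (_ ∈ Finset.univ.filter _) ↔ (y : V) ∈ A.filter _
          rw [Finset.mem_filter, Finset.mem_filter]
          simp only [Finset.mem_univ, true_and]
        · show (_ ∈ Finset.univ.filter _) ↔ (x : V) ∈ A.filter _
          rw [Finset.mem_filter, Finset.mem_filter]
          simp only [Finset.mem_univ, true_and]
        · show (G.Adj x y ∨ _) ↔ G.Adj x y
          constructor
          · rintro (h | h | h)
            · exact h
            · exact absurd (h.1 ▸ x.2) hpA
            · exact absurd (h.1 ▸ x.2) hqA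
          · exact fun h => Or.inl h
    · refine h2.of_bij (fun x => match x with
        | none => ⟨⟨q, hqC⟩, Or.inr (Or.inl ⟨rfl, rfl⟩)⟩
        | some v => ⟨⟨v.1, hAC _ (Finset.mem_filter.1 v.2).1⟩, Or.inl (Finset.mem_filter.1 v.2).2⟩)
        ⟨?_, ?_⟩ ?_
      · intro x y hxy
        rcases x with _ | x <;> rcases y with _ | y
        · rfl
        · have h : q = y.1 := congrArg (fun z : {w // _} => (z.1 : {v // v ∈ C}).1) hxy
          exact absurd (Finset.mem_filter.1 y.2).1 (h ▸ hqA)
        · have h : x.1 = q := congrArg (fun z : {w // _} => (z.1 : {v // v ∈ C}).1) hxy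
          exact absurd (Finset.mem_filter.1 x.2).1 (h ▸ hqA)
        · have h : x.1 = y.1 := congrArg (fun z : {w // _} => (z.1 : {v // v ∈ C}).1) hxy
          rw [Subtype.ext h]
      · rintro ⟨⟨v, hv⟩, hv2⟩
        rcases hv2 with hv2 | hv2 | hv2
        · have hvA : v ∈ A := by
            have hv3 : G.Adj p v := hv2
            rcases hCm v hv with h | h | h
            · exact absurd h.symm hv3.ne
            · exact absurd h (fun e => hnp (by rw [e] at hv3; exact hv3))
            · exact h
          exact ⟨some ⟨v, Finset.mem_filter.2 ⟨hvA, hv2⟩⟩, rfl⟩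
        · have h := hv2.2
          simp only at h
          subst h
          exact ⟨none, rfl⟩
        · exact absurd hv2.1 hpq
      · rintro (_ | x) (_ | y)
        · show (G.Adj q q ∨ _) ↔ False
          constructor
          · rintro (h | h | h)
            · exact G.loopless.1 _ h
            · exact hpq h.1.symm
            · exact hpq h.2.symm
          · exact False.elim
        · show (G.Adj q y ∨ _) ↔ (y : V) ∈ E
          have hy := Finset.mem_filter.1 y.2
          rw [hE]
          constructor
          · rintro (h | h | h)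
            · exact ⟨hy.1, hy.2, h⟩
            · exact absurd h.1.symm hpq
            · exact absurd (h.2 ▸ hy.1) hpA
          · exact fun h => Or.inl h.2.2
        · show (G.Adj x q ∨ _) ↔ (x : V) ∈ E
          have hx := Finset.mem_filter.1 x.2
          rw [hE]
          constructor
          · rintro (h | h | h)
            · exact ⟨hx.1, hx.2, h.symm⟩
            · exact absurd (h.1 ▸ hx.1) hpA
            · exact absurd h.2.symm hpq
          · exact fun h => Or.inl h.2.2.symm
        · show (G.Adj x y ∨ _) ↔ G.Adj x y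
          have hx := Finset.mem_filter.1 x.2
          constructor
          · rintro (h | h | h)
            · exact h
            · exact absurd (h.1 ▸ hx.1) hpA
            · exact absurd (h.1 ▸ hx.1) hqA
          · exact fun h => Or.inl h
    · refine h3.of_bij (fun x => match x with
        | none => ⟨⟨p, hpC⟩, Or.inr (Or.inr ⟨rfl, rfl⟩)⟩
        | some v => ⟨⟨v.1, hAC _ (Finset.mem_filter.1 v.2).1⟩, Or.inl (Finset.mem_filter.1 v.2).2⟩)
        ⟨?_, ?_⟩ ?_
      · intro x y hxy
        rcases x with _ | x <;> rcases y with _ | y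
        · rfl
        · have h : p = y.1 := congrArg (fun z : {w // _} => (z.1 : {v // v ∈ C}).1) hxy
          exact absurd (Finset.mem_filter.1 y.2).1 (h ▸ hpA)
        · have h : x.1 = p := congrArg (fun z : {w // _} => (z.1 : {v // v ∈ C}).1) hxy
          exact absurd (Finset.mem_filter.1 x.2).1 (h ▸ hpA)
        · have h : x.1 = y.1 := congrArg (fun z : {w // _} => (z.1 : {v // v ∈ C}).1) hxy
          rw [Subtype.ext h]
      · rintro ⟨⟨v, hv⟩, hv2⟩
        rcases hv2 with hv2 | hv2 | hv2
        · have hvA : v ∈ A := by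
            have hv3 : G.Adj q v := hv2
            rcases hCm v hv with h | h | h
            · exact absurd h (fun e => hnp (by rw [e] at hv3; exact hv3.symm))
            · exact absurd h.symm hv3.ne
            · exact h
          exact ⟨some ⟨v, Finset.mem_filter.2 ⟨hvA, hv2⟩⟩, rfl⟩
        · exact absurd hv2.1.symm hpq
        · have h := hv2.2
          simp only at h
          subst h
          exact ⟨none, rfl⟩
      · rintro (_ | x) (_ | y)
        · show (G.Adj p p ∨ _) ↔ False
          constructor
          · rintro (h | h | h)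
            · exact G.loopless.1 _ h
            · exact hpq h.2
            · exact hpq h.1
          · exact False.elim
        · show (G.Adj p y ∨ _) ↔ (y : V) ∈ E
          have hy := Finset.mem_filter.1 y.2
          rw [hE]
          constructor
          · rintro (h | h | h)
            · exact ⟨hy.1, h, hy.2⟩
            · exact absurd (h.2 ▸ hy.1) hqA
            · exact absurd h.1 hpq
          · exact fun h => Or.inl h.2.1
        · show (G.Adj x p ∨ _) ↔ (x : V) ∈ E
          have hx := Finset.mem_filter.1 x.2
          rw [hE]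
          constructor
          · rintro (h | h | h)
            · exact ⟨hx.1, h.symm, hx.2⟩
            · exact absurd h.2 hpq
            · exact absurd (h.1 ▸ hx.1) hqA
          · exact fun h => Or.inl h.2.1.symm
        · show (G.Adj x y ∨ _) ↔ G.Adj x y
          have hx := Finset.mem_filter.1 x.2
          constructor
          · rintro (h | h | h)
            · exact h
            · exact absurd (h.1 ▸ hx.1) hpA
            · exact absurd (h.1 ▸ hx.1) hqA
          · exact fun h => Or.inl h
  -- the subdivision of `pq`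
  have hT : Cls (n + 1) (Singer.subd (addE G p q C hpq) ⟨p, hpC⟩ ⟨q, hqC⟩) :=
    hG1.subd (Or.inr (Or.inl ⟨rfl, rfl⟩))
  set K' : Finset V := insert p (insert q (R ∪ E)) with hK'
  set B : Finset V := insert p (insert q E) with hB
  have hBm : ∀ v, v ∈ B ↔ v = p ∨ v = q ∨ v ∈ E := fun v => by
    rw [hB, Finset.mem_insert, Finset.mem_insert]
  have hCm' : ∀ v, v ∈ C ↔ v = p ∨ v = q ∨ v ∈ A := fun v => by
    rw [hC, Finset.mem_insert, Finset.mem_insert]
  have hKm : ∀ v, v ∈ K' ↔ v = p ∨ v = q ∨ v ∈ R ∨ v ∈ E := fun v => by
    rw [hK', Finset.mem_insert, Finset.mem_insert, Finset.mem_union]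
  refine Cls.glue (K := C) (K' := K') (B := B) ?_ ?_ ?_ ?_ ?_
  · intro v
    rw [hCm', hKm]
    rcases hcov v with h | h | h | h
    · exact Or.inl (Or.inl h)
    · exact Or.inl (Or.inr (Or.inl h))
    · exact Or.inl (Or.inr (Or.inr h))
    · exact Or.inr (Or.inr (Or.inr (Or.inl h)))
  · intro v
    rw [hBm, hCm', hKm]
    constructor
    · rintro (h | h | h)
      · exact ⟨Or.inl h, Or.inl h⟩
      · exact ⟨Or.inr (Or.inl h), Or.inr (Or.inl h)⟩
      · exact ⟨Or.inr (Or.inr (hEA v h)), Or.inr (Or.inr (Or.inr h))⟩
    · rintro ⟨ha, hb⟩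
      rcases ha with h | h | h
      · exact Or.inl h
      · exact Or.inr (Or.inl h)
      · rcases hb with h' | h' | h' | h'
        · exact Or.inl h'
        · exact Or.inr (Or.inl h')
        · exact absurd h' (hAR v h)
        · exact Or.inr (Or.inr h')
  · intro u v hu hv huv
    rw [hKm] at hu
    rw [hCm'] at hv
    have hu' : u ∈ A := by
      rcases hcov u with h | h | h | h
      · exact absurd (Or.inl h) hu
      · exact absurd (Or.inr (Or.inl h)) hu
      · exact h
      · exact absurd (Or.inr (Or.inr (Or.inl h))) hu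
    have hv' : v ∈ R := by
      rcases hcov v with h | h | h | h
      · exact absurd (Or.inl h) hv
      · exact absurd (Or.inr (Or.inl h)) hv
      · exact absurd (Or.inr (Or.inr h)) hv
      · exact h
    exact hu (Or.inr (Or.inr (Or.inr (hRA v hv' u hu' huv.symm))))
  · refine hT.of_eq ?_
    rintro (_ | x) (_ | y)
    · exact Iff.rfl
    · show (y : V) ∈ B ↔ y = _ ∨ y = _ ∨ _
      rw [hBm]
      constructor
      · rintro (h | h | h)
        · exact Or.inl (Subtype.ext h)
        · exact Or.inr (Or.inl (Subtype.ext h))
        · exact Or.inr (Or.inr ⟨Or.inl (hEp _ h), Or.inl (hEq _ h)⟩)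
      · rintro (h | h | h)
        · exact Or.inl (congrArg Subtype.val h)
        · exact Or.inr (Or.inl (congrArg Subtype.val h))
        · rcases hCm y.1 y.2 with h' | h' | h'
          · exact Or.inl h'
          · exact Or.inr (Or.inl h')
          · refine Or.inr (Or.inr ((hE _).2 ⟨h', ?_, ?_⟩))
            · rcases h.1 with h5 | h5 | h5
              · exact h5
              · exact absurd (h5.2 ▸ h') hqA
              · exact absurd (h5.2 ▸ h') hpA
            · rcases h.2 with h5 | h5 | h5
              · exact h5
              · exact absurd (h5.2 ▸ h') hqA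
              · exact absurd (h5.2 ▸ h') hpA
    · show (x : V) ∈ B ↔ x = _ ∨ x = _ ∨ _
      rw [hBm]
      constructor
      · rintro (h | h | h)
        · exact Or.inl (Subtype.ext h)
        · exact Or.inr (Or.inl (Subtype.ext h))
        · exact Or.inr (Or.inr ⟨Or.inl (hEp _ h), Or.inl (hEq _ h)⟩)
      · rintro (h | h | h)
        · exact Or.inl (congrArg Subtype.val h)
        · exact Or.inr (Or.inl (congrArg Subtype.val h))
        · rcases hCm x.1 x.2 with h' | h' | h'
          · exact Or.inl h'
          · exact Or.inr (Or.inl h')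
          · refine Or.inr (Or.inr ((hE _).2 ⟨h', ?_, ?_⟩))
            · rcases h.1 with h5 | h5 | h5
              · exact h5
              · exact absurd (h5.2 ▸ h') hqA
              · exact absurd (h5.2 ▸ h') hpA
            · rcases h.2 with h5 | h5 | h5
              · exact h5
              · exact absurd (h5.2 ▸ h') hqA
              · exact absurd (h5.2 ▸ h') hpA
    · show G.Adj x y ↔ (G.Adj x y ∨ _) ∧ ¬ (x = _ ∧ y = _) ∧ ¬ (x = _ ∧ y = _)
      constructor
      · intro h
        refine ⟨Or.inl h, ?_, ?_⟩
        · rintro ⟨ha, hb⟩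
          rw [ha, hb] at h
          exact hnp h
        · rintro ⟨ha, hb⟩
          rw [ha, hb] at h
          exact hnp h.symm
      · rintro ⟨h | h | h, ha, hb⟩
        · exact h
        · exact absurd ⟨Subtype.ext h.1, Subtype.ext h.2⟩ ha
        · exact absurd ⟨Subtype.ext h.1, Subtype.ext h.2⟩ hb
  · have hpK : p ∈ K' := (hKm p).2 (Or.inl rfl)
    have hqK : q ∈ K' := (hKm q).2 (Or.inr (Or.inl rfl))
    have hREK : ∀ v ∈ R ∪ E, v ∈ K' := fun v hv => by
      rw [hKm]
      rw [Finset.mem_union] at hv
      exact Or.inr (Or.inr hv)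
    have hpRE : p ∉ R ∪ E := fun h => by
      rw [Finset.mem_union] at h
      rcases h with h | h
      · exact hpR h
      · exact hpA (hEA _ h)
    have hqRE : q ∉ R ∪ E := fun h => by
      rw [Finset.mem_union] at h
      rcases h with h | h
      · exact hqR h
      · exact hqA (hEA _ h)
    have hpRE' : ∀ v ∈ R ∪ E, G.Adj p v := fun v hv => by
      rw [Finset.mem_union] at hv
      rcases hv with h | h
      · exact (hRp v h).1
      · exact hEp v h
    have hqRE' : ∀ v ∈ R ∪ E, G.Adj q v := fun v hv => by
      rw [Finset.mem_union] at hv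
      rcases hv with h | h
      · exact (hRp v h).2
      · exact hEq v h
    have hpB : p ∈ B := (hBm p).2 (Or.inl rfl)
    have hqB : q ∈ B := (hBm q).2 (Or.inr (Or.inl rfl))
    have hBE : ∀ v ∈ R ∪ E, (v ∈ B ↔ v ∈ E) := fun v hv => by
      rw [hBm]
      constructor
      · rintro (h | h | h)
        · exact absurd (h ▸ hv) hpRE
        · exact absurd (h ▸ hv) hqRE
        · exact h
      · exact fun h => Or.inr (Or.inr h)
    refine h4.susp.of_bij (fun x => match x with
      | .inl none => none
      | .inl (some v) => some ⟨v.1, hREK _ v.2⟩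
      | .inr true => some ⟨p, hpK⟩
      | .inr false => some ⟨q, hqK⟩) ⟨?_, ?_⟩ ?_
    · intro x y hxy
      rcases x with (_ | x) | (_ | _) <;> rcases y with (_ | y) | (_ | _) <;>
        simp only [reduceCtorEq, Option.some.injEq, Subtype.mk.injEq] at hxy ⊢
      · rw [Subtype.ext hxy]
      · exact absurd (hxy ▸ x.2) hqRE
      · exact absurd (hxy ▸ x.2) hpRE
      · exact absurd (hxy ▸ y.2) hqRE
      · exact absurd hxy.symm hpq
      · exact absurd (hxy ▸ y.2) hpRE
      · exact absurd hxy hpq
    · rintro (_ | ⟨v, hv⟩)
      · exact ⟨.inl none, rfl⟩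
      · have hv2 := (hKm v).1 hv
        rcases hv2 with h | h | h
        · subst h
          exact ⟨.inr true, rfl⟩
        · subst h
          exact ⟨.inr false, rfl⟩
        · exact ⟨.inl (some ⟨v, Finset.mem_union.2 h⟩), rfl⟩
    · rintro ((_ | x) | (_ | _)) ((_ | y) | (_ | _))
      · exact Iff.rfl
      · exact hBE y y.2
      · exact iff_of_true hqB trivial
      · exact iff_of_true hpB trivial
      · exact hBE x x.2
      · exact Iff.rfl
      · exact iff_of_true (hqRE' x x.2).symm trivial
      · exact iff_of_true (hpRE' x x.2).symm trivial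
      · exact iff_of_true hqB trivial
      · exact iff_of_true (hqRE' y y.2) trivial
      · exact iff_of_false (G.loopless.1 _) (fun h => h)
      · exact iff_of_false (fun h => hnp h.symm) (fun h => h)
      · exact iff_of_true hpB trivial
      · exact iff_of_true (hpRE' y y.2) trivial
      · exact iff_of_false hnp (fun h => h)
      · exact iff_of_false (G.loopless.1 _) (fun h => h)

end Singer
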