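import Pool.Agent.Singer.PolyStep

/-!
# The composite operation for caps

`Cls.step'`: the operation `Cls.step` for a graph `cap G K B`, the second vertex being the cone point.
`cmpG α`: the comparability graph of a partial order.
-/

set_option autoImplicit false
set_option linter.unusedSectionVars false
set_option linter.unusedVariables false

namespace Singer

universe u

/-- the comparability graph of a partial order -/
def cmpG (α : Type u) [PartialOrder α] : SimpleGraph α where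
  Adj a b := a < b ∨ b < a
  symm := ⟨fun _ _ h => h.symm⟩
  loopless := ⟨fun _ h => h.elim (lt_irrefl _) (lt_irrefl _)⟩

/-- invariance of the class under bijections, backwards -/
theorem Cls.of_bij' {n : ℕ} {V W : Type u} {G : SimpleGraph V} {H : SimpleGraph W} (hH : Cls n H) (f : V → W)
    (hf : Function.Bijective f) (h : ∀ u v, H.Adj (f u) (f v) ↔ G.Adj u v) : Cls n G :=
  hH.iso (RelIso.symm ⟨Equiv.ofBijective f hf, fun {u v} => h u v⟩)

/-- transport of a cap along an injective map -/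
theorem Cls.cap_map {n : ℕ} {V W : Type u} {G : SimpleGraph V} {H : SimpleGraph W} {A X : Finset V} {A' X' : Finset W}
    (hG : Cls n (cap G A X)) (f : V → W) (hinj : ∀ u ∈ A, ∀ v ∈ A, f u = f v → u = v) (hmem : ∀ u ∈ A, f u ∈ A')
    (hsurj : ∀ w ∈ A', ∃ u ∈ A, f u = w) (hadj : ∀ u ∈ A, ∀ v ∈ A, (H.Adj (f u) (f v) ↔ G.Adj u v))
    (hX : ∀ u ∈ A, (f u ∈ X' ↔ u ∈ X)) : Cls n (cap H A' X') := by
  refine hG.of_bij (fun x => x.map fun v => ⟨f v.1, hmem _ v.2⟩) ⟨?_, ?_⟩ ?_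
  · intro x y hxy
    rcases x with _ | x <;> rcases y with _ | y
    · rfl
    · exact absurd hxy (by simp)
    · exact absurd hxy (by simp)
    · simp only [Option.map_some, Option.some.injEq, Subtype.mk.injEq] at hxy
      rw [Subtype.ext (hinj _ x.2 _ y.2 hxy)]
  · rintro (_ | ⟨w, hw⟩)
    · exact ⟨none, rfl⟩
    · obtain ⟨u, hu, rfl⟩ := hsurj w hw
      exact ⟨some ⟨u, hu⟩, rfl⟩
  · rintro (_ | x) (_ | y)
    · exact Iff.rfl
    · exact hX _ y.2
    · exact hX _ x.2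
    · exact hadj _ x.2 _ y.2

/-- a congruence lemma for caps -/
theorem Cls.cap_congr {n : ℕ} {V : Type u} {G : SimpleGraph V} {A X A' X' : Finset V} (hG : Cls n (cap G A X))
    (hA : ∀ v, v ∈ A ↔ v ∈ A') (hX : ∀ v ∈ A, (v ∈ X' ↔ v ∈ X)) : Cls n (cap G A' X') :=
  hG.cap_map id (fun _ _ _ _ h => h) (fun u hu => (hA u).1 hu) (fun w hw => ⟨w, (hA w).2 hw, rfl⟩)
    (fun _ _ _ _ => Iff.rfl) hX

open Classical in
/-- **the composite operation for caps** -/
theorem Cls.step' {n : ℕ} {V : Type u} {G : SimpleGraph V} {K B A E R : Finset V} {p : V}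
    (hpB : p ∉ B) (hK : ∀ v, v ∈ K ↔ v = p ∨ v ∈ A ∨ v ∈ R)
    (hpA : p ∉ A) (hpR : p ∉ R) (hAR : ∀ v ∈ A, v ∉ R)
    (hE : ∀ v, v ∈ E ↔ v ∈ A ∧ G.Adj p v ∧ v ∈ B)
    (hRp : ∀ v ∈ R, G.Adj p v ∧ v ∈ B) (hRA : ∀ u ∈ R, ∀ v ∈ A, G.Adj u v → v ∈ E)
    (hno : ∀ u ∈ A, G.Adj p u → ∀ v ∈ A, v ∈ B → G.Adj u v → u ∈ B ∨ G.Adj p v)
    (h1 : Cls (n + 1) (cap G A (A.filter fun v => G.Adj p v ∨ v ∈ B)))
    (h2 : Cls n (cap G (A.filter fun v => G.Adj p v) E))
    (h3 : Cls n (cap G (A.filter fun v => v ∈ B) E))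
    (h4 : Cls n (cap G (R ∪ E) E)) : Cls (n + 1) (cap G K B) := by
  have hpK : p ∈ K := (hK p).2 (Or.inl rfl)
  have hAK : ∀ v ∈ A, v ∈ K := fun v hv => (hK v).2 (Or.inr (Or.inl hv))
  have hRK : ∀ v ∈ R, v ∈ K := fun v hv => (hK v).2 (Or.inr (Or.inr hv))
  have hEA : ∀ v ∈ E, v ∈ A := fun v hv => ((hE v).1 hv).1
  let f : V → Option {v // v ∈ K} := fun v => if h : v ∈ K then some ⟨v, h⟩ else none
  have hf : ∀ v (h : v ∈ K), f v = some ⟨v, h⟩ := fun v h => dif_pos h
  obtain ⟨lf, hlf⟩ : ∃ lf : Finset V → Finset (Option {v // v ∈ K}),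
      ∀ X x, x ∈ lf X ↔ ∃ v : {v // v ∈ K}, x = some v ∧ v.1 ∈ X := by
    refine ⟨fun X => Finset.univ.filter fun x => ∃ v : {v // v ∈ K}, x = some v ∧ v.1 ∈ X, fun X x => ?_⟩
    simp only [Finset.mem_filter, Finset.mem_univ, true_and]
  have hlfs : ∀ X (v : {v // v ∈ K}), some v ∈ lf X ↔ v.1 ∈ X := fun X v => by
    rw [hlf]
    constructor
    · rintro ⟨w, hw, h⟩
      rw [Option.some.inj hw]
      exact h
    · exact fun h => ⟨v, rfl, h⟩
  have hlfn : ∀ X, none ∉ lf X := fun X h => by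
    rw [hlf] at h
    obtain ⟨w, hw, h⟩ := h
    exact Option.some_ne_none _ hw.symm
  have hGn : ∀ v : {v // v ∈ K}, (cap G K B).Adj none (some v) ↔ v.1 ∈ B := fun v => Iff.rfl
  have hGs : ∀ u v : {v // v ∈ K}, (cap G K B).Adj (some u) (some v) ↔ G.Adj u.1 v.1 := fun u v => Iff.rfl
  have hGns : ∀ v : {v // v ∈ K}, (cap G K B).Adj (some v) none ↔ v.1 ∈ B := fun v => Iff.rfl
  have hun : ∀ (inst : DecidableEq (Option {v // v ∈ K})) (X Y : Finset (Option {v // v ∈ K})) (x),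
      x ∈ X ∪ Y ↔ x ∈ X ∨ x ∈ Y := fun inst X Y x => Finset.mem_union
  -- transport
  have htr : ∀ (m : ℕ) (X Y : Finset V) (X' Y' : Finset (Option {v // v ∈ K})), (∀ v ∈ X, v ∈ K) →
      (∀ x, x ∈ X' ↔ ∃ v : {v // v ∈ K}, x = some v ∧ v.1 ∈ X) →
      (∀ v : {v // v ∈ K}, v.1 ∈ X → (some v ∈ Y' ↔ v.1 ∈ Y)) →
      Cls m (cap G X Y) → Cls m (cap (cap G K B) X' Y') := by
    intro m X Y X' Y' hX hX' hY hc
    refine hc.cap_map f ?_ ?_ ?_ ?_ ?_
    · intro u hu v hv huv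
      rw [hf u (hX u hu), hf v (hX v hv)] at huv
      exact congrArg Subtype.val (Option.some.inj huv)
    · intro u hu
      rw [hX']
      exact ⟨⟨u, hX u hu⟩, hf u (hX u hu), hu⟩
    · intro w hw
      rw [hX'] at hw
      obtain ⟨v, rfl, hv⟩ := hw
      exact ⟨v.1, hv, hf v.1 v.2⟩
    · intro u hu v hv
      rw [hf u (hX u hu), hf v (hX v hv)]
      exact hGs _ _
    · intro u hu
      rw [hf u (hX u hu)]
      exact hY ⟨u, hX u hu⟩ hu
  refine Cls.step (p := some ⟨p, hpK⟩) (q := none) (A := lf A) (E := lf E) (R := lf R)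
    (Option.some_ne_none _) (fun h => hpB h) ?_ ?_ (hlfn _) ?_ (hlfn _) ?_ ?_ ?_ ?_ ?_ ?_ ?_ ?_ ?_
  · rintro (_ | ⟨v, hv⟩)
    · exact Or.inr (Or.inl rfl)
    · rcases (hK v).1 hv with h | h | h
      · subst h
        exact Or.inl rfl
      · exact Or.inr (Or.inr (Or.inl ((hlfs _ _).2 h)))
      · exact Or.inr (Or.inr (Or.inr ((hlfs _ _).2 h)))
  · exact fun h => hpA ((hlfs _ _).1 h)
  · exact fun h => hpR ((hlfs _ _).1 h)
  · rintro (_ | v) h h'
    · exact hlfn _ h
    · exact hAR _ ((hlfs _ _).1 h) ((hlfs _ _).1 h')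
  · rintro (_ | v)
    · exact iff_of_false (hlfn _) (fun h => hlfn _ h.1)
    · rw [hlfs, hlfs, hE, hGs, hGn]
  · rintro (_ | v) h
    · exact absurd h (hlfn _)
    · have := hRp _ ((hlfs _ _).1 h)
      exact ⟨this.1, this.2⟩
  · rintro (_ | u) hu (_ | v) hv huv
    · exact absurd hu (hlfn _)
    · exact absurd hu (hlfn _)
    · exact absurd hv (hlfn _)
    · exact (hlfs _ _).2 (hRA _ ((hlfs _ _).1 hu) _ ((hlfs _ _).1 hv) huv)
  · rintro (_ | u) hu hpu (_ | v) hv hqv huv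
    · exact absurd hu (hlfn _)
    · exact absurd hu (hlfn _)
    · exact absurd hv (hlfn _)
    · exact hno _ ((hlfs _ _).1 hu) hpu _ ((hlfs _ _).1 hv) hqv huv
  · refine htr _ _ _ _ _ hAK (hlf A) ?_ h1
    intro v hv
    rw [Finset.mem_filter, Finset.mem_filter, hlfs, hGs, hGn]
  · refine htr _ _ _ _ _ (fun v hv => hAK v (Finset.mem_filter.1 hv).1) ?_ ?_ h2
    · rintro (_ | v)
      · refine iff_of_false (fun h => hlfn _ (Finset.mem_filter.1 h).1) ?_
        rintro ⟨w, hw, -⟩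
        exact Option.some_ne_none _ hw.symm
      · rw [Finset.mem_filter, hlfs, hGs]
        constructor
        · exact fun h => ⟨v, rfl, Finset.mem_filter.2 h⟩
        · rintro ⟨w, hw, h⟩
          rw [Option.some.inj hw]
          exact Finset.mem_filter.1 h
    · exact fun v _ => hlfs _ _
  · refine htr _ _ _ _ _ (fun v hv => hAK v (Finset.mem_filter.1 hv).1) ?_ ?_ h3
    · rintro (_ | v)
      · refine iff_of_false (fun h => hlfn _ (Finset.mem_filter.1 h).1) ?_
        rintro ⟨w, hw, -⟩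
        exact Option.some_ne_none _ hw.symm
      · rw [Finset.mem_filter, hlfs, hGn]
        constructor
        · exact fun h => ⟨v, rfl, Finset.mem_filter.2 h⟩
        · rintro ⟨w, hw, h⟩
          rw [Option.some.inj hw]
          exact Finset.mem_filter.1 h
    · exact fun v _ => hlfs _ _
  · refine htr _ _ _ _ _ (fun v hv => ?_) ?_ ?_ h4
    · rcases Finset.mem_union.1 hv with h | h
      · exact hRK v h
      · exact hAK v (hEA v h)
    · rintro (_ | v)
      · refine iff_of_false (fun h => ?_) ?_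
        · rcases (hun _ _ _ _).1 h with h | h
          · exact hlfn _ h
          · exact hlfn _ h
        · rintro ⟨w, hw, -⟩
          exact Option.some_ne_none _ hw.symm
      · refine (hun _ _ _ _).trans ?_
        rw [hlfs, hlfs]
        constructor
        · exact fun h => ⟨v, rfl, Finset.mem_union.2 h⟩
        · rintro ⟨w, hw, h⟩
          rw [Option.some.inj hw]
          exact Finset.mem_union.1 h
    · exact fun v _ => hlfs _ _

end Singer
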