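import Pool.Agent.Singer.PolyInd

/-!
# Polytopes belong to the class `Cls`: convex polytopes

`cls_polytope`: for the convex hull `P` of a finite set in a finite dimensional real normed space, the comparability
graph of the proper nonempty faces of `P` (the barycentric subdivision of the boundary) is in `Cls n`, `n = dim P`.
-/

set_option autoImplicit false
set_option linter.unusedSectionVars false
set_option linter.unusedVariables false

namespace Singer
namespace Poly

universe u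

open Classical

variable {E : Type u} [NormedAddCommGroup E] [NormedSpace ℝ E]

/-- the face where a nonnegative affine function vanishes is the hull of the vertices where it vanishes -/
lemma mem_hull {S : Set E} (hS : S.Finite) {c : ℝ} {l : E →ₗ[ℝ] ℝ} (h : ∀ y ∈ S, 0 ≤ c + l y) {x : E}
    (hx : x ∈ convexHull ℝ S) (h0 : c + l x = 0) : x ∈ convexHull ℝ {y | y ∈ S ∧ c + l y = 0} := by
  rw [hS.convexHull_eq] at hx
  obtain ⟨w, hw0, hw1, rfl⟩ := hx
  rw [Finset.centerMass_eq_of_sum_1 _ _ hw1] at h0 ⊢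
  have hsum : ∑ y ∈ hS.toFinset, w y * (c + l y) = 0 := by
    rw [← h0, map_sum]
    have e1 : c = ∑ y ∈ hS.toFinset, w y * c := by rw [← Finset.sum_mul, hw1, one_mul]
    conv_rhs => rw [e1]
    rw [← Finset.sum_add_distrib]
    refine Finset.sum_congr rfl fun y _ => ?_
    simp only [id, map_smul, smul_eq_mul]
    ring
  have hz : ∀ y ∈ hS.toFinset, w y * (c + l y) = 0 := by
    refine (Finset.sum_eq_zero_iff_of_nonneg fun y hy => ?_).1 hsum
    rw [Set.Finite.mem_toFinset] at hy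
    exact mul_nonneg (hw0 y hy) (h y hy)
  have hz' : ∀ y ∈ hS.toFinset, w y ≠ 0 → c + l y = 0 := fun y hy hwy => (mul_eq_zero.1 (hz y hy)).resolve_left hwy
  rw [← Finset.sum_filter_ne_zero] at hw1
  have e2 : ∑ y ∈ hS.toFinset, w y • id y = ∑ y ∈ hS.toFinset with w y ≠ 0, w y • y := by
    rw [Finset.sum_filter]
    refine Finset.sum_congr rfl fun y _ => ?_
    by_cases hy : w y = 0
    · rw [if_neg (not_not.2 hy), hy, zero_smul]
    · rw [if_pos hy]
      rfl
  rw [e2]
  refine (convex_convexHull ℝ _).sum_mem (fun y hy => ?_) hw1 (fun y hy => subset_convexHull ℝ _ ?_)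
  · rw [Finset.mem_filter, Set.Finite.mem_toFinset] at hy
    exact hw0 y hy.1
  · rw [Finset.mem_filter] at hy
    exact ⟨(Set.Finite.mem_toFinset hS).1 hy.1, hz' y hy.1 hy.2⟩

lemma hull_eq {S : Set E} (hS : S.Finite) {c : ℝ} {l : E →ₗ[ℝ] ℝ} (h : ∀ y ∈ S, 0 ≤ c + l y) :
    convexHull ℝ {y | y ∈ S ∧ c + l y = 0} = {x | x ∈ convexHull ℝ S ∧ c + l x = 0} := by
  apply Set.Subset.antisymm
  · refine convexHull_min ?_ ?_
    · exact fun y hy => ⟨subset_convexHull ℝ _ hy.1, hy.2⟩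
    · refine (convex_convexHull ℝ S).inter (t := {x | c + l x = 0}) ?_
      have e : {x | c + l x = 0} = {x | l x = -c} := by
        ext x
        constructor
        · intro h1
          exact eq_neg_of_add_eq_zero_right h1
        · intro h1
          show c + l x = 0
          rw [show l x = -c from h1, add_neg_cancel]
      rw [e]
      exact convex_hyperplane l.isLinear _
  · exact fun x hx => mem_hull hS h hx.1 hx.2

lemma nonneg_hull {S : Set E} {c : ℝ} {l : E →ₗ[ℝ] ℝ} (h : ∀ y ∈ S, 0 ≤ c + l y) {x : E}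
    (hx : x ∈ convexHull ℝ S) : 0 ≤ c + l x := by
  have h1 : convexHull ℝ S ⊆ {x | -c ≤ l x} := by
    refine convexHull_min (fun y hy => ?_) (convex_halfSpace_ge l.isLinear _)
    have := h y hy
    show -c ≤ l y
    linarith
  have h2 : -c ≤ l x := h1 hx
  linarith

section values
variable (S : Set E)

/-- the values of the affine functions at the points of `S` -/
def vals : Submodule ℝ (S → ℝ) where
  carrier := {φ | ∃ (c : ℝ) (l : E →ₗ[ℝ] ℝ), ∀ i : S, φ i = c + l i.1}
  zero_mem' := ⟨0, 0, fun i => by simp⟩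
  add_mem' := by
    rintro a b ⟨c, l, h⟩ ⟨c', l', h'⟩
    refine ⟨c + c', l + l', fun i => ?_⟩
    rw [Pi.add_apply, h, h', LinearMap.add_apply]
    ring
  smul_mem' := by
    rintro r a ⟨c, l, h⟩
    refine ⟨r * c, r • l, fun i => ?_⟩
    rw [Pi.smul_apply, h, LinearMap.smul_apply, smul_eq_mul, smul_eq_mul, mul_add]

variable {S}

lemma finrank_vals [FiniteDimensional ℝ E] (hne : S.Nonempty) :
    Module.finrank ℝ (vals S) = Module.finrank ℝ (vectorSpan ℝ S) + 1 := by
  obtain ⟨p, hp⟩ := hne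
  have hmem : ∀ i : S, i.1 - p ∈ vectorSpan ℝ S := fun i => vsub_mem_vectorSpan ℝ i.2 hp
  let T : (ℝ × (vectorSpan ℝ S →ₗ[ℝ] ℝ)) →ₗ[ℝ] (S → ℝ) :=
    { toFun := fun x i => x.1 + x.2 ⟨i.1 - p, hmem i⟩
      map_add' := fun x y => by
        funext i
        simp only [Prod.fst_add, Prod.snd_add, LinearMap.add_apply, Pi.add_apply]
        ring
      map_smul' := fun c x => by
        funext i
        simp only [Prod.smul_fst, Prod.smul_snd, LinearMap.smul_apply, smul_eq_mul, RingHom.id_apply, Pi.smul_apply]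
        ring }
  have hT : ∀ x i, T x i = x.1 + x.2 ⟨i.1 - p, hmem i⟩ := fun _ _ => rfl
  have hinj : Function.Injective T := by
    rw [injective_iff_map_eq_zero]
    rintro ⟨c, l⟩ h
    have h1 : ∀ i, c + l ⟨i.1 - p, hmem i⟩ = 0 := fun i => congrFun h i
    have hc : c = 0 := by
      have h2 := h1 ⟨p, hp⟩
      have h3 : (⟨p - p, hmem ⟨p, hp⟩⟩ : vectorSpan ℝ S) = 0 := Subtype.ext (sub_self p)
      rw [h3, map_zero, add_zero] at h2
      exact h2
    have hl : l = 0 := by
      ext ⟨v, hv⟩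
      have h4 : ∀ i : S, l ⟨i.1 - p, hmem i⟩ = 0 := fun i => by
        have := h1 i
        rwa [hc, zero_add] at this
      rw [vectorSpan_eq_span_vsub_set_right ℝ hp] at hv
      have h5 : ∀ v ∈ Submodule.span ℝ ((fun x => x -ᵥ p) '' S), ∀ hv : v ∈ vectorSpan ℝ S, l ⟨v, hv⟩ = 0 := by
        intro v hv
        induction hv using Submodule.span_induction with
        | mem x hx =>
          obtain ⟨y, hy, rfl⟩ := hx
          intro hv
          exact h4 ⟨y, hy⟩
        | zero =>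
          intro hv
          exact map_zero l
        | add x y hx hy ihx ihy =>
          intro hv
          rw [← vectorSpan_eq_span_vsub_set_right ℝ hp] at hx hy
          have := l.map_add ⟨x, hx⟩ ⟨y, hy⟩
          rw [ihx hx, ihy hy, add_zero] at this
          exact this
        | smul a x hx ihx =>
          intro hv
          rw [← vectorSpan_eq_span_vsub_set_right ℝ hp] at hx
          have := l.map_smul a ⟨x, hx⟩
          rw [ihx hx, smul_zero] at this
          exact this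
      exact h5 v hv _
    rw [hc, hl]
    rfl
  have hrange : LinearMap.range T = vals S := by
    ext φ
    rw [LinearMap.mem_range]
    constructor
    · rintro ⟨⟨c, l⟩, rfl⟩
      obtain ⟨l', hl'⟩ := l.exists_extend
      refine ⟨c - l' p, l', fun i => ?_⟩
      have h1 : l ⟨i.1 - p, hmem i⟩ = l' (i.1 - p) := by
        rw [← hl']
        rfl
      rw [hT]
      simp only
      rw [h1, map_sub]
      ring
    · rintro ⟨c, l, h⟩
      refine ⟨(c + l p, l.domRestrict _), ?_⟩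
      funext i
      rw [hT, h]
      simp only [LinearMap.domRestrict_apply, map_sub]
      ring
  rw [← hrange, LinearMap.finrank_range_of_inj hinj, Module.finrank_prod, Module.finrank_self]
  have h1 : Module.finrank ℝ (vectorSpan ℝ S →ₗ[ℝ] ℝ) = Module.finrank ℝ (vectorSpan ℝ S) :=
    Subspace.dual_finrank_eq
  rw [h1]
  ring

end values

/-- the hull of a set of vertices -/
def hl {S : Set E} (F : Finset S) : Set E := convexHull ℝ {y | ∃ h : y ∈ S, (⟨y, h⟩ : S) ∈ F}

section hulls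
variable {S : Set E} [Fintype S]

lemma hl_eq {F : Finset S} {c : ℝ} {l : E →ₗ[ℝ] ℝ} (h : ∀ i : S, 0 ≤ c + l i.1) (hF : ∀ i : S, i ∈ F ↔ c + l i.1 = 0) :
    hl F = {x | x ∈ convexHull ℝ S ∧ c + l x = 0} := by
  rw [← hull_eq S.toFinite fun y hy => h ⟨y, hy⟩, hl]
  congr 1
  ext y
  constructor
  · rintro ⟨h1, h2⟩
    exact ⟨h1, (hF _).1 h2⟩
  · rintro ⟨h1, h2⟩
    exact ⟨h1, (hF ⟨y, h1⟩).2 h2⟩

lemma mem_hl {F : Finset S} (hF : Face (vals S) F) {i : S} : i.1 ∈ hl F ↔ i ∈ F := by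
  obtain ⟨φ, ⟨c, l, hcl⟩, h1, h2⟩ := hF
  rw [hl_eq (c := c) (l := l) (fun i => by rw [← hcl]; exact h1 i) (fun i => by rw [← hcl]; exact h2 i)]
  constructor
  · rintro ⟨-, h3⟩
    rw [h2, hcl]
    exact h3
  · intro h3
    refine ⟨subset_convexHull ℝ _ i.2, ?_⟩
    rw [← hcl]
    exact (h2 i).1 h3

lemma hl_le {F1 F2 : Finset S} (h1 : Face (vals S) F1) (h2 : Face (vals S) F2) : hl F1 ≤ hl F2 ↔ F1 ≤ F2 := by
  constructor
  · intro h i hi
    exact (mem_hl h2).1 (h ((mem_hl h1).2 hi))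
  · intro h
    refine convexHull_mono ?_
    rintro y ⟨hy, h3⟩
    exact ⟨hy, h h3⟩

lemma hl_lt {F1 F2 : Finset S} (h1 : Face (vals S) F1) (h2 : Face (vals S) F2) : hl F1 < hl F2 ↔ F1 < F2 :=
  lt_iff_lt_of_le_iff_le' (hl_le h2 h1) (hl_le h1 h2)

lemma hl_inj {F1 F2 : Finset S} (h1 : Face (vals S) F1) (h2 : Face (vals S) F2) (h : hl F1 = hl F2) : F1 = F2 :=
  le_antisymm ((hl_le h1 h2).1 h.le) ((hl_le h2 h1).1 h.ge)

lemma hl_univ : hl (Finset.univ : Finset S) = convexHull ℝ S := by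
  rw [hl]
  congr 1
  ext y
  exact ⟨fun h => h.1, fun h => ⟨h, Finset.mem_univ _⟩⟩

lemma hl_nonempty {F : Finset S} (h : F.Nonempty) : (hl F).Nonempty := by
  obtain ⟨i, hi⟩ := h
  exact ⟨i.1, subset_convexHull ℝ _ ⟨i.2, hi⟩⟩

lemma hl_exposed [FiniteDimensional ℝ E] {F : Finset S} (h : Face (vals S) F) (hne : F.Nonempty) :
    IsExposed ℝ (convexHull ℝ S) (hl F) := by
  intro _
  obtain ⟨φ, ⟨c, l, hcl⟩, h1, h2⟩ := h
  have h3 : ∀ i : S, 0 ≤ c + l i.1 := fun i => by rw [← hcl]; exact h1 i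
  have h4 : ∀ i : S, i ∈ F ↔ c + l i.1 = 0 := fun i => by rw [← hcl]; exact h2 i
  refine ⟨-(LinearMap.toContinuousLinearMap l), ?_⟩
  rw [hl_eq h3 h4]
  obtain ⟨i0, hi0⟩ := hne
  ext x
  constructor
  · rintro ⟨h5, h6⟩
    refine ⟨h5, fun y hy => ?_⟩
    have h7 := nonneg_hull (fun y hy => h3 ⟨y, hy⟩) hy
    show -(l y) ≤ -(l x)
    linarith
  · rintro ⟨h5, h6⟩
    refine ⟨h5, ?_⟩
    have h7 := nonneg_hull (fun y hy => h3 ⟨y, hy⟩) h5
    have h8 := (h4 i0).1 hi0
    have h9 : -(l i0.1) ≤ -(l x) := h6 i0.1 (subset_convexHull ℝ _ i0.2)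
    linarith

lemma exposed_hl {B : Set E} (hB : IsExposed ℝ (convexHull ℝ S) B) (hne : B.Nonempty) :
    ∃ F : Finset S, Face (vals S) F ∧ F.Nonempty ∧ hl F = B := by
  obtain ⟨l, hl'⟩ := hB hne
  obtain ⟨x0, hx0⟩ := hne
  have hx0' := hx0
  rw [hl'] at hx0'
  obtain ⟨hx1, hx2⟩ := hx0'
  have h3 : ∀ i : S, 0 ≤ l x0 + (-(l : E →ₗ[ℝ] ℝ)) i.1 := fun i => by
    have := hx2 i.1 (subset_convexHull ℝ _ i.2)
    show 0 ≤ l x0 + -(l i.1)
    linarith
  have h4 : ∀ i : S, i ∈ (Finset.univ.filter fun i : S => l i.1 = l x0) ↔ l x0 + (-(l : E →ₗ[ℝ] ℝ)) i.1 = 0 := fun i => by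
    rw [Finset.mem_filter]
    show i ∈ Finset.univ ∧ l i.1 = l x0 ↔ l x0 + -(l i.1) = 0
    constructor
    · rintro ⟨-, h5⟩
      rw [h5, add_neg_cancel]
    · intro h5
      exact ⟨Finset.mem_univ _, by linarith⟩
  have h5 : hl (Finset.univ.filter fun i : S => l i.1 = l x0) = B := by
    rw [hl_eq h3 h4, hl']
    ext x
    constructor
    · rintro ⟨h6, h7⟩
      have h8 : l x0 + -(l x) = 0 := h7
      refine ⟨h6, fun y hy => ?_⟩
      have := hx2 y hy
      linarith
    · rintro ⟨h6, h7⟩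
      refine ⟨h6, ?_⟩
      show l x0 + -(l x) = 0
      have h8 := h7 x0 hx1
      have h9 := hx2 x h6
      linarith
  refine ⟨_, ⟨fun i => l x0 + (-(l : E →ₗ[ℝ] ℝ)) i.1, ⟨l x0, -(l : E →ₗ[ℝ] ℝ), fun i => rfl⟩, h3, h4⟩, ?_, h5⟩
  by_contra h6
  rw [Finset.not_nonempty_iff_eq_empty] at h6
  rw [h6] at h5
  rw [← h5, hl] at hx0
  simp at hx0

end hulls

/-- **the barycentric subdivision of the boundary of a polytope**: for every polytope `P` of dimension `n` (the convex
hull of a finite set `S`), the comparability graph of the proper nonempty faces of `P` is in `Cls n` -/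
theorem cls_polytope [FiniteDimensional ℝ E] {S : Set E} (hS : S.Finite) (hne : S.Nonempty) :
    Cls (Module.finrank ℝ (vectorSpan ℝ S))
      (cmpG {F : Set E // IsExposed ℝ (convexHull ℝ S) F ∧ F.Nonempty ∧ F ≠ convexHull ℝ S}) := by
  have := hS.fintype
  have key := cls_bd (Φ := vals S) hne.to_subtype ⟨fun _ => 1, ⟨1, 0, fun i => by simp⟩, fun i => one_pos⟩
    (finrank_vals hne)
  refine key.of_bij (fun F => ⟨hl F.1, hl_exposed F.2.1 F.2.2.1, hl_nonempty F.2.2.1, fun h => F.2.2.2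
    (hl_inj F.2.1 face_univ (h.trans hl_univ.symm))⟩) ⟨?_, ?_⟩ ?_
  · intro x y hxy
    exact Subtype.ext (hl_inj x.2.1 y.2.1 (congrArg Subtype.val hxy))
  · rintro ⟨B, h1, h2, h3⟩
    obtain ⟨F, h4, h5, rfl⟩ := exposed_hl h1 h2
    refine ⟨⟨F, h4, h5, ?_⟩, rfl⟩
    rintro rfl
    exact h3 hl_univ
  · intro x y
    exact or_congr (hl_lt x.2.1 y.2.1) (hl_lt y.2.1 x.2.1)

end Poly
end Singer
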