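import Pool.Agent.Singer.Glue
import Pool.Agent.Singer.MV
import Pool.Agent.Singer.Susp

/-!
# Singer: splitting of vertices
-/

set_option autoImplicit false
set_option linter.unusedSectionVars false
set_option linter.unusedVariables false

namespace Singer

section split
variable {V : Type*} [Fintype V] [DecidableEq V]

/-- Mayer-Vietoris, upper bound -/
theorem bn_union_succ_le {Γ : Type*} [Group Γ] {r : V → ℕ} {G : SimpleGraph V} {s : V → Γ} {K K' : Finset V}
    (hr : Function.Injective r) (hno : ∀ u ∈ K, u ∉ K' → ∀ v ∈ K', v ∉ K → ¬ G.Adj u v) (i : ℕ) :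
    bn r G s (K ∪ K') (i + 1) ≤ bn r G s (K ∩ K') i + bn r G s K (i + 1) + bn r G s K' (i + 1) := by
  have h1 := mv_succ (s := s) hr hno i
  have h2 := mk_le (G := G) (s := s) (K := K) (K' := K') hr i
  have h3 := mk_le (G := G) (s := s) (K := K) (K' := K') hr (i + 1)
  linarith

theorem bn_union_zero_le {Γ : Type*} [Group Γ] {r : V → ℕ} {G : SimpleGraph V} {s : V → Γ} {K K' : Finset V}
    (hr : Function.Injective r) (hno : ∀ u ∈ K, u ∉ K' → ∀ v ∈ K', v ∉ K → ¬ G.Adj u v) :
    bn r G s (K ∪ K') 0 ≤ bn r G s K 0 + bn r G s K' 0 := by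
  have h1 := mv_zero (s := s) hr hno
  have h3 := mk_le (G := G) (s := s) (K := K) (K' := K') hr 0
  linarith

/-- cones have half the Betti numbers -/
theorem bn_cone {Γ : Type*} [Group Γ] {r : V → ℕ} {G : SimpleGraph V} {s : V → Γ} (hr : Function.Injective r)
    (hs : IsSys G s) {a : V} {A : Finset V} (ha : a ∉ A) (hadj : ∀ v ∈ A, G.Adj a v) (hf : s a ∉ sub s A) (i : ℕ) :
    bn r G s (insert a A) i = bn r G s A i / 2 := by
  have hN : Nbr G a A A := ⟨ha, fun v => ⟨fun hv => ⟨hv, hadj v hv⟩, fun hv => hv.1⟩⟩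
  have hk : ∀ i, kap r G s a A A i = 0 := fun i => kap_eq_zero hr hN inf_le_right
  cases i with
  | zero =>
    rw [cone_zero hr hs hN hf, hk]
    ring
  | succ i =>
    rw [cone_succ hr hs hN hf, hk, hk]
    ring

/-- odd case: the graph `Q` = (star `p` ∪ star `q`) ∪ cone point `y` over its boundary is acyclic.  Proof: Mayer-Vietoris
for `insert y (insert p (insert q D))`, `insert y (insert p (insert q D'))`, intersection
`insert y (insert p (insert q (D ∩ D')))`; all three are acyclic by `bn_suspension`, `bn_insert_eq`. -/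
theorem bn_double_star {Q : SimpleGraph V} {y p q : V} {D D' : Finset V} (hyp : y ≠ p) (hyq : y ≠ q) (hpq : Q.Adj p q)
    (hy : ∀ v, Q.Adj y v ↔ v ∈ D ∨ v ∈ D') (hp : ∀ v, Q.Adj p v ↔ v ∈ D ∨ v = q) (hq : ∀ v, Q.Adj q v ↔ v ∈ D' ∨ v = p)
    (hyD : y ∉ D) (hyD' : y ∉ D') (hpD : p ∉ D') (hqD : q ∉ D)
    (hno : ∀ u ∈ D, u ∉ D' → ∀ v ∈ D', v ∉ D → ¬ Q.Adj u v) (hcov : ∀ v, v = y ∨ v = p ∨ v = q ∨ v ∈ D ∨ v ∈ D')
    {r : V → ℕ} (hr : Function.Injective r) (hS : ∀ i, bn r Q (Racg.gen Q) (D ∩ D') i = 0) (i : ℕ) :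
    bn r Q (Racg.gen Q) Finset.univ i = 0 := by
  have hs := isSys_gen Q
  have hpq' : p ≠ q := hpq.ne
  have hpD0 : p ∉ D := fun h => Q.loopless.1 p ((hp p).2 (Or.inl h))
  have hqD0 : q ∉ D' := fun h => Q.loopless.1 q ((hq q).2 (Or.inl h))
  have hyp' : ¬ Q.Adj y p := fun h => ((hy p).1 h).elim hpD0 hpD
  have hyq' : ¬ Q.Adj y q := fun h => ((hy q).1 h).elim hqD hqD0
  -- the three pieces
  have hA1 : ∀ i, bn r Q (Racg.gen Q) (insert q (insert y (insert p D))) i = 0 := by
    intro i
    have h1 : ∀ i, bn r Q (Racg.gen Q) (insert y (insert p D)) i = 0 := fun i =>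
      bn_suspension hr hs hyD hpD0 hyp hyp' (fun v hv => (hy v).2 (Or.inl hv)) (fun v hv => (hp v).2 (Or.inl hv))
        (fun n hn => gen_mul_gen_pow Q hyp hyp' n hn) (gen_notMem Q y (by simpa using hyD))
        (gen_notMem Q p (by simpa using hpD0)) i
    have hN : Nbr Q q (insert y (insert p D)) (insert p (D ∩ D')) := by
      refine ⟨?_, fun v => ?_⟩
      · simp only [Finset.mem_insert, not_or]
        exact ⟨fun h => hyq h.symm, fun h => hpq' h.symm, hqD⟩
      · simp only [Finset.mem_insert, Finset.mem_inter, hq]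
        constructor
        · rintro (rfl | ⟨h1, h2⟩)
          · exact ⟨Or.inr (Or.inl rfl), Or.inr rfl⟩
          · exact ⟨Or.inr (Or.inr h1), Or.inl h2⟩
        · rintro ⟨h1, h2 | rfl⟩
          · rcases h1 with rfl | rfl | h1
            · exact absurd h2 hyD'
            · exact absurd h2 hpD
            · exact Or.inr ⟨h1, h2⟩
          · exact Or.inl rfl
    have hU : ∀ i, bn r Q (Racg.gen Q) (insert p (D ∩ D')) i = 0 := fun i => by
      rw [bn_cone hr hs (fun h => hpD (Finset.mem_inter.1 h).2)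
        (fun v hv => (hp v).2 (Or.inl (Finset.mem_inter.1 hv).1))
        (gen_notMem Q p fun h => hpD (Finset.mem_inter.1 (Finset.mem_coe.1 h)).2), hS]
      simp
    rw [bn_insert_eq hr hs hN (gen_notMem Q q fun h => ?_) hU, h1]
    rcases Finset.mem_insert.1 (Finset.mem_coe.1 h) with h | h
    · exact hpq' h.symm
    · exact hqD (Finset.mem_inter.1 h).1
  have hA2 : ∀ i, bn r Q (Racg.gen Q) (insert p (insert y (insert q D'))) i = 0 := by
    intro i
    have h1 : ∀ i, bn r Q (Racg.gen Q) (insert y (insert q D')) i = 0 := fun i =>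
      bn_suspension hr hs hyD' hqD0 hyq hyq' (fun v hv => (hy v).2 (Or.inr hv)) (fun v hv => (hq v).2 (Or.inl hv))
        (fun n hn => gen_mul_gen_pow Q hyq hyq' n hn) (gen_notMem Q y (by simpa using hyD'))
        (gen_notMem Q q (by simpa using hqD0)) i
    have hN : Nbr Q p (insert y (insert q D')) (insert q (D ∩ D')) := by
      refine ⟨?_, fun v => ?_⟩
      · simp only [Finset.mem_insert, not_or]
        exact ⟨fun h => hyp h.symm, hpq', hpD⟩
      · simp only [Finset.mem_insert, Finset.mem_inter, hp]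
        constructor
        · rintro (rfl | ⟨h1, h2⟩)
          · exact ⟨Or.inr (Or.inl rfl), Or.inr rfl⟩
          · exact ⟨Or.inr (Or.inr h2), Or.inl h1⟩
        · rintro ⟨h1, h2 | rfl⟩
          · rcases h1 with rfl | rfl | h1
            · exact absurd h2 hyD
            · exact absurd h2 hqD
            · exact Or.inr ⟨h2, h1⟩
          · exact Or.inl rfl
    have hU : ∀ i, bn r Q (Racg.gen Q) (insert q (D ∩ D')) i = 0 := fun i => by
      rw [bn_cone hr hs (fun h => hqD (Finset.mem_inter.1 h).1)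
        (fun v hv => (hq v).2 (Or.inl (Finset.mem_inter.1 hv).2))
        (gen_notMem Q q fun h => hqD (Finset.mem_inter.1 (Finset.mem_coe.1 h)).1), hS]
      simp
    rw [bn_insert_eq hr hs hN (gen_notMem Q p fun h => ?_) hU, h1]
    rcases Finset.mem_insert.1 (Finset.mem_coe.1 h) with h | h
    · exact hpq' h
    · exact hpD (Finset.mem_inter.1 h).2
  have hA3 : ∀ i, bn r Q (Racg.gen Q) (insert q (insert y (insert p (D ∩ D')))) i = 0 := by
    intro i
    have hyS : y ∉ D ∩ D' := fun h => hyD (Finset.mem_inter.1 h).1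
    have hpS : p ∉ D ∩ D' := fun h => hpD (Finset.mem_inter.1 h).2
    have hqS : q ∉ D ∩ D' := fun h => hqD (Finset.mem_inter.1 h).1
    have h1 : ∀ i, bn r Q (Racg.gen Q) (insert y (insert p (D ∩ D'))) i = 0 := fun i =>
      bn_suspension hr hs hyS hpS hyp hyp' (fun v hv => (hy v).2 (Or.inl (Finset.mem_inter.1 hv).1))
        (fun v hv => (hp v).2 (Or.inl (Finset.mem_inter.1 hv).1))
        (fun n hn => gen_mul_gen_pow Q hyp hyp' n hn) (gen_notMem Q y (by simpa using hyS))
        (gen_notMem Q p (by simpa using hpS)) i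
    have hN : Nbr Q q (insert y (insert p (D ∩ D'))) (insert p (D ∩ D')) := by
      refine ⟨?_, fun v => ?_⟩
      · simp only [Finset.mem_insert, not_or]
        exact ⟨fun h => hyq h.symm, fun h => hpq' h.symm, hqS⟩
      · simp only [Finset.mem_insert, Finset.mem_inter, hq]
        constructor
        · rintro (rfl | ⟨h1, h2⟩)
          · exact ⟨Or.inr (Or.inl rfl), Or.inr rfl⟩
          · exact ⟨Or.inr (Or.inr ⟨h1, h2⟩), Or.inl h2⟩
        · rintro ⟨h1, h2 | rfl⟩
          · rcases h1 with rfl | rfl | h1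
            · exact absurd h2 hyD'
            · exact absurd h2 hpD
            · exact Or.inr h1
          · exact Or.inl rfl
    have hU : ∀ i, bn r Q (Racg.gen Q) (insert p (D ∩ D')) i = 0 := fun i => by
      rw [bn_cone hr hs hpS (fun v hv => (hp v).2 (Or.inl (Finset.mem_inter.1 hv).1))
        (gen_notMem Q p fun h => hpS (Finset.mem_coe.1 h)), hS]
      simp
    rw [bn_insert_eq hr hs hN (gen_notMem Q q fun h => ?_) hU, h1]
    rcases Finset.mem_insert.1 (Finset.mem_coe.1 h) with h | h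
    · exact hpq' h.symm
    · exact hqS h
  -- Mayer-Vietoris
  have hun : (insert q (insert y (insert p D))) ∪ (insert p (insert y (insert q D'))) = Finset.univ := by
    ext v
    simp only [Finset.mem_union, Finset.mem_insert, Finset.mem_univ, iff_true]
    rcases hcov v with h | h | h | h | h <;> simp [h]
  have hin : (insert q (insert y (insert p D))) ∩ (insert p (insert y (insert q D'))) =
      insert q (insert y (insert p (D ∩ D'))) := by
    ext v
    simp only [Finset.mem_inter, Finset.mem_insert]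
    constructor
    · rintro ⟨h1, h2⟩
      rcases h1 with h | h | h | h
      · exact Or.inl h
      · exact Or.inr (Or.inl h)
      · exact Or.inr (Or.inr (Or.inl h))
      · rcases h2 with h2 | h2 | h2 | h2
        · exact Or.inr (Or.inr (Or.inl h2))
        · exact Or.inr (Or.inl h2)
        · exact Or.inl h2
        · exact Or.inr (Or.inr (Or.inr ⟨h, h2⟩))
    · rintro (h | h | h | ⟨h1, h2⟩)
      · exact ⟨Or.inl h, Or.inr (Or.inr (Or.inl h))⟩
      · exact ⟨Or.inr (Or.inl h), Or.inr (Or.inl h)⟩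
      · exact ⟨Or.inr (Or.inr (Or.inl h)), Or.inl h⟩
      · exact ⟨Or.inr (Or.inr (Or.inr h1)), Or.inr (Or.inr (Or.inr h2))⟩
  have hno' : ∀ u ∈ insert q (insert y (insert p D)), u ∉ insert p (insert y (insert q D')) →
      ∀ v ∈ insert p (insert y (insert q D')), v ∉ insert q (insert y (insert p D)) → ¬ Q.Adj u v := by
    intro u hu hu' v hv hv'
    simp only [Finset.mem_insert, not_or] at hu hu' hv hv'
    refine hno u ?_ hu'.2.2.2 v ?_ hv'.2.2.2
    · rcases hu with h | h | h | h
      · exact absurd h hu'.2.2.1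
      · exact absurd h hu'.2.1
      · exact absurd h hu'.1
      · exact h
    · rcases hv with h | h | h | h
      · exact absurd h hv'.2.2.1
      · exact absurd h hv'.2.1
      · exact absurd h hv'.1
      · exact h
  rw [← hun]
  apply le_antisymm _ (bn_nonneg _ _ _ hr _ _)
  cases i with
  | zero =>
    have := bn_union_zero_le (s := Racg.gen Q) hr hno'
    rw [hA1, hA2] at this
    linarith
  | succ i =>
    have := bn_union_succ_le (s := Racg.gen Q) hr hno' i
    rw [hA1, hA2, hin, hA3] at this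
    linarith

/-- even case: the union of the stars of `p` and `q` -/
theorem bn_two_stars {G : SimpleGraph V} {p q : V} {D D' : Finset V} (hpq : G.Adj p q)
    (hp : ∀ v, G.Adj p v ↔ v ∈ D ∨ v = q) (hq : ∀ v, G.Adj q v ↔ v ∈ D' ∨ v = p) (hpD : p ∉ D') (hqD : q ∉ D)
    (hno : ∀ u ∈ D, u ∉ D' → ∀ v ∈ D', v ∉ D → ¬ G.Adj u v) {r : V → ℕ} (hr : Function.Injective r) {m : ℕ}
    (h1 : ∀ i, bn r G (Racg.gen G) (insert q D) i = 0) (h2 : ∀ i, bn r G (Racg.gen G) (insert p D') i = 0)
    (hS : ∀ i, 2 * i ≠ m → bn r G (Racg.gen G) (D ∩ D') i = 0) (i : ℕ) (hi : 2 * i ≠ m + 2) :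
    bn r G (Racg.gen G) (insert p (insert q (D ∪ D'))) i = 0 := by
  have hs := isSys_gen G
  have hpq' : p ≠ q := hpq.ne
  have hpD0 : p ∉ D := fun h => G.loopless.1 p ((hp p).2 (Or.inl h))
  have hqD0 : q ∉ D' := fun h => G.loopless.1 q ((hq q).2 (Or.inl h))
  have hqS : q ∉ D ∩ D' := fun h => hqD (Finset.mem_inter.1 h).1
  have hpS : p ∉ D ∩ D' := fun h => hpD (Finset.mem_inter.1 h).2
  have hpqD : p ∉ insert q D := fun h => (Finset.mem_insert.1 h).elim hpq' hpD0
  have hqpD : q ∉ insert p D' := fun h => (Finset.mem_insert.1 h).elim (fun h => hpq' h.symm) hqD0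
  have hpqS : p ∉ insert q (D ∩ D') := fun h => (Finset.mem_insert.1 h).elim hpq' hpS
  have hA1 : ∀ i, bn r G (Racg.gen G) (insert p (insert q D)) i = 0 := fun i => by
    rw [bn_cone hr hs hpqD (fun v hv => (hp v).2 ((Finset.mem_insert.1 hv).symm))
      (gen_notMem G p fun h => hpqD (Finset.mem_coe.1 h)), h1]
    simp
  have hA2 : ∀ i, bn r G (Racg.gen G) (insert q (insert p D')) i = 0 := fun i => by
    rw [bn_cone hr hs hqpD (fun v hv => (hq v).2 ((Finset.mem_insert.1 hv).symm))
      (gen_notMem G q fun h => hqpD (Finset.mem_coe.1 h)), h2]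
    simp
  have hA3 : ∀ i, 2 * i ≠ m → bn r G (Racg.gen G) (insert p (insert q (D ∩ D'))) i = 0 := fun i hi => by
    rw [bn_cone hr hs hpqS ?_ (gen_notMem G p fun h => hpqS (Finset.mem_coe.1 h)),
      bn_cone hr hs hqS ?_ (gen_notMem G q fun h => hqS (Finset.mem_coe.1 h)), hS i hi]
    · simp
    · exact fun v hv => (hq v).2 (Or.inl (Finset.mem_inter.1 hv).2)
    · intro v hv
      rcases Finset.mem_insert.1 hv with h | h
      · exact (hp v).2 (Or.inr h)
      · exact (hp v).2 (Or.inl (Finset.mem_inter.1 h).1)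
  have hun : (insert p (insert q D)) ∪ (insert q (insert p D')) = insert p (insert q (D ∪ D')) := by
    ext v
    simp only [Finset.mem_union, Finset.mem_insert]
    tauto
  have hin : (insert p (insert q D)) ∩ (insert q (insert p D')) = insert p (insert q (D ∩ D')) := by
    ext v
    simp only [Finset.mem_inter, Finset.mem_insert]
    tauto
  have hno' : ∀ u ∈ insert p (insert q D), u ∉ insert q (insert p D') →
      ∀ v ∈ insert q (insert p D'), v ∉ insert p (insert q D) → ¬ G.Adj u v := by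
    intro u hu hu' v hv hv'
    simp only [Finset.mem_insert, not_or] at hu hu' hv hv'
    refine hno u ?_ hu'.2.2 v ?_ hv'.2.2
    · rcases hu with h | h | h
      · exact absurd h hu'.2.1
      · exact absurd h hu'.1
      · exact h
    · rcases hv with h | h | h
      · exact absurd h hv'.2.1
      · exact absurd h hv'.1
      · exact h
  rw [← hun]
  apply le_antisymm _ (bn_nonneg _ _ _ hr _ _)
  cases i with
  | zero =>
    have := bn_union_zero_le (s := Racg.gen G) hr hno'
    rw [hA1, hA2] at this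
    linarith
  | succ i =>
    have := bn_union_succ_le (s := Racg.gen G) hr hno' i
    rw [hA1, hA2, hin, hA3 i (by omega)] at this
    linarith

/-- the full subgraphs on two equal subsets are isomorphic -/
def resIso (G : SimpleGraph V) {P P' : V → Prop} (h : ∀ v, P v ↔ P' v) :
    (G.comap (Subtype.val : {v // P v} → V)) ≃g (G.comap (Subtype.val : {v // P' v} → V)) where
  toEquiv := Equiv.subtypeEquivRight h
  map_rel_iff' := Iff.rfl

/-- vertex splitting: `cap G K B` is the contraction of the edge `pq` -/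
theorem bet_split {G : SimpleGraph V} [DecidableRel G.Adj] {p q : V} {K B : Finset V} (hpq : G.Adj p q)
    (hK : ∀ v, v ∈ K ↔ v ≠ p ∧ v ≠ q) (hB : ∀ v, v ∈ B ↔ v ∈ K ∧ (G.Adj p v ∨ G.Adj q v))
    (hsq : ∀ x y, G.Adj p x → G.Adj x y → G.Adj y q → x = q ∨ y = p ∨ G.Adj q x ∨ G.Adj p y) {m : ℕ}
    (hL : ∀ i, 2 * i ≠ m + 2 → bet (cap G K B) i = 0) (h0 : ∀ i, 2 * i ≠ m + 1 → bet (res G B) i = 0)
    (hp : ∀ i, 2 * i ≠ m + 1 → bet (lk G p) i = 0) (hq : ∀ i, 2 * i ≠ m + 1 → bet (lk G q) i = 0)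
    (hS : ∀ i, 2 * i ≠ m → bet (G.comap (Subtype.val : {v // G.Adj p v ∧ G.Adj q v} → V)) i = 0)
    (i : ℕ) (hi : 2 * i ≠ m + 2) : bet G i = 0 := by
  classical
  have hpq' : p ≠ q := hpq.ne
  have hpB : p ∉ B := fun h => ((hK p).1 ((hB p).1 h).1).1 rfl
  have hqB : q ∉ B := fun h => ((hK q).1 ((hB q).1 h).1).2 rfl
  have hBK : B ⊆ K := fun v hv => ((hB v).1 hv).1
  obtain ⟨K2, hK2⟩ : ∃ K2 : Finset V, ∀ v, v ∈ K2 ↔ v = p ∨ v = q ∨ v ∈ B :=
    ⟨insert p (insert q B), fun v => by simp⟩
  have hcov : ∀ v, v ∈ K ∨ v ∈ K2 := by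
    intro v
    by_cases h1 : v = p
    · exact Or.inr ((hK2 v).2 (Or.inl h1))
    by_cases h2 : v = q
    · exact Or.inr ((hK2 v).2 (Or.inr (Or.inl h2)))
    exact Or.inl ((hK v).2 ⟨h1, h2⟩)
  have hBi : ∀ v, v ∈ B ↔ v ∈ K ∧ v ∈ K2 := by
    intro v
    constructor
    · exact fun h => ⟨hBK h, (hK2 v).2 (Or.inr (Or.inr h))⟩
    · rintro ⟨h1, h2⟩
      rcases (hK2 v).1 h2 with h | h | h
      · exact absurd h ((hK v).1 h1).1
      · exact absurd h ((hK v).1 h1).2
      · exact h
  have hno : ∀ u v, u ∉ K2 → v ∉ K → ¬ G.Adj u v := by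
    intro u v hu hv huv
    have hu1 : u ≠ p := fun h => hu ((hK2 u).2 (Or.inl h))
    have hu2 : u ≠ q := fun h => hu ((hK2 u).2 (Or.inr (Or.inl h)))
    have hu3 : u ∉ B := fun h => hu ((hK2 u).2 (Or.inr (Or.inr h)))
    have hv' : v = p ∨ v = q := by
      by_contra hc
      rw [not_or] at hc
      exact hv ((hK v).2 hc)
    rcases hv' with rfl | rfl
    · exact hu3 ((hB u).2 ⟨(hK u).2 ⟨hu1, hu2⟩, Or.inl huv.symm⟩)
    · exact hu3 ((hB u).2 ⟨(hK u).2 ⟨hu1, hu2⟩, Or.inr huv.symm⟩)
  rcases Nat.even_or_odd m with hm | hm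
  · -- `m` even
    have hm' : ∀ i, 2 * i ≠ m + 1 := by
      obtain ⟨k, hk⟩ := hm
      intro i
      omega
    obtain ⟨r, hr⟩ : ∃ r : V → ℕ, Function.Injective r :=
      ⟨rk, fun a b h => (Fintype.equivFin V).injective (Fin.ext h)⟩
    set D : Finset V := Finset.univ.filter fun v => G.Adj p v ∧ v ≠ q with hD
    set D' : Finset V := Finset.univ.filter fun v => G.Adj q v ∧ v ≠ p with hD'
    have hmD : ∀ v, v ∈ D ↔ G.Adj p v ∧ v ≠ q := fun v => by simp [hD]
    have hmD' : ∀ v, v ∈ D' ↔ G.Adj q v ∧ v ≠ p := fun v => by simp [hD']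
    have e1 : ∀ v, v ∈ insert q D ↔ G.Adj p v := by
      intro v
      rw [Finset.mem_insert, hmD]
      constructor
      · rintro (rfl | h)
        · exact hpq
        · exact h.1
      · intro h
        by_cases hv : v = q
        · exact Or.inl hv
        · exact Or.inr ⟨h, hv⟩
    have e2 : ∀ v, v ∈ insert p D' ↔ G.Adj q v := by
      intro v
      rw [Finset.mem_insert, hmD']
      constructor
      · rintro (rfl | h)
        · exact hpq.symm
        · exact h.1
      · intro h
        by_cases hv : v = p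
        · exact Or.inl hv
        · exact Or.inr ⟨h, hv⟩
    have e3 : ∀ v, v ∈ D ∩ D' ↔ G.Adj p v ∧ G.Adj q v := by
      intro v
      rw [Finset.mem_inter, hmD, hmD']
      constructor
      · exact fun h => ⟨h.1.1, h.2.1⟩
      · exact fun h => ⟨⟨h.1, h.2.ne'⟩, h.2, h.1.ne'⟩
    have h1 : ∀ i, bn r G (Racg.gen G) (insert q D) i = 0 := fun i => by
      rw [bn_eq_bet G hr, bet_iso (resIso G e1) i]
      exact hp i (hm' i)
    have h2 : ∀ i, bn r G (Racg.gen G) (insert p D') i = 0 := fun i => by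
      rw [bn_eq_bet G hr, bet_iso (resIso G e2) i]
      exact hq i (hm' i)
    have h3 : ∀ i, 2 * i ≠ m → bn r G (Racg.gen G) (D ∩ D') i = 0 := fun i hi => by
      rw [bn_eq_bet G hr, bet_iso (resIso G e3) i]
      exact hS i hi
    have h4 : ∀ i, bn r G (Racg.gen G) B i = 0 := fun i => by
      rw [bn_eq_bet G hr]
      exact h0 i (hm' i)
    have h5 : ∀ i, 2 * i ≠ m + 2 → bn r G (Racg.gen G) K i = 0 := fun i hi => by
      rw [← cap_eq G hBK hr h4]
      exact hL i hi
    have e4 : K2 = insert p (insert q (D ∪ D')) := by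
      ext v
      rw [hK2, Finset.mem_insert, Finset.mem_insert, Finset.mem_union, hmD, hmD', hB, hK]
      constructor
      · rintro (h | h | ⟨⟨h1, h2⟩, h3 | h3⟩)
        · exact Or.inl h
        · exact Or.inr (Or.inl h)
        · exact Or.inr (Or.inr (Or.inl ⟨h3, h2⟩))
        · exact Or.inr (Or.inr (Or.inr ⟨h3, h1⟩))
      · rintro (h | h | h | h)
        · exact Or.inl h
        · exact Or.inr (Or.inl h)
        · exact Or.inr (Or.inr ⟨⟨h.1.ne', h.2⟩, Or.inl h.1⟩)
        · exact Or.inr (Or.inr ⟨⟨h.2, h.1.ne'⟩, Or.inr h.1⟩)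
    have h6 : ∀ i, 2 * i ≠ m + 2 → bn r G (Racg.gen G) K2 i = 0 := fun i hi => by
      rw [e4]
      refine bn_two_stars hpq ?_ ?_ ?_ ?_ ?_ hr h1 h2 h3 i hi
      · intro v
        rw [← e1 v, Finset.mem_insert, or_comm]
      · intro v
        rw [← e2 v, Finset.mem_insert, or_comm]
      · rw [hmD']
        exact fun h => h.2 rfl
      · rw [hmD]
        exact fun h => h.2 rfl
      · intro u hu hu' v hv hv' huv
        rw [hmD] at hu hv'
        rw [hmD'] at hu' hv
        rcases hsq u v hu.1 huv hv.1.symm with h | h | h | h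
        · exact hu.2 h
        · exact hv.2 h
        · exact hu' ⟨h, hu.1.ne'⟩
        · exact hv' ⟨h, hv.1.ne'⟩
    have hun : K ∪ K2 = Finset.univ := by
      ext v
      simp only [Finset.mem_union, Finset.mem_univ, iff_true]
      exact hcov v
    have hin : K ∩ K2 = B := by
      ext v
      rw [Finset.mem_inter]
      exact (hBi v).symm
    have hno' : ∀ u ∈ K, u ∉ K2 → ∀ v ∈ K2, v ∉ K → ¬ G.Adj u v := fun u _ hu v _ hv => hno u v hu hv
    rw [bet_eq_bn G hr, ← hun]
    apply le_antisymm _ (bn_nonneg _ _ _ hr _ _)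
    cases i with
    | zero =>
      have := bn_union_zero_le (s := Racg.gen G) hr hno'
      rw [h5 0 hi, h6 0 hi] at this
      linarith
    | succ i =>
      have := bn_union_succ_le (s := Racg.gen G) hr hno' i
      rw [h5 _ hi, h6 _ hi, hin, h4] at this
      linarith
  · -- `m` odd
    have hm' : ∀ i, 2 * i ≠ m := by
      obtain ⟨k, hk⟩ := hm
      intro i
      omega
    refine bet_glue (m := m + 1) hcov hBi hno h0 hL (fun i hi => ?_) i hi
    have hpK2 : p ∈ K2 := (hK2 p).2 (Or.inl rfl)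
    have hqK2 : q ∈ K2 := (hK2 q).2 (Or.inr (Or.inl rfl))
    set Q := cap G K2 B with hQ
    obtain ⟨r, hr⟩ : ∃ r : Option {v // v ∈ K2} → ℕ, Function.Injective r :=
      ⟨rk, fun a b h => (Fintype.equivFin _).injective (Fin.ext h)⟩
    set p' : Option {v // v ∈ K2} := some ⟨p, hpK2⟩ with hp'
    set q' : Option {v // v ∈ K2} := some ⟨q, hqK2⟩ with hq'
    have a1 : ∀ u v : {v // v ∈ K2}, Q.Adj (some u) (some v) ↔ G.Adj u v := fun u v => Iff.rfl
    have a2 : ∀ u : {v // v ∈ K2}, Q.Adj none (some u) ↔ (u : V) ∈ B := fun u => Iff.rfl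
    have a3 : ∀ u : {v // v ∈ K2}, Q.Adj (some u) none ↔ (u : V) ∈ B := fun u => Iff.rfl
    have sp : ∀ u : {v // v ∈ K2}, some u = p' ↔ (u : V) = p := fun u => by
      rw [hp', Option.some_inj, Subtype.ext_iff]
    have sq : ∀ u : {v // v ∈ K2}, some u = q' ↔ (u : V) = q := fun u => by
      rw [hq', Option.some_inj, Subtype.ext_iff]
    have spn : ∀ u : {v // v ∈ K2}, some u ≠ p' ↔ (u : V) ≠ p := fun u => not_congr (sp u)
    have sqn : ∀ u : {v // v ∈ K2}, some u ≠ q' ↔ (u : V) ≠ q := fun u => not_congr (sq u)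
    set D : Finset (Option {v // v ∈ K2}) := Finset.univ.filter fun v => Q.Adj p' v ∧ v ≠ q' with hD
    set D' : Finset (Option {v // v ∈ K2}) := Finset.univ.filter fun v => Q.Adj q' v ∧ v ≠ p' with hD'
    have hmD : ∀ v, v ∈ D ↔ Q.Adj p' v ∧ v ≠ q' := fun v => by simp [hD]
    have hmD' : ∀ v, v ∈ D' ↔ Q.Adj q' v ∧ v ≠ p' := fun v => by simp [hD']
    have nD : none ∉ D := fun h => hpB ((hmD _).1 h).1
    have nD' : none ∉ D' := fun h => hqB ((hmD' _).1 h).1
    rw [bet_eq_bn Q hr]
    refine bn_double_star (y := none) (p := p') (q := q') (D := D) (D' := D') (by simp [hp']) (by simp [hq'])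
      hpq ?_ ?_ ?_ nD nD' ?_ ?_ ?_ ?_ hr ?_ i
    · rintro (_ | u)
      · exact ⟨fun h => h.elim, fun h => h.elim (fun h => absurd h nD) fun h => absurd h nD'⟩
      · rw [a2, hmD, hmD', hB, hK, spn, sqn]
        change _ ↔ (G.Adj p u ∧ _) ∨ (G.Adj q u ∧ _)
        constructor
        · rintro ⟨⟨h1, h2⟩, h3 | h3⟩
          · exact Or.inl ⟨h3, h2⟩
          · exact Or.inr ⟨h3, h1⟩
        · rintro (h | h)
          · exact ⟨⟨h.1.ne', h.2⟩, Or.inl h.1⟩
          · exact ⟨⟨h.2, h.1.ne'⟩, Or.inr h.1⟩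
    · intro v
      rw [hmD]
      constructor
      · intro h
        by_cases hv : v = q'
        · exact Or.inr hv
        · exact Or.inl ⟨h, hv⟩
      · rintro (h | rfl)
        · exact h.1
        · exact hpq
    · intro v
      rw [hmD']
      constructor
      · intro h
        by_cases hv : v = p'
        · exact Or.inr hv
        · exact Or.inl ⟨h, hv⟩
      · rintro (h | rfl)
        · exact h.1
        · exact hpq.symm
    · rw [hmD']
      exact fun h => h.2 rfl
    · rw [hmD]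
      exact fun h => h.2 rfl
    · rintro (_ | u) hu hu' (_ | v) hv hv' huv
      · exact nD hu
      · exact nD hu
      · exact nD' hv
      · rw [hmD, sqn] at hu hv'
        rw [hmD', spn] at hu' hv
        have hu1 : G.Adj p u := hu.1
        have hv1 : G.Adj q v := hv.1
        have huv1 : G.Adj u v := huv
        rcases hsq u v hu1 huv1 hv1.symm with h | h | h | h
        · exact hu.2 h
        · exact hv.2 h
        · exact hu' ⟨h, hu1.ne'⟩
        · exact hv' ⟨h, hv1.ne'⟩
    · rintro (_ | u)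
      · exact Or.inl rfl
      · rw [hmD, hmD', spn, sqn, sp, sq]
        change _ ∨ _ ∨ _ ∨ (G.Adj p u ∧ _) ∨ (G.Adj q u ∧ _)
        rcases (hK2 u).1 u.2 with h | h | h
        · exact Or.inr (Or.inl h)
        · exact Or.inr (Or.inr (Or.inl h))
        · obtain ⟨h1, h2⟩ := (hB u).1 h
          obtain ⟨h3, h4⟩ := (hK u).1 h1
          rcases h2 with h2 | h2
          · exact Or.inr (Or.inr (Or.inr (Or.inl ⟨h2, h4⟩)))
          · exact Or.inr (Or.inr (Or.inr (Or.inr ⟨h2, h3⟩)))
    · intro j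
      rw [bn_eq_bet Q hr]
      have e : ∀ v : V, G.Adj p v ∧ G.Adj q v → v ∈ K2 := fun v hv =>
        (hK2 v).2 (Or.inr (Or.inr ((hB v).2 ⟨(hK v).2 ⟨hv.1.ne', hv.2.ne'⟩, Or.inl hv.1⟩)))
      have hmem : ∀ v : {v : V // G.Adj p v ∧ G.Adj q v}, some ⟨v.1, e v.1 v.2⟩ ∈ D ∩ D' := by
        intro v
        rw [Finset.mem_inter, hmD, hmD', spn, sqn]
        exact ⟨⟨v.2.1, v.2.2.ne'⟩, v.2.2, v.2.1.ne'⟩
      let f : {v : V // G.Adj p v ∧ G.Adj q v} → {v // v ∈ D ∩ D'} := fun v => ⟨some ⟨v.1, e v.1 v.2⟩, hmem v⟩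
      have hf : Function.Bijective f := by
        constructor
        · intro a b hab
          have h1 : (some ⟨a.1, e a.1 a.2⟩ : Option {v // v ∈ K2}) = some ⟨b.1, e b.1 b.2⟩ :=
            congrArg Subtype.val hab
          rw [Option.some_inj, Subtype.mk.injEq] at h1
          exact Subtype.ext h1
        · rintro ⟨(_ | u), hu⟩
          · exact absurd (Finset.mem_inter.1 hu).1 nD
          · have h1 := ((hmD _).1 (Finset.mem_inter.1 hu).1).1
            have h2 := ((hmD' _).1 (Finset.mem_inter.1 hu).2).1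
            exact ⟨⟨u.1, h1, h2⟩, rfl⟩
      have g : (G.comap (Subtype.val : {v // G.Adj p v ∧ G.Adj q v} → V)) ≃g res Q (D ∩ D') :=
        { toEquiv := Equiv.ofBijective f hf
          map_rel_iff' := Iff.rfl }
      rw [← bet_iso g]
      exact hS j (hm' j)

end split

end Singer
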