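import Mathlib

/-!
# Right-angled Coxeter groups and a class of flag homology spheres

* `Cox G` : the right-angled Coxeter group of the graph `G`;
* `link`, `conef`, `susp`, `subd` : link of a vertex, full subgraph with a cone point, suspension, edge subdivision;
* `SphereCond G` : the clique complex of `G` without a nonempty clique is acyclic;
* `Cls n G` : the class of graphs.
-/

set_option autoImplicit false

namespace SingerPD

/-- the relations of the right-angled Coxeter group: `v ^ 2 = 1`, and `u v = v u` for adjacent `u`, `v` -/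
def rels {V : Type} (G : SimpleGraph V) : Set (FreeGroup V) :=
  {w | (∃ v, w = FreeGroup.of v * FreeGroup.of v) ∨
    ∃ u v, G.Adj u v ∧ w = FreeGroup.of u * FreeGroup.of v * (FreeGroup.of u)⁻¹ * (FreeGroup.of v)⁻¹}

/-- the right-angled Coxeter group of a graph -/
abbrev Cox {V : Type} (G : SimpleGraph V) : Type := PresentedGroup (rels G)

/-- the link of a vertex: the full subgraph on its neighbours -/
def link {V : Type} (G : SimpleGraph V) (v : V) : SimpleGraph {w // G.Adj v w} := G.comap Subtype.val

/-- adjacency in the full subgraph on `K` with a cone point `none` over `B` -/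
def coneAdj {V : Type} (G : SimpleGraph V) (K B : Finset V) : Option {v // v ∈ K} → Option {v // v ∈ K} → Prop
  | some u, some v => G.Adj u v
  | none, some v => (v : V) ∈ B
  | some u, none => (u : V) ∈ B
  | none, none => False

/-- the full subgraph on `K`, with a cone point `none` over `B` -/
def conef {V : Type} (G : SimpleGraph V) (K B : Finset V) : SimpleGraph (Option {v // v ∈ K}) where
  Adj := coneAdj G K B
  symm := ⟨by
    rintro (_ | u) (_ | v) h
    · exact h
    · exact h
    · exact h
    · exact SimpleGraph.Adj.symm h⟩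
  loopless := ⟨by
    rintro (_ | u) h
    · exact h
    · exact G.loopless.1 _ h⟩

/-- the suspension: two new vertices, adjacent to all old vertices and not to each other -/
def susp {V : Type} (G : SimpleGraph V) : SimpleGraph (V ⊕ Bool) where
  Adj x y := (∃ u v, x = .inl u ∧ y = .inl v ∧ G.Adj u v) ∨ x.isLeft ≠ y.isLeft
  symm := ⟨by
    rintro x y (⟨u, v, hx, hy, h⟩ | h)
    · exact Or.inl ⟨v, u, hy, hx, h.symm⟩
    · exact Or.inr (Ne.symm h)⟩
  loopless := ⟨by
    rintro x (⟨u, v, hx, hy, h⟩ | h)
    · rw [hx] at hy
      exact h.ne (Sum.inl_injective hy)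
    · exact h rfl⟩

/-- adjacency in the subdivision of the edge `a b`; the new vertex is `none` -/
def subdAdj {V : Type} (G : SimpleGraph V) (a b : V) : Option V → Option V → Prop
  | some u, some v => G.Adj u v ∧ ¬ (u = a ∧ v = b) ∧ ¬ (u = b ∧ v = a)
  | none, some v => v = a ∨ v = b ∨ (G.Adj a v ∧ G.Adj b v)
  | some u, none => u = a ∨ u = b ∨ (G.Adj a u ∧ G.Adj b u)
  | none, none => False

/-- subdivision of the edge `a b`: the edge is removed, the new vertex `none` is adjacent to `a`, to `b` and to their
common neighbours -/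
def subd {V : Type} (G : SimpleGraph V) (a b : V) : SimpleGraph (Option V) where
  Adj := subdAdj G a b
  symm := ⟨by
    rintro (_ | u) (_ | v) h
    · exact h
    · exact h
    · exact h
    · exact ⟨SimpleGraph.Adj.symm h.1, fun h1 => h.2.2 ⟨h1.2, h1.1⟩, fun h1 => h.2.1 ⟨h1.2, h1.1⟩⟩⟩
  loopless := ⟨by
    rintro (_ | u) h
    · exact h
    · exact G.loopless.1 _ h.1⟩

open Classical in
/-- the simplicial coboundary of a function `c` of finite sets of vertices, with signs from the order given by `r` -/
noncomputable def cob {V : Type} (r : V → ℕ) (c : Finset V → ℤ) (T : Finset V) : ℤ :=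
  ∑ v ∈ T, (-1) ^ ((T.erase v).filter fun t => r t < r v).card * c (T.erase v)

/-- the augmented cochain complex of the simplicial complex of the cliques which do not meet `σ` is exact -/
def Acyclic {V : Type} (G : SimpleGraph V) (σ : Finset V) (r : V → ℕ) : Prop :=
  ∀ c : Finset V → ℤ, (∀ S : Finset V, ¬ (G.IsClique S ∧ Disjoint S σ) → c S = 0) →
    (∀ T : Finset V, G.IsClique T ∧ Disjoint T σ → cob r c T = 0) →
    ∃ e : Finset V → ℤ, (∀ S : Finset V, ¬ (G.IsClique S ∧ Disjoint S σ) → e S = 0) ∧
      ∀ T : Finset V, G.IsClique T ∧ Disjoint T σ → cob r e T = c T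

/-- the sphere condition: `G` has a vertex, and for every nonempty clique `σ` the simplicial complex of the cliques
which do not meet `σ` is acyclic (for every choice of the order `r` of the vertices) -/
def SphereCond {V : Type} (G : SimpleGraph V) : Prop :=
  Nonempty V ∧ ∀ σ : Finset V, σ.Nonempty → G.IsClique σ → ∀ r : V → ℕ, Function.Injective r → Acyclic G σ r

/-- the class of graphs: it contains the empty graph, and it is closed under suspension, edge subdivision, glueing along
full subgraphs of codimension one (`glue`), splitting of vertices (`split`: `conef G K B` is `G` with the edge `p q`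
contracted), isomorphism; for odd `n` a graph with the sphere condition with links in `Cls n` is in `Cls (n + 1)` -/
inductive Cls : ∀ (_ : ℕ) {V : Type}, SimpleGraph V → Prop
  | empty {V : Type} (h : IsEmpty V) (G : SimpleGraph V) : Cls 0 G
  | susp {n : ℕ} {V : Type} {G : SimpleGraph V} : Cls n G → Cls (n + 1) (susp G)
  | subd {n : ℕ} {V : Type} {G : SimpleGraph V} {a b : V} : Cls n G → G.Adj a b → Cls n (subd G a b)
  | glue {n : ℕ} {V : Type} {G : SimpleGraph V} {K K' B : Finset V} : (∀ v, v ∈ K ∨ v ∈ K') →
      (∀ v, v ∈ B ↔ v ∈ K ∧ v ∈ K') → (∀ u v, u ∉ K' → v ∉ K → ¬ G.Adj u v) →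
      Cls n (conef G K B) → Cls n (conef G K' B) → Cls n G
  | split {n : ℕ} {V : Type} {G : SimpleGraph V} {p q : V} {K B : Finset V} : G.Adj p q →
      (∀ v, v ∈ K ↔ v ≠ p ∧ v ≠ q) → (∀ v, v ∈ B ↔ v ∈ K ∧ (G.Adj p v ∨ G.Adj q v)) →
      (∀ x y, G.Adj p x → G.Adj x y → G.Adj y q → x = q ∨ y = p ∨ G.Adj q x ∨ G.Adj p y) →
      Cls (n + 1) (conef G K B) → Cls n (link G p) → Cls n (link G q) → Cls (n + 1) G
  | even {n : ℕ} {V : Type} {G : SimpleGraph V} : Odd n → Finite V → SphereCond G →
      (∀ v : V, Cls n (link G v)) → Cls (n + 1) G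
  | iso {n : ℕ} {V W : Type} {G : SimpleGraph V} {H : SimpleGraph W} : Cls n G → (G ≃g H) → Cls n H

end SingerPD
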