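import Pool.Agent.Singer.Stmt3

/-!
# A class of flag homology spheres which contains all order complexes

* `HSphere n G` (Stmt3) : the clique complex of `G` is a flag homology sphere of dimension `n - 1`;
* `Cls n G` : the class of graphs; it contains all flag homology spheres of dimension at most three, and all flag homology
  spheres which are order complexes of partially ordered sets (for example the barycentric subdivisions of the regular
  cell structures on spheres).
-/

set_option autoImplicit false

namespace SingerOrd

open SingerPD SingerCube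

/-- the class of graphs: it contains all flag homology spheres of dimension at most three (`low`) and all flag homology
spheres of any dimension whose graph is the comparability graph of a partial order on the set of vertices (`ord`), it is
closed under suspension, edge subdivision, glueing along full subgraphs of codimension one (`glue`), splitting of vertices
(`split`: `conef G K B` is `G` with the edge `p q` contracted), isomorphism; for odd `n` a finite graph with the sphere
condition with links in `Cls n` is in `Cls (n + 1)` (`even`) -/
inductive Cls : ∀ (_ : ℕ) {V : Type}, SimpleGraph V → Prop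
  | low {n : ℕ} {V : Type} {G : SimpleGraph V} : n ≤ 4 → HSphere n G → Cls n G
  | ord {n : ℕ} {V : Type} [PartialOrder V] {G : SimpleGraph V} : (∀ a b, G.Adj a b ↔ a < b ∨ b < a) →
      HSphere n G → Cls n G
  | susp {n : ℕ} {V : Type} {G : SimpleGraph V} : Cls n G → Cls (n + 1) (SingerPD.susp G)
  | subd {n : ℕ} {V : Type} {G : SimpleGraph V} {a b : V} : Cls n G → G.Adj a b → Cls n (SingerPD.subd G a b)
  | glue {n : ℕ} {V : Type} {G : SimpleGraph V} {K K' B : Finset V} : (∀ v, v ∈ K ∨ v ∈ K') →
      (∀ v, v ∈ B ↔ v ∈ K ∧ v ∈ K') → (∀ u v, u ∉ K' → v ∉ K → ¬ G.Adj u v) →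
      Cls n (conef G K B) → Cls n (conef G K' B) → Cls n G
  | split {n : ℕ} {V : Type} {G : SimpleGraph V} {p q : V} {K B : Finset V} : G.Adj p q →
      (∀ v, v ∈ K ↔ v ≠ p ∧ v ≠ q) → (∀ v, v ∈ B ↔ v ∈ K ∧ (G.Adj p v ∨ G.Adj q v)) →
      (∀ x y, G.Adj p x → G.Adj x y → G.Adj y q → x = q ∨ y = p ∨ G.Adj q x ∨ G.Adj p y) →
      Cls (n + 1) (conef G K B) → Cls n (link G p) → Cls n (link G q) → Cls (n + 1) G
  | even {n : ℕ} {V : Type} {G : SimpleGraph V} : Odd n → Finite V → SphereCond G →
      (∀ v : V, Cls n (link G v)) → Cls (n + 1) G
  | iso {n : ℕ} {V W : Type} {G : SimpleGraph V} {H : SimpleGraph W} : Cls n G → (G ≃g H) → Cls n H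

end SingerOrd
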