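import Pool.Agent.Singer.Stmt3

/-!
# A class of flag homology spheres which contains all order complexes and all spheres with a positive configuration

* `HSphere n G` (Stmt3) : the clique complex of `G` is a flag homology sphere of dimension `n - 1`;
* `Cls n G` : the class of graphs; it contains all flag homology spheres of dimension at most three, all flag homology
  spheres which are order complexes of partially ordered sets (for example the barycentric subdivisions of the regular
  cell structures on spheres), and all flag homology spheres with vectors `c v` of `ℝ^n` and `f v` of `ℝ^p` which have the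
  same inner products on the diagonal and on the edges, and such that `⟪f u, f v⟫` is larger than `⟪c u, c v⟫` otherwise;
  for example the complexes of the simplicial arrangements of hyperplanes in `ℝ^n` (`arr`).
-/

set_option autoImplicit false

namespace SingerFold

open SingerPD SingerCube

/-- the class of graphs: it contains all flag homology spheres of dimension at most three (`low`) and all flag homology
spheres of any dimension whose graph is the comparability graph of a partial order on the set of vertices (`ord`) or which
have a positive configuration of vectors of `ℝ^n` and `ℝ^p` (`fold`) or whose vertices are vectors of `ℝ^n` such that two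
of them are adjacent iff no hyperplane of a finite family separates them strictly (`arr`), it is closed under suspension, edge subdivision, glueing along full subgraphs of codimension one (`glue`), splitting of vertices
(`split`: `conef G K B` is `G` with the edge `p q` contracted), isomorphism; for odd `n` a finite graph with the sphere
condition with links in `Cls n` is in `Cls (n + 1)` (`even`) -/
inductive Cls : ∀ (_ : ℕ) {V : Type}, SimpleGraph V → Prop
  | low {n : ℕ} {V : Type} {G : SimpleGraph V} : n ≤ 4 → HSphere n G → Cls n G
  | ord {n : ℕ} {V : Type} [PartialOrder V] {G : SimpleGraph V} : (∀ a b, G.Adj a b ↔ a < b ∨ b < a) →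
      HSphere n G → Cls n G
  | fold {n p : ℕ} {V : Type} {G : SimpleGraph V} (c : V → Fin n → ℝ) (f : V → Fin p → ℝ) : HSphere n G →
      (∀ u v, u = v ∨ G.Adj u v → ∑ j, f u j * f v j = ∑ j, c u j * c v j) →
      (∀ u v, u ≠ v → ¬ G.Adj u v → ∑ j, c u j * c v j < ∑ j, f u j * f v j) → Cls n G
  | arr {n m : ℕ} {V : Type} {G : SimpleGraph V} (c : V → Fin n → ℝ) (H : Fin m → Fin n → ℝ) : HSphere n G →
      (∀ u v, u ≠ v → (G.Adj u v ↔ ∀ j, 0 ≤ (∑ k, H j k * c u k) * ∑ k, H j k * c v k)) → Cls n G
  | susp {n : ℕ} {V : Type} {G : SimpleGraph V} : Cls n G → Cls (n + 1) (SingerPD.susp G)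
  | subd {n : ℕ} {V : Type} {G : SimpleGraph V} {a b : V} : Cls n G → G.Adj a b → Cls n (SingerPD.subd G a b)
  | glue {n : ℕ} {V : Type} {G : SimpleGraph V} {K K' B : Finset V} : (∀ v, v ∈ K ∨ v ∈ K') →
      (∀ v, v ∈ B ↔ v ∈ K ∧ v ∈ K') → (∀ u v, u ∉ K' → v ∉ K → ¬ G.Adj u v) →
      Cls n (conef G K B) → Cls n (conef G K' B) → Cls n G
  | split {n : ℕ} {V : Type} {G : SimpleGraph V} {p q : V} {K B : Finset V} : G.Adj p q →
      (∀ v, v ∈ K ↔ v ≠ p ∧ v ≠ q) → (∀ v, v ∈ B ↔ v ∈ K ∧ (G.Adj p v ∨ G.Adj q v)) →
      (∀ x y, G.Adj p x → G.Adj x y → G.Adj y q → x = q ∨ y = p ∨ G.Adj q x ∨ G.Adj p y) →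
      Cls (n + 1) (conef G K B) → Cls n (link G p) → Cls n (link G q) → Cls (n + 1) G
  | even {n : ℕ} {V : Type} {G : SimpleGraph V} : Odd n → Finite V → SphereCond G →
      (∀ v : V, Cls n (link G v)) → Cls (n + 1) G
  | iso {n : ℕ} {V W : Type} {G : SimpleGraph V} {H : SimpleGraph W} : Cls n G → (G ≃g H) → Cls n H

end SingerFold
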