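import Pool.Agent.Singer.Defs

/-!
# Singer: graph isomorphisms for the edge subdivision

In `subd G a b` the edge from the new vertex `none` to `some b` is in no empty square, its contraction is `G`,
the link of `none` is the suspension of the link of the edge `ab`, and the link of `some b` is the link of `b` in `G`.
-/

set_option autoImplicit false
set_option linter.unusedSectionVars false
set_option linter.unusedVariables false

namespace Singer

universe u

section subd
variable {V : Type u} [Fintype V] [DecidableEq V]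

lemma subd_some_some {G : SimpleGraph V} {a b u v : V} :
    (subd G a b).Adj (some u) (some v) ↔ G.Adj u v ∧ ¬ (u = a ∧ v = b) ∧ ¬ (u = b ∧ v = a) := Iff.rfl

lemma subd_none_some {G : SimpleGraph V} {a b v : V} :
    (subd G a b).Adj none (some v) ↔ v = a ∨ v = b ∨ (G.Adj a v ∧ G.Adj b v) := Iff.rfl

lemma subd_some_none {G : SimpleGraph V} {a b v : V} :
    (subd G a b).Adj (some v) none ↔ v = a ∨ v = b ∨ (G.Adj a v ∧ G.Adj b v) := Iff.rfl

/-- contraction of the edge from `none` to `some b` -/
def subdCapIso (G : SimpleGraph V) {a b : V} (h : G.Adj a b) {K B : Finset (Option V)}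
    (hK : ∀ v, v ∈ K ↔ v ≠ none ∧ v ≠ some b)
    (hB : ∀ v, v ∈ B ↔ v ∈ K ∧ ((subd G a b).Adj none v ∨ (subd G a b).Adj (some b) v)) :
    G ≃g cap (subd G a b) K B where
  toFun v := if hv : v = b then none else some ⟨some v, (hK _).2 ⟨by simp, by simpa using hv⟩⟩
  invFun x := match x with
    | none => b
    | some ⟨v, hv⟩ => v.get (Option.isSome_iff_ne_none.2 ((hK v).1 hv).1)
  left_inv v := by
    by_cases hv : v = b
    · simp [hv]
    · simp [hv]
  right_inv x := by
    rcases x with _ | ⟨_ | v, hv⟩
    · simp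
    · exact absurd rfl ((hK _).1 hv).1
    · have : v ≠ b := fun e => ((hK _).1 hv).2 (by rw [e])
      simp [this]
  map_rel_iff' := by
    intro u v
    have hab : a ≠ b := h.ne
    have key : ∀ w, w ≠ b → ((some w : Option V) ∈ B ↔ G.Adj b w) := by
      intro w hw
      rw [hB, hK, subd_none_some, subd_some_some]
      constructor
      · rintro ⟨-, (rfl | h1 | h1) | h1⟩
        · exact h.symm
        · exact absurd h1 hw
        · exact h1.2
        · exact h1.1
      · intro h1
        refine ⟨⟨by simp, by simpa using hw⟩, ?_⟩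
        by_cases hwa : w = a
        · exact Or.inl (Or.inl hwa)
        · exact Or.inr ⟨h1, fun h2 => hab h2.1.symm, fun h2 => hwa h2.2⟩
    by_cases hu : u = b
    · by_cases hv : v = b
      · subst hu; subst hv
        simp
      · subst hu
        simp only [Equiv.coe_fn_mk, dite_true, hv, dite_false]
        exact key v hv
    · by_cases hv : v = b
      · subst hv
        simp only [Equiv.coe_fn_mk, dite_true, hu, dite_false]
        exact (key u hu).trans (G.adj_comm _ _)
      · simp only [Equiv.coe_fn_mk, hu, hv, dite_false]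
        show (subd G a b).Adj (some u) (some v) ↔ _
        rw [subd_some_some]
        exact ⟨fun h1 => h1.1, fun h1 => ⟨h1, fun h2 => hv h2.2, fun h2 => hu h2.1⟩⟩

/-- the link of the new vertex is the suspension of the link of the edge -/
noncomputable def subdLinkNoneIso (G : SimpleGraph V) {a b : V} (h : G.Adj a b) :
    susp (lk (lk G a) ⟨b, h⟩) ≃g lk (subd G a b) none where
  toEquiv := Equiv.ofBijective
    (fun x : {w : {w // G.Adj a w} // (lk G a).Adj ⟨b, h⟩ w} ⊕ Bool =>
      (match x with
        | .inl w => ⟨some w.1.1, Or.inr (Or.inr ⟨w.1.2, w.2⟩)⟩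
        | .inr true => ⟨some a, Or.inl rfl⟩
        | .inr false => ⟨some b, Or.inr (Or.inl rfl)⟩ : {w // (subd G a b).Adj none w}))
    (by
      have hab : a ≠ b := h.ne
      constructor
      · rintro (⟨⟨u, hu⟩, hu'⟩ | (_ | _)) (⟨⟨v, hv⟩, hv'⟩ | (_ | _)) e
        · have e1 : u = v := by simpa using e
          subst e1
          rfl
        · have e1 : u = b := by simpa using e
          subst e1
          exact absurd hu' (G.loopless.1 _)
        · have e1 : u = a := by simpa using e
          subst e1
          exact absurd hu (G.loopless.1 _)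
        · have e1 : b = v := by simpa using e
          subst e1
          exact absurd hv' (G.loopless.1 _)
        · rfl
        · have e1 : b = a := by simpa using e
          exact absurd e1.symm hab
        · have e1 : a = v := by simpa using e
          subst e1
          exact absurd hv (G.loopless.1 _)
        · have e1 : a = b := by simpa using e
          exact absurd e1 hab
        · rfl
      · rintro ⟨_ | v, hv⟩
        · exact absurd hv ((subd G a b).loopless.1 _)
        · rcases hv with rfl | rfl | hv
          · exact ⟨.inr true, rfl⟩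
          · exact ⟨.inr false, rfl⟩
          · exact ⟨.inl ⟨⟨v, hv.1⟩, hv.2⟩, rfl⟩)
  map_rel_iff' := by
    have hab : a ≠ b := h.ne
    rintro (⟨⟨u, hu⟩, hu'⟩ | (_ | _)) (⟨⟨v, hv⟩, hv'⟩ | (_ | _))
    · have h1 : u ≠ a := hu.ne'
      have h2 : u ≠ b := SimpleGraph.Adj.ne' hu'
      show (subd G a b).Adj (some u) (some v) ↔ G.Adj u v
      rw [subd_some_some]
      exact ⟨fun h3 => h3.1, fun h3 => ⟨h3, fun h4 => h1 h4.1, fun h4 => h2 h4.1⟩⟩
    · have h1 : u ≠ a := hu.ne'
      show (subd G a b).Adj (some u) (some b) ↔ True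
      rw [subd_some_some]
      exact ⟨fun _ => trivial, fun _ => ⟨SimpleGraph.Adj.symm hu', fun h4 => h1 h4.1, fun h4 => hab h4.2.symm⟩⟩
    · have h2 : u ≠ b := SimpleGraph.Adj.ne' hu'
      show (subd G a b).Adj (some u) (some a) ↔ True
      rw [subd_some_some]
      exact ⟨fun _ => trivial, fun _ => ⟨SimpleGraph.Adj.symm hu, fun h4 => hab h4.2, fun h4 => h2 h4.1⟩⟩
    · have h1 : v ≠ a := hv.ne'
      show (subd G a b).Adj (some b) (some v) ↔ True
      rw [subd_some_some]
      exact ⟨fun _ => trivial, fun _ => ⟨hv', fun h4 => hab h4.1.symm, fun h4 => h1 h4.2⟩⟩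
    · show (subd G a b).Adj (some b) (some b) ↔ False
      exact ⟨fun h4 => (subd G a b).loopless.1 _ h4, fun h4 => h4.elim⟩
    · show (subd G a b).Adj (some b) (some a) ↔ False
      rw [subd_some_some]
      exact ⟨fun h4 => h4.2.2 ⟨rfl, rfl⟩, fun h4 => h4.elim⟩
    · have h2 : v ≠ b := SimpleGraph.Adj.ne' hv'
      show (subd G a b).Adj (some a) (some v) ↔ True
      rw [subd_some_some]
      exact ⟨fun _ => trivial, fun _ => ⟨hv, fun h4 => h2 h4.2, fun h4 => hab h4.1⟩⟩
    · show (subd G a b).Adj (some a) (some b) ↔ False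
      rw [subd_some_some]
      exact ⟨fun h4 => h4.2.1 ⟨rfl, rfl⟩, fun h4 => h4.elim⟩
    · show (subd G a b).Adj (some a) (some a) ↔ False
      exact ⟨fun h4 => (subd G a b).loopless.1 _ h4, fun h4 => h4.elim⟩

lemma subd_adj_b {G : SimpleGraph V} {a b v : V} (h : G.Adj a b) (hv : G.Adj b v) (hva : v ≠ a) :
    (subd G a b).Adj (some b) (some v) := by
  rw [subd_some_some]
  exact ⟨hv, fun h4 => h.ne h4.1.symm, fun h4 => hva h4.2⟩

/-- the link of `some b` -/
noncomputable def subdLinkIso (G : SimpleGraph V) {a b : V} (h : G.Adj a b) :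
    lk G b ≃g lk (subd G a b) (some b) where
  toEquiv := Equiv.ofBijective
    (fun x : {w // G.Adj b w} =>
      (if hx : x.1 = a then ⟨none, Or.inr (Or.inl rfl)⟩
        else ⟨some x.1, subd_adj_b h x.2 hx⟩ : {w // (subd G a b).Adj (some b) w}))
    (by
      constructor
      · rintro ⟨u, hu⟩ ⟨v, hv⟩ e
        by_cases h1 : u = a <;> by_cases h2 : v = a
        · subst h1; subst h2; rfl
        · simp [h1, h2] at e
        · simp [h1, h2] at e
        · simpa [h1, h2] using e
      · rintro ⟨_ | v, hv⟩
        · exact ⟨⟨a, h.symm⟩, by simp⟩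
        · have hv' := (subd_some_some.1 hv)
          have hva : v ≠ a := fun e => hv'.2.2 ⟨rfl, e⟩
          exact ⟨⟨v, hv'.1⟩, by simp [hva]⟩)
  map_rel_iff' := by
    have hab : a ≠ b := h.ne
    rintro ⟨u, hu⟩ ⟨v, hv⟩
    have hub : u ≠ b := hu.ne'
    have hvb : v ≠ b := hv.ne'
    by_cases h1 : u = a <;> by_cases h2 : v = a
    · subst h1; subst h2
      simp
    · subst h1
      simp only [Equiv.ofBijective_apply, dite_true, h2, dite_false]
      show (subd G u b).Adj none (some v) ↔ G.Adj u v
      rw [subd_none_some]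
      exact ⟨fun h4 => h4.elim (fun h5 => absurd h5 h2) (fun h5 => h5.elim (fun h6 => absurd h6 hvb) fun h6 => h6.1),
        fun h4 => Or.inr (Or.inr ⟨h4, hv⟩)⟩
    · subst h2
      simp only [Equiv.ofBijective_apply, dite_true, h1, dite_false]
      show (subd G v b).Adj (some u) none ↔ G.Adj u v
      rw [subd_some_none]
      exact ⟨fun h4 => h4.elim (fun h5 => absurd h5 h1) (fun h5 => h5.elim (fun h6 => absurd h6 hub) fun h6 => h6.1.symm),
        fun h4 => Or.inr (Or.inr ⟨h4.symm, hu⟩)⟩
    · simp only [Equiv.ofBijective_apply, h1, h2, dite_false]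
      show (subd G a b).Adj (some u) (some v) ↔ G.Adj u v
      rw [subd_some_some]
      exact ⟨fun h3 => h3.1, fun h3 => ⟨h3, fun h4 => h1 h4.1, fun h4 => hub h4.1⟩⟩

end subd

end Singer
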