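import Pool.Agent.Singer.ToFin
import Pool.Agent.Singer.Sphere
import Pool.Agent.Singer.Index

/-!
# Singer: duality for the subgroups of finite index
-/

set_option autoImplicit false
set_option linter.unusedSectionVars false
set_option linter.unusedVariables false

namespace Singer

universe u

/-- the sphere condition gives Poincare duality groups -/
theorem isPD_of_goodQ {n : ℕ} {V : Type u} [Fintype V] {G : SimpleGraph V}
    (h : GoodQ (fun n {V} [Fintype V] (G : SimpleGraph V) => QS.{u} n G) n G) {H : Subgroup (RACG G)}
    (hi : H.FiniteIndex) (hH : NoInv H) : IsPD n H := by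
  classical
  obtain ⟨τ, hτ⟩ := exists_facet h
  have hr : Function.Injective (rk : V → ℕ) := fun a b hab =>
    (Fintype.equivFin V).injective (Fin.ext hab)
  obtain ⟨F⟩ := exists_frame hH.fr
  exact isPD_of_sph F hr (hτ rk hr)

theorem isPD_of_cls {n : ℕ} {V : Type u} [Fintype V] {G : SimpleGraph V} (h : Cls n G) {H : Subgroup (RACG G)}
    (hi : H.FiniteIndex) (hH : NoInv H) : IsPD n H :=
  isPD_of_goodQ (goodQ_of_cls closed_QS h) hi hH

/-- existence of finite free resolutions -/
theorem exists_finRes_of_noInv {V : Type u} [Fintype V] {G : SimpleGraph V} {H : Subgroup (RACG G)}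
    (hi : H.FiniteIndex) (hH : NoInv H) : ∃ R : FinRes H, ∀ i, Fintype.card V < i → IsEmpty (R.ι i) := by
  classical
  have hr : Function.Injective (rk : V → ℕ) := fun a b hab =>
    (Fintype.equivFin V).injective (Fin.ext hab)
  obtain ⟨F⟩ := exists_frame hH.fr
  exact exists_finRes F hr

end Singer
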